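import Mathlib

/-! MP_816883_ag: this file joins several modules (see the folders H80/LD, H24/LS) to save build time. -/

section S_H80_LD_Defs

/-!
# MP_816883_ag, project LD (Lipschitz deformation theorem), PI helper80

Definitions shared by all modules.  Do not change this file.

`X` is a parameter space (`ℂ` in the application: the value of the function `f`), `D` the finite set of the
other real coordinates.  All maps `e : X × (D → ℝ) → X × (D → ℝ)` preserve the first component.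
Norm on `X × (D → ℝ)`: the sup norm of Mathlib.
-/

open Filter Topology Metric Set

namespace H80.LD

/-- weighted coordinates: the weighted norm of `v` is `‖sc w v‖`. -/
def sc {X D : Type*} (w : D → ℝ) (v : X × (D → ℝ)) : X × (D → ℝ) := (v.1, fun i => w i * v.2 i)

/-- `(e, e')` is a near-identity bi-Lipschitz pair on `U` with respect to the weights `W`
(pointwise formulation: all conditions are at points of `U`). -/
structure NI {X : Type*} [NormedAddCommGroup X] {D : Type*} [Fintype D]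
    (W : X × (D → ℝ) → D → ℝ) (ε L : ℝ) (U : Set (X × (D → ℝ)))
    (e e' : X × (D → ℝ) → X × (D → ℝ)) : Prop where
  pres : ∀ p, (e p).1 = p.1
  pres' : ∀ p, (e' p).1 = p.1
  disp : ∀ p ∈ U, ‖sc (W p) (e p - p)‖ ≤ ε
  disp' : ∀ p ∈ U, ‖sc (W p) (e' p - p)‖ ≤ ε
  lip : ∀ p ∈ U, ∀ᶠ q in 𝓝 p, ‖sc (W p) (e q - e p)‖ ≤ L * ‖sc (W p) (q - p)‖
  lip' : ∀ p ∈ U, ∀ᶠ q in 𝓝 p, ‖sc (W p) (e' q - e' p)‖ ≤ L * ‖sc (W p) (q - p)‖
  inv : ∀ p ∈ U, e p ∈ U → e' (e p) = p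
  inv' : ∀ p ∈ U, e' p ∈ U → e (e' p) = p

/-- the same with all weights equal to one, for a general normed space `V` instead of `D → ℝ`. -/
structure NP {X V : Type*} [NormedAddCommGroup X] [NormedAddCommGroup V]
    (ε L : ℝ) (U : Set (X × V)) (e e' : X × V → X × V) : Prop where
  pres : ∀ p, (e p).1 = p.1
  pres' : ∀ p, (e' p).1 = p.1
  disp : ∀ p ∈ U, ‖e p - p‖ ≤ ε
  disp' : ∀ p ∈ U, ‖e' p - p‖ ≤ ε
  lip : ∀ p ∈ U, ∀ᶠ q in 𝓝 p, ‖e q - e p‖ ≤ L * ‖q - p‖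
  lip' : ∀ p ∈ U, ∀ᶠ q in 𝓝 p, ‖e' q - e' p‖ ≤ L * ‖q - p‖
  inv : ∀ p ∈ U, e p ∈ U → e' (e p) = p
  inv' : ∀ p ∈ U, e' p ∈ U → e (e' p) = p

/-- The Lipschitz deformation (extension) theorem with complex parameter: a near-identity bi-Lipschitz pair on
`U` can be replaced by a global one, unchanged deep inside `U` and equal to the identity outside `U`. -/
def ExtStmt (D : Type) [Fintype D] : Prop :=
  ∀ L : ℝ, 1 ≤ L → ∀ ζ : ℝ, 0 < ζ → ∃ ε₀ : ℝ, 0 < ε₀ ∧ ∃ C : ℝ, 1 ≤ C ∧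
    ∀ ε : ℝ, 0 < ε → ε ≤ ε₀ → ∀ (U : Set (ℂ × (D → ℝ))) (e e' : ℂ × (D → ℝ) → ℂ × (D → ℝ)),
      NP ε L U e e' → ∃ F F' : ℂ × (D → ℝ) → ℂ × (D → ℝ), NP (C * ε) C univ F F' ∧
        (∀ p, closedBall p ζ ⊆ U → F p = e p ∧ F' p = e' p) ∧
        (∀ p, p ∉ U → F p = p ∧ F' p = p)

/-- The core (tapering across the wall `p.2 t = 0`). -/
def CoreStmt (X : Type) [NormedAddCommGroup X] [NormedSpace ℝ X] (D : Type) [Fintype D] (t : D) : Prop :=
  ∀ L : ℝ, 1 ≤ L → ∃ R : ℝ, 1 ≤ R ∧ ∃ ε₀ : ℝ, 0 < ε₀ ∧ ∃ C : ℝ, 1 ≤ C ∧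
    ∀ ε : ℝ, 0 < ε → ε ≤ ε₀ → ∀ (U : Set (X × (D → ℝ))) (e e' : X × (D → ℝ) → X × (D → ℝ)),
      NP ε L U e e' → ∃ F F' : X × (D → ℝ) → X × (D → ℝ),
        NP (C * ε) C {p : X × (D → ℝ) | (p.2 t < 0 ∧ p ∈ U) ∨ closedBall p R ⊆ U ∨ R < p.2 t} F F' ∧
        (∀ p : X × (D → ℝ), p.2 t ≤ 0 → F p = e p ∧ F' p = e' p) ∧
        (∀ p : X × (D → ℝ), R ≤ p.2 t → F p = p ∧ F' p = p) ∧
        (∀ p : X × (D → ℝ), (∀ q ∈ closedBall p R, e q = q ∧ e' q = q) → F p = p ∧ F' p = p)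

end H80.LD

end S_H80_LD_Defs

section S_H80_LD_K0

/-!
# K0: definitions for the clock function

`a, b : D` are the two special coordinates; `JJ a b` the others.  `cb` (c bar) is a continuous function of `y b` and of the coordinates
`y i`, `i ∈ JJ a b`, with `⌊y b⌋ ≤ cb y ≤ ⌊y b⌋ + 1`.  The unit interval is divided into `MM` subintervals, one for each colour `κ : JJ a b → Bool`;
in the subinterval number `num κ` only the part `wt κ` of the partition of unity is raised.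
-/

open Filter Topology Metric Set

namespace H80.LD

noncomputable def cl (x : ℝ) : ℝ := max 0 (min 1 x)
noncomputable def ramp (s : ℝ) : ℝ := cl (2 * s - 1 / 2)
noncomputable def uu (η : ℝ) : ℝ := cl (3 - 10 * |η - round η|)

section
variable {D : Type*} [Fintype D] [DecidableEq D]

abbrev JJ (a b : D) : Type _ := {i : D // i ≠ a ∧ i ≠ b}

noncomputable def MM (a b : D) : ℕ := Fintype.card (JJ a b → Bool)

noncomputable def num (a b : D) : (JJ a b → Bool) ≃ Fin (MM a b) := Fintype.equivFin _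

noncomputable def wt (a b : D) (κ : JJ a b → Bool) (η : D → ℝ) : ℝ :=
  ∏ i : JJ a b, if κ i then uu (η i) else 1 - uu (η i)

/-- scale of the coordinate `i` at level `j` -/
noncomputable def sH (σ : ℝ → ℝ) (H : Finset D) (j : ℤ) (i : D) : ℝ := if i ∈ H then σ (j : ℝ) else 1

noncomputable def eta (σ : ℝ → ℝ) (H : Finset D) (b : D) (y : D → ℝ) (i : D) : ℝ := sH σ H ⌊y b⌋ i * y i

/-- the clock function -/
noncomputable def cb (σ : ℝ → ℝ) (H : Finset D) (a b : D) (y : D → ℝ) : ℝ :=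
  (⌊y b⌋ : ℝ) + ∑ κ : JJ a b → Bool,
    wt a b κ (eta σ H b y) * ramp ((MM a b : ℝ) * Int.fract (y b) - ((num a b κ : ℕ) : ℝ))

/-- number of the current subinterval -/
noncomputable def nn (a b : D) (y : D → ℝ) : ℕ := ⌊(MM a b : ℝ) * Int.fract (y b)⌋₊

/-- current colour -/
noncomputable def col (a b : D) (y : D → ℝ) : JJ a b → Bool :=
  if h : nn a b y < MM a b then (num a b).symm ⟨nn a b y, h⟩ else fun _ => true

/-- centre of the box -/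
noncomputable def ZZ (σ : ℝ → ℝ) (lj : ℤ → ℝ) (H : Finset D) (a b : D) (y : D → ℝ) (i : D) : ℝ :=
  if h : i ≠ a ∧ i ≠ b then
    (if col a b y ⟨i, h⟩ then (round (eta σ H b y i) : ℝ) else (⌊eta σ H b y i⌋ : ℝ) + 1 / 2) / sH σ H ⌊y b⌋ i
  else if i = b then (⌊y b⌋ : ℝ) + ((nn a b y : ℝ) + 1 / 2) / (MM a b : ℝ)
  else ((⌊y a / lj ⌊y b⌋ + 1 / 8⌋ : ℝ) + 3 / 8) * lj ⌊y b⌋

/-- half sides of the box -/
noncomputable def LL (σ : ℝ → ℝ) (lj : ℤ → ℝ) (H : Finset D) (a b : D) (y : D → ℝ) (i : D) : ℝ :=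
  if i ≠ a ∧ i ≠ b then 35 / 100 / sH σ H ⌊y b⌋ i
  else if i = b then 3 / 10 / (MM a b : ℝ)
  else 34 / 100 * lj ⌊y b⌋

/-- is there a box -/
def ndd (lj : ℤ → ℝ) (nd : ℤ → ℤ → Prop) (b a : D) (y : D → ℝ) : Prop := nd ⌊y b⌋ ⌊y a / lj ⌊y b⌋ + 1 / 8⌋

/-- weights: `σ (p b)` on `H`, `1` elsewhere -/
noncomputable def wgt {X : Type*} (σ : ℝ → ℝ) (H : Finset D) (b : D) (p : X × (D → ℝ)) (i : D) : ℝ :=
  if i ∈ H then σ (p.2 b) else 1

end

end H80.LD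

end S_H80_LD_K0

section S_H80_LD_P0

/-!
# P0: definitions of the patterns (all functions are piecewise linear or integrals of such)
-/

open Filter Topology Metric Set MeasureTheory

namespace H80.LD

/-- bump pair supported in `[1/10, 2/5]`, odd about `1/4` -/
noncomputable def T1f (u : ℝ) : ℝ := cl (20 * u - 2) - 2 * cl (10 * u - 2) + cl (20 * u - 7)

noncomputable def fp (w : ℝ) : ℝ := max 0 (1 - 2 * |w|)
noncomputable def fm (w : ℝ) : ℝ := max 0 (2 * |w| - 1)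
/-- odd, `2 w` on `[0, 1/2]`, `2 - 2 w` on `[1/2, 1]` -/
noncomputable def fs (w : ℝ) : ℝ := 2 * w - 4 * max (w - 1 / 2) 0 + 4 * max (-w - 1 / 2) 0

/-- pattern in the unit cell with parameters `A, θ ∈ [0,1]` -/
noncomputable def WW (A θ u : ℝ) : ℝ := A * (T1f ((1 + θ) * u) + θ * T1f (2 * u - 1))

/-- periodic pattern -/
noncomputable def pw (A θ z : ℝ) : ℝ := WW A θ (Int.fract z)

noncomputable def Ip (A θ : ℝ) : ℝ := ∫ u in (0 : ℝ)..1, fp (WW A θ u)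
noncomputable def Im (A θ : ℝ) : ℝ := ∫ u in (0 : ℝ)..1, fm (WW A θ u)

noncomputable def G1 (A θ α z : ℝ) : ℝ := ∫ t in (0 : ℝ)..z, (α * fp (pw A θ t) - fm (pw A θ t))
noncomputable def G2 (A θ z : ℝ) : ℝ := ∫ t in (0 : ℝ)..z, fs (pw A θ t)

noncomputable def Lam : ℝ := 10 ^ 8
noncomputable def Lp : ℝ := 10 ^ 10
noncomputable def KK : ℝ := 10 ^ 9

/-- the scale function -/
noncomputable def sg (c : ℝ) : ℝ := (2 : ℝ) ^ (max (c / Lp) 0)
noncomputable def lam' (i : ℕ) : ℝ := Lam / 2 ^ i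
noncomputable def th (i : ℕ) (c : ℝ) : ℝ := max (c / Lp) 0 - i
noncomputable def am (c : ℝ) : ℝ := cl (1 + c / Lp)
noncomputable def al (i : ℕ) (c : ℝ) : ℝ := (1 / sg c + Im (am c) (th i c)) / Ip (am c) (th i c)
noncomputable def Wf (i : ℕ) (c x : ℝ) : ℝ := pw (am c) (th i c) (x / lam' i)
noncomputable def g1f (i : ℕ) (c x : ℝ) : ℝ := lam' i * sg c * G1 (am c) (th i c) (al i c) (x / lam' i)
noncomputable def g2f (i : ℕ) (c x : ℝ) : ℝ := lam' i * sg c * G2 (am c) (th i c) (x / lam' i)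

noncomputable def lev (c : ℝ) : ℕ := ⌊c / Lp⌋₊

/-- the growing pattern -/
noncomputable def b1 (c x : ℝ) : ℝ := g1f (lev c) c x
noncomputable def b2 (c x : ℝ) : ℝ := g2f (lev c) c x
noncomputable def bn1 (c x : ℝ) : ℝ := -fs (Wf (lev c) c x)
noncomputable def bn2 (c x : ℝ) : ℝ := 1 - 2 * |Wf (lev c) c x|
noncomputable def blj (j : ℤ) : ℝ := lam' (lev (j : ℝ))
def bnd (j _m : ℤ) : Prop := -Lp ≤ (j : ℝ)

/-- the outermost pattern (no drift for `t ≥ 0`) -/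
noncomputable def Wo (t : ℝ) : ℝ := pw 1 0 (max t 0 / Lam)
noncomputable def alo : ℝ := Im 1 0 / Ip 1 0
noncomputable def Do (y : ℝ) : ℝ := alo * fp (Wo y) - fm (Wo y) + (1 - alo) * cl (1 - 20 * y / Lam)
noncomputable def o1 (_c t : ℝ) : ℝ := ∫ y in (0 : ℝ)..t, Do y
noncomputable def o2 (_c t : ℝ) : ℝ := ∫ y in (0 : ℝ)..t, fs (Wo y)
noncomputable def on1 (_c t : ℝ) : ℝ := -fs (Wo t)
noncomputable def on2 (_c t : ℝ) : ℝ := 1 - 2 * |Wo t|
noncomputable def olj (_j : ℤ) : ℝ := Lam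
def ond (_j m : ℤ) : Prop := 0 ≤ m

end H80.LD

end S_H80_LD_P0

section S_H80_LD_C0

/-!
# C0: definitions for the chain of folds and the core theorem

`t : D` is the direction in which the map is tapered.
-/

open Filter Topology Metric Set

namespace H80.LD

section
variable {X : Type*} [NormedAddCommGroup X] {D : Type*} [Fintype D] [DecidableEq D]

/-- `z` is in the relevant neighbourhood of `p`: close to `p` laterally, and close to the point with `t`-coordinate `min (p t) 0` -/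
def vn (t : D) (R : ℝ) (p z : X × (D → ℝ)) : Prop :=
  ‖z.1 - p.1‖ ≤ R ∧ (∀ i, i ≠ t → |z.2 i - p.2 i| ≤ R) ∧ |z.2 t - min (p.2 t) 0| ≤ R

def VV (t : D) (R : ℝ) (U : Set (X × (D → ℝ))) : Set (X × (D → ℝ)) := {p | ∀ z, vn t R p z → z ∈ U}

/-- change of the `t`-coordinate: `2 Lp (1 - 1/sg s)` for `s ≥ 0` -/
noncomputable def TT (s : ℝ) : ℝ := if s ≤ 0 then s else 2 * Lp * (1 - 1 / sg s)

open Classical in
/-- inverse of `TT` on `(-∞, 2 Lp)` -/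
noncomputable def SS (y : ℝ) : ℝ := if h : ∃ s, TT s = y then h.choose else 0

noncomputable def iot (t : D) (p : X × (D → ℝ)) : X × (D → ℝ) := (p.1, Function.update p.2 t (TT (p.2 t)))
noncomputable def kap (t : D) (p : X × (D → ℝ)) : X × (D → ℝ) := (p.1, Function.update p.2 t (SS (p.2 t)))

/-- translation of the `t`-coordinate -/
noncomputable def shf (t : D) (s : ℝ) (p : X × (D → ℝ)) : X × (D → ℝ) := (p.1, Function.update p.2 t (p.2 t + s))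

end

/-- result of the chain of folds for the set `H` of lateral coordinates -/
def ChainStmt (X : Type) [NormedAddCommGroup X] (D : Type) [Fintype D] [DecidableEq D] (t : D) (H : Finset D) : Prop :=
  ∀ L : ℝ, 1 ≤ L → ∃ R : ℝ, 1 ≤ R ∧ ∃ ε₀ : ℝ, 0 < ε₀ ∧ ∃ C : ℝ, 1 ≤ C ∧
    ∀ ε : ℝ, 0 < ε → ε ≤ ε₀ → ∀ (U : Set (X × (D → ℝ))) (e e' : X × (D → ℝ) → X × (D → ℝ)),
      NP ε L U e e' → ∃ E E' : X × (D → ℝ) → X × (D → ℝ),
        NI (wgt sg H t) (C * ε) C (VV t R U) E E' ∧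
        (∀ p ∈ VV t R U, (∀ z, vn t R p z → e z = z ∧ e' z = z) → E p = p ∧ E' p = p) ∧
        (∀ p ∈ VV t R U, p.2 t ≤ -Lp - 2 → E p = e p ∧ E' p = e' p)

/-- the core theorem before the last step -/
def HatStmt (X : Type) [NormedAddCommGroup X] (D : Type) [Fintype D] (t : D) : Prop :=
  ∀ L : ℝ, 1 ≤ L → ∃ R : ℝ, 1 ≤ R ∧ ∃ ε₀ : ℝ, 0 < ε₀ ∧ ∃ C : ℝ, 1 ≤ C ∧
    ∀ ε : ℝ, 0 < ε → ε ≤ ε₀ → ∀ (U : Set (X × (D → ℝ))) (e e' : X × (D → ℝ) → X × (D → ℝ)),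
      NP ε L U e e' → ∃ F F' : X × (D → ℝ) → X × (D → ℝ),
        NP (C * ε) C {p : X × (D → ℝ) | closedBall p R ⊆ U ∨ R < p.2 t} F F' ∧
        (∀ p : X × (D → ℝ), closedBall p R ⊆ U → p.2 t ≤ 1 → F p = e p ∧ F' p = e' p) ∧
        (∀ p : X × (D → ℝ), R ≤ p.2 t → F p = p ∧ F' p = p) ∧
        (∀ p : X × (D → ℝ), closedBall p R ⊆ U → (∀ q ∈ closedBall p R, e q = q ∧ e' q = q) → F p = p ∧ F' p = p)

end H80.LD

end S_H80_LD_C0

section S_H80_LD_B0b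

/-!
# B0b: formal properties of the class `NP`

* `B0b_symm`, `B0b_mono`: trivial.
* `B0b_comp`: for `p` in the set `V` below: displacement by the triangle inequality through `e₂ p` (resp. `e₁' p`); Lipschitz: `e₂` has the pointwise bound
  at `p ∈ U₂` and is continuous at `p` (pointwise Lipschitz), `e₁` has the bound at `e₂ p ∈ U₁`; same for the inverses (`e₁'` at `p ∈ U₁`, `e₂'` at `e₁' p ∈ U₂`).
  `inv`: `p ∈ V`, `r = e₁ (e₂ p) ∈ V`: `e₂ p ∈ U₁` and `r ∈ U₁` give `e₁' r = e₂ p`; `r ∈ V` gives `e₁' r ∈ U₂`, i.e. `e₂ p ∈ U₂`, so `e₂' (e₂ p) = p`.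
  `inv'`: `p ∈ V`, `r = e₂' (e₁' p) ∈ V`: `e₁' p ∈ U₂`, `r ∈ U₂` give `e₂ r = e₁' p`; `r ∈ V` gives `e₂ r ∈ U₁`, i.e. `e₁' p ∈ U₁`, so `e₁ (e₁' p) = p`.
* `B0b_conj`: conjugation by a bi-Lipschitz bijection which maps fibres to fibres; `p = Φ (Φ' p)`.
* `B0b_ite`: pointwise Lipschitz bound for a function which is near `p` equal to one of two functions with the bound and the same value at `p`.
* `B0b_plip_comp`: chain rule for pointwise bounds.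
-/

open Filter Topology Metric Set

namespace H80.LD

theorem B0b_symm {X V : Type*} [NormedAddCommGroup X] [NormedAddCommGroup V]
    {ε L : ℝ} {U : Set (X × V)} {e e' : X × V → X × V} (h : NP ε L U e e') : NP ε L U e' e :=
  ⟨h.pres', h.pres, h.disp', h.disp, h.lip', h.lip, h.inv', h.inv⟩

theorem B0b_mono {X V : Type*} [NormedAddCommGroup X] [NormedAddCommGroup V]
    {ε ε₁ L L₁ : ℝ} {U U₁ : Set (X × V)} {e e' : X × V → X × V} (h : NP ε L U e e')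
    (hε : ε ≤ ε₁) (hL : L ≤ L₁) (hU : U₁ ⊆ U) : NP ε₁ L₁ U₁ e e' where
  pres := h.pres
  pres' := h.pres'
  disp p hp := (h.disp p (hU hp)).trans hε
  disp' p hp := (h.disp' p (hU hp)).trans hε
  lip p hp := by
    filter_upwards [h.lip p (hU hp)] with q hq
    exact hq.trans (mul_le_mul_of_nonneg_right hL (norm_nonneg _))
  lip' p hp := by
    filter_upwards [h.lip' p (hU hp)] with q hq
    exact hq.trans (mul_le_mul_of_nonneg_right hL (norm_nonneg _))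
  inv p hp hq := h.inv p (hU hp) (hU hq)
  inv' p hp hq := h.inv' p (hU hp) (hU hq)

theorem B0b_cont {E F : Type*} [NormedAddCommGroup E] [NormedAddCommGroup F] {G : E → F} {L : ℝ} {p : E}
    (l1 : ∀ᶠ q in 𝓝 p, ‖G q - G p‖ ≤ L * ‖q - p‖) : ContinuousAt G p := by
  rw [ContinuousAt, tendsto_iff_norm_sub_tendsto_zero]
  have h0 : Tendsto (fun q : E => L * ‖q - p‖) (𝓝 p) (𝓝 0) := by
    have : Tendsto (fun q : E => L * ‖q - p‖) (𝓝 p) (𝓝 (L * ‖p - p‖)) := by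
      apply Continuous.tendsto
      fun_prop
    simpa using this
  exact squeeze_zero' (Eventually.of_forall fun q => norm_nonneg _) l1 h0

theorem B0b_plip_comp {E F H : Type*} [NormedAddCommGroup E] [NormedAddCommGroup F] [NormedAddCommGroup H]
    {G : E → F} {G₁ : F → H} {L L₁ : ℝ} {p : E} (hL₁ : 0 ≤ L₁)
    (l : ∀ᶠ q in 𝓝 p, ‖G q - G p‖ ≤ L * ‖q - p‖) (l1 : ∀ᶠ q in 𝓝 (G p), ‖G₁ q - G₁ (G p)‖ ≤ L₁ * ‖q - G p‖) :
    ∀ᶠ q in 𝓝 p, ‖G₁ (G q) - G₁ (G p)‖ ≤ (L₁ * L) * ‖q - p‖ := by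
  have hc : ContinuousAt G p := B0b_cont l
  filter_upwards [l, hc.eventually l1] with q h1 h2
  calc ‖G₁ (G q) - G₁ (G p)‖ ≤ L₁ * ‖G q - G p‖ := h2
    _ ≤ L₁ * (L * ‖q - p‖) := mul_le_mul_of_nonneg_left h1 hL₁
    _ = (L₁ * L) * ‖q - p‖ := by ring

theorem B0b_comp {X V : Type*} [NormedAddCommGroup X] [NormedAddCommGroup V]
    {ε₁ ε₂ L₁ L₂ : ℝ} {U₁ U₂ : Set (X × V)} {e₁ e₁' e₂ e₂' : X × V → X × V} (h₁ : NP ε₁ L₁ U₁ e₁ e₁')
    (h₂ : NP ε₂ L₂ U₂ e₂ e₂') (hL₁ : 0 ≤ L₁) (hL₂ : 0 ≤ L₂) :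
    NP (ε₁ + ε₂) (L₁ * L₂) {p : X × V | p ∈ U₁ ∧ p ∈ U₂ ∧ e₂ p ∈ U₁ ∧ e₁' p ∈ U₂} (fun p => e₁ (e₂ p))
      (fun p => e₂' (e₁' p)) where
  pres p := by rw [h₁.pres, h₂.pres]
  pres' p := by rw [h₂.pres', h₁.pres']
  disp p hp := by
    obtain ⟨-, h2, h3, -⟩ := hp
    have a1 := h₁.disp _ h3
    have a2 := h₂.disp _ h2
    calc ‖e₁ (e₂ p) - p‖ = ‖(e₁ (e₂ p) - e₂ p) + (e₂ p - p)‖ := by congr 1; abel
      _ ≤ ‖e₁ (e₂ p) - e₂ p‖ + ‖e₂ p - p‖ := norm_add_le _ _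
      _ ≤ ε₁ + ε₂ := add_le_add a1 a2
  disp' p hp := by
    obtain ⟨h1, -, -, h4⟩ := hp
    have a1 := h₁.disp' _ h1
    have a2 := h₂.disp' _ h4
    calc ‖e₂' (e₁' p) - p‖ = ‖(e₂' (e₁' p) - e₁' p) + (e₁' p - p)‖ := by congr 1; abel
      _ ≤ ‖e₂' (e₁' p) - e₁' p‖ + ‖e₁' p - p‖ := norm_add_le _ _
      _ ≤ ε₁ + ε₂ := by linarith
  lip p hp := B0b_plip_comp hL₁ (h₂.lip p hp.2.1) (h₁.lip _ hp.2.2.1)
  lip' p hp := by
    have := B0b_plip_comp hL₂ (h₁.lip' p hp.1) (h₂.lip' _ hp.2.2.2)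
    rwa [mul_comm L₂ L₁] at this
  inv p hp hq := by
    have e1 : e₁' (e₁ (e₂ p)) = e₂ p := h₁.inv _ hp.2.2.1 hq.1
    have e2 : e₂ p ∈ U₂ := by
      have := hq.2.2.2
      rwa [e1] at this
    show e₂' (e₁' (e₁ (e₂ p))) = p
    rw [e1]
    exact h₂.inv _ hp.2.1 e2
  inv' p hp hq := by
    have e1 : e₂ (e₂' (e₁' p)) = e₁' p := h₂.inv' _ hp.2.2.2 hq.2.1
    have e2 : e₁' p ∈ U₁ := by
      have := hq.2.2.1
      rwa [e1] at this
    show e₁ (e₂ (e₂' (e₁' p))) = p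
    rw [e1]
    exact h₁.inv' _ hp.1 e2

theorem B0b_conj {X V X₁ V₁ : Type*} [NormedAddCommGroup X] [NormedAddCommGroup V] [NormedAddCommGroup X₁]
    [NormedAddCommGroup V₁] {ε L a b : ℝ} {U : Set (X × V)} {e e' : X × V → X × V} (h : NP ε L U e e')
    (ha : 0 ≤ a) (hb : 0 ≤ b) (hL : 0 ≤ L)
    (Φ : X × V → X₁ × V₁) (Φ' : X₁ × V₁ → X × V) (h1 : ∀ p, Φ' (Φ p) = p) (h2 : ∀ p, Φ (Φ' p) = p)
    (hΦ : ∀ p q, ‖Φ p - Φ q‖ ≤ a * ‖p - q‖) (hΦ' : ∀ p q, ‖Φ' p - Φ' q‖ ≤ b * ‖p - q‖)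
    (hf : ∀ p q : X × V, p.1 = q.1 → (Φ p).1 = (Φ q).1) :
    NP (a * ε) (a * b * L) {p | Φ' p ∈ U} (fun p => Φ (e (Φ' p))) (fun p => Φ (e' (Φ' p))) where
  pres p := by
    have := hf (e (Φ' p)) (Φ' p) (h.pres _)
    rwa [h2] at this
  pres' p := by
    have := hf (e' (Φ' p)) (Φ' p) (h.pres' _)
    rwa [h2] at this
  disp p hp := by
    have a1 := hΦ (e (Φ' p)) (Φ' p)
    rw [h2] at a1
    exact a1.trans (mul_le_mul_of_nonneg_left (h.disp _ hp) ha)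
  disp' p hp := by
    have a1 := hΦ (e' (Φ' p)) (Φ' p)
    rw [h2] at a1
    exact a1.trans (mul_le_mul_of_nonneg_left (h.disp' _ hp) ha)
  lip p hp := by
    have hc : ContinuousAt Φ' p := B0b_cont (Eventually.of_forall fun q => hΦ' q p)
    filter_upwards [hc.eventually (h.lip _ hp)] with q hq
    calc ‖Φ (e (Φ' q)) - Φ (e (Φ' p))‖ ≤ a * ‖e (Φ' q) - e (Φ' p)‖ := hΦ _ _
      _ ≤ a * (L * ‖Φ' q - Φ' p‖) := mul_le_mul_of_nonneg_left hq ha
      _ ≤ a * (L * (b * ‖q - p‖)) :=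
        mul_le_mul_of_nonneg_left (mul_le_mul_of_nonneg_left (hΦ' _ _) hL) ha
      _ = a * b * L * ‖q - p‖ := by ring
  lip' p hp := by
    have hc : ContinuousAt Φ' p := B0b_cont (Eventually.of_forall fun q => hΦ' q p)
    filter_upwards [hc.eventually (h.lip' _ hp)] with q hq
    calc ‖Φ (e' (Φ' q)) - Φ (e' (Φ' p))‖ ≤ a * ‖e' (Φ' q) - e' (Φ' p)‖ := hΦ _ _
      _ ≤ a * (L * ‖Φ' q - Φ' p‖) := mul_le_mul_of_nonneg_left hq ha
      _ ≤ a * (L * (b * ‖q - p‖)) :=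
        mul_le_mul_of_nonneg_left (mul_le_mul_of_nonneg_left (hΦ' _ _) hL) ha
      _ = a * b * L * ‖q - p‖ := by ring
  inv p hp hq := by
    have hq' : e (Φ' p) ∈ U := by
      have : Φ' (Φ (e (Φ' p))) ∈ U := hq
      rwa [h1] at this
    show Φ (e' (Φ' (Φ (e (Φ' p))))) = p
    rw [h1, h.inv _ hp hq', h2]
  inv' p hp hq := by
    have hq' : e' (Φ' p) ∈ U := by
      have : Φ' (Φ (e' (Φ' p))) ∈ U := hq
      rwa [h1] at this
    show Φ (e (Φ' (Φ (e' (Φ' p))))) = p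
    rw [h1, h.inv' _ hp hq', h2]

theorem B0b_ite {E F : Type*} [NormedAddCommGroup E] [NormedAddCommGroup F] {G G₁ G₂ : E → F} {L : ℝ} {p : E}
    (h : ∀ᶠ q in 𝓝 p, G q = G₁ q ∨ G q = G₂ q) (h1 : G p = G₁ p) (h2 : G p = G₂ p)
    (l1 : ∀ᶠ q in 𝓝 p, ‖G₁ q - G₁ p‖ ≤ L * ‖q - p‖) (l2 : ∀ᶠ q in 𝓝 p, ‖G₂ q - G₂ p‖ ≤ L * ‖q - p‖) :
    ∀ᶠ q in 𝓝 p, ‖G q - G p‖ ≤ L * ‖q - p‖ := by
  filter_upwards [h, l1, l2] with q hq h3 h4
  rcases hq with hq | hq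
  · rw [hq, h1]; exact h3
  · rw [hq, h2]; exact h4

end H80.LD

end S_H80_LD_B0b

section S_H80_LD_F0

/-!
# F0: definitions for the near-identity Schoenflies theorem (Mazur swindle)

`P = X × V`, all maps preserve the first component, `‖p.2‖` is the radius.  Given `f, f'` near the identity on the shell
`1/3 < ‖p.2‖ < 2` we extend `f` to the ball.

On `‖p.2‖ ≥ 3/4` the extension is `f`.  For `3/8 ≤ ‖p.2‖ < 3/4` it is `stepF p`; for smaller radii it is continued by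
self-similarity: `F p = ½ F (2 p)`.
-/

open Filter Topology Metric Set

namespace H80.LD

variable {X V : Type*} [NormedAddCommGroup X] [NormedAddCommGroup V] [NormedSpace ℝ V]

/-- multiplication of the second component -/
def lam (a : ℝ) (p : X × V) : X × V := (p.1, a • p.2)

/-- radial map -/
noncomputable def rad (r : ℝ → ℝ) (p : X × V) : X × V := (p.1, (r ‖p.2‖ / ‖p.2‖) • p.2)

/-- `[0.6, 1.5] → [0.6, 0.75]`, identity below `0.6` -/
noncomputable def rS (g : ℝ) : ℝ := min g (1 / 2 + g / 6)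
/-- inverse of `rS` -/
noncomputable def rSi (g : ℝ) : ℝ := max g (6 * g - 3)
/-- `[1, 1.2] → [0.5, 1.2]`, identity above `1.2` -/
noncomputable def rR (g : ℝ) : ℝ := min (7 / 2 * g - 3) g
/-- inverse of `rR` -/
noncomputable def rRi (g : ℝ) : ℝ := max ((2 * g + 6) / 7) g

/-- inner part of the step map (used for `‖y.2‖ ≥ 1/2`) -/
noncomputable def stT (f f' : X × V → X × V) (y : X × V) : X × V :=
  if 3 / 5 ≤ ‖(f' y).2‖ then f (rad rS (f' y)) else y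

/-- the step map, used for `3/8 ≤ ‖p.2‖ ≤ 3/4` -/
noncomputable def stF (f f' : X × V → X × V) (p : X × V) : X × V :=
  if 1 ≤ ‖(f (lam 2 p)).2‖ then stT f f' (rad rR (f (lam 2 p))) else lam (1 / 2) (f (lam 2 p))

/-- extension on `‖p.2‖ ≥ 3/8` -/
noncomputable def gF (f f' : X × V → X × V) (p : X × V) : X × V :=
  if 3 / 4 ≤ ‖p.2‖ then f p else stF f f' p

/-- inverse of `stT` -/
noncomputable def stTi (f f' : X × V → X × V) (y : X × V) : X × V :=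
  if 3 / 5 ≤ ‖(f' y).2‖ then f (rad rSi (f' y)) else y

/-- inverse of the extension on `‖y.2‖ ≥ 1/2` -/
noncomputable def gFi (f f' : X × V → X × V) (y : X × V) : X × V :=
  if 3 / 4 ≤ ‖(f' y).2‖ then f' y else lam (1 / 2) (f' (rad rRi (stTi f f' y)))

open Classical in
/-- number of doublings needed to reach radius `≥ a` -/
noncomputable def kk (a : ℝ) (p : X × V) : ℕ :=
  if h : ∃ k : ℕ, a ≤ 2 ^ k * ‖p.2‖ then Nat.find h else 0

open Classical in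
/-- self-similar continuation of `G` from radius `≥ a` to all radii -/
noncomputable def ext (a : ℝ) (G : X × V → X × V) (p : X × V) : X × V :=
  if p.2 = 0 then p else lam ((1 / 2) ^ kk a p) (G (lam (2 ^ kk a p) p))

/-- the raw extension -/
noncomputable def fF (f f' : X × V → X × V) : X × V → X × V := ext (3 / 8) (gF f f')
/-- its inverse -/
noncomputable def fFi (f f' : X × V → X × V) : X × V → X × V := ext (1 / 2) (gFi f f')

/-- the shell `1/3 < ‖v‖ < 2` -/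
def sh (V : Type*) [NormedAddCommGroup V] : Set V := {v | 1 / 3 < ‖v‖ ∧ ‖v‖ < 2}

end H80.LD

end S_H80_LD_F0

section S_H80_LD_K1

/-!
# K1: the one variable functions

`cl` is the projection to `[0,1]`: cases of min/max.  `ramp`: from `cl`.  `uu`: `|x - round x| ≤ |x - z|` for integers `z` (`round_le`), so `|x - round x|` is 1-Lipschitz:
`|x - round x| ≤ |x - round y| ≤ |x - y| + |y - round y|`.  `K1_half`: `x - ⌊x⌋ = Int.fract x =: f`, `|x - round x| = min f (1 - f)` (`abs_sub_round_eq_min`), `|x - (⌊x⌋ + 1/2)| = |f - 1/2| = 1/2 - |x - round x|`.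
-/

open Filter Topology Metric Set

namespace H80.LD

theorem K1_cl_mem (x : ℝ) : 0 ≤ cl x ∧ cl x ≤ 1 := by
  unfold cl
  exact ⟨le_max_left _ _, max_le zero_le_one (min_le_left _ _)⟩

theorem K1_cl_lip (x y : ℝ) : |cl x - cl y| ≤ |x - y| := by
  unfold cl
  rw [abs_le]
  simp only [max_def, min_def]
  constructor
  · split_ifs <;> cases abs_cases (x - y) <;> linarith
  · split_ifs <;> cases abs_cases (x - y) <;> linarith

theorem K1_cl_zero (x : ℝ) (h : x ≤ 0) : cl x = 0 := by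
  unfold cl
  exact max_eq_left ((min_le_right _ _).trans h)

theorem K1_cl_one (x : ℝ) (h : 1 ≤ x) : cl x = 1 := by
  unfold cl
  rw [min_eq_left h]
  exact max_eq_right zero_le_one

theorem K1_cl_mid (x : ℝ) (h : 0 ≤ x) (h' : x ≤ 1) : cl x = x := by
  unfold cl
  rw [min_eq_right h']
  exact max_eq_right h

theorem K1_cl_mono (x y : ℝ) (h : x ≤ y) : cl x ≤ cl y := by
  unfold cl
  exact max_le_max le_rfl (min_le_min le_rfl h)

theorem K1_ramp_mem (x : ℝ) : 0 ≤ ramp x ∧ ramp x ≤ 1 := K1_cl_mem _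

theorem K1_ramp_lip (x y : ℝ) : |ramp x - ramp y| ≤ 2 * |x - y| := by
  have h := K1_cl_lip (2 * x - 1 / 2) (2 * y - 1 / 2)
  have e : 2 * x - 1 / 2 - (2 * y - 1 / 2) = 2 * (x - y) := by ring
  rw [e, abs_mul, abs_of_pos (by norm_num : (0 : ℝ) < 2)] at h
  exact h

theorem K1_ramp_zero (x : ℝ) (h : x ≤ 1 / 4) : ramp x = 0 := by
  unfold ramp
  exact K1_cl_zero _ (by linarith)

theorem K1_ramp_one (x : ℝ) (h : 3 / 4 ≤ x) : ramp x = 1 := by
  unfold ramp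
  exact K1_cl_one _ (by linarith)

theorem K1_uu_mem (x : ℝ) : 0 ≤ uu x ∧ uu x ≤ 1 := K1_cl_mem _

theorem K1_dist_lip (x y : ℝ) : |x - round x| ≤ |x - y| + |y - round y| := by
  have h1 := round_le x (round y)
  have h2 := abs_sub_le x y (round y : ℝ)
  linarith

theorem K1_uu_lip (x y : ℝ) : |uu x - uu y| ≤ 10 * |x - y| := by
  have h := K1_cl_lip (3 - 10 * |x - round x|) (3 - 10 * |y - round y|)
  have h1 := K1_dist_lip x y
  have h2 := K1_dist_lip y x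
  rw [abs_sub_comm y x] at h2
  refine h.trans ?_
  rw [abs_le]
  constructor <;> linarith

theorem K1_uu_zero (x : ℝ) (h : 3 / 10 ≤ |x - round x|) : uu x = 0 := by
  unfold uu
  exact K1_cl_zero _ (by linarith)

theorem K1_uu_one (x : ℝ) (h : |x - round x| ≤ 1 / 5) : uu x = 1 := by
  unfold uu
  exact K1_cl_one _ (by linarith)

theorem K1_half (x : ℝ) : |x - (⌊x⌋ + 1 / 2)| = 1 / 2 - |x - round x| := by
  rw [abs_sub_round_eq_min]
  have h1 : x - (⌊x⌋ + 1 / 2) = Int.fract x - 1 / 2 := by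
    have := Int.floor_add_fract x
    linarith
  rw [h1, min_def]
  split_ifs with h
  · rw [abs_of_nonpos (by linarith)]
    ring
  · push Not at h
    rw [abs_of_nonneg (by linarith)]
    ring

/-- points in the same cell -/
theorem K1_round_eq (x : ℝ) (z : ℤ) (h : |x - z| < 1 / 2) : round x = z := by
  rw [round_eq, Int.floor_eq_iff]
  rw [abs_lt] at h
  constructor <;> linarith

theorem K1_floor_eq (x : ℝ) (z : ℤ) (h : |x - (z + 1 / 2)| < 1 / 2) : ⌊x⌋ = z := by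
  rw [Int.floor_eq_iff]
  rw [abs_lt] at h
  constructor <;> linarith

end H80.LD

end S_H80_LD_K1

section S_H80_LD_K2

/-!
# K2: the partition of unity `wt`

* `K2_sum`: `∏ i, ∑ c : Bool, (if c then uu (η i) else 1 - uu (η i)) = 1` and `Finset.prod_univ_sum` (`Fintype.piFinset`, `Finset.univ`).
* `K2_mem`: products of numbers in `[0,1]`.
* `K2_lip`: for factors `x_i, y_i ∈ [0,1]`, `|∏ x - ∏ y| ≤ ∑ |x_i - y_i|` (induction over the finset), `uu` is 10-Lipschitz.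
* `K2_zero`: one factor vanishes.
* `K2_MM`: `MM ≥ 1`.
-/

open Filter Topology Metric Set

namespace H80.LD

variable {D : Type*} [Fintype D] [DecidableEq D]

theorem K2_MM (a b : D) : 1 ≤ MM a b := by
  unfold MM
  exact Fintype.card_pos

theorem K2_sum (a b : D) (η : D → ℝ) : ∑ κ : JJ a b → Bool, wt a b κ η = 1 := by
  unfold wt
  have h := Finset.prod_univ_sum (fun _ : JJ a b => (Finset.univ : Finset Bool))
    (fun i c => if c then uu (η i) else 1 - uu (η i))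
  rw [Fintype.piFinset_univ] at h
  have h2 : ∏ i : JJ a b, ∑ c : Bool, (if c then uu (η i) else 1 - uu (η i)) = 1 := by
    refine Finset.prod_eq_one fun i _ => ?_
    rw [Fintype.sum_bool]
    simp
  exact h.symm.trans h2

omit [Fintype D] [DecidableEq D] in
theorem K2_fac (a b : D) (κ : JJ a b → Bool) (η : D → ℝ) (i : JJ a b) :
    0 ≤ (if κ i then uu (η i) else 1 - uu (η i)) ∧ (if κ i then uu (η i) else 1 - uu (η i)) ≤ 1 := by
  have h := K1_uu_mem (η i)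
  split_ifs
  · exact h
  · constructor <;> linarith [h.1, h.2]

theorem K2_mem (a b : D) (κ : JJ a b → Bool) (η : D → ℝ) : 0 ≤ wt a b κ η ∧ wt a b κ η ≤ 1 := by
  unfold wt
  exact ⟨Finset.prod_nonneg fun i _ => (K2_fac a b κ η i).1,
    Finset.prod_le_one (fun i _ => (K2_fac a b κ η i).1) fun i _ => (K2_fac a b κ η i).2⟩

theorem K2_prod {ι : Type*} [DecidableEq ι] (s : Finset ι) (x y : ι → ℝ)
    (hx : ∀ i, 0 ≤ x i ∧ x i ≤ 1) (hy : ∀ i, 0 ≤ y i ∧ y i ≤ 1) :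
    |∏ i ∈ s, x i - ∏ i ∈ s, y i| ≤ ∑ i ∈ s, |x i - y i| := by
  induction s using Finset.induction_on with
  | empty => simp
  | insert j s hj ih =>
    rw [Finset.prod_insert hj, Finset.prod_insert hj, Finset.sum_insert hj]
    have e : x j * ∏ i ∈ s, x i - y j * ∏ i ∈ s, y i =
        (x j - y j) * ∏ i ∈ s, x i + y j * (∏ i ∈ s, x i - ∏ i ∈ s, y i) := by ring
    rw [e]
    refine (abs_add_le _ _).trans (add_le_add ?_ ?_)
    · rw [abs_mul]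
      have h1 : |∏ i ∈ s, x i| ≤ 1 := by
        rw [abs_of_nonneg (Finset.prod_nonneg fun i _ => (hx i).1)]
        exact Finset.prod_le_one (fun i _ => (hx i).1) fun i _ => (hx i).2
      exact mul_le_of_le_one_right (abs_nonneg _) h1
    · rw [abs_mul]
      have h1 : |y j| ≤ 1 := by
        rw [abs_of_nonneg (hy j).1]
        exact (hy j).2
      exact (mul_le_of_le_one_left (abs_nonneg _) h1).trans ih

theorem K2_lip (a b : D) (κ : JJ a b → Bool) (η η' : D → ℝ) :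
    |wt a b κ η - wt a b κ η'| ≤ 10 * ∑ i : JJ a b, |η i - η' i| := by
  unfold wt
  refine (K2_prod Finset.univ (fun i : JJ a b => if κ i then uu (η i) else 1 - uu (η i))
    (fun i : JJ a b => if κ i then uu (η' i) else 1 - uu (η' i)) (K2_fac a b κ η)
    (K2_fac a b κ η')).trans ?_
  rw [Finset.mul_sum]
  refine Finset.sum_le_sum fun i _ => ?_
  have h := K1_uu_lip (η i) (η' i)
  by_cases hk : κ i
  · simp only [hk, if_true]
    exact h
  · simp only [hk]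
    have e : (1 - uu (η i)) - (1 - uu (η' i)) = -(uu (η i) - uu (η' i)) := by ring
    simp only [Bool.false_eq_true, if_false]
    rw [e, abs_neg]
    exact h

theorem K2_congr (a b : D) (κ : JJ a b → Bool) (η η' : D → ℝ) (h : ∀ i : JJ a b, η i = η' i) :
    wt a b κ η = wt a b κ η' := by
  unfold wt
  exact Finset.prod_congr rfl fun i _ => by rw [h i]

theorem K2_zero (a b : D) (κ : JJ a b → Bool) (η : D → ℝ) (i : JJ a b)
    (h : if κ i then uu (η i) = 0 else uu (η i) = 1) : wt a b κ η = 0 := by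
  unfold wt
  refine Finset.prod_eq_zero (Finset.mem_univ i) ?_
  split_ifs at h ⊢ with hk
  · exact h
  · rw [h, sub_self]

end H80.LD

end S_H80_LD_K2

section S_H80_LD_K3

/-!
# K3: bounds, Lipschitz estimate and locality of the clock function

`M = MM a b ≥ 1`, `j = ⌊y b⌋`, `f = Int.fract (y b)`, `S = ∑ κ, wt κ (eta y) * ramp (M f - num κ) ∈ [0,1]` (`K2_sum`, `K2_mem`).
* `K3_mem`: `cb y = j + S`; `K3_abs`: both `y b` and `cb y` are in `[j, j+1]`.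
* `K3_lip`, same floor: `|cb y - cb y'| ≤ ∑ κ |wt κ - wt' κ| * 1 + ∑ κ wt' κ * 2 M |f - f'| ≤ M * 10 * ∑ i s_i |y i - y' i| + 2 M |y b - y' b|`  (`s_i = sH σ H j i ≥ 0` the same for both).
* different floors, `j < j' = ⌊y' b⌋` (or symmetric): `cb y' - j' ≤ 2 M f'` since `ramp (M f' - n) ≤ 2 M f'` (`ramp s ≤ 2 max s 0`), `j + 1 - cb y = ∑ wt κ (1 - ramp (M f - num κ)) ≤ 2 M (1 - f)` since for `n ≤ M - 1`
  `1 - ramp (M f - n) ≤ 1 - ramp (1 - M (1 - f)) ≤ 2 M (1 - f)`.  Also `cb y ≤ j + 1 ≤ j' ≤ cb y'`.  Sum: `0 ≤ cb y' - cb y ≤ 2 M f' + (j' - j - 1) + 2 M (1 - f) ≤ 2 M (y' b - y b)`.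
* `K3_congr`: `cb` depends only on `y i`, `i ≠ a`.
* `K3_const`: if `ramp`s are saturated: `K3_left`: if `0 ≤ M f - n ≤ 1/4`... see K4.
-/

open Filter Topology Metric Set

namespace H80.LD

variable {D : Type*} [Fintype D] [DecidableEq D]

theorem K3_ramp_up (s t : ℝ) (ht : 0 ≤ t) (h : s ≤ t) : ramp s ≤ 2 * t := by
  unfold ramp cl
  refine max_le (by linarith) ((min_le_right _ _).trans (by linarith))

theorem K3_ramp_low (s t : ℝ) (ht : 0 ≤ t) (h : 1 - t ≤ s) : 1 - ramp s ≤ 2 * t := by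
  unfold ramp cl
  have h1 : 1 - 2 * t ≤ min 1 (2 * s - 1 / 2) := le_min (by linarith) (by linarith)
  have h2 := le_max_right 0 (min 1 (2 * s - 1 / 2))
  linarith

theorem K3_S (σ : ℝ → ℝ) (H : Finset D) (a b : D) (y : D → ℝ) :
    0 ≤ ∑ κ : JJ a b → Bool, wt a b κ (eta σ H b y) *
      ramp ((MM a b : ℝ) * Int.fract (y b) - ((num a b κ : ℕ) : ℝ)) ∧
    (∑ κ : JJ a b → Bool, wt a b κ (eta σ H b y) *
      ramp ((MM a b : ℝ) * Int.fract (y b) - ((num a b κ : ℕ) : ℝ))) ≤ 1 ∧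
    (∑ κ : JJ a b → Bool, wt a b κ (eta σ H b y) *
      ramp ((MM a b : ℝ) * Int.fract (y b) - ((num a b κ : ℕ) : ℝ))) ≤
        2 * ((MM a b : ℝ) * Int.fract (y b)) ∧
    1 - (∑ κ : JJ a b → Bool, wt a b κ (eta σ H b y) *
      ramp ((MM a b : ℝ) * Int.fract (y b) - ((num a b κ : ℕ) : ℝ))) ≤
        2 * ((MM a b : ℝ) * (1 - Int.fract (y b))) := by
  have hM : (0 : ℝ) ≤ (MM a b : ℝ) := Nat.cast_nonneg _
  have hf0 := Int.fract_nonneg (y b)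
  have hf1 := (Int.fract_lt_one (y b)).le
  have hw : ∀ κ, 0 ≤ wt a b κ (eta σ H b y) := fun κ => (K2_mem a b κ _).1
  have hsum := K2_sum a b (eta σ H b y)
  have hlow : ∀ κ : JJ a b → Bool, 1 - (MM a b : ℝ) * (1 - Int.fract (y b)) ≤
      (MM a b : ℝ) * Int.fract (y b) - ((num a b κ : ℕ) : ℝ) := by
    intro κ
    have h1 : ((num a b κ : ℕ) : ℝ) + 1 ≤ (MM a b : ℝ) := by exact_mod_cast (num a b κ).2
    nlinarith
  refine ⟨Finset.sum_nonneg fun κ _ => mul_nonneg (hw κ) (K1_ramp_mem _).1, ?_, ?_, ?_⟩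
  · calc _ ≤ ∑ κ : JJ a b → Bool, wt a b κ (eta σ H b y) :=
        Finset.sum_le_sum fun κ _ => mul_le_of_le_one_right (hw κ) (K1_ramp_mem _).2
      _ = 1 := hsum
  · calc _ ≤ ∑ κ : JJ a b → Bool, wt a b κ (eta σ H b y) *
          (2 * ((MM a b : ℝ) * Int.fract (y b))) := by
          refine Finset.sum_le_sum fun κ _ => mul_le_mul_of_nonneg_left ?_ (hw κ)
          refine K3_ramp_up _ _ (mul_nonneg hM hf0) ?_
          have : (0 : ℝ) ≤ ((num a b κ : ℕ) : ℝ) := Nat.cast_nonneg _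
          linarith
      _ = 2 * ((MM a b : ℝ) * Int.fract (y b)) := by rw [← Finset.sum_mul, hsum, one_mul]
  · calc _ = ∑ κ : JJ a b → Bool, wt a b κ (eta σ H b y) *
          (1 - ramp ((MM a b : ℝ) * Int.fract (y b) - ((num a b κ : ℕ) : ℝ))) := by
          simp only [mul_sub, mul_one, Finset.sum_sub_distrib, hsum]
      _ ≤ ∑ κ : JJ a b → Bool, wt a b κ (eta σ H b y) *
          (2 * ((MM a b : ℝ) * (1 - Int.fract (y b)))) := by
          refine Finset.sum_le_sum fun κ _ => mul_le_mul_of_nonneg_left ?_ (hw κ)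
          exact K3_ramp_low _ _ (mul_nonneg hM (by linarith)) (hlow κ)
      _ = 2 * ((MM a b : ℝ) * (1 - Int.fract (y b))) := by rw [← Finset.sum_mul, hsum, one_mul]

theorem K3_mem (σ : ℝ → ℝ) (H : Finset D) (a b : D) (y : D → ℝ) :
    (⌊y b⌋ : ℝ) ≤ cb σ H a b y ∧ cb σ H a b y ≤ ⌊y b⌋ + 1 := by
  have h := K3_S σ H a b y
  unfold cb
  constructor
  · linarith [h.1]
  · linarith [h.2.1]

theorem K3_abs (σ : ℝ → ℝ) (H : Finset D) (a b : D) (y : D → ℝ) : |y b - cb σ H a b y| ≤ 1 := by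
  have h := K3_mem σ H a b y
  have h1 := Int.floor_le (y b)
  have h2 := (Int.lt_floor_add_one (y b)).le
  rw [abs_le]
  constructor <;> linarith [h.1, h.2]

theorem K3_congr (σ : ℝ → ℝ) (H : Finset D) (a b : D) (hab : a ≠ b) (y y' : D → ℝ) (h : ∀ i, i ≠ a → y i = y' i) :
    cb σ H a b y = cb σ H a b y' := by
  have hb : y b = y' b := h b hab.symm
  unfold cb
  rw [hb]
  congr 1
  refine Finset.sum_congr rfl fun κ _ => ?_
  congr 1
  refine K2_congr a b κ _ _ fun i => ?_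
  unfold eta
  rw [hb, h i i.2.1]

theorem K3_jump (σ : ℝ → ℝ) (H : Finset D) (a b : D) (y y' : D → ℝ) (h : ⌊y b⌋ < ⌊y' b⌋) :
    |cb σ H a b y - cb σ H a b y'| ≤ 2 * (MM a b : ℝ) * |y b - y' b| := by
  have h1 := K3_mem σ H a b y
  have h1' := K3_mem σ H a b y'
  have h2 : (⌊y b⌋ : ℝ) + 1 ≤ (⌊y' b⌋ : ℝ) := by exact_mod_cast h
  have hM : (1 : ℝ) ≤ (MM a b : ℝ) := by exact_mod_cast K2_MM a b
  have h3 := (K3_S σ H a b y).2.2.2
  have h3' := (K3_S σ H a b y').2.2.1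
  have e : y b = ⌊y b⌋ + Int.fract (y b) := (Int.floor_add_fract (y b)).symm
  have e' : y' b = ⌊y' b⌋ + Int.fract (y' b) := (Int.floor_add_fract (y' b)).symm
  have hf1 := (Int.fract_lt_one (y b)).le
  have hf0 := Int.fract_nonneg (y' b)
  have hle : cb σ H a b y ≤ cb σ H a b y' := by linarith [h1.2, h1'.1]
  have hyy : y b - y' b ≤ 0 := by linarith
  rw [abs_of_nonpos (by linarith : cb σ H a b y - cb σ H a b y' ≤ 0), abs_of_nonpos hyy]
  have h4 : cb σ H a b y' - ⌊y' b⌋ ≤ 2 * ((MM a b : ℝ) * Int.fract (y' b)) := by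
    unfold cb
    linarith
  have h5 : ⌊y b⌋ + 1 - cb σ H a b y ≤ 2 * ((MM a b : ℝ) * (1 - Int.fract (y b))) := by
    unfold cb
    linarith
  have h6 : ((⌊y' b⌋ : ℝ) - ⌊y b⌋ - 1) ≤ 2 * (MM a b : ℝ) * ((⌊y' b⌋ : ℝ) - ⌊y b⌋ - 1) :=
    le_mul_of_one_le_left (by linarith) (by linarith)
  have h7 : 2 * (MM a b : ℝ) * (-(y b - y' b)) = 2 * ((MM a b : ℝ) * Int.fract (y' b)) +
      2 * (MM a b : ℝ) * ((⌊y' b⌋ : ℝ) - ⌊y b⌋ - 1) +
      2 * ((MM a b : ℝ) * (1 - Int.fract (y b))) := by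
    rw [e, e', Int.fract_intCast_add, Int.fract_intCast_add, Int.floor_intCast_add,
      Int.floor_intCast_add, Int.fract_fract, Int.fract_fract, Int.floor_fract, Int.floor_fract]
    push_cast
    ring
  rw [h7]
  linarith

theorem K3_same (σ : ℝ → ℝ) (hσ : ∀ c, 0 ≤ σ c) (H : Finset D) (a b : D) (y y' : D → ℝ)
    (hj : ⌊y b⌋ = ⌊y' b⌋) :
    |cb σ H a b y - cb σ H a b y'| ≤ 2 * (MM a b : ℝ) * |y b - y' b| +
      10 * (MM a b : ℝ) * ∑ i : JJ a b, sH σ H ⌊y b⌋ i * |y i - y' i| := by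
  have hM : (0 : ℝ) ≤ (MM a b : ℝ) := Nat.cast_nonneg _
  have hs : ∀ i : D, 0 ≤ sH σ H ⌊y b⌋ i := fun i => by
    unfold sH
    split_ifs
    · exact hσ _
    · exact zero_le_one
  set r : (JJ a b → Bool) → ℝ := fun κ =>
    ramp ((MM a b : ℝ) * Int.fract (y b) - ((num a b κ : ℕ) : ℝ)) with hr
  set r' : (JJ a b → Bool) → ℝ := fun κ =>
    ramp ((MM a b : ℝ) * Int.fract (y' b) - ((num a b κ : ℕ) : ℝ)) with hr'
  set w : (JJ a b → Bool) → ℝ := fun κ => wt a b κ (eta σ H b y) with hw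
  set w' : (JJ a b → Bool) → ℝ := fun κ => wt a b κ (eta σ H b y') with hw'
  have e1 : cb σ H a b y - cb σ H a b y' = ∑ κ, ((w κ - w' κ) * r κ + w' κ * (r κ - r' κ)) := by
    have : cb σ H a b y = (⌊y b⌋ : ℝ) + ∑ κ, w κ * r κ := rfl
    rw [this]
    have : cb σ H a b y' = (⌊y' b⌋ : ℝ) + ∑ κ, w' κ * r' κ := rfl
    rw [this, hj, add_sub_add_left_eq_sub, ← Finset.sum_sub_distrib]
    refine Finset.sum_congr rfl fun κ _ => ?_
    ring
  have hff : |Int.fract (y b) - Int.fract (y' b)| = |y b - y' b| := by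
    rw [← Int.self_sub_floor, ← Int.self_sub_floor, hj]
    congr 1
    ring
  have hrr : ∀ κ, |r κ - r' κ| ≤ 2 * (MM a b : ℝ) * |y b - y' b| := by
    intro κ
    refine (K1_ramp_lip _ _).trans ?_
    rw [sub_sub_sub_cancel_right, ← mul_sub, abs_mul, hff, abs_of_nonneg hM, mul_assoc]
  have hww : ∀ κ, |w κ - w' κ| ≤ 10 * ∑ i : JJ a b, sH σ H ⌊y b⌋ i * |y i - y' i| := by
    intro κ
    refine (K2_lip a b κ _ _).trans (le_of_eq ?_)
    congr 1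
    refine Finset.sum_congr rfl fun i _ => ?_
    unfold eta
    rw [← hj, ← mul_sub, abs_mul, abs_of_nonneg (hs i)]
  have hw0 : ∀ κ, 0 ≤ w' κ := fun κ => (K2_mem a b κ _).1
  have hsum : ∑ κ, w' κ = 1 := K2_sum a b _
  rw [e1]
  refine (Finset.abs_sum_le_sum_abs _ _).trans ?_
  calc ∑ κ, |(w κ - w' κ) * r κ + w' κ * (r κ - r' κ)|
      ≤ ∑ κ : JJ a b → Bool, (10 * (∑ i : JJ a b, sH σ H ⌊y b⌋ i * |y i - y' i|) +
        w' κ * (2 * (MM a b : ℝ) * |y b - y' b|)) := by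
        refine Finset.sum_le_sum fun κ _ => ?_
        refine (abs_add_le _ _).trans (add_le_add ?_ ?_)
        · rw [abs_mul, abs_of_nonneg (K1_ramp_mem _).1]
          exact (mul_le_of_le_one_right (abs_nonneg _) (K1_ramp_mem _).2).trans (hww κ)
        · rw [abs_mul, abs_of_nonneg (hw0 κ)]
          exact mul_le_mul_of_nonneg_left (hrr κ) (hw0 κ)
    _ = 2 * (MM a b : ℝ) * |y b - y' b| +
      10 * (MM a b : ℝ) * ∑ i : JJ a b, sH σ H ⌊y b⌋ i * |y i - y' i| := by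
        rw [Finset.sum_add_distrib, Finset.sum_const, Finset.card_univ, nsmul_eq_mul,
          ← Finset.sum_mul, hsum]
        change (MM a b : ℝ) * _ + _ = _
        ring

theorem K3_lip (σ : ℝ → ℝ) (hσ : ∀ c, 0 ≤ σ c) (H : Finset D) (a b : D) (y y' : D → ℝ) :
    |cb σ H a b y - cb σ H a b y'| ≤ 2 * (MM a b : ℝ) * |y b - y' b| +
      10 * (MM a b : ℝ) * ∑ i : JJ a b, sH σ H ⌊y b⌋ i * |y i - y' i| := by
  have hM : (0 : ℝ) ≤ (MM a b : ℝ) := Nat.cast_nonneg _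
  have hs : 0 ≤ ∑ i : JJ a b, sH σ H ⌊y b⌋ i * |y i - y' i| := by
    refine Finset.sum_nonneg fun i _ => mul_nonneg ?_ (abs_nonneg _)
    unfold sH
    split_ifs
    · exact hσ _
    · exact zero_le_one
  have hs' : 0 ≤ 10 * (MM a b : ℝ) * ∑ i : JJ a b, sH σ H ⌊y b⌋ i * |y i - y' i| := by
    positivity
  rcases lt_trichotomy ⌊y b⌋ ⌊y' b⌋ with h | h | h
  · linarith [K3_jump σ H a b y y' h]
  · exact K3_same σ hσ H a b y y' h
  · have := K3_jump σ H a b y' y h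
    rw [abs_sub_comm (cb σ H a b y'), abs_sub_comm (y' b)] at this
    linarith

end H80.LD

end S_H80_LD_K3

section S_H80_LD_M0

/-!
# M0: patterns and fold maps

A pattern is a family of immersed curves `x ↦ (g1 c x, g2 c x)` in the plane with transversal field `(ν1, ν2)`, of speed about `σ c`.  `lj j` is the length of the cells
for `c ∈ [j, j+1]`; near the cell boundaries (columns) the field is vertical and `g2 = 0`.  The fold map replaces the coordinates `(y a, y b)` by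
`(0, c) + (g1, g2) (c, y a) + (y b - c) (ν1, ν2) (c, y a)` where `c = cb y`.
-/

open Filter Topology Metric Set

namespace H80.LD

structure Pat (σ : ℝ → ℝ) (lj : ℤ → ℝ) (g1 g2 ν1 ν2 : ℝ → ℝ → ℝ) (nd : ℤ → ℤ → Prop) (K : ℝ) : Prop where
  K1 : 1 ≤ K
  s1 : ∀ c, 1 ≤ σ c
  s2 : ∀ c c', |c - c'| ≤ K + 3 → σ c' ≤ 2 * σ c
  l1 : ∀ (j : ℤ) (c : ℝ), (j : ℝ) ≤ c → c ≤ j + 1 → 1 ≤ σ c * lj j ∧ σ c * lj j ≤ K
  p1 : ∀ c x x', |g1 c x - g1 c x'| ≤ K * (σ c * |x - x'|) ∧ |g2 c x - g2 c x'| ≤ K * (σ c * |x - x'|)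
  p2 : ∀ c c' x, |g1 c x - g1 c' x| ≤ K * |c - c'| ∧ |g2 c x - g2 c' x| ≤ K * |c - c'| ∧
    |ν1 c x - ν1 c' x| ≤ K * |c - c'| ∧ |ν2 c x - ν2 c' x| ≤ K * |c - c'|
  p3 : ∀ c x x', |ν1 c x - ν1 c x'| ≤ σ c * |x - x'| / 10 ^ 5 ∧ |ν2 c x - ν2 c x'| ≤ σ c * |x - x'| / 10 ^ 5
  p3b : ∀ c x, |ν1 c x| ≤ 1 ∧ |ν2 c x| ≤ 1
  p4 : ∀ c x0, ∃ D1 D2 : ℝ, |D1| ≤ 3 ∧ |D2| ≤ 1 ∧ 1 / 40 ≤ D1 * ν2 c x0 - D2 * ν1 c x0 ∧
    ∀ x x', σ c * |x - x0| ≤ 1 → σ c * |x' - x0| ≤ 1 →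
      |g1 c x - g1 c x' - σ c * (x - x') * D1| ≤ σ c * |x - x'| / 10 ^ 5 ∧
      |g2 c x - g2 c x' - σ c * (x - x') * D2| ≤ σ c * |x - x'| / 10 ^ 5
  p5 : ∀ c x, |g2 c x| ≤ K
  p6 : ∀ (j m : ℤ) (x c : ℝ), -(3 / 10) ≤ x / lj j - m → x / lj j - m ≤ 1 / 20 → (j : ℝ) ≤ c → c ≤ j + 1 →
    ν1 c x = 0 ∧ ν2 c x = 1 ∧ g2 c x = 0
  p7 : ∀ (j m : ℤ), ¬ nd j m → ∀ (x c : ℝ), (m : ℝ) ≤ x / lj j → x / lj j ≤ m + 1 → (j : ℝ) ≤ c → c ≤ j + 1 →
    ν1 c x = 0 ∧ ν2 c x = 1 ∧ g2 c x = 0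

/-- first planar coordinate -/
noncomputable def ph1 (g1 ν1 : ℝ → ℝ → ℝ) (c x s : ℝ) : ℝ := g1 c x + (s - c) * ν1 c x
/-- second planar coordinate -/
noncomputable def ph2 (g2 ν2 : ℝ → ℝ → ℝ) (c x s : ℝ) : ℝ := c + g2 c x + (s - c) * ν2 c x

/-- the fold map -/
noncomputable def fold {X D : Type*} [Fintype D] [DecidableEq D] (σ : ℝ → ℝ) (H : Finset D) (a b : D)
    (g1 g2 ν1 ν2 : ℝ → ℝ → ℝ) (p : X × (D → ℝ)) : X × (D → ℝ) :=
  (p.1, fun i => if i = a then ph1 g1 ν1 (cb σ H a b p.2) (p.2 a) (p.2 b)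
    else if i = b then ph2 g2 ν2 (cb σ H a b p.2) (p.2 a) (p.2 b) else p.2 i)

/-- the constant of the fold map -/
noncomputable def cc {D : Type*} [Fintype D] [DecidableEq D] (a b : D) (K : ℝ) : ℝ :=
  10 ^ 6 * K * (MM a b : ℝ) * (Fintype.card D : ℝ)

/-- the radius -/
noncomputable def rr {D : Type*} [Fintype D] [DecidableEq D] (a b : D) : ℝ := 1 / (100 * (MM a b : ℝ))

end H80.LD

end S_H80_LD_M0

section S_H80_LD_T0

/-!
# T0: definitions for the transfer of near-identity pairs along a punctured immersion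

`β` is a map of `P = X × (D → ℝ)`, a local bi-Lipschitz homeomorphism (uniformly, in weighted norms) outside disjoint boxes.
-/

open Filter Topology Metric Set

namespace H80.LD

section
variable {X : Type*} [NormedAddCommGroup X] {D : Type*} [Fintype D]

/-- the box gauge: `y` is in the closed box with centre `Z y` and half sides `ℓ y` iff `gau Z ℓ y ≤ 1` -/
noncomputable def gau (Z ℓ : (D → ℝ) → D → ℝ) (y : D → ℝ) : ℝ := ‖fun i => (y i - Z y i) / ℓ y i‖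

/-- punctured immersion: `W` source weights, `W'` target weights, `Z, ℓ` centre and half sides of the box of a point
(meaningful where `need` holds), `β` is bi-Lipschitz on the `r`-ball around every point which is not in the open box. -/
structure PImm (W W' : X × (D → ℝ) → D → ℝ) (β : X × (D → ℝ) → X × (D → ℝ)) (Z ℓ : (D → ℝ) → D → ℝ)
    (need : (D → ℝ) → Prop) (r C : ℝ) : Prop where
  r0 : 0 < r
  r1 : r ≤ 1 / 4
  C1 : 1 ≤ C
  pres : ∀ p, (β p).1 = p.1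
  pos : ∀ p i, 0 < W p i
  pos' : ∀ p i, 0 < W' p i
  slow : ∀ p q : X × (D → ℝ), ‖sc (W p) (q - p)‖ ≤ 1 → ∀ i, W q i ≤ 2 * W p i
  low : ∀ p : X × (D → ℝ), (need p.2 → 1 ≤ gau Z ℓ p.2) → ∀ q q' : X × (D → ℝ),
    ‖sc (W p) (q - p)‖ ≤ r → ‖sc (W p) (q' - p)‖ ≤ r →
    ‖sc (W p) (q - q')‖ ≤ C * ‖sc (W' (β p)) (β q - β q')‖
  upp : ∀ p : X × (D → ℝ), (need p.2 → 1 ≤ gau Z ℓ p.2) → ∀ q q' : X × (D → ℝ),
    ‖sc (W p) (q - p)‖ ≤ r → ‖sc (W p) (q' - p)‖ ≤ r →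
    ‖sc (W' (β p)) (β q - β q')‖ ≤ C * ‖sc (W p) (q - q')‖
  surj : ∀ p : X × (D → ℝ), (need p.2 → 1 ≤ gau Z ℓ p.2) → ∀ w : X × (D → ℝ),
    ‖sc (W' (β p)) (w - β p)‖ ≤ r / C → ∃ q : X × (D → ℝ), ‖sc (W p) (q - p)‖ ≤ r ∧ β q = w
  lpos : ∀ y i, 0 < ℓ y i
  box : ∀ y y' : D → ℝ, need y → (∀ i, |y' i - Z y i| < 6 / 5 * ℓ y i) → Z y' = Z y ∧ ℓ y' = ℓ y ∧ need y'
  size : ∀ (p : X × (D → ℝ)) (i : D), 1 / C ≤ W p i * ℓ p.2 i ∧ W p i * ℓ p.2 i ≤ C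

open Classical in
/-- the lift of `e` along `β` -/
noncomputable def lift (W : X × (D → ℝ) → D → ℝ) (β : X × (D → ℝ) → X × (D → ℝ)) (r : ℝ)
    (e : X × (D → ℝ) → X × (D → ℝ)) (p : X × (D → ℝ)) : X × (D → ℝ) :=
  if h : ∃ q : X × (D → ℝ), ‖sc (W p) (q - p)‖ ≤ r / 4 ∧ β q = e (β p) then h.choose else p

/-- box coordinates -/
noncomputable def bo (z l : D → ℝ) (p : X × (D → ℝ)) : X × (D → ℝ) := (p.1, fun i => (p.2 i - z i) / l i)

/-- inverse box coordinates -/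
noncomputable def bi (z l : D → ℝ) (p : X × (D → ℝ)) : X × (D → ℝ) := (p.1, fun i => z i + l i * p.2 i)

/-- what F8 gives -/
structure Fills {V : Type*} [NormedAddCommGroup V] (f f' F F' : X × V → X × V) : Prop where
  pres : ∀ p, (F p).1 = p.1
  pres' : ∀ p, (F' p).1 = p.1
  np : ∀ (c : X) (ε L : ℝ), 1 ≤ L → 0 ≤ ε → ε ≤ 1 / 3400 →
        NP ε L ({c} ×ˢ {v : V | 21 / 20 < ‖v‖ ∧ ‖v‖ < 6 / 5}) f f' →
        NP (10 ^ 5 * ε) (10 ^ 16 * L ^ 3) ({c} ×ˢ ball (0 : V) (6 / 5)) F F'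
  eq : ∀ (c : X) (ε L : ℝ), 1 ≤ L → 0 ≤ ε → ε ≤ 1 / 3400 →
        NP ε L ({c} ×ˢ {v : V | 21 / 20 < ‖v‖ ∧ ‖v‖ < 6 / 5}) f f' →
        ∀ v : V, 219 / 200 ≤ ‖v‖ → ‖v‖ < 6 / 5 → F (c, v) = f (c, v) ∧ F' (c, v) = f' (c, v)
  idp : ∀ (c : X) (ε L : ℝ), 1 ≤ L → 0 ≤ ε → ε ≤ 1 / 3400 →
        NP ε L ({c} ×ˢ {v : V | 21 / 20 < ‖v‖ ∧ ‖v‖ < 6 / 5}) f f' →
        (∀ v : V, 21 / 20 < ‖v‖ → ‖v‖ < 6 / 5 → f (c, v) = (c, v) ∧ f' (c, v) = (c, v)) →
          ∀ v : V, ‖v‖ < 6 / 5 → F (c, v) = (c, v) ∧ F' (c, v) = (c, v)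

open Classical in
/-- the transferred map: filled in the boxes, lifted outside -/
noncomputable def tr (Z ℓ : (D → ℝ) → D → ℝ) (need : (D → ℝ) → Prop) (lf : X × (D → ℝ) → X × (D → ℝ))
    (Φ : (D → ℝ) → (D → ℝ) → X × (D → ℝ) → X × (D → ℝ)) (p : X × (D → ℝ)) : X × (D → ℝ) :=
  if need p.2 ∧ gau Z ℓ p.2 < 11 / 10 then bi (Z p.2) (ℓ p.2) (Φ (Z p.2) (ℓ p.2) (bo (Z p.2) (ℓ p.2) p)) else lf p

/-- the lift in box coordinates -/
noncomputable def bl (W : X × (D → ℝ) → D → ℝ) (β : X × (D → ℝ) → X × (D → ℝ)) (r : ℝ)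
    (e : X × (D → ℝ) → X × (D → ℝ)) (z l : D → ℝ) (p : X × (D → ℝ)) : X × (D → ℝ) :=
  bo z l (lift W β r e (bi z l p))

theorem NI.symm {W : X × (D → ℝ) → D → ℝ} {ε L : ℝ} {U : Set (X × (D → ℝ))}
    {e e' : X × (D → ℝ) → X × (D → ℝ)} (h : NI W ε L U e e') : NI W ε L U e' e :=
  ⟨h.pres', h.pres, h.disp', h.disp, h.lip', h.lip, h.inv', h.inv⟩

theorem Fills.symm {V : Type*} [NormedAddCommGroup V] {f f' F F' : X × V → X × V} (h : Fills f f' F F') :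
    Fills f' f F' F :=
  ⟨h.pres', h.pres, fun c ε L h1 h2 h3 h4 => B0b_symm (h.np c ε L h1 h2 h3 (B0b_symm h4)),
    fun c ε L h1 h2 h3 h4 v h5 h6 => (h.eq c ε L h1 h2 h3 (B0b_symm h4) v h5 h6).symm,
    fun c ε L h1 h2 h3 h4 h5 v h6 =>
      (h.idp c ε L h1 h2 h3 (B0b_symm h4) (fun v h7 h8 => (h5 v h7 h8).symm) v h6).symm⟩

end

end H80.LD

end S_H80_LD_T0

section S_H80_LD_T0b

/-!
# T0b: elementary facts on weighted norms and box coordinates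

`‖sc w v‖ = max ‖v.1‖ (sup_i |w i * v.2 i|)` (Prod.norm_def, pi_norm_le_iff_of_nonneg, norm_le_pi_norm).
* `T0b_add`, `T0b_sub`: triangle inequality, `sc w` is additive; `T0b_symm`: `‖sc w (p - q)‖ = ‖sc w (q - p)‖`.
* `T0b_mono`: if `0 ≤ w i ≤ c * w' i`, `1 ≤ c` then `‖sc w v‖ ≤ c * ‖sc w' v‖`.
* `T0b_zero`: if all `w i > 0` and `‖sc w (p - q)‖ ≤ 0` then `p = q`.
* `T0b_nhds`: for every `δ > 0`, `‖sc w (q - p)‖ < δ` for all `q` near `p` (continuity; norms).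
* `T0b_le`: `‖sc w v‖ ≤ c` iff `‖v.1‖ ≤ c` and `w i * |v.2 i| ≤ c` for all `i` (for `0 ≤ c`, `0 ≤ w`).
* `T0b_conv`: if `‖sc w (G q - G p)‖ ≤ K ‖sc w (q - p)‖` for `q` near `p` and all `w, w'` positive, then `G` is continuous at `p` (two different weights allowed):
  coordinatewise `|(G q - G p).2 i| ≤ (1 / w' i) * K * ‖sc w (q-p)‖ → 0`.
* boxes: `bo (bi p) = p`, `bi (bo p) = p` for `l > 0`; if `1/C ≤ w i * l i ≤ C`, `1 ≤ C`, `0 < l i`: `‖bo z l p - bo z l q‖ ≤ C ‖sc w (p - q)‖`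
  (`|p_i - q_i| / l_i = w_i |p_i-q_i| / (w_i l_i)`), `‖sc w (bi z l p - bi z l q)‖ ≤ C ‖p - q‖`.
* `bo`, `bi` are continuous (`continuous_pi`).
* `T0b_gau`: `Z p.2 = z`, `ℓ p.2 = l` imply `gau Z ℓ p.2 = ‖(bo z l p).2‖` (by definition).
-/

open Filter Topology Metric Set

namespace H80.LD

variable {X : Type*} [NormedAddCommGroup X] {D : Type*} [Fintype D]

theorem T0b_le (w : D → ℝ) (hw : ∀ i, 0 ≤ w i) (v : X × (D → ℝ)) (c : ℝ) (hc : 0 ≤ c) :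
    ‖sc w v‖ ≤ c ↔ ‖v.1‖ ≤ c ∧ ∀ i, w i * |v.2 i| ≤ c := by
  rw [Prod.norm_def, max_le_iff]
  have h1 : ‖(sc w v).2‖ ≤ c ↔ ∀ i, w i * |v.2 i| ≤ c := by
    rw [pi_norm_le_iff_of_nonneg hc]
    refine forall_congr' (fun i => ?_)
    show ‖w i * v.2 i‖ ≤ c ↔ _
    rw [norm_mul, Real.norm_eq_abs, Real.norm_eq_abs, abs_of_nonneg (hw i)]
  rw [h1]
  rfl

theorem T0b_lt (w : D → ℝ) (hw : ∀ i, 0 ≤ w i) (v : X × (D → ℝ)) (c : ℝ) (hc : 0 < c) :
    ‖sc w v‖ < c ↔ ‖v.1‖ < c ∧ ∀ i, w i * |v.2 i| < c := by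
  rw [Prod.norm_def, max_lt_iff]
  have h1 : ‖(sc w v).2‖ < c ↔ ∀ i, w i * |v.2 i| < c := by
    rw [pi_norm_lt_iff hc]
    refine forall_congr' (fun i => ?_)
    show ‖w i * v.2 i‖ < c ↔ _
    rw [norm_mul, Real.norm_eq_abs, Real.norm_eq_abs, abs_of_nonneg (hw i)]
  rw [h1]
  rfl

theorem T0b_fst (w : D → ℝ) (v : X × (D → ℝ)) : ‖v.1‖ ≤ ‖sc w v‖ := by
  exact norm_fst_le (sc w v)

theorem T0b_coord (w : D → ℝ) (hw : ∀ i, 0 ≤ w i) (v : X × (D → ℝ)) (i : D) : w i * |v.2 i| ≤ ‖sc w v‖ := by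
  exact ((T0b_le w hw v _ (norm_nonneg _)).1 le_rfl).2 i

theorem T0b_tri (w : D → ℝ) (p q s : X × (D → ℝ)) : ‖sc w (p - s)‖ ≤ ‖sc w (p - q)‖ + ‖sc w (q - s)‖ := by
  have h : sc w (p - s) = sc w (p - q) + sc w (q - s) := by
    unfold sc
    refine Prod.ext ?_ ?_
    · show p.1 - s.1 = (p.1 - q.1) + (q.1 - s.1)
      abel
    · funext i
      show w i * (p.2 i - s.2 i) = w i * (p.2 i - q.2 i) + w i * (q.2 i - s.2 i)
      ring
  rw [h]
  exact norm_add_le _ _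

theorem T0b_symm (w : D → ℝ) (p q : X × (D → ℝ)) : ‖sc w (p - q)‖ = ‖sc w (q - p)‖ := by
  have h : sc w (p - q) = -sc w (q - p) := by
    unfold sc
    refine Prod.ext ?_ ?_
    · show p.1 - q.1 = -(q.1 - p.1)
      abel
    · funext i
      show w i * (p.2 i - q.2 i) = -(w i * (q.2 i - p.2 i))
      ring
  rw [h, norm_neg]

theorem T0b_self (w : D → ℝ) (p : X × (D → ℝ)) : ‖sc w (p - p)‖ = 0 := by
  have h : sc w (p - p) = 0 := by
    unfold sc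
    refine Prod.ext ?_ ?_
    · show p.1 - p.1 = 0
      abel
    · funext i
      show w i * (p.2 i - p.2 i) = 0
      ring
  rw [h, norm_zero]

theorem T0b_mono (w w' : D → ℝ) (c : ℝ) (hc : 1 ≤ c) (hw : ∀ i, 0 ≤ w i) (h : ∀ i, w i ≤ c * w' i)
    (v : X × (D → ℝ)) : ‖sc w v‖ ≤ c * ‖sc w' v‖ := by
  have hc0 : 0 ≤ c := le_trans zero_le_one hc
  rw [T0b_le w hw v _ (mul_nonneg hc0 (norm_nonneg _))]
  have hw' : ∀ i, 0 ≤ w' i := by
    intro i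
    by_contra h0
    have h1 := h i
    have h2 := hw i
    nlinarith
  refine ⟨?_, fun i => ?_⟩
  · have h1 := T0b_fst w' v
    have h2 : ‖sc w' v‖ ≤ c * ‖sc w' v‖ := le_mul_of_one_le_left (norm_nonneg _) hc
    exact h1.trans h2
  · calc w i * |v.2 i| ≤ (c * w' i) * |v.2 i| := mul_le_mul_of_nonneg_right (h i) (abs_nonneg _)
      _ = c * (w' i * |v.2 i|) := by ring
      _ ≤ c * ‖sc w' v‖ := mul_le_mul_of_nonneg_left (T0b_coord w' hw' v i) hc0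

theorem T0b_zero (w : D → ℝ) (hw : ∀ i, 0 < w i) (p q : X × (D → ℝ)) (h : ‖sc w (p - q)‖ ≤ 0) : p = q := by
  have hw' : ∀ i, 0 ≤ w i := fun i => (hw i).le
  obtain ⟨h1, h2⟩ := (T0b_le w hw' (p - q) 0 le_rfl).1 h
  refine Prod.ext ?_ ?_
  · have h3 : p.1 - q.1 = 0 := norm_le_zero_iff.1 h1
    exact sub_eq_zero.1 h3
  · funext i
    have h3 : w i * |p.2 i - q.2 i| ≤ 0 := h2 i
    have h4 : |p.2 i - q.2 i| = 0 := by
      have h5 := abs_nonneg (p.2 i - q.2 i)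
      have h6 := hw i
      by_contra h7
      have h8 : 0 < |p.2 i - q.2 i| := lt_of_le_of_ne h5 (Ne.symm h7)
      have h9 := mul_pos h6 h8
      linarith
    exact sub_eq_zero.1 (abs_eq_zero.1 h4)

theorem T0b_nhds (w : D → ℝ) (p : X × (D → ℝ)) (δ : ℝ) (hδ : 0 < δ) : ∀ᶠ q in 𝓝 p, ‖sc w (q - p)‖ < δ := by
  have hc : Continuous (fun q : X × (D → ℝ) => ‖sc w (q - p)‖) := by
    refine Continuous.norm ?_
    unfold sc
    refine Continuous.prodMk ?_ ?_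
    · exact continuous_fst.comp (continuous_id.sub continuous_const)
    · refine continuous_pi (fun i => continuous_const.mul ?_)
      exact (continuous_apply i).comp (continuous_snd.comp (continuous_id.sub continuous_const))
  have h0 : ‖sc w (p - p)‖ < δ := by rw [T0b_self]; exact hδ
  exact hc.continuousAt.eventually (gt_mem_nhds h0)

theorem T0b_cont (w w' : D → ℝ) (hw' : ∀ i, 0 < w' i) (K : ℝ) (G : X × (D → ℝ) → X × (D → ℝ)) (p : X × (D → ℝ))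
    (h : ∀ᶠ q in 𝓝 p, ‖sc w' (G q - G p)‖ ≤ K * ‖sc w (q - p)‖) : ContinuousAt G p := by
  have hnh : Tendsto (fun q : X × (D → ℝ) => ‖sc w (q - p)‖) (𝓝 p) (𝓝 0) := by
    rw [Metric.tendsto_nhds]
    intro ε hε
    filter_upwards [T0b_nhds w p ε hε] with q hq
    rw [Real.dist_eq, sub_zero, abs_of_nonneg (norm_nonneg _)]
    exact hq
  have hK : Tendsto (fun q : X × (D → ℝ) => K * ‖sc w (q - p)‖) (𝓝 p) (𝓝 0) := by
    have := hnh.const_mul K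
    rwa [mul_zero] at this
  have hG : Tendsto (fun q : X × (D → ℝ) => ‖sc w' (G q - G p)‖) (𝓝 p) (𝓝 0) :=
    squeeze_zero' (Filter.Eventually.of_forall (fun q => norm_nonneg _)) h hK
  have hw0 : ∀ i, 0 ≤ w' i := fun i => (hw' i).le
  show Tendsto G (𝓝 p) (𝓝 (G p))
  have e1 : Tendsto (fun q => (G q).1) (𝓝 p) (𝓝 (G p).1) := by
    rw [tendsto_iff_norm_sub_tendsto_zero]
    exact squeeze_zero (fun q => norm_nonneg _) (fun q => T0b_fst w' (G q - G p)) hG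
  have e2 : Tendsto (fun q => (G q).2) (𝓝 p) (𝓝 (G p).2) := by
    rw [tendsto_pi_nhds]
    intro i
    rw [tendsto_iff_norm_sub_tendsto_zero]
    have h3 : Tendsto (fun q : X × (D → ℝ) => (w' i)⁻¹ * ‖sc w' (G q - G p)‖) (𝓝 p) (𝓝 0) := by
      have := hG.const_mul (w' i)⁻¹
      rwa [mul_zero] at this
    refine squeeze_zero (fun q => norm_nonneg _) (fun q => ?_) h3
    rw [le_inv_mul_iff₀ (hw' i)]
    exact T0b_coord w' hw0 (G q - G p) i
  exact e1.prodMk_nhds e2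

theorem T0b_one (v : X × (D → ℝ)) : ‖sc (fun _ : D => (1 : ℝ)) v‖ = ‖v‖ := by
  have h : sc (fun _ : D => (1 : ℝ)) v = v := by
    unfold sc
    refine Prod.ext rfl ?_
    funext i
    exact one_mul _
  rw [h]

theorem T0b_bobi (z l : D → ℝ) (hl : ∀ i, 0 < l i) (p : X × (D → ℝ)) : bo z l (bi z l p) = p := by
  unfold bo bi
  refine Prod.ext rfl ?_
  funext i
  show (z i + l i * p.2 i - z i) / l i = p.2 i
  have := (hl i).ne'
  field_simp
  ring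

theorem T0b_bibo (z l : D → ℝ) (hl : ∀ i, 0 < l i) (p : X × (D → ℝ)) : bi z l (bo z l p) = p := by
  unfold bo bi
  refine Prod.ext rfl ?_
  funext i
  show z i + l i * ((p.2 i - z i) / l i) = p.2 i
  have := (hl i).ne'
  field_simp
  ring

theorem T0b_bo_lip (z l w : D → ℝ) (hl : ∀ i, 0 < l i) (C : ℝ) (hC : 1 ≤ C) (h : ∀ i, 1 / C ≤ w i * l i)
    (p q : X × (D → ℝ)) : ‖bo z l p - bo z l q‖ ≤ C * ‖sc w (p - q)‖ := by
  have hC0 : 0 < C := lt_of_lt_of_le zero_lt_one hC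
  have hw : ∀ i, 0 ≤ w i := by
    intro i
    have h1 : 0 < w i * l i := lt_of_lt_of_le (by positivity) (h i)
    by_contra h0
    have h2 : w i * l i ≤ 0 := mul_nonpos_of_nonpos_of_nonneg (not_le.1 h0).le (hl i).le
    linarith
  rw [← T0b_one, T0b_le _ (fun _ => zero_le_one) _ _ (mul_nonneg hC0.le (norm_nonneg _))]
  refine ⟨?_, fun i => ?_⟩
  · show ‖p.1 - q.1‖ ≤ _
    exact (T0b_fst w (p - q)).trans (le_mul_of_one_le_left (norm_nonneg _) hC)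
  · show 1 * |(p.2 i - z i) / l i - (q.2 i - z i) / l i| ≤ _
    have e : (p.2 i - z i) / l i - (q.2 i - z i) / l i = (p.2 i - q.2 i) / l i := by
      rw [← sub_div]; congr 1; ring
    rw [e, one_mul, abs_div, abs_of_pos (hl i), div_le_iff₀ (hl i)]
    have h1 : w i * |p.2 i - q.2 i| ≤ ‖sc w (p - q)‖ := T0b_coord w hw (p - q) i
    have h2 : 1 ≤ C * (w i * l i) := by
      have := h i
      rw [div_le_iff₀ hC0] at this
      linarith
    have h3 := abs_nonneg (p.2 i - q.2 i)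
    calc |p.2 i - q.2 i| ≤ (C * (w i * l i)) * |p.2 i - q.2 i| := le_mul_of_one_le_left h3 h2
      _ = (C * l i) * (w i * |p.2 i - q.2 i|) := by ring
      _ ≤ (C * l i) * ‖sc w (p - q)‖ :=
          mul_le_mul_of_nonneg_left h1 (mul_nonneg hC0.le (hl i).le)
      _ = C * ‖sc w (p - q)‖ * l i := by ring

theorem T0b_bi_lip (z l w : D → ℝ) (hl : ∀ i, 0 < l i) (hw : ∀ i, 0 ≤ w i) (C : ℝ) (hC : 1 ≤ C)
    (h : ∀ i, w i * l i ≤ C) (p q : X × (D → ℝ)) : ‖sc w (bi z l p - bi z l q)‖ ≤ C * ‖p - q‖ := by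
  have hC0 : 0 < C := lt_of_lt_of_le zero_lt_one hC
  rw [T0b_le w hw _ _ (mul_nonneg hC0.le (norm_nonneg _))]
  refine ⟨?_, fun i => ?_⟩
  · show ‖p.1 - q.1‖ ≤ _
    exact (norm_fst_le (p - q)).trans (le_mul_of_one_le_left (norm_nonneg _) hC)
  · show w i * |(z i + l i * p.2 i) - (z i + l i * q.2 i)| ≤ _
    have e : (z i + l i * p.2 i) - (z i + l i * q.2 i) = l i * (p.2 i - q.2 i) := by ring
    rw [e, abs_mul, abs_of_pos (hl i), ← mul_assoc]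
    have h1 : |p.2 i - q.2 i| ≤ ‖p - q‖ := (norm_le_pi_norm (p - q).2 i).trans (norm_snd_le _)
    exact mul_le_mul (h i) h1 (abs_nonneg _) hC0.le

theorem T0b_bo_cont (z l : D → ℝ) : Continuous (bo z l : X × (D → ℝ) → X × (D → ℝ)) := by
  unfold bo
  refine Continuous.prodMk continuous_fst (continuous_pi (fun i => ?_))
  exact (((continuous_apply i).comp continuous_snd).sub continuous_const).div_const _

theorem T0b_bi_cont (z l : D → ℝ) : Continuous (bi z l : X × (D → ℝ) → X × (D → ℝ)) := by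
  unfold bi
  refine Continuous.prodMk continuous_fst (continuous_pi (fun i => ?_))
  exact continuous_const.add (continuous_const.mul ((continuous_apply i).comp continuous_snd))

/-- the open `ρ`-box in terms of box coordinates -/
theorem T0b_box_iff (z l : D → ℝ) (hl : ∀ i, 0 < l i) (ρ : ℝ) (hρ : 0 < ρ) (p : X × (D → ℝ)) :
    ‖(bo z l p).2‖ < ρ ↔ ∀ i, |p.2 i - z i| < ρ * l i := by
  rw [pi_norm_lt_iff hρ]
  refine forall_congr' (fun i => ?_)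
  show ‖(p.2 i - z i) / l i‖ < ρ ↔ _
  rw [Real.norm_eq_abs, abs_div, abs_of_pos (hl i), div_lt_iff₀ (hl i)]

/-- `gau` is continuous where box data are constant: near `p` with `need p.2` and `gau < 6/5` the box data are constant -/
theorem T0b_near (Z ℓ : (D → ℝ) → D → ℝ) (need : (D → ℝ) → Prop) (hl : ∀ y i, 0 < ℓ y i)
    (hb : ∀ y y' : D → ℝ, need y → (∀ i, |y' i - Z y i| < 6 / 5 * ℓ y i) → Z y' = Z y ∧ ℓ y' = ℓ y ∧ need y')
    (p : X × (D → ℝ)) (hn : need p.2) (hg : gau Z ℓ p.2 < 6 / 5) :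
    ∀ᶠ q in 𝓝 p, Z q.2 = Z p.2 ∧ ℓ q.2 = ℓ p.2 ∧ need q.2 ∧ gau Z ℓ q.2 < 6 / 5 := by
  have h65 : (0 : ℝ) < 6 / 5 := by norm_num
  have hp : ∀ i, |p.2 i - Z p.2 i| < 6 / 5 * ℓ p.2 i :=
    (T0b_box_iff (Z p.2) (ℓ p.2) (hl p.2) (6 / 5) h65 p).1 hg
  have hev : ∀ᶠ q : X × (D → ℝ) in 𝓝 p, ∀ i, |q.2 i - Z p.2 i| < 6 / 5 * ℓ p.2 i := by
    rw [Filter.eventually_all]
    intro i
    have hc : Continuous (fun q : X × (D → ℝ) => |q.2 i - Z p.2 i|) :=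
      (((continuous_apply i).comp continuous_snd).sub continuous_const).abs
    exact hc.continuousAt.eventually (gt_mem_nhds (hp i))
  filter_upwards [hev] with q hq
  obtain ⟨h1, h2, h3⟩ := hb p.2 q.2 hn hq
  refine ⟨h1, h2, h3, ?_⟩
  have h4 := (T0b_box_iff (Z p.2) (ℓ p.2) (hl p.2) (6 / 5) h65 q).2 hq
  have h5 : gau Z ℓ q.2 = ‖(bo (Z p.2) (ℓ p.2) q).2‖ := by
    unfold gau
    rw [h1, h2]
    rfl
  rw [h5]
  exact h4

end H80.LD

end S_H80_LD_T0b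

section S_H80_LD_B0a

/-!
# B0a: from pointwise Lipschitz bounds to Lipschitz bounds on segments

`g t = G (p + t (q - p))`, `S = {t ∈ [0,1] | ‖g t - g 0‖ ≤ L ‖q-p‖ t}`.  `g` is continuous on `[0,1]` (pointwise Lipschitz bound implies
continuity at the points of the segment), so `S` is closed; `0 ∈ S`; if `t ∈ S`, `t < 1`, then by the bound at `p + t(q-p)` all `t' > t` close to
`t` are in `S` (triangle inequality).  `IsClosed.Icc_subset_of_forall_exists_gt` gives `S = [0,1]`.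
-/

open Filter Topology Metric Set

namespace H80.LD

theorem B0a_cont {E F : Type*} [NormedAddCommGroup E] [NormedAddCommGroup F]
    (G : E → F) (L : ℝ) (x : E) (h : ∀ᶠ y in 𝓝 x, ‖G y - G x‖ ≤ L * ‖y - x‖) :
    ContinuousAt G x := by
  unfold ContinuousAt
  rw [tendsto_iff_norm_sub_tendsto_zero]
  have h1 : Tendsto (fun y : E => L * ‖y - x‖) (𝓝 x) (𝓝 0) := by
    have : Continuous (fun y : E => L * ‖y - x‖) := by fun_prop
    have h2 := this.tendsto x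
    simpa using h2
  exact squeeze_zero' (Eventually.of_forall fun y => norm_nonneg _) h h1

theorem B0a_lip_seg {E F : Type*} [NormedAddCommGroup E] [NormedSpace ℝ E] [NormedAddCommGroup F]
    (G : E → F) (L : ℝ) (p q : E)
    (h : ∀ x ∈ segment ℝ p q, ∀ᶠ y in 𝓝 x, ‖G y - G x‖ ≤ L * ‖y - x‖) :
    ‖G q - G p‖ ≤ L * ‖q - p‖ := by
  set γ : ℝ → E := fun t => p + t • (q - p) with hγ
  have hγc : Continuous γ := by
    rw [hγ]; fun_prop
  have hseg : ∀ t ∈ Icc (0 : ℝ) 1, γ t ∈ segment ℝ p q := by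
    intro t ht
    rw [segment_eq_image']
    exact ⟨t, ht, rfl⟩
  set S : Set ℝ := {t | ‖G (γ t) - G p‖ ≤ L * (‖q - p‖ * t)} with hS
  have hclosed : IsClosed (S ∩ Icc (0 : ℝ) 1) := by
    have hcont : ContinuousOn (fun t : ℝ => L * (‖q - p‖ * t) - ‖G (γ t) - G p‖)
        (Icc (0 : ℝ) 1) := by
      intro t ht
      have h1 : ContinuousAt G (γ t) := B0a_cont G L _ (h _ (hseg t ht))
      have h2 : ContinuousAt (fun t => G (γ t)) t :=
        ContinuousAt.comp (g := G) (f := γ) h1 hγc.continuousAt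
      apply ContinuousAt.continuousWithinAt
      have h3 : ContinuousAt (fun t : ℝ => L * (‖q - p‖ * t)) t := by
        have : Continuous (fun t : ℝ => L * (‖q - p‖ * t)) := by fun_prop
        exact this.continuousAt
      exact h3.sub (h2.sub continuousAt_const).norm
    have h4 := hcont.preimage_isClosed_of_isClosed isClosed_Icc (isClosed_Ici (a := (0 : ℝ)))
    have h5 : S ∩ Icc (0 : ℝ) 1 = Icc (0 : ℝ) 1 ∩
        (fun t : ℝ => L * (‖q - p‖ * t) - ‖G (γ t) - G p‖) ⁻¹' Ici 0 := by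
      ext t
      simp only [hS, mem_inter_iff, mem_ofPred_eq, mem_preimage, mem_Ici, sub_nonneg]
      tauto
    rw [h5]; exact h4
  have h0 : (0 : ℝ) ∈ S := by
    simp [hS, hγ]
  have hstep : ∀ t ∈ S ∩ Ico (0 : ℝ) 1, ∀ y ∈ Ioi t, (S ∩ Ioc t y).Nonempty := by
    rintro t ⟨htS, ht⟩ y hy
    have ht' : t ∈ Icc (0 : ℝ) 1 := ⟨ht.1, ht.2.le⟩
    have h1 := h _ (hseg t ht')
    have h2 : ∀ᶠ u in 𝓝 t, ‖G (γ u) - G (γ t)‖ ≤ L * ‖γ u - γ t‖ :=
      (hγc.tendsto t).eventually h1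
    have h3 : ∀ᶠ u in 𝓝[>] t, ‖G (γ u) - G (γ t)‖ ≤ L * ‖γ u - γ t‖ :=
      h2.filter_mono nhdsWithin_le_nhds
    have h4 : ∀ᶠ u in 𝓝[>] t, u ∈ Ioc t y := Ioc_mem_nhdsGT hy
    obtain ⟨u, hu1, hu2⟩ := (h3.and h4).exists
    refine ⟨u, ?_, hu2⟩
    have h5 : ‖γ u - γ t‖ = ‖q - p‖ * (u - t) := by
      have : γ u - γ t = (u - t) • (q - p) := by
        simp only [hγ]
        rw [sub_smul]; abel
      rw [this, norm_smul, Real.norm_of_nonneg (by linarith [hu2.1]), mul_comm]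
    rw [h5] at hu1
    have htS' : ‖G (γ t) - G p‖ ≤ L * (‖q - p‖ * t) := htS
    show ‖G (γ u) - G p‖ ≤ L * (‖q - p‖ * u)
    have h6 : G (γ u) - G p = (G (γ u) - G (γ t)) + (G (γ t) - G p) := by abel
    calc ‖G (γ u) - G p‖ ≤ ‖G (γ u) - G (γ t)‖ + ‖G (γ t) - G p‖ := by
          rw [h6]; exact norm_add_le _ _
      _ ≤ L * (‖q - p‖ * (u - t)) + L * (‖q - p‖ * t) := add_le_add hu1 htS'
      _ = L * (‖q - p‖ * u) := by ring
  have hall := IsClosed.Icc_subset_of_forall_exists_gt hclosed h0 hstep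
  have h1 : (1 : ℝ) ∈ S := hall ⟨zero_le_one, le_refl _⟩
  have h2 : ‖G (γ 1) - G p‖ ≤ L * (‖q - p‖ * 1) := h1
  have h3 : γ 1 = q := by simp [hγ]
  rw [h3, mul_one] at h2
  exact h2

theorem B0a_lip_convex {E F : Type*} [NormedAddCommGroup E] [NormedSpace ℝ E] [NormedAddCommGroup F]
    (G : E → F) (L : ℝ) (s : Set E) (hs : Convex ℝ s)
    (h : ∀ x ∈ s, ∀ᶠ y in 𝓝 x, ‖G y - G x‖ ≤ L * ‖y - x‖) :
    ∀ p ∈ s, ∀ q ∈ s, ‖G q - G p‖ ≤ L * ‖q - p‖ := by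
  intro p hp q hq
  exact B0a_lip_seg G L p q fun x hx => h x (hs.segment_subset hp hq hx)

end H80.LD

end S_H80_LD_B0a

section S_H80_LD_E0

/-!
# E0: statements of the intermediate extension theorems

`X` is the parameter space, `D` the set of the other coordinates.  Walls are Lipschitz functions `w : X → ℝ` of the parameter.
-/

open Filter Topology Metric Set

namespace H80.LD

def Lipw {X : Type*} [NormedAddCommGroup X] (l : ℝ) (w : X → ℝ) : Prop := ∀ c c', |w c - w c'| ≤ l * ‖c - c'‖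

/-- taper on the right side of the wall `p.2 t = w p.1` -/
def HTStmt (X : Type) [NormedAddCommGroup X] (D : Type) [Fintype D] (t : D) : Prop :=
  ∀ L : ℝ, 1 ≤ L → ∀ η : ℝ, 0 < η → ∀ l : ℝ, 0 ≤ l → ∃ ε₀ : ℝ, 0 < ε₀ ∧ ∃ C : ℝ, 1 ≤ C ∧
    ∀ ε : ℝ, 0 < ε → ε ≤ ε₀ → ∀ (U : Set (X × (D → ℝ))) (e e' : X × (D → ℝ) → X × (D → ℝ)) (w : X → ℝ), Lipw l w →
      NP ε L U e e' → ∃ F F' : X × (D → ℝ) → X × (D → ℝ),
        NP (C * ε) C {p : X × (D → ℝ) | (p.2 t < w p.1 ∧ p ∈ U) ∨ closedBall p η ⊆ U ∨ w p.1 + η < p.2 t} F F' ∧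
        (∀ p : X × (D → ℝ), p.2 t ≤ w p.1 → F p = e p ∧ F' p = e' p) ∧
        (∀ p : X × (D → ℝ), w p.1 + η ≤ p.2 t → F p = p ∧ F' p = p) ∧
        (∀ p : X × (D → ℝ), (∀ q ∈ closedBall p η, e q = q ∧ e' q = q) → F p = p ∧ F' p = p)

/-- taper on the left side of the wall `p.2 t = w p.1` -/
def HLStmt (X : Type) [NormedAddCommGroup X] (D : Type) [Fintype D] (t : D) : Prop :=
  ∀ L : ℝ, 1 ≤ L → ∀ η : ℝ, 0 < η → ∀ l : ℝ, 0 ≤ l → ∃ ε₀ : ℝ, 0 < ε₀ ∧ ∃ C : ℝ, 1 ≤ C ∧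
    ∀ ε : ℝ, 0 < ε → ε ≤ ε₀ → ∀ (U : Set (X × (D → ℝ))) (e e' : X × (D → ℝ) → X × (D → ℝ)) (w : X → ℝ), Lipw l w →
      NP ε L U e e' → ∃ F F' : X × (D → ℝ) → X × (D → ℝ),
        NP (C * ε) C {p : X × (D → ℝ) | (w p.1 < p.2 t ∧ p ∈ U) ∨ closedBall p η ⊆ U ∨ p.2 t < w p.1 - η} F F' ∧
        (∀ p : X × (D → ℝ), w p.1 ≤ p.2 t → F p = e p ∧ F' p = e' p) ∧
        (∀ p : X × (D → ℝ), p.2 t ≤ w p.1 - η → F p = p ∧ F' p = p) ∧
        (∀ p : X × (D → ℝ), (∀ q ∈ closedBall p η, e q = q ∧ e' q = q) → F p = p ∧ F' p = p)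

/-- taper outside the boxes `w1 i ≤ p.2 i ≤ w2 i`, `i ∈ s` -/
def CTStmt (X : Type) [NormedAddCommGroup X] (D : Type) [Fintype D] (s : Finset D) : Prop :=
  ∀ L : ℝ, 1 ≤ L → ∀ η : ℝ, 0 < η → ∀ l : ℝ, 0 ≤ l → ∃ ε₀ : ℝ, 0 < ε₀ ∧ ∃ C : ℝ, 1 ≤ C ∧
    ∀ ε : ℝ, 0 < ε → ε ≤ ε₀ → ∀ (U : Set (X × (D → ℝ))) (e e' : X × (D → ℝ) → X × (D → ℝ)) (w1 w2 : D → X → ℝ),
      (∀ i, Lipw l (w1 i) ∧ Lipw l (w2 i)) →
      NP ε L U e e' → ∃ F F' : X × (D → ℝ) → X × (D → ℝ),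
        NP (C * ε) C {p : X × (D → ℝ) | closedBall p η ⊆ U} F F' ∧
        (∀ p : X × (D → ℝ), (∀ i ∈ s, w1 i p.1 ≤ p.2 i ∧ p.2 i ≤ w2 i p.1) → F p = e p ∧ F' p = e' p) ∧
        (∀ p : X × (D → ℝ), (∃ i ∈ s, p.2 i ≤ w1 i p.1 - η ∨ w2 i p.1 + η ≤ p.2 i) → F p = p ∧ F' p = p) ∧
        (∀ p : X × (D → ℝ), (∀ q ∈ closedBall p η, e q = q ∧ e' q = q) → F p = p ∧ F' p = p)

/-- taper outside a ball -/
def BTStmt (X : Type) [NormedAddCommGroup X] (D : Type) [Fintype D] : Prop :=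
  ∀ L : ℝ, 1 ≤ L → ∀ ρ₁ ρ₂ η : ℝ, 0 < ρ₁ → ρ₁ < ρ₂ → 0 < η → ∃ ε₀ : ℝ, 0 < ε₀ ∧ ∃ C : ℝ, 1 ≤ C ∧
    ∀ ε : ℝ, 0 < ε → ε ≤ ε₀ → ∀ (z : X × (D → ℝ)) (U : Set (X × (D → ℝ))) (e e' : X × (D → ℝ) → X × (D → ℝ)),
      NP ε L U e e' → closedBall z (ρ₂ + η) ⊆ U → ∃ F F' : X × (D → ℝ) → X × (D → ℝ),
        NP (C * ε) C univ F F' ∧
        (∀ p ∈ closedBall z ρ₁, F p = e p ∧ F' p = e' p) ∧
        (∀ p, p ∉ closedBall z ρ₂ → F p = p ∧ F' p = p) ∧
        (∀ p : X × (D → ℝ), (∀ q ∈ closedBall p η, e q = q ∧ e' q = q) → F p = p ∧ F' p = p)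

/-- taper outside a separated family of balls -/
def FTStmt (X : Type) [NormedAddCommGroup X] (D : Type) [Fintype D] : Prop :=
  ∀ L : ℝ, 1 ≤ L → ∀ ρ₁ ρ₂ η : ℝ, 0 < ρ₁ → ρ₁ < ρ₂ → 0 < η → ∃ ε₀ : ℝ, 0 < ε₀ ∧ ∃ C : ℝ, 1 ≤ C ∧
    ∀ ε : ℝ, 0 < ε → ε ≤ ε₀ → ∀ (Zs : Set (X × (D → ℝ))), (∀ z ∈ Zs, ∀ z' ∈ Zs, z ≠ z' → 2 * ρ₂ + 2 * η ≤ dist z z') →
      ∀ (U : Set (X × (D → ℝ))) (e e' : X × (D → ℝ) → X × (D → ℝ)),
      NP ε L U e e' → (∀ z ∈ Zs, closedBall z (ρ₂ + η) ⊆ U) → ∃ F F' : X × (D → ℝ) → X × (D → ℝ),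
        NP (C * ε) C univ F F' ∧
        (∀ z ∈ Zs, ∀ p ∈ closedBall z ρ₁, F p = e p ∧ F' p = e' p) ∧
        (∀ p, (∀ z ∈ Zs, p ∉ closedBall z ρ₂) → F p = p ∧ F' p = p) ∧
        (∀ p : X × (D → ℝ), (∀ q ∈ closedBall p η, e q = q ∧ e' q = q) → F p = p ∧ F' p = p)

/-- covering by finitely many separated families -/
def LatStmt (D : Type) [Fintype D] : Prop :=
  ∀ κ : ℝ, 0 < κ → ∃ (N : ℕ) (Zs : ℕ → Set (ℂ × (D → ℝ))), 0 < N ∧
    (∀ j, ∀ z ∈ Zs j, ∀ z' ∈ Zs j, z ≠ z' → 8 * κ ≤ dist z z') ∧ ∀ p : ℂ × (D → ℝ), ∃ j < N, ∃ z ∈ Zs j, dist p z ≤ κ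

/-- after `k` of `N` families -/
def StepStmt (D : Type) [Fintype D] (κ : ℝ) (N : ℕ) (Zs : ℕ → Set (ℂ × (D → ℝ))) (L : ℝ) (k : ℕ) : Prop :=
  ∃ ε₀ : ℝ, 0 < ε₀ ∧ ∃ C : ℝ, 1 ≤ C ∧ ∀ ε : ℝ, 0 < ε → ε ≤ ε₀ →
    ∀ (U : Set (ℂ × (D → ℝ))) (e e' : ℂ × (D → ℝ) → ℂ × (D → ℝ)), NP ε L U e e' →
      ∃ F F' : ℂ × (D → ℝ) → ℂ × (D → ℝ), NP (C * ε) C univ F F' ∧
        (∀ j < k, ∀ z ∈ Zs j, closedBall z (5 * κ) ⊆ U → ∀ p ∈ closedBall z (κ * (2 - (k : ℝ) / N)),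
          F p = e p ∧ F' p = e' p) ∧
        (∀ p, (∀ j < k, ∀ z ∈ Zs j, closedBall z (5 * κ) ⊆ U → p ∉ closedBall z (3 * κ)) → F p = p ∧ F' p = p)

end H80.LD

end S_H80_LD_E0

section S_H80_LD_E5

/-!
# E5: lattice covering

Centres `z(k) = (κ (k₁ + k₂ i), κ m)`, `k = (k₁, k₂, m) ∈ ℤ × ℤ × (D → ℤ)`; classes by residues mod 8: `Fin 8 × Fin 8 × (D → Fin 8)` (or `ZMod 8`) is finite, use an equivalence with `Fin N` (`N = card > 0`); `Zs j` for `j < N` is the set of `z(k)` with residue class number `j`, and `∅` for `j ≥ N`.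
* Separation: two different centres in the same class have `k ≠ k'`, all differences divisible by 8, so one coordinate of `k - k'` has absolute value `≥ 8`; `dist z z' ≥ 8 κ` (sup norm; in `ℂ` `‖w‖ ≥ |re w|, |im w|`).
* Covering: round every real coordinate of `p/κ`: `|x - round x| ≤ 1/2`; `‖w‖ ≤ |re w| + |im w| ≤ κ` in `ℂ`.
-/

open Filter Topology Metric Set

namespace H80.LD

private noncomputable def E5_cen {D : Type} (κ : ℝ) (k : ℤ × ℤ × (D → ℤ)) : ℂ × (D → ℝ) :=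
  (⟨κ * k.1, κ * k.2.1⟩, fun i => κ * k.2.2 i)

private def E5_res {D : Type} (k : ℤ × ℤ × (D → ℤ)) : ZMod 8 × ZMod 8 × (D → ZMod 8) :=
  ((k.1 : ZMod 8), (k.2.1 : ZMod 8), fun i => (k.2.2 i : ZMod 8))

private theorem E5_int {a b : ℤ} (h : (a : ZMod 8) = (b : ZMod 8)) (hne : a ≠ b) : (8 : ℝ) ≤ |(a : ℝ) - b| := by
  have h1 : (8 : ℤ) ∣ b - a := by
    have := (ZMod.intCast_eq_intCast_iff_dvd_sub a b 8).1 h
    exact_mod_cast this
  obtain ⟨c, hc⟩ := h1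
  have hc0 : c ≠ 0 := by
    rintro rfl
    apply hne
    omega
  have h2 : (8 : ℤ) ≤ |a - b| := by
    rw [abs_sub_comm, hc, abs_mul]
    have := Int.one_le_abs hc0
    norm_num
    omega
  exact_mod_cast h2

private theorem E5_sep {D : Type} [Fintype D] {κ : ℝ} (hκ : 0 < κ) {k k' : ℤ × ℤ × (D → ℤ)}
    (h : E5_res k = E5_res k') (hne : k ≠ k') : 8 * κ ≤ dist (E5_cen κ k) (E5_cen κ k') := by
  obtain ⟨a, b, m⟩ := k
  obtain ⟨a', b', m'⟩ := k'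
  simp only [E5_res, Prod.mk.injEq] at h
  obtain ⟨h1, h2, h3⟩ := h
  have hscale : ∀ x y : ℤ, (8 : ℝ) ≤ |(x : ℝ) - y| → 8 * κ ≤ |κ * x - κ * y| := by
    intro x y hxy
    rw [← mul_sub, abs_mul, abs_of_pos hκ, mul_comm 8 κ]
    gcongr
  by_cases e1 : a = a'
  · by_cases e2 : b = b'
    · have e3 : m ≠ m' := by
        rintro rfl
        apply hne
        rw [e1, e2]
      obtain ⟨i, hi⟩ := Function.ne_iff.1 e3
      have h4 := hscale _ _ (E5_int (congrFun h3 i) hi)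
      have h5 : dist ((E5_cen κ (a, b, m)).2 i) ((E5_cen κ (a', b', m')).2 i) ≤
          dist (E5_cen κ (a, b, m)).2 (E5_cen κ (a', b', m')).2 := dist_le_pi_dist _ _ i
      have h6 : dist (E5_cen κ (a, b, m)).2 (E5_cen κ (a', b', m')).2 ≤
          dist (E5_cen κ (a, b, m)) (E5_cen κ (a', b', m')) := by
        rw [Prod.dist_eq]
        exact le_max_right _ _
      rw [Real.dist_eq] at h5
      exact h4.trans (h5.trans h6)
    · have h4 := hscale _ _ (E5_int h2 e2)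
      have h5 := Complex.abs_im_le_norm ((E5_cen κ (a, b, m)).1 - (E5_cen κ (a', b', m')).1)
      have h6 : dist (E5_cen κ (a, b, m)).1 (E5_cen κ (a', b', m')).1 ≤
          dist (E5_cen κ (a, b, m)) (E5_cen κ (a', b', m')) := by
        rw [Prod.dist_eq]
        exact le_max_left _ _
      rw [dist_eq_norm] at h6
      exact h4.trans (h5.trans h6)
  · have h4 := hscale _ _ (E5_int h1 e1)
    have h5 := Complex.abs_re_le_norm ((E5_cen κ (a, b, m)).1 - (E5_cen κ (a', b', m')).1)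
    have h6 : dist (E5_cen κ (a, b, m)).1 (E5_cen κ (a', b', m')).1 ≤
        dist (E5_cen κ (a, b, m)) (E5_cen κ (a', b', m')) := by
      rw [Prod.dist_eq]
      exact le_max_left _ _
    rw [dist_eq_norm] at h6
    exact h4.trans (h5.trans h6)

private theorem E5_round {κ : ℝ} (hκ : 0 < κ) (x : ℝ) : |x - κ * (round (x / κ) : ℤ)| ≤ κ / 2 := by
  have h := abs_sub_round (x / κ)
  have e : x - κ * (round (x / κ) : ℤ) = κ * (x / κ - (round (x / κ) : ℤ)) := by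
    field_simp
  rw [e, abs_mul, abs_of_pos hκ]
  calc κ * |x / κ - (round (x / κ) : ℤ)| ≤ κ * (1 / 2) := by gcongr
    _ = κ / 2 := by ring

theorem E5_lat (D : Type) [Fintype D] : LatStmt D := by
  classical
  intro κ hκ
  refine ⟨Fintype.card (ZMod 8 × ZMod 8 × (D → ZMod 8)), fun j => {z | ∃ k : ℤ × ℤ × (D → ℤ),
    (Fintype.equivFin (ZMod 8 × ZMod 8 × (D → ZMod 8)) (E5_res k) : ℕ) = j ∧ z = E5_cen κ k},
    Fintype.card_pos, ?_, ?_⟩
  · rintro j z ⟨k, hk, rfl⟩ z' ⟨k', hk', rfl⟩ hne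
    refine E5_sep hκ ?_ ?_
    · exact (Fintype.equivFin _).injective (Fin.ext (hk.trans hk'.symm))
    · rintro rfl
      exact hne rfl
  · intro p
    refine ⟨_, (Fintype.equivFin (ZMod 8 × ZMod 8 × (D → ZMod 8)) (E5_res
      (round (p.1.re / κ), round (p.1.im / κ), fun i => round (p.2 i / κ)))).2, _, ⟨_, rfl, rfl⟩, ?_⟩
    rw [Prod.dist_eq]
    refine max_le ?_ ?_
    · rw [dist_eq_norm]
      refine (Complex.norm_le_abs_re_add_abs_im _).trans ?_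
      have h1 := E5_round hκ p.1.re
      have h2 := E5_round hκ p.1.im
      have e1 : (p.1 - (E5_cen κ (round (p.1.re / κ), round (p.1.im / κ),
        fun i => round (p.2 i / κ))).1).re = p.1.re - κ * (round (p.1.re / κ) : ℤ) := rfl
      have e2 : (p.1 - (E5_cen κ (round (p.1.re / κ), round (p.1.im / κ),
        fun i => round (p.2 i / κ))).1).im = p.1.im - κ * (round (p.1.im / κ) : ℤ) := rfl
      rw [e1, e2]
      linarith
    · rw [dist_pi_le_iff hκ.le]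
      intro i
      rw [Real.dist_eq]
      have h1 := E5_round hκ (p.2 i)
      have e1 : p.2 i - (E5_cen κ (round (p.1.re / κ), round (p.1.im / κ),
        fun i => round (p.2 i / κ))).2 i = p.2 i - κ * (round (p.2 i / κ) : ℤ) := rfl
      rw [e1]
      linarith

end H80.LD

end S_H80_LD_E5

section S_H80_LD_GDefs

/-!
# GDefs (project MP_816883_LD, blocks 8-9): definitions for the gluing of local approximants

`E` is the source and target space, `s : E → ℝ` the scale function (`s x = K ‖f'(x)‖` in the application),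
`A, B : E → E` the coarse equivalence, all errors are at most `ε s`.
All conditions on points `x, y` are on the ball of radius `r`; centres and the set `D` are in the ball of radius `r2`
with `8 L^2 r2 ≤ r`, so that all auxiliary points stay in `ball 0 r`.
-/

open Filter Topology Metric Set

namespace H80.LD

/-- the environment: a coarse equivalence `A, B` with errors at most `ε s`, `s` is `ε`-Lipschitz. -/
structure Env {E : Type*} [NormedAddCommGroup E] (A B : E → E) (s : E → ℝ) (L ε r : ℝ) : Prop where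
  hL : 1 ≤ L
  hε : 0 < ε
  hr : 0 < r
  A0 : A 0 = 0
  B0 : B 0 = 0
  spos : ∀ x ∈ ball (0 : E) r, x ≠ 0 → 0 < s x
  slip : ∀ x ∈ ball (0 : E) r, ∀ y ∈ ball (0 : E) r, |s x - s y| ≤ ε * ‖x - y‖
  ssmall : ∀ x ∈ ball (0 : E) r, s x ≤ ε * ‖x‖
  lipA : ∀ x ∈ ball (0 : E) r, ∀ y ∈ ball (0 : E) r, ‖A x - A y‖ ≤ L * ‖x - y‖
  lipB : ∀ x ∈ ball (0 : E) r, ∀ y ∈ ball (0 : E) r, ‖B x - B y‖ ≤ L * ‖x - y‖
  BA : ∀ x ∈ ball (0 : E) r, ‖B (A x) - x‖ ≤ ε * s x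
  AB : ∀ y ∈ ball (0 : E) r, ‖A (B y) - y‖ ≤ ε * s (B y)
  nB : ∀ y ∈ ball (0 : E) r, ‖y‖ ≤ 2 * L * ‖B y‖

/-- local data at a centre `z`: an exact equivalence `h, h'` close to `A, B` and a chart `Ψ, Ψ'` adapted to `f`. -/
structure Loc {E : Type*} [NormedAddCommGroup E] {D : Type*} [Fintype D] (f g : E → ℂ) (A B : E → E)
    (s : E → ℝ) (L C R ε : ℝ) (z : E) (h h' : E → E) (Ψ : E → ℂ × (D → ℝ)) (Ψ' : ℂ × (D → ℝ) → E) :
    Prop where
  hlip : ∀ x y, ‖h x - h y‖ ≤ 4 * L * ‖x - y‖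
  hlip' : ∀ x y, ‖h' x - h' y‖ ≤ 4 * L * ‖x - y‖
  inv : ∀ x, h' (h x) = x
  inv' : ∀ y, h (h' y) = y
  fh : ∀ x ∈ ball z (R * s z), f x = g (h x)
  fhA : ∀ x ∈ ball z (R * s z), ‖h x - A x‖ ≤ ε * s z
  gh : ∀ y ∈ ball (A z) (R * s z), g y = f (h' y)
  ghB : ∀ y ∈ ball (A z) (R * s z), ‖h' y - B y‖ ≤ ε * s z
  clip : ∀ x y, ‖Ψ x - Ψ y‖ ≤ C / s z * ‖x - y‖
  clip' : ∀ p q, ‖Ψ' p - Ψ' q‖ ≤ C * s z * ‖p - q‖
  cinv : ∀ x, Ψ' (Ψ x) = x
  cinv' : ∀ p, Ψ (Ψ' p) = p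
  c0 : Ψ z = 0
  c1 : ∀ x ∈ ball z (R * s z), ∀ y ∈ ball z (R * s z), ((Ψ x).1 = (Ψ y).1 ↔ f x = f y)

/-- the state on a set `D` of source points: exact equivalence `G, H` on `D`, close to `A, B`. -/
structure St {E : Type*} [NormedAddCommGroup E] (f g : E → ℂ) (A B : E → E) (s : E → ℝ) (r : ℝ)
    (D : Set E) (ε Λ : ℝ) (G H : E → E) : Prop where
  s1 : ∀ x ∈ D, f x = g (G x)
  s1d : ∀ x ∈ D, ‖G x - A x‖ ≤ ε * s x
  s1l : ∀ x ∈ D, ∀ᶠ x' in 𝓝 x, ‖G x' - G x‖ ≤ Λ * ‖x' - x‖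
  s2 : ∀ y ∈ ball (0 : E) r, B y ∈ D → g y = f (H y)
  s2d : ∀ y ∈ ball (0 : E) r, B y ∈ D → ‖H y - B y‖ ≤ ε * s (B y)
  s2l : ∀ y ∈ ball (0 : E) r, B y ∈ D → ∀ᶠ y' in 𝓝 y, ‖H y' - H y‖ ≤ Λ * ‖y' - y‖
  s3 : ∀ x ∈ D, B (G x) ∈ D → H (G x) = x
  s3' : ∀ y ∈ ball (0 : E) r, B y ∈ D → H y ∈ D → G (H y) = y

theorem St.mono {E : Type*} [NormedAddCommGroup E] {f g : E → ℂ} {A B : E → E} {s : E → ℝ} {r : ℝ}
    {D D' : Set E} {ε Λ : ℝ} {G H : E → E} (h : St f g A B s r D ε Λ G H) (hD : D' ⊆ D) :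
    St f g A B s r D' ε Λ G H :=
  { s1 := fun x hx => h.s1 x (hD hx)
    s1d := fun x hx => h.s1d x (hD hx)
    s1l := fun x hx => h.s1l x (hD hx)
    s2 := fun y hy hx => h.s2 y hy (hD hx)
    s2d := fun y hy hx => h.s2d y hy (hD hx)
    s2l := fun y hy hx => h.s2l y hy (hD hx)
    s3 := fun x hx hy => h.s3 x (hD hx) (hD hy)
    s3' := fun y hy hx hH => h.s3' y hy (hD hx) (hD hH) }

/-- the new maps `g1, k1` at a centre `z`: they are global bijections inverse to each other, exact near `z`, and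
agree with the old maps `G, H` at the points of `D` with a margin. -/
structure LocOut {E : Type*} [NormedAddCommGroup E] (f g : E → ℂ) (A B : E → E) (s : E → ℝ) (r : ℝ)
    (z : E) (D : Set E) (τ ε Λ : ℝ) (G H g1 k1 : E → E) : Prop where
  o1 : ∀ x ∈ ball z (3 * s z), f x = g (g1 x)
  o1d : ∀ x ∈ ball z (3 * s z), ‖g1 x - A x‖ ≤ ε * s z
  o1l : ∀ x, ∀ᶠ x' in 𝓝 x, ‖g1 x' - g1 x‖ ≤ Λ * ‖x' - x‖
  o2 : ∀ y ∈ ball (0 : E) r, B y ∈ ball z (3 * s z) → g y = f (k1 y)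
  o2d : ∀ y ∈ ball (0 : E) r, B y ∈ ball z (3 * s z) → ‖k1 y - B y‖ ≤ ε * s z
  o2l : ∀ y, ∀ᶠ y' in 𝓝 y, ‖k1 y' - k1 y‖ ≤ Λ * ‖y' - y‖
  o3 : ∀ x, k1 (g1 x) = x
  o3' : ∀ y, g1 (k1 y) = y
  o4 : ∀ x ∈ ball z (3 * s z), closedBall x (τ * s z) ⊆ D → g1 x = G x
  o5 : ∀ y ∈ ball (0 : E) r, B y ∈ ball z (3 * s z) → closedBall (B y) (τ * s z) ⊆ D → k1 y = H y

/-- points of `D` with margin `2 τ s`, together with the balls of radius `2 s z`. -/
def newD {E : Type*} [NormedAddCommGroup E] (s : E → ℝ) (D Z : Set E) (τ : ℝ) : Set E :=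
  {x | x ∈ D ∧ closedBall x (2 * τ * s x) ⊆ D} ∪ ⋃ z ∈ Z, ball z (2 * s z)

/-- the whole system: environment, local data at every centre, and a coloured set of centres. -/
structure Sys {E : Type*} [NormedAddCommGroup E] (D : Type*) [Fintype D] (f g : E → ℂ)
    (A B : E → E) (s : E → ℝ) (L C R ε r r2 : ℝ) (Z : ℕ → Set E) : Prop where
  env : Env A B s L ε r
  hr2 : 0 < r2
  h8 : 8 * L ^ 2 * r2 ≤ r
  loc : ∀ z : E, z ≠ 0 → ‖z‖ < r2 → ∃ (h h' : E → E) (Ψ : E → ℂ × (D → ℝ)) (Ψ' : ℂ × (D → ℝ) → E),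
    Loc f g A B s L C R ε z h h' Ψ Ψ'
  cen : ∀ i, ∀ z ∈ Z i, z ≠ 0 ∧ ‖z‖ < r2 / 2
  sep : ∀ i, ∀ z ∈ Z i, ∀ z' ∈ Z i, z ≠ z' → 6 * max (s z) (s z') ≤ ‖z - z'‖

/-- the union of the balls of radius `a s z` around the centres of the first `j` colours -/
def domJ {E : Type*} [NormedAddCommGroup E] (s : E → ℝ) (Z : ℕ → Set E) (a : ℝ) (j : ℕ) : Set E :=
  {x | ∃ i < j, ∃ z ∈ Z i, x ∈ ball z (a * s z)}

end H80.LD

end S_H80_LD_GDefs
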