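import Mathlib
import Pool.Agent.H80.LM.G01

/-! MP_816883_ag: this file joins several modules (see the folders H80/LD, H24/LS) to save build time. -/

section S_H80_LD_K4

/-!
# K4: the clock is locally independent of the coordinate `b` near points outside the `(b, J)`-box

`M = MM a b`, `j = ⌊y b⌋`, `n = nn a b y < M`, `κ = col a b y`, `num κ = n`, `s_i = sH σ H j i > 0`, `F = M * fract (y b) ∈ [n, n+1)`, so `y b = j + F / M`.
In all cases, with the same floor `eta y' i = s_i y' i`, the value is the same for `y'` and `y''` if they agree on `J`.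
-/

open Filter Topology Metric Set

namespace H80.LD

variable {D : Type*} [Fintype D] [DecidableEq D]

/-- current subinterval and colour -/
theorem K4_nn (a b : D) (y : D → ℝ) : nn a b y < MM a b ∧ (nn a b y : ℝ) ≤ (MM a b : ℝ) * Int.fract (y b) ∧
    (MM a b : ℝ) * Int.fract (y b) < nn a b y + 1 ∧ ((num a b (col a b y) : ℕ)) = nn a b y := by
  have hM : (1 : ℝ) ≤ (MM a b : ℝ) := by exact_mod_cast K2_MM a b
  have h0 : 0 ≤ (MM a b : ℝ) * Int.fract (y b) :=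
    mul_nonneg (by linarith) (Int.fract_nonneg _)
  have h1 : nn a b y < MM a b := by
    unfold nn
    rw [Nat.floor_lt h0]
    have := Int.fract_lt_one (y b)
    nlinarith
  refine ⟨h1, Nat.floor_le h0, Nat.lt_floor_add_one _, ?_⟩
  unfold col
  rw [dif_pos h1, Equiv.apply_symm_apply]

theorem K4_floor_aux (M : ℝ) (hM : 1 ≤ M) (z : ℝ) (j : ℤ) (h0 : 0 ≤ M * (z - j))
    (h1 : M * (z - j) < M) : ⌊z⌋ = j ∧ M * Int.fract z = M * (z - j) := by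
  have hM0 : 0 < M := by linarith
  have ha : 0 ≤ z - j := nonneg_of_mul_nonneg_right h0 hM0
  have hb : z - j < 1 := by
    by_contra hcon
    push Not at hcon
    nlinarith
  have hf : ⌊z⌋ = j := by
    rw [Int.floor_eq_iff]
    constructor <;> linarith
  refine ⟨hf, ?_⟩
  rw [Int.fract, hf]

theorem K4_val (σ : ℝ → ℝ) (H : Finset D) (a b : D) (y' : D → ℝ) (j : ℤ) (m : ℕ)
    (hfl : ⌊y' b⌋ = j) (G : ℝ) (hG : (MM a b : ℝ) * Int.fract (y' b) = G)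
    (h1 : ∀ κ : JJ a b → Bool, ((num a b κ : ℕ)) < m →
      3 / 4 ≤ G - ((num a b κ : ℕ) : ℝ) ∨ wt a b κ (eta σ H b y') = 0)
    (h2 : ∀ κ : JJ a b → Bool, m ≤ ((num a b κ : ℕ)) →
      G - ((num a b κ : ℕ) : ℝ) ≤ 1 / 4 ∨ wt a b κ (eta σ H b y') = 0) :
    cb σ H a b y' = (j : ℝ) + ∑ κ : JJ a b → Bool,
      if ((num a b κ : ℕ)) < m then wt a b κ (eta σ H b y') else 0 := by
  unfold cb
  rw [hfl, hG]
  congr 1
  refine Finset.sum_congr rfl fun κ _ => ?_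
  split_ifs with h
  · rcases h1 κ h with h' | h'
    · rw [K1_ramp_one _ h', mul_one]
    · rw [h', zero_mul]
  · rcases h2 κ (not_lt.1 h) with h' | h'
    · rw [K1_ramp_zero _ h', mul_zero]
    · rw [h', zero_mul]

theorem K4_val_congr (σ : ℝ → ℝ) (H : Finset D) (a b : D) (y' y'' : D → ℝ) (j : ℤ) (m : ℕ)
    (h' : cb σ H a b y' = (j : ℝ) + ∑ κ : JJ a b → Bool,
      if ((num a b κ : ℕ)) < m then wt a b κ (eta σ H b y') else 0)
    (h'' : cb σ H a b y'' = (j : ℝ) + ∑ κ : JJ a b → Bool,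
      if ((num a b κ : ℕ)) < m then wt a b κ (eta σ H b y'') else 0)
    (hf' : ⌊y' b⌋ = j) (hf'' : ⌊y'' b⌋ = j) (heq : ∀ i : JJ a b, y' i = y'' i) :
    cb σ H a b y' = cb σ H a b y'' := by
  rw [h', h'']
  congr 1
  refine Finset.sum_congr rfl fun κ _ => ?_
  split_ifs with h
  · refine K2_congr a b κ _ _ fun i => ?_
    unfold eta
    rw [hf', hf'', heq i]
  · rfl

theorem K4_num_lt (a b : D) (κ : JJ a b → Bool) : (((num a b κ : ℕ)) : ℝ) + 1 ≤ (MM a b : ℝ) := by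
  exact_mod_cast (num a b κ).2

theorem K4_all (σ : ℝ → ℝ) (H : Finset D) (a b : D) (y' : D → ℝ) (j : ℤ)
    (hfl : ⌊y' b⌋ = j) (G : ℝ) (hG : (MM a b : ℝ) * Int.fract (y' b) = G)
    (h1 : (MM a b : ℝ) - 1 / 4 ≤ G) : cb σ H a b y' = (j : ℝ) + 1 := by
  rw [K4_val σ H a b y' j (MM a b) hfl G hG]
  · congr 1
    rw [← K2_sum a b (eta σ H b y')]
    refine Finset.sum_congr rfl fun κ _ => ?_
    rw [if_pos (num a b κ).2]
  · intro κ _
    left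
    have := K4_num_lt a b κ
    linarith
  · intro κ h
    exact absurd (num a b κ).2 (not_lt.2 h)

theorem K4_none (σ : ℝ → ℝ) (H : Finset D) (a b : D) (y' : D → ℝ) (j : ℤ)
    (hfl : ⌊y' b⌋ = j) (G : ℝ) (hG : (MM a b : ℝ) * Int.fract (y' b) = G)
    (h1 : G ≤ 1 / 4) : cb σ H a b y' = (j : ℝ) := by
  rw [K4_val σ H a b y' j 0 hfl G hG]
  · simp
  · intro κ h
    exact absurd h (Nat.not_lt_zero _)
  · intro κ _
    left
    have : (0 : ℝ) ≤ ((num a b κ : ℕ) : ℝ) := Nat.cast_nonneg _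
    linarith

theorem K4_sH_pos (σ : ℝ → ℝ) (hσ : ∀ c, 0 < σ c) (H : Finset D) (j : ℤ) (i : D) :
    0 < sH σ H j i := by
  unfold sH
  split_ifs
  · exact hσ _
  · exact one_pos

theorem K4_wt_zero (σ : ℝ → ℝ) (hσ : ∀ c, 0 < σ c) (lj : ℤ → ℝ) (H : Finset D) (a b : D) (y : D → ℝ)
    (i : JJ a b) (hi : 35 / 100 / sH σ H ⌊y b⌋ i ≤ |y i - ZZ σ lj H a b y i|)
    (y' : D → ℝ) (hfl : ⌊y' b⌋ = ⌊y b⌋) (h' : sH σ H ⌊y b⌋ i * |y' i - y i| ≤ 1 / 25) :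
    wt a b (col a b y) (eta σ H b y') = 0 := by
  have hs := K4_sH_pos σ hσ H ⌊y b⌋ i
  have hd : |eta σ H b y i - eta σ H b y' i| ≤ 1 / 25 := by
    unfold eta
    rw [hfl, ← mul_sub, abs_mul, abs_of_pos hs, abs_sub_comm]
    exact h'
  have hd2 : |eta σ H b y' i - eta σ H b y i| ≤ 1 / 25 := by rwa [abs_sub_comm]
  have hi' : 35 / 100 ≤ |eta σ H b y i - (if col a b y i then (round (eta σ H b y i) : ℝ)
      else (⌊eta σ H b y i⌋ : ℝ) + 1 / 2)| := by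
    rw [div_le_iff₀ hs] at hi
    have hZ : ZZ σ lj H a b y i = (if col a b y i then (round (eta σ H b y i) : ℝ)
      else (⌊eta σ H b y i⌋ : ℝ) + 1 / 2) / sH σ H ⌊y b⌋ i := by
      unfold ZZ
      rw [dif_pos i.2]
    rw [hZ] at hi
    set c := (if col a b y i then (round (eta σ H b y i) : ℝ)
      else (⌊eta σ H b y i⌋ : ℝ) + 1 / 2)
    have : |y i - c / sH σ H ⌊y b⌋ i| * sH σ H ⌊y b⌋ i = |eta σ H b y i - c| := by
      rw [← abs_of_pos hs, ← abs_mul, abs_of_pos hs]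
      congr 1
      unfold eta
      field_simp
    rwa [this] at hi
  refine K2_zero a b _ _ i ?_
  split_ifs with hc
  · rw [if_pos hc] at hi'
    refine K1_uu_zero _ ?_
    have := K1_dist_lip (eta σ H b y i) (eta σ H b y' i)
    linarith
  · rw [if_neg hc, K1_half] at hi'
    refine K1_uu_one _ ?_
    have := K1_dist_lip (eta σ H b y' i) (eta σ H b y i)
    linarith

theorem K4_F (a b : D) (y : D → ℝ) (y' : D → ℝ) (hb' : |y' b - y b| ≤ 1 / (25 * (MM a b : ℝ))) :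
    |(MM a b : ℝ) * (y' b - ⌊y b⌋) - (MM a b : ℝ) * Int.fract (y b)| ≤ 1 / 25 := by
  have hM : (1 : ℝ) ≤ (MM a b : ℝ) := by exact_mod_cast K2_MM a b
  have hM0 : (0 : ℝ) < (MM a b : ℝ) := by linarith
  have e : (MM a b : ℝ) * (y' b - ⌊y b⌋) - (MM a b : ℝ) * Int.fract (y b)
      = (MM a b : ℝ) * (y' b - y b) := by
    rw [Int.fract]; ring
  rw [e, abs_mul, abs_of_pos hM0]
  calc (MM a b : ℝ) * |y' b - y b| ≤ (MM a b : ℝ) * (1 / (25 * (MM a b : ℝ))) :=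
        mul_le_mul_of_nonneg_left hb' hM0.le
    _ = 1 / 25 := by field_simp

theorem K4_box (a b : D) (y : D → ℝ) :
    |y b - ((⌊y b⌋ : ℝ) + ((nn a b y : ℝ) + 1 / 2) / (MM a b : ℝ))| =
      |(MM a b : ℝ) * Int.fract (y b) - (nn a b y + 1 / 2)| / (MM a b : ℝ) := by
  have hM : (1 : ℝ) ≤ (MM a b : ℝ) := by exact_mod_cast K2_MM a b
  have hM0 : (0 : ℝ) < (MM a b : ℝ) := by linarith
  rw [eq_div_iff hM0.ne', ← abs_of_pos hM0, ← abs_mul, abs_of_pos hM0]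
  congr 1
  rw [Int.fract]
  field_simp
  ring

/-- the value of the clock in all cases -/
theorem K4_cases (σ : ℝ → ℝ) (hσ : ∀ c, 0 < σ c) (lj : ℤ → ℝ) (H : Finset D) (a b : D) (y : D → ℝ)
    (hy : 3 / 10 / (MM a b : ℝ) ≤ |y b - ((⌊y b⌋ : ℝ) + ((nn a b y : ℝ) + 1 / 2) / (MM a b : ℝ))| ∨
      ∃ i : JJ a b, 35 / 100 / sH σ H ⌊y b⌋ i ≤ |y i - ZZ σ lj H a b y i|) :
    (∃ v : ℝ, ∀ y' : D → ℝ, |y' b - y b| ≤ 1 / (25 * (MM a b : ℝ)) → cb σ H a b y' = v) ∨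
    ∃ m : ℕ, ∀ y' : D → ℝ, |y' b - y b| ≤ 1 / (25 * (MM a b : ℝ)) →
      (∀ i : JJ a b, sH σ H ⌊y b⌋ i * |y' i - y i| ≤ 1 / 25) →
      ⌊y' b⌋ = ⌊y b⌋ ∧ cb σ H a b y' = (⌊y b⌋ : ℝ) + ∑ κ : JJ a b → Bool,
      if ((num a b κ : ℕ)) < m then wt a b κ (eta σ H b y') else 0 := by
  have hM : (1 : ℝ) ≤ (MM a b : ℝ) := by exact_mod_cast K2_MM a b
  have hM0 : (0 : ℝ) < (MM a b : ℝ) := by linarith
  obtain ⟨n1, n2, n3, n4⟩ := K4_nn a b y
  have n1' : (nn a b y : ℝ) + 1 ≤ (MM a b : ℝ) := by exact_mod_cast n1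
  rw [K4_box, div_le_div_iff_of_pos_right hM0] at hy
  set F := (MM a b : ℝ) * Int.fract (y b) with hF
  set n := nn a b y with hn
  set j := ⌊y b⌋ with hj
  -- cases
  by_cases hA : 3 / 10 ≤ |F - ((n : ℝ) + 1 / 2)|
  · rcases le_abs.1 hA with h4 | h1
    · -- F ≥ n + 4/5
      have hF5 : (n : ℝ) + 4 / 5 ≤ F := by linarith
      by_cases hn1 : n + 1 < MM a b
      · -- A3
        right
        refine ⟨n + 1, fun y' hb' _ => ?_⟩
        have hn2 : (n : ℝ) + 2 ≤ (MM a b : ℝ) := by exact_mod_cast hn1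
        have hn0 : (0 : ℝ) ≤ n := Nat.cast_nonneg _
        have hFF := abs_le.1 (K4_F a b y y' hb')
        rw [← hF, ← hj] at hFF
        obtain ⟨hfl, hG⟩ := K4_floor_aux (MM a b) hM (y' b) j (by linarith [hFF.1]) (by linarith [hFF.2])
        refine ⟨hfl, K4_val σ H a b y' j (n + 1) hfl _ hG ?_ ?_⟩
        · intro κ hκ
          left
          have : ((num a b κ : ℕ) : ℝ) ≤ n := by exact_mod_cast Nat.lt_succ_iff.1 hκ
          linarith [hFF.1]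
        · intro κ hκ
          left
          have : (n : ℝ) + 1 ≤ ((num a b κ : ℕ) : ℝ) := by exact_mod_cast hκ
          linarith [hFF.2]
      · -- A4
        left
        refine ⟨(j : ℝ) + 1, fun y' hb' => ?_⟩
        have hn2 : (MM a b : ℝ) = n + 1 := by
          have : MM a b = n + 1 := le_antisymm (not_lt.1 hn1) n1
          exact_mod_cast this
        have hn0 : (0 : ℝ) ≤ n := Nat.cast_nonneg _
        have hFF := abs_le.1 (K4_F a b y y' hb')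
        rw [← hF, ← hj] at hFF
        by_cases hlt : (MM a b : ℝ) * (y' b - j) < (MM a b : ℝ)
        · obtain ⟨hfl, hG⟩ := K4_floor_aux (MM a b) hM (y' b) j (by linarith [hFF.1]) hlt
          exact K4_all σ H a b y' j hfl _ hG (by linarith [hFF.1])
        · push Not at hlt
          have e : (MM a b : ℝ) * (y' b - ((j + 1 : ℤ) : ℝ)) = (MM a b : ℝ) * (y' b - j) - MM a b := by
            push_cast; ring
          obtain ⟨hfl, hG⟩ := K4_floor_aux (MM a b) hM (y' b) (j + 1) (by rw [e]; linarith)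
            (by rw [e]; linarith [hFF.2])
          have := K4_none σ H a b y' (j + 1) hfl _ hG (by rw [e]; linarith [hFF.2])
          rw [this]; push_cast; ring
    · -- F ≤ n + 1/5
      have hF5 : F ≤ (n : ℝ) + 1 / 5 := by linarith
      by_cases hn1 : 1 ≤ n
      · -- A1
        right
        refine ⟨n, fun y' hb' _ => ?_⟩
        have hn0 : (1 : ℝ) ≤ n := by exact_mod_cast hn1
        have hFF := abs_le.1 (K4_F a b y y' hb')
        rw [← hF, ← hj] at hFF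
        obtain ⟨hfl, hG⟩ := K4_floor_aux (MM a b) hM (y' b) j (by linarith [hFF.1]) (by linarith [hFF.2])
        refine ⟨hfl, K4_val σ H a b y' j n hfl _ hG ?_ ?_⟩
        · intro κ hκ
          left
          have : ((num a b κ : ℕ) : ℝ) + 1 ≤ n := by exact_mod_cast hκ
          linarith [hFF.1]
        · intro κ hκ
          left
          have : (n : ℝ) ≤ ((num a b κ : ℕ) : ℝ) := by exact_mod_cast hκ
          linarith [hFF.2]
      · -- A2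
        left
        refine ⟨(j : ℝ), fun y' hb' => ?_⟩
        have hn2 : (n : ℝ) = 0 := by
          have : n = 0 := by omega
          exact_mod_cast this
        have hFF := abs_le.1 (K4_F a b y y' hb')
        rw [← hF, ← hj] at hFF
        by_cases hlt : 0 ≤ (MM a b : ℝ) * (y' b - j)
        · obtain ⟨hfl, hG⟩ := K4_floor_aux (MM a b) hM (y' b) j hlt (by linarith [hFF.2])
          exact K4_none σ H a b y' j hfl _ hG (by linarith [hFF.2])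
        · push Not at hlt
          have e : (MM a b : ℝ) * (y' b - ((j - 1 : ℤ) : ℝ)) = (MM a b : ℝ) * (y' b - j) + MM a b := by
            push_cast; ring
          obtain ⟨hfl, hG⟩ := K4_floor_aux (MM a b) hM (y' b) (j - 1) (by rw [e]; linarith [hFF.1])
            (by rw [e]; linarith [hFF.2])
          have := K4_all σ H a b y' (j - 1) hfl _ hG (by rw [e]; linarith [hFF.1])
          rw [this]; push_cast; ring
  · -- B
    have hy' : ∃ i : JJ a b, 35 / 100 / sH σ H j i ≤ |y i - ZZ σ lj H a b y i| :=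
      hy.resolve_left hA
    obtain ⟨i, hi⟩ := hy'
    push Not at hA
    have hA' := abs_lt.1 hA
    right
    refine ⟨n, fun y' hb' hJ => ?_⟩
    have hn0 : (0 : ℝ) ≤ n := Nat.cast_nonneg _
    have hFF := abs_le.1 (K4_F a b y y' hb')
    rw [← hF, ← hj] at hFF
    obtain ⟨hfl, hG⟩ := K4_floor_aux (MM a b) hM (y' b) j (by linarith [hFF.1, hA'.1])
      (by linarith [hFF.2, hA'.2])
    refine ⟨hfl, K4_val σ H a b y' j n hfl _ hG ?_ ?_⟩
    · intro κ hκ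
      left
      have : ((num a b κ : ℕ) : ℝ) + 1 ≤ n := by exact_mod_cast hκ
      linarith [hFF.1, hA'.1]
    · intro κ hκ
      rcases hκ.eq_or_lt with h | h
      · right
        have hκc : κ = col a b y := by
          apply (num a b).injective
          apply Fin.ext
          rw [n4]; exact h.symm
        rw [hκc]
        exact K4_wt_zero σ hσ lj H a b y i hi y' hfl (hJ i)
      · left
        have : (n : ℝ) + 1 ≤ ((num a b κ : ℕ) : ℝ) := by exact_mod_cast h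
        linarith [hFF.2, hA'.2]

theorem K4_indep (σ : ℝ → ℝ) (hσ : ∀ c, 0 < σ c) (lj : ℤ → ℝ) (H : Finset D) (a b : D) (hab : a ≠ b) (y : D → ℝ)
    (hy : 3 / 10 / (MM a b : ℝ) ≤ |y b - ((⌊y b⌋ : ℝ) + ((nn a b y : ℝ) + 1 / 2) / (MM a b : ℝ))| ∨
      ∃ i : JJ a b, 35 / 100 / sH σ H ⌊y b⌋ i ≤ |y i - ZZ σ lj H a b y i|)
    (y' y'' : D → ℝ) (hb' : |y' b - y b| ≤ 1 / (25 * (MM a b : ℝ))) (hb'' : |y'' b - y b| ≤ 1 / (25 * (MM a b : ℝ)))
    (h' : ∀ i : JJ a b, sH σ H ⌊y b⌋ i * |y' i - y i| ≤ 1 / 25)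
    (h'' : ∀ i : JJ a b, sH σ H ⌊y b⌋ i * |y'' i - y i| ≤ 1 / 25) (heq : ∀ i : JJ a b, y' i = y'' i) :
    cb σ H a b y' = cb σ H a b y'' := by
  rcases K4_cases σ hσ lj H a b y hy with ⟨v, hv⟩ | ⟨m, hm⟩
  · rw [hv y' hb', hv y'' hb'']
  · obtain ⟨f1, c1⟩ := hm y' hb' h'
    obtain ⟨f2, c2⟩ := hm y'' hb'' h''
    exact K4_val_congr σ H a b y' y'' ⌊y b⌋ m c1 c2 f1 f2 heq

/-- inside the `b`-interval of the box the floor does not change -/
theorem K4_floor (a b : D) (y : D → ℝ)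
    (hy : |y b - ((⌊y b⌋ : ℝ) + ((nn a b y : ℝ) + 1 / 2) / (MM a b : ℝ))| < 3 / 10 / (MM a b : ℝ))
    (y' : D → ℝ) (hb' : |y' b - y b| ≤ 1 / (25 * (MM a b : ℝ))) : ⌊y' b⌋ = ⌊y b⌋ := by
  have hM : (1 : ℝ) ≤ (MM a b : ℝ) := by exact_mod_cast K2_MM a b
  have hM0 : (0 : ℝ) < (MM a b : ℝ) := by linarith
  obtain ⟨n1, n2, n3, n4⟩ := K4_nn a b y
  have n1' : (nn a b y : ℝ) + 1 ≤ (MM a b : ℝ) := by exact_mod_cast n1
  rw [K4_box, div_lt_div_iff_of_pos_right hM0] at hy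
  have hA' := abs_lt.1 hy
  have hn0 : (0 : ℝ) ≤ nn a b y := Nat.cast_nonneg _
  have hFF := abs_le.1 (K4_F a b y y' hb')
  exact (K4_floor_aux (MM a b) hM (y' b) ⌊y b⌋ (by linarith [hFF.1, hA'.1])
      (by linarith [hFF.2, hA'.2])).1

end H80.LD

end S_H80_LD_K4

section S_H80_LD_K5

/-!
# K5: the box data are constant on the open box `6/5`

`y' ` with `|y' i - ZZ y i| < 6/5 * LL y i` for all `i`.
* `i = b`: `|y' b - (⌊y b⌋ + (n + 1/2)/M)| < 36/100/M`, so `M (y' b - ⌊y b⌋) ∈ (n + 14/100, n + 86/100) ⊂ (0, M)`: `⌊y' b⌋ = ⌊y b⌋`, `nn y' = n`, hence the same colour.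
* `i ∈ J`: `s_i = sH σ H ⌊y b⌋ i` is the same; `|s_i y' i - z| < 42/100` where `z = round (eta y i)` or `⌊eta y i⌋ + 1/2`: `K1_round_eq`, `K1_floor_eq`.
* `i = a`: `λ = lj ⌊y b⌋ > 0`, `|y' a / λ - (m + 3/8)| < 408/1000`, so `y' a / λ + 1/8 ∈ (m + 1/2 - 0.408, m + 1/2 + 0.408)`, `⌊y' a / λ + 1/8⌋ = m`.
-/

open Filter Topology Metric Set

namespace H80.LD

variable {D : Type*} [Fintype D] [DecidableEq D]

theorem K5_sH_pos (σ : ℝ → ℝ) (hσ : ∀ c, 0 < σ c) (H : Finset D) (j : ℤ) (i : D) : 0 < sH σ H j i := by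
  unfold sH
  split_ifs
  · exact hσ _
  · exact one_pos

theorem K5_MM_pos (a b : D) : (0 : ℝ) < (MM a b : ℝ) := by
  have h := K2_MM a b
  have h2 : 0 < MM a b := by omega
  exact_mod_cast h2

theorem K5_pos (σ : ℝ → ℝ) (hσ : ∀ c, 0 < σ c) (lj : ℤ → ℝ) (hl : ∀ j, 0 < lj j) (H : Finset D) (a b : D) (y : D → ℝ) (i : D) :
    0 < LL σ lj H a b y i := by
  unfold LL
  have h1 := K5_sH_pos σ hσ H ⌊y b⌋ i
  have h2 := K5_MM_pos a b
  have h3 := hl ⌊y b⌋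
  split_ifs <;> positivity

theorem K5_ZZ_J (σ : ℝ → ℝ) (lj : ℤ → ℝ) (H : Finset D) (a b : D) (y : D → ℝ) (i : D) (hi : i ≠ a ∧ i ≠ b) :
    ZZ σ lj H a b y i = (if col a b y ⟨i, hi⟩ then (round (eta σ H b y i) : ℝ) else
      (⌊eta σ H b y i⌋ : ℝ) + 1 / 2) / sH σ H ⌊y b⌋ i := by
  unfold ZZ
  rw [dif_pos hi]

theorem K5_ZZ_b (σ : ℝ → ℝ) (lj : ℤ → ℝ) (H : Finset D) (a b : D) (y : D → ℝ) :
    ZZ σ lj H a b y b = (⌊y b⌋ : ℝ) + ((nn a b y : ℝ) + 1 / 2) / (MM a b : ℝ) := by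
  unfold ZZ
  rw [dif_neg (fun h => h.2 rfl), if_pos rfl]

theorem K5_ZZ_a (σ : ℝ → ℝ) (lj : ℤ → ℝ) (H : Finset D) (a b : D) (hab : a ≠ b) (y : D → ℝ) :
    ZZ σ lj H a b y a = ((⌊y a / lj ⌊y b⌋ + 1 / 8⌋ : ℝ) + 3 / 8) * lj ⌊y b⌋ := by
  unfold ZZ
  rw [dif_neg (fun h => h.1 rfl), if_neg hab]

theorem K5_LL_J (σ : ℝ → ℝ) (lj : ℤ → ℝ) (H : Finset D) (a b : D) (y : D → ℝ) (i : D) (hi : i ≠ a ∧ i ≠ b) :
    LL σ lj H a b y i = 35 / 100 / sH σ H ⌊y b⌋ i := by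
  unfold LL
  rw [if_pos hi]

theorem K5_LL_b (σ : ℝ → ℝ) (lj : ℤ → ℝ) (H : Finset D) (a b : D) (y : D → ℝ) :
    LL σ lj H a b y b = 3 / 10 / (MM a b : ℝ) := by
  unfold LL
  rw [if_neg (fun h => h.2 rfl), if_pos rfl]

theorem K5_LL_a (σ : ℝ → ℝ) (lj : ℤ → ℝ) (H : Finset D) (a b : D) (hab : a ≠ b) (y : D → ℝ) :
    LL σ lj H a b y a = 34 / 100 * lj ⌊y b⌋ := by
  unfold LL
  rw [if_neg (fun h => h.1 rfl), if_neg hab]

theorem K5_col (a b : D) (y y' : D → ℝ) (h : nn a b y' = nn a b y) : col a b y' = col a b y := by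
  unfold col
  simp only [h]

theorem K5_box (σ : ℝ → ℝ) (hσ : ∀ c, 0 < σ c) (lj : ℤ → ℝ) (hl : ∀ j, 0 < lj j) (nd : ℤ → ℤ → Prop)
    (H : Finset D) (a b : D) (hab : a ≠ b) (y y' : D → ℝ)
    (h : ∀ i, |y' i - ZZ σ lj H a b y i| < 6 / 5 * LL σ lj H a b y i) :
    ZZ σ lj H a b y' = ZZ σ lj H a b y ∧ LL σ lj H a b y' = LL σ lj H a b y ∧
      (ndd lj nd b a y' ↔ ndd lj nd b a y) := by
  have hM := K5_MM_pos a b
  obtain ⟨hn1, hn2, hn3, -⟩ := K4_nn a b y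
  have hb := h b
  rw [K5_ZZ_b, K5_LL_b, abs_lt] at hb
  have hn4 : (nn a b y : ℝ) + 1 ≤ (MM a b : ℝ) := by exact_mod_cast hn1
  have e1 : 6 / 5 * (3 / 10 / (MM a b : ℝ)) = (36 / 100) / (MM a b : ℝ) := by ring
  rw [e1] at hb
  obtain ⟨hb1, hb2⟩ := hb
  -- multiply by M
  have hb1' : (nn a b y : ℝ) + 14 / 100 < (MM a b : ℝ) * (y' b - ⌊y b⌋) := by
    have h1 : ((nn a b y : ℝ) + 14 / 100) / (MM a b : ℝ) < y' b - ⌊y b⌋ := by
      have h2 : ((nn a b y : ℝ) + 14 / 100) / (MM a b : ℝ) =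
        ((nn a b y : ℝ) + 1 / 2) / (MM a b : ℝ) - (36 / 100) / (MM a b : ℝ) := by
        ring
      rw [h2]
      linarith
    rw [div_lt_iff₀ hM] at h1
    linarith
  have hb2' : (MM a b : ℝ) * (y' b - ⌊y b⌋) < (nn a b y : ℝ) + 86 / 100 := by
    have h1 : y' b - ⌊y b⌋ < ((nn a b y : ℝ) + 86 / 100) / (MM a b : ℝ) := by
      have h2 : ((nn a b y : ℝ) + 86 / 100) / (MM a b : ℝ) =
        ((nn a b y : ℝ) + 1 / 2) / (MM a b : ℝ) + (36 / 100) / (MM a b : ℝ) := by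
        ring
      rw [h2]
      linarith
    rw [lt_div_iff₀ hM] at h1
    linarith
  have hn0 : (0 : ℝ) ≤ (nn a b y : ℝ) := Nat.cast_nonneg _
  have hfl : ⌊y' b⌋ = ⌊y b⌋ := by
    rw [Int.floor_eq_iff]
    constructor
    · by_contra hlt
      push Not at hlt
      have h3 : (MM a b : ℝ) * (y' b - ⌊y b⌋) < 0 := mul_neg_of_pos_of_neg hM (by linarith)
      linarith
    · by_contra hle
      push Not at hle
      have h3 : (MM a b : ℝ) * 1 ≤ (MM a b : ℝ) * (y' b - ⌊y b⌋) :=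
        mul_le_mul_of_nonneg_left (by linarith) hM.le
      linarith
  have hnn : nn a b y' = nn a b y := by
    change ⌊(MM a b : ℝ) * Int.fract (y' b)⌋₊ = nn a b y
    have hfr : Int.fract (y' b) = y' b - ⌊y b⌋ := by
      rw [← hfl]
      rfl
    rw [hfr, Nat.floor_eq_iff (by linarith)]
    constructor <;> linarith
  have hcol := K5_col a b y y' hnn
  have ha := h a
  rw [K5_ZZ_a _ _ _ _ _ hab, K5_LL_a _ _ _ _ _ hab, abs_lt] at ha
  have hlam := hl ⌊y b⌋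
  have hfa : ⌊y' a / lj ⌊y' b⌋ + 1 / 8⌋ = ⌊y a / lj ⌊y b⌋ + 1 / 8⌋ := by
    rw [hfl, Int.floor_eq_iff]
    obtain ⟨ha1, ha2⟩ := ha
    constructor
    · have h3 : ((⌊y a / lj ⌊y b⌋ + 1 / 8⌋ : ℝ) - 1 / 8) ≤ y' a / lj ⌊y b⌋ := by
        rw [le_div_iff₀ hlam]
        nlinarith
      linarith
    · have h3 : y' a / lj ⌊y b⌋ < ((⌊y a / lj ⌊y b⌋ + 1 / 8⌋ : ℝ) + 7 / 8) := by
        rw [div_lt_iff₀ hlam]
        nlinarith
      linarith
  refine ⟨?_, ?_, ?_⟩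
  · funext i
    by_cases hia : i = a
    · subst hia
      rw [K5_ZZ_a _ _ _ _ _ hab, K5_ZZ_a _ _ _ _ _ hab, hfa, hfl]
    · by_cases hib : i = b
      · subst hib
        rw [K5_ZZ_b, K5_ZZ_b, hnn, hfl]
      · have hi : i ≠ a ∧ i ≠ b := ⟨hia, hib⟩
        have hs := K5_sH_pos σ hσ H ⌊y b⌋ i
        have hJ := h i
        rw [K5_LL_J _ _ _ _ _ _ _ hi, K5_ZZ_J _ _ _ _ _ _ _ hi] at hJ
        rw [K5_ZZ_J _ _ _ _ _ _ _ hi, K5_ZZ_J _ _ _ _ _ _ _ hi, hcol, hfl]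
        have heta : eta σ H b y' i = sH σ H ⌊y b⌋ i * y' i := by
          unfold eta
          rw [hfl]
        have key : ∀ w : ℝ, |y' i - w / sH σ H ⌊y b⌋ i| < 6 / 5 * (35 / 100 / sH σ H ⌊y b⌋ i) →
            |eta σ H b y' i - w| < 1 / 2 := by
          intro w hw
          have h4 : eta σ H b y' i - w = sH σ H ⌊y b⌋ i * (y' i - w / sH σ H ⌊y b⌋ i) := by
            rw [heta]
            field_simp
          rw [h4, abs_mul, abs_of_pos hs]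
          have h5 := mul_lt_mul_of_pos_left hw hs
          have h6 : sH σ H ⌊y b⌋ i * (6 / 5 * (35 / 100 / sH σ H ⌊y b⌋ i)) = 42 / 100 := by
            field_simp
            norm_num
          rw [h6] at h5
          linarith
        congr 1
        cases hc : col a b y ⟨i, hi⟩ with
        | true =>
          rw [hc] at hJ
          simp only [if_true] at hJ ⊢
          rw [K1_round_eq _ _ (key _ hJ)]
        | false =>
          rw [hc] at hJ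
          simp only [Bool.false_eq_true, if_false] at hJ ⊢
          rw [K1_floor_eq _ _ (key _ hJ)]
  · funext i
    unfold LL
    rw [hfl]
  · unfold ndd
    rw [hfa, hfl]

/-- outside the open box: one of the three kinds of good points -/
theorem K5_good (σ : ℝ → ℝ) (hσ : ∀ c, 0 < σ c) (lj : ℤ → ℝ) (hl : ∀ j, 0 < lj j)
    (H : Finset D) (a b : D) (hab : a ≠ b) (y : D → ℝ)
    (h : ∃ i, LL σ lj H a b y i ≤ |y i - ZZ σ lj H a b y i|) :
    (3 / 10 / (MM a b : ℝ) ≤ |y b - ((⌊y b⌋ : ℝ) + ((nn a b y : ℝ) + 1 / 2) / (MM a b : ℝ))| ∨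
      ∃ i : JJ a b, 35 / 100 / sH σ H ⌊y b⌋ i ≤ |y i - ZZ σ lj H a b y i|) ∨
    34 / 100 * lj ⌊y b⌋ ≤ |y a - ((⌊y a / lj ⌊y b⌋ + 1 / 8⌋ : ℝ) + 3 / 8) * lj ⌊y b⌋| := by
  obtain ⟨i, hi⟩ := h
  by_cases hia : i = a
  · subst hia
    rw [K5_ZZ_a _ _ _ _ _ hab, K5_LL_a _ _ _ _ _ hab] at hi
    exact Or.inr hi
  · by_cases hib : i = b
    · subst hib
      rw [K5_ZZ_b, K5_LL_b] at hi
      exact Or.inl (Or.inl hi)
    · rw [K5_LL_J _ _ _ _ _ _ _ ⟨hia, hib⟩] at hi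
      exact Or.inl (Or.inr ⟨⟨i, hia, hib⟩, hi⟩)

end H80.LD

end S_H80_LD_K5

section S_H80_LD_M3

/-!
# M3: elementary facts on the fold map and the weights

Standing: `a ≠ b`, `a ∉ H`, `b ∉ H`; `W = wgt σ (insert a H) b`, `W' = wgt σ H b`, `β = fold σ H a b g1 g2 ν1 ν2`, `c q = cb σ H a b q.2`, `M = MM a b`, `N v = ‖sc (W p) v‖`, `r = rr a b = 1/(100 M)`.
* `M3_disp`: `|(β q).2 b - q.2 b| ≤ |c - q.2 b| + |g2| + |q.2 b - c| |ν2| ≤ K + 2` (`K3_abs`).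
* `M3_w`: hence by `s2` (both directions) `W' (β p) i ≤ 2 W p i` and, for `i ≠ a`, `W p i ≤ 2 W' (β p) i`; for `i = a`, `W p a = σ (p.2 b)`, `W' (β p) a = 1`.
* `M3_sH`: `|⌊q.2 b⌋ - p.2 b| ≤ 2` if `|q.2 b - p.2 b| ≤ 1`, so `sH σ H ⌊q.2 b⌋ i ≤ 2 W p i` for `i ≠ a`.
* `M3_cb`: for `q, q'` with `|q.2 b - p.2 b| ≤ 1`: by `K3_lip` `|c q - c q'| ≤ 2 M |q.2 b - q'.2 b| + 20 M ∑_J W p i |q.2 i - q'.2 i|`.
* `M3_sig`: `|c q - p.2 b| ≤ 2` if `|q.2 b - p.2 b| ≤ 1`, so `σ (c q) ≤ 2 σ (p.2 b)`, `σ (p.2 b) ≤ 2 σ (c q)`.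
* `M3_slow`: `N (q - p) ≤ 1` implies `|q.2 b - p.2 b| ≤ 1` (weight of `b` is 1), so `W q i ≤ 2 W p i`.
* `M3_size`: `i ∈ J`: `W p i * (35/100) / sH`, with `sH / 2 ≤ W p i ≤ 2 sH`; `i = b`: `(3/10)/M`; `i = a`: `σ (p.2 b) * (34/100) * lj ⌊p.2 b⌋`, `l1`.
-/

open Filter Topology Metric Set

namespace H80.LD

variable {X : Type*} [NormedAddCommGroup X] {D : Type*} [Fintype D] [DecidableEq D]

theorem M3_disp {σ : ℝ → ℝ} {lj : ℤ → ℝ} {g1 g2 ν1 ν2 : ℝ → ℝ → ℝ} {nd : ℤ → ℤ → Prop} {K : ℝ}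
    (h : Pat σ lj g1 g2 ν1 ν2 nd K) (H : Finset D) (a b : D) (hab : a ≠ b) (q : X × (D → ℝ)) :
    |(fold σ H a b g1 g2 ν1 ν2 q).2 b - q.2 b| ≤ K + 2 := by
  have e : (fold σ H a b g1 g2 ν1 ν2 q).2 b =
      ph2 g2 ν2 (cb σ H a b q.2) (q.2 a) (q.2 b) := by
    show (if b = a then ph1 g1 ν1 (cb σ H a b q.2) (q.2 a) (q.2 b)
      else if b = b then ph2 g2 ν2 (cb σ H a b q.2) (q.2 a) (q.2 b) else q.2 b) = _
    rw [if_neg hab.symm, if_pos rfl]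
  rw [e]
  unfold ph2
  have h1 := K3_abs σ H a b q.2
  have h2 := h.p5 (cb σ H a b q.2) (q.2 a)
  have h3 := (h.p3b (cb σ H a b q.2) (q.2 a)).2
  have h4 : |(q.2 b - cb σ H a b q.2) * ν2 (cb σ H a b q.2) (q.2 a)| ≤ 1 := by
    rw [abs_mul]
    exact mul_le_one₀ h1 (abs_nonneg _) h3
  rw [abs_le] at h1 h2 h4 ⊢
  constructor
  · linarith [h1.1, h1.2, h2.1, h2.2, h4.1, h4.2]
  · linarith [h1.1, h1.2, h2.1, h2.2, h4.1, h4.2]

theorem M3_ins (H : Finset D) (a i : D) (hi : i ≠ a) : i ∈ insert a H ↔ i ∈ H := by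
  rw [Finset.mem_insert]
  exact ⟨fun h => h.resolve_left hi, Or.inr⟩

theorem M3_w {σ : ℝ → ℝ} {lj : ℤ → ℝ} {g1 g2 ν1 ν2 : ℝ → ℝ → ℝ} {nd : ℤ → ℤ → Prop} {K : ℝ}
    (h : Pat σ lj g1 g2 ν1 ν2 nd K) (H : Finset D) (a b : D) (hab : a ≠ b) (ha : a ∉ H) (p : X × (D → ℝ)) (i : D)
    (hi : i ≠ a) :
    wgt σ H b (fold σ H a b g1 g2 ν1 ν2 p) i ≤ 2 * wgt σ (insert a H) b p i ∧
    wgt σ (insert a H) b p i ≤ 2 * wgt σ H b (fold σ H a b g1 g2 ν1 ν2 p) i := by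
  have h1 := M3_disp h H a b hab p
  have h2 := h.s2 (p.2 b) ((fold σ H a b g1 g2 ν1 ν2 p).2 b) (by
    rw [abs_sub_comm]
    linarith)
  have h3 := h.s2 ((fold σ H a b g1 g2 ν1 ν2 p).2 b) (p.2 b) (by linarith)
  unfold wgt
  by_cases hH : i ∈ H
  · have hH' : i ∈ insert a H := (M3_ins H a i hi).2 hH
    rw [if_pos hH, if_pos hH']
    exact ⟨h2, h3⟩
  · have hH' : i ∉ insert a H := fun h' => hH ((M3_ins H a i hi).1 h')
    rw [if_neg hH, if_neg hH']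
    constructor <;> norm_num

theorem M3_wa (σ : ℝ → ℝ) (H : Finset D) (a b : D) (ha : a ∉ H) (hb : b ∉ H) (hab : a ≠ b) (p : X × (D → ℝ)) :
    wgt σ H b p a = 1 ∧ wgt σ H b p b = 1 ∧ wgt σ (insert a H) b p a = σ (p.2 b) ∧ wgt σ (insert a H) b p b = 1 := by
  have hb' : b ∉ insert a H := fun h' => hb ((M3_ins H a b hab.symm).1 h')
  unfold wgt
  rw [if_neg ha, if_neg hb, if_pos (Finset.mem_insert_self a H), if_neg hb']
  exact ⟨rfl, rfl, rfl, rfl⟩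

theorem M3_sH {σ : ℝ → ℝ} {lj : ℤ → ℝ} {g1 g2 ν1 ν2 : ℝ → ℝ → ℝ} {nd : ℤ → ℤ → Prop} {K : ℝ}
    (h : Pat σ lj g1 g2 ν1 ν2 nd K) (H : Finset D) (a b : D) (p q : X × (D → ℝ)) (hq : |q.2 b - p.2 b| ≤ 1) (i : D)
    (hi : i ≠ a) :
    sH σ H ⌊q.2 b⌋ i ≤ 2 * wgt σ (insert a H) b p i ∧ wgt σ (insert a H) b p i ≤ 2 * sH σ H ⌊q.2 b⌋ i := by
  have hK := h.K1
  have h1 := Int.floor_le (q.2 b)
  have h2 := Int.lt_floor_add_one (q.2 b)
  rw [abs_le] at hq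
  have h3 : |p.2 b - (⌊q.2 b⌋ : ℝ)| ≤ K + 3 := by
    rw [abs_le]
    constructor <;> linarith [hq.1, hq.2]
  have h4 := h.s2 (p.2 b) (⌊q.2 b⌋ : ℝ) h3
  have h5 := h.s2 (⌊q.2 b⌋ : ℝ) (p.2 b) (by rwa [abs_sub_comm])
  unfold wgt sH
  by_cases hH : i ∈ H
  · have hH' : i ∈ insert a H := (M3_ins H a i hi).2 hH
    rw [if_pos hH, if_pos hH']
    exact ⟨h4, h5⟩
  · have hH' : i ∉ insert a H := fun h' => hH ((M3_ins H a i hi).1 h')
    rw [if_neg hH, if_neg hH']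
    constructor <;> norm_num

theorem M3_sig {σ : ℝ → ℝ} {lj : ℤ → ℝ} {g1 g2 ν1 ν2 : ℝ → ℝ → ℝ} {nd : ℤ → ℤ → Prop} {K : ℝ}
    (h : Pat σ lj g1 g2 ν1 ν2 nd K) (H : Finset D) (a b : D) (p q : X × (D → ℝ)) (hq : |q.2 b - p.2 b| ≤ 1) :
    σ (cb σ H a b q.2) ≤ 2 * σ (p.2 b) ∧ σ (p.2 b) ≤ 2 * σ (cb σ H a b q.2) := by
  have hK := h.K1
  have h1 := K3_abs σ H a b q.2
  rw [abs_le] at hq h1
  have h3 : |p.2 b - cb σ H a b q.2| ≤ K + 3 := by
    rw [abs_le]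
    constructor <;> linarith [hq.1, hq.2, h1.1, h1.2]
  exact ⟨h.s2 _ _ h3, h.s2 _ _ (by rwa [abs_sub_comm])⟩

theorem M3_cb {σ : ℝ → ℝ} {lj : ℤ → ℝ} {g1 g2 ν1 ν2 : ℝ → ℝ → ℝ} {nd : ℤ → ℤ → Prop} {K : ℝ}
    (h : Pat σ lj g1 g2 ν1 ν2 nd K) (H : Finset D) (a b : D) (p q q' : X × (D → ℝ)) (hq : |q.2 b - p.2 b| ≤ 1) :
    |cb σ H a b q.2 - cb σ H a b q'.2| ≤ 2 * (MM a b : ℝ) * |q.2 b - q'.2 b| +
      20 * (MM a b : ℝ) * ∑ i : JJ a b, wgt σ (insert a H) b p i * |q.2 i - q'.2 i| := by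
  have h1 := K3_lip σ (fun c => zero_le_one.trans (h.s1 c)) H a b q.2 q'.2
  have h2 : ∑ i : JJ a b, sH σ H ⌊q.2 b⌋ i * |q.2 i - q'.2 i| ≤
      2 * ∑ i : JJ a b, wgt σ (insert a H) b p i * |q.2 i - q'.2 i| := by
    rw [Finset.mul_sum]
    refine Finset.sum_le_sum fun i _ => ?_
    have h3 := mul_le_mul_of_nonneg_right (M3_sH h H a b p q hq i i.2.1).1
      (abs_nonneg (q.2 i - q'.2 i))
    linarith
  have hM : (0 : ℝ) ≤ 10 * (MM a b : ℝ) := by positivity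
  have h3 := mul_le_mul_of_nonneg_left h2 hM
  linarith

theorem M3_slow {σ : ℝ → ℝ} {lj : ℤ → ℝ} {g1 g2 ν1 ν2 : ℝ → ℝ → ℝ} {nd : ℤ → ℤ → Prop} {K : ℝ}
    (h : Pat σ lj g1 g2 ν1 ν2 nd K) (H : Finset D) (a b : D) (hab : a ≠ b) (hb : b ∉ H) (p q : X × (D → ℝ))
    (hq : ‖sc (wgt σ (insert a H) b p) (q - p)‖ ≤ 1) (i : D) :
    wgt σ (insert a H) b q i ≤ 2 * wgt σ (insert a H) b p i := by
  have hK := h.K1
  have hb' : b ∉ insert a H := fun h' => hb ((M3_ins H a b hab.symm).1 h')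
  have hw : ∀ i, 0 ≤ wgt σ (insert a H) b p i := fun i => by
    unfold wgt
    split_ifs
    · exact zero_le_one.trans (h.s1 _)
    · exact zero_le_one
  have h1 := T0b_coord (wgt σ (insert a H) b p) hw (q - p) b
  have h2 : wgt σ (insert a H) b p b = 1 := by
    unfold wgt
    rw [if_neg hb']
  rw [h2, one_mul] at h1
  have h3 : |q.2 b - p.2 b| ≤ 1 := h1.trans hq
  have h4 := h.s2 (p.2 b) (q.2 b) (by
    rw [abs_sub_comm]
    linarith)
  unfold wgt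
  split_ifs
  · exact h4
  · norm_num

theorem M3_cc {K : ℝ} (hK : 1 ≤ K) (a b : D) : 10 ^ 6 ≤ cc a b K ∧ 10 ^ 6 * K * (MM a b : ℝ) ≤ cc a b K := by
  have hM : (1 : ℝ) ≤ (MM a b : ℝ) := by exact_mod_cast K2_MM a b
  have hD : (1 : ℝ) ≤ (Fintype.card D : ℝ) := by
    have h1 : 0 < Fintype.card D := Fintype.card_pos_iff.2 ⟨a⟩
    exact_mod_cast h1
  have h1 : 1 ≤ K * (MM a b : ℝ) := one_le_mul_of_one_le_of_one_le hK hM
  have h2 : 0 ≤ 10 ^ 6 * K * (MM a b : ℝ) := by positivity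
  have h3 : 10 ^ 6 * K * (MM a b : ℝ) ≤ cc a b K := by
    unfold cc
    exact le_mul_of_one_le_right h2 hD
  refine ⟨le_trans ?_ h3, h3⟩
  calc (10 : ℝ) ^ 6 = 10 ^ 6 * 1 := (mul_one _).symm
    _ ≤ 10 ^ 6 * (K * (MM a b : ℝ)) := mul_le_mul_of_nonneg_left h1 (by positivity)
    _ = 10 ^ 6 * K * (MM a b : ℝ) := by ring

theorem M3_size {σ : ℝ → ℝ} {lj : ℤ → ℝ} {g1 g2 ν1 ν2 : ℝ → ℝ → ℝ} {nd : ℤ → ℤ → Prop} {K : ℝ}
    (h : Pat σ lj g1 g2 ν1 ν2 nd K) (H : Finset D) (a b : D) (hab : a ≠ b) (ha : a ∉ H) (hb : b ∉ H)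
    (p : X × (D → ℝ)) (i : D) :
    1 / cc a b K ≤ wgt σ (insert a H) b p i * LL σ lj H a b p.2 i ∧
      wgt σ (insert a H) b p i * LL σ lj H a b p.2 i ≤ cc a b K := by
  have hK := h.K1
  obtain ⟨hc1, hc2⟩ := M3_cc hK a b
  have hM : (1 : ℝ) ≤ (MM a b : ℝ) := by exact_mod_cast K2_MM a b
  have hM0 : (0 : ℝ) < (MM a b : ℝ) := by linarith
  obtain ⟨-, -, hwa, hwb⟩ := M3_wa σ H a b ha hb hab p
  have hcK : K ≤ cc a b K := by
    refine le_trans ?_ hc2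
    have h1 : K * 1 ≤ K * (MM a b : ℝ) := mul_le_mul_of_nonneg_left hM (by linarith)
    nlinarith
  have hcM : (MM a b : ℝ) ≤ cc a b K := by
    refine le_trans ?_ hc2
    have h1 : 1 * (MM a b : ℝ) ≤ K * (MM a b : ℝ) := mul_le_mul_of_nonneg_right hK hM0.le
    nlinarith
  have hc0 : 0 < cc a b K := by linarith
  have hinv : 1 / cc a b K ≤ 1 / 10 ^ 6 := one_div_le_one_div_of_le (by norm_num) hc1
  by_cases hia : i = a
  · subst hia
    rw [hwa, K5_LL_a _ _ _ _ _ hab]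
    obtain ⟨h1, h2⟩ := h.l1 ⌊p.2 b⌋ (p.2 b) (Int.floor_le _) (Int.lt_floor_add_one _).le
    have e : σ (p.2 b) * (34 / 100 * lj ⌊p.2 b⌋) = 34 / 100 * (σ (p.2 b) * lj ⌊p.2 b⌋) := by ring
    rw [e]
    constructor
    · norm_num at hinv ⊢
      linarith
    · linarith
  · by_cases hib : i = b
    · subst hib
      rw [hwb, K5_LL_b, one_mul]
      constructor
      · have h1 : 1 / cc a i K ≤ 1 / (10 ^ 6 * (MM a i : ℝ)) := by
          refine one_div_le_one_div_of_le (by positivity) (le_trans ?_ hc2)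
          have h1 : 1 * (MM a i : ℝ) ≤ K * (MM a i : ℝ) := mul_le_mul_of_nonneg_right hK hM0.le
          nlinarith
        refine h1.trans ?_
        rw [div_div, div_le_div_iff₀ (by positivity) (by positivity)]
        nlinarith
      · have h1 : 3 / 10 / (MM a i : ℝ) ≤ 3 / 10 := div_le_self (by norm_num) hM
        linarith
    · rw [K5_LL_J _ _ _ _ _ _ _ ⟨hia, hib⟩]
      obtain ⟨h1, h2⟩ := M3_sH h H a b p p (by simp) i hia
      have hs : 0 < sH σ H ⌊p.2 b⌋ i := K5_sH_pos σ (fun c => zero_lt_one.trans_le (h.s1 c)) H _ i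
      have h3 : 35 / 200 ≤ wgt σ (insert a H) b p i * (35 / 100 / sH σ H ⌊p.2 b⌋ i) := by
        rw [mul_div_assoc', le_div_iff₀ hs]
        linarith
      have h4 : wgt σ (insert a H) b p i * (35 / 100 / sH σ H ⌊p.2 b⌋ i) ≤ 1 := by
        rw [mul_div_assoc', div_le_one hs]
        linarith
      constructor
      · norm_num at hinv h3 ⊢
        linarith
      · linarith

end H80.LD

end S_H80_LD_M3
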