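import Mathlib
import Pool.Agent.H80.LM.G01

/-! MP_816883_ag: this file joins several modules (see the folders H80/LD, H24/LS) to save build time. -/

section S_H80_LD_M1

/-!
# M1: planar maps close to linear maps

`A (u, v) = (A1 u + B1 v, A2 u + B2 v)`, `δ = A1 B2 - A2 B1 ≥ 1/40`.  If `(f, g) = A (u, v)` then `δ u = B2 f - B1 g`, `δ v = A1 g - A2 f`, so `max |u| |v| ≤ 160 max |f| |g|`.
* `M1_low`: `‖z - z'‖ ≤ 160 ‖A (z - z')‖ ≤ 160 (‖G z - G z'‖ + ‖z - z'‖/1000)`, so `(1 - 0.16) ‖z - z'‖ ≤ 160 ‖G z - G z'‖`, `‖z - z'‖ ≤ 200 ‖G z - G z'‖`.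
* `M1_surj`: `T z = z - A⁻¹ (G z - w)` maps the closed ball to itself and is a contraction: `T z - T z' = - A⁻¹ (G z - G z' - A (z - z'))` has norm `≤ 160/1000 ‖z - z'‖`;
  `‖T z - z0‖ ≤ ‖T z - T z0‖ + ‖A⁻¹ (G z0 - w)‖ ≤ 0.16 ρ + 160 ρ/200 ≤ ρ`.  Banach fixed point theorem on the complete space `closedBall z0 ρ`
  (`ContractingWith.exists_fixedPoint'`, or `LipschitzOnWith`...), a fixed point has `A⁻¹ (G z - w) = 0`, so `G z = w`.
-/

open Filter Topology Metric Set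

namespace H80.LD

theorem M1_bd (A1 A2 B1 B2 : ℝ) (hA1 : |A1| ≤ 3) (hA2 : |A2| ≤ 1) (hB1 : |B1| ≤ 1)
    (hB2 : |B2| ≤ 1) (hdet : 1 / 40 ≤ A1 * B2 - A2 * B1) (f g : ℝ) :
    ‖(((B2 * f - B1 * g) / (A1 * B2 - A2 * B1), (A1 * g - A2 * f) / (A1 * B2 - A2 * B1)) : ℝ × ℝ)‖ ≤
      160 * ‖((f, g) : ℝ × ℝ)‖ := by
  set δ := A1 * B2 - A2 * B1 with hδ
  have hδ0 : 0 < δ := by linarith
  have hf : |f| ≤ ‖((f, g) : ℝ × ℝ)‖ := norm_fst_le ((f, g) : ℝ × ℝ)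
  have hg : |g| ≤ ‖((f, g) : ℝ × ℝ)‖ := norm_snd_le ((f, g) : ℝ × ℝ)
  set m := ‖((f, g) : ℝ × ℝ)‖ with hm
  have hm0 : 0 ≤ m := norm_nonneg _
  have key : ∀ x : ℝ, |x| ≤ 4 * m → |x / δ| ≤ 160 * m := by
    intro x hx
    rw [abs_div, abs_of_pos hδ0, div_le_iff₀ hδ0]
    nlinarith
  have e1 : |B2 * f| ≤ m := by
    rw [abs_mul]
    nlinarith [abs_nonneg B2, abs_nonneg f]
  have e2 : |B1 * g| ≤ m := by
    rw [abs_mul]
    nlinarith [abs_nonneg B1, abs_nonneg g]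
  have e3 : |A1 * g| ≤ 3 * m := by
    rw [abs_mul]
    nlinarith [abs_nonneg A1, abs_nonneg g]
  have e4 : |A2 * f| ≤ m := by
    rw [abs_mul]
    nlinarith [abs_nonneg A2, abs_nonneg f]
  rw [abs_le] at e1 e2 e3 e4
  rw [Prod.norm_mk]
  refine max_le (key _ ?_) (key _ ?_)
  · rw [abs_le]
    constructor <;> linarith [e1.1, e1.2, e2.1, e2.2]
  · rw [abs_le]
    constructor <;> linarith [e3.1, e3.2, e4.1, e4.2]

theorem M1_low (G : ℝ × ℝ → ℝ × ℝ) (A1 A2 B1 B2 : ℝ) (hA1 : |A1| ≤ 3) (hA2 : |A2| ≤ 1) (hB1 : |B1| ≤ 1)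
    (hB2 : |B2| ≤ 1) (hdet : 1 / 40 ≤ A1 * B2 - A2 * B1) (z0 : ℝ × ℝ) (ρ : ℝ)
    (h : ∀ z ∈ closedBall z0 ρ, ∀ z' ∈ closedBall z0 ρ,
      ‖G z - G z' - (A1 * (z - z').1 + B1 * (z - z').2, A2 * (z - z').1 + B2 * (z - z').2)‖ ≤ ‖z - z'‖ / 1000) :
    ∀ z ∈ closedBall z0 ρ, ∀ z' ∈ closedBall z0 ρ, ‖z - z'‖ ≤ 200 * ‖G z - G z'‖ := by
  intro z hz z' hz'
  have h1 := h z hz z' hz'
  set u := (z - z').1 with hu
  set v := (z - z').2 with hv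
  have hδ0 : A1 * B2 - A2 * B1 ≠ 0 := by
    intro h0
    rw [h0] at hdet
    norm_num at hdet
  have h2 := M1_bd A1 A2 B1 B2 hA1 hA2 hB1 hB2 hdet (A1 * u + B1 * v) (A2 * u + B2 * v)
  have e : (((B2 * (A1 * u + B1 * v) - B1 * (A2 * u + B2 * v)) / (A1 * B2 - A2 * B1),
      (A1 * (A2 * u + B2 * v) - A2 * (A1 * u + B1 * v)) / (A1 * B2 - A2 * B1)) : ℝ × ℝ) = z - z' := by
    apply Prod.ext
    · show _ = u
      simp only
      rw [div_eq_iff hδ0]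
      ring
    · show _ = v
      simp only
      rw [div_eq_iff hδ0]
      ring
  rw [e] at h2
  have h3 : ‖((A1 * u + B1 * v, A2 * u + B2 * v) : ℝ × ℝ)‖ ≤ ‖G z - G z'‖ + ‖z - z'‖ / 1000 := by
    have e2 : ((A1 * u + B1 * v, A2 * u + B2 * v) : ℝ × ℝ) =
        (G z - G z') - (G z - G z' - (A1 * u + B1 * v, A2 * u + B2 * v)) := by abel
    calc ‖((A1 * u + B1 * v, A2 * u + B2 * v) : ℝ × ℝ)‖
        = ‖(G z - G z') - (G z - G z' - (A1 * u + B1 * v, A2 * u + B2 * v))‖ := congrArg _ e2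
      _ ≤ ‖G z - G z'‖ + ‖G z - G z' - (A1 * u + B1 * v, A2 * u + B2 * v)‖ := norm_sub_le _ _
      _ ≤ _ := by linarith
  have h4 := norm_nonneg (G z - G z')
  nlinarith

theorem M1_surj (G : ℝ × ℝ → ℝ × ℝ) (A1 A2 B1 B2 : ℝ) (hA1 : |A1| ≤ 3) (hA2 : |A2| ≤ 1) (hB1 : |B1| ≤ 1)
    (hB2 : |B2| ≤ 1) (hdet : 1 / 40 ≤ A1 * B2 - A2 * B1) (z0 : ℝ × ℝ) (ρ : ℝ) (hρ : 0 < ρ)
    (h : ∀ z ∈ closedBall z0 ρ, ∀ z' ∈ closedBall z0 ρ,
      ‖G z - G z' - (A1 * (z - z').1 + B1 * (z - z').2, A2 * (z - z').1 + B2 * (z - z').2)‖ ≤ ‖z - z'‖ / 1000) :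
    ∀ w : ℝ × ℝ, ‖w - G z0‖ ≤ ρ / 200 → ∃ z ∈ closedBall z0 ρ, G z = w := by
  intro w hw
  have hδ0 : A1 * B2 - A2 * B1 ≠ 0 := by
    intro h0
    rw [h0] at hdet
    norm_num at hdet
  set δ := A1 * B2 - A2 * B1 with hδ
  let Ai : ℝ × ℝ → ℝ × ℝ := fun p => ((B2 * p.1 - B1 * p.2) / δ, (A1 * p.2 - A2 * p.1) / δ)
  have hAi : ∀ p, ‖Ai p‖ ≤ 160 * ‖p‖ := fun p =>
    M1_bd A1 A2 B1 B2 hA1 hA2 hB1 hB2 hdet p.1 p.2
  have hsub : ∀ p q, Ai p - Ai q = Ai (p - q) := by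
    intro p q
    apply Prod.ext
    · show (B2 * p.1 - B1 * p.2) / δ - (B2 * q.1 - B1 * q.2) / δ =
        (B2 * (p.1 - q.1) - B1 * (p.2 - q.2)) / δ
      ring
    · show (A1 * p.2 - A2 * p.1) / δ - (A1 * q.2 - A2 * q.1) / δ =
        (A1 * (p.2 - q.2) - A2 * (p.1 - q.1)) / δ
      ring
  have hAA : ∀ d : ℝ × ℝ, Ai (A1 * d.1 + B1 * d.2, A2 * d.1 + B2 * d.2) = d := by
    intro d
    apply Prod.ext
    · show (B2 * (A1 * d.1 + B1 * d.2) - B1 * (A2 * d.1 + B2 * d.2)) / δ = d.1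
      rw [div_eq_iff hδ0, hδ]
      ring
    · show (A1 * (A2 * d.1 + B2 * d.2) - A2 * (A1 * d.1 + B1 * d.2)) / δ = d.2
      rw [div_eq_iff hδ0, hδ]
      ring
  have hA0 : ∀ p, Ai p = 0 → p = 0 := by
    intro p hp
    have h1 : (B2 * p.1 - B1 * p.2) / δ = 0 := congrArg Prod.fst hp
    have h2 : (A1 * p.2 - A2 * p.1) / δ = 0 := congrArg Prod.snd hp
    rw [div_eq_zero_iff] at h1 h2
    have h3 := h1.resolve_right hδ0
    have h4 := h2.resolve_right hδ0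
    apply Prod.ext
    · show p.1 = 0
      have : δ * p.1 = 0 := by
        rw [hδ]
        linear_combination A1 * h3 + B1 * h4
      exact (mul_eq_zero.1 this).resolve_left hδ0
    · show p.2 = 0
      have : δ * p.2 = 0 := by
        rw [hδ]
        linear_combination A2 * h3 + B2 * h4
      exact (mul_eq_zero.1 this).resolve_left hδ0
  let T : ℝ × ℝ → ℝ × ℝ := fun z => z - Ai (G z - w)
  have hT : ∀ z ∈ closedBall z0 ρ, ∀ z' ∈ closedBall z0 ρ,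
      ‖T z - T z'‖ ≤ 16 / 100 * ‖z - z'‖ := by
    intro z hz z' hz'
    have h1 := h z hz z' hz'
    have e : T z - T z' =
        -Ai (G z - G z' - (A1 * (z - z').1 + B1 * (z - z').2, A2 * (z - z').1 + B2 * (z - z').2)) := by
      rw [← hsub, hAA]
      show z - Ai (G z - w) - (z' - Ai (G z' - w)) = _
      have e1 : Ai (G z - G z') = Ai (G z - w) - Ai (G z' - w) := by
        rw [hsub]
        congr 1
        abel
      rw [e1]
      abel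
    rw [e, norm_neg]
    refine (hAi _).trans ?_
    linarith
  have hz0 : z0 ∈ closedBall z0 ρ := mem_closedBall_self hρ.le
  have hmaps : MapsTo T (closedBall z0 ρ) (closedBall z0 ρ) := by
    intro z hz
    rw [mem_closedBall, dist_eq_norm] at hz ⊢
    have h1 := hT z (by rwa [mem_closedBall, dist_eq_norm]) z0 hz0
    have h2 : ‖T z0 - z0‖ ≤ 160 * (ρ / 200) := by
      have e : T z0 - z0 = -Ai (G z0 - w) := by
        show z0 - Ai (G z0 - w) - z0 = _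
        abel
      rw [e, norm_neg]
      refine (hAi _).trans ?_
      rw [norm_sub_rev]
      linarith
    have h3 : ‖T z - z0‖ ≤ ‖T z - T z0‖ + ‖T z0 - z0‖ := by
      have e : T z - z0 = (T z - T z0) + (T z0 - z0) := by abel
      rw [e]
      exact norm_add_le _ _
    linarith
  have hcon : ContractingWith (16 / 100 : NNReal) (hmaps.restrict T (closedBall z0 ρ) (closedBall z0 ρ)) := by
    refine ⟨?_, LipschitzWith.of_dist_le_mul fun x y => ?_⟩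
    · rw [← NNReal.coe_lt_coe]
      push_cast
      norm_num
    · rw [Subtype.dist_eq, Subtype.dist_eq, dist_eq_norm, dist_eq_norm]
      have := hT x.1 x.2 y.1 y.2
      push_cast
      exact this
  obtain ⟨z, hz, hfix, -⟩ := hcon.exists_fixedPoint' isClosed_closedBall.isComplete hmaps hz0
    (edist_ne_top _ _)
  refine ⟨z, hz, ?_⟩
  have h1 : z - Ai (G z - w) = z := hfix
  have h2 : Ai (G z - w) = 0 := by
    have := congrArg (fun x => z - x) h1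
    simpa using this
  exact sub_eq_zero.1 (hA0 _ h2)

end H80.LD

end S_H80_LD_M1

section S_H80_LD_M2

/-!
# M2: the planar fold for fixed `c`

`G (u, v) = (ph1 c (x0 + u / σ) (s0 + v), ph2 c (x0 + u / σ) (s0 + v))`, `σ = σ c ≥ 1`, `z0 = 0`.  With `x = x0 + u/σ`, `s = s0 + v` etc.
`G z - G z' - A (z - z')`, `A1 = D1, A2 = D2` (from `p4` at `x0`), `B = (ν1, ν2) (c, x0)`, `σ (x - x') = u - u'`:
`ph1 (x,s) - ph1 (x',s') = [g1 x - g1 x'] + (s - s') ν1 x + (s' - c) (ν1 x - ν1 x')`, so the error in the first coordinate is at most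
`|u - u'|/10^5 + |s - s'| |ν1 x - ν1 x0| + |s' - c| |ν1 x - ν1 x'| ≤ (1 + 1 + 2) 10^{-5} ‖z - z'‖ ≤ ‖z - z'‖/1000`  (`|s' - c| ≤ 3/2 + 1/2`, `σ |x - x0| ≤ 1/2`).
Same for the second.  Apply M1 with `ρ ≤ 1/2`.
-/

open Filter Topology Metric Set

namespace H80.LD

/-- the error of the linear approximation in one coordinate -/
theorem M2_err1 {S c x0 s0 x s x' s' gx gx' D n0 nx nx' : ℝ} (hs : |s0 - c| ≤ 3 / 2)
    (h1 : S * |x - x0| ≤ 1 / 2) (h2' : |s' - s0| ≤ 1 / 2)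
    (hg : |gx - gx' - S * (x - x') * D| ≤ S * |x - x'| / 10 ^ 5)
    (hn0 : |nx - n0| ≤ S * |x - x0| / 10 ^ 5) (hn : |nx - nx'| ≤ S * |x - x'| / 10 ^ 5) :
    |(gx + (s - c) * nx) - (gx' + (s' - c) * nx') - (D * (S * (x - x')) + n0 * (s - s'))| ≤
      max (S * |x - x'|) |s - s'| / 1000 := by
  set M := max (S * |x - x'|) |s - s'| with hM
  have hM1 : S * |x - x'| ≤ M := le_max_left _ _
  have hM2 : |s - s'| ≤ M := le_max_right _ _
  have hM0 : 0 ≤ M := (abs_nonneg _).trans hM2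
  have e : (gx + (s - c) * nx) - (gx' + (s' - c) * nx') - (D * (S * (x - x')) + n0 * (s - s')) =
      (gx - gx' - S * (x - x') * D) + (s - s') * (nx - n0) + (s' - c) * (nx - nx') := by ring
  rw [e]
  have hc : |s' - c| ≤ 2 := by
    have : s' - c = (s' - s0) + (s0 - c) := by ring
    rw [this]
    exact (abs_add_le _ _).trans (by linarith)
  have b1 : |(s - s') * (nx - n0)| ≤ M * (1 / 2 / 10 ^ 5) := by
    rw [abs_mul]
    exact mul_le_mul hM2 (hn0.trans (by gcongr)) (abs_nonneg _) hM0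
  have b2 : |(s' - c) * (nx - nx')| ≤ 2 * (M / 10 ^ 5) := by
    rw [abs_mul]
    exact mul_le_mul hc (hn.trans (by gcongr)) (abs_nonneg _) (by norm_num)
  have b3 : |gx - gx' - S * (x - x') * D| ≤ M / 10 ^ 5 := hg.trans (by gcongr)
  have t := (abs_add_le ((gx - gx' - S * (x - x') * D) + (s - s') * (nx - n0))
    ((s' - c) * (nx - nx'))).trans (add_le_add_left (abs_add_le _ _) _)
  have : M / 10 ^ 5 + M * (1 / 2 / 10 ^ 5) + 2 * (M / 10 ^ 5) ≤ M / 1000 := by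
    have : M / 1000 - (M / 10 ^ 5 + M * (1 / 2 / 10 ^ 5) + 2 * (M / 10 ^ 5))
      = M * (193 / 200000) := by ring
    nlinarith
  linarith

theorem M2_err {σ : ℝ → ℝ} {lj : ℤ → ℝ} {g1 g2 ν1 ν2 : ℝ → ℝ → ℝ} {nd : ℤ → ℤ → Prop} {K : ℝ}
    (h : Pat σ lj g1 g2 ν1 ν2 nd K) (c x0 s0 : ℝ) (hs : |s0 - c| ≤ 3 / 2) :
    ∃ D1 D2 : ℝ, |D1| ≤ 3 ∧ |D2| ≤ 1 ∧ 1 / 40 ≤ D1 * ν2 c x0 - D2 * ν1 c x0 ∧
    ∀ x s x' s' : ℝ, σ c * |x - x0| ≤ 1 / 2 → |s - s0| ≤ 1 / 2 → σ c * |x' - x0| ≤ 1 / 2 →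
      |s' - s0| ≤ 1 / 2 →
      |ph1 g1 ν1 c x s - ph1 g1 ν1 c x' s' - (D1 * (σ c * (x - x')) + ν1 c x0 * (s - s'))| ≤
        max (σ c * |x - x'|) |s - s'| / 1000 ∧
      |ph2 g2 ν2 c x s - ph2 g2 ν2 c x' s' - (D2 * (σ c * (x - x')) + ν2 c x0 * (s - s'))| ≤
        max (σ c * |x - x'|) |s - s'| / 1000 := by
  obtain ⟨D1, D2, hD1, hD2, hd, hD⟩ := h.p4 c x0
  refine ⟨D1, D2, hD1, hD2, hd, ?_⟩
  intro x s x' s' h1 h2 h1' h2'
  obtain ⟨e1, e2⟩ := hD x x' (by linarith) (by linarith)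
  refine ⟨?_, ?_⟩
  · exact M2_err1 hs h1 h2' e1 (h.p3 c x x0).1 (h.p3 c x x').1
  · have := M2_err1 hs h1 h2' e2 (h.p3 c x x0).2 (h.p3 c x x').2 (s := s)
    have e : ph2 g2 ν2 c x s - ph2 g2 ν2 c x' s' - (D2 * (σ c * (x - x')) + ν2 c x0 * (s - s'))
      = (g2 c x + (s - c) * ν2 c x) - (g2 c x' + (s' - c) * ν2 c x')
        - (D2 * (σ c * (x - x')) + ν2 c x0 * (s - s')) := by
      simp only [ph2]; ring
    rw [e]; exact this

theorem M2_low {σ : ℝ → ℝ} {lj : ℤ → ℝ} {g1 g2 ν1 ν2 : ℝ → ℝ → ℝ} {nd : ℤ → ℤ → Prop} {K : ℝ}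
    (h : Pat σ lj g1 g2 ν1 ν2 nd K) (c x0 s0 : ℝ) (hs : |s0 - c| ≤ 3 / 2) (x s x' s' : ℝ)
    (h1 : σ c * |x - x0| ≤ 1 / 2) (h2 : |s - s0| ≤ 1 / 2) (h1' : σ c * |x' - x0| ≤ 1 / 2) (h2' : |s' - s0| ≤ 1 / 2) :
    max (σ c * |x - x'|) |s - s'| ≤
      200 * max |ph1 g1 ν1 c x s - ph1 g1 ν1 c x' s'| |ph2 g2 ν2 c x s - ph2 g2 ν2 c x' s'| := by
  obtain ⟨D1, D2, hD1, hD2, hd, hD⟩ := M2_err h c x0 s0 hs
  obtain ⟨e1, e2⟩ := hD x s x' s' h1 h2 h1' h2'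
  have hσ : 0 < σ c := lt_of_lt_of_le one_pos (h.s1 c)
  set f := ph1 g1 ν1 c x s - ph1 g1 ν1 c x' s'
  set g := ph2 g2 ν2 c x s - ph2 g2 ν2 c x' s'
  set U := σ c * (x - x') with hU
  set V := s - s' with hV
  have hUa : σ c * |x - x'| = |U| := by rw [hU, abs_mul, abs_of_pos hσ]
  rw [hUa] at e1 e2 ⊢
  set M := max |U| |V| with hM
  set F := max |f| |g| with hF
  set a := f - (D1 * U + ν1 c x0 * V) with ha
  set b := g - (D2 * U + ν2 c x0 * V) with hb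
  have hf : |f| ≤ F := le_max_left _ _
  have hg : |g| ≤ F := le_max_right _ _
  have hn1 : |ν1 c x0| ≤ 1 := (h.p3b c x0).1
  have hn2 : |ν2 c x0| ≤ 1 := (h.p3b c x0).2
  have hM0 : 0 ≤ M := (abs_nonneg _).trans (le_max_left _ _)
  have hfa : |f - a| ≤ F + M / 1000 := (abs_sub _ _).trans (add_le_add hf e1)
  have hgb : |g - b| ≤ F + M / 1000 := (abs_sub _ _).trans (add_le_add hg e2)
  have hP : 0 ≤ F + M / 1000 := (abs_nonneg _).trans hfa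
  have eU : (D1 * ν2 c x0 - D2 * ν1 c x0) * U = ν2 c x0 * (f - a) - ν1 c x0 * (g - b) := by
    rw [ha, hb]; ring
  have eV : (D1 * ν2 c x0 - D2 * ν1 c x0) * V = D1 * (g - b) - D2 * (f - a) := by
    rw [ha, hb]; ring
  have dpos : 0 < D1 * ν2 c x0 - D2 * ν1 c x0 := by linarith
  have mU : (D1 * ν2 c x0 - D2 * ν1 c x0) * |U| ≤ 4 * (F + M / 1000) := by
    have := congrArg abs eU
    rw [abs_mul, abs_of_pos dpos] at this
    rw [this]
    refine (abs_sub _ _).trans ?_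
    rw [abs_mul, abs_mul]
    have t1 : |ν2 c x0| * |f - a| ≤ 1 * (F + M / 1000) :=
      mul_le_mul hn2 hfa (abs_nonneg _) zero_le_one
    have t2 : |ν1 c x0| * |g - b| ≤ 1 * (F + M / 1000) :=
      mul_le_mul hn1 hgb (abs_nonneg _) zero_le_one
    linarith
  have mV : (D1 * ν2 c x0 - D2 * ν1 c x0) * |V| ≤ 4 * (F + M / 1000) := by
    have := congrArg abs eV
    rw [abs_mul, abs_of_pos dpos] at this
    rw [this]
    refine (abs_sub _ _).trans ?_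
    rw [abs_mul, abs_mul]
    have t1 : |D1| * |g - b| ≤ 3 * (F + M / 1000) :=
      mul_le_mul hD1 hgb (abs_nonneg _) (by norm_num)
    have t2 : |D2| * |f - a| ≤ 1 * (F + M / 1000) :=
      mul_le_mul hD2 hfa (abs_nonneg _) zero_le_one
    linarith
  have mM : 1 / 40 * M ≤ 4 * (F + M / 1000) := by
    have q1 := (mul_le_mul_of_nonneg_right hd (abs_nonneg U)).trans mU
    have q2 := (mul_le_mul_of_nonneg_right hd (abs_nonneg V)).trans mV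
    rcases max_choice |U| |V| with hc | hc
    · have : M = |U| := hc
      rw [this] at q1 ⊢
      exact q1
    · have : M = |V| := hc
      rw [this] at q2 ⊢
      exact q2
  have hF0 : 0 ≤ F := (abs_nonneg _).trans hf
  linarith

theorem M2_surj {σ : ℝ → ℝ} {lj : ℤ → ℝ} {g1 g2 ν1 ν2 : ℝ → ℝ → ℝ} {nd : ℤ → ℤ → Prop} {K : ℝ}
    (h : Pat σ lj g1 g2 ν1 ν2 nd K) (c x0 s0 : ℝ) (hs : |s0 - c| ≤ 3 / 2) (ρ : ℝ) (hρ0 : 0 < ρ) (hρ : ρ ≤ 1 / 2)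
    (w1 w2 : ℝ) (h1 : |w1 - ph1 g1 ν1 c x0 s0| ≤ ρ / 200) (h2 : |w2 - ph2 g2 ν2 c x0 s0| ≤ ρ / 200) :
    ∃ x s, σ c * |x - x0| ≤ ρ ∧ |s - s0| ≤ ρ ∧ ph1 g1 ν1 c x s = w1 ∧ ph2 g2 ν2 c x s = w2 := by
  obtain ⟨D1, D2, hD1, hD2, hd, hD⟩ := M2_err h c x0 s0 hs
  have hσ : 0 < σ c := lt_of_lt_of_le one_pos (h.s1 c)
  have hn1 : |ν1 c x0| ≤ 1 := (h.p3b c x0).1
  have hn2 : |ν2 c x0| ≤ 1 := (h.p3b c x0).2
  have hx : ∀ u : ℝ, σ c * |x0 + u / σ c - x0| = |u| := by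
    intro u
    rw [add_sub_cancel_left, abs_div, abs_of_pos hσ, mul_div_cancel₀ _ hσ.ne']
  obtain ⟨z, hz, hGz⟩ := M1_surj
    (fun z => (ph1 g1 ν1 c (x0 + z.1 / σ c) (s0 + z.2), ph2 g2 ν2 c (x0 + z.1 / σ c) (s0 + z.2)))
    D1 D2 (ν1 c x0) (ν2 c x0) hD1 hD2 hn1 hn2 hd (0, 0) ρ hρ0 (by
      intro z hz z' hz'
      have hz1 : |z.1| ≤ ρ ∧ |z.2| ≤ ρ := by
        rw [mem_closedBall_iff_norm, Prod.norm_def, max_le_iff] at hz
        simpa using hz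
      have hz2 : |z'.1| ≤ ρ ∧ |z'.2| ≤ ρ := by
        rw [mem_closedBall_iff_norm, Prod.norm_def, max_le_iff] at hz'
        simpa using hz'
      obtain ⟨e1, e2⟩ := hD (x0 + z.1 / σ c) (s0 + z.2) (x0 + z'.1 / σ c) (s0 + z'.2)
        (by rw [hx]; linarith [hz1.1]) (by rw [add_sub_cancel_left]; linarith [hz1.2])
        (by rw [hx]; linarith [hz2.1]) (by rw [add_sub_cancel_left]; linarith [hz2.2])
      have hU : σ c * (x0 + z.1 / σ c - (x0 + z'.1 / σ c)) = (z - z').1 := by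
        rw [Prod.fst_sub]
        field_simp
        ring
      have hUa : σ c * |x0 + z.1 / σ c - (x0 + z'.1 / σ c)| = |(z - z').1| := by
        rw [← hU, abs_mul, abs_of_pos hσ]
      have hV : s0 + z.2 - (s0 + z'.2) = (z - z').2 := by
        rw [Prod.snd_sub]; ring
      rw [hU, hUa, hV] at e1 e2
      have hn : ‖z - z'‖ = max |(z - z').1| |(z - z').2| := by
        rw [Prod.norm_def]; rfl
      rw [Prod.norm_def, hn, max_le_iff]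
      exact ⟨e1, e2⟩) (w1, w2) (by
      rw [Prod.norm_def, max_le_iff]
      simp only [Prod.fst_sub, Prod.snd_sub, zero_div, add_zero, Real.norm_eq_abs]
      exact ⟨h1, h2⟩)
  have hz1 : |z.1| ≤ ρ ∧ |z.2| ≤ ρ := by
    rw [mem_closedBall_iff_norm, Prod.norm_def, max_le_iff] at hz
    simpa using hz
  refine ⟨x0 + z.1 / σ c, s0 + z.2, ?_, ?_, ?_, ?_⟩
  · rw [hx]; exact hz1.1
  · rw [add_sub_cancel_left]; exact hz1.2
  · exact congrArg Prod.fst hGz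
  · exact congrArg Prod.snd hGz

theorem M2_D1 {σ : ℝ → ℝ} {lj : ℤ → ℝ} {g1 g2 ν1 ν2 : ℝ → ℝ → ℝ} {nd : ℤ → ℤ → Prop} {K : ℝ}
    (h : Pat σ lj g1 g2 ν1 ν2 nd K) (c x0 : ℝ) (hf : ν1 c x0 = 0 ∧ ν2 c x0 = 1) :
    ∃ D1 : ℝ, 1 / 40 ≤ D1 ∧ ∀ x x', σ c * |x - x0| ≤ 1 / 2 → σ c * |x' - x0| ≤ 1 / 2 →
      |g1 c x - g1 c x' - σ c * (x - x') * D1| ≤ σ c * |x - x'| / 10 ^ 5 := by
  obtain ⟨D1, D2, hD1, hD2, hd, hD⟩ := h.p4 c x0
  rw [hf.1, hf.2] at hd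
  exact ⟨D1, by linarith, fun x x' h1 h2 => (hD x x' (by linarith) (by linarith)).1⟩

/-- columns: one dimensional version -/
theorem M2_low1 {σ : ℝ → ℝ} {lj : ℤ → ℝ} {g1 g2 ν1 ν2 : ℝ → ℝ → ℝ} {nd : ℤ → ℤ → Prop} {K : ℝ}
    (h : Pat σ lj g1 g2 ν1 ν2 nd K) (c x0 : ℝ) (hf : ν1 c x0 = 0 ∧ ν2 c x0 = 1) (x x' : ℝ)
    (h1 : σ c * |x - x0| ≤ 1 / 2) (h1' : σ c * |x' - x0| ≤ 1 / 2) :
    σ c * |x - x'| ≤ 50 * |g1 c x - g1 c x'| := by
  obtain ⟨D1, hd, hD⟩ := M2_D1 h c x0 hf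
  have hσ : 0 < σ c := lt_of_lt_of_le one_pos (h.s1 c)
  have e := hD x x' h1 h1'
  have h3 : |σ c * (x - x') * D1| = σ c * |x - x'| * D1 := by
    rw [abs_mul, abs_mul, abs_of_pos hσ, abs_of_pos (by linarith : (0 : ℝ) < D1)]
  have h4 : |σ c * (x - x') * D1| ≤ |g1 c x - g1 c x'| + σ c * |x - x'| / 10 ^ 5 := by
    have : σ c * (x - x') * D1 = (g1 c x - g1 c x')
      - (g1 c x - g1 c x' - σ c * (x - x') * D1) := by ring
    rw [this]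
    exact (abs_sub _ _).trans (add_le_add_right e _)
  have h5 : 0 ≤ σ c * |x - x'| := mul_nonneg hσ.le (abs_nonneg _)
  have h6 : σ c * |x - x'| * (1 / 40) ≤ σ c * |x - x'| * D1 := mul_le_mul_of_nonneg_left hd h5
  rw [h3] at h4
  have h7 : σ c * |x - x'| / 10 ^ 5 = σ c * |x - x'| * (1 / 10 ^ 5) := by ring
  rw [h7] at h4
  nlinarith [abs_nonneg (g1 c x - g1 c x')]

/-- `g1 c` is continuous and `g1 c x - g1 c x' ≥ σ (x - x') / 50` for `x ≥ x'` near `x0` (`D1 ≥ 1/40`), intermediate value theorem -/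
theorem M2_surj1 {σ : ℝ → ℝ} {lj : ℤ → ℝ} {g1 g2 ν1 ν2 : ℝ → ℝ → ℝ} {nd : ℤ → ℤ → Prop} {K : ℝ}
    (h : Pat σ lj g1 g2 ν1 ν2 nd K) (c x0 : ℝ) (hf : ν1 c x0 = 0 ∧ ν2 c x0 = 1) (ρ : ℝ) (hρ0 : 0 < ρ) (hρ : ρ ≤ 1 / 2)
    (w1 : ℝ) (h1 : |w1 - g1 c x0| ≤ ρ / 50) : ∃ x, σ c * |x - x0| ≤ ρ ∧ g1 c x = w1 := by
  obtain ⟨D1, hd, hD⟩ := M2_D1 h c x0 hf
  have hσ : 0 < σ c := lt_of_lt_of_le one_pos (h.s1 c)
  have hcont : Continuous (g1 c) := by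
    have hL : LipschitzWith (Real.toNNReal (K * σ c)) (g1 c) := by
      refine LipschitzWith.of_dist_le_mul fun x x' => ?_
      rw [Real.dist_eq, Real.dist_eq, Real.coe_toNNReal _
        (mul_nonneg (zero_le_one.trans h.K1) hσ.le)]
      calc |g1 c x - g1 c x'| ≤ K * (σ c * |x - x'|) := (h.p1 c x x').1
        _ = K * σ c * |x - x'| := by ring
    exact hL.continuous
  have hq : 0 < ρ / σ c := div_pos hρ0 hσ
  have hσq : σ c * (ρ / σ c) = ρ := mul_div_cancel₀ _ hσ.ne'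
  have a1 : g1 c x0 + ρ / 50 ≤ g1 c (x0 + ρ / σ c) := by
    have e := hD (x0 + ρ / σ c) x0
      (by rw [add_sub_cancel_left, abs_of_pos hq, hσq]; exact hρ)
      (by rw [sub_self, abs_zero, mul_zero]; norm_num)
    rw [add_sub_cancel_left, abs_of_pos hq, hσq] at e
    have e' := (abs_le.1 e).1
    nlinarith
  have a2 : g1 c (x0 - ρ / σ c) ≤ g1 c x0 - ρ / 50 := by
    have e := hD x0 (x0 - ρ / σ c)
      (by rw [sub_self, abs_zero, mul_zero]; norm_num)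
      (by rw [sub_sub_cancel_left, abs_neg, abs_of_pos hq, hσq]; exact hρ)
    rw [sub_sub_cancel, abs_of_pos hq, hσq] at e
    have e' := (abs_le.1 e).1
    nlinarith
  have hle : x0 - ρ / σ c ≤ x0 + ρ / σ c := by linarith
  have hw := abs_le.1 h1
  obtain ⟨x, hx, hxw⟩ := intermediate_value_Icc hle hcont.continuousOn
    (show w1 ∈ Set.Icc (g1 c (x0 - ρ / σ c)) (g1 c (x0 + ρ / σ c)) from
      ⟨by linarith [hw.1], by linarith [hw.2]⟩)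
  refine ⟨x, ?_, hxw⟩
  have : |x - x0| ≤ ρ / σ c := abs_le.2 ⟨by linarith [hx.1], by linarith [hx.2]⟩
  calc σ c * |x - x0| ≤ σ c * (ρ / σ c) := mul_le_mul_of_nonneg_left this hσ.le
    _ = ρ := hσq

theorem M2_upp1 {S K c c' x s x' s' gx gm gx' nx nm nx' : ℝ} (hK : 1 ≤ K)
    (hs : |s' - c'| ≤ 2) (a1 : |gx - gm| ≤ K * (S * |x - x'|)) (a2 : |gm - gx'| ≤ K * |c - c'|)
    (b1 : |nx - nm| ≤ S * |x - x'| / 10 ^ 5) (b2 : |nm - nx'| ≤ K * |c - c'|) (b3 : |nx| ≤ 1)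
    (hS : 0 ≤ S * |x - x'|) :
    |(gx + (s - c) * nx) - (gx' + (s' - c') * nx')| ≤
      5 * K * (|c - c'| + S * |x - x'| + |s - s'|) := by
  have e : (gx + (s - c) * nx) - (gx' + (s' - c') * nx') =
      ((gx - gm) + (gm - gx')) + (((s - s') - (c - c')) * nx + (s' - c') * ((nx - nm) + (nm - nx'))) := by
    ring
  rw [e]
  have t1 : |(gx - gm) + (gm - gx')| ≤ K * (S * |x - x'|) + K * |c - c'| :=
    (abs_add_le _ _).trans (add_le_add a1 a2)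
  have t2 : |((s - s') - (c - c')) * nx| ≤ (|s - s'| + |c - c'|) * 1 := by
    rw [abs_mul]
    exact mul_le_mul (abs_sub _ _) b3 (abs_nonneg _) (by positivity)
  have t3 : |(s' - c') * ((nx - nm) + (nm - nx'))| ≤ 2 * (S * |x - x'| / 10 ^ 5 + K * |c - c'|) := by
    rw [abs_mul]
    exact mul_le_mul hs ((abs_add_le _ _).trans (add_le_add b1 b2)) (abs_nonneg _) (by norm_num)
  have t4 := (abs_add_le ((gx - gm) + (gm - gx'))
    (((s - s') - (c - c')) * nx + (s' - c') * ((nx - nm) + (nm - nx'))))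
  have t5 := abs_add_le (((s - s') - (c - c')) * nx) ((s' - c') * ((nx - nm) + (nm - nx')))
  have hC : 0 ≤ |c - c'| := abs_nonneg _
  have hV : 0 ≤ |s - s'| := abs_nonneg _
  have k1 : |c - c'| ≤ K * |c - c'| := le_mul_of_one_le_left hC hK
  have k2 : S * |x - x'| ≤ K * (S * |x - x'|) := le_mul_of_one_le_left hS hK
  have k3 : |s - s'| ≤ K * |s - s'| := le_mul_of_one_le_left hV hK
  have k4 : S * |x - x'| / 10 ^ 5 ≤ S * |x - x'| := div_le_self hS (by norm_num)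
  have k5 : 5 * K * (|c - c'| + S * |x - x'| + |s - s'|)
    = 5 * (K * |c - c'|) + 5 * (K * (S * |x - x'|)) + 5 * (K * |s - s'|) := by ring
  rw [k5]
  linarith

/-- upper bound, all variables -/
theorem M2_upp {σ : ℝ → ℝ} {lj : ℤ → ℝ} {g1 g2 ν1 ν2 : ℝ → ℝ → ℝ} {nd : ℤ → ℤ → Prop} {K : ℝ}
    (h : Pat σ lj g1 g2 ν1 ν2 nd K) (c c' x s x' s' : ℝ) (hs : |s' - c'| ≤ 2) :
    |ph1 g1 ν1 c x s - ph1 g1 ν1 c' x' s'| ≤ 6 * K * (|c - c'| + σ c * |x - x'| + |s - s'|) ∧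
    |ph2 g2 ν2 c x s - ph2 g2 ν2 c' x' s'| ≤ 6 * K * (|c - c'| + σ c * |x - x'| + |s - s'|) := by
  have hσ : 0 < σ c := lt_of_lt_of_le one_pos (h.s1 c)
  have hS : 0 ≤ σ c * |x - x'| := mul_nonneg hσ.le (abs_nonneg _)
  have hK0 : 0 ≤ K := zero_le_one.trans h.K1
  have u1 := M2_upp1 (s := s) h.K1 hs (h.p1 c x x').1 (h.p2 c c' x').1 (h.p3 c x x').1
    (h.p2 c c' x').2.2.1 (h.p3b c x).1 hS
  have u2 := M2_upp1 (s := s) h.K1 hs (h.p1 c x x').2 (h.p2 c c' x').2.1 (h.p3 c x x').2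
    (h.p2 c c' x').2.2.2 (h.p3b c x).2 hS
  have hC : 0 ≤ |c - c'| := abs_nonneg _
  have hV : 0 ≤ |s - s'| := abs_nonneg _
  have k1 : |c - c'| ≤ K * |c - c'| := le_mul_of_one_le_left hC h.K1
  have k0 : 0 ≤ K * (|c - c'| + σ c * |x - x'| + |s - s'|) := by positivity
  have k2 : K * |c - c'| ≤ K * (|c - c'| + σ c * |x - x'| + |s - s'|) := by
    apply mul_le_mul_of_nonneg_left _ hK0
    linarith
  refine ⟨?_, ?_⟩
  · refine u1.trans ?_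
    linarith
  · have e : ph2 g2 ν2 c x s - ph2 g2 ν2 c' x' s'
      = (c - c') + ((g2 c x + (s - c) * ν2 c x) - (g2 c' x' + (s' - c') * ν2 c' x')) := by
      simp only [ph2]; ring
    rw [e]
    refine (abs_add_le _ _).trans ?_
    linarith

end H80.LD

end S_H80_LD_M2

section S_H80_LD_F1

/-!
# F1: elementary facts on radial maps and on the scale function `kk`

* `F1_rad_norm`: `‖(rad r p).2‖ = |r ‖p.2‖|` if `p.2 ≠ 0`.
* `F1_rad_rad`: `rad s (rad r p) = rad (s ∘ r) p` if `p.2 ≠ 0`, `0 < r ‖p.2‖`.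
* `F1_rad_id`: if `r ‖p.2‖ = ‖p.2‖` then `rad r p = p` (also for `p.2 = 0`).
* `F1_rad_lip`: if `0 < ‖p.2‖`, `|r a - r b| ≤ ℓ |a - b|` for `a = ‖p.2‖`, `b = ‖q.2‖`, `0 ≤ r a ≤ ℓ a`, then `‖rad r q - rad r p‖ ≤ 3 ℓ ‖q - p‖`
  (also for `q.2 = 0`).  Proof for `b > 0`:
  `‖(r a / a) v - (r b / b) w‖ ≤ (r a / a) ‖v - w‖ + |r a / a - r b / b| b`, and `|r a / a - r b / b| b = |r a * b / a - r b| ≤ (r a / a) |b - a| + |r a - r b|`.
  For `q.2 = 0` the left side is `max(‖q.1-p.1‖, r a) ≤ ℓ a ≤ ℓ ‖q-p‖` (use `1 ≤ ℓ` for the first component, also in the other case).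
* `rS, rR, rSi, rRi`: piecewise linear, `rSi (rS g) = g = rS (rSi g)` for all real `g`, same for `rR, rRi`.
* `kk`: for `a > 0`, `p.2 ≠ 0`: `a ≤ 2 ^ kk a p * ‖p.2‖` and (`kk a p = 0` or `2 ^ kk a p * ‖p.2‖ < 2 a`) (Nat.find_spec, Nat.find_min, Archimedean);
  `kk a p = 0` if `a ≤ ‖p.2‖`; `kk a (lam (1/2) p) = kk a p + 1` if `p.2 ≠ 0` and `‖p.2‖ < 2 * a`.
* `F1_ext_half`: `ext a G (lam (1/2) p) = lam (1/2) (ext a G p)` if `p.2 ≠ 0` and `‖p.2‖ < 2 * a` (consequence of the last fact).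
* `F1_ext_big`: `ext a G p = G p` if `a ≤ ‖p.2‖`.
* `F1_kk_char`: if `a ≤ 2^k * ‖p.2‖` and (`k = 0` or `2^k * ‖p.2‖ < 2*a`) then `kk a p = k`.
-/

open Filter Topology Metric Set

namespace H80.LD

variable {X V : Type*} [NormedAddCommGroup X] [NormedAddCommGroup V] [NormedSpace ℝ V]

theorem F1_lam_norm (a : ℝ) (ha : 0 ≤ a) (p : X × V) : ‖(lam a p).2‖ = a * ‖p.2‖ := by
  change ‖a • p.2‖ = a * ‖p.2‖
  rw [norm_smul, Real.norm_eq_abs, abs_of_nonneg ha]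

theorem F1_lam_lam (a b : ℝ) (p : X × V) : lam a (lam b p) = lam (a * b) p := by
  simp only [lam, smul_smul]

theorem F1_lam_one (p : X × V) : lam 1 p = p := by
  simp only [lam, one_smul]

theorem F1_lam_lip (a : ℝ) (ha : 1 ≤ a) (p q : X × V) : ‖lam a p - lam a q‖ ≤ a * ‖p - q‖ := by
  have h1 : lam a p - lam a q = (p.1 - q.1, a • (p.2 - q.2)) := by
    rw [smul_sub]
    rfl
  have h2 : ‖p.1 - q.1‖ ≤ ‖p - q‖ := norm_fst_le (p - q)
  have h3 : ‖p.2 - q.2‖ ≤ ‖p - q‖ := norm_snd_le (p - q)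
  rw [h1, Prod.norm_def]
  apply max_le
  · have := norm_nonneg (p - q)
    nlinarith
  · rw [norm_smul, Real.norm_eq_abs, abs_of_nonneg (by linarith)]
    exact mul_le_mul_of_nonneg_left h3 (by linarith)

theorem F1_lam_lip' (a : ℝ) (h0 : 0 ≤ a) (ha : a ≤ 1) (p q : X × V) : ‖lam a p - lam a q‖ ≤ ‖p - q‖ := by
  have h1 : lam a p - lam a q = (p.1 - q.1, a • (p.2 - q.2)) := by
    rw [smul_sub]
    rfl
  have h2 : ‖p.1 - q.1‖ ≤ ‖p - q‖ := norm_fst_le (p - q)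
  have h3 : ‖p.2 - q.2‖ ≤ ‖p - q‖ := norm_snd_le (p - q)
  rw [h1, Prod.norm_def]
  apply max_le h2
  rw [norm_smul, Real.norm_eq_abs, abs_of_nonneg h0]
  exact (mul_le_of_le_one_left (norm_nonneg _) ha).trans h3

theorem F1_rad_norm (r : ℝ → ℝ) (p : X × V) (hp : p.2 ≠ 0) : ‖(rad r p).2‖ = |r ‖p.2‖| := by
  have h1 : ‖p.2‖ ≠ 0 := norm_ne_zero_iff.2 hp
  change ‖(r ‖p.2‖ / ‖p.2‖) • p.2‖ = |r ‖p.2‖|
  rw [norm_smul, Real.norm_eq_abs, abs_div, abs_norm, div_mul_cancel₀ _ h1]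

theorem F1_rad_rad (r s : ℝ → ℝ) (p : X × V) (hp : p.2 ≠ 0) (hr : 0 < r ‖p.2‖) :
    rad s (rad r p) = rad (fun g => s (r g)) p := by
  have h1 : ‖p.2‖ ≠ 0 := norm_ne_zero_iff.2 hp
  have h2 := F1_rad_norm r p hp
  rw [abs_of_pos hr] at h2
  change ((rad r p).1, (s ‖(rad r p).2‖ / ‖(rad r p).2‖) • (rad r p).2) = _
  rw [h2]
  change (p.1, (s (r ‖p.2‖) / r ‖p.2‖) • (r ‖p.2‖ / ‖p.2‖) • p.2) =
    (p.1, (s (r ‖p.2‖) / ‖p.2‖) • p.2)
  rw [smul_smul, div_mul_div_cancel₀ hr.ne']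

theorem F1_rad_id (r : ℝ → ℝ) (p : X × V) (hr : r ‖p.2‖ = ‖p.2‖) : rad r p = p := by
  by_cases hp : p.2 = 0
  · have h1 : rad r p = (p.1, (r ‖p.2‖ / ‖p.2‖) • p.2) := rfl
    rw [h1, hp, smul_zero, ← hp]
  · have h1 : ‖p.2‖ ≠ 0 := norm_ne_zero_iff.2 hp
    have h2 : rad r p = (p.1, (r ‖p.2‖ / ‖p.2‖) • p.2) := rfl
    rw [h2, hr, div_self h1, one_smul]

theorem F1_rad_lip (r : ℝ → ℝ) (ℓ : ℝ) (hℓ : 1 ≤ ℓ) (p q : X × V) (hp : p.2 ≠ 0)
    (h1 : |r ‖q.2‖ - r ‖p.2‖| ≤ ℓ * |‖q.2‖ - ‖p.2‖|) (h0 : 0 ≤ r ‖p.2‖) (h2 : r ‖p.2‖ ≤ ℓ * ‖p.2‖) :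
    ‖rad r q - rad r p‖ ≤ 3 * ℓ * ‖q - p‖ := by
  obtain ⟨a, ha⟩ : ∃ a, a = ‖p.2‖ := ⟨_, rfl⟩
  obtain ⟨b, hb⟩ : ∃ b, b = ‖q.2‖ := ⟨_, rfl⟩
  have ha0 : 0 < a := by
    rw [ha]
    exact norm_pos_iff.2 hp
  have e1 : rad r q - rad r p = (q.1 - p.1, (r b / b) • q.2 - (r a / a) • p.2) := by
    rw [ha, hb]
    rfl
  have h3 : ‖q.1 - p.1‖ ≤ ‖q - p‖ := norm_fst_le (q - p)
  have h4 : ‖q.2 - p.2‖ ≤ ‖q - p‖ := norm_snd_le (q - p)
  rw [← ha, ← hb] at h1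
  rw [← ha] at h0 h2
  have h5 : |b - a| ≤ ‖q.2 - p.2‖ := by
    rw [ha, hb]
    exact abs_norm_sub_norm_le _ _
  have hN := norm_nonneg (q - p)
  have hN2 := norm_nonneg (q.2 - p.2)
  have h6 : 0 ≤ r a / a := div_nonneg h0 ha0.le
  have h7 : r a / a ≤ ℓ := by
    rw [div_le_iff₀ ha0]
    exact h2
  rw [e1, Prod.norm_def]
  apply max_le
  · change ‖q.1 - p.1‖ ≤ _
    nlinarith
  · change ‖(r b / b) • q.2 - (r a / a) • p.2‖ ≤ _
    have h8 : ‖(r b / b) • q.2 - (r a / a) • p.2‖ ≤ 3 * ℓ * ‖q.2 - p.2‖ := by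
      by_cases hq : q.2 = 0
      · rw [hq, smul_zero, zero_sub, zero_sub, norm_neg, norm_neg, norm_smul, Real.norm_eq_abs,
          abs_of_nonneg h6, ← ha, div_mul_cancel₀ _ ha0.ne']
        nlinarith
      · have hb0 : 0 < b := by
          rw [hb]
          exact norm_pos_iff.2 hq
        have e2 : (r b / b) • q.2 - (r a / a) • p.2 =
            (r a / a) • (q.2 - p.2) + (r b / b - r a / a) • q.2 := by
          rw [smul_sub, sub_smul]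
          abel
        have e3 : |r b / b - r a / a| * b ≤ 2 * ℓ * ‖q.2 - p.2‖ := by
          have e4 : |r b / b - r a / a| * b = |(r b - r a) - (r a / a) * (b - a)| := by
            have e9 : (r b - r a) - (r a / a) * (b - a) = (r b / b - r a / a) * b := by
              field_simp
              ring
            rw [e9, abs_mul, abs_of_pos hb0]
          rw [e4]
          have e5 := abs_sub (r b - r a) ((r a / a) * (b - a))
          rw [abs_mul, abs_of_nonneg h6] at e5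
          have e6 : (r a / a) * |b - a| ≤ ℓ * ‖q.2 - p.2‖ :=
            mul_le_mul h7 h5 (abs_nonneg _) (by linarith)
          have e7 : ℓ * |b - a| ≤ ℓ * ‖q.2 - p.2‖ := mul_le_mul_of_nonneg_left h5 (by linarith)
          linarith
        rw [e2]
        refine (norm_add_le _ _).trans ?_
        rw [norm_smul, norm_smul, Real.norm_eq_abs, Real.norm_eq_abs, abs_of_nonneg h6, ← hb]
        have e8 : (r a / a) * ‖q.2 - p.2‖ ≤ ℓ * ‖q.2 - p.2‖ := mul_le_mul_of_nonneg_right h7 hN2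
        linarith
    exact h8.trans (mul_le_mul_of_nonneg_left h4 (by linarith))

theorem F1_rS (g : ℝ) : rSi (rS g) = g ∧ rS (rSi g) = g := by
  constructor
  · rw [rSi, rS]
    rcases le_total g (1 / 2 + g / 6) with h | h
    · rw [min_eq_left h, max_eq_left (by linarith)]
    · rw [min_eq_right h, max_eq_right (by linarith)]
      ring
  · rw [rSi, rS]
    rcases le_total g (6 * g - 3) with h | h
    · rw [max_eq_right h, min_eq_right (by linarith)]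
      ring
    · rw [max_eq_left h, min_eq_left (by linarith)]

theorem F1_rR (g : ℝ) : rRi (rR g) = g ∧ rR (rRi g) = g := by
  constructor
  · rw [rRi, rR]
    rcases le_total (7 / 2 * g - 3) g with h | h
    · rw [min_eq_left h, max_eq_left (by linarith)]
      ring
    · rw [min_eq_right h, max_eq_right (by linarith)]
  · rw [rRi, rR]
    rcases le_total ((2 * g + 6) / 7) g with h | h
    · rw [max_eq_right h, min_eq_right (by linarith)]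
    · rw [max_eq_left h, min_eq_left (by linarith)]
      ring

theorem F1_lips (a b : ℝ) : |rS a - rS b| ≤ 1 * |a - b| ∧ |rSi a - rSi b| ≤ 6 * |a - b| ∧
    |rR a - rR b| ≤ 7 / 2 * |a - b| ∧ |rRi a - rRi b| ≤ 1 * |a - b| := by
  refine ⟨?_, ?_, ?_, ?_⟩
  · simp only [rS, min_def]
    rw [abs_le]
    rcases abs_cases (a - b) with ⟨h, h'⟩ | ⟨h, h'⟩ <;> rw [h] <;> split_ifs <;> constructor <;>
      linarith
  · simp only [rSi, max_def]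
    rw [abs_le]
    rcases abs_cases (a - b) with ⟨h, h'⟩ | ⟨h, h'⟩ <;> rw [h] <;> split_ifs <;> constructor <;>
      linarith
  · simp only [rR, min_def]
    rw [abs_le]
    rcases abs_cases (a - b) with ⟨h, h'⟩ | ⟨h, h'⟩ <;> rw [h] <;> split_ifs <;> constructor <;>
      linarith
  · simp only [rRi, max_def]
    rw [abs_le]
    rcases abs_cases (a - b) with ⟨h, h'⟩ | ⟨h, h'⟩ <;> rw [h] <;> split_ifs <;> constructor <;>
      linarith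

theorem F1_kk (a : ℝ) (ha : 0 < a) (p : X × V) (hp : p.2 ≠ 0) :
    a ≤ 2 ^ kk a p * ‖p.2‖ ∧ (kk a p = 0 ∨ 2 ^ kk a p * ‖p.2‖ < 2 * a) := by
  classical
  have hn : 0 < ‖p.2‖ := norm_pos_iff.2 hp
  have hex : ∃ k : ℕ, a ≤ 2 ^ k * ‖p.2‖ := by
    obtain ⟨k, hk⟩ := pow_unbounded_of_one_lt (a / ‖p.2‖) (show (1 : ℝ) < 2 by norm_num)
    exact ⟨k, ((div_lt_iff₀ hn).1 hk).le⟩
  have e : kk a p = Nat.find hex := by
    unfold kk
    rw [dif_pos hex]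
  rw [e]
  refine ⟨Nat.find_spec hex, ?_⟩
  rcases Nat.eq_zero_or_pos (Nat.find hex) with h | h
  · exact Or.inl h
  · right
    obtain ⟨j, hj⟩ : ∃ j, Nat.find hex = j + 1 := ⟨Nat.find hex - 1, by omega⟩
    have h1 := Nat.find_min hex (show j < Nat.find hex by omega)
    rw [hj, pow_succ]
    push Not at h1
    linarith

theorem F1_kk_char (a : ℝ) (ha : 0 < a) (p : X × V) (k : ℕ) (h : a ≤ 2 ^ k * ‖p.2‖)
    (h' : k = 0 ∨ 2 ^ k * ‖p.2‖ < 2 * a) : kk a p = k := by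
  classical
  have hex : ∃ k : ℕ, a ≤ 2 ^ k * ‖p.2‖ := ⟨k, h⟩
  have e : kk a p = Nat.find hex := by
    unfold kk
    rw [dif_pos hex]
  rw [e, Nat.find_eq_iff]
  refine ⟨h, fun m hm hc => ?_⟩
  rcases h' with h' | h'
  · omega
  · obtain ⟨j, rfl⟩ : ∃ j, k = m + 1 + j := ⟨k - (m + 1), by omega⟩
    have h1 : (1 : ℝ) ≤ 2 ^ j := one_le_pow₀ (by norm_num)
    have h2 : (2 : ℝ) ^ (m + 1 + j) * ‖p.2‖ = 2 * (2 ^ m * ‖p.2‖) * 2 ^ j := by ring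
    rw [h2] at h'
    nlinarith

theorem F1_kk_half (a : ℝ) (ha : 0 < a) (p : X × V) (hp : p.2 ≠ 0) (h : ‖p.2‖ < 2 * a) :
    kk a (lam (1 / 2) p) = kk a p + 1 := by
  obtain ⟨h1, h2⟩ := F1_kk a ha p hp
  apply F1_kk_char a ha
  · rw [F1_lam_norm _ (by norm_num), pow_succ]
    linarith
  · right
    rw [F1_lam_norm _ (by norm_num), pow_succ]
    rcases h2 with h2 | h2
    · rw [h2]
      linarith
    · linarith

theorem F1_ext_half (a : ℝ) (ha : 0 < a) (G : X × V → X × V) (p : X × V) (hp : p.2 ≠ 0) (h : ‖p.2‖ < 2 * a) :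
    ext a G (lam (1 / 2) p) = lam (1 / 2) (ext a G p) := by
  have h1 : (lam (1 / 2) p).2 ≠ 0 := by
    change (1 / 2 : ℝ) • p.2 ≠ 0
    exact smul_ne_zero (by norm_num) hp
  rw [ext, if_neg h1, ext, if_neg hp, F1_kk_half a ha p hp h, F1_lam_lam, F1_lam_lam]
  congr 1
  · rw [pow_succ]
    ring
  · congr 2
    rw [pow_succ]
    ring

theorem F1_ext_big (a : ℝ) (ha : 0 < a) (G : X × V → X × V) (p : X × V) (h : a ≤ ‖p.2‖) : ext a G p = G p := by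
  have h1 : p.2 ≠ 0 := by
    rw [← norm_pos_iff]
    linarith
  have h2 : kk a p = 0 := F1_kk_char a ha p 0 (by rw [pow_zero, one_mul]; exact h) (Or.inl rfl)
  rw [ext, if_neg h1, h2, pow_zero, pow_zero, F1_lam_one, F1_lam_one]

end H80.LD

end S_H80_LD_F1
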