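import Mathlib
import Pool.Agent.H80.LM.G01
import Pool.Agent.H80.LM.G02
import Pool.Agent.H80.LM.G03

/-! MP_816883_ag: this file joins several modules (see the folders H80/LD, H24/LS) to save build time. -/

section S_H80_LD_M4

/-!
# M4: the fold map near a point where the clock is independent of the coordinate `b` (case I)

Notation of M3; `p` satisfies the hypothesis `hy` of `K4_indep`; `q, q'` are in the `r`-ball of `p` (weights `W p`, `r = 1/(100 M)`): `|q.2 b - p.2 b| ≤ r`, `σ (p.2 b) |q.2 a - p.2 a| ≤ r`, `W p i |q.2 i - p.2 i| ≤ r`,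
hence by `M3_sH` (with `q = p`) `sH σ H ⌊p.2 b⌋ i |q.2 i - p.2 i| ≤ 2 r ≤ 1/25`, `r ≤ 1/(25 M)`: `K4_indep` applies to all points of the `r`-ball (even `2r` on `J`).
Put `c = c q`, `c' = c q'`, `Δ = max over i ∈ J of W p i |q.2 i - q'.2 i|` (0 if `J` empty).
(1) `|c - c'| ≤ 20 M * card D * Δ`: let `q''` be `q'` with the `b`-coordinate replaced by `q.2 b`; `c q'' = c q'` (`K4_indep`), and `M3_cb` for `q, q''`.
(2) `|q.2 b - c'| ≤ 3/2`, `|p.2 b - c| ≤ 3/2` etc. (`K3_abs` and `r ≤ 1/100`); `σ c ≤ 2 σ (p.2 b) ≤ 4 σ c` (`M3_sig`).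
* `M4_upp`: coordinates `i ∈ J`: `W' (β p) i |..| ≤ 2 W p i |..|`; `a, b`: `M2_upp` `≤ 6 K (|c - c'| + 2 σ (p.2 b) |q.2 a - q'.2 a| + |q.2 b - q'.2 b|) ≤ 6 K (20 M card D + 3) N (q - q')`.
* `M4_low`: let `N'` be the norm of `β q - β q'` (weights `W' (β p)`); `i ∈ J`: `W p i |..| ≤ 2 N'`, so `|c - c'| ≤ 40 M card D N'`.  `M2_low` at `c`, `x0 = p.2 a`, `s0 = p.2 b`, and `ph (c', q') - ph (c, q')` is bounded by `6 K |c - c'|` (`M2_upp`, same `x', s'`):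
  `max (σ c |q.2 a - q'.2 a|) |q.2 b - q'.2 b| ≤ 200 (N' + 6 K |c - c'|)`.
* `M4_surj`: `N' (w - β p) ≤ r / C`, `C = cc a b K`.  Let `z` be the point with `z.1 = w.1`, `z.2 i = w.2 i` for `i ∈ J`, `z.2 a = p.2 a`, `z.2 b = p.2 b`; `W p i |z.2 i - p.2 i| ≤ 2 r / C`.  `c = c z`, `c₀ = c p`: `|c - c₀| ≤ 20 M card D * 2 r / C`.
  `|w.2 a - ph1 c (p.2 a) (p.2 b)| ≤ |w.2 a - (β p).2 a| + 6 K |c - c₀| ≤ r / C + 240 K M card D r / C ≤ (r/2)/200`, same for `b`.  `M2_surj` with `ρ = r/2`: `x, s`; let `q = (w.1, ...)` with `q.2 a = x`, `q.2 b = s`, `q.2 i = w.2 i`: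
  `σ (p.2 b) |x - p.2 a| ≤ 2 σ c |x - p.2 a| ≤ r`, so `q` is in the `r`-ball, `c q = c z` by `K4_indep` (they agree on `J`), `β q = w`.
-/

open Filter Topology Metric Set

namespace H80.LD

variable {X : Type*} [NormedAddCommGroup X] {D : Type*} [Fintype D] [DecidableEq D]

section aux

variable {σ : ℝ → ℝ} {lj : ℤ → ℝ} {g1 g2 ν1 ν2 : ℝ → ℝ → ℝ} {nd : ℤ → ℤ → Prop} {K : ℝ}

private theorem M4_MM (a b : D) : (1 : ℝ) ≤ (MM a b : ℝ) := by exact_mod_cast K2_MM a b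

private theorem M4_rr (a b : D) : 0 < rr a b ∧ rr a b ≤ 1 / 100 ∧ rr a b ≤ 1 / (25 * (MM a b : ℝ)) := by
  have hM := M4_MM a b
  have h0 : (0 : ℝ) < 100 * (MM a b : ℝ) := by linarith
  unfold rr
  refine ⟨by positivity, ?_, ?_⟩
  · apply one_div_le_one_div_of_le (by norm_num); linarith
  · apply one_div_le_one_div_of_le (by linarith); linarith

private theorem M4_card (a : D) : (1 : ℝ) ≤ (Fintype.card D : ℝ) := by
  have : 0 < Fintype.card D := Fintype.card_pos_iff.2 ⟨a⟩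
  exact_mod_cast this

private theorem M4_Wpos (h : Pat σ lj g1 g2 ν1 ν2 nd K) (H : Finset D) (b : D) (p : X × (D → ℝ)) (i : D) :
    0 ≤ wgt σ H b p i := by
  unfold wgt
  split_ifs
  · exact le_trans zero_le_one (h.s1 _)
  · exact zero_le_one

private theorem M4_b (h : Pat σ lj g1 g2 ν1 ν2 nd K) (H : Finset D) (a b : D) (hab : a ≠ b) (ha : a ∉ H)
    (hb : b ∉ H) (p q : X × (D → ℝ)) (R : ℝ)
    (hq : ‖sc (wgt σ (insert a H) b p) (q - p)‖ ≤ R) : |q.2 b - p.2 b| ≤ R := by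
  have h1 := T0b_coord (wgt σ (insert a H) b p) (M4_Wpos h _ b p) (q - p) b
  rw [(M3_wa σ H a b ha hb hab p).2.2.2, one_mul] at h1
  exact h1.trans hq

private theorem M4_a (h : Pat σ lj g1 g2 ν1 ν2 nd K) (H : Finset D) (a b : D) (hab : a ≠ b) (ha : a ∉ H)
    (hb : b ∉ H) (p q : X × (D → ℝ)) (R : ℝ)
    (hq : ‖sc (wgt σ (insert a H) b p) (q - p)‖ ≤ R) : σ (p.2 b) * |q.2 a - p.2 a| ≤ R := by
  have h1 := T0b_coord (wgt σ (insert a H) b p) (M4_Wpos h _ b p) (q - p) a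
  rw [(M3_wa σ H a b ha hb hab p).2.2.1] at h1
  exact h1.trans hq

private theorem M4_J (h : Pat σ lj g1 g2 ν1 ν2 nd K) (H : Finset D) (a b : D)
    (p : X × (D → ℝ)) (y : D → ℝ) (R : ℝ) (hR : R ≤ 1 / 50)
    (i : JJ a b) (hq : wgt σ (insert a H) b p i * |y i - p.2 i| ≤ R) :
    sH σ H ⌊p.2 b⌋ i * |y i - p.2 i| ≤ 1 / 25 := by
  have h1 := (M3_sH h H a b p p (by simp) i i.2.1).1
  have h2 := mul_le_mul_of_nonneg_right h1 (abs_nonneg (y i - p.2 i))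
  linarith

private theorem M4_ind (h : Pat σ lj g1 g2 ν1 ν2 nd K) (H : Finset D) (a b : D) (hab : a ≠ b)
    (p : X × (D → ℝ))
    (hy : 3 / 10 / (MM a b : ℝ) ≤ |p.2 b - ((⌊p.2 b⌋ : ℝ) + ((nn a b p.2 : ℝ) + 1 / 2) / (MM a b : ℝ))| ∨
      ∃ i : JJ a b, 35 / 100 / sH σ H ⌊p.2 b⌋ i ≤ |p.2 i - ZZ σ lj H a b p.2 i|)
    (y y' : D → ℝ) (hb1 : |y b - p.2 b| ≤ rr a b) (hb2 : |y' b - p.2 b| ≤ rr a b)
    (hJ1 : ∀ i : JJ a b, wgt σ (insert a H) b p i * |y i - p.2 i| ≤ 1 / 50)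
    (heq : ∀ i : JJ a b, y i = y' i) :
    cb σ H a b y = cb σ H a b y' := by
  have hr := (M4_rr a b).2.2
  refine K4_indep σ (fun c => lt_of_lt_of_le one_pos (h.s1 c)) lj H a b hab p.2 hy y y'
    (hb1.trans hr) (hb2.trans hr) ?_ ?_ heq
  · intro i
    exact M4_J h H a b p y _ le_rfl i (hJ1 i)
  · intro i
    have := M4_J h H a b p y _ le_rfl i (hJ1 i)
    rwa [heq i] at this

end aux

theorem M4_cb {σ : ℝ → ℝ} {lj : ℤ → ℝ} {g1 g2 ν1 ν2 : ℝ → ℝ → ℝ} {nd : ℤ → ℤ → Prop} {K : ℝ}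
    (h : Pat σ lj g1 g2 ν1 ν2 nd K) (H : Finset D) (a b : D) (hab : a ≠ b) (ha : a ∉ H) (hb : b ∉ H)
    (p : X × (D → ℝ))
    (hy : 3 / 10 / (MM a b : ℝ) ≤ |p.2 b - ((⌊p.2 b⌋ : ℝ) + ((nn a b p.2 : ℝ) + 1 / 2) / (MM a b : ℝ))| ∨
      ∃ i : JJ a b, 35 / 100 / sH σ H ⌊p.2 b⌋ i ≤ |p.2 i - ZZ σ lj H a b p.2 i|) (Δ : ℝ)
    (q q' : X × (D → ℝ)) (hq : ‖sc (wgt σ (insert a H) b p) (q - p)‖ ≤ rr a b)
    (hq' : ‖sc (wgt σ (insert a H) b p) (q' - p)‖ ≤ rr a b)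
    (hΔ : ∀ i : JJ a b, wgt σ (insert a H) b p i * |q.2 i - q'.2 i| ≤ Δ) (hΔ0 : 0 ≤ Δ) :
    |cb σ H a b q.2 - cb σ H a b q'.2| ≤ 20 * (MM a b : ℝ) * (Fintype.card D : ℝ) * Δ := by
  obtain ⟨hr0, hr1, hr2⟩ := M4_rr a b
  have hM := M4_MM a b
  have qb := M4_b h H a b hab ha hb p q _ hq
  have qb' := M4_b h H a b hab ha hb p q' _ hq'
  set q'' : X × (D → ℝ) := (q'.1, fun i => if i = b then q.2 b else q'.2 i) with hq''
  have e1 : q''.2 b = q.2 b := by simp [hq'']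
  have e2 : ∀ i : JJ a b, q''.2 i = q'.2 i := fun i => by simp [hq'', i.2.2]
  have e3 : cb σ H a b q'.2 = cb σ H a b q''.2 := by
    refine M4_ind h H a b hab p hy q'.2 q''.2 qb' (by rw [e1]; exact qb) ?_ (fun i => (e2 i).symm)
    intro i
    have := T0b_coord (wgt σ (insert a H) b p) (M4_Wpos h _ b p) (q' - p) i
    have h3 : wgt σ (insert a H) b p i * |q'.2 i - p.2 i| ≤ rr a b := this.trans hq'
    linarith
  rw [e3]
  refine (M3_cb h H a b p q q'' (qb.trans (by linarith))).trans ?_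
  rw [e1, sub_self, abs_zero, mul_zero, zero_add]
  have hs : ∑ i : JJ a b, wgt σ (insert a H) b p i * |q.2 i - q''.2 i| ≤
      (Fintype.card D : ℝ) * Δ := by
    calc ∑ i : JJ a b, wgt σ (insert a H) b p i * |q.2 i - q''.2 i|
        ≤ ∑ i : JJ a b, Δ := by
          refine Finset.sum_le_sum fun i _ => ?_
          rw [e2 i]
          exact hΔ i
      _ = (Fintype.card (JJ a b) : ℝ) * Δ := by
          rw [Finset.sum_const, nsmul_eq_mul]; rfl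
      _ ≤ _ := by
          refine mul_le_mul_of_nonneg_right ?_ hΔ0
          exact_mod_cast Fintype.card_subtype_le _
  calc 20 * (MM a b : ℝ) * ∑ i : JJ a b, wgt σ (insert a H) b p i * |q.2 i - q''.2 i|
      ≤ 20 * (MM a b : ℝ) * ((Fintype.card D : ℝ) * Δ) :=
        mul_le_mul_of_nonneg_left hs (by linarith)
    _ = _ := by ring

section aux2

variable {σ : ℝ → ℝ} {lj : ℤ → ℝ} {g1 g2 ν1 ν2 : ℝ → ℝ → ℝ} {nd : ℤ → ℤ → Prop} {K : ℝ}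

private theorem M4_fa (σ : ℝ → ℝ) (H : Finset D) (a b : D) (g1 g2 ν1 ν2 : ℝ → ℝ → ℝ) (q : X × (D → ℝ)) :
    (fold σ H a b g1 g2 ν1 ν2 q).2 a = ph1 g1 ν1 (cb σ H a b q.2) (q.2 a) (q.2 b) := by
  simp [fold]

private theorem M4_fb (σ : ℝ → ℝ) (H : Finset D) (a b : D) (hab : a ≠ b) (g1 g2 ν1 ν2 : ℝ → ℝ → ℝ)
    (q : X × (D → ℝ)) :
    (fold σ H a b g1 g2 ν1 ν2 q).2 b = ph2 g2 ν2 (cb σ H a b q.2) (q.2 a) (q.2 b) := by
  simp [fold, hab.symm]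

private theorem M4_fJ (σ : ℝ → ℝ) (H : Finset D) (a b : D) (g1 g2 ν1 ν2 : ℝ → ℝ → ℝ)
    (q : X × (D → ℝ)) (i : D) (h1 : i ≠ a) (h2 : i ≠ b) :
    (fold σ H a b g1 g2 ν1 ν2 q).2 i = q.2 i := by
  simp [fold, h1, h2]

/-- constants: `T = K M card D ≥ 1`, `cc = 10^6 T` -/
private theorem M4_T (hK : 1 ≤ K) (a b : D) :
    ∃ T : ℝ, 1 ≤ T ∧ cc a b K = 10 ^ 6 * T ∧ K ≤ T ∧ T = K * ((MM a b : ℝ) * (Fintype.card D : ℝ)) ∧
      K * (MM a b : ℝ) ≤ T := by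
  have hM := M4_MM a b
  have hd := M4_card a
  have h1 : (1 : ℝ) ≤ (MM a b : ℝ) * (Fintype.card D : ℝ) := one_le_mul_of_one_le_of_one_le hM hd
  refine ⟨K * ((MM a b : ℝ) * (Fintype.card D : ℝ)), one_le_mul_of_one_le_of_one_le hK h1, ?_, ?_, rfl, ?_⟩
  · unfold cc; ring
  · exact le_mul_of_one_le_right (by linarith) h1
  · have : (MM a b : ℝ) ≤ (MM a b : ℝ) * (Fintype.card D : ℝ) := le_mul_of_one_le_right (by linarith) hd
    exact mul_le_mul_of_nonneg_left this (by linarith)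

end aux2

theorem M4_upp {σ : ℝ → ℝ} {lj : ℤ → ℝ} {g1 g2 ν1 ν2 : ℝ → ℝ → ℝ} {nd : ℤ → ℤ → Prop} {K : ℝ}
    (h : Pat σ lj g1 g2 ν1 ν2 nd K) (H : Finset D) (a b : D) (hab : a ≠ b) (ha : a ∉ H) (hb : b ∉ H)
    (p : X × (D → ℝ))
    (hy : 3 / 10 / (MM a b : ℝ) ≤ |p.2 b - ((⌊p.2 b⌋ : ℝ) + ((nn a b p.2 : ℝ) + 1 / 2) / (MM a b : ℝ))| ∨
      ∃ i : JJ a b, 35 / 100 / sH σ H ⌊p.2 b⌋ i ≤ |p.2 i - ZZ σ lj H a b p.2 i|)
    (q q' : X × (D → ℝ)) (hq : ‖sc (wgt σ (insert a H) b p) (q - p)‖ ≤ rr a b)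
    (hq' : ‖sc (wgt σ (insert a H) b p) (q' - p)‖ ≤ rr a b) :
    ‖sc (wgt σ H b (fold σ H a b g1 g2 ν1 ν2 p)) (fold σ H a b g1 g2 ν1 ν2 q - fold σ H a b g1 g2 ν1 ν2 q')‖ ≤
      cc a b K * ‖sc (wgt σ (insert a H) b p) (q - q')‖ := by
  obtain ⟨hr0, hr1, hr2⟩ := M4_rr a b
  have hM := M4_MM a b
  have hK := h.K1
  obtain ⟨T, hT1, hC, hKT, hTe, hKM⟩ := M4_T hK a b
  have qb := M4_b h H a b hab ha hb p q _ hq
  set W := wgt σ (insert a H) b p with hW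
  set N := ‖sc W (q - q')‖ with hN
  have hN0 : 0 ≤ N := norm_nonneg _
  have hWn : ∀ i, 0 ≤ W i := M4_Wpos h _ b p
  have hco : ∀ i, W i * |q.2 i - q'.2 i| ≤ N := fun i => T0b_coord W hWn (q - q') i
  have hcb := M4_cb h H a b hab ha hb p hy N q q' hq hq' (fun i => hco i) hN0
  have hCN : 0 ≤ cc a b K * N := by rw [hC]; positivity
  have hKcb : K * |cb σ H a b q.2 - cb σ H a b q'.2| ≤ 20 * T * N := by
    have := mul_le_mul_of_nonneg_left hcb (by linarith : (0 : ℝ) ≤ K)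
    calc _ ≤ _ := this
      _ = 20 * T * N := by rw [hTe]; ring
  have hsig := (M3_sig h H a b p q (qb.trans (by linarith))).1
  have hWa : W a = σ (p.2 b) := (M3_wa σ H a b ha hb hab p).2.2.1
  have hWb : W b = 1 := (M3_wa σ H a b ha hb hab p).2.2.2
  have ha1 : σ (cb σ H a b q.2) * |q.2 a - q'.2 a| ≤ 2 * N := by
    have h1 := mul_le_mul_of_nonneg_right hsig (abs_nonneg (q.2 a - q'.2 a))
    have h2 := hco a
    rw [hWa] at h2
    linarith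
  have hb1 : |q.2 b - q'.2 b| ≤ N := by
    have h2 := hco b
    rwa [hWb, one_mul] at h2
  have hsc' : |q'.2 b - cb σ H a b q'.2| ≤ 2 := (K3_abs σ H a b q'.2).trans (by norm_num)
  obtain ⟨hu1, hu2⟩ := M2_upp h (cb σ H a b q.2) (cb σ H a b q'.2) (q.2 a) (q.2 b) (q'.2 a) (q'.2 b) hsc'
  have hbd : 6 * K * (|cb σ H a b q.2 - cb σ H a b q'.2| + σ (cb σ H a b q.2) * |q.2 a - q'.2 a| +
      |q.2 b - q'.2 b|) ≤ cc a b K * N := by
    have h1 : K * (σ (cb σ H a b q.2) * |q.2 a - q'.2 a|) ≤ K * (2 * N) :=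
      mul_le_mul_of_nonneg_left ha1 (by linarith)
    have h2 : K * |q.2 b - q'.2 b| ≤ K * N := mul_le_mul_of_nonneg_left hb1 (by linarith)
    have h3 : K * N ≤ T * N := mul_le_mul_of_nonneg_right hKT hN0
    have h4 : 0 ≤ T * N := by positivity
    rw [hC]
    nlinarith
  have hW'n : ∀ i, 0 ≤ wgt σ H b (fold σ H a b g1 g2 ν1 ν2 p) i := M4_Wpos h _ b _
  rw [T0b_le _ hW'n _ _ hCN]
  obtain ⟨wa, wb, -, -⟩ := M3_wa σ H a b ha hb hab (fold σ H a b g1 g2 ν1 ν2 p)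
  refine ⟨?_, fun i => ?_⟩
  · have h1 : ‖q.1 - q'.1‖ ≤ N := T0b_fst W (q - q')
    have h2 : N ≤ cc a b K * N := by
      rw [hC]; nlinarith
    exact h1.trans h2
  · rw [Prod.snd_sub, Pi.sub_apply]
    by_cases h1 : i = a
    · subst h1
      rw [wa, one_mul, M4_fa, M4_fa]
      exact hu1.trans hbd
    · by_cases h2 : i = b
      · subst h2
        rw [wb, one_mul, M4_fb _ _ _ _ hab, M4_fb _ _ _ _ hab]
        exact hu2.trans hbd
      · rw [M4_fJ _ _ _ _ _ _ _ _ _ _ h1 h2, M4_fJ _ _ _ _ _ _ _ _ _ _ h1 h2]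
        have h3 := (M3_w h H a b hab ha p i h1).1
        have h4 := mul_le_mul_of_nonneg_right h3 (abs_nonneg (q.2 i - q'.2 i))
        have h5 := hco i
        rw [hC]
        nlinarith

theorem M4_low {σ : ℝ → ℝ} {lj : ℤ → ℝ} {g1 g2 ν1 ν2 : ℝ → ℝ → ℝ} {nd : ℤ → ℤ → Prop} {K : ℝ}
    (h : Pat σ lj g1 g2 ν1 ν2 nd K) (H : Finset D) (a b : D) (hab : a ≠ b) (ha : a ∉ H) (hb : b ∉ H)
    (p : X × (D → ℝ))
    (hy : 3 / 10 / (MM a b : ℝ) ≤ |p.2 b - ((⌊p.2 b⌋ : ℝ) + ((nn a b p.2 : ℝ) + 1 / 2) / (MM a b : ℝ))| ∨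
      ∃ i : JJ a b, 35 / 100 / sH σ H ⌊p.2 b⌋ i ≤ |p.2 i - ZZ σ lj H a b p.2 i|)
    (q q' : X × (D → ℝ)) (hq : ‖sc (wgt σ (insert a H) b p) (q - p)‖ ≤ rr a b)
    (hq' : ‖sc (wgt σ (insert a H) b p) (q' - p)‖ ≤ rr a b) :
    ‖sc (wgt σ (insert a H) b p) (q - q')‖ ≤ cc a b K *
      ‖sc (wgt σ H b (fold σ H a b g1 g2 ν1 ν2 p)) (fold σ H a b g1 g2 ν1 ν2 q - fold σ H a b g1 g2 ν1 ν2 q')‖ := by
  obtain ⟨hr0, hr1, hr2⟩ := M4_rr a b
  have hM := M4_MM a b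
  have hK := h.K1
  obtain ⟨T, hT1, hC, hKT, hTe, hKM⟩ := M4_T hK a b
  have qb := M4_b h H a b hab ha hb p q _ hq
  have qb' := M4_b h H a b hab ha hb p q' _ hq'
  have qa := M4_a h H a b hab ha hb p q _ hq
  have qa' := M4_a h H a b hab ha hb p q' _ hq'
  set W := wgt σ (insert a H) b p with hW
  set N' := ‖sc (wgt σ H b (fold σ H a b g1 g2 ν1 ν2 p))
    (fold σ H a b g1 g2 ν1 ν2 q - fold σ H a b g1 g2 ν1 ν2 q')‖ with hN'
  have hN0 : 0 ≤ N' := norm_nonneg _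
  have hWn : ∀ i, 0 ≤ W i := M4_Wpos h _ b p
  have hW'n : ∀ i, 0 ≤ wgt σ H b (fold σ H a b g1 g2 ν1 ν2 p) i := M4_Wpos h _ b _
  have hco : ∀ i, wgt σ H b (fold σ H a b g1 g2 ν1 ν2 p) i *
      |(fold σ H a b g1 g2 ν1 ν2 q).2 i - (fold σ H a b g1 g2 ν1 ν2 q').2 i| ≤ N' := fun i =>
    T0b_coord _ hW'n (fold σ H a b g1 g2 ν1 ν2 q - fold σ H a b g1 g2 ν1 ν2 q') i
  obtain ⟨wa, wb, -, -⟩ := M3_wa σ H a b ha hb hab (fold σ H a b g1 g2 ν1 ν2 p)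
  have hJ : ∀ i, i ≠ a → i ≠ b → W i * |q.2 i - q'.2 i| ≤ 2 * N' := by
    intro i h1 h2
    have h3 := (M3_w h H a b hab ha p i h1).2
    have h4 := mul_le_mul_of_nonneg_right h3 (abs_nonneg (q.2 i - q'.2 i))
    have h5 := hco i
    rw [M4_fJ _ _ _ _ _ _ _ _ _ _ h1 h2, M4_fJ _ _ _ _ _ _ _ _ _ _ h1 h2] at h5
    linarith
  have hcb := M4_cb h H a b hab ha hb p hy (2 * N') q q' hq hq'
    (fun i => hJ i i.2.1 i.2.2) (by linarith)
  have hKcb : K * |cb σ H a b q.2 - cb σ H a b q'.2| ≤ 40 * T * N' := by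
    have := mul_le_mul_of_nonneg_left hcb (by linarith : (0 : ℝ) ≤ K)
    calc _ ≤ _ := this
      _ = 40 * T * N' := by rw [hTe]; ring
  obtain ⟨hsig1, hsig2⟩ := M3_sig h H a b p q (qb.trans (by linarith))
  have hWa : W a = σ (p.2 b) := (M3_wa σ H a b ha hb hab p).2.2.1
  have hWb : W b = 1 := (M3_wa σ H a b ha hb hab p).2.2.2
  have hsc' : |q'.2 b - cb σ H a b q'.2| ≤ 2 := (K3_abs σ H a b q'.2).trans (by norm_num)
  have hsc : |p.2 b - cb σ H a b q.2| ≤ 3 / 2 := by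
    have h1 := K3_abs σ H a b q.2
    have h2 : |p.2 b - cb σ H a b q.2| ≤ |p.2 b - q.2 b| + |q.2 b - cb σ H a b q.2| :=
      abs_sub_le _ _ _
    rw [abs_sub_comm (p.2 b) (q.2 b)] at h2
    linarith
  have hxa : σ (cb σ H a b q.2) * |q.2 a - p.2 a| ≤ 1 / 2 := by
    have h1 := mul_le_mul_of_nonneg_right hsig1 (abs_nonneg (q.2 a - p.2 a))
    linarith
  have hxa' : σ (cb σ H a b q.2) * |q'.2 a - p.2 a| ≤ 1 / 2 := by
    have h1 := mul_le_mul_of_nonneg_right hsig1 (abs_nonneg (q'.2 a - p.2 a))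
    linarith
  have hlow := M2_low h (cb σ H a b q.2) (p.2 a) (p.2 b) hsc (q.2 a) (q.2 b) (q'.2 a) (q'.2 b)
    hxa (qb.trans (by linarith)) hxa' (qb'.trans (by linarith))
  obtain ⟨hu1, hu2⟩ := M2_upp h (cb σ H a b q.2) (cb σ H a b q'.2) (q'.2 a) (q'.2 b) (q'.2 a) (q'.2 b) hsc'
  simp only [sub_self, abs_zero, mul_zero, add_zero] at hu1 hu2
  have h6 : 6 * K * |cb σ H a b q.2 - cb σ H a b q'.2| ≤ 240 * T * N' := by nlinarith
  have hTN : N' ≤ T * N' := by nlinarith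
  have hA : |ph1 g1 ν1 (cb σ H a b q.2) (q.2 a) (q.2 b) - ph1 g1 ν1 (cb σ H a b q.2) (q'.2 a) (q'.2 b)| ≤
      241 * T * N' := by
    have h1 := hco a
    rw [wa, one_mul, M4_fa, M4_fa] at h1
    have h2 := abs_sub_le (ph1 g1 ν1 (cb σ H a b q.2) (q.2 a) (q.2 b))
      (ph1 g1 ν1 (cb σ H a b q'.2) (q'.2 a) (q'.2 b)) (ph1 g1 ν1 (cb σ H a b q.2) (q'.2 a) (q'.2 b))
    rw [abs_sub_comm (ph1 g1 ν1 (cb σ H a b q'.2) (q'.2 a) (q'.2 b))] at h2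
    linarith
  have hB : |ph2 g2 ν2 (cb σ H a b q.2) (q.2 a) (q.2 b) - ph2 g2 ν2 (cb σ H a b q.2) (q'.2 a) (q'.2 b)| ≤
      241 * T * N' := by
    have h1 := hco b
    rw [wb, one_mul, M4_fb _ _ _ _ hab, M4_fb _ _ _ _ hab] at h1
    have h2 := abs_sub_le (ph2 g2 ν2 (cb σ H a b q.2) (q.2 a) (q.2 b))
      (ph2 g2 ν2 (cb σ H a b q'.2) (q'.2 a) (q'.2 b)) (ph2 g2 ν2 (cb σ H a b q.2) (q'.2 a) (q'.2 b))
    rw [abs_sub_comm (ph2 g2 ν2 (cb σ H a b q'.2) (q'.2 a) (q'.2 b))] at h2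
    linarith
  have hmax := hlow.trans (mul_le_mul_of_nonneg_left (max_le hA hB) (by norm_num : (0 : ℝ) ≤ 200))
  have hra := (le_max_left _ _).trans hmax
  have hrb := (le_max_right _ _).trans hmax
  have hCN : 0 ≤ cc a b K * N' := by rw [hC]; positivity
  have hTN0 : 0 ≤ T * N' := by positivity
  rw [T0b_le _ hWn _ _ hCN]
  refine ⟨?_, fun i => ?_⟩
  · have h1 : ‖q.1 - q'.1‖ ≤ N' := T0b_fst (wgt σ H b (fold σ H a b g1 g2 ν1 ν2 p))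
      (fold σ H a b g1 g2 ν1 ν2 q - fold σ H a b g1 g2 ν1 ν2 q')
    refine h1.trans ?_
    rw [hC]; linarith
  · rw [Prod.snd_sub, Pi.sub_apply]
    by_cases h1 : i = a
    · subst h1
      rw [hWa]
      have h4 := mul_le_mul_of_nonneg_right hsig2 (abs_nonneg (q.2 i - q'.2 i))
      rw [hC]
      linarith
    · by_cases h2 : i = b
      · subst h2
        rw [hWb, one_mul, hC]
        linarith
      · have h5 := hJ i h1 h2
        rw [hC]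
        linarith

theorem M4_surj {σ : ℝ → ℝ} {lj : ℤ → ℝ} {g1 g2 ν1 ν2 : ℝ → ℝ → ℝ} {nd : ℤ → ℤ → Prop} {K : ℝ}
    (h : Pat σ lj g1 g2 ν1 ν2 nd K) (H : Finset D) (a b : D) (hab : a ≠ b) (ha : a ∉ H) (hb : b ∉ H)
    (p : X × (D → ℝ))
    (hy : 3 / 10 / (MM a b : ℝ) ≤ |p.2 b - ((⌊p.2 b⌋ : ℝ) + ((nn a b p.2 : ℝ) + 1 / 2) / (MM a b : ℝ))| ∨
      ∃ i : JJ a b, 35 / 100 / sH σ H ⌊p.2 b⌋ i ≤ |p.2 i - ZZ σ lj H a b p.2 i|)
    (w : X × (D → ℝ)) (hw : ‖sc (wgt σ H b (fold σ H a b g1 g2 ν1 ν2 p)) (w - fold σ H a b g1 g2 ν1 ν2 p)‖ ≤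
      rr a b / cc a b K) :
    ∃ q : X × (D → ℝ), ‖sc (wgt σ (insert a H) b p) (q - p)‖ ≤ rr a b ∧ fold σ H a b g1 g2 ν1 ν2 q = w := by
  obtain ⟨hr0, hr1, hr2⟩ := M4_rr a b
  have hM := M4_MM a b
  have hK := h.K1
  obtain ⟨T, hT1, hC, hKT, hTe, hKM⟩ := M4_T hK a b
  have hC0 : 0 < cc a b K := by rw [hC]; positivity
  set δ := rr a b / cc a b K with hδ
  have hδ0 : 0 < δ := div_pos hr0 hC0
  have hδC : cc a b K * δ = rr a b := by rw [hδ]; field_simp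
  have hδT : 10 ^ 6 * (T * δ) = rr a b := by rw [← hδC, hC]; ring
  have hδle : 10 ^ 6 * δ ≤ rr a b := by nlinarith
  set r := rr a b with hrdef
  set W := wgt σ (insert a H) b p with hW
  have hWn : ∀ i, 0 ≤ W i := M4_Wpos h _ b p
  have hW'n : ∀ i, 0 ≤ wgt σ H b (fold σ H a b g1 g2 ν1 ν2 p) i := M4_Wpos h _ b _
  have hco : ∀ i, wgt σ H b (fold σ H a b g1 g2 ν1 ν2 p) i *
      |w.2 i - (fold σ H a b g1 g2 ν1 ν2 p).2 i| ≤ δ := fun i =>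
    (T0b_coord _ hW'n (w - fold σ H a b g1 g2 ν1 ν2 p) i).trans hw
  have hfst : ‖w.1 - p.1‖ ≤ δ :=
    (T0b_fst (wgt σ H b (fold σ H a b g1 g2 ν1 ν2 p)) (w - fold σ H a b g1 g2 ν1 ν2 p)).trans hw
  obtain ⟨wa, wb, -, -⟩ := M3_wa σ H a b ha hb hab (fold σ H a b g1 g2 ν1 ν2 p)
  have hWa : W a = σ (p.2 b) := (M3_wa σ H a b ha hb hab p).2.2.1
  have hWb : W b = 1 := (M3_wa σ H a b ha hb hab p).2.2.2
  have hJ : ∀ i, i ≠ a → i ≠ b → W i * |w.2 i - p.2 i| ≤ 2 * δ := by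
    intro i h1 h2
    have h3 := (M3_w h H a b hab ha p i h1).2
    have h4 := mul_le_mul_of_nonneg_right h3 (abs_nonneg (w.2 i - p.2 i))
    have h5 := hco i
    rw [M4_fJ _ _ _ _ _ _ _ _ _ _ h1 h2] at h5
    linarith
  -- the auxiliary point z
  set z : X × (D → ℝ) := (w.1, fun i => if i = a then p.2 a else if i = b then p.2 b else w.2 i) with hz
  have za : z.2 a = p.2 a := by simp [hz]
  have zb : z.2 b = p.2 b := by simp [hz, hab.symm]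
  have zJ : ∀ i, i ≠ a → i ≠ b → z.2 i = w.2 i := fun i h1 h2 => by simp [hz, h1, h2]
  have hzp : ‖sc W (z - p)‖ ≤ r := by
    rw [T0b_le _ hWn _ _ hr0.le]
    refine ⟨?_, fun i => ?_⟩
    · show ‖w.1 - p.1‖ ≤ r
      linarith
    · rw [Prod.snd_sub, Pi.sub_apply]
      by_cases h1 : i = a
      · rw [h1, za, sub_self, abs_zero, mul_zero]; exact hr0.le
      · by_cases h2 : i = b
        · rw [h2, zb, sub_self, abs_zero, mul_zero]; exact hr0.le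
        · rw [zJ i h1 h2]
          have := hJ i h1 h2
          linarith
  have hpp : ‖sc W (p - p)‖ ≤ r := by
    rw [T0b_self]; exact hr0.le
  have hcb := M4_cb h H a b hab ha hb p hy (2 * δ) p z hpp hzp
    (fun i => by
      rw [zJ i i.2.1 i.2.2, abs_sub_comm]
      exact hJ i i.2.1 i.2.2) (by linarith)
  have hKcb : K * |cb σ H a b p.2 - cb σ H a b z.2| ≤ 40 * (T * δ) := by
    have := mul_le_mul_of_nonneg_left hcb (by linarith : (0 : ℝ) ≤ K)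
    calc _ ≤ _ := this
      _ = 40 * (T * δ) := by rw [hTe]; ring
  have hsz : |p.2 b - cb σ H a b z.2| ≤ 1 := by
    have := K3_abs σ H a b z.2
    rwa [zb] at this
  obtain ⟨hu1, hu2⟩ := M2_upp h (cb σ H a b p.2) (cb σ H a b z.2) (p.2 a) (p.2 b) (p.2 a) (p.2 b)
    (hsz.trans (by norm_num))
  simp only [sub_self, abs_zero, mul_zero, add_zero] at hu1 hu2
  have hw1 : |w.2 a - ph1 g1 ν1 (cb σ H a b z.2) (p.2 a) (p.2 b)| ≤ r / 2 / 200 := by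
    have h1 := hco a
    rw [wa, one_mul, M4_fa] at h1
    have h2 := abs_sub_le (w.2 a) (ph1 g1 ν1 (cb σ H a b p.2) (p.2 a) (p.2 b))
      (ph1 g1 ν1 (cb σ H a b z.2) (p.2 a) (p.2 b))
    linarith
  have hw2 : |w.2 b - ph2 g2 ν2 (cb σ H a b z.2) (p.2 a) (p.2 b)| ≤ r / 2 / 200 := by
    have h1 := hco b
    rw [wb, one_mul, M4_fb _ _ _ _ hab] at h1
    have h2 := abs_sub_le (w.2 b) (ph2 g2 ν2 (cb σ H a b p.2) (p.2 a) (p.2 b))
      (ph2 g2 ν2 (cb σ H a b z.2) (p.2 a) (p.2 b))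
    linarith
  obtain ⟨x, s, hx, hs, hf1, hf2⟩ := M2_surj h (cb σ H a b z.2) (p.2 a) (p.2 b)
    (hsz.trans (by norm_num)) (r / 2) (by linarith) (by linarith) (w.2 a) (w.2 b) hw1 hw2
  have hsig2 := (M3_sig h H a b p z (by rw [zb]; simp)).2
  set q : X × (D → ℝ) := (w.1, fun i => if i = a then x else if i = b then s else w.2 i) with hq
  have qa : q.2 a = x := by simp [hq]
  have qb : q.2 b = s := by simp [hq, hab.symm]
  have qJ : ∀ i, i ≠ a → i ≠ b → q.2 i = w.2 i := fun i h1 h2 => by simp [hq, h1, h2]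
  have hcq : cb σ H a b q.2 = cb σ H a b z.2 := by
    refine M4_ind h H a b hab p hy q.2 z.2 ?_ ?_ ?_ ?_
    · rw [qb]; linarith
    · rw [zb, sub_self, abs_zero]; exact hr0.le
    · intro i
      rw [qJ i i.2.1 i.2.2]
      have := hJ i i.2.1 i.2.2
      linarith
    · intro i
      rw [qJ i i.2.1 i.2.2, zJ i i.2.1 i.2.2]
  refine ⟨q, ?_, ?_⟩
  · rw [T0b_le _ hWn _ _ hr0.le]
    refine ⟨?_, fun i => ?_⟩
    · show ‖w.1 - p.1‖ ≤ r
      linarith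
    · rw [Prod.snd_sub, Pi.sub_apply]
      by_cases h1 : i = a
      · rw [h1, qa, hWa]
        have h4 := mul_le_mul_of_nonneg_right hsig2 (abs_nonneg (x - p.2 a))
        linarith
      · by_cases h2 : i = b
        · rw [h2, qb, hWb, one_mul]; linarith
        · rw [qJ i h1 h2]
          have := hJ i h1 h2
          linarith
  · refine Prod.ext rfl ?_
    funext i
    by_cases h1 : i = a
    · rw [h1, M4_fa, hcq, qa, qb]; exact hf1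
    · by_cases h2 : i = b
      · rw [h2, M4_fb _ _ _ _ hab, hcq, qa, qb]; exact hf2
      · rw [M4_fJ _ _ _ _ _ _ _ _ _ _ h1 h2, qJ i h1 h2]

end H80.LD

end S_H80_LD_M4
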