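import Mathlib
import Pool.Agent.H80.LM.G01
import Pool.Agent.H80.LM.G02
import Pool.Agent.H80.LM.G03

/-! MP_816883_ag: this file joins several modules (see the folders H80/LD, H24/LS) to save build time. -/

section S_H80_LD_M5

/-!
# M5: the fold map near a point where the pattern is vertical (columns, or cells without pattern)

Notation of M3.  Hypotheses: `hfl`: the floor of the `b`-coordinate is `j` on the `r`-ball of `p`; `hv`: for `c ∈ [j, j+1]` and `σ (p.2 b) |x - p.2 a| ≤ r`: `ν1 c x = 0`, `ν2 c x = 1`, `g2 c x = 0`.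
For `q` in the `r`-ball `c q ∈ [j, j+1]` (`K3_mem`), so `(β q).2 b = q.2 b`, `(β q).2 a = g1 (c q) (q.2 a)`, `(β q).2 i = q.2 i` otherwise.
By `M3_cb`: `|c q - c q'| ≤ 22 M card D * Δ`, `Δ = max over i ≠ a of W p i |q.2 i - q'.2 i|`, and `≤ 44 M card D N'` with `N'` the target norm of `β q - β q'` (`W p i ≤ 2 W' (β p) i` for `i ≠ a`, `M3_w`).
* `M5_upp`: `|g1 c x - g1 c' x'| ≤ K σ c |x - x'| + K |c - c'|` (`p1`, `p2`), `σ c ≤ 2 σ (p.2 b)`.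
* `M5_low`: `M2_low1` at `c = c q`, `x0 = p.2 a` (`ν (c, x0)` is vertical by `hv`): `σ c |x - x'| ≤ 50 |g1 c x - g1 c x'| ≤ 50 (N' + K |c - c'|)`.
* `M5_surj`: put `z.1 = w.1`, `z.2 i = w.2 i` for `i ≠ a`, `z.2 a = p.2 a`; `W p i |z.2 i - p.2 i| ≤ 2 N' ≤ 2 r / C ≤ r` for `i ≠ a` (note `(β p).2 i = p.2 i` for `i ≠ a`).  `c = c z`, `|w.2 a - g1 c (p.2 a)| ≤ r/C + K |c - c p| ≤ r/C + 44 K M card D r/C ≤ (r/2)/50`;
  `M2_surj1` with `ρ = r/2` gives `x`, `σ c |x - p.2 a| ≤ r/2`, so `σ (p.2 b) |x - p.2 a| ≤ r`; `q = z` with `a`-coordinate `x`; `c q = c z` (`K3_congr`), `β q = w`.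
-/

open Filter Topology Metric Set

namespace H80.LD

variable {X : Type*} [NormedAddCommGroup X] {D : Type*} [Fintype D] [DecidableEq D]

theorem M5_rr (a b : D) : 0 < rr a b ∧ rr a b ≤ 1 / 100 := by
  have h1 : (1 : ℝ) ≤ (MM a b : ℝ) := by exact_mod_cast K2_MM a b
  unfold rr
  refine ⟨by positivity, ?_⟩
  rw [div_le_div_iff₀ (by positivity) (by norm_num)]
  linarith

theorem M5_card (a : D) : (1 : ℝ) ≤ (Fintype.card D : ℝ) := by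
  have : 0 < Fintype.card D := Fintype.card_pos_iff.2 ⟨a⟩
  exact_mod_cast this

theorem M5_wpos {σ : ℝ → ℝ} {lj : ℤ → ℝ} {g1 g2 ν1 ν2 : ℝ → ℝ → ℝ} {nd : ℤ → ℤ → Prop} {K : ℝ}
    (h : Pat σ lj g1 g2 ν1 ν2 nd K) (H : Finset D) (b : D) (p : X × (D → ℝ)) (i : D) :
    0 ≤ wgt σ H b p i := by
  unfold wgt
  split_ifs
  · linarith [h.s1 (p.2 b)]
  · norm_num

theorem M5_sum {σ : ℝ → ℝ} {lj : ℤ → ℝ} {g1 g2 ν1 ν2 : ℝ → ℝ → ℝ} {nd : ℤ → ℤ → Prop} {K : ℝ}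
    (h : Pat σ lj g1 g2 ν1 ν2 nd K) (H : Finset D) (a b : D) (hab : a ≠ b) (ha : a ∉ H) (hb : b ∉ H)
    (p q q' : X × (D → ℝ)) (hq : |q.2 b - p.2 b| ≤ 1) (Δ : ℝ)
    (hΔ : ∀ i, i ≠ a → wgt σ (insert a H) b p i * |q.2 i - q'.2 i| ≤ Δ) :
    |cb σ H a b q.2 - cb σ H a b q'.2| ≤ 22 * (MM a b : ℝ) * (Fintype.card D : ℝ) * Δ := by
  have hM : (1 : ℝ) ≤ (MM a b : ℝ) := by exact_mod_cast K2_MM a b
  have hn := M5_card a
  have hwb := (M3_wa (X := X) σ H a b ha hb hab p).2.2.2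
  have h1 := hΔ b hab.symm
  rw [hwb, one_mul] at h1
  have hΔ0 : 0 ≤ Δ := (abs_nonneg _).trans h1
  have h2 : ∑ i : JJ a b, wgt σ (insert a H) b p i * |q.2 i - q'.2 i| ≤
      (Fintype.card D : ℝ) * Δ := by
    calc ∑ i : JJ a b, wgt σ (insert a H) b p i * |q.2 i - q'.2 i| ≤ ∑ _i : JJ a b, Δ :=
          Finset.sum_le_sum fun i _ => hΔ i i.2.1
      _ = (Fintype.card (JJ a b) : ℝ) * Δ := by
          rw [Finset.sum_const, Finset.card_univ, nsmul_eq_mul]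
      _ ≤ (Fintype.card D : ℝ) * Δ := by
          refine mul_le_mul_of_nonneg_right ?_ hΔ0
          exact_mod_cast Fintype.card_subtype_le _
  refine (M3_cb h H a b p q q' hq).trans ?_
  have h3 : 2 * (MM a b : ℝ) * |q.2 b - q'.2 b| ≤ 2 * (MM a b : ℝ) * Δ :=
    mul_le_mul_of_nonneg_left h1 (by linarith)
  have h4 : 20 * (MM a b : ℝ) * ∑ i : JJ a b, wgt σ (insert a H) b p i * |q.2 i - q'.2 i| ≤
      20 * (MM a b : ℝ) * ((Fintype.card D : ℝ) * Δ) :=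
    mul_le_mul_of_nonneg_left h2 (by linarith)
  have h5 : 2 * (MM a b : ℝ) * Δ ≤ 2 * (MM a b : ℝ) * ((Fintype.card D : ℝ) * Δ) := by
    refine mul_le_mul_of_nonneg_left ?_ (by linarith)
    exact le_mul_of_one_le_left hΔ0 hn
  calc _ ≤ 2 * (MM a b : ℝ) * ((Fintype.card D : ℝ) * Δ) +
        20 * (MM a b : ℝ) * ((Fintype.card D : ℝ) * Δ) := by linarith
    _ = 22 * (MM a b : ℝ) * (Fintype.card D : ℝ) * Δ := by ring

theorem M5_ball {σ : ℝ → ℝ} {lj : ℤ → ℝ} {g1 g2 ν1 ν2 : ℝ → ℝ → ℝ} {nd : ℤ → ℤ → Prop} {K : ℝ}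
    (h : Pat σ lj g1 g2 ν1 ν2 nd K) (H : Finset D) (a b : D) (hab : a ≠ b) (ha : a ∉ H) (hb : b ∉ H)
    (p q : X × (D → ℝ)) (hq : ‖sc (wgt σ (insert a H) b p) (q - p)‖ ≤ rr a b) :
    |q.2 b - p.2 b| ≤ rr a b ∧ σ (p.2 b) * |q.2 a - p.2 a| ≤ rr a b := by
  have hw := M3_wa (X := X) σ H a b ha hb hab p
  have h1 := (T0b_coord _ (M5_wpos h (insert a H) b p) (q - p) b).trans hq
  have h2 := (T0b_coord _ (M5_wpos h (insert a H) b p) (q - p) a).trans hq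
  rw [hw.2.2.2, one_mul] at h1
  rw [hw.2.2.1] at h2
  exact ⟨h1, h2⟩

theorem M5_form {σ : ℝ → ℝ} {lj : ℤ → ℝ} {g1 g2 ν1 ν2 : ℝ → ℝ → ℝ} {nd : ℤ → ℤ → Prop} {K : ℝ}
    (h : Pat σ lj g1 g2 ν1 ν2 nd K) (H : Finset D) (a b : D) (hab : a ≠ b) (ha : a ∉ H) (hb : b ∉ H)
    (p : X × (D → ℝ)) (hfl : ∀ s : ℝ, |s - p.2 b| ≤ rr a b → ⌊s⌋ = ⌊p.2 b⌋)
    (hv : ∀ c x : ℝ, (⌊p.2 b⌋ : ℝ) ≤ c → c ≤ ⌊p.2 b⌋ + 1 → σ (p.2 b) * |x - p.2 a| ≤ rr a b →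
      ν1 c x = 0 ∧ ν2 c x = 1 ∧ g2 c x = 0)
    (q : X × (D → ℝ)) (hq : ‖sc (wgt σ (insert a H) b p) (q - p)‖ ≤ rr a b) :
    (fold σ H a b g1 g2 ν1 ν2 q).1 = q.1 ∧
    (fold σ H a b g1 g2 ν1 ν2 q).2 a = g1 (cb σ H a b q.2) (q.2 a) ∧
    (∀ i, i ≠ a → (fold σ H a b g1 g2 ν1 ν2 q).2 i = q.2 i) := by
  obtain ⟨h1, h2⟩ := M5_ball h H a b hab ha hb p q hq
  have h3 := K3_mem σ H a b q.2
  rw [hfl _ h1] at h3
  obtain ⟨e1, e2, e3⟩ := hv _ _ h3.1 h3.2 h2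
  refine ⟨rfl, ?_, fun i hi => ?_⟩
  · simp only [fold, if_true, ph1, e1]; ring
  · simp only [fold, if_neg hi]
    by_cases hib : i = b
    · subst hib
      simp only [if_true, ph2, e2, e3]; ring
    · rw [if_neg hib]

theorem M5_ccpos {K : ℝ} (hK : 1 ≤ K) (a b : D) : 10 ^ 6 ≤ cc a b K ∧ 0 < cc a b K := by
  have := (M3_cc hK a b).1
  exact ⟨this, by linarith⟩

theorem M5_upp {σ : ℝ → ℝ} {lj : ℤ → ℝ} {g1 g2 ν1 ν2 : ℝ → ℝ → ℝ} {nd : ℤ → ℤ → Prop} {K : ℝ}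
    (h : Pat σ lj g1 g2 ν1 ν2 nd K) (H : Finset D) (a b : D) (hab : a ≠ b) (ha : a ∉ H) (hb : b ∉ H)
    (p : X × (D → ℝ)) (hfl : ∀ s : ℝ, |s - p.2 b| ≤ rr a b → ⌊s⌋ = ⌊p.2 b⌋)
    (hv : ∀ c x : ℝ, (⌊p.2 b⌋ : ℝ) ≤ c → c ≤ ⌊p.2 b⌋ + 1 → σ (p.2 b) * |x - p.2 a| ≤ rr a b →
      ν1 c x = 0 ∧ ν2 c x = 1 ∧ g2 c x = 0)
    (q q' : X × (D → ℝ)) (hq : ‖sc (wgt σ (insert a H) b p) (q - p)‖ ≤ rr a b)
    (hq' : ‖sc (wgt σ (insert a H) b p) (q' - p)‖ ≤ rr a b) :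
    ‖sc (wgt σ H b (fold σ H a b g1 g2 ν1 ν2 p)) (fold σ H a b g1 g2 ν1 ν2 q - fold σ H a b g1 g2 ν1 ν2 q')‖ ≤
      cc a b K * ‖sc (wgt σ (insert a H) b p) (q - q')‖ := by
  have hr := M5_rr a b
  have hC := M5_ccpos h.K1 a b
  have hM : (1 : ℝ) ≤ (MM a b : ℝ) := by exact_mod_cast K2_MM a b
  have hn := M5_card a
  have hK := h.K1
  obtain ⟨f1, f2, f3⟩ := M5_form h H a b hab ha hb p hfl hv q hq
  obtain ⟨f1', f2', f3'⟩ := M5_form h H a b hab ha hb p hfl hv q' hq'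
  have hb1 := (M5_ball h H a b hab ha hb p q hq).1
  have hw0 := M5_wpos h (insert a H) b p
  set N := ‖sc (wgt σ (insert a H) b p) (q - q')‖ with hN
  have hN0 : 0 ≤ N := norm_nonneg _
  have hcoord : ∀ i, wgt σ (insert a H) b p i * |q.2 i - q'.2 i| ≤ N := fun i =>
    T0b_coord _ hw0 (q - q') i
  have hCN : 0 ≤ cc a b K * N := mul_nonneg hC.2.le hN0
  refine (T0b_le _ (M5_wpos h H b _) _ _ hCN).2 ⟨?_, fun i => ?_⟩
  · have e : (fold σ H a b g1 g2 ν1 ν2 q - fold σ H a b g1 g2 ν1 ν2 q').1 = (q - q').1 := by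
      rw [Prod.fst_sub, f1, f1', Prod.fst_sub]
    rw [e]
    refine (T0b_fst (wgt σ (insert a H) b p) (q - q')).trans ?_
    nlinarith [hC.1]
  · by_cases hi : i = a
    · subst hi
      have hwa := (M3_wa (X := X) σ H i b ha hb hab (fold σ H i b g1 g2 ν1 ν2 p)).1
      have e : (fold σ H i b g1 g2 ν1 ν2 q - fold σ H i b g1 g2 ν1 ν2 q').2 i =
          g1 (cb σ H i b q.2) (q.2 i) - g1 (cb σ H i b q'.2) (q'.2 i) := by
        rw [Prod.snd_sub, Pi.sub_apply, f2, f2']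
      rw [hwa, one_mul, e]
      have h1 := (h.p1 (cb σ H i b q.2) (q.2 i) (q'.2 i)).1
      have h2 := (h.p2 (cb σ H i b q.2) (cb σ H i b q'.2) (q'.2 i)).1
      have h3 := M5_sum h H i b hab ha hb p q q' (hb1.trans (by linarith [hr.2])) N
        (fun j _ => hcoord j)
      have h4 := (M3_sig h H i b p q (hb1.trans (by linarith [hr.2]))).1
      have h5 := hcoord i
      rw [(M3_wa (X := X) σ H i b ha hb hab p).2.2.1] at h5
      have h6 : σ (cb σ H i b q.2) * |q.2 i - q'.2 i| ≤ 2 * N := by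
        calc _ ≤ (2 * σ (p.2 b)) * |q.2 i - q'.2 i| :=
              mul_le_mul_of_nonneg_right h4 (abs_nonneg _)
          _ ≤ 2 * N := by linarith
      have h7 : |g1 (cb σ H i b q.2) (q.2 i) - g1 (cb σ H i b q'.2) (q'.2 i)| ≤
          |g1 (cb σ H i b q.2) (q.2 i) - g1 (cb σ H i b q.2) (q'.2 i)| +
          |g1 (cb σ H i b q.2) (q'.2 i) - g1 (cb σ H i b q'.2) (q'.2 i)| := abs_sub_le _ _ _
      have h8 : K * (σ (cb σ H i b q.2) * |q.2 i - q'.2 i|) ≤ K * (2 * N) :=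
        mul_le_mul_of_nonneg_left h6 (by linarith)
      have h9 : K * |cb σ H i b q.2 - cb σ H i b q'.2| ≤
          K * (22 * (MM i b : ℝ) * (Fintype.card D : ℝ) * N) :=
        mul_le_mul_of_nonneg_left h3 (by linarith)
      have h10 : (1 : ℝ) ≤ (MM i b : ℝ) * (Fintype.card D : ℝ) := by nlinarith
      have h11 : K * N ≤ K * N * ((MM i b : ℝ) * (Fintype.card D : ℝ)) :=
        le_mul_of_one_le_right (by positivity) h10
      have h12 : 0 ≤ K * N * ((MM i b : ℝ) * (Fintype.card D : ℝ)) := by positivity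
      unfold cc
      nlinarith
    · have hw := (M3_w h H a b hab ha p i hi).1
      have e : (fold σ H a b g1 g2 ν1 ν2 q - fold σ H a b g1 g2 ν1 ν2 q').2 i = q.2 i - q'.2 i := by
        rw [Prod.snd_sub, Pi.sub_apply, f3 i hi, f3' i hi]
      rw [e]
      calc _ ≤ (2 * wgt σ (insert a H) b p i) * |q.2 i - q'.2 i| :=
            mul_le_mul_of_nonneg_right hw (abs_nonneg _)
        _ ≤ 2 * N := by linarith [hcoord i]
        _ ≤ cc a b K * N := by nlinarith [hC.1]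

theorem M5_low {σ : ℝ → ℝ} {lj : ℤ → ℝ} {g1 g2 ν1 ν2 : ℝ → ℝ → ℝ} {nd : ℤ → ℤ → Prop} {K : ℝ}
    (h : Pat σ lj g1 g2 ν1 ν2 nd K) (H : Finset D) (a b : D) (hab : a ≠ b) (ha : a ∉ H) (hb : b ∉ H)
    (p : X × (D → ℝ)) (hfl : ∀ s : ℝ, |s - p.2 b| ≤ rr a b → ⌊s⌋ = ⌊p.2 b⌋)
    (hv : ∀ c x : ℝ, (⌊p.2 b⌋ : ℝ) ≤ c → c ≤ ⌊p.2 b⌋ + 1 → σ (p.2 b) * |x - p.2 a| ≤ rr a b →
      ν1 c x = 0 ∧ ν2 c x = 1 ∧ g2 c x = 0)
    (q q' : X × (D → ℝ)) (hq : ‖sc (wgt σ (insert a H) b p) (q - p)‖ ≤ rr a b)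
    (hq' : ‖sc (wgt σ (insert a H) b p) (q' - p)‖ ≤ rr a b) :
    ‖sc (wgt σ (insert a H) b p) (q - q')‖ ≤ cc a b K *
      ‖sc (wgt σ H b (fold σ H a b g1 g2 ν1 ν2 p)) (fold σ H a b g1 g2 ν1 ν2 q - fold σ H a b g1 g2 ν1 ν2 q')‖ := by
  have hr := M5_rr a b
  have hC := M5_ccpos h.K1 a b
  have hM : (1 : ℝ) ≤ (MM a b : ℝ) := by exact_mod_cast K2_MM a b
  have hn := M5_card a
  have hK := h.K1
  obtain ⟨f1, f2, f3⟩ := M5_form h H a b hab ha hb p hfl hv q hq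
  obtain ⟨f1', f2', f3'⟩ := M5_form h H a b hab ha hb p hfl hv q' hq'
  obtain ⟨hb1, hb2⟩ := M5_ball h H a b hab ha hb p q hq
  obtain ⟨hb1', hb2'⟩ := M5_ball h H a b hab ha hb p q' hq'
  have hw0 := M5_wpos h H b (fold σ H a b g1 g2 ν1 ν2 p)
  set N := ‖sc (wgt σ H b (fold σ H a b g1 g2 ν1 ν2 p))
    (fold σ H a b g1 g2 ν1 ν2 q - fold σ H a b g1 g2 ν1 ν2 q')‖ with hN
  have hN0 : 0 ≤ N := norm_nonneg _
  have hcoord : ∀ i, wgt σ H b (fold σ H a b g1 g2 ν1 ν2 p) i *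
      |(fold σ H a b g1 g2 ν1 ν2 q - fold σ H a b g1 g2 ν1 ν2 q').2 i| ≤ N := fun i =>
    T0b_coord _ hw0 _ i
  have hoff : ∀ i, i ≠ a → wgt σ (insert a H) b p i * |q.2 i - q'.2 i| ≤ 2 * N := by
    intro i hi
    have hw := (M3_w h H a b hab ha p i hi).2
    have e : (fold σ H a b g1 g2 ν1 ν2 q - fold σ H a b g1 g2 ν1 ν2 q').2 i = q.2 i - q'.2 i := by
      rw [Prod.snd_sub, Pi.sub_apply, f3 i hi, f3' i hi]
    have h1 := hcoord i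
    rw [e] at h1
    calc _ ≤ (2 * wgt σ H b (fold σ H a b g1 g2 ν1 ν2 p) i) * |q.2 i - q'.2 i| :=
          mul_le_mul_of_nonneg_right hw (abs_nonneg _)
      _ ≤ 2 * N := by linarith
  have hCN : 0 ≤ cc a b K * N := mul_nonneg hC.2.le hN0
  refine (T0b_le _ (M5_wpos h (insert a H) b _) _ _ hCN).2 ⟨?_, fun i => ?_⟩
  · have e : (fold σ H a b g1 g2 ν1 ν2 q - fold σ H a b g1 g2 ν1 ν2 q').1 = (q - q').1 := by
      rw [Prod.fst_sub, f1, f1', Prod.fst_sub]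
    rw [← e]
    refine (T0b_fst (wgt σ H b (fold σ H a b g1 g2 ν1 ν2 p)) _).trans ?_
    nlinarith [hC.1]
  · by_cases hi : i = a
    · subst hi
      rw [(M3_wa (X := X) σ H i b ha hb hab p).2.2.1]
      show σ (p.2 b) * |q.2 i - q'.2 i| ≤ cc i b K * N
      have hwa := (M3_wa (X := X) σ H i b ha hb hab (fold σ H i b g1 g2 ν1 ν2 p)).1
      have h1 := hcoord i
      have e : (fold σ H i b g1 g2 ν1 ν2 q - fold σ H i b g1 g2 ν1 ν2 q').2 i =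
          g1 (cb σ H i b q.2) (q.2 i) - g1 (cb σ H i b q'.2) (q'.2 i) := by
        rw [Prod.snd_sub, Pi.sub_apply, f2, f2']
      rw [hwa, one_mul, e] at h1
      have h3 := M5_sum h H i b hab ha hb p q q' (hb1.trans (by linarith [hr.2])) (2 * N) hoff
      have h4 := M3_sig h H i b p q (hb1.trans (by linarith [hr.2]))
      have hcm := K3_mem σ H i b q.2
      rw [hfl _ hb1] at hcm
      have hf := hv (cb σ H i b q.2) (p.2 i) hcm.1 hcm.2 (by simp [hr.1.le])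
      have hs : ∀ x, σ (p.2 b) * |x - p.2 i| ≤ rr i b →
          σ (cb σ H i b q.2) * |x - p.2 i| ≤ 1 / 2 := by
        intro x hx
        calc _ ≤ (2 * σ (p.2 b)) * |x - p.2 i| := mul_le_mul_of_nonneg_right h4.1 (abs_nonneg _)
          _ ≤ 1 / 2 := by linarith [hr.2]
      have h5 := M2_low1 h (cb σ H i b q.2) (p.2 i) ⟨hf.1, hf.2.1⟩ (q.2 i) (q'.2 i)
        (hs _ hb2) (hs _ hb2')
      have h6 := (h.p2 (cb σ H i b q.2) (cb σ H i b q'.2) (q'.2 i)).1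
      have h7 : |g1 (cb σ H i b q.2) (q.2 i) - g1 (cb σ H i b q.2) (q'.2 i)| ≤
          |g1 (cb σ H i b q.2) (q.2 i) - g1 (cb σ H i b q'.2) (q'.2 i)| +
          |g1 (cb σ H i b q.2) (q'.2 i) - g1 (cb σ H i b q'.2) (q'.2 i)| := by
        rw [abs_sub_comm (g1 (cb σ H i b q.2) (q'.2 i))]
        exact abs_sub_le _ _ _
      have h8 : K * |cb σ H i b q.2 - cb σ H i b q'.2| ≤
          K * (22 * (MM i b : ℝ) * (Fintype.card D : ℝ) * (2 * N)) :=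
        mul_le_mul_of_nonneg_left h3 (by linarith)
      have h9 : σ (p.2 b) * |q.2 i - q'.2 i| ≤ 2 * (σ (cb σ H i b q.2) * |q.2 i - q'.2 i|) := by
        calc _ ≤ (2 * σ (cb σ H i b q.2)) * |q.2 i - q'.2 i| :=
              mul_le_mul_of_nonneg_right h4.2 (abs_nonneg _)
          _ = _ := by ring
      have h10 : (1 : ℝ) ≤ K * ((MM i b : ℝ) * (Fintype.card D : ℝ)) := by
        have : (1 : ℝ) ≤ (MM i b : ℝ) * (Fintype.card D : ℝ) := by nlinarith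
        nlinarith
      have h11 : N ≤ N * (K * ((MM i b : ℝ) * (Fintype.card D : ℝ))) :=
        le_mul_of_one_le_right hN0 h10
      have h12 : 0 ≤ N * (K * ((MM i b : ℝ) * (Fintype.card D : ℝ))) := by positivity
      unfold cc
      nlinarith
    · refine (hoff i hi).trans ?_
      nlinarith [hC.1]

theorem M5_surj {σ : ℝ → ℝ} {lj : ℤ → ℝ} {g1 g2 ν1 ν2 : ℝ → ℝ → ℝ} {nd : ℤ → ℤ → Prop} {K : ℝ}
    (h : Pat σ lj g1 g2 ν1 ν2 nd K) (H : Finset D) (a b : D) (hab : a ≠ b) (ha : a ∉ H) (hb : b ∉ H)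
    (p : X × (D → ℝ)) (hfl : ∀ s : ℝ, |s - p.2 b| ≤ rr a b → ⌊s⌋ = ⌊p.2 b⌋)
    (hv : ∀ c x : ℝ, (⌊p.2 b⌋ : ℝ) ≤ c → c ≤ ⌊p.2 b⌋ + 1 → σ (p.2 b) * |x - p.2 a| ≤ rr a b →
      ν1 c x = 0 ∧ ν2 c x = 1 ∧ g2 c x = 0)
    (w : X × (D → ℝ)) (hw : ‖sc (wgt σ H b (fold σ H a b g1 g2 ν1 ν2 p)) (w - fold σ H a b g1 g2 ν1 ν2 p)‖ ≤
      rr a b / cc a b K) :
    ∃ q : X × (D → ℝ), ‖sc (wgt σ (insert a H) b p) (q - p)‖ ≤ rr a b ∧ fold σ H a b g1 g2 ν1 ν2 q = w := by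
  have hr := M5_rr a b
  have hC := M5_ccpos h.K1 a b
  have hM : (1 : ℝ) ≤ (MM a b : ℝ) := by exact_mod_cast K2_MM a b
  have hn := M5_card a
  have hK := h.K1
  have hpp : ‖sc (wgt σ (insert a H) b p) (p - p)‖ ≤ rr a b := by rw [T0b_self]; exact hr.1.le
  obtain ⟨f1, f2, f3⟩ := M5_form h H a b hab ha hb p hfl hv p hpp
  have hw0 := M5_wpos h H b (fold σ H a b g1 g2 ν1 ν2 p)
  set τ := rr a b / cc a b K with hτ
  have hτ0 : 0 < τ := div_pos hr.1 hC.2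
  have hτ1 : cc a b K * τ = rr a b := by rw [hτ]; field_simp [hC.2.ne']
  have hτr : 2 * τ ≤ rr a b := by nlinarith [hC.1]
  have hcoord : ∀ i, wgt σ H b (fold σ H a b g1 g2 ν1 ν2 p) i *
      |w.2 i - (fold σ H a b g1 g2 ν1 ν2 p).2 i| ≤ τ := fun i =>
    (T0b_coord _ hw0 (w - fold σ H a b g1 g2 ν1 ν2 p) i).trans hw
  have hoff : ∀ i, i ≠ a → wgt σ (insert a H) b p i * |w.2 i - p.2 i| ≤ 2 * τ := by
    intro i hi
    have hwi := (M3_w h H a b hab ha p i hi).2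
    have h1 := hcoord i
    rw [f3 i hi] at h1
    calc _ ≤ (2 * wgt σ H b (fold σ H a b g1 g2 ν1 ν2 p) i) * |w.2 i - p.2 i| :=
          mul_le_mul_of_nonneg_right hwi (abs_nonneg _)
      _ ≤ 2 * τ := by linarith
  have hfst : ‖w.1 - p.1‖ ≤ τ := by
    have h1 := (T0b_fst (wgt σ H b (fold σ H a b g1 g2 ν1 ν2 p))
      (w - fold σ H a b g1 g2 ν1 ν2 p)).trans hw
    rw [Prod.fst_sub, f1] at h1
    exact h1
  -- the point z
  set z : X × (D → ℝ) := (w.1, fun i => if i = a then p.2 a else w.2 i) with hz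
  have hza : z.2 a = p.2 a := by simp [hz]
  have hzi : ∀ i, i ≠ a → z.2 i = w.2 i := fun i hi => by simp [hz, hi]
  have hwb := (M3_wa (X := X) σ H a b ha hb hab p).2.2.2
  have hzb : |z.2 b - p.2 b| ≤ 2 * τ := by
    have h1 := hoff b hab.symm
    rw [hwb, one_mul] at h1
    rw [hzi b hab.symm]; exact h1
  have hzb1 : |z.2 b - p.2 b| ≤ 1 := hzb.trans (by linarith [hr.2])
  set c := cb σ H a b z.2 with hc
  have hcm := K3_mem σ H a b z.2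
  rw [hfl _ (hzb.trans hτr)] at hcm
  have hcp : |c - cb σ H a b p.2| ≤ 22 * (MM a b : ℝ) * (Fintype.card D : ℝ) * (2 * τ) :=
    M5_sum h H a b hab ha hb p z p hzb1 (2 * τ) (fun i hi => by rw [hzi i hi]; exact hoff i hi)
  have hf := hv c (p.2 a) hcm.1 hcm.2 (by simp [hr.1.le])
  have hwa := (M3_wa (X := X) σ H a b ha hb hab (fold σ H a b g1 g2 ν1 ν2 p)).1
  have hgc : |w.2 a - g1 c (p.2 a)| ≤ (rr a b / 2) / 50 := by
    have h1 := hcoord a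
    rw [hwa, one_mul, f2] at h1
    have h2 := (h.p2 (cb σ H a b p.2) c (p.2 a)).1
    rw [abs_sub_comm (cb σ H a b p.2) c] at h2
    have h3 : |w.2 a - g1 c (p.2 a)| ≤ |w.2 a - g1 (cb σ H a b p.2) (p.2 a)| +
        |g1 (cb σ H a b p.2) (p.2 a) - g1 c (p.2 a)| := abs_sub_le _ _ _
    have h4 : K * |c - cb σ H a b p.2| ≤
        K * (22 * (MM a b : ℝ) * (Fintype.card D : ℝ) * (2 * τ)) :=
      mul_le_mul_of_nonneg_left hcp (by linarith)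
    have h10 : (1 : ℝ) ≤ K * ((MM a b : ℝ) * (Fintype.card D : ℝ)) := by
      have : (1 : ℝ) ≤ (MM a b : ℝ) * (Fintype.card D : ℝ) := by nlinarith
      nlinarith
    have h11 : τ ≤ τ * (K * ((MM a b : ℝ) * (Fintype.card D : ℝ))) :=
      le_mul_of_one_le_right hτ0.le h10
    have h12 : 10 ^ 6 * (τ * (K * ((MM a b : ℝ) * (Fintype.card D : ℝ)))) = rr a b := by
      rw [← hτ1]; unfold cc; ring
    nlinarith
  obtain ⟨x, hx1, hx2⟩ := M2_surj1 h c (p.2 a) ⟨hf.1, hf.2.1⟩ (rr a b / 2) (by linarith [hr.1])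
    (by linarith [hr.2]) (w.2 a) hgc
  set q : X × (D → ℝ) := (w.1, fun i => if i = a then x else w.2 i) with hqd
  have hqa : q.2 a = x := by simp [hqd]
  have hqi : ∀ i, i ≠ a → q.2 i = w.2 i := fun i hi => by simp [hqd, hi]
  have hcq : cb σ H a b q.2 = c :=
    K3_congr σ H a b hab q.2 z.2 fun i hi => by rw [hqi i hi, hzi i hi]
  have hsig := (M3_sig h H a b p z hzb1).2
  have hqball : ‖sc (wgt σ (insert a H) b p) (q - p)‖ ≤ rr a b := by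
    refine (T0b_le _ (M5_wpos h (insert a H) b _) _ _ hr.1.le).2 ⟨?_, fun i => ?_⟩
    · show ‖w.1 - p.1‖ ≤ rr a b
      linarith
    · by_cases hi : i = a
      · subst hi
        rw [(M3_wa (X := X) σ H i b ha hb hab p).2.2.1]
        show σ (p.2 b) * |q.2 i - p.2 i| ≤ rr i b
        rw [hqa]
        calc _ ≤ (2 * σ c) * |x - p.2 i| := mul_le_mul_of_nonneg_right hsig (abs_nonneg _)
          _ ≤ rr i b := by linarith
      · show wgt σ (insert a H) b p i * |q.2 i - p.2 i| ≤ rr a b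
        rw [hqi i hi]
        exact (hoff i hi).trans hτr
  refine ⟨q, hqball, ?_⟩
  obtain ⟨g1', g2', g3'⟩ := M5_form h H a b hab ha hb p hfl hv q hqball
  refine Prod.ext g1' ?_
  funext i
  by_cases hi : i = a
  · subst hi
    rw [g2', hcq, hqa, hx2]
  · rw [g3' i hi, hqi i hi]

end H80.LD

end S_H80_LD_M5
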