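import Mathlib
import Pool.Agent.H80.LM.G01

/-! MP_816883_ag: this file joins several modules (see the folders H80/LD, H24/LS) to save build time. -/

section S_H80_LD_P1

/-!
# P1: elementary facts on the piecewise linear functions

`cl` is the projection to `[0,1]`.  All statements by case distinction (`cl` by `K1_cl_zero`, `K1_cl_one`, `K1_cl_mid`).
* `T1f`: `0` for `u ≤ 1/10`; `20u-2` on `[1/10, 3/20]`; `1` on `[3/20, 1/5]`; `1 - 2 (10u - 2)` on `[1/5, 3/10]`; `-1` on `[3/10, 7/20]`; `20u - 8` on `[7/20, 2/5]`; `0` for `u ≥ 2/5`.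
* `P1_odd`: `cl (1 - x) = 1 - cl x` and `20 (1/2 - u) - 2 = 1 - (20 u - 7)`, `10 (1/2-u) - 2 = 1 - (10u - 2)`, `20(1/2-u) - 7 = 1 - (20u-2)`.
* Lipschitz with constant 20: piecewise linear; e.g. monotone pieces, or: `T1f u = min(...)`; simplest: `u ≤ v`; `cl` monotone and 1-Lipschitz; distinguish whether `10u - 2 ≤ 0`...: the slopes of the three terms are
  never active at the same time except `cl(20u-2)` constant.  Alternative: use `B0a`-type argument or the general lemma that a function which is `L`-Lipschitz on finitely many adjacent closed intervals covering `ℝ` is `L`-Lipschitz.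
* `P1_det`: `D1 ν2 - D2 ν1` with `D1 = α fp w - fm w`, `D2 = fs w`, `ν1 = - fs w`, `ν2 = 1 - 2|w| = fp w - fm w`, equals `α fp² + fm² + fs²` (`fp fm = 0`); for `|w| ≤ 1/2`: `fm = 0`, `|fs| = 1 - fp`; for `|w| ≥ 1/2`: `fp = 0`, `|fs| = 1 - fm`; `a² + (1-a)² ≥ 1/2`,
  `α ≥ 1/20`.
-/

open Filter Topology Metric Set MeasureTheory

namespace H80.LD

theorem P1_T_cases (u : ℝ) : (u ≤ 1 / 10 ∧ T1f u = 0) ∨ (1 / 10 ≤ u ∧ u ≤ 3 / 20 ∧ T1f u = 20 * u - 2) ∨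
    (3 / 20 ≤ u ∧ u ≤ 1 / 5 ∧ T1f u = 1) ∨ (1 / 5 ≤ u ∧ u ≤ 3 / 10 ∧ T1f u = 5 - 20 * u) ∨
    (3 / 10 ≤ u ∧ u ≤ 7 / 20 ∧ T1f u = -1) ∨ (7 / 20 ≤ u ∧ u ≤ 2 / 5 ∧ T1f u = 20 * u - 8) ∨
    (2 / 5 ≤ u ∧ T1f u = 0) := by
  rcases le_total u (1 / 10) with h1 | h1
  · left
    refine ⟨h1, ?_⟩
    unfold T1f
    rw [K1_cl_zero _ (by linarith), K1_cl_zero _ (by linarith), K1_cl_zero _ (by linarith)]
    norm_num
  right
  rcases le_total u (3 / 20) with h2 | h2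
  · left
    refine ⟨h1, h2, ?_⟩
    unfold T1f
    rw [K1_cl_mid (20 * u - 2) (by linarith) (by linarith), K1_cl_zero (10 * u - 2) (by linarith),
      K1_cl_zero (20 * u - 7) (by linarith)]
    ring
  right
  rcases le_total u (1 / 5) with h3 | h3
  · left
    refine ⟨h2, h3, ?_⟩
    unfold T1f
    rw [K1_cl_one (20 * u - 2) (by linarith), K1_cl_zero (10 * u - 2) (by linarith),
      K1_cl_zero (20 * u - 7) (by linarith)]
    ring
  right
  rcases le_total u (3 / 10) with h4 | h4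
  · left
    refine ⟨h3, h4, ?_⟩
    unfold T1f
    rw [K1_cl_one (20 * u - 2) (by linarith), K1_cl_mid (10 * u - 2) (by linarith) (by linarith),
      K1_cl_zero (20 * u - 7) (by linarith)]
    ring
  right
  rcases le_total u (7 / 20) with h5 | h5
  · left
    refine ⟨h4, h5, ?_⟩
    unfold T1f
    rw [K1_cl_one (20 * u - 2) (by linarith), K1_cl_one (10 * u - 2) (by linarith),
      K1_cl_zero (20 * u - 7) (by linarith)]
    ring
  right
  rcases le_total u (2 / 5) with h6 | h6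
  · left
    refine ⟨h5, h6, ?_⟩
    unfold T1f
    rw [K1_cl_one (20 * u - 2) (by linarith), K1_cl_one (10 * u - 2) (by linarith),
      K1_cl_mid (20 * u - 7) (by linarith) (by linarith)]
    ring
  right
  refine ⟨h6, ?_⟩
  unfold T1f
  rw [K1_cl_one (20 * u - 2) (by linarith), K1_cl_one (10 * u - 2) (by linarith),
    K1_cl_one (20 * u - 7) (by linarith)]
  norm_num

theorem P1_T_zero (u : ℝ) (h : u ≤ 1 / 10 ∨ 2 / 5 ≤ u) : T1f u = 0 := by
  unfold T1f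
  rcases h with h | h
  · rw [K1_cl_zero (20 * u - 2) (by linarith), K1_cl_zero (10 * u - 2) (by linarith),
      K1_cl_zero (20 * u - 7) (by linarith)]
    norm_num
  · rw [K1_cl_one (20 * u - 2) (by linarith), K1_cl_one (10 * u - 2) (by linarith),
      K1_cl_one (20 * u - 7) (by linarith)]
    norm_num

theorem P1_T_one (u : ℝ) (h : 3 / 20 ≤ u) (h' : u ≤ 1 / 5) : T1f u = 1 := by
  unfold T1f
  rw [K1_cl_one (20 * u - 2) (by linarith), K1_cl_zero (10 * u - 2) (by linarith),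
    K1_cl_zero (20 * u - 7) (by linarith)]
  norm_num

theorem P1_T_neg (u : ℝ) (h : 3 / 10 ≤ u) (h' : u ≤ 7 / 20) : T1f u = -1 := by
  unfold T1f
  rw [K1_cl_one (20 * u - 2) (by linarith), K1_cl_one (10 * u - 2) (by linarith),
    K1_cl_zero (20 * u - 7) (by linarith)]
  norm_num

theorem P1_T_abs (u : ℝ) : |T1f u| ≤ 1 := by
  rw [abs_le]
  rcases P1_T_cases u with h | h | h | h | h | h | h
  · rw [h.2]
    norm_num
  · rw [h.2.2]
    constructor <;> linarith [h.1, h.2.1]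
  · rw [h.2.2]
    norm_num
  · rw [h.2.2]
    constructor <;> linarith [h.1, h.2.1]
  · rw [h.2.2]
    norm_num
  · rw [h.2.2]
    constructor <;> linarith [h.1, h.2.1]
  · rw [h.2]
    norm_num

theorem P1_T_lip_aux (u v : ℝ) (huv : u ≤ v) :
    T1f v - T1f u ≤ 20 * (v - u) ∧ -(20 * (v - u)) ≤ T1f v - T1f u := by
  rcases P1_T_cases u with ⟨h1, h⟩ | ⟨h1, h2, h⟩ | ⟨h1, h2, h⟩ | ⟨h1, h2, h⟩ | ⟨h1, h2, h⟩ | ⟨h1, h2, h⟩ | ⟨h1, h⟩ <;>
  rcases P1_T_cases v with ⟨k1, k⟩ | ⟨k1, k2, k⟩ | ⟨k1, k2, k⟩ | ⟨k1, k2, k⟩ | ⟨k1, k2, k⟩ | ⟨k1, k2, k⟩ | ⟨k1, k⟩ <;>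
  rw [h, k] <;> constructor <;> linarith

theorem P1_T_lip (u v : ℝ) : |T1f u - T1f v| ≤ 20 * |u - v| := by
  rcases le_total u v with h | h
  · have := P1_T_lip_aux u v h
    rw [abs_sub_comm u v, abs_of_nonneg (sub_nonneg.2 h), abs_le]
    constructor <;> linarith [this.1, this.2]
  · have := P1_T_lip_aux v u h
    rw [abs_of_nonneg (sub_nonneg.2 h), abs_le]
    constructor <;> linarith [this.1, this.2]

theorem P1_cl_one_sub (x : ℝ) : cl (1 - x) = 1 - cl x := by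
  rcases le_total x 0 with h | h
  · rw [K1_cl_zero x h, K1_cl_one (1 - x) (by linarith)]
    norm_num
  rcases le_total x 1 with h' | h'
  · rw [K1_cl_mid x h h', K1_cl_mid (1 - x) (by linarith) (by linarith)]
  · rw [K1_cl_one x h', K1_cl_zero (1 - x) (by linarith)]
    norm_num

theorem P1_odd (u : ℝ) : T1f (1 / 2 - u) = -T1f u := by
  unfold T1f
  have e1 : 20 * (1 / 2 - u) - 2 = 1 - (20 * u - 7) := by ring
  have e2 : 10 * (1 / 2 - u) - 2 = 1 - (10 * u - 2) := by ring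
  have e3 : 20 * (1 / 2 - u) - 7 = 1 - (20 * u - 2) := by ring
  rw [e1, e2, e3, P1_cl_one_sub, P1_cl_one_sub, P1_cl_one_sub]
  ring

theorem P1_f_zero : fp 0 = 1 ∧ fm 0 = 0 ∧ fs 0 = 0 := by
  unfold fp fm fs
  refine ⟨?_, ?_, ?_⟩
  · rw [abs_zero]
    norm_num
  · rw [abs_zero]
    norm_num
  · rw [max_eq_right (by norm_num : (0 : ℝ) - 1 / 2 ≤ 0), max_eq_right (by norm_num : -(0 : ℝ) - 1 / 2 ≤ 0)]
    norm_num

theorem P1_f_one : fm 1 = 1 ∧ fm (-1) = 1 := by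
  unfold fm
  rw [abs_neg, abs_one]
  norm_num

theorem P1_fp_lip (u v : ℝ) : |fp u - fp v| ≤ 2 * |u - v| := by
  unfold fp
  rw [abs_le]
  simp only [max_def]
  have h1 := abs_abs_sub_abs_le_abs_sub u v
  rw [abs_le] at h1
  constructor
  · split_ifs <;> linarith [abs_nonneg (u - v)]
  · split_ifs <;> linarith [abs_nonneg (u - v)]

theorem P1_fm_lip (u v : ℝ) : |fm u - fm v| ≤ 2 * |u - v| := by
  unfold fm
  rw [abs_le]
  simp only [max_def]
  have h1 := abs_abs_sub_abs_le_abs_sub u v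
  rw [abs_le] at h1
  constructor
  · split_ifs <;> linarith [abs_nonneg (u - v)]
  · split_ifs <;> linarith [abs_nonneg (u - v)]

theorem P1_fs_cases (w : ℝ) : (w ≤ -(1 / 2) ∧ fs w = -2 - 2 * w) ∨ (-(1 / 2) ≤ w ∧ w ≤ 1 / 2 ∧ fs w = 2 * w) ∨
    (1 / 2 ≤ w ∧ fs w = 2 - 2 * w) := by
  unfold fs
  rcases le_total w (-(1 / 2)) with h | h
  · left
    refine ⟨h, ?_⟩
    rw [max_eq_right (by linarith : w - 1 / 2 ≤ 0), max_eq_left (by linarith : 0 ≤ -w - 1 / 2)]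
    ring
  rcases le_total w (1 / 2) with h' | h'
  · right
    left
    refine ⟨h, h', ?_⟩
    rw [max_eq_right (by linarith : w - 1 / 2 ≤ 0), max_eq_right (by linarith : -w - 1 / 2 ≤ 0)]
    ring
  · right
    right
    refine ⟨h', ?_⟩
    rw [max_eq_left (by linarith : 0 ≤ w - 1 / 2), max_eq_right (by linarith : -w - 1 / 2 ≤ 0)]
    ring

theorem P1_fs_lip_aux (u v : ℝ) (huv : u ≤ v) :
    fs v - fs u ≤ 2 * (v - u) ∧ -(2 * (v - u)) ≤ fs v - fs u := by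
  rcases P1_fs_cases u with ⟨h1, h⟩ | ⟨h1, h2, h⟩ | ⟨h1, h⟩ <;>
  rcases P1_fs_cases v with ⟨k1, k⟩ | ⟨k1, k2, k⟩ | ⟨k1, k⟩ <;>
  rw [h, k] <;> constructor <;> linarith

theorem P1_fs_lip (u v : ℝ) : |fs u - fs v| ≤ 2 * |u - v| := by
  rcases le_total u v with h | h
  · have := P1_fs_lip_aux u v h
    rw [abs_sub_comm u v, abs_of_nonneg (sub_nonneg.2 h), abs_le]
    constructor <;> linarith [this.1, this.2]
  · have := P1_fs_lip_aux v u h
    rw [abs_of_nonneg (sub_nonneg.2 h), abs_le]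
    constructor <;> linarith [this.1, this.2]

theorem P1_f_mem (w : ℝ) (hw : |w| ≤ 1) : 0 ≤ fp w ∧ fp w ≤ 1 ∧ 0 ≤ fm w ∧ fm w ≤ 1 ∧ |fs w| ≤ 1 := by
  have h0 := abs_nonneg w
  refine ⟨le_max_left _ _, ?_, le_max_left _ _, ?_, ?_⟩
  · unfold fp
    exact max_le (by norm_num) (by linarith)
  · unfold fm
    exact max_le (by norm_num) (by linarith)
  · rw [abs_le] at hw ⊢
    rcases P1_fs_cases w with ⟨h1, h⟩ | ⟨h1, h2, h⟩ | ⟨h1, h⟩ <;> rw [h] <;> constructor <;> linarith [hw.1, hw.2]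

theorem P1_fs_odd (w : ℝ) : fs (-w) = -fs w := by
  unfold fs
  rw [neg_neg]
  ring

/-- the values of the three functions in terms of `|w|` -/
theorem P1_vals (w : ℝ) (_hw : |w| ≤ 1) : (|w| ≤ 1 / 2 ∧ fp w = 1 - 2 * |w| ∧ fm w = 0 ∧ fs w ^ 2 = (2 * |w|) ^ 2) ∨
    (1 / 2 ≤ |w| ∧ fp w = 0 ∧ fm w = 2 * |w| - 1 ∧ fs w ^ 2 = (2 - 2 * |w|) ^ 2) := by
  rcases le_total |w| (1 / 2) with h | h
  · left
    refine ⟨h, ?_, ?_, ?_⟩
    · unfold fp
      exact max_eq_right (by linarith)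
    · unfold fm
      exact max_eq_left (by linarith)
    · have h' := abs_le.1 h
      rcases P1_fs_cases w with ⟨h1, k⟩ | ⟨h1, h2, k⟩ | ⟨h1, k⟩
      · have : w = -(1 / 2) := le_antisymm h1 h'.1
        rw [k, this]
        norm_num [abs_of_pos]
      · rw [k, mul_pow, mul_pow, sq_abs]
      · have : w = 1 / 2 := le_antisymm h'.2 h1
        rw [k, this]
        norm_num [abs_of_pos]
  · right
    refine ⟨h, ?_, ?_, ?_⟩
    · unfold fp
      exact max_eq_left (by linarith)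
    · unfold fm
      exact max_eq_right (by linarith)
    · rcases le_total 0 w with hw | hw
      · rw [abs_of_nonneg hw] at h ⊢
        rcases P1_fs_cases w with ⟨h1, k⟩ | ⟨h1, h2, k⟩ | ⟨h1, k⟩
        · exfalso
          linarith
        · have : w = 1 / 2 := le_antisymm h2 h
          rw [k, this]
          norm_num
        · rw [k]
      · rw [abs_of_nonpos hw] at h ⊢
        rcases P1_fs_cases w with ⟨h1, k⟩ | ⟨h1, h2, k⟩ | ⟨h1, k⟩
        · rw [k]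
          ring
        · have : w = -(1 / 2) := le_antisymm (by linarith) h1
          rw [k, this]
          norm_num
        · exfalso
          linarith

theorem P1_det (w α : ℝ) (hw : |w| ≤ 1) (hα : 1 / 20 ≤ α) :
    1 / 40 ≤ (α * fp w - fm w) * (1 - 2 * |w|) - fs w * (-fs w) := by
  have e : (α * fp w - fm w) * (1 - 2 * |w|) - fs w * (-fs w) =
      (α * fp w - fm w) * (1 - 2 * |w|) + fs w ^ 2 := by ring
  rw [e]
  rcases P1_vals w hw with ⟨h, h1, h2, h3⟩ | ⟨h, h1, h2, h3⟩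
  · rw [h1, h2, h3]
    have : 1 / 20 * (1 - 2 * |w|) ^ 2 ≤ α * (1 - 2 * |w|) ^ 2 :=
      mul_le_mul_of_nonneg_right hα (sq_nonneg _)
    nlinarith [sq_nonneg (21 * (2 * |w|) - 1)]
  · rw [h1, h2, h3]
    nlinarith [sq_nonneg (2 * |w| - 3 / 2)]

theorem P1_D (w α : ℝ) (hw : |w| ≤ 1) (hα : 0 ≤ α) (hα' : α ≤ 3) : |α * fp w - fm w| ≤ 3 := by
  rcases P1_vals w hw with ⟨h, h1, h2, h3⟩ | ⟨h, h1, h2, h3⟩
  · rw [h1, h2, abs_le]
    have h0 := abs_nonneg w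
    constructor
    · nlinarith
    · nlinarith
  · rw [h1, h2, abs_le]
    constructor <;> linarith

end H80.LD

end S_H80_LD_P1

section S_H80_LD_P2

/-!
# P2: the pattern in the cell and on the line

`A, θ ∈ [0,1]`, `u ∈ [0,1]`.  `T1f ((1+θ) u) ≠ 0` implies `(1 + θ) u < 2/5`, so `u < 2/5`; `T1f (2u - 1) ≠ 0` implies `2u - 1 > 1/10`, `u > 11/20`: at most one term is nonzero (`P2_disj`).
* `P2_abs`: `|WW| ≤ 1`.
* `P2_lip`: `|WW A θ u - WW A θ v| ≤ A (20 (1 + θ) + 40 θ) |u - v| ≤ 80 |u - v|`.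
* `P2_par`: `|WW A θ u - WW A' θ' u| ≤ 2 |A - A'| + 21 |θ - θ'|` for `u ∈ [0,1]`: `|A x - A' x'| ≤ |A - A'| |x| + |x - x'|`, `|x| ≤ 2`, `|x - x'| ≤ 20 |θ-θ'| u + |θ - θ'|`.
* `P2_zero`: `u ≤ 1/20`: `(1+θ) u ≤ 1/10`, `2u - 1 < 0`; `u ≥ 7/10`: `(1+θ) u ≥ 2/5`, `2u - 1 ≥ 2/5`; `2/5 ≤ u ≤ 11/20`: `(1+θ) u ≥ 2/5`, `2u - 1 ≤ 1/10`.
* `P2_pw_lip`: same floor: `P2_lip`; different floors `z < z'`: `|pw z| = |WW (fract z) - WW 1| ≤ 80 (1 - fract z)`, `|pw z'| = |WW (fract z') - WW 0| ≤ 80 fract z'`, and `1 - fract z + fract z' ≤ z' - z`.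
* `P2_pw_zero`: `-3/10 ≤ z - m ≤ 1/20`: `fract z ∈ [7/10, 1) ∪ [0, 1/20]`.
* `P2_double`: `pw A 1 z = pw A 0 (2 z)`: `f = fract z < 1/2`: `fract (2z) = 2f`, `WW A 1 f = A (T1f (2f) + T1f (2f-1))`, `T1f (2f - 1) = 0`; `f ≥ 1/2`: `fract (2 z) = 2f - 1`, `T1f (2f) = 0` (`2f ≥ 1`); `WW A 0 u = A T1f u`.
* `P2_amp0`: `WW 0 θ u = 0`.
-/

open Filter Topology Metric Set MeasureTheory

namespace H80.LD

theorem P2_disj (θ u : ℝ) (h0 : 0 ≤ θ) (h1 : θ ≤ 1) (hu : 0 ≤ u) :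
    T1f ((1 + θ) * u) = 0 ∨ T1f (2 * u - 1) = 0 := by
  rcases le_or_gt (2 / 5) u with h | h
  · left
    apply P1_T_zero
    right
    nlinarith
  · right
    apply P1_T_zero
    left
    linarith

theorem P2_abs (A θ u : ℝ) (hA : 0 ≤ A) (hA' : A ≤ 1) (h0 : 0 ≤ θ) (h1 : θ ≤ 1) (hu : 0 ≤ u) : |WW A θ u| ≤ 1 := by
  unfold WW
  have hx := P1_T_abs ((1 + θ) * u)
  have hy := P1_T_abs (2 * u - 1)
  rcases P2_disj θ u h0 h1 hu with h | h
  · rw [h, zero_add, abs_mul, abs_mul, abs_of_nonneg hA, abs_of_nonneg h0]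
    have h2 : θ * |T1f (2 * u - 1)| ≤ 1 := by
      calc θ * |T1f (2 * u - 1)| ≤ 1 * 1 := by gcongr
        _ = 1 := one_mul 1
    calc A * (θ * |T1f (2 * u - 1)|) ≤ 1 * 1 := by gcongr
      _ = 1 := one_mul 1
  · rw [h, mul_zero, add_zero, abs_mul, abs_of_nonneg hA]
    calc A * |T1f ((1 + θ) * u)| ≤ 1 * 1 := by gcongr
      _ = 1 := one_mul 1

theorem P2_lip (A θ u v : ℝ) (hA : 0 ≤ A) (hA' : A ≤ 1) (h0 : 0 ≤ θ) (h1 : θ ≤ 1) :
    |WW A θ u - WW A θ v| ≤ 80 * |u - v| := by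
  unfold WW
  have hx := P1_T_lip ((1 + θ) * u) ((1 + θ) * v)
  have hy := P1_T_lip (2 * u - 1) (2 * v - 1)
  have e1 : (1 + θ) * u - (1 + θ) * v = (1 + θ) * (u - v) := by ring
  have e2 : 2 * u - 1 - (2 * v - 1) = 2 * (u - v) := by ring
  rw [e1, abs_mul, abs_of_nonneg (by linarith : (0 : ℝ) ≤ 1 + θ)] at hx
  rw [e2, abs_mul, abs_of_pos (by norm_num : (0 : ℝ) < 2)] at hy
  have e3 : A * (T1f ((1 + θ) * u) + θ * T1f (2 * u - 1)) - A * (T1f ((1 + θ) * v) + θ * T1f (2 * v - 1)) =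
      A * ((T1f ((1 + θ) * u) - T1f ((1 + θ) * v)) + θ * (T1f (2 * u - 1) - T1f (2 * v - 1))) := by ring
  rw [e3, abs_mul, abs_of_nonneg hA]
  have h2 : |(T1f ((1 + θ) * u) - T1f ((1 + θ) * v)) + θ * (T1f (2 * u - 1) - T1f (2 * v - 1))| ≤
      80 * |u - v| := by
    refine (abs_add_le _ _).trans ?_
    rw [abs_mul, abs_of_nonneg h0]
    have h3 : (1 + θ) * |u - v| ≤ 2 * |u - v| := by
      have := abs_nonneg (u - v)
      gcongr
      linarith
    have h4 : θ * |T1f (2 * u - 1) - T1f (2 * v - 1)| ≤ 1 * (20 * (2 * |u - v|)) := by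
      gcongr
    linarith
  calc A * |(T1f ((1 + θ) * u) - T1f ((1 + θ) * v)) + θ * (T1f (2 * u - 1) - T1f (2 * v - 1))|
      ≤ 1 * (80 * |u - v|) := by gcongr
    _ = 80 * |u - v| := one_mul _

theorem P2_par (A A' θ θ' u : ℝ) (hA : 0 ≤ A) (hA1 : A ≤ 1) (h0' : 0 ≤ θ') (h1' : θ' ≤ 1) (h0 : 0 ≤ θ) (h1 : θ ≤ 1)
    (hu : 0 ≤ u) (hu' : u ≤ 1) (hA' : 0 ≤ A') (hA1' : A' ≤ 1) :
    |WW A θ u - WW A' θ' u| ≤ 2 * |A - A'| + 21 * |θ - θ'| := by
  unfold WW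
  have hx := P1_T_abs ((1 + θ) * u)
  have hy := P1_T_abs (2 * u - 1)
  have hl := P1_T_lip ((1 + θ) * u) ((1 + θ') * u)
  have e1 : (1 + θ) * u - (1 + θ') * u = (θ - θ') * u := by ring
  rw [e1, abs_mul, abs_of_nonneg hu] at hl
  have e3 : A * (T1f ((1 + θ) * u) + θ * T1f (2 * u - 1)) - A' * (T1f ((1 + θ') * u) + θ' * T1f (2 * u - 1)) =
      (A - A') * (T1f ((1 + θ) * u) + θ * T1f (2 * u - 1)) +
        A' * ((T1f ((1 + θ) * u) - T1f ((1 + θ') * u)) + (θ - θ') * T1f (2 * u - 1)) := by ring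
  rw [e3]
  refine (abs_add_le _ _).trans ?_
  rw [abs_mul, abs_mul, abs_of_nonneg hA']
  have h2 : |T1f ((1 + θ) * u) + θ * T1f (2 * u - 1)| ≤ 2 := by
    refine (abs_add_le _ _).trans ?_
    rw [abs_mul, abs_of_nonneg h0]
    have : θ * |T1f (2 * u - 1)| ≤ 1 * 1 := by gcongr
    linarith
  have h3 : |(T1f ((1 + θ) * u) - T1f ((1 + θ') * u)) + (θ - θ') * T1f (2 * u - 1)| ≤
      21 * |θ - θ'| := by
    refine (abs_add_le _ _).trans ?_
    rw [abs_mul]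
    have h4 : |θ - θ'| * |T1f (2 * u - 1)| ≤ |θ - θ'| * 1 := by gcongr
    have h5 : |θ - θ'| * u ≤ |θ - θ'| * 1 := by gcongr
    linarith
  have h6 : |A - A'| * |T1f ((1 + θ) * u) + θ * T1f (2 * u - 1)| ≤ |A - A'| * 2 := by gcongr
  have h7 : A' * |(T1f ((1 + θ) * u) - T1f ((1 + θ') * u)) + (θ - θ') * T1f (2 * u - 1)| ≤
      1 * (21 * |θ - θ'|) := by gcongr
  linarith

theorem P2_zero (A θ u : ℝ) (h0 : 0 ≤ θ) (h1 : θ ≤ 1) (hu : 0 ≤ u)
    (h : u ≤ 1 / 20 ∨ 7 / 10 ≤ u ∨ (2 / 5 ≤ u ∧ u ≤ 11 / 20)) : WW A θ u = 0 := by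
  have hθ : (1 + θ) * u ≤ 2 * u := by nlinarith
  have hθ' : u ≤ (1 + θ) * u := by nlinarith
  have hx : T1f ((1 + θ) * u) = 0 := by
    apply P1_T_zero
    rcases h with h | h | ⟨h, h'⟩
    · left; linarith
    · right; linarith
    · right; linarith
  have hy : T1f (2 * u - 1) = 0 := by
    apply P1_T_zero
    rcases h with h | h | ⟨h, h'⟩
    · left; linarith
    · right; linarith
    · left; linarith
  unfold WW
  rw [hx, hy, mul_zero, add_zero, mul_zero]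

theorem P2_pw_abs (A θ z : ℝ) (hA : 0 ≤ A) (hA' : A ≤ 1) (h0 : 0 ≤ θ) (h1 : θ ≤ 1) : |pw A θ z| ≤ 1 :=
  P2_abs A θ (Int.fract z) hA hA' h0 h1 (Int.fract_nonneg z)

private theorem P2_pw_lip_aux (A θ z z' : ℝ) (hA : 0 ≤ A) (hA' : A ≤ 1) (h0 : 0 ≤ θ) (h1 : θ ≤ 1)
    (hzz : z ≤ z') : |pw A θ z - pw A θ z'| ≤ 80 * |z - z'| := by
  unfold pw
  have hfl : ⌊z⌋ ≤ ⌊z'⌋ := Int.floor_le_floor hzz
  rcases hfl.eq_or_lt with h | h
  · have e : Int.fract z - Int.fract z' = z - z' := by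
      unfold Int.fract
      rw [h]
      ring
    have := P2_lip A θ (Int.fract z) (Int.fract z') hA hA' h0 h1
    rwa [e] at this
  · have h3 : (⌊z⌋ : ℝ) + 1 ≤ ⌊z'⌋ := by exact_mod_cast h
    have e1 : Int.fract z = z - ⌊z⌋ := rfl
    have e2 : Int.fract z' = z' - ⌊z'⌋ := rfl
    have l1 := P2_lip A θ (Int.fract z) 1 hA hA' h0 h1
    have l2 := P2_lip A θ (Int.fract z') 0 hA hA' h0 h1
    rw [P2_zero A θ 1 h0 h1 (by norm_num) (Or.inr (Or.inl (by norm_num))), sub_zero,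
      abs_sub_comm (Int.fract z) 1,
      abs_of_nonneg (by have := (Int.fract_lt_one z).le; linarith : (0 : ℝ) ≤ 1 - Int.fract z)] at l1
    rw [P2_zero A θ 0 h0 h1 le_rfl (Or.inl (by norm_num)), sub_zero, sub_zero,
      abs_of_nonneg (Int.fract_nonneg z')] at l2
    have h4 := abs_sub_le (WW A θ (Int.fract z)) 0 (WW A θ (Int.fract z'))
    rw [sub_zero, zero_sub, abs_neg] at h4
    rw [abs_sub_comm z z', abs_of_nonneg (by linarith : (0 : ℝ) ≤ z' - z)]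
    rw [e1] at l1
    rw [e2] at l2
    rw [e1, e2] at h4 ⊢
    linarith

theorem P2_pw_lip (A θ z z' : ℝ) (hA : 0 ≤ A) (hA' : A ≤ 1) (h0 : 0 ≤ θ) (h1 : θ ≤ 1) :
    |pw A θ z - pw A θ z'| ≤ 80 * |z - z'| := by
  rcases le_total z z' with h | h
  · exact P2_pw_lip_aux A θ z z' hA hA' h0 h1 h
  · rw [abs_sub_comm, abs_sub_comm z z']
    exact P2_pw_lip_aux A θ z' z hA hA' h0 h1 h

theorem P2_pw_zero (A θ z : ℝ) (m : ℤ) (h0 : 0 ≤ θ) (h1 : θ ≤ 1) (h : -(3 / 10) ≤ z - m) (h' : z - m ≤ 1 / 20) :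
    pw A θ z = 0 := by
  unfold pw
  rcases le_or_gt 0 (z - m) with h2 | h2
  · have e : Int.fract z = z - m := by
      rw [Int.fract_eq_iff]
      exact ⟨h2, by linarith, m, by ring⟩
    rw [e]
    exact P2_zero A θ _ h0 h1 h2 (Or.inl h')
  · have e : Int.fract z = z - m + 1 := by
      rw [Int.fract_eq_iff]
      refine ⟨by linarith, by linarith, m - 1, ?_⟩
      push_cast
      ring
    rw [e]
    exact P2_zero A θ _ h0 h1 (by linarith) (Or.inr (Or.inl (by linarith)))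

theorem P2_pw_per (A θ z : ℝ) (m : ℤ) : pw A θ (z + m) = pw A θ z := by
  unfold pw
  rw [Int.fract_add_intCast]

theorem P2_pw_unit (A θ u : ℝ) (h0 : 0 ≤ θ) (h1 : θ ≤ 1) (hu : 0 ≤ u) (hu' : u ≤ 1) : pw A θ u = WW A θ u := by
  unfold pw
  rcases hu'.eq_or_lt with h | h
  · rw [h, Int.fract_one, P2_zero A θ 0 h0 h1 le_rfl (Or.inl (by norm_num)),
      P2_zero A θ 1 h0 h1 zero_le_one (Or.inr (Or.inl (by norm_num)))]
  · rw [Int.fract_eq_self.2 ⟨hu, h⟩]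

theorem P2_double (A z : ℝ) : pw A 1 z = pw A 0 (2 * z) := by
  unfold pw WW
  have hf0 := Int.fract_nonneg z
  have hf1 := Int.fract_lt_one z
  have hz : z = ⌊z⌋ + Int.fract z := (Int.floor_add_fract z).symm
  rcases lt_or_ge (Int.fract z) (1 / 2) with h | h
  · have e : Int.fract (2 * z) = 2 * Int.fract z := by
      rw [Int.fract_eq_iff]
      refine ⟨by linarith, by linarith, 2 * ⌊z⌋, ?_⟩
      push_cast
      linarith
    rw [e, P1_T_zero (2 * Int.fract z - 1) (Or.inl (by linarith))]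
    norm_num
  · have e : Int.fract (2 * z) = 2 * Int.fract z - 1 := by
      rw [Int.fract_eq_iff]
      refine ⟨by linarith, by linarith, 2 * ⌊z⌋ + 1, ?_⟩
      push_cast
      linarith
    rw [e, P1_T_zero ((1 + 1) * Int.fract z) (Or.inr (by linarith))]
    norm_num

theorem P2_amp0 (θ z : ℝ) : pw 0 θ z = 0 := by
  unfold pw WW
  rw [zero_mul]

end H80.LD

end S_H80_LD_P2

section S_H80_LD_E1

/-!
# E1: tapering across a moving wall, from the core theorem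

Given `L, η, l` apply `CoreStmt` with `L₁ = (1 + l)^2 L`: `R, ε₁, C₁`.  Put `s = (1 + l) R / η`, `a = s (1 + l)`, `b = (1 + l) / s`, `ε₀ = ε₁ / a`, `C = (1 + l)^2 C₁`.
For a wall `w` (`Lipw l w`): `Φ (c, y) = (s • c, s • (y with y t replaced by y t - w c))`, `Φ' (c, y) = (s⁻¹ • c, s⁻¹ • y with w (s⁻¹ • c) added to the coordinate t)`.  `Φ' Φ = id = Φ Φ'`, `‖Φ p - Φ q‖ ≤ a ‖p - q‖`, `‖Φ' p - Φ' q‖ ≤ b ‖p - q‖`, fibre preserving.
`B0b_conj`: `NP (a ε) (a b L)` on `{p | Φ' p ∈ U}`, `a b = (1 + l)^2`.  Core gives `G, G'`; `F p = Φ' (G (Φ p))`, `F' p = Φ' (G' (Φ p))`; `B0b_conj` with `Φ'`, `Φ`: `NP (b C₁ a ε) (a b C₁)` on `{p | Φ p ∈ (core set)}`.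
`(Φ p).2 t = s (p.2 t - w p.1)`.
* `p.2 t < w p.1`, `p ∈ U`: `(Φ p).2 t < 0`, `Φ' (Φ p) ∈ U`.  `closedBall p η ⊆ U`: for `q ∈ closedBall (Φ p) R`: `‖Φ' q - p‖ ≤ b R = η`.  `w p.1 + η < p.2 t`: `(Φ p).2 t > s η = (1 + l) R ≥ R`.
* values: `p.2 t ≤ w p.1`: `(Φ p).2 t ≤ 0`, `G (Φ p) = Φ (e (Φ' (Φ p)))`.  `w p.1 + η ≤ p.2 t`: `R ≤ (Φ p).2 t`.  Identity: the conjugated pair is the identity on `closedBall (Φ p) R`.
-/

open Filter Topology Metric Set

namespace H80.LD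

open Classical in
/-- straightening and dilating the wall -/
noncomputable def E1_Phi {X D : Type} [NormedAddCommGroup X] [NormedSpace ℝ X] (s : ℝ) (w : X → ℝ) (t : D)
    (p : X × (D → ℝ)) : X × (D → ℝ) := (s • p.1, fun i => s * (p.2 i - if i = t then w p.1 else 0))

open Classical in
/-- the inverse of the straightening -/
noncomputable def E1_Psi {X D : Type} [NormedAddCommGroup X] [NormedSpace ℝ X] (s : ℝ) (w : X → ℝ) (t : D)
    (p : X × (D → ℝ)) : X × (D → ℝ) :=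
  (s⁻¹ • p.1, fun i => s⁻¹ * p.2 i + if i = t then w (s⁻¹ • p.1) else 0)

theorem E1_Psi_Phi {X D : Type} [NormedAddCommGroup X] [NormedSpace ℝ X] {s : ℝ} (hs : 0 < s) (w : X → ℝ) (t : D)
    (p : X × (D → ℝ)) : E1_Psi s w t (E1_Phi s w t p) = p := by
  have h1 : s⁻¹ • s • p.1 = p.1 := by
    rw [smul_smul, inv_mul_cancel₀ hs.ne', one_smul]
  unfold E1_Psi E1_Phi
  refine Prod.ext h1 ?_
  funext i
  simp only [h1]
  field_simp
  ring

theorem E1_Phi_Psi {X D : Type} [NormedAddCommGroup X] [NormedSpace ℝ X] {s : ℝ} (hs : 0 < s) (w : X → ℝ) (t : D)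
    (p : X × (D → ℝ)) : E1_Phi s w t (E1_Psi s w t p) = p := by
  have h1 : s • s⁻¹ • p.1 = p.1 := by
    rw [smul_smul, mul_inv_cancel₀ hs.ne', one_smul]
  unfold E1_Psi E1_Phi
  refine Prod.ext h1 ?_
  funext i
  simp only []
  rw [add_sub_cancel_right, ← mul_assoc, mul_inv_cancel₀ hs.ne', one_mul]

theorem E1_Phi_t {X D : Type} [NormedAddCommGroup X] [NormedSpace ℝ X] (s : ℝ) (w : X → ℝ) (t : D)
    (p : X × (D → ℝ)) : (E1_Phi s w t p).2 t = s * (p.2 t - w p.1) := by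
  unfold E1_Phi
  simp

theorem E1_fst_le {X D : Type} [NormedAddCommGroup X] [Fintype D] (p q : X × (D → ℝ)) :
    ‖p.1 - q.1‖ ≤ ‖p - q‖ := norm_fst_le (p - q)

theorem E1_snd_le {X D : Type} [NormedAddCommGroup X] [Fintype D] (p q : X × (D → ℝ)) (i : D) :
    |p.2 i - q.2 i| ≤ ‖p - q‖ := by
  have h1 := norm_le_pi_norm (p - q).2 i
  have h2 := norm_snd_le (p - q)
  have h3 : ‖(p - q).2 i‖ = |p.2 i - q.2 i| := by
    rw [Real.norm_eq_abs]
    rfl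
  linarith

theorem E1_Phi_lip {X D : Type} [NormedAddCommGroup X] [NormedSpace ℝ X] [Fintype D] {s l : ℝ} (hs : 0 < s)
    (hl : 0 ≤ l) (w : X → ℝ) (hw : Lipw l w) (t : D) (p q : X × (D → ℝ)) :
    ‖E1_Phi s w t p - E1_Phi s w t q‖ ≤ s * (1 + l) * ‖p - q‖ := by
  classical
  have h1 := E1_fst_le p q
  have h0 : 0 ≤ ‖p - q‖ := norm_nonneg _
  have h2 := hw p.1 q.1
  rw [Prod.norm_def]
  refine max_le ?_ ?_
  · have e : (E1_Phi s w t p - E1_Phi s w t q).1 = s • (p.1 - q.1) := by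
      show s • p.1 - s • q.1 = _
      rw [smul_sub]
    rw [e, norm_smul, Real.norm_of_nonneg hs.le]
    have h3 : s * ‖p.1 - q.1‖ ≤ s * ‖p - q‖ := mul_le_mul_of_nonneg_left h1 hs.le
    have h4 : 0 ≤ s * (l * ‖p - q‖) := by positivity
    nlinarith
  · refine (pi_norm_le_iff_of_nonneg (by positivity)).2 fun i => ?_
    have h3 := E1_snd_le p q i
    have h5 : l * ‖p.1 - q.1‖ ≤ l * ‖p - q‖ := mul_le_mul_of_nonneg_left h1 hl
    by_cases hi : i = t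
    · have e : (E1_Phi s w t p - E1_Phi s w t q).2 i = s * ((p.2 i - q.2 i) - (w p.1 - w q.1)) := by
        show s * (p.2 i - if i = t then w p.1 else 0) - s * (q.2 i - if i = t then w q.1 else 0) = _
        rw [if_pos hi, if_pos hi]
        ring
      rw [e, norm_mul, Real.norm_of_nonneg hs.le, Real.norm_eq_abs]
      have h4 : |(p.2 i - q.2 i) - (w p.1 - w q.1)| ≤ (1 + l) * ‖p - q‖ := by
        have := abs_sub (p.2 i - q.2 i) (w p.1 - w q.1)
        linarith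
      rw [mul_assoc]
      exact mul_le_mul_of_nonneg_left h4 hs.le
    · have e : (E1_Phi s w t p - E1_Phi s w t q).2 i = s * (p.2 i - q.2 i) := by
        show s * (p.2 i - if i = t then w p.1 else 0) - s * (q.2 i - if i = t then w q.1 else 0) = _
        rw [if_neg hi, if_neg hi]
        ring
      rw [e, norm_mul, Real.norm_of_nonneg hs.le, Real.norm_eq_abs, mul_assoc]
      refine mul_le_mul_of_nonneg_left ?_ hs.le
      have : 0 ≤ l * ‖p - q‖ := by positivity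
      linarith

theorem E1_Psi_lip {X D : Type} [NormedAddCommGroup X] [NormedSpace ℝ X] [Fintype D] {s l : ℝ} (hs : 0 < s)
    (hl : 0 ≤ l) (w : X → ℝ) (hw : Lipw l w) (t : D) (p q : X × (D → ℝ)) :
    ‖E1_Psi s w t p - E1_Psi s w t q‖ ≤ (1 + l) / s * ‖p - q‖ := by
  classical
  have h1 := E1_fst_le p q
  have h0 : 0 ≤ ‖p - q‖ := norm_nonneg _
  have hi0 : 0 < s⁻¹ := inv_pos.2 hs
  have hb : (1 + l) / s = s⁻¹ * (1 + l) := by rw [div_eq_mul_inv, mul_comm]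
  have h2 := hw (s⁻¹ • p.1) (s⁻¹ • q.1)
  have h2' : ‖s⁻¹ • p.1 - s⁻¹ • q.1‖ = s⁻¹ * ‖p.1 - q.1‖ := by
    rw [← smul_sub, norm_smul, Real.norm_of_nonneg hi0.le]
  rw [h2'] at h2
  rw [hb, Prod.norm_def]
  refine max_le ?_ ?_
  · have e : (E1_Psi s w t p - E1_Psi s w t q).1 = s⁻¹ • p.1 - s⁻¹ • q.1 := rfl
    rw [e, h2']
    have h3 : s⁻¹ * ‖p.1 - q.1‖ ≤ s⁻¹ * ‖p - q‖ := mul_le_mul_of_nonneg_left h1 hi0.le
    have h4 : 0 ≤ s⁻¹ * (l * ‖p - q‖) := by positivity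
    nlinarith
  · refine (pi_norm_le_iff_of_nonneg (by positivity)).2 fun i => ?_
    have h3 := E1_snd_le p q i
    have h5 : l * (s⁻¹ * ‖p.1 - q.1‖) ≤ l * (s⁻¹ * ‖p - q‖) :=
      mul_le_mul_of_nonneg_left (mul_le_mul_of_nonneg_left h1 hi0.le) hl
    have h6 : s⁻¹ * |p.2 i - q.2 i| ≤ s⁻¹ * ‖p - q‖ := mul_le_mul_of_nonneg_left h3 hi0.le
    by_cases hi : i = t
    · have e : (E1_Psi s w t p - E1_Psi s w t q).2 i
          = s⁻¹ * (p.2 i - q.2 i) + (w (s⁻¹ • p.1) - w (s⁻¹ • q.1)) := by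
        show (s⁻¹ * p.2 i + if i = t then w (s⁻¹ • p.1) else 0)
          - (s⁻¹ * q.2 i + if i = t then w (s⁻¹ • q.1) else 0) = _
        rw [if_pos hi, if_pos hi]
        ring
      rw [e, Real.norm_eq_abs]
      have h7 := abs_add_le (s⁻¹ * (p.2 i - q.2 i)) (w (s⁻¹ • p.1) - w (s⁻¹ • q.1))
      rw [abs_mul, abs_of_pos hi0] at h7
      linarith
    · have e : (E1_Psi s w t p - E1_Psi s w t q).2 i = s⁻¹ * (p.2 i - q.2 i) := by
        show (s⁻¹ * p.2 i + if i = t then w (s⁻¹ • p.1) else 0)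
          - (s⁻¹ * q.2 i + if i = t then w (s⁻¹ • q.1) else 0) = _
        rw [if_neg hi, if_neg hi]
        ring
      rw [e, norm_mul, Real.norm_of_nonneg hi0.le, Real.norm_eq_abs]
      have h4 : 0 ≤ s⁻¹ * (l * ‖p - q‖) := by positivity
      linarith

theorem E1_ht (X : Type) [NormedAddCommGroup X] [NormedSpace ℝ X] (D : Type) [Fintype D] (t : D)
    (h : CoreStmt X D t) : HTStmt X D t := by
  intro L hL η hη l hl
  have h1l : (1 : ℝ) ≤ 1 + l := by linarith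
  have h1l2 : (1 : ℝ) ≤ (1 + l) ^ 2 := one_le_pow₀ h1l
  have hL1 : (1 : ℝ) ≤ (1 + l) ^ 2 * L := by nlinarith
  obtain ⟨R, hR, ε₁, hε₁, C₁, hC₁, hcore⟩ := h ((1 + l) ^ 2 * L) hL1
  have hR0 : 0 < R := by linarith
  set s : ℝ := (1 + l) * R / η with hs
  have hs0 : 0 < s := by positivity
  set a : ℝ := s * (1 + l) with ha
  have ha0 : 0 < a := by positivity
  set b : ℝ := (1 + l) / s with hb
  have hb0 : 0 < b := by positivity
  have hab : a * b = (1 + l) ^ 2 := by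
    rw [ha, hb]
    field_simp
  have hsη : s * η = (1 + l) * R := by
    rw [hs]
    field_simp
  have hbR : b * R = η := by
    rw [hb, hs]
    field_simp
  refine ⟨ε₁ / a, by positivity, (1 + l) ^ 2 * C₁, by nlinarith, ?_⟩
  intro ε hε hεle U e e' w hw hNP
  have hconj := B0b_conj hNP ha0.le hb0.le (by linarith) (E1_Phi s w t) (E1_Psi s w t)
    (E1_Psi_Phi hs0 w t) (E1_Phi_Psi hs0 w t) (E1_Phi_lip hs0 hl w hw t) (E1_Psi_lip hs0 hl w hw t)
    (fun p q hpq => by show s • p.1 = s • q.1; rw [hpq])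
  rw [hab] at hconj
  have haε : a * ε ≤ ε₁ := by
    rw [le_div_iff₀ ha0] at hεle
    linarith
  obtain ⟨G, G', hG, hG1, hG2, hG3⟩ := hcore (a * ε) (by positivity) haε _ _ _ hconj
  have hfin := B0b_conj hG hb0.le ha0.le (by linarith) (E1_Psi s w t) (E1_Phi s w t)
    (E1_Phi_Psi hs0 w t) (E1_Psi_Phi hs0 w t) (E1_Psi_lip hs0 hl w hw t) (E1_Phi_lip hs0 hl w hw t)
    (fun p q hpq => by show s⁻¹ • p.1 = s⁻¹ • q.1; rw [hpq])
  have hball : ∀ p : X × (D → ℝ), ∀ q ∈ closedBall (E1_Phi s w t p) R, E1_Psi s w t q ∈ closedBall p η := by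
    intro p q hq
    rw [mem_closedBall, dist_eq_norm] at hq ⊢
    have h3 := E1_Psi_lip hs0 hl w hw t q (E1_Phi s w t p)
    rw [E1_Psi_Phi hs0 w t p] at h3
    calc ‖E1_Psi s w t q - p‖ ≤ b * ‖q - E1_Phi s w t p‖ := h3
      _ ≤ b * R := mul_le_mul_of_nonneg_left hq hb0.le
      _ = η := hbR
  refine ⟨fun p => E1_Psi s w t (G (E1_Phi s w t p)), fun p => E1_Psi s w t (G' (E1_Phi s w t p)),
    ?_, ?_, ?_, ?_⟩
  · refine B0b_mono hfin (le_of_eq ?_) (le_of_eq ?_) ?_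
    · calc b * (C₁ * (a * ε)) = (a * b) * C₁ * ε := by ring
        _ = (1 + l) ^ 2 * C₁ * ε := by rw [hab]
    · calc b * a * C₁ = (a * b) * C₁ := by ring
        _ = (1 + l) ^ 2 * C₁ := by rw [hab]
    · intro p hp
      show E1_Phi s w t p ∈ {p : X × (D → ℝ) | _}
      rcases hp with ⟨h3, h4⟩ | h3 | h3
      · left
        refine ⟨?_, ?_⟩
        · rw [E1_Phi_t]
          exact mul_neg_of_pos_of_neg hs0 (by linarith)
        · show E1_Psi s w t (E1_Phi s w t p) ∈ U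
          rw [E1_Psi_Phi hs0]
          exact h4
      · right; left
        intro q hq
        exact h3 (hball p q hq)
      · right; right
        show R < (E1_Phi s w t p).2 t
        rw [E1_Phi_t]
        have h5 : s * η < s * (p.2 t - w p.1) := mul_lt_mul_of_pos_left (by linarith) hs0
        nlinarith
  · intro p hp
    have h3 : (E1_Phi s w t p).2 t ≤ 0 := by
      rw [E1_Phi_t]
      exact mul_nonpos_of_nonneg_of_nonpos hs0.le (by linarith)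
    obtain ⟨h4, h5⟩ := hG1 _ h3
    constructor
    · show E1_Psi s w t (G (E1_Phi s w t p)) = e p
      rw [h4, E1_Psi_Phi hs0, E1_Psi_Phi hs0]
    · show E1_Psi s w t (G' (E1_Phi s w t p)) = e' p
      rw [h5, E1_Psi_Phi hs0, E1_Psi_Phi hs0]
  · intro p hp
    have h3 : R ≤ (E1_Phi s w t p).2 t := by
      rw [E1_Phi_t]
      have h5 : s * η ≤ s * (p.2 t - w p.1) := mul_le_mul_of_nonneg_left (by linarith) hs0.le
      nlinarith
    obtain ⟨h4, h5⟩ := hG2 _ h3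
    constructor
    · show E1_Psi s w t (G (E1_Phi s w t p)) = p
      rw [h4, E1_Psi_Phi hs0]
    · show E1_Psi s w t (G' (E1_Phi s w t p)) = p
      rw [h5, E1_Psi_Phi hs0]
  · intro p hp
    have h3 : ∀ q ∈ closedBall (E1_Phi s w t p) R,
        E1_Phi s w t (e (E1_Psi s w t q)) = q ∧ E1_Phi s w t (e' (E1_Psi s w t q)) = q := by
      intro q hq
      obtain ⟨h4, h5⟩ := hp _ (hball p q hq)
      rw [h4, h5, E1_Phi_Psi hs0]
      exact ⟨rfl, rfl⟩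
    obtain ⟨h4, h5⟩ := hG3 _ h3
    constructor
    · show E1_Psi s w t (G (E1_Phi s w t p)) = p
      rw [h4, E1_Psi_Phi hs0]
    · show E1_Psi s w t (G' (E1_Phi s w t p)) = p
      rw [h5, E1_Psi_Phi hs0]

end H80.LD

end S_H80_LD_E1
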