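import Mathlib
import Pool.Agent.H80.LM.G01
import Pool.Agent.H80.LM.G06

/-! MP_816883_ag: this file joins several modules (see the folders H80/LD, H24/LS) to save build time. -/

section S_H80_LD_P3

open Filter Topology Metric Set MeasureTheory

namespace H80.LD

theorem P3_cT : Continuous T1f := by
  have h : LipschitzWith 20 T1f := LipschitzWith.of_dist_le_mul (fun u v => by
    rw [Real.dist_eq, Real.dist_eq]
    exact P1_T_lip u v)
  exact h.continuous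

theorem P3_cfp : Continuous fp := by
  show Continuous (fun w : ℝ => max 0 (1 - 2 * |w|))
  fun_prop

theorem P3_cfm : Continuous fm := by
  show Continuous (fun w : ℝ => max 0 (2 * |w| - 1))
  fun_prop

theorem P3_cfs : Continuous fs := by
  show Continuous (fun w : ℝ => 2 * w - 4 * max (w - 1 / 2) 0 + 4 * max (-w - 1 / 2) 0)
  fun_prop

theorem P3_cW (A θ : ℝ) : Continuous (fun u => WW A θ u) := by
  show Continuous (fun u : ℝ => A * (T1f ((1 + θ) * u) + θ * T1f (2 * u - 1)))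
  have h1 : Continuous (fun u : ℝ => T1f ((1 + θ) * u)) := P3_cT.comp (by fun_prop)
  have h2 : Continuous (fun u : ℝ => T1f (2 * u - 1)) := P3_cT.comp (by fun_prop)
  exact continuous_const.mul (h1.add (continuous_const.mul h2))

theorem P3_ii (f : ℝ → ℝ) (hf : Continuous f) (A θ a b : ℝ) :
    IntervalIntegrable (fun u => f (WW A θ u)) volume a b :=
  (hf.comp (P3_cW A θ)).intervalIntegrable a b

theorem P3_split (g : ℝ → ℝ) (hg : Continuous g) :
    ∫ u in (0 : ℝ)..1, g u = (∫ u in (0 : ℝ)..(1 / 20), g u) + (∫ u in (1 / 20 : ℝ)..(2 / 5), g u) +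
      (∫ u in (2 / 5 : ℝ)..(11 / 20), g u) + (∫ u in (11 / 20 : ℝ)..(7 / 10), g u) +
      (∫ u in (7 / 10 : ℝ)..1, g u) := by
  have h := fun a b : ℝ => hg.intervalIntegrable (μ := volume) a b
  rw [intervalIntegral.integral_add_adjacent_intervals (h _ _) (h _ _),
    intervalIntegral.integral_add_adjacent_intervals (h _ _) (h _ _),
    intervalIntegral.integral_add_adjacent_intervals (h _ _) (h _ _),
    intervalIntegral.integral_add_adjacent_intervals (h _ _) (h _ _)]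

theorem P3_int_const (g : ℝ → ℝ) (c a b : ℝ) (hab : a ≤ b) (h : ∀ u, a ≤ u → u ≤ b → g u = c) :
    ∫ u in a..b, g u = (b - a) * c := by
  rw [intervalIntegral.integral_congr (g := fun _ => c) (fun u hu => by
    rw [uIcc_of_le hab] at hu
    exact h u hu.1 hu.2)]
  rw [intervalIntegral.integral_const, smul_eq_mul]

theorem P3_int_bd (g : ℝ → ℝ) (hg : Continuous g) (a b : ℝ) (hab : a ≤ b)
    (h : ∀ u, a ≤ u → u ≤ b → 0 ≤ g u ∧ g u ≤ 1) :
    0 ≤ ∫ u in a..b, g u ∧ ∫ u in a..b, g u ≤ b - a := by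
  constructor
  · exact intervalIntegral.integral_nonneg hab (fun u hu => (h u hu.1 hu.2).1)
  · have h1 : ∫ u in a..b, g u ≤ ∫ u in a..b, (1 : ℝ) :=
      intervalIntegral.integral_mono_on hab (hg.intervalIntegrable a b)
        (continuous_const.intervalIntegrable a b) (fun u hu => (h u hu.1 hu.2).2)
    rw [intervalIntegral.integral_const, smul_eq_mul, mul_one] at h1
    exact h1

theorem P3_Ip (A θ : ℝ) (hA : 0 ≤ A) (hA' : A ≤ 1) (h0 : 0 ≤ θ) (h1 : θ ≤ 1) : 1 / 2 ≤ Ip A θ ∧ Ip A θ ≤ 1 := by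
  have hc : Continuous (fun u => fp (WW A θ u)) := P3_cfp.comp (P3_cW A θ)
  have hb : ∀ u, 0 ≤ u → 0 ≤ fp (WW A θ u) ∧ fp (WW A θ u) ≤ 1 := fun u hu => by
    have h := P1_f_mem (WW A θ u) (P2_abs A θ u hA hA' h0 h1 hu)
    exact ⟨h.1, h.2.1⟩
  have e1 : ∫ u in (0 : ℝ)..(1 / 20), fp (WW A θ u) = (1 / 20 - 0) * 1 :=
    P3_int_const _ _ _ _ (by norm_num) (fun u hu hu' => by
      rw [P2_zero A θ u h0 h1 hu (Or.inl hu')]; exact P1_f_zero.1)
  have e2 : ∫ u in (2 / 5 : ℝ)..(11 / 20), fp (WW A θ u) = (11 / 20 - 2 / 5) * 1 :=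
    P3_int_const _ _ _ _ (by norm_num) (fun u hu hu' => by
      rw [P2_zero A θ u h0 h1 (by linarith) (Or.inr (Or.inr ⟨hu, hu'⟩))]; exact P1_f_zero.1)
  have e3 : ∫ u in (7 / 10 : ℝ)..1, fp (WW A θ u) = (1 - 7 / 10) * 1 :=
    P3_int_const _ _ _ _ (by norm_num) (fun u hu hu' => by
      rw [P2_zero A θ u h0 h1 (by linarith) (Or.inr (Or.inl hu))]; exact P1_f_zero.1)
  have e4 := P3_int_bd _ hc (1 / 20) (2 / 5) (by norm_num) (fun u hu _ => hb u (by linarith))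
  have e5 := P3_int_bd _ hc (11 / 20) (7 / 10) (by norm_num) (fun u hu _ => hb u (by linarith))
  have e6 : Ip A θ = _ := P3_split _ hc
  rw [e1, e2, e3] at e6
  constructor
  · linarith [e4.1, e5.1]
  · linarith [e4.2, e5.2]

theorem P3_Im (A θ : ℝ) (hA : 0 ≤ A) (hA' : A ≤ 1) (h0 : 0 ≤ θ) (h1 : θ ≤ 1) : 0 ≤ Im A θ ∧ Im A θ ≤ 1 / 2 := by
  have hc : Continuous (fun u => fm (WW A θ u)) := P3_cfm.comp (P3_cW A θ)
  have hb : ∀ u, 0 ≤ u → 0 ≤ fm (WW A θ u) ∧ fm (WW A θ u) ≤ 1 := fun u hu => by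
    have h := P1_f_mem (WW A θ u) (P2_abs A θ u hA hA' h0 h1 hu)
    exact ⟨h.2.2.1, h.2.2.2.1⟩
  have e1 : ∫ u in (0 : ℝ)..(1 / 20), fm (WW A θ u) = (1 / 20 - 0) * 0 :=
    P3_int_const _ _ _ _ (by norm_num) (fun u hu hu' => by
      rw [P2_zero A θ u h0 h1 hu (Or.inl hu')]; exact P1_f_zero.2.1)
  have e2 : ∫ u in (2 / 5 : ℝ)..(11 / 20), fm (WW A θ u) = (11 / 20 - 2 / 5) * 0 :=
    P3_int_const _ _ _ _ (by norm_num) (fun u hu hu' => by
      rw [P2_zero A θ u h0 h1 (by linarith) (Or.inr (Or.inr ⟨hu, hu'⟩))]; exact P1_f_zero.2.1)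
  have e3 : ∫ u in (7 / 10 : ℝ)..1, fm (WW A θ u) = (1 - 7 / 10) * 0 :=
    P3_int_const _ _ _ _ (by norm_num) (fun u hu hu' => by
      rw [P2_zero A θ u h0 h1 (by linarith) (Or.inr (Or.inl hu))]; exact P1_f_zero.2.1)
  have e4 := P3_int_bd _ hc (1 / 20) (2 / 5) (by norm_num) (fun u hu _ => hb u (by linarith))
  have e5 := P3_int_bd _ hc (11 / 20) (7 / 10) (by norm_num) (fun u hu _ => hb u (by linarith))
  have e6 : Im A θ = _ := P3_split _ hc
  rw [e1, e2, e3] at e6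
  constructor
  · linarith [e4.1, e5.1]
  · linarith [e4.2, e5.2]

theorem P3_Im_one (θ : ℝ) (h0 : 0 ≤ θ) (h1 : θ ≤ 1) : 1 / 20 ≤ Im 1 θ := by
  have hc : Continuous (fun u => fm (WW 1 θ u)) := P3_cfm.comp (P3_cW 1 θ)
  have hb : ∀ u, 0 ≤ u → 0 ≤ fm (WW 1 θ u) ∧ fm (WW 1 θ u) ≤ 1 := fun u hu => by
    have h := P1_f_mem (WW 1 θ u) (P2_abs 1 θ u zero_le_one le_rfl h0 h1 hu)
    exact ⟨h.2.2.1, h.2.2.2.1⟩
  have ht : 0 < 1 + θ := by linarith
  set a1 := (3 / 20) / (1 + θ) with ha1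
  set a2 := (1 / 5) / (1 + θ) with ha2
  set a3 := (3 / 10) / (1 + θ) with ha3
  set a4 := (7 / 20) / (1 + θ) with ha4
  have m1 : (1 + θ) * a1 = 3 / 20 := by rw [ha1]; field_simp
  have m2 : (1 + θ) * a2 = 1 / 5 := by rw [ha2]; field_simp
  have m3 : (1 + θ) * a3 = 3 / 10 := by rw [ha3]; field_simp
  have m4 : (1 + θ) * a4 = 7 / 20 := by rw [ha4]; field_simp
  have p1 : 0 ≤ a1 := by positivity
  have p4 : a4 ≤ 7 / 20 := by
    rw [ha4, div_le_iff₀ ht]; nlinarith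
  have o12 : a1 ≤ a2 := by
    rw [ha1, ha2]; exact div_le_div_of_nonneg_right (by norm_num) ht.le
  have o23 : a2 ≤ a3 := by
    rw [ha2, ha3]; exact div_le_div_of_nonneg_right (by norm_num) ht.le
  have o34 : a3 ≤ a4 := by
    rw [ha3, ha4]; exact div_le_div_of_nonneg_right (by norm_num) ht.le
  have d12 : 1 / 40 ≤ a2 - a1 := by
    have : (1 + θ) * (a2 - a1) = 1 / 20 := by rw [mul_sub, m1, m2]; norm_num
    nlinarith
  have d34 : 1 / 40 ≤ a4 - a3 := by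
    have : (1 + θ) * (a4 - a3) = 1 / 20 := by rw [mul_sub, m3, m4]; norm_num
    nlinarith
  have e12 : ∫ u in a1..a2, fm (WW 1 θ u) = (a2 - a1) * 1 :=
    P3_int_const _ _ _ _ o12 (fun u hu hu' => by
      have k1 : 3 / 20 ≤ (1 + θ) * u := by nlinarith
      have k2 : (1 + θ) * u ≤ 1 / 5 := by nlinarith
      have k3 : T1f (2 * u - 1) = 0 := P1_T_zero _ (Or.inl (by linarith))
      have k4 : WW 1 θ u = 1 := by
        show 1 * (T1f ((1 + θ) * u) + θ * T1f (2 * u - 1)) = 1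
        rw [P1_T_one _ k1 k2, k3]; ring
      rw [k4]; exact P1_f_one.1)
  have e34 : ∫ u in a3..a4, fm (WW 1 θ u) = (a4 - a3) * 1 :=
    P3_int_const _ _ _ _ o34 (fun u hu hu' => by
      have k1 : 3 / 10 ≤ (1 + θ) * u := by nlinarith
      have k2 : (1 + θ) * u ≤ 7 / 20 := by nlinarith
      have k3 : T1f (2 * u - 1) = 0 := P1_T_zero _ (Or.inl (by linarith))
      have k4 : WW 1 θ u = -1 := by
        show 1 * (T1f ((1 + θ) * u) + θ * T1f (2 * u - 1)) = -1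
        rw [P1_T_neg _ k1 k2, k3]; ring
      rw [k4]; exact P1_f_one.2)
  have f1 := P3_int_bd _ hc 0 a1 p1 (fun u hu _ => hb u hu)
  have f2 := P3_int_bd _ hc a2 a3 o23 (fun u hu _ => hb u (by linarith))
  have f3 := P3_int_bd _ hc a4 1 (by linarith) (fun u hu _ => hb u (by linarith))
  have hI : Im 1 θ = (∫ u in (0 : ℝ)..a1, fm (WW 1 θ u)) + (∫ u in a1..a2, fm (WW 1 θ u)) +
      (∫ u in a2..a3, fm (WW 1 θ u)) + (∫ u in a3..a4, fm (WW 1 θ u)) +
      (∫ u in a4..1, fm (WW 1 θ u)) := by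
    have h := fun a b : ℝ => hc.intervalIntegrable (μ := volume) a b
    rw [intervalIntegral.integral_add_adjacent_intervals (h _ _) (h _ _),
      intervalIntegral.integral_add_adjacent_intervals (h _ _) (h _ _),
      intervalIntegral.integral_add_adjacent_intervals (h _ _) (h _ _),
      intervalIntegral.integral_add_adjacent_intervals (h _ _) (h _ _)]
    rfl
  rw [e12, e34] at hI
  linarith [f1.1, f2.1, f3.1]

theorem P3_lip_gen (f : ℝ → ℝ) (hf : Continuous f) (hl : ∀ u v, |f u - f v| ≤ 2 * |u - v|)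
    (A A' θ θ' : ℝ) (hA : 0 ≤ A) (hA1 : A ≤ 1) (hA' : 0 ≤ A') (hA1' : A' ≤ 1) (h0 : 0 ≤ θ) (h1 : θ ≤ 1)
    (h0' : 0 ≤ θ') (h1' : θ' ≤ 1) :
    |(∫ u in (0 : ℝ)..1, f (WW A θ u)) - ∫ u in (0 : ℝ)..1, f (WW A' θ' u)| ≤
      4 * |A - A'| + 42 * |θ - θ'| := by
  rw [← intervalIntegral.integral_sub (P3_ii f hf A θ 0 1) (P3_ii f hf A' θ' 0 1)]
  have h := intervalIntegral.norm_integral_le_of_norm_le_const (a := (0 : ℝ)) (b := 1)
    (f := fun u => f (WW A θ u) - f (WW A' θ' u)) (C := 4 * |A - A'| + 42 * |θ - θ'|) (by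
      intro u hu
      rw [uIoc_of_le zero_le_one] at hu
      rw [Real.norm_eq_abs]
      have k1 := hl (WW A θ u) (WW A' θ' u)
      have k2 := P2_par A A' θ θ' u hA hA1 h0' h1' h0 h1 hu.1.le hu.2 hA' hA1'
      linarith)
  rw [Real.norm_eq_abs, sub_zero, abs_one, mul_one] at h
  exact h

theorem P3_Ip_lip (A A' θ θ' : ℝ) (hA : 0 ≤ A) (hA1 : A ≤ 1) (hA' : 0 ≤ A') (hA1' : A' ≤ 1) (h0 : 0 ≤ θ) (h1 : θ ≤ 1)
    (h0' : 0 ≤ θ') (h1' : θ' ≤ 1) : |Ip A θ - Ip A' θ'| ≤ 4 * |A - A'| + 42 * |θ - θ'| :=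
  P3_lip_gen fp P3_cfp P1_fp_lip A A' θ θ' hA hA1 hA' hA1' h0 h1 h0' h1'

theorem P3_Im_lip (A A' θ θ' : ℝ) (hA : 0 ≤ A) (hA1 : A ≤ 1) (hA' : 0 ≤ A') (hA1' : A' ≤ 1) (h0 : 0 ≤ θ) (h1 : θ ≤ 1)
    (h0' : 0 ≤ θ') (h1' : θ' ≤ 1) : |Im A θ - Im A' θ'| ≤ 4 * |A - A'| + 42 * |θ - θ'| :=
  P3_lip_gen fm P3_cfm P1_fm_lip A A' θ θ' hA hA1 hA' hA1' h0 h1 h0' h1'

theorem P3_half (c : ℝ) : ∫ v in (0 : ℝ)..(1 / 2), fs (c * T1f v) = 0 := by
  have h1 : ∫ v in (0 : ℝ)..(1 / 2), fs (c * T1f (1 / 2 - v)) =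
      ∫ v in (0 : ℝ)..(1 / 2), fs (c * T1f v) := by
    have h := intervalIntegral.integral_comp_sub_left (a := (0 : ℝ)) (b := 1 / 2)
      (fun v => fs (c * T1f v)) (1 / 2)
    rw [h]
    norm_num
  have h2 : ∫ v in (0 : ℝ)..(1 / 2), fs (c * T1f (1 / 2 - v)) =
      -∫ v in (0 : ℝ)..(1 / 2), fs (c * T1f v) := by
    rw [← intervalIntegral.integral_neg]
    refine intervalIntegral.integral_congr (fun v _ => ?_)
    show fs (c * T1f (1 / 2 - v)) = -fs (c * T1f v)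
    rw [P1_odd, mul_neg, P1_fs_odd]
  linarith

theorem P3_fs0 : fs 0 = 0 := P1_f_zero.2.2

theorem P3_long (c b : ℝ) (hb : 1 / 2 ≤ b) : ∫ v in (0 : ℝ)..b, fs (c * T1f v) = 0 := by
  have hc : Continuous (fun v => fs (c * T1f v)) :=
    P3_cfs.comp (continuous_const.mul P3_cT)
  rw [← intervalIntegral.integral_add_adjacent_intervals (hc.intervalIntegrable 0 (1 / 2))
    (hc.intervalIntegrable (1 / 2) b), P3_half, zero_add]
  rw [P3_int_const _ 0 _ _ hb (fun u hu _ => by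
    rw [P1_T_zero u (Or.inr (by linarith)), mul_zero]; exact P3_fs0)]
  ring

theorem P3_fs (A θ : ℝ) (hA : 0 ≤ A) (hA' : A ≤ 1) (h0 : 0 ≤ θ) (h1 : θ ≤ 1) :
    ∫ u in (0 : ℝ)..1, fs (WW A θ u) = 0 := by
  have c1 : Continuous (fun v => fs (A * T1f v)) := P3_cfs.comp (continuous_const.mul P3_cT)
  have c2 : Continuous (fun v => fs ((A * θ) * T1f v)) := P3_cfs.comp (continuous_const.mul P3_cT)
  have c3 : Continuous (fun u : ℝ => fs (A * T1f ((1 + θ) * u))) :=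
    c1.comp (continuous_const.mul continuous_id)
  have c4 : Continuous (fun u : ℝ => fs ((A * θ) * T1f (2 * u - 1))) :=
    c2.comp (show Continuous (fun u : ℝ => 2 * u - 1) by fun_prop)
  have e1 : ∫ u in (0 : ℝ)..1, fs (WW A θ u) =
      ∫ u in (0 : ℝ)..1, (fs (A * T1f ((1 + θ) * u)) + fs ((A * θ) * T1f (2 * u - 1))) := by
    refine intervalIntegral.integral_congr (fun u hu => ?_)
    rw [uIcc_of_le zero_le_one] at hu
    show fs (A * (T1f ((1 + θ) * u) + θ * T1f (2 * u - 1))) =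
      fs (A * T1f ((1 + θ) * u)) + fs ((A * θ) * T1f (2 * u - 1))
    rcases P2_disj θ u h0 h1 hu.1 with h | h
    · rw [h, mul_zero, P3_fs0, zero_add, zero_add]
      congr 1
      ring
    · rw [h, mul_zero, mul_zero, P3_fs0, add_zero, add_zero]
  rw [e1, intervalIntegral.integral_add (c3.intervalIntegrable 0 1) (c4.intervalIntegrable 0 1)]
  have ht : (1 + θ) ≠ 0 := by positivity
  have e2 : ∫ u in (0 : ℝ)..1, fs (A * T1f ((1 + θ) * u)) = 0 := by
    have h := intervalIntegral.integral_comp_mul_left (a := (0 : ℝ)) (b := 1)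
      (fun v => fs (A * T1f v)) ht
    rw [h, mul_zero, mul_one, P3_long A (1 + θ) (by linarith), smul_zero]
  have e3 : ∫ u in (0 : ℝ)..1, fs ((A * θ) * T1f (2 * u - 1)) = 0 := by
    have h := intervalIntegral.integral_comp_mul_sub (a := (0 : ℝ)) (b := 1)
      (fun v => fs ((A * θ) * T1f v)) (two_ne_zero) (1 : ℝ)
    rw [h]
    have k : ∫ v in (2 * (0 : ℝ) - 1)..(2 * 1 - 1), fs ((A * θ) * T1f v) = 0 := by
      rw [show (2 * (0 : ℝ) - 1) = -1 by norm_num, show (2 * (1 : ℝ) - 1) = 1 by norm_num]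
      rw [← intervalIntegral.integral_add_adjacent_intervals (c2.intervalIntegrable (-1) 0)
        (c2.intervalIntegrable 0 1), P3_long _ 1 (by norm_num), add_zero]
      rw [P3_int_const _ 0 _ _ (by norm_num) (fun u _ hu => by
        rw [P1_T_zero u (Or.inl (by linarith)), mul_zero]; exact P3_fs0)]
      ring
    rw [k, smul_zero]
  rw [e2, e3, add_zero]

theorem P3_double_gen (f : ℝ → ℝ) (hf : Continuous f) (A : ℝ) (hA : 0 ≤ A) (hA' : A ≤ 1) :
    ∫ u in (0 : ℝ)..1, f (WW A 1 u) = ∫ u in (0 : ℝ)..1, f (WW A 0 u) := by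
  have hl : LipschitzWith 80 (fun z => pw A 0 z) := LipschitzWith.of_dist_le_mul (fun u v => by
    rw [Real.dist_eq, Real.dist_eq]
    exact P2_pw_lip A 0 u v hA hA' le_rfl zero_le_one)
  have hc : Continuous (fun z => f (pw A 0 z)) := hf.comp hl.continuous
  have e1 : ∫ u in (0 : ℝ)..1, f (WW A 1 u) = ∫ u in (0 : ℝ)..1, f (pw A 0 (2 * u)) := by
    refine intervalIntegral.integral_congr (fun u hu => ?_)
    rw [uIcc_of_le zero_le_one] at hu
    show f (WW A 1 u) = f (pw A 0 (2 * u))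
    rw [← P2_double, P2_pw_unit A 1 u zero_le_one le_rfl hu.1 hu.2]
  have e0 : ∫ u in (0 : ℝ)..1, f (WW A 0 u) = ∫ u in (0 : ℝ)..1, f (pw A 0 u) := by
    refine intervalIntegral.integral_congr (fun u hu => ?_)
    rw [uIcc_of_le zero_le_one] at hu
    show f (WW A 0 u) = f (pw A 0 u)
    rw [P2_pw_unit A 0 u le_rfl zero_le_one hu.1 hu.2]
  have e2 := intervalIntegral.integral_comp_mul_left (a := (0 : ℝ)) (b := 1)
      (fun v => f (pw A 0 v)) (two_ne_zero (α := ℝ))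
  have e3 : ∫ u in (1 : ℝ)..2, f (pw A 0 u) = ∫ u in (0 : ℝ)..1, f (pw A 0 u) := by
    have h := intervalIntegral.integral_comp_add_right (a := (0 : ℝ)) (b := 1)
      (fun v => f (pw A 0 v)) 1
    rw [show (0 : ℝ) + 1 = 1 by norm_num, show (1 : ℝ) + 1 = 2 by norm_num] at h
    rw [← h]
    refine intervalIntegral.integral_congr (fun u _ => ?_)
    show f (pw A 0 (u + 1)) = f (pw A 0 u)
    have := P2_pw_per A 0 u 1
    rw [Int.cast_one] at this
    rw [this]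
  rw [e1, e2, e0, mul_zero, mul_one,
    ← intervalIntegral.integral_add_adjacent_intervals (hc.intervalIntegrable 0 1)
      (hc.intervalIntegrable 1 2), e3, smul_eq_mul]
  ring

theorem P3_double (A : ℝ) (hA : 0 ≤ A) (hA' : A ≤ 1) : Ip A 1 = Ip A 0 ∧ Im A 1 = Im A 0 :=
  ⟨P3_double_gen fp P3_cfp A hA hA', P3_double_gen fm P3_cfm A hA hA'⟩

theorem P3_al (A θ μ : ℝ) (hA : 0 ≤ A) (hA' : A ≤ 1) (h0 : 0 ≤ θ) (h1 : θ ≤ 1) (hμ : 0 ≤ μ) (hμ' : μ ≤ 1)
    (h : μ = 1 ∨ A = 1) : 1 / 20 ≤ (μ + Im A θ) / Ip A θ ∧ (μ + Im A θ) / Ip A θ ≤ 3 := by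
  have a := P3_Ip A θ hA hA' h0 h1
  have b := P3_Im A θ hA hA' h0 h1
  have hp : 0 < Ip A θ := by linarith [a.1]
  have hl : 1 / 20 ≤ μ + Im A θ := by
    rcases h with h | h
    · linarith [b.1]
    · subst h
      linarith [P3_Im_one θ h0 h1]
  constructor
  · rw [le_div_iff₀ hp]
    nlinarith [a.2]
  · rw [div_le_iff₀ hp]
    nlinarith [a.1, b.2]

theorem P3_amp0 (θ : ℝ) : Ip 0 θ = 1 ∧ Im 0 θ = 0 := by
  have hW : ∀ u, WW 0 θ u = 0 := fun u => by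
    show 0 * (T1f ((1 + θ) * u) + θ * T1f (2 * u - 1)) = 0
    rw [zero_mul]
  constructor
  · show ∫ u in (0 : ℝ)..1, fp (WW 0 θ u) = 1
    rw [P3_int_const _ 1 _ _ zero_le_one (fun u _ _ => by rw [hW u]; exact P1_f_zero.1)]
    norm_num
  · show ∫ u in (0 : ℝ)..1, fm (WW 0 θ u) = 0
    rw [P3_int_const _ 0 _ _ zero_le_one (fun u _ _ => by rw [hW u]; exact P1_f_zero.2.1)]
    norm_num

end H80.LD

end S_H80_LD_P3

section S_H80_LD_P4

/-!
# P4: the primitive functions `G1, G2`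

`A, θ ∈ [0,1]`, `0 ≤ α ≤ 3`.  Integrands `F1 t = α fp (pw t) - fm (pw t)`, `F2 t = fs (pw t)`: `|F1| ≤ 3` (`P1_D`), `|F2| ≤ 1`, Lipschitz with constants `(2α + 2) * 80 ≤ 640`, `160`; continuous; periodic with period 1.
* `P4_lip`: bounds of the integrals over `[z', z]`.
* `P4_lin`: `G1 z - G1 z' - (z - z') F1 z0 = ∫_{z'}^z (F1 t - F1 z0) dt`, and `|t - z0| ≤ ρ` on the interval between `z'` and `z`: `≤ 640 ρ |z - z'|`.
* `P4_per`: `∫_0^1 F1 = α Ip - Im = μ` if `α = (μ + Im)/Ip` (`P2_pw_unit`), so `G1 (z + m) = G1 z + μ m` for integers `m` (induction, or `Function.Periodic.intervalIntegral_add_eq` etc.); `∫_0^1 F2 = 0` (`P3_fs`), `G2 (z + m) = G2 z`.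
* `P4_col`: `G2 z = 0` if `-3/10 ≤ z - m ≤ 1/20`: by periodicity `m = 0`; for `z ∈ [-3/10, 1/20]` `pw = 0` between `0` and `z`.
* `P4_par`: for `z ∈ [0,1]`: `|G2 A θ z - G2 A' θ' z| ≤ 4|A-A'| + 42|θ-θ'|`; `|G1 A θ α z - G1 A' θ' α' z| ≤ |α - α'| + 4 (4 |A-A'| + 42 |θ-θ'|)`  (`|α fp - α' fp'| ≤ |α-α'| + 3 |fp - fp'|`).
* `P4_double`: `G1 A 1 α z = (1/2) G1 A 0 α (2z)`, `G2 A 1 z = (1/2) G2 A 0 (2z)`: substitution, `P2_double`.
* `P4_amp0`: `G1 0 θ 1 z = z`, `G2 0 θ z = 0`.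
-/

open Filter Topology Metric Set MeasureTheory

namespace H80.LD

/-- the first integrand -/
noncomputable def P4_F1 (A θ α t : ℝ) : ℝ := α * fp (pw A θ t) - fm (pw A θ t)

/-- the second integrand -/
noncomputable def P4_F2 (A θ t : ℝ) : ℝ := fs (pw A θ t)

theorem P4_G1 (A θ α z : ℝ) : G1 A θ α z = ∫ t in (0 : ℝ)..z, P4_F1 A θ α t := rfl

theorem P4_G2 (A θ z : ℝ) : G2 A θ z = ∫ t in (0 : ℝ)..z, P4_F2 A θ t := rfl

theorem P4_cont_of_lip (f : ℝ → ℝ) (K : ℝ) (h : ∀ x y, |f x - f y| ≤ K * |x - y|) :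
    Continuous f := by
  have hK : 0 ≤ K := by
    have := h 1 0
    rw [sub_zero, abs_one, mul_one] at this
    exact (abs_nonneg _).trans this
  have hL : LipschitzWith (Real.toNNReal K) f := by
    refine LipschitzWith.of_dist_le_mul fun x y => ?_
    rw [Real.dist_eq, Real.dist_eq, Real.coe_toNNReal _ hK]
    exact h x y
  exact hL.continuous

theorem P4_F1_lip (A θ α s t : ℝ) (hA : 0 ≤ A) (hA' : A ≤ 1) (h0 : 0 ≤ θ) (h1 : θ ≤ 1) (hα : 0 ≤ α)
    (hα' : α ≤ 3) : |P4_F1 A θ α s - P4_F1 A θ α t| ≤ 640 * |s - t| := by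
  have a := P2_pw_lip A θ s t hA hA' h0 h1
  have b := P1_fp_lip (pw A θ s) (pw A θ t)
  have c := P1_fm_lip (pw A θ s) (pw A θ t)
  have e : P4_F1 A θ α s - P4_F1 A θ α t = α * (fp (pw A θ s) - fp (pw A θ t))
    - (fm (pw A θ s) - fm (pw A θ t)) := by
    simp only [P4_F1]; ring
  rw [e]
  refine (abs_sub _ _).trans ?_
  rw [abs_mul, abs_of_nonneg hα]
  have d : α * |fp (pw A θ s) - fp (pw A θ t)| ≤ 3 * (2 * |pw A θ s - pw A θ t|) :=
    mul_le_mul hα' b (abs_nonneg _) (by norm_num)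
  linarith

theorem P4_F2_lip (A θ s t : ℝ) (hA : 0 ≤ A) (hA' : A ≤ 1) (h0 : 0 ≤ θ) (h1 : θ ≤ 1) :
    |P4_F2 A θ s - P4_F2 A θ t| ≤ 160 * |s - t| := by
  have a := P2_pw_lip A θ s t hA hA' h0 h1
  have b := P1_fs_lip (pw A θ s) (pw A θ t)
  have e : P4_F2 A θ s - P4_F2 A θ t = fs (pw A θ s) - fs (pw A θ t) := rfl
  rw [e]
  linarith

theorem P4_F1_cont (A θ α : ℝ) (hA : 0 ≤ A) (hA' : A ≤ 1) (h0 : 0 ≤ θ) (h1 : θ ≤ 1) :
    Continuous (P4_F1 A θ α) := by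
  have h2 : Continuous (pw A θ) :=
    P4_cont_of_lip _ 80 fun x y => P2_pw_lip A θ x y hA hA' h0 h1
  have h3 : Continuous fp := P4_cont_of_lip _ 2 fun x y => P1_fp_lip x y
  have h4 : Continuous fm := P4_cont_of_lip _ 2 fun x y => P1_fm_lip x y
  exact (continuous_const.mul (h3.comp h2)).sub (h4.comp h2)

theorem P4_F2_cont (A θ : ℝ) (hA : 0 ≤ A) (hA' : A ≤ 1) (h0 : 0 ≤ θ) (h1 : θ ≤ 1) :
    Continuous (P4_F2 A θ) :=
  P4_cont_of_lip _ 160 fun x y => P4_F2_lip A θ x y hA hA' h0 h1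

theorem P4_F1_le (A θ α t : ℝ) (hA : 0 ≤ A) (hA' : A ≤ 1) (h0 : 0 ≤ θ) (h1 : θ ≤ 1) (hα : 0 ≤ α)
    (hα' : α ≤ 3) : |P4_F1 A θ α t| ≤ 3 :=
  P1_D _ _ (P2_pw_abs A θ t hA hA' h0 h1) hα hα'

theorem P4_F2_le (A θ t : ℝ) (hA : 0 ≤ A) (hA' : A ≤ 1) (h0 : 0 ≤ θ) (h1 : θ ≤ 1) :
    |P4_F2 A θ t| ≤ 1 :=
  (P1_f_mem _ (P2_pw_abs A θ t hA hA' h0 h1)).2.2.2.2

theorem P4_sub (f : ℝ → ℝ) (hf : Continuous f) (z z' : ℝ) :
    (∫ t in (0 : ℝ)..z, f t) - (∫ t in (0 : ℝ)..z', f t) = ∫ t in z'..z, f t :=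
  intervalIntegral.integral_interval_sub_left (hf.intervalIntegrable _ _)
    (hf.intervalIntegrable _ _)

theorem P4_mem (z z' z0 ρ t : ℝ) (hz : |z - z0| ≤ ρ) (hz' : |z' - z0| ≤ ρ) (ht : t ∈ Set.uIoc z' z) :
    |t - z0| ≤ ρ := by
  have a := abs_le.1 hz
  have b := abs_le.1 hz'
  rcases Set.mem_uIoc.1 ht with h | h
  · exact abs_le.2 ⟨by linarith [h.1, b.1], by linarith [h.2, a.2]⟩
  · exact abs_le.2 ⟨by linarith [h.1, a.1], by linarith [h.2, b.2]⟩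

theorem P4_nle (f : ℝ → ℝ) (a b C : ℝ) (h : ∀ t ∈ Set.uIoc a b, |f t| ≤ C) :
    |∫ t in a..b, f t| ≤ C * |b - a| := by
  have h' : ∀ t ∈ Set.uIoc a b, ‖f t‖ ≤ C := h
  have := intervalIntegral.norm_integral_le_of_norm_le_const h'
  rwa [Real.norm_eq_abs] at this

theorem P4_lin0 (f : ℝ → ℝ) (C : ℝ) (hC : 0 ≤ C) (hf : ∀ x y, |f x - f y| ≤ C * |x - y|)
    (z z' z0 ρ : ℝ) (hz : |z - z0| ≤ ρ) (hz' : |z' - z0| ≤ ρ) :
    |(∫ t in (0 : ℝ)..z, f t) - (∫ t in (0 : ℝ)..z', f t) - (z - z') * f z0| ≤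
      C * ρ * |z - z'| := by
  have hc := P4_cont_of_lip f C hf
  rw [P4_sub f hc]
  have e : (∫ t in z'..z, f t) - (z - z') * f z0 = ∫ t in z'..z, (f t - f z0) := by
    rw [intervalIntegral.integral_sub (hc.intervalIntegrable _ _)
      (continuous_const.intervalIntegrable _ _), intervalIntegral.integral_const, smul_eq_mul]
  rw [e]
  exact P4_nle (fun t => f t - f z0) z' z (C * ρ) fun t ht =>
    (hf t z0).trans (mul_le_mul_of_nonneg_left (P4_mem z z' z0 ρ t hz hz' ht) hC)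

theorem P4_lip (A θ α z z' : ℝ) (hA : 0 ≤ A) (hA' : A ≤ 1) (h0 : 0 ≤ θ) (h1 : θ ≤ 1) (hα : 0 ≤ α) (hα' : α ≤ 3) :
    |G1 A θ α z - G1 A θ α z'| ≤ 3 * |z - z'| ∧ |G2 A θ z - G2 A θ z'| ≤ |z - z'| := by
  rw [P4_G1, P4_G1, P4_G2, P4_G2, P4_sub _ (P4_F1_cont A θ α hA hA' h0 h1),
    P4_sub _ (P4_F2_cont A θ hA hA' h0 h1)]
  refine ⟨?_, ?_⟩
  · exact P4_nle _ _ _ _ fun t _ => P4_F1_le A θ α t hA hA' h0 h1 hα hα'
  · have := intervalIntegral.norm_integral_le_of_norm_le_const (a := z') (b := z)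
      (f := P4_F2 A θ) (C := 1) fun t _ => P4_F2_le A θ t hA hA' h0 h1
    rw [one_mul] at this
    exact this

theorem P4_lin (A θ α z z' z0 ρ : ℝ) (hA : 0 ≤ A) (hA' : A ≤ 1) (h0 : 0 ≤ θ) (h1 : θ ≤ 1) (hα : 0 ≤ α) (hα' : α ≤ 3)
    (hz : |z - z0| ≤ ρ) (hz' : |z' - z0| ≤ ρ) :
    |G1 A θ α z - G1 A θ α z' - (z - z') * (α * fp (pw A θ z0) - fm (pw A θ z0))| ≤ 640 * ρ * |z - z'| ∧
    |G2 A θ z - G2 A θ z' - (z - z') * fs (pw A θ z0)| ≤ 640 * ρ * |z - z'| := by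
  refine ⟨?_, ?_⟩
  · exact P4_lin0 (P4_F1 A θ α) 640 (by norm_num)
      (fun x y => P4_F1_lip A θ α x y hA hA' h0 h1 hα hα') z z' z0 ρ hz hz'
  · refine P4_lin0 (P4_F2 A θ) 640 (by norm_num) (fun x y => ?_) z z' z0 ρ hz hz'
    refine (P4_F2_lip A θ x y hA hA' h0 h1).trans ?_
    have := abs_nonneg (x - y)
    linarith

theorem P4_int1 (A θ α : ℝ) (hA : 0 ≤ A) (hA' : A ≤ 1) (h0 : 0 ≤ θ) (h1 : θ ≤ 1) :
    ∫ t in (0 : ℝ)..1, P4_F1 A θ α t = α * Ip A θ - Im A θ := by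
  have hW : Continuous (WW A θ) := P4_cont_of_lip _ 80 fun x y => P2_lip A θ x y hA hA' h0 h1
  have h3 : Continuous fp := P4_cont_of_lip _ 2 fun x y => P1_fp_lip x y
  have h4 : Continuous fm := P4_cont_of_lip _ 2 fun x y => P1_fm_lip x y
  have e : ∫ t in (0 : ℝ)..1, P4_F1 A θ α t
      = ∫ t in (0 : ℝ)..1, (α * fp (WW A θ t) - fm (WW A θ t)) := by
    refine intervalIntegral.integral_congr fun t ht => ?_
    rw [Set.uIcc_of_le zero_le_one] at ht
    simp only [P4_F1]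
    rw [P2_pw_unit A θ t h0 h1 ht.1 ht.2]
  have i1 : IntervalIntegrable (fun t => α * fp (WW A θ t)) volume 0 1 :=
    (continuous_const.mul (h3.comp hW)).intervalIntegrable _ _
  have i2 : IntervalIntegrable (fun t => fm (WW A θ t)) volume 0 1 :=
    (h4.comp hW).intervalIntegrable _ _
  rw [e, intervalIntegral.integral_sub i1 i2, intervalIntegral.integral_const_mul]
  rfl

theorem P4_int2 (A θ : ℝ) (hA : 0 ≤ A) (hA' : A ≤ 1) (h0 : 0 ≤ θ) (h1 : θ ≤ 1) :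
    ∫ t in (0 : ℝ)..1, P4_F2 A θ t = 0 := by
  refine Eq.trans ?_ (P3_fs A θ hA hA' h0 h1)
  refine intervalIntegral.integral_congr (f := P4_F2 A θ) (g := fun t => fs (WW A θ t))
    fun t ht => ?_
  rw [Set.uIcc_of_le zero_le_one] at ht
  simp only [P4_F2]
  rw [P2_pw_unit A θ t h0 h1 ht.1 ht.2]

theorem P4_per0 (f : ℝ → ℝ) (hf : Continuous f) (hp : ∀ z : ℝ, f (z + 1) = f z) (z : ℝ) (m : ℤ) :
    (∫ t in (0 : ℝ)..(z + m), f t) = (∫ t in (0 : ℝ)..z, f t) + m * ∫ t in (0 : ℝ)..1, f t := by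
  have hP : Function.Periodic f 1 := hp
  have e1 := intervalIntegral.integral_add_adjacent_intervals
    (hf.intervalIntegrable (μ := volume) 0 z) (hf.intervalIntegrable (μ := volume) z (z + m))
  have e2 : ∫ t in z..(z + m), f t = m * ∫ t in (0 : ℝ)..1, f t := by
    have a := hP.intervalIntegral_add_zsmul_eq m z (fun a b => hf.intervalIntegrable a b)
    have b := hP.intervalIntegral_add_eq z 0
    rw [zero_add] at b
    rw [b, zsmul_eq_mul, zsmul_eq_mul, mul_one] at a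
    exact a
  rw [← e1, e2]

theorem P4_per (A θ μ z : ℝ) (m : ℤ) (hA : 0 ≤ A) (hA' : A ≤ 1) (h0 : 0 ≤ θ) (h1 : θ ≤ 1) :
    G1 A θ ((μ + Im A θ) / Ip A θ) (z + m) = G1 A θ ((μ + Im A θ) / Ip A θ) z + μ * m ∧
    G2 A θ (z + m) = G2 A θ z := by
  have hI : 0 < Ip A θ := by linarith [(P3_Ip A θ hA hA' h0 h1).1]
  refine ⟨?_, ?_⟩
  · rw [P4_G1, P4_G1, P4_per0 _ (P4_F1_cont A θ _ hA hA' h0 h1), P4_int1 A θ _ hA hA' h0 h1]
    · rw [div_mul_cancel₀ _ hI.ne']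
      ring
    · intro z
      have := P2_pw_per A θ z 1
      rw [Int.cast_one] at this
      simp only [P4_F1, this]
  · rw [P4_G2, P4_G2, P4_per0 _ (P4_F2_cont A θ hA hA' h0 h1), P4_int2 A θ hA hA' h0 h1]
    · rw [mul_zero, add_zero]
    · intro z
      have := P2_pw_per A θ z 1
      rw [Int.cast_one] at this
      simp only [P4_F2, this]

theorem P4_col (A θ z : ℝ) (m : ℤ) (hA : 0 ≤ A) (hA' : A ≤ 1) (h0 : 0 ≤ θ) (h1 : θ ≤ 1) (h : -(3 / 10) ≤ z - m)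
    (h' : z - m ≤ 1 / 20) : G2 A θ z = 0 := by
  have e := (P4_per A θ 0 (z - m) m hA hA' h0 h1).2
  rw [sub_add_cancel] at e
  rw [e, P4_G2]
  have : ∫ t in (0 : ℝ)..(z - m), P4_F2 A θ t = ∫ t in (0 : ℝ)..(z - m), (0 : ℝ) := by
    refine intervalIntegral.integral_congr fun t ht => ?_
    rcases Set.mem_uIcc.1 ht with ht | ht
    · have := P2_pw_zero A θ t 0 h0 h1 (by rw [Int.cast_zero]; linarith [ht.1])
        (by rw [Int.cast_zero]; linarith [ht.2])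
      simp only [P4_F2, this, P1_f_zero.2.2]
    · have := P2_pw_zero A θ t 0 h0 h1 (by rw [Int.cast_zero]; linarith [ht.1])
        (by rw [Int.cast_zero]; linarith [ht.2])
      simp only [P4_F2, this, P1_f_zero.2.2]
  rw [this, intervalIntegral.integral_zero]

theorem P4_zero (A θ α : ℝ) : G1 A θ α 0 = 0 ∧ G2 A θ 0 = 0 := by
  refine ⟨?_, ?_⟩
  · rw [P4_G1, intervalIntegral.integral_same]
  · rw [P4_G2, intervalIntegral.integral_same]

theorem P4_bound (A θ μ z : ℝ) (hA : 0 ≤ A) (hA' : A ≤ 1) (h0 : 0 ≤ θ) (h1 : θ ≤ 1) (hα : 0 ≤ (μ + Im A θ) / Ip A θ)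
    (hα' : (μ + Im A θ) / Ip A θ ≤ 3) (hμ : 0 ≤ μ) (hμ' : μ ≤ 1) :
    |G1 A θ ((μ + Im A θ) / Ip A θ) z - μ * z| ≤ 4 ∧ |G2 A θ z| ≤ 1 := by
  obtain ⟨p1, p2⟩ := P4_per A θ μ (Int.fract z) ⌊z⌋ hA hA' h0 h1
  rw [Int.fract_add_floor] at p1 p2
  obtain ⟨l1, l2⟩ := P4_lip A θ ((μ + Im A θ) / Ip A θ) (Int.fract z) 0 hA hA' h0 h1 hα hα'
  obtain ⟨z1, z2⟩ := P4_zero A θ ((μ + Im A θ) / Ip A θ)
  have f0 := Int.fract_nonneg z
  have f1 := (Int.fract_lt_one z).le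
  rw [z1, sub_zero, sub_zero, abs_of_nonneg f0] at l1
  rw [z2, sub_zero, sub_zero, abs_of_nonneg f0] at l2
  refine ⟨?_, ?_⟩
  · have e : G1 A θ ((μ + Im A θ) / Ip A θ) z - μ * z
      = G1 A θ ((μ + Im A θ) / Ip A θ) (Int.fract z) - μ * Int.fract z := by
      rw [p1]
      have := Int.fract_add_floor z
      have h2 : μ * z = μ * (Int.fract z + ⌊z⌋) := by rw [this]
      rw [h2]; ring
    rw [e]
    refine (abs_sub _ _).trans ?_
    have h3 : |μ * Int.fract z| ≤ 1 := by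
      rw [abs_of_nonneg (mul_nonneg hμ f0)]
      exact mul_le_one₀ hμ' f0 f1
    linarith
  · rw [p2]
    exact l2.trans f1

theorem P4_int_le (f g : ℝ → ℝ) (hf : Continuous f) (hg : Continuous g) (C z : ℝ) (hz : 0 ≤ z)
    (hz' : z ≤ 1) (h : ∀ t, 0 ≤ t → t ≤ 1 → |f t - g t| ≤ C) :
    |(∫ t in (0 : ℝ)..z, f t) - ∫ t in (0 : ℝ)..z, g t| ≤ C := by
  rw [← intervalIntegral.integral_sub (hf.intervalIntegrable _ _) (hg.intervalIntegrable _ _)]
  have hC : 0 ≤ C := (abs_nonneg _).trans (h 0 le_rfl zero_le_one)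
  have := intervalIntegral.norm_integral_le_of_norm_le_const (a := 0) (b := z)
    (f := fun t => f t - g t) (C := C) fun t ht => by
      rw [Set.uIoc_of_le hz] at ht
      exact h t ht.1.le (ht.2.trans hz')
  rw [sub_zero, abs_of_nonneg hz] at this
  exact this.trans (mul_le_of_le_one_right hC hz')

theorem P4_par (A A' θ θ' α α' z : ℝ) (hA : 0 ≤ A) (hA1 : A ≤ 1) (hA' : 0 ≤ A') (hA1' : A' ≤ 1) (h0 : 0 ≤ θ) (h1 : θ ≤ 1)
    (h0' : 0 ≤ θ') (h1' : θ' ≤ 1) (hα : 0 ≤ α) (hα1 : α ≤ 3) (hα' : 0 ≤ α') (hα1' : α' ≤ 3) (hz : 0 ≤ z) (hz' : z ≤ 1) :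
    |G1 A θ α z - G1 A' θ' α' z| ≤ |α - α'| + 16 * |A - A'| + 168 * |θ - θ'| ∧
    |G2 A θ z - G2 A' θ' z| ≤ 4 * |A - A'| + 42 * |θ - θ'| := by
  have hw : ∀ t, 0 ≤ t → t ≤ 1 →
      |pw A θ t - pw A' θ' t| ≤ 2 * |A - A'| + 21 * |θ - θ'| := by
    intro t ht ht'
    rw [P2_pw_unit A θ t h0 h1 ht ht', P2_pw_unit A' θ' t h0' h1' ht ht']
    exact P2_par A A' θ θ' t hA hA1 h0' h1' h0 h1 ht ht' hA' hA1'
  refine ⟨?_, ?_⟩
  · refine P4_int_le _ _ (P4_F1_cont A θ α hA hA1 h0 h1) (P4_F1_cont A' θ' α' hA' hA1' h0' h1') _ z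
      hz hz' fun t ht ht' => ?_
    have a := hw t ht ht'
    have b := P1_fp_lip (pw A θ t) (pw A' θ' t)
    have c := P1_fm_lip (pw A θ t) (pw A' θ' t)
    obtain ⟨m1, m2, -, -, -⟩ := P1_f_mem _ (P2_pw_abs A θ t hA hA1 h0 h1)
    have e : α * fp (pw A θ t) - fm (pw A θ t) - (α' * fp (pw A' θ' t) - fm (pw A' θ' t))
      = ((α - α') * fp (pw A θ t) + α' * (fp (pw A θ t) - fp (pw A' θ' t)))
        - (fm (pw A θ t) - fm (pw A' θ' t)) := by ring
    change |α * fp (pw A θ t) - fm (pw A θ t) - (α' * fp (pw A' θ' t) - fm (pw A' θ' t))| ≤ _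
    rw [e]
    refine (abs_sub _ _).trans ?_
    have t1 := abs_add_le ((α - α') * fp (pw A θ t)) (α' * (fp (pw A θ t) - fp (pw A' θ' t)))
    have t2 : |(α - α') * fp (pw A θ t)| ≤ |α - α'| := by
      rw [abs_mul, abs_of_nonneg m1]
      exact mul_le_of_le_one_right (abs_nonneg _) m2
    have t3 : |α' * (fp (pw A θ t) - fp (pw A' θ' t))| ≤ 3 * (2 * |pw A θ t - pw A' θ' t|) := by
      rw [abs_mul, abs_of_nonneg hα']
      exact mul_le_mul hα1' b (abs_nonneg _) (by norm_num)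
    linarith
  · refine P4_int_le _ _ (P4_F2_cont A θ hA hA1 h0 h1) (P4_F2_cont A' θ' hA' hA1' h0' h1') _ z
      hz hz' fun t ht ht' => ?_
    have a := hw t ht ht'
    have b := P1_fs_lip (pw A θ t) (pw A' θ' t)
    change |fs (pw A θ t) - fs (pw A' θ' t)| ≤ _
    linarith

theorem P4_double (A α z : ℝ) (hA : 0 ≤ A) (hA' : A ≤ 1) :
    G1 A 1 α z = 1 / 2 * G1 A 0 α (2 * z) ∧ G2 A 1 z = 1 / 2 * G2 A 0 (2 * z) := by
  refine ⟨?_, ?_⟩
  · have e : G1 A 1 α z = ∫ t in (0 : ℝ)..z, P4_F1 A 0 α (2 * t) := by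
      rw [P4_G1]
      refine intervalIntegral.integral_congr fun t _ => ?_
      simp only [P4_F1, P2_double]
    rw [e, intervalIntegral.integral_comp_mul_left _ (two_ne_zero), mul_zero, smul_eq_mul, P4_G1,
      one_div]
  · have e : G2 A 1 z = ∫ t in (0 : ℝ)..z, P4_F2 A 0 (2 * t) := by
      rw [P4_G2]
      refine intervalIntegral.integral_congr fun t _ => ?_
      simp only [P4_F2, P2_double]
    rw [e, intervalIntegral.integral_comp_mul_left _ (two_ne_zero), mul_zero, smul_eq_mul, P4_G2,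
      one_div]

theorem P4_amp0 (θ z : ℝ) : G1 0 θ 1 z = z ∧ G2 0 θ z = 0 := by
  obtain ⟨a, b, c⟩ := P1_f_zero
  refine ⟨?_, ?_⟩
  · have e : G1 0 θ 1 z = ∫ _t in (0 : ℝ)..z, (1 : ℝ) := by
      rw [P4_G1]
      refine intervalIntegral.integral_congr fun t _ => ?_
      simp only [P4_F1, P2_amp0, a, b]
      norm_num
    rw [e, intervalIntegral.integral_const, smul_eq_mul, mul_one, sub_zero]
  · have e : G2 0 θ z = ∫ _t in (0 : ℝ)..z, (0 : ℝ) := by
      rw [P4_G2]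
      refine intervalIntegral.integral_congr fun t _ => ?_
      simp only [P4_F2, P2_amp0, c]
    rw [e, intervalIntegral.integral_zero]

end H80.LD

end S_H80_LD_P4

section S_H80_LD_P5

/-!
# P5: the growing pattern at a closed level, scale function

A number `c` is in the closed level `i : ℕ` if `i ≤ max (c/Lp) 0 ≤ i + 1`; then `θ = th i c ∈ [0,1]`.  `sg c = 2 ^ (i + θ)` (`Real.rpow_natCast`, `rpow_add`), so `lam' i * sg c = Lam * 2 ^ θ ∈ [Lam, 2 Lam]`.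
* `P5_sg`: `1 ≤ sg c`; `P5_sg_slow`: `|c - c'| ≤ Lp` implies `sg c' ≤ 2 sg c` (exponents differ by at most 1).
* `P5_lev`: `c` is in the closed level `lev c` (`Nat.floor_le`, `Nat.lt_floor_add_one`; for `c < 0` the floor is 0); for integers `j` and `c ∈ [j, j+1]`, `c` is in the closed level `lev j`: `Lp = 10^10` is an integer, so for `j ≥ 0` `j < (i+1) Lp`
  implies `j + 1 ≤ (i + 1) Lp` with `i = ⌊j/Lp⌋₊`.
* `P5_cons`: if `c` is in the closed level `i` then `Wf i c x = Wf (lev c) c x`, `g1f`, `g2f` same.  If `lev c = i` trivial.  Otherwise `max (c/Lp) 0 = i + 1`, `lev c = i + 1`, `th i c = 1`, `th (i+1) c = 0`, `am c = 1`, `lam' (i+1) = lam' i / 2`: `P2_double`, `P3_double` (so `al i c = al (i+1) c`), `P4_double`.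
* `P5_am`: `am c ∈ [0,1]`, and `sg c = 1` (`c ≤ 0`) or `am c = 1` (`c ≥ 0`): so `1/20 ≤ al i c ≤ 3` (`P3_al`, `μ = 1/sg c`).
* Lipschitz in `c` on a closed level: `|am c - am c'| ≤ |c - c'|/Lp`, `|th i c - th i c'| ≤ |c - c'|/Lp`.
-/

open Filter Topology Metric Set MeasureTheory

namespace H80.LD

theorem P5_Lp_pos : 0 < Lp := by
  unfold Lp
  positivity

theorem P5_Lam_pos : 0 < Lam := by
  unfold Lam
  positivity

theorem P5_rp (x : ℝ) (hx : 0 ≤ x) : 1 + x / 2 ≤ (2 : ℝ) ^ x ∧ 1 - x ≤ (2 : ℝ) ^ (-x) := by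
  have h1 := Real.log_two_gt_d9
  have h2 := Real.log_two_lt_d9
  constructor
  · rw [Real.rpow_def_of_pos (by norm_num : (0 : ℝ) < 2)]
    have h3 := Real.add_one_le_exp (Real.log 2 * x)
    nlinarith
  · rw [Real.rpow_def_of_pos (by norm_num : (0 : ℝ) < 2)]
    have h3 := Real.add_one_le_exp (Real.log 2 * -x)
    nlinarith

theorem P5_lam_succ (i : ℕ) : lam' (i + 1) = lam' i / 2 := by
  unfold lam'
  rw [pow_succ, div_div]

theorem P5_lam_pos (i : ℕ) : 0 < lam' i := by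
  unfold lam'
  exact div_pos P5_Lam_pos (by positivity)

theorem P5_sg (c : ℝ) : 1 ≤ sg c := by
  exact Real.one_le_rpow (by norm_num) (le_max_right _ _)

theorem P5_sg_slow (c c' : ℝ) (h : |c - c'| ≤ Lp) : sg c' ≤ 2 * sg c := by
  have hL := P5_Lp_pos
  have h1 : max (c' / Lp) 0 ≤ max (c / Lp) 0 + 1 := by
    apply max_le
    · have h2 : c' ≤ c + Lp := by
        have := neg_abs_le (c - c')
        linarith
      have h3 : c' / Lp ≤ c / Lp + 1 := by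
        rw [div_le_iff₀ hL, add_mul, div_mul_cancel₀ _ hL.ne', one_mul]
        exact h2
      have := le_max_left (c / Lp) 0
      linarith
    · have := le_max_right (c / Lp) 0
      linarith
  unfold sg
  calc (2 : ℝ) ^ (max (c' / Lp) 0) ≤ (2 : ℝ) ^ (max (c / Lp) 0 + 1) :=
        Real.rpow_le_rpow_of_exponent_le (by norm_num) h1
    _ = 2 * (2 : ℝ) ^ (max (c / Lp) 0) := by
        rw [Real.rpow_add_one (by norm_num)]
        ring

theorem P5_sg_mono (c c' : ℝ) (h : c ≤ c') : sg c ≤ sg c' := by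
  have hL := P5_Lp_pos
  unfold sg
  apply Real.rpow_le_rpow_of_exponent_le (by norm_num)
  apply max_le_max _ le_rfl
  gcongr

theorem P5_sg_neg (c : ℝ) (h : c ≤ 0) : sg c = 1 := by
  have hL := P5_Lp_pos
  unfold sg
  rw [max_eq_right (div_nonpos_of_nonpos_of_nonneg h hL.le), Real.rpow_zero]

/-- `2^b - 2^a ≤ 2^b (b - a)` and `≥ 2^a (b - a)/2` for `a ≤ b` -/
theorem P5_sg_diff (c c' : ℝ) (h0 : 0 ≤ c) (h : c ≤ c') :
    sg c * (c' - c) / (2 * Lp) ≤ sg c' - sg c ∧ sg c' - sg c ≤ sg c' * (c' - c) / Lp := by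
  have hL := P5_Lp_pos
  have hc' : 0 ≤ c' := h0.trans h
  have e1 : sg c = (2 : ℝ) ^ (c / Lp) := by
    unfold sg
    rw [max_eq_left (by positivity)]
  have e2 : sg c' = (2 : ℝ) ^ (c' / Lp) := by
    unfold sg
    rw [max_eq_left (by positivity)]
  have hx : 0 ≤ (c' - c) / Lp := div_nonneg (by linarith) hL.le
  obtain ⟨h1, h2⟩ := P5_rp _ hx
  have e3 : sg c' = sg c * (2 : ℝ) ^ ((c' - c) / Lp) := by
    rw [e1, e2, ← Real.rpow_add (by norm_num)]
    congr 1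
    field_simp
    ring
  have e4 : sg c = sg c' * (2 : ℝ) ^ (-((c' - c) / Lp)) := by
    rw [e1, e2, ← Real.rpow_add (by norm_num)]
    congr 1
    field_simp
    ring
  have p1 : 0 < sg c := by rw [e1]; positivity
  have p2 : 0 < sg c' := by rw [e2]; positivity
  constructor
  · have h3 : sg c * (1 + (c' - c) / Lp / 2) ≤ sg c' := by
      rw [e3]
      exact mul_le_mul_of_nonneg_left h1 p1.le
    have e5 : sg c * (c' - c) / (2 * Lp) = sg c * ((c' - c) / Lp / 2) := by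
      field_simp
    rw [e5]
    linarith
  · have h3 : sg c' * (1 - (c' - c) / Lp) ≤ sg c := by
      calc sg c' * (1 - (c' - c) / Lp) ≤ sg c' * (2 : ℝ) ^ (-((c' - c) / Lp)) :=
            mul_le_mul_of_nonneg_left h2 p2.le
        _ = sg c := e4.symm
    have e5 : sg c' * (c' - c) / Lp = sg c' * ((c' - c) / Lp) := by
      rw [mul_div_assoc]
    rw [e5]
    linarith

theorem P5_lev_lt (c : ℝ) : max (c / Lp) 0 < lev c + 1 := by
  unfold lev
  apply max_lt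
  · exact Nat.lt_floor_add_one _
  · positivity

theorem P5_lev (c : ℝ) : (lev c : ℝ) ≤ max (c / Lp) 0 ∧ max (c / Lp) 0 ≤ lev c + 1 := by
  refine ⟨?_, (P5_lev_lt c).le⟩
  unfold lev
  rcases le_total 0 (c / Lp) with hc | hc
  · exact (Nat.floor_le hc).trans (le_max_left _ _)
  · rw [Nat.floor_of_nonpos hc, Nat.cast_zero]
    exact le_max_right _ _

theorem P5_levj (j : ℤ) (c : ℝ) (h : (j : ℝ) ≤ c) (h' : c ≤ j + 1) :
    (lev (j : ℝ) : ℝ) ≤ max (c / Lp) 0 ∧ max (c / Lp) 0 ≤ lev (j : ℝ) + 1 := by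
  have hL := P5_Lp_pos
  have hjc : (j : ℝ) / Lp ≤ c / Lp := by gcongr
  refine ⟨(P5_lev (j : ℝ)).1.trans (max_le_max hjc le_rfl), ?_⟩
  apply max_le _ (by positivity)
  rw [div_le_iff₀ hL]
  have h1 : (j : ℝ) < ((lev (j : ℝ) : ℝ) + 1) * Lp := by
    rw [← div_lt_iff₀ hL]
    exact (le_max_left _ _).trans_lt (P5_lev_lt (j : ℝ))
  have h2 : (j : ℝ) < (((lev (j : ℝ) : ℤ) + 1) * 10 ^ 10 : ℤ) := by
    have : Lp = 10 ^ 10 := rfl
    rw [this] at h1
    push_cast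
    linarith
  have h3 : j + 1 ≤ ((lev (j : ℝ) : ℤ) + 1) * 10 ^ 10 := by
    have := Int.cast_lt.mp h2
    omega
  have h4 : ((j + 1 : ℤ) : ℝ) ≤ (((lev (j : ℝ) : ℤ) + 1) * 10 ^ 10 : ℤ) := Int.cast_le.mpr h3
  push_cast at h4
  have h5 : Lp = 10 ^ 10 := rfl
  rw [h5]
  linarith

theorem P5_size (i : ℕ) (c : ℝ) (h : (i : ℝ) ≤ max (c / Lp) 0) (h' : max (c / Lp) 0 ≤ i + 1) :
    Lam ≤ lam' i * sg c ∧ lam' i * sg c ≤ 2 * Lam := by
  have e1 : sg c = 2 ^ i * (2 : ℝ) ^ (max (c / Lp) 0 - i) := by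
    unfold sg
    rw [← Real.rpow_natCast, ← Real.rpow_add (by norm_num)]
    congr 1
    ring
  have e2 : lam' i * sg c = Lam * (2 : ℝ) ^ (max (c / Lp) 0 - i) := by
    rw [e1]
    unfold lam'
    have : (2 : ℝ) ^ i ≠ 0 := by positivity
    field_simp
  have h1 : 1 ≤ (2 : ℝ) ^ (max (c / Lp) 0 - i) := Real.one_le_rpow (by norm_num) (by linarith)
  have h2 : (2 : ℝ) ^ (max (c / Lp) 0 - i) ≤ 2 := by
    calc (2 : ℝ) ^ (max (c / Lp) 0 - i) ≤ (2 : ℝ) ^ (1 : ℝ) :=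
          Real.rpow_le_rpow_of_exponent_le (by norm_num) (by linarith)
      _ = 2 := Real.rpow_one 2
  have h3 := P5_Lam_pos
  rw [e2]
  constructor
  · nlinarith
  · nlinarith

theorem P5_th (i : ℕ) (c : ℝ) (h : (i : ℝ) ≤ max (c / Lp) 0) (h' : max (c / Lp) 0 ≤ i + 1) :
    0 ≤ th i c ∧ th i c ≤ 1 ∧ 0 ≤ am c ∧ am c ≤ 1 := by
  have h1 := K1_cl_mem (1 + c / Lp)
  refine ⟨?_, ?_, h1.1, h1.2⟩
  · unfold th
    linarith
  · unfold th
    linarith

theorem P5_al (i : ℕ) (c : ℝ) (h : (i : ℝ) ≤ max (c / Lp) 0) (h' : max (c / Lp) 0 ≤ i + 1) :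
    1 / 20 ≤ al i c ∧ al i c ≤ 3 := by
  obtain ⟨h1, h2, h3, h4⟩ := P5_th i c h h'
  have hs := P5_sg c
  have hs0 : 0 < sg c := by linarith
  refine P3_al (am c) (th i c) (1 / sg c) h3 h4 h1 h2 (by positivity) ?_ ?_
  · rw [div_le_one hs0]
    exact hs
  · rcases le_total c 0 with hc | hc
    · left
      rw [P5_sg_neg c hc, div_one]
    · right
      unfold am
      apply K1_cl_one
      have := div_nonneg hc P5_Lp_pos.le
      linarith

theorem P5_cons (i : ℕ) (c x : ℝ) (h : (i : ℝ) ≤ max (c / Lp) 0) (h' : max (c / Lp) 0 ≤ i + 1) :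
    Wf i c x = Wf (lev c) c x ∧ g1f i c x = g1f (lev c) c x ∧ g2f i c x = g2f (lev c) c x ∧ al i c = al (lev c) c := by
  have h1 := P5_lev c
  have h2 := P5_lev_lt c
  have h3 : i ≤ lev c := by
    have : (i : ℝ) < ((lev c + 1 : ℕ) : ℝ) := by push_cast; linarith
    have := Nat.cast_lt.mp this
    omega
  have h4 : lev c ≤ i + 1 := by
    have : ((lev c : ℕ) : ℝ) ≤ ((i + 1 : ℕ) : ℝ) := by push_cast; linarith
    exact Nat.cast_le.mp this
  rcases Nat.eq_or_lt_of_le h3 with h5 | h5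
  · rw [← h5]
    exact ⟨rfl, rfl, rfl, rfl⟩
  · have h6 : lev c = i + 1 := by omega
    rw [h6]
    rw [h6] at h1
    have h7 : max (c / Lp) 0 = i + 1 := by
      apply le_antisymm h'
      have := h1.1
      push_cast at this
      exact this
    have t1 : th i c = 1 := by
      unfold th
      rw [h7]
      ring
    have t2 : th (i + 1) c = 0 := by
      unfold th
      rw [h7]
      push_cast
      ring
    have a1 := K1_cl_mem (1 + c / Lp)
    have hli := P5_lam_pos i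
    have x1 : x / lam' (i + 1) = 2 * (x / lam' i) := by
      rw [P5_lam_succ]
      field_simp
    have d3 := P3_double (am c) a1.1 a1.2
    have hal : al i c = al (i + 1) c := by
      unfold al
      rw [t1, t2, d3.1, d3.2]
    have d4 := P4_double (am c) (al (i + 1) c) (x / lam' i) a1.1 a1.2
    refine ⟨?_, ?_, ?_, hal⟩
    · unfold Wf
      rw [t1, t2, x1, P2_double]
    · unfold g1f
      rw [t1, t2, x1, hal, d4.1, P5_lam_succ]
      ring
    · unfold g2f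
      rw [t1, t2, x1, d4.2, P5_lam_succ]
      ring

end H80.LD

end S_H80_LD_P5

section S_H80_LD_C4

/-!
# C4: the change of the `t`-coordinate

`TT s = s` for `s ≤ 0`, `TT s = 2 Lp (1 - 1/sg s)` for `s ≥ 0` (`sg 0 = 1`).  `P5_sg_diff`: for `0 ≤ s ≤ s'`: `TT s' - TT s = 2 Lp (sg s' - sg s)/(sg s * sg s') ∈ [(s' - s)/sg s', 2 (s' - s)/sg s]`.
* `C4_mono`: strictly increasing (pieces `s ≤ 0` and `s ≥ 0`).  `C4_lt`: `TT s < 2 Lp`.
* `C4_surj`: for `y < 2 Lp` there is `s` with `TT s = y`: `y ≤ 0`: `s = y`; otherwise `s = Lp * logb 2 (1/(1 - y/(2 Lp)))`, `sg s = 1/(1 - y/(2Lp))` (`Real.rpow_logb`), or intermediate value theorem and `1/sg s → 0`.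
* `C4_SS`: `SS (TT s) = s` (injectivity), `TT (SS y) = y` for `y < 2 Lp`.
* `C4_comp`: for `|s - s'| ≤ 1`: `|s - s'|/4 ≤ sg s * |TT s - TT s'| ≤ 4 |s - s'|`.  `sg s ≤ 2 sg s'` and conversely (`P5_sg_slow`); for both `≥ 0` by the bounds above; both `≤ 0`: `sg s = 1`; mixed signs: split at `0`.
* `C4_dist`: `1 ≤ sg s * (2 Lp - TT s)`: equal to `2 Lp` for `s ≥ 0`, and `2 Lp - s` for `s ≤ 0`.
* `C4_near`: if `y < 2 Lp`, for every `δ > 0`, `|SS y' - SS y| < δ` for `y'` near `y`: `TT (SS y - δ) < y < TT (SS y + δ)`, for `y'` in between (and `< 2 Lp`) `SS y' ∈ (SS y - δ, SS y + δ)` by monotonicity.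
-/

open Filter Topology Metric Set

namespace H80.LD

theorem C4_neg (s : ℝ) (h : s ≤ 0) : TT s = s := by
  unfold TT
  rw [if_pos h]

theorem C4_pos (s : ℝ) (h : 0 ≤ s) : TT s = 2 * Lp * (1 - 1 / sg s) := by
  rcases h.eq_or_lt with h | h
  · rw [← h, C4_neg 0 le_rfl, P5_sg_neg 0 le_rfl]
    ring
  · unfold TT
    rw [if_neg (not_le.2 h)]

theorem C4_Lp : (1 : ℝ) ≤ Lp := by
  unfold Lp
  norm_num

theorem C4_key (s s' : ℝ) (h0 : 0 ≤ s) (h : s ≤ s') :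
    s' - s ≤ sg s' * (TT s' - TT s) ∧ sg s * (TT s' - TT s) ≤ 2 * (s' - s) := by
  have h1 := P5_sg s
  have h2 := P5_sg s'
  have hL := C4_Lp
  have h3 := P5_sg_diff s s' h0 h
  rw [C4_pos s h0, C4_pos s' (h0.trans h)]
  have hs : 0 < sg s := by linarith
  have hs' : 0 < sg s' := by linarith
  have hL0 : 0 < Lp := by linarith
  have e1 : sg s' * (2 * Lp * (1 - 1 / sg s') - 2 * Lp * (1 - 1 / sg s))
      = 2 * Lp / sg s * (sg s' - sg s) := by field_simp; ring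
  have e2 : sg s * (2 * Lp * (1 - 1 / sg s') - 2 * Lp * (1 - 1 / sg s))
      = 2 * Lp / sg s' * (sg s' - sg s) := by field_simp; ring
  rw [e1, e2]
  constructor
  · calc s' - s = 2 * Lp / sg s * (sg s * (s' - s) / (2 * Lp)) := by field_simp
      _ ≤ _ := mul_le_mul_of_nonneg_left h3.1 (by positivity)
  · calc 2 * Lp / sg s' * (sg s' - sg s) ≤ 2 * Lp / sg s' * (sg s' * (s' - s) / Lp) :=
          mul_le_mul_of_nonneg_left h3.2 (by positivity)
      _ = _ := by field_simp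

theorem C4_key2 (s s' : ℝ) (h : s ≤ s') :
    s' - s ≤ sg s' * (TT s' - TT s) ∧ sg s * (TT s' - TT s) ≤ 2 * (s' - s) := by
  rcases le_total 0 s with h0 | h0
  · exact C4_key s s' h0 h
  · rcases le_total 0 s' with h1 | h1
    · have h2 := C4_key 0 s' le_rfl h1
      rw [P5_sg_neg 0 le_rfl, C4_neg 0 le_rfl] at h2
      rw [P5_sg_neg s h0, C4_neg s h0]
      have h3 := P5_sg s'
      constructor
      · nlinarith [h2.1]
      · linarith [h2.2]
    · rw [P5_sg_neg s h0, C4_neg s h0, P5_sg_neg s' h1, C4_neg s' h1]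
      constructor <;> linarith

theorem C4_mono : StrictMono TT := by
  intro a b hab
  have h := (C4_key2 a b hab.le).1
  have h2 := P5_sg b
  by_contra hc
  have h3 : TT b - TT a ≤ 0 := by linarith [not_lt.1 hc]
  nlinarith

theorem C4_lt (s : ℝ) : TT s < 2 * Lp := by
  have hL := C4_Lp
  rcases le_total s 0 with h | h
  · rw [C4_neg s h]; linarith
  · rw [C4_pos s h]
    have h1 := P5_sg s
    have h2 : 0 < 1 / sg s := by positivity
    nlinarith

theorem C4_surj (y : ℝ) (hy : y < 2 * Lp) : ∃ s, TT s = y := by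
  have hL := C4_Lp
  rcases le_total y 0 with h | h
  · exact ⟨y, C4_neg y h⟩
  · have hL0 : 0 < Lp := by linarith
    have h1 : 0 < 1 - y / (2 * Lp) := by
      rw [sub_pos, div_lt_one (by linarith)]; exact hy
    have h2 : 1 - y / (2 * Lp) ≤ 1 := by
      have : 0 ≤ y / (2 * Lp) := by positivity
      linarith
    have h3 : 1 ≤ 1 / (1 - y / (2 * Lp)) := by
      rw [le_div_iff₀ h1]; linarith
    have h4 : 0 ≤ Real.logb 2 (1 / (1 - y / (2 * Lp))) := Real.logb_nonneg (by norm_num) h3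
    refine ⟨Lp * Real.logb 2 (1 / (1 - y / (2 * Lp))), ?_⟩
    rw [C4_pos _ (by positivity)]
    have h5 : sg (Lp * Real.logb 2 (1 / (1 - y / (2 * Lp)))) = 1 / (1 - y / (2 * Lp)) := by
      unfold sg
      rw [mul_div_cancel_left₀ _ hL0.ne', max_eq_left h4,
        Real.rpow_logb (by norm_num) (by norm_num) (by linarith)]
    rw [h5, one_div_one_div]
    field_simp
    ring

theorem C4_SS (s : ℝ) : SS (TT s) = s := by
  have h : ∃ s', TT s' = TT s := ⟨s, rfl⟩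
  unfold SS
  rw [dif_pos h]
  exact C4_mono.injective h.choose_spec

theorem C4_TT (y : ℝ) (hy : y < 2 * Lp) : TT (SS y) = y := by
  have h := C4_surj y hy
  unfold SS
  rw [dif_pos h]
  exact h.choose_spec

theorem C4_SSneg (y : ℝ) (hy : y ≤ 0) : SS y = y := by
  have h := C4_SS y
  rwa [C4_neg y hy] at h

theorem C4_comp (s s' : ℝ) (h : |s - s'| ≤ 1) :
    |s - s'| / 4 ≤ sg s * |TT s - TT s'| ∧ sg s * |TT s - TT s'| ≤ 4 * |s - s'| := by
  have hL := C4_Lp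
  have hs := P5_sg s
  have hs' := P5_sg s'
  have h1 : sg s ≤ 2 * sg s' := P5_sg_slow s' s (by rw [abs_sub_comm]; linarith)
  have h2 : sg s' ≤ 2 * sg s := P5_sg_slow s s' (by linarith)
  rcases le_total s s' with hc | hc
  · have hk := C4_key2 s s' hc
    have hm : TT s ≤ TT s' := C4_mono.monotone hc
    have e1 : |s - s'| = s' - s := by rw [abs_sub_comm, abs_of_nonneg (by linarith)]
    have e2 : |TT s - TT s'| = TT s' - TT s := by rw [abs_sub_comm, abs_of_nonneg (by linarith)]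
    rw [e1, e2]
    have hd : 0 ≤ TT s' - TT s := by linarith
    constructor
    · have : sg s' * (TT s' - TT s) ≤ 2 * sg s * (TT s' - TT s) :=
        mul_le_mul_of_nonneg_right h2 hd
      nlinarith [hk.1]
    · linarith [hk.2]
  · have hk := C4_key2 s' s hc
    have hm : TT s' ≤ TT s := C4_mono.monotone hc
    have e1 : |s - s'| = s - s' := abs_of_nonneg (by linarith)
    have e2 : |TT s - TT s'| = TT s - TT s' := abs_of_nonneg (by linarith)
    rw [e1, e2]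
    have hd : 0 ≤ TT s - TT s' := by linarith
    constructor
    · linarith [hk.1]
    · have : sg s * (TT s - TT s') ≤ 2 * sg s' * (TT s - TT s') :=
        mul_le_mul_of_nonneg_right h1 hd
      linarith [hk.2]

theorem C4_dist (s : ℝ) : 1 ≤ sg s * (2 * Lp - TT s) := by
  have hL := C4_Lp
  rcases le_total s 0 with h | h
  · rw [C4_neg s h, P5_sg_neg s h]; linarith
  · rw [C4_pos s h]
    have h1 := P5_sg s
    have h2 : sg s ≠ 0 := by linarith
    have e : sg s * (2 * Lp - 2 * Lp * (1 - 1 / sg s)) = 2 * Lp := by field_simp; ring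
    rw [e]; linarith

theorem C4_near (y : ℝ) (hy : y < 2 * Lp) (δ : ℝ) (hδ : 0 < δ) : ∀ᶠ y' in 𝓝 y, y' < 2 * Lp ∧ |SS y' - SS y| < δ := by
  have h1 : TT (SS y - δ) < y := by
    conv_rhs => rw [← C4_TT y hy]
    exact C4_mono (by linarith)
  have h2 : y < TT (SS y + δ) := by
    conv_lhs => rw [← C4_TT y hy]
    exact C4_mono (by linarith)
  filter_upwards [Ioo_mem_nhds h1 h2] with y' hy'
  have h3 : y' < 2 * Lp := hy'.2.trans (C4_lt _)
  refine ⟨h3, ?_⟩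
  have h4 := C4_TT y' h3
  have h5 : TT (SS y - δ) < TT (SS y') := by rw [h4]; exact hy'.1
  have h6 : TT (SS y') < TT (SS y + δ) := by rw [h4]; exact hy'.2
  have h7 := C4_mono.lt_iff_lt.1 h5
  have h8 := C4_mono.lt_iff_lt.1 h6
  rw [abs_lt]
  constructor <;> linarith

theorem C4_kapiot {X : Type*} [NormedAddCommGroup X] {D : Type*} [Fintype D] [DecidableEq D] (t : D)
    (p : X × (D → ℝ)) : kap t (iot t p) = p := by
  unfold kap iot
  simp [C4_SS]

theorem C4_iotkap {X : Type*} [NormedAddCommGroup X] {D : Type*} [Fintype D] [DecidableEq D] (t : D)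
    (p : X × (D → ℝ)) (hp : p.2 t < 2 * Lp) : iot t (kap t p) = p := by
  unfold kap iot
  simp [C4_TT _ hp]

end H80.LD

end S_H80_LD_C4
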