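import Mathlib
import Pool.Agent.H80.LM.G01
import Pool.Agent.H80.LM.G03

/-! MP_816883_ag: this file joins several modules (see the folders H80/LD, H24/LS) to save build time. -/

section S_H80_LD_F5

/-!
# F5: pointwise Lipschitz bound of `fFi` (same method as F4)

`y.2 ≠ 0`, `k = kk (1/2) y`, `y' = lam (2^k) y`, `1/2 ≤ n y'`, `n y' < 1` if `k ≥ 1`.
* If `1/2 < n y'` and (`k = 0` or `n y' < 1`): `kk` is constant near `y` and `fFi q = lam ((1/2)^k) (gFi (lam (2^k) q))` near `y` (scaling does not change the constant).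
  `gFi` at `y'` (`1/2 < n y' < 2`): if `n (f' y') > 3/4` it is `f'` near `y'`; if `n (f' y') < 3/4` (then `n y' < 1`) it is `A = lam (1/2) ∘ f' ∘ rad rRi ∘ stTi f f'` near `y'`; if `n (f' y') = 3/4`
  it is one of the two, and `A y' = f' y'`: `stTi y' = f (rad rSi (f' y'))`, `rSi (3/4) = 3/2`, `s = rad rSi (f' y') = lam 2 (f' y')`, `n (f s) ≥ 1.49 ≥ 6/5`, `rad rRi (f s) = f s`,
  `f' (f s) = s`, `lam (1/2) s = f' y'`.  `stTi` at `y'`: identity near `y'` if `n (f' y') < 3/5`, `f ∘ rad rSi ∘ f'` if `> 3/5`, one of the two if `= 3/5`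
  (`rSi (3/5) = 3/5`, `f (f' y') = y'`).
* If `n y' = 1/2`: near `y`, `fFi q` is `lam ((1/2)^k) (gFi (lam (2^k) q))` with `gFi = A` and `stTi = id` near `y'` (`n (f' y') < 3/5`), i.e. `lam (1/2) ∘ f' ∘ rad rRi`, or
  `lam ((1/2)^(k+1)) (gFi (lam (2^(k+1)) q))` with radius of `lam (2^(k+1)) q` slightly below `1`, where `gFi = f'` (`n (f' ·) ≥ 0.98 ≥ 3/4`).  Both agree at `y`:
  `rRi (1/2) = 1`, `rad rRi y' = lam 2 y'`.
Lipschitz factors: `rad rSi`: `3 * 6` (`rSi g ≤ 6 g`), `rad rRi`: `3 * 2` at points of radius `≥ 1/2` (`rRi g ≤ 2 g` there), so the total is `(1/2) * L * 6 * L * 18 * L ≤ 100 L^3`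
(the factor `1/2` may be ignored for the first component: `6*18 = 108`; use the bound `200 * L^3`).
The pointwise bounds of `f, f'` are used at points of the shell with first component `c` only: check that all intermediate points have radius between `0.49` and `1.6`, or `< 2`.
-/

open Filter Topology Metric Set

namespace H80.LD

variable {X V : Type*} [NormedAddCommGroup X] [NormedAddCommGroup V] [NormedSpace ℝ V]

/-- pointwise Lipschitz bound -/
def F5_pl (G : X × V → X × V) (C : ℝ) (p : X × V) : Prop :=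
  ∀ᶠ q in 𝓝 p, ‖G q - G p‖ ≤ C * ‖q - p‖

theorem F5_mono {G : X × V → X × V} {C C' : ℝ} {p : X × V} (h : F5_pl G C p) (hC : C ≤ C') :
    F5_pl G C' p := by
  filter_upwards [h] with q hq
  exact hq.trans (mul_le_mul_of_nonneg_right hC (norm_nonneg _))

theorem F5_comp {G G1 : X × V → X × V} {C C1 : ℝ} {p : X × V} (hC : 0 ≤ C1) (h : F5_pl G C p)
    (h1 : F5_pl G1 C1 (G p)) : F5_pl (fun q => G1 (G q)) (C1 * C) p :=
  B0b_plip_comp hC h h1

theorem F5_congr {G G1 : X × V → X × V} {C : ℝ} {p : X × V} (h : F5_pl G C p)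
    (he : ∀ᶠ q in 𝓝 p, G1 q = G q) : F5_pl G1 C p := by
  have h0 := he.self_of_nhds
  filter_upwards [h, he] with q h1 h2
  rw [h2, h0]
  exact h1

theorem F5_cont {G : X × V → X × V} {C : ℝ} {p : X × V} (h : F5_pl G C p) :
    ContinuousAt (fun q => ‖(G q).2‖) p :=
  (continuous_snd.norm.continuousAt).comp (B0b_cont h)

theorem F5_rad {r : ℝ → ℝ} {l : ℝ} {p : X × V} (hl : 1 ≤ l) (hp : p.2 ≠ 0)
    (h1 : ∀ a b, |r a - r b| ≤ l * |a - b|) (h0 : 0 ≤ r ‖p.2‖) (h2 : r ‖p.2‖ ≤ l * ‖p.2‖) :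
    F5_pl (rad r) (3 * l) p :=
  Eventually.of_forall fun q => F1_rad_lip r l hl p q hp (h1 _ _) h0 h2

theorem F5_near {f : X × V → X × V} {ε : ℝ} {p : X × V} (h : ‖f p - p‖ ≤ ε) :
    ‖(f p).2‖ ≤ ‖p.2‖ + ε ∧ ‖p.2‖ ≤ ‖(f p).2‖ + ε := by
  have h1 : ‖(f p).2 - p.2‖ ≤ ε := (norm_snd_le (f p - p)).trans h
  constructor
  · have := norm_le_norm_add_norm_sub' (f p).2 p.2
    linarith
  · have := norm_le_norm_add_norm_sub' p.2 (f p).2
    rw [norm_sub_rev] at this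
    linarith

section

variable {ε L : ℝ} {c : X} {f f' : X × V → X × V}

theorem F5_mem {p : X × V} (hc : p.1 = c) (h1 : 1 / 3 < ‖p.2‖) (h2 : ‖p.2‖ < 2) :
    p ∈ ({c} ×ˢ sh V : Set (X × V)) := ⟨hc, h1, h2⟩

theorem F5_ne {p : X × V} {a : ℝ} (ha : 0 < a) (h : a ≤ ‖p.2‖) : p.2 ≠ 0 :=
  norm_pos_iff.1 (lt_of_lt_of_le ha h)

/-- the map `f ∘ rad rSi ∘ f'` -/
theorem F5_S (hL : 1 ≤ L) (hε : ε ≤ 1 / 100) (h : NP ε L ({c} ×ˢ sh V) f f') {y : X × V}
    (hc : y.1 = c) (h1 : 1 / 2 ≤ ‖y.2‖) (h2 : ‖y.2‖ < 2) (h3 : 3 / 5 ≤ ‖(f' y).2‖)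
    (h4 : ‖(f' y).2‖ ≤ 3 / 4) : F5_pl (fun q => f (rad rSi (f' q))) (L * (3 * 6 * L)) y := by
  have hy := F5_mem hc (by linarith) h2
  have hne : (f' y).2 ≠ 0 := F5_ne (by norm_num) h3
  have hr : rSi ‖(f' y).2‖ = 6 * ‖(f' y).2‖ - 3 := max_eq_right (by linarith)
  have hn : ‖(rad rSi (f' y)).2‖ = 6 * ‖(f' y).2‖ - 3 := by
    rw [F1_rad_norm _ _ hne, hr, abs_of_nonneg (by linarith)]
  have hz : rad rSi (f' y) ∈ ({c} ×ˢ sh V : Set (X × V)) := by
    refine F5_mem ?_ (by rw [hn]; linarith) (by rw [hn]; linarith)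
    change (f' y).1 = c
    rw [h.pres', hc]
  have a1 : F5_pl f' L y := h.lip' y hy
  have a2 : F5_pl (rad rSi) (3 * 6) (f' y) := by
    refine F5_rad (by norm_num) hne (fun a b => (F1_lips a b).2.1) ?_ ?_
    · rw [hr]; linarith
    · rw [hr]; linarith
  have a3 : F5_pl f L (rad rSi (f' y)) := h.lip _ hz
  exact F5_comp (by linarith) (F5_comp (by norm_num) a1 a2) a3

theorem F5_stTi (hL : 1 ≤ L) (hε : ε ≤ 1 / 100) (h : NP ε L ({c} ×ˢ sh V) f f') {y : X × V}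
    (hc : y.1 = c) (h1 : 1 / 2 ≤ ‖y.2‖) (h2 : ‖y.2‖ < 2) (h4 : ‖(f' y).2‖ ≤ 3 / 4) :
    F5_pl (stTi f f') (18 * L ^ 2) y := by
  have hy := F5_mem hc (by linarith) h2
  have hL0 : 0 < L := by linarith
  have a1 : F5_pl f' L y := h.lip' y hy
  have hcont := F5_cont a1
  have hid : F5_pl (fun q : X × V => q) (18 * L ^ 2) y := by
    refine Eventually.of_forall fun q => ?_
    have : 1 ≤ 18 * L ^ 2 := by nlinarith
    exact le_mul_of_one_le_left (norm_nonneg _) this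
  rcases lt_trichotomy ‖(f' y).2‖ (3 / 5) with h3 | h3 | h3
  · refine F5_congr hid ?_
    filter_upwards [hcont.eventually_lt_const h3] with q hq
    rw [stTi, if_neg (by linarith)]
  · have hS := F5_mono (F5_S hL hε h hc h1 h2 h3.ge h4) (by nlinarith : L * (3 * 6 * L) ≤ 18 * L ^ 2)
    have e1 : f (rad rSi (f' y)) = y := by
      have e2 : rad rSi (f' y) = f' y := by
        refine F1_rad_id _ _ ?_
        rw [h3, rSi]
        norm_num
      rw [e2]
      refine h.inv' y hy (F5_mem ?_ ?_ ?_)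
      · rw [h.pres', hc]
      · rw [h3]; norm_num
      · rw [h3]; norm_num
    refine B0b_ite (G₁ := fun q => f (rad rSi (f' q))) (G₂ := fun q => q)
      (Eventually.of_forall fun q => ?_) ?_ ?_ hS hid
    · rw [stTi]
      split_ifs
      · exact Or.inl rfl
      · exact Or.inr rfl
    · rw [stTi, if_pos h3.ge]
    · rw [stTi, if_pos h3.ge, e1]
  · have hS := F5_mono (F5_S hL hε h hc h1 h2 h3.le h4) (by nlinarith : L * (3 * 6 * L) ≤ 18 * L ^ 2)
    refine F5_congr hS ?_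
    filter_upwards [hcont.eventually_const_lt h3] with q hq
    rw [stTi, if_pos hq.le]

/-- size of `stTi` -/
theorem F5_stTi_norm (hε : ε ≤ 1 / 100) (h : NP ε L ({c} ×ˢ sh V) f f')
    {y : X × V} (hc : y.1 = c) (h1 : 1 / 2 ≤ ‖y.2‖) (h2 : ‖y.2‖ < 2)
    (h4 : ‖(f' y).2‖ ≤ 3 / 4) : (stTi f f' y).1 = c ∧ 1 / 2 ≤ ‖(stTi f f' y).2‖ ∧
      ‖(stTi f f' y).2‖ ≤ 151 / 100 := by
  have hy := F5_mem hc (by linarith) h2
  have hd := F5_near (h.disp' y hy)
  by_cases h3 : 3 / 5 ≤ ‖(f' y).2‖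
  · have hne : (f' y).2 ≠ 0 := F5_ne (by norm_num) h3
    have hr : rSi ‖(f' y).2‖ = 6 * ‖(f' y).2‖ - 3 := max_eq_right (by linarith)
    have hn : ‖(rad rSi (f' y)).2‖ = 6 * ‖(f' y).2‖ - 3 := by
      rw [F1_rad_norm _ _ hne, hr, abs_of_nonneg (by linarith)]
    have hz : rad rSi (f' y) ∈ ({c} ×ˢ sh V : Set (X × V)) := by
      refine F5_mem ?_ (by rw [hn]; linarith) (by rw [hn]; linarith)
      change (f' y).1 = c
      rw [h.pres', hc]
    have hd2 := F5_near (h.disp _ hz)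
    rw [hn] at hd2
    rw [stTi, if_pos h3]
    refine ⟨?_, by linarith [hd2.2], by linarith [hd2.1]⟩
    rw [h.pres]
    change (f' y).1 = c
    rw [h.pres', hc]
  · rw [stTi, if_neg h3]
    exact ⟨hc, h1, by linarith [hd.2]⟩

theorem F5_rRi {g : ℝ} (h1 : 1 / 2 ≤ g) : 1 ≤ rRi g ∧ rRi g ≤ 2 * g ∧ rRi g ≤ g + 1 / 2 := by
  refine ⟨?_, ?_, ?_⟩
  · exact le_trans (by linarith) (le_max_left _ _)
  · exact max_le (by linarith) (by linarith)
  · exact max_le (by linarith) (by linarith)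

theorem F5_rRi' {g : ℝ} (h1 : 1 / 2 ≤ g) (h2 : g ≤ 151 / 100) : rRi g ≤ 152 / 100 :=
  max_le (by linarith) (by linarith)

theorem F5_A (hL : 1 ≤ L) (hε : ε ≤ 1 / 100) (h : NP ε L ({c} ×ˢ sh V) f f') {y : X × V}
    (hc : y.1 = c) (h1 : 1 / 2 ≤ ‖y.2‖) (h2 : ‖y.2‖ < 2) (h4 : ‖(f' y).2‖ ≤ 3 / 4) :
    F5_pl (fun q => lam (1 / 2) (f' (rad rRi (stTi f f' q)))) (200 * L ^ 3) y := by
  have hL0 : 0 < L := by linarith
  obtain ⟨b1, b2, b3⟩ := F5_stTi_norm hε h hc h1 h2 h4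
  have a1 := F5_stTi hL hε h hc h1 h2 h4
  set u := stTi f f' y with hu
  have hne : u.2 ≠ 0 := F5_ne (by norm_num) b2
  have hr := F5_rRi b2
  have hr' := F5_rRi' b2 b3
  have a2 : F5_pl (rad rRi) (3 * 2) u := by
    refine F5_rad (by norm_num) hne (fun a b => ?_) (by linarith [hr.1]) hr.2.1
    have := (F1_lips a b).2.2.2
    have h0 := abs_nonneg (a - b)
    linarith
  have hn : ‖(rad rRi u).2‖ = rRi ‖u.2‖ := by
    rw [F1_rad_norm _ _ hne, abs_of_nonneg (by linarith [hr.1])]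
  have hz : rad rRi u ∈ ({c} ×ˢ sh V : Set (X × V)) :=
    F5_mem b1 (by rw [hn]; linarith [hr.1]) (by rw [hn]; linarith)
  have a3 : F5_pl f' L (rad rRi u) := h.lip' _ hz
  have a4 : F5_pl (lam (1 / 2) : X × V → X × V) 1 (f' (rad rRi u)) := by
    refine Eventually.of_forall fun q => ?_
    rw [one_mul]
    exact F1_lam_lip' (1 / 2) (by norm_num) (by norm_num) _ _
  have a5 := F5_comp (by norm_num) (F5_comp hL0.le (F5_comp (by norm_num) a1 a2) a3) a4
  refine F5_mono a5 ?_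
  have h3 : 0 < L ^ 3 := by positivity
  nlinarith

theorem F5_gFi (hL : 1 ≤ L) (hε : ε ≤ 1 / 100) (h : NP ε L ({c} ×ˢ sh V) f f') {y : X × V}
    (hc : y.1 = c) (h1 : 1 / 2 ≤ ‖y.2‖) (h2 : ‖y.2‖ < 2) :
    F5_pl (gFi f f') (200 * L ^ 3) y := by
  have hL0 : 0 < L := by linarith
  have hy := F5_mem hc (by linarith) h2
  have a1 : F5_pl f' L y := h.lip' y hy
  have hcont := F5_cont a1
  have a1' : F5_pl f' (200 * L ^ 3) y := by
    refine F5_mono a1 ?_
    have h3 : 1 ≤ L ^ 2 := by nlinarith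
    nlinarith
  rcases lt_trichotomy ‖(f' y).2‖ (3 / 4) with h3 | h3 | h3
  · refine F5_congr (F5_A hL hε h hc h1 h2 h3.le) ?_
    filter_upwards [hcont.eventually_lt_const h3] with q hq
    rw [gFi, if_neg (by linarith)]
  · have hA := F5_A hL hε h hc h1 h2 h3.le
    have e1 : lam (1 / 2) (f' (rad rRi (stTi f f' y))) = f' y := by
      have hst : stTi f f' y = f (rad rSi (f' y)) := by
        rw [stTi, if_pos (by rw [h3]; norm_num)]
      have hs : rad rSi (f' y) = lam 2 (f' y) := by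
        have hr : rSi ‖(f' y).2‖ = 3 / 2 := by
          rw [h3, rSi]; norm_num
        rw [rad, lam, hr, h3]
        norm_num
      have hn : ‖(lam 2 (f' y)).2‖ = 3 / 2 := by
        rw [F1_lam_norm 2 (by norm_num), h3]; norm_num
      have hz : lam 2 (f' y) ∈ ({c} ×ˢ sh V : Set (X × V)) := by
        refine F5_mem ?_ (by rw [hn]; norm_num) (by rw [hn]; norm_num)
        change (f' y).1 = c
        rw [h.pres', hc]
      have hd2 := F5_near (h.disp _ hz)
      rw [hn] at hd2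
      have hz2 : f (lam 2 (f' y)) ∈ ({c} ×ˢ sh V : Set (X × V)) := by
        refine F5_mem ?_ (by linarith [hd2.2]) (by linarith [hd2.1])
        rw [h.pres]
        change (f' y).1 = c
        rw [h.pres', hc]
      have hrr : rad rRi (f (lam 2 (f' y))) = f (lam 2 (f' y)) := by
        refine F1_rad_id _ _ ?_
        exact max_eq_right (by linarith [hd2.2])
      rw [hst, hs, hrr, h.inv _ hz hz2, F1_lam_lam]
      norm_num
      exact F1_lam_one _
    refine B0b_ite (G₁ := f') (G₂ := fun q => lam (1 / 2) (f' (rad rRi (stTi f f' q))))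
      (Eventually.of_forall fun q => ?_) ?_ ?_ a1' hA
    · rw [gFi]
      split_ifs
      · exact Or.inl rfl
      · exact Or.inr rfl
    · rw [gFi, if_pos h3.ge]
    · rw [gFi, if_pos h3.ge, e1]
  · refine F5_congr a1' ?_
    filter_upwards [hcont.eventually_const_lt h3] with q hq
    rw [gFi, if_pos hq.le]

theorem F5_gFi_fst (h : NP ε L ({c} ×ˢ sh V) f f') (q : X × V) : (gFi f f' q).1 = q.1 := by
  rw [gFi]
  split_ifs
  · exact h.pres' q
  · change (f' (rad rRi (stTi f f' q))).1 = q.1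
    rw [h.pres']
    change (stTi f f' q).1 = q.1
    rw [stTi]
    split_ifs
    · rw [h.pres]
      change (f' q).1 = q.1
      exact h.pres' q
    · rfl

/-- scaling does not change the constant -/
theorem F5_scale {G : X × V → X × V} {C : ℝ} (hC : 1 ≤ C) (hG : ∀ q, (G q).1 = q.1) (k : ℕ)
    {y : X × V} (h : F5_pl G C (lam (2 ^ k) y)) :
    F5_pl (fun q => lam ((1 / 2) ^ k) (G (lam (2 ^ k) q))) C y := by
  have h2k : (1 : ℝ) ≤ 2 ^ k := one_le_pow₀ (by norm_num)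
  have hc : Tendsto (fun q : X × V => lam (2 ^ k) q) (𝓝 y) (𝓝 (lam (2 ^ k) y)) := by
    have : Continuous (fun q : X × V => (q.1, (2 ^ k : ℝ) • q.2)) :=
      continuous_fst.prodMk (continuous_snd.const_smul _)
    exact this.tendsto y
  filter_upwards [hc.eventually h] with q hq
  have h1 : ‖q - y‖ = max ‖q.1 - y.1‖ ‖q.2 - y.2‖ := rfl
  have hb : ‖(G (lam (2 ^ k) q)).2 - (G (lam (2 ^ k) y)).2‖ ≤ C * (2 ^ k * ‖q - y‖) := by
    refine (norm_snd_le (G (lam (2 ^ k) q) - G (lam (2 ^ k) y))).trans (hq.trans ?_)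
    exact mul_le_mul_of_nonneg_left (F1_lam_lip _ h2k _ _) (by linarith)
  change max ‖(G (lam (2 ^ k) q)).1 - (G (lam (2 ^ k) y)).1‖
    ‖((1 / 2 : ℝ) ^ k) • (G (lam (2 ^ k) q)).2 - ((1 / 2 : ℝ) ^ k) • (G (lam (2 ^ k) y)).2‖ ≤ _
  refine max_le ?_ ?_
  · rw [hG, hG]
    change ‖q.1 - y.1‖ ≤ _
    have h3 : ‖q.1 - y.1‖ ≤ ‖q - y‖ := norm_fst_le (q - y)
    exact h3.trans (le_mul_of_one_le_left (norm_nonneg _) hC)
  · rw [← smul_sub, norm_smul, Real.norm_eq_abs, abs_of_nonneg (by positivity)]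
    calc (1 / 2 : ℝ) ^ k * ‖(G (lam (2 ^ k) q)).2 - (G (lam (2 ^ k) y)).2‖
        ≤ (1 / 2 : ℝ) ^ k * (C * (2 ^ k * ‖q - y‖)) :=
          mul_le_mul_of_nonneg_left hb (by positivity)
      _ = ((1 / 2 : ℝ) ^ k * 2 ^ k) * (C * ‖q - y‖) := by ring
      _ = C * ‖q - y‖ := by rw [← mul_pow]; norm_num

theorem F5_half (hε : ε ≤ 1 / 100) (h : NP ε L ({c} ×ˢ sh V) f f') {y : X × V}
    (hc : y.1 = c) (h1 : ‖y.2‖ = 1 / 2) :
    lam (1 / 2) (gFi f f' (lam 2 y)) = gFi f f' y := by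
  have hy := F5_mem hc (by rw [h1]; norm_num) (by rw [h1]; norm_num)
  have hd := F5_near (h.disp' y hy)
  rw [h1] at hd
  have hn : ‖(lam 2 y).2‖ = 1 := by
    rw [F1_lam_norm 2 (by norm_num), h1]; norm_num
  have hy2 : lam 2 y ∈ ({c} ×ˢ sh V : Set (X × V)) :=
    F5_mem hc (by rw [hn]; norm_num) (by rw [hn]; norm_num)
  have hd2 := F5_near (h.disp' _ hy2)
  rw [hn] at hd2
  have e1 : gFi f f' (lam 2 y) = f' (lam 2 y) := by
    rw [gFi, if_pos (by linarith [hd2.2])]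
  have e2 : stTi f f' y = y := by
    rw [stTi, if_neg (by linarith [hd.1])]
  have e3 : rad rRi y = lam 2 y := by
    have hr : rRi ‖y.2‖ = 1 := by
      rw [h1, rRi]; norm_num
    rw [rad, lam, hr, h1]
    norm_num
  have e4 : gFi f f' y = lam (1 / 2) (f' (rad rRi (stTi f f' y))) := by
    rw [gFi, if_neg (by linarith [hd.1])]
  rw [e1, e4, e2, e3]

end

theorem F5_lip {ε L : ℝ} (hL : 1 ≤ L) (hε : ε ≤ 1 / 100) (c : X) (f f' : X × V → X × V)
    (h : NP ε L ({c} ×ˢ sh V) f f') (y : X × V) (hc : y.1 = c) (hy : ‖y.2‖ < 2) (h0 : y.2 ≠ 0) :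
    ∀ᶠ q in 𝓝 y, ‖fFi f f' q - fFi f f' y‖ ≤ 200 * L ^ 3 * ‖q - y‖ := by
  have hn : 0 < ‖y.2‖ := norm_pos_iff.2 h0
  obtain ⟨hk1, hk2⟩ := F1_kk (1 / 2) (by norm_num) y h0
  set k := kk (1 / 2) y with hk
  have hL3 : 1 ≤ 200 * L ^ 3 := by
    have h3 : 1 ≤ L ^ 3 := one_le_pow₀ hL
    linarith
  have hne : ∀ᶠ q : X × V in 𝓝 y, q.2 ≠ 0 :=
    continuous_snd.continuousAt.eventually_ne h0
  have hcn : ContinuousAt (fun q : X × V => 2 ^ k * ‖q.2‖) y :=
    (continuous_const.mul continuous_snd.norm).continuousAt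
  have hn' : ‖(lam (2 ^ k) y).2‖ = 2 ^ k * ‖y.2‖ := F1_lam_norm _ (by positivity) y
  have hlt2 : 2 ^ k * ‖y.2‖ < 2 := by
    rcases hk2 with hk2 | hk2
    · rw [hk2, pow_zero, one_mul]; exact hy
    · linarith
  have hPk : F5_pl (fun q => lam ((1 / 2) ^ k) (gFi f f' (lam (2 ^ k) q))) (200 * L ^ 3) y :=
    F5_scale hL3 (F5_gFi_fst h) k
      (F5_gFi hL hε h (y := lam (2 ^ k) y) hc (by rw [hn']; exact hk1) (by rw [hn']; exact hlt2))
  have hup : ∀ᶠ q : X × V in 𝓝 y, k = 0 ∨ 2 ^ k * ‖q.2‖ < 2 * (1 / 2) := by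
    rcases hk2 with hk2 | hk2
    · exact Eventually.of_forall fun _ => Or.inl hk2
    · filter_upwards [hcn.eventually_lt_const hk2] with q hq
      exact Or.inr hq
  have hat : fFi f f' y = lam ((1 / 2) ^ k) (gFi f f' (lam (2 ^ k) y)) := by
    rw [fFi, ext, if_neg h0]
  rcases lt_or_eq_of_le hk1 with hlt | heq
  · refine F5_congr hPk ?_
    filter_upwards [hne, hup, hcn.eventually_const_lt hlt] with q q1 q2 q3
    have hkq := F1_kk_char (1 / 2) (by norm_num) q k q3.le q2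
    rw [fFi, ext, if_neg q1, hkq]
  · have hn1 : ‖(lam (2 ^ (k + 1)) y).2‖ = 1 := by
      rw [F1_lam_norm _ (by positivity) y, pow_succ, mul_right_comm, ← heq]; norm_num
    have hPk1 : F5_pl (fun q => lam ((1 / 2) ^ (k + 1)) (gFi f f' (lam (2 ^ (k + 1)) q)))
        (200 * L ^ 3) y :=
      F5_scale hL3 (F5_gFi_fst h) (k + 1)
        (F5_gFi hL hε h (y := lam (2 ^ (k + 1)) y) hc (by rw [hn1]; norm_num)
          (by rw [hn1]; norm_num))
    have hagree : lam ((1 / 2) ^ (k + 1)) (gFi f f' (lam (2 ^ (k + 1)) y)) =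
        lam ((1 / 2) ^ k) (gFi f f' (lam (2 ^ k) y)) := by
      have e1 : lam (2 ^ (k + 1)) y = lam 2 (lam (2 ^ k) y) := by
        rw [F1_lam_lam]
        congr 1
        ring
      rw [e1, pow_succ, ← F1_lam_lam,
        F5_half hε h (y := lam (2 ^ k) y) hc (by rw [hn', ← heq])]
    have hlo : ∀ᶠ q : X × V in 𝓝 y, 1 / 4 < 2 ^ k * ‖q.2‖ :=
      hcn.eventually_const_lt (by linarith)
    refine B0b_ite (G₁ := fun q => lam ((1 / 2) ^ k) (gFi f f' (lam (2 ^ k) q)))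
      (G₂ := fun q => lam ((1 / 2) ^ (k + 1)) (gFi f f' (lam (2 ^ (k + 1)) q)))
      ?_ hat (hat.trans hagree.symm) hPk hPk1
    filter_upwards [hne, hup, hlo] with q q1 q2 q3
    by_cases q4 : 1 / 2 ≤ 2 ^ k * ‖q.2‖
    · left
      have hkq := F1_kk_char (1 / 2) (by norm_num) q k q4 q2
      rw [fFi, ext, if_neg q1, hkq]
    · right
      have q5 : 1 / 2 ≤ 2 ^ (k + 1) * ‖q.2‖ := by
        rw [pow_succ, mul_right_comm]; linarith
      have q6 : 2 ^ (k + 1) * ‖q.2‖ < 2 * (1 / 2) := by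
        rw [pow_succ, mul_right_comm]; linarith
      have hkq := F1_kk_char (1 / 2) (by norm_num) q (k + 1) q5 (Or.inr q6)
      rw [fFi, ext, if_neg q1, hkq]

end H80.LD

end S_H80_LD_F5

section S_H80_LD_F6

/-!
# F6: `fF f f'` is close to `fF id id`

`‖fF f f' p - fF id id p‖ ≤ 40 ε` for `p.1 = c`, `‖p.2‖ < 2`.  Both use the same `k = kk (3/8) p`, so it is enough to bound `‖gF f f' p' - gF id id p'‖` for `p' = lam (2^k) p`
(scaling by `(1/2)^k ≤ 1`; first components are equal).  `n p' ≥ 3/4`: `‖f p' - p'‖ ≤ ε`.  `3/8 ≤ n p' < 3/4`: put `w₀ = lam 2 p'`, `w = f w₀`, `‖w - w₀‖ ≤ ε`,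
`S0 x := rad (fun g => rS (max (g/2) (rR g))) x`.
* `stF id id p' = S0 w₀`: if `n w₀ < 1`: `rR g ≤ g/2` for `g ≤ 1`, `rS (g/2) = g/2`, so `S0 w₀ = lam (1/2) w₀`; if `n w₀ ≥ 1`: `rR g ≥ g/2`, `S0 w₀ = rad rS (rad rR w₀)`, and `stT id id y` is
  `rad rS y` in both cases (`rS g = g` for `g ≤ 3/5`).
* `stF f f' p' ≈ S0 w` within `4 ε`: if `n w < 1` equality (as before).  If `n w ≥ 1`, `y = rad rR w`: case `3/5 ≤ n (f' y)`: `stT y = f (rad rS (f' y))`, `‖f z - z‖ ≤ ε`,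
  `‖rad rS (f' y) - rad rS y‖ ≤ 3 ε` (`F1_rad_lip`, `ℓ = 1`).  Case `n (f' y) < 3/5`: `n y < 3/5 + ε`, `stT y = y` and `‖y - rad rS y‖ = n y - rS (n y) ≤ (5/6) (n y - 3/5) ≤ ε`.
* `‖S0 w - S0 w₀‖ ≤ 3 * (7/2) * ε * ...`: the function `g ↦ rS (max (g/2) (rR g))` is `7/2`-Lipschitz and `≤ g ≤ (7/2) g`, so `‖S0 w - S0 w₀‖ ≤ (21/2) ε`.
Total `≤ 15 ε ≤ 40 ε`.  Same for `fFi`: not needed.
Also here: the functions `fF f f', fFi f f'` at `(c, v)`, `‖v‖ < 2`, depend only on the values of `f, f'` on `{c} ×ˢ sh V`: `F6_congr` (for two NP pairs which agree there).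
-/

open Filter Topology Metric Set

namespace H80.LD

variable {X V : Type*} [NormedAddCommGroup X] [NormedAddCommGroup V] [NormedSpace ℝ V]

theorem F6_rS_nonneg {g : ℝ} (hg : 0 ≤ g) : 0 ≤ rS g := by
  unfold rS; exact le_min hg (by linarith)

theorem F6_rS_le (g : ℝ) : rS g ≤ g := min_le_left _ _

theorem F6_rS_eq {g : ℝ} (hg : g ≤ 3 / 5) : rS g = g := by
  unfold rS; exact min_eq_left (by linarith)

theorem F6_rS_eq' {g : ℝ} (hg : 3 / 5 ≤ g) : rS g = 1 / 2 + g / 6 := by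
  unfold rS; exact min_eq_right (by linarith)

theorem F6_rR_le (g : ℝ) : rR g ≤ g := min_le_right _ _

theorem F6_rR_ge {g : ℝ} (hg : 1 ≤ g) : g / 2 ≤ rR g := by
  unfold rR; exact le_min (by linarith) (by linarith)

theorem F6_rR_le' {g : ℝ} (hg : g ≤ 1) : rR g ≤ g / 2 := by
  unfold rR; exact le_trans (min_le_left _ _) (by linarith)

/-- the model radial function -/
noncomputable def F6_s (g : ℝ) : ℝ := rS (max (g / 2) (rR g))

theorem F6_s_lip (a b : ℝ) : |F6_s a - F6_s b| ≤ 7 / 2 * |a - b| := by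
  unfold F6_s
  have h1 := (F1_lips (max (a / 2) (rR a)) (max (b / 2) (rR b))).1
  have h2 := abs_max_sub_max_le_max (a / 2) (rR a) (b / 2) (rR b)
  have h3 := (F1_lips a b).2.2.1
  have h4 : |a / 2 - b / 2| ≤ 7 / 2 * |a - b| := by
    have : a / 2 - b / 2 = (a - b) * (1 / 2) := by ring
    rw [this, abs_mul, abs_of_pos (by norm_num : (0:ℝ) < 1 / 2)]
    have := abs_nonneg (a - b)
    linarith
  have h5 := max_le h4 h3
  linarith

theorem F6_s_nonneg {g : ℝ} (hg : 0 ≤ g) : 0 ≤ F6_s g :=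
  F6_rS_nonneg (le_trans (by linarith : (0:ℝ) ≤ g / 2) (le_max_left _ _))

theorem F6_s_le {g : ℝ} (hg : 0 ≤ g) : F6_s g ≤ g :=
  le_trans (F6_rS_le _) (max_le (by linarith) (F6_rR_le g))

theorem F6_ne {p : X × V} (h : 0 < ‖p.2‖) : p.2 ≠ 0 := by
  intro h0; rw [h0, norm_zero] at h; exact lt_irrefl _ h

/-- the model step is radial -/
theorem F6_model (w : X × V) (hw : 0 < ‖w.2‖) :
    (if 1 ≤ ‖w.2‖ then rad rS (rad rR w) else lam (1 / 2) w) = rad F6_s w := by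
  have hne := F6_ne hw
  split_ifs with h
  · have hr := F6_rR_ge h
    rw [F1_rad_rad rR rS w hne (by linarith)]
    unfold rad F6_s
    simp only
    rw [max_eq_right hr]
  · push Not at h
    have hr := F6_rR_le' h.le
    unfold rad lam F6_s
    rw [max_eq_left hr, F6_rS_eq (by linarith)]
    congr 2
    field_simp

theorem F6_stT_id (y : X × V) : stT id id y = rad rS y := by
  unfold stT
  simp only [id]
  split_ifs with h
  · rfl
  · push Not at h
    exact (F1_rad_id rS y (F6_rS_eq h.le)).symm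

theorem F6_stF_id (p : X × V) (hp : 0 < ‖p.2‖) : stF id id p = rad F6_s (lam 2 p) := by
  have h2 : ‖(lam 2 p).2‖ = 2 * ‖p.2‖ := F1_lam_norm 2 (by norm_num) p
  rw [← F6_model (lam 2 p) (by rw [h2]; linarith)]
  unfold stF
  simp only [id]
  rw [F6_stT_id]

theorem F6_snd_sub (w v : X × V) : |‖w.2‖ - ‖v.2‖| ≤ ‖w - v‖ := by
  have h1 := abs_norm_sub_norm_le w.2 v.2
  have h2 : ‖w.2 - v.2‖ ≤ ‖w - v‖ := norm_snd_le (w - v)
  linarith

theorem F6_rad_fst (r : ℝ → ℝ) (p : X × V) : (rad r p).1 = p.1 := rfl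

theorem F6_lam_fst (a : ℝ) (p : X × V) : (lam a p).1 = p.1 := rfl

theorem F6_mem {c : X} {p : X × V} (h1 : p.1 = c) (h2 : 1 / 3 < ‖p.2‖) (h3 : ‖p.2‖ < 2) :
    p ∈ ({c} ×ˢ sh V : Set (X × V)) := ⟨h1, h2, h3⟩

theorem F6_rad_norm' (r : ℝ → ℝ) (p : X × V) (hp : 0 < ‖p.2‖) (hr : 0 ≤ r ‖p.2‖) :
    ‖(rad r p).2‖ = r ‖p.2‖ := by
  rw [F1_rad_norm r p (F6_ne hp), abs_of_nonneg hr]

theorem F6_stT {ε L : ℝ} (hε0 : 0 ≤ ε) (hε : ε ≤ 1 / 100) (c : X) (f f' : X × V → X × V)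
    (h : NP ε L ({c} ×ˢ sh V) f f') (y : X × V) (hc : y.1 = c) (h1 : 1 / 2 ≤ ‖y.2‖)
    (h2 : ‖y.2‖ ≤ 8 / 5) : ‖stT f f' y - rad rS y‖ ≤ 4 * ε := by
  have hy := F6_mem hc (by linarith) (by linarith)
  have hd := h.disp' y hy
  have hn := abs_le.mp (F6_snd_sub (f' y) y)
  unfold stT
  split_ifs with h3
  · have hz1 : ‖(rad rS (f' y)).2‖ = rS ‖(f' y).2‖ :=
      F6_rad_norm' rS (f' y) (by linarith) (F6_rS_nonneg (by linarith))
    have hz2 := F6_rS_eq' h3
    have hz3 := F6_rS_le ‖(f' y).2‖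
    have hz : rad rS (f' y) ∈ ({c} ×ˢ sh V : Set (X × V)) := by
      refine F6_mem ?_ ?_ ?_
      · rw [F6_rad_fst, h.pres', hc]
      · rw [hz1]; linarith
      · rw [hz1]; linarith
    have hd2 := h.disp _ hz
    have hl : ‖rad rS (f' y) - rad rS y‖ ≤ 3 * 1 * ‖f' y - y‖ := by
      refine F1_rad_lip rS 1 le_rfl y (f' y) (F6_ne (by linarith)) (F1_lips _ _).1
        (F6_rS_nonneg (by linarith)) ?_
      rw [one_mul]; exact F6_rS_le _
    have ht : ‖f (rad rS (f' y)) - rad rS y‖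
        ≤ ‖f (rad rS (f' y)) - rad rS (f' y)‖ + ‖rad rS (f' y) - rad rS y‖ := by
      have := norm_add_le (f (rad rS (f' y)) - rad rS (f' y)) (rad rS (f' y) - rad rS y)
      simpa using this
    linarith
  · push Not at h3
    have hg : 0 < ‖y.2‖ := by linarith
    have e1 : y - rad rS y = (0, (1 - rS ‖y.2‖ / ‖y.2‖) • y.2) := by
      unfold rad
      ext
      · simp
      · simp [sub_smul]
    have e2 : ‖(0 : X)‖ = 0 := norm_zero
    have e3 : ‖(1 - rS ‖y.2‖ / ‖y.2‖) • y.2‖ = ‖y.2‖ - rS ‖y.2‖ := by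
      rw [norm_smul, Real.norm_eq_abs, abs_of_nonneg]
      · field_simp
      · rw [sub_nonneg, div_le_one hg]; exact F6_rS_le _
    rw [e1, Prod.norm_def]
    simp only [e2, e3]
    apply max_le (by linarith)
    rcases le_total ‖y.2‖ (3 / 5) with h4 | h4
    · rw [F6_rS_eq h4]; linarith
    · rw [F6_rS_eq' h4]; linarith

theorem F6_gF {ε L : ℝ} (hε0 : 0 ≤ ε) (hε : ε ≤ 1 / 100) (c : X) (f f' : X × V → X × V)
    (h : NP ε L ({c} ×ˢ sh V) f f') (p : X × V) (hc : p.1 = c) (h1 : 3 / 8 ≤ ‖p.2‖)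
    (h2 : ‖p.2‖ < 2) : ‖gF f f' p - gF id id p‖ ≤ 40 * ε := by
  unfold gF
  split_ifs with h3
  · have := h.disp p (F6_mem hc (by linarith) h2)
    simp only [id]
    linarith
  · push Not at h3
    rw [F6_stF_id p (by linarith)]
    have hw0 : ‖(lam 2 p).2‖ = 2 * ‖p.2‖ := F1_lam_norm 2 (by norm_num) p
    set w0 := lam 2 p with hw0def
    have hc0 : w0.1 = c := hc
    have hd := h.disp w0 (F6_mem hc0 (by linarith) (by linarith))
    have hn := abs_le.mp (F6_snd_sub (f w0) w0)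
    have hcw : (f w0).1 = c := by rw [h.pres, hc0]
    have hA : ‖stF f f' p - rad F6_s (f w0)‖ ≤ 4 * ε := by
      rw [← F6_model (f w0) (by linarith)]
      unfold stF
      rw [← hw0def]
      split_ifs with h4
      · have h5 := F6_rR_ge h4
        have h6 := F6_rR_le ‖(f w0).2‖
        have h7 : ‖(rad rR (f w0)).2‖ = rR ‖(f w0).2‖ :=
          F6_rad_norm' rR (f w0) (by linarith) (by linarith)
        refine F6_stT hε0 hε c f f' h (rad rR (f w0)) ?_ ?_ ?_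
        · rw [F6_rad_fst, hcw]
        · rw [h7]; linarith
        · rw [h7]; linarith
      · rw [sub_self, norm_zero]; linarith
    have hB : ‖rad F6_s (f w0) - rad F6_s w0‖ ≤ 3 * (7 / 2) * ‖f w0 - w0‖ := by
      refine F1_rad_lip F6_s (7 / 2) (by norm_num) w0 (f w0) (F6_ne (by linarith)) (F6_s_lip _ _)
        (F6_s_nonneg (by linarith)) ?_
      have := F6_s_le (norm_nonneg w0.2)
      have := norm_nonneg w0.2
      linarith
    have ht : ‖stF f f' p - rad F6_s w0‖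
        ≤ ‖stF f f' p - rad F6_s (f w0)‖ + ‖rad F6_s (f w0) - rad F6_s w0‖ := by
      have := norm_add_le (stF f f' p - rad F6_s (f w0)) (rad F6_s (f w0) - rad F6_s w0)
      simpa using this
    linarith

/-- the scale of `p` -/
theorem F6_scale (a : ℝ) (ha : 0 < a) (ha' : a ≤ 1) (p : X × V) (hp : p.2 ≠ 0) (h2 : ‖p.2‖ < 2) :
    a ≤ ‖(lam (2 ^ kk a p) p).2‖ ∧ ‖(lam (2 ^ kk a p) p).2‖ < 2 := by
  obtain ⟨h3, h4⟩ := F1_kk a ha p hp
  have h5 : ‖(lam (2 ^ kk a p) p).2‖ = 2 ^ kk a p * ‖p.2‖ := F1_lam_norm _ (by positivity) p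
  rw [h5]
  refine ⟨h3, ?_⟩
  rcases h4 with h4 | h4
  · rw [h4]; simpa using h2
  · linarith

theorem F6_close {ε L : ℝ} (hε0 : 0 ≤ ε) (hε : ε ≤ 1 / 100) (c : X) (f f' : X × V → X × V)
    (h : NP ε L ({c} ×ˢ sh V) f f') (p : X × V) (hc : p.1 = c) (hp : ‖p.2‖ < 2) :
    ‖fF f f' p - fF id id p‖ ≤ 40 * ε := by
  unfold fF ext
  split_ifs with h0
  · rw [sub_self, norm_zero]; linarith
  · obtain ⟨h1, h2⟩ := F6_scale (3 / 8) (by norm_num) (by norm_num) p h0 hp
    refine le_trans (F1_lam_lip' _ (by positivity) ?_ _ _)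
      (F6_gF hε0 hε c f f' h _ (by rw [F6_lam_fst, hc]) h1 h2)
    exact pow_le_one₀ (by norm_num) (by norm_num)

theorem F6_val {c : X} {f : X × V → X × V} (h : ∀ v ∈ sh V, f (c, v) = (c, v)) (p : X × V)
    (h1 : p.1 = c) (h2 : 1 / 3 < ‖p.2‖) (h3 : ‖p.2‖ < 2) : f p = p := by
  have := h p.2 ⟨h2, h3⟩
  rw [← h1] at this
  exact this

/-- if `f, f'` are the identity on the shell over `c` then `fF f f' = fF id id`, `fFi f f' = fFi id id` over `c` -/
theorem F6_congr (c : X) (f f' : X × V → X × V)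
    (h : ∀ v ∈ sh V, f (c, v) = (c, v) ∧ f' (c, v) = (c, v)) (p : X × V) (hc : p.1 = c) (hp : ‖p.2‖ < 2) :
    fF f f' p = fF id id p ∧ fFi f f' p = fFi id id p := by
  have hf := fun (q : X × V) => F6_val (f := f) (fun v hv => (h v hv).1) q
  have hf' := fun (q : X × V) => F6_val (f := f') (fun v hv => (h v hv).2) q
  constructor
  · unfold fF ext
    split_ifs with h0
    · rfl
    · obtain ⟨h1, h2⟩ := F6_scale (3 / 8) (by norm_num) (by norm_num) p h0 hp
      have hc' : (lam (2 ^ kk (3 / 8) p) p).1 = c := hc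
      generalize lam (2 ^ kk (3 / 8) p) p = q at h1 h2 hc'
      congr 1
      unfold gF
      split_ifs with h3
      · exact hf q hc' (by linarith) h2
      · push Not at h3
        have hw0 : ‖(lam 2 q).2‖ = 2 * ‖q.2‖ := F1_lam_norm 2 (by norm_num) q
        have hc0 : (lam 2 q).1 = c := hc'
        unfold stF
        simp only [id]
        rw [hf (lam 2 q) hc0 (by linarith) (by linarith)]
        split_ifs with h4
        · have h5 := F6_rR_ge h4
          have h6 := F6_rR_le ‖(lam 2 q).2‖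
          have h7 : ‖(rad rR (lam 2 q)).2‖ = rR ‖(lam 2 q).2‖ :=
            F6_rad_norm' rR (lam 2 q) (by linarith) (by linarith)
          have h8 : (rad rR (lam 2 q)).1 = c := hc0
          unfold stT
          simp only [id]
          rw [hf' (rad rR (lam 2 q)) h8 (by rw [h7]; linarith) (by rw [h7]; linarith)]
          split_ifs with h9
          · have h10 := F6_rS_eq' h9
            have h11 := F6_rS_le ‖(rad rR (lam 2 q)).2‖
            have h12 : ‖(rad rS (rad rR (lam 2 q))).2‖ = rS ‖(rad rR (lam 2 q)).2‖ :=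
              F6_rad_norm' rS _ (by linarith) (F6_rS_nonneg (by linarith))
            exact hf _ h8 (by rw [h12]; linarith) (by rw [h12]; rw [h7] at h11; rw [h7]; linarith)
          · rfl
        · rfl
  · unfold fFi ext
    split_ifs with h0
    · rfl
    · obtain ⟨h1, h2⟩ := F6_scale (1 / 2) (by norm_num) (by norm_num) p h0 hp
      have hc' : (lam (2 ^ kk (1 / 2) p) p).1 = c := hc
      generalize lam (2 ^ kk (1 / 2) p) p = q at h1 h2 hc'
      congr 1
      unfold gFi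
      simp only [id]
      rw [hf' q hc' (by linarith) h2]
      split_ifs with h3
      · rfl
      · push Not at h3
        have hS : stTi f f' q = stTi id id q ∧ (stTi id id q).1 = c ∧ 1 / 2 ≤ ‖(stTi id id q).2‖ ∧
            ‖(stTi id id q).2‖ < 3 / 2 := by
          unfold stTi
          simp only [id]
          rw [hf' q hc' (by linarith) h2]
          split_ifs with h4
          · have h5 : ‖q.2‖ ≤ rSi ‖q.2‖ := le_max_left _ _
            have h6 : rSi ‖q.2‖ < 3 / 2 := max_lt (by linarith) (by linarith)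
            have h7 : ‖(rad rSi q).2‖ = rSi ‖q.2‖ := F6_rad_norm' rSi q (by linarith) (by linarith)
            refine ⟨hf _ hc' (by rw [h7]; linarith) (by rw [h7]; linarith), hc', ?_, ?_⟩
            · rw [h7]; linarith
            · rw [h7]; linarith
          · exact ⟨rfl, hc', h1, by linarith⟩
        obtain ⟨hS1, hS2, hS3, hS4⟩ := hS
        rw [hS1]
        generalize stTi id id q = u at hS2 hS3 hS4
        congr 1
        have h5 : ‖u.2‖ ≤ rRi ‖u.2‖ := le_max_right _ _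
        have h6 : rRi ‖u.2‖ < 2 := max_lt (by linarith) (by linarith)
        have h7 : ‖(rad rRi u).2‖ = rRi ‖u.2‖ := F6_rad_norm' rRi u (by linarith) (by linarith)
        exact hf' _ hS2 (by rw [h7]; linarith) (by rw [h7]; linarith)

end H80.LD

end S_H80_LD_F6
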