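import Mathlib
import Pool.Agent.H80.LM.G01

/-! MP_816883_ag: this file joins several modules (see the folders H80/LD, H24/LS) to save build time. -/

section S_H80_LD_T1

/-!
# T1: the lift of a near-identity map along a punctured immersion, at a point `p` which is not in an open box

`h : PImm ...`, `hN : NI W' ε L U e e'`, `C ε ≤ r/32`, `hg` : `p` is good, `β p ∈ U`.  Notation `N v = ‖sc (W p) v‖`, `N' v = ‖sc (W' (β p)) v‖`, `lift p` = `lift W β r e p`.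
* `T1_exists`: `N' (e (β p) - β p) ≤ ε ≤ r / C` (as `C ε ≤ r/32`), so `surj` gives `q`, `N (q - p) ≤ r`, `β q = e (β p)`; `low` with `q' = p` gives
  `N (q - p) ≤ C N' (e (β p) - β p) ≤ C ε ≤ r / 4`.  Hence the `if` is satisfied, `β (lift p) = e (β p)` and `N (lift p - p) ≤ r/4`; again by `low` `N (lift p - p) ≤ C ε`.
* `T1_lip`: for `q` near `p` (`N (q - p)` small, `< r/32`, and `L * C * N (q-p) ≤ r / (32 C)`, and the pointwise bound of `e` at `β p` holds at `β q`: `β` is continuous at `p` by `upp`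
  with `T0b_cont`): `N' (e (β q) - β p) ≤ L C N (q - p) + ε ≤ r / (16 C)`; `surj` gives `s` with `N (s - p) ≤ r`, `β s = e (β q)`, by `low` `N (s - p) ≤ r/16`.
  `W q ≤ 2 W p` (`slow`), so `‖sc (W q) (s - q)‖ ≤ 2 (r/16 + r/32) ≤ r/4`: the `if` at `q` is satisfied, `β (lift q) = e (β q)`, `‖sc (W q) (lift q - q)‖ ≤ r/4`.
  `W p ≤ 2 W q` (`slow` at `q`: `‖sc (W q) (p - q)‖ ≤ 2 N (p-q) ≤ 1`), so `N (lift q - p) ≤ r/2 + r/32 ≤ r`, and `low` gives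
  `N (lift q - lift p) ≤ C N' (e (β q) - e (β p)) ≤ C L N' (β q - β p) ≤ C L C N (q - p)`.
* `T1_inv`: `s = lift p` (for `e`), `N (s - p) ≤ r/32`.  `β s = e (β p) ∈ U`.  `p` satisfies the condition for `lift e'` at `s`: `‖sc (W s) (p - s)‖ ≤ 2 r/32`,
  `β p = e' (e (β p)) = e' (β s)`.  So `s' = lift e' s` satisfies `‖sc (W s) (s' - s)‖ ≤ r/4`, `β s' = e' (β s) = β p`; `N (s' - p) ≤ 2 r/4 + r/32 ≤ r`; `low`: `N (s' - p) ≤ C * 0`, so `s' = p`.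
* `T1_id`: `β p = e (β p)`: `p` itself satisfies the condition; `lift p` has `β (lift p) = β p`, `N (lift p - p) ≤ r/4`, so `lift p = p` by `low`.
* `T1_eq`: `β = id` on the `r`-ball: `β (lift p) = e (β p) = e p` and `lift p` is in the `r`-ball so `β (lift p) = lift p`.
-/

open Filter Topology Metric Set

namespace H80.LD

variable {X : Type*} [NormedAddCommGroup X] {D : Type*} [Fintype D]

theorem T1_spec (W : X × (D → ℝ) → D → ℝ) (β : X × (D → ℝ) → X × (D → ℝ)) (r : ℝ)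
    (e : X × (D → ℝ) → X × (D → ℝ)) (p : X × (D → ℝ))
    (h : ∃ q : X × (D → ℝ), ‖sc (W p) (q - p)‖ ≤ r / 4 ∧ β q = e (β p)) :
    ‖sc (W p) (lift W β r e p - p)‖ ≤ r / 4 ∧ β (lift W β r e p) = e (β p) := by
  have e1 : lift W β r e p = h.choose := by
    unfold lift
    rw [dif_pos h]
  rw [e1]
  exact h.choose_spec

theorem T1_pres (W : X × (D → ℝ) → D → ℝ) (β : X × (D → ℝ) → X × (D → ℝ)) (r : ℝ)
    (e : X × (D → ℝ) → X × (D → ℝ)) (hβ : ∀ p, (β p).1 = p.1) (he : ∀ p, (e p).1 = p.1) (p : X × (D → ℝ)) :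
    (lift W β r e p).1 = p.1 := by
  by_cases h : ∃ q : X × (D → ℝ), ‖sc (W p) (q - p)‖ ≤ r / 4 ∧ β q = e (β p)
  · have h1 := (T1_spec W β r e p h).2
    have h2 := congrArg Prod.fst h1
    rw [hβ, he, hβ] at h2
    exact h2
  · unfold lift
    rw [dif_neg h]

theorem T1_eps {W W' : X × (D → ℝ) → D → ℝ} {β : X × (D → ℝ) → X × (D → ℝ)} {Z ℓ : (D → ℝ) → D → ℝ}
    {need : (D → ℝ) → Prop} {r C : ℝ} (h : PImm W W' β Z ℓ need r C) {ε : ℝ} (hε : C * ε ≤ r / 32) :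
    ε ≤ r / (32 * C) := by
  have hC : 0 < C := lt_of_lt_of_le one_pos h.C1
  rw [le_div_iff₀ (by positivity)]
  nlinarith

theorem T1_exists {W W' : X × (D → ℝ) → D → ℝ} {β : X × (D → ℝ) → X × (D → ℝ)} {Z ℓ : (D → ℝ) → D → ℝ}
    {need : (D → ℝ) → Prop} {r C : ℝ} (h : PImm W W' β Z ℓ need r C) {ε L : ℝ} {U : Set (X × (D → ℝ))}
    {e e' : X × (D → ℝ) → X × (D → ℝ)} (hN : NI W' ε L U e e') (hε : C * ε ≤ r / 32) (p : X × (D → ℝ))
    (hg : need p.2 → 1 ≤ gau Z ℓ p.2) (hU : β p ∈ U) :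
    β (lift W β r e p) = e (β p) ∧ ‖sc (W p) (lift W β r e p - p)‖ ≤ C * ε := by
  have hC : 0 < C := lt_of_lt_of_le one_pos h.C1
  have hr := h.r0
  have hd := hN.disp (β p) hU
  have h0 : ‖sc (W p) (p - p)‖ ≤ r := by
    rw [T0b_self]
    exact hr.le
  have h1 : ‖sc (W' (β p)) (e (β p) - β p)‖ ≤ r / C := by
    have h2 := T1_eps h hε
    have h3 : r / (32 * C) ≤ r / C := by
      apply div_le_div_of_nonneg_left hr.le hC
      linarith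
    linarith
  obtain ⟨q, hq, hq'⟩ := h.surj p hg _ h1
  have key : ∀ s : X × (D → ℝ), ‖sc (W p) (s - p)‖ ≤ r → β s = e (β p) →
      ‖sc (W p) (s - p)‖ ≤ C * ε := by
    intro s hs hs'
    have h4 := h.low p hg s p hs h0
    rw [hs'] at h4
    exact h4.trans (mul_le_mul_of_nonneg_left hd hC.le)
  have h5 := key q hq hq'
  obtain ⟨h6, h7⟩ := T1_spec W β r e p ⟨q, by linarith, hq'⟩
  exact ⟨h7, key _ (by linarith) h7⟩

theorem T1_lip {W W' : X × (D → ℝ) → D → ℝ} {β : X × (D → ℝ) → X × (D → ℝ)} {Z ℓ : (D → ℝ) → D → ℝ}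
    {need : (D → ℝ) → Prop} {r C : ℝ} (h : PImm W W' β Z ℓ need r C) {ε L : ℝ} {U : Set (X × (D → ℝ))}
    {e e' : X × (D → ℝ) → X × (D → ℝ)} (hN : NI W' ε L U e e') (hε : C * ε ≤ r / 32) (hL : 0 ≤ L)
    (p : X × (D → ℝ)) (hg : need p.2 → 1 ≤ gau Z ℓ p.2) (hU : β p ∈ U) :
    ∀ᶠ q in 𝓝 p, ‖sc (W p) (lift W β r e q - lift W β r e p)‖ ≤ C ^ 2 * L * ‖sc (W p) (q - p)‖ := by
  have hC1 := h.C1
  have hC : 0 < C := lt_of_lt_of_le one_pos h.C1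
  have hr := h.r0
  have hr1 := h.r1
  have hd := hN.disp (β p) hU
  have hE := T1_exists h hN hε p hg hU
  have hε' := T1_eps h hε
  have h0 : ‖sc (W p) (p - p)‖ ≤ r := by
    rw [T0b_self]
    exact hr.le
  obtain ⟨δ, hδ⟩ : ∃ δ : ℝ, δ = r / (32 * C ^ 2 * (L + 1)) := ⟨_, rfl⟩
  have hCL : 0 < 32 * C ^ 2 * (L + 1) := by positivity
  have hδ0 : 0 < δ := by rw [hδ]; positivity
  have hδ1 : δ ≤ r / 32 := by
    rw [hδ, div_le_div_iff₀ hCL (by norm_num)]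
    have h1 : 1 ≤ C ^ 2 := by nlinarith
    have h2 : 1 ≤ C ^ 2 * (L + 1) := by nlinarith
    nlinarith
  have hδ2 : L * (C * δ) ≤ r / (32 * C) := by
    rw [le_div_iff₀ (by positivity)]
    have h1 : δ * (32 * C ^ 2 * (L + 1)) = r := by
      rw [hδ]
      field_simp
    have h2 : 0 ≤ δ * (32 * C ^ 2) := by positivity
    nlinarith
  have hup : ∀ q : X × (D → ℝ), ‖sc (W p) (q - p)‖ ≤ r →
      ‖sc (W' (β p)) (β q - β p)‖ ≤ C * ‖sc (W p) (q - p)‖ := fun q hq => h.upp p hg q p hq h0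
  have hcont : ContinuousAt β p := by
    refine T0b_cont (W p) (W' (β p)) (h.pos' _) C β p ?_
    filter_upwards [T0b_nhds (W p) p r hr] with q hq
    exact hup q hq.le
  filter_upwards [T0b_nhds (W p) p δ hδ0, hcont.eventually (hN.lip (β p) hU)] with q hq hlip
  have hqr : ‖sc (W p) (q - p)‖ ≤ r := by linarith
  have hq' := hup q hqr
  have hnn : 0 ≤ ‖sc (W p) (q - p)‖ := norm_nonneg _
  have h1 : ‖sc (W' (β p)) (e (β q) - e (β p))‖ ≤ L * (C * ‖sc (W p) (q - p)‖) :=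
    hlip.trans (mul_le_mul_of_nonneg_left hq' hL)
  have h2 : L * (C * ‖sc (W p) (q - p)‖) ≤ r / (32 * C) := by
    refine le_trans ?_ hδ2
    gcongr
  have h3 : ‖sc (W' (β p)) (e (β q) - β p)‖ ≤ r / (16 * C) := by
    have h4 := T0b_tri (W' (β p)) (e (β q)) (e (β p)) (β p)
    have h5 : r / (32 * C) + r / (32 * C) = r / (16 * C) := by
      field_simp
      norm_num
    linarith
  have h4 : r / (16 * C) ≤ r / C := by
    apply div_le_div_of_nonneg_left hr.le hC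
    linarith
  obtain ⟨s, hs, hs'⟩ := h.surj p hg (e (β q)) (h3.trans h4)
  have h5 : ‖sc (W p) (s - p)‖ ≤ r / 16 := by
    have h6 := h.low p hg s p hs h0
    rw [hs'] at h6
    refine h6.trans ((mul_le_mul_of_nonneg_left h3 hC.le).trans (le_of_eq ?_))
    field_simp
  have hs1 : ∀ i, W q i ≤ 2 * W p i := h.slow p q (by linarith)
  have h6 : ‖sc (W q) (s - q)‖ ≤ r / 4 := by
    have h7 := T0b_mono (W q) (W p) 2 (by norm_num) (fun i => (h.pos q i).le) hs1 (s - q)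
    have h8 := T0b_tri (W p) s p q
    have h9 := T0b_symm (W p) p q
    linarith
  obtain ⟨h7, h8⟩ := T1_spec W β r e q ⟨s, h6, hs'⟩
  have h9 : ‖sc (W q) (p - q)‖ ≤ 1 := by
    have h10 := T0b_mono (W q) (W p) 2 (by norm_num) (fun i => (h.pos q i).le) hs1 (p - q)
    have h11 := T0b_symm (W p) p q
    linarith
  have hs2 : ∀ i, W p i ≤ 2 * W q i := h.slow q p h9
  have h10 : ‖sc (W p) (lift W β r e q - p)‖ ≤ r := by
    have h11 := T0b_mono (W p) (W q) 2 (by norm_num) (fun i => (h.pos p i).le) hs2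
      (lift W β r e q - q)
    have h12 := T0b_tri (W p) (lift W β r e q) q p
    linarith
  have h13 := h.low p hg (lift W β r e q) (lift W β r e p) h10 (by linarith [hE.2])
  rw [h8, hE.1] at h13
  refine h13.trans ((mul_le_mul_of_nonneg_left h1 hC.le).trans (le_of_eq ?_))
  ring

theorem T1_inv {W W' : X × (D → ℝ) → D → ℝ} {β : X × (D → ℝ) → X × (D → ℝ)} {Z ℓ : (D → ℝ) → D → ℝ}
    {need : (D → ℝ) → Prop} {r C : ℝ} (h : PImm W W' β Z ℓ need r C) {ε L : ℝ} {U : Set (X × (D → ℝ))}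
    {e e' : X × (D → ℝ) → X × (D → ℝ)} (hN : NI W' ε L U e e') (hε : C * ε ≤ r / 32)
    (p : X × (D → ℝ)) (hg : need p.2 → 1 ≤ gau Z ℓ p.2) (hU : β p ∈ U) (hU' : e (β p) ∈ U) :
    lift W β r e' (lift W β r e p) = p := by
  have hC : 0 < C := lt_of_lt_of_le one_pos h.C1
  have hr := h.r0
  have hr1 := h.r1
  have hE := T1_exists h hN hε p hg hU
  have hinv := hN.inv (β p) hU hU'
  obtain ⟨s, hs⟩ : ∃ s, s = lift W β r e p := ⟨_, rfl⟩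
  rw [← hs] at hE ⊢
  have h0 : ‖sc (W p) (p - p)‖ ≤ r := by
    rw [T0b_self]
    exact hr.le
  have h1 : ‖sc (W p) (s - p)‖ ≤ r / 32 := hE.2.trans hε
  have hs1 : ∀ i, W s i ≤ 2 * W p i := h.slow p s (by linarith)
  have h2 : ‖sc (W s) (p - s)‖ ≤ r / 16 := by
    have h10 := T0b_mono (W s) (W p) 2 (by norm_num) (fun i => (h.pos s i).le) hs1 (p - s)
    have h11 := T0b_symm (W p) p s
    linarith
  have hs2 : ∀ i, W p i ≤ 2 * W s i := h.slow s p (by linarith)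
  obtain ⟨h3, h4⟩ := T1_spec W β r e' s ⟨p, by linarith, by rw [hE.1, hinv]⟩
  rw [hE.1, hinv] at h4
  have h5 : ‖sc (W p) (lift W β r e' s - p)‖ ≤ r := by
    have h11 := T0b_mono (W p) (W s) 2 (by norm_num) (fun i => (h.pos p i).le) hs2
      (lift W β r e' s - s)
    have h12 := T0b_tri (W p) (lift W β r e' s) s p
    linarith
  have h6 := h.low p hg (lift W β r e' s) p h5 h0
  rw [h4, T0b_self, mul_zero] at h6
  exact T0b_zero (W p) (h.pos p) _ _ h6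

theorem T1_id {W W' : X × (D → ℝ) → D → ℝ} {β : X × (D → ℝ) → X × (D → ℝ)} {Z ℓ : (D → ℝ) → D → ℝ}
    {need : (D → ℝ) → Prop} {r C : ℝ} (h : PImm W W' β Z ℓ need r C)
    {e : X × (D → ℝ) → X × (D → ℝ)} (p : X × (D → ℝ)) (hg : need p.2 → 1 ≤ gau Z ℓ p.2) (he : e (β p) = β p) :
    lift W β r e p = p := by
  have hr := h.r0
  have h0 : ‖sc (W p) (p - p)‖ ≤ r := by
    rw [T0b_self]
    exact hr.le
  obtain ⟨h3, h4⟩ := T1_spec W β r e p ⟨p, by rw [T0b_self]; linarith, he.symm⟩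
  have h6 := h.low p hg (lift W β r e p) p (by linarith) h0
  rw [h4, he, T0b_self, mul_zero] at h6
  exact T0b_zero (W p) (h.pos p) _ _ h6

theorem T1_eq {W W' : X × (D → ℝ) → D → ℝ} {β : X × (D → ℝ) → X × (D → ℝ)} {Z ℓ : (D → ℝ) → D → ℝ}
    {need : (D → ℝ) → Prop} {r C : ℝ} (h : PImm W W' β Z ℓ need r C) {ε L : ℝ} {U : Set (X × (D → ℝ))}
    {e e' : X × (D → ℝ) → X × (D → ℝ)} (hN : NI W' ε L U e e') (hε : C * ε ≤ r / 32) (p : X × (D → ℝ))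
    (hg : need p.2 → 1 ≤ gau Z ℓ p.2) (hU : β p ∈ U) (hid : ∀ q, ‖sc (W p) (q - p)‖ ≤ r → β q = q) :
    lift W β r e p = e p := by
  have hr := h.r0
  have hE := T1_exists h hN hε p hg hU
  have h1 := hid (lift W β r e p) (by linarith [hE.2])
  have h2 := hid p (by rw [T0b_self]; exact hr.le)
  rw [← h1, hE.1, h2]

end H80.LD

end S_H80_LD_T1

section S_H80_LD_T2

/-!
# T2: the lift in box coordinates is an NP pair on the thin shell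

`z = Z y0`, `l = ℓ y0`, `f = bl W β r e z l`, `f' = bl W β r e' z l` (`bl z l p' = bo (lift (bi p'))`).  Let `p' = (c, v)`, `21/20 < ‖v‖ < 6/5`, `p = bi z l p'`, so `p' = bo z l p` (T0b).
`|p.2 i - z i| = l i |v i| < (6/5) l i`, so by `box` `Z p.2 = z`, `ℓ p.2 = l`, `need p.2`, and `gau Z ℓ p.2 = ‖v‖ ≥ 1`: `p` is good.  By `size` `1/C ≤ W p i * l i ≤ C`.
* pres: `T1_pres`.
* disp: `‖f p' - p'‖ = ‖bo (lift p) - bo p‖ ≤ C ‖sc (W p) (lift p - p)‖ ≤ C * (C * ε)`.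
* lip: for `q'` near `p'`, `q = bi q'` is near `p` (continuity of `bi`), `T1_lip`: `‖f q' - f p'‖ ≤ C ‖sc (W p) (lift q - lift p)‖ ≤ C * C^2 L * ‖sc (W p) (q - p)‖ ≤ C^3 L * C ‖q' - p'‖`.
* inv: `f p' = (c, v₁)` in the shell, `s = lift p = bi (f p')`; `β s = e (β p)` and `β s ∈ U` by hypothesis (`s = bi (c, v₁)`), so `T1_inv`: `lift e' s = p`, i.e. `f' (f p') = bo (lift e' (bi (bo s))) = bo p = p'`.
* the primed statements: `NI.symm` and the same argument.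
-/

open Filter Topology Metric Set

namespace H80.LD

variable {X : Type*} [NormedAddCommGroup X] {D : Type*} [Fintype D]

theorem T2_good {W W' : X × (D → ℝ) → D → ℝ} {β : X × (D → ℝ) → X × (D → ℝ)} {Z ℓ : (D → ℝ) → D → ℝ}
    {need : (D → ℝ) → Prop} {r C : ℝ} (h : PImm W W' β Z ℓ need r C)
    (y0 : D → ℝ) (hn : need y0) (c : X) (v : D → ℝ) (h1 : 21 / 20 < ‖v‖) (h2 : ‖v‖ < 6 / 5) :
    (need (bi (Z y0) (ℓ y0) (c, v)).2 → 1 ≤ gau Z ℓ (bi (Z y0) (ℓ y0) (c, v)).2) ∧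
      (∀ i, 1 / C ≤ W (bi (Z y0) (ℓ y0) (c, v)) i * ℓ y0 i) ∧
      (∀ i, W (bi (Z y0) (ℓ y0) (c, v)) i * ℓ y0 i ≤ C) := by
  have hl := h.lpos y0
  have hb := h.box y0 (bi (Z y0) (ℓ y0) (c, v)).2 hn (by
    intro i
    have e1 : (bi (Z y0) (ℓ y0) (c, v)).2 i - Z y0 i = ℓ y0 i * v i := by
      change Z y0 i + ℓ y0 i * v i - Z y0 i = ℓ y0 i * v i
      ring
    rw [e1, abs_mul, abs_of_pos (hl i), mul_comm]
    have e2 : |v i| ≤ ‖v‖ := norm_le_pi_norm v i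
    exact mul_lt_mul_of_pos_right (e2.trans_lt h2) (hl i))
  refine ⟨?_, ?_, ?_⟩
  · intro _
    unfold gau
    rw [hb.1, hb.2.1]
    have e1 : (fun i => ((bi (Z y0) (ℓ y0) (c, v)).2 i - Z y0 i) / ℓ y0 i) = v := by
      funext i
      have hli := (hl i).ne'
      change (Z y0 i + ℓ y0 i * v i - Z y0 i) / ℓ y0 i = v i
      field_simp
      ring
    rw [e1]
    linarith
  · intro i
    have := (h.size (bi (Z y0) (ℓ y0) (c, v)) i).1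
    rwa [hb.2.1] at this
  · intro i
    have := (h.size (bi (Z y0) (ℓ y0) (c, v)) i).2
    rwa [hb.2.1] at this

theorem T2_disp {W W' : X × (D → ℝ) → D → ℝ} {β : X × (D → ℝ) → X × (D → ℝ)} {Z ℓ : (D → ℝ) → D → ℝ}
    {need : (D → ℝ) → Prop} {r C : ℝ} (h : PImm W W' β Z ℓ need r C) {ε L : ℝ} {U : Set (X × (D → ℝ))}
    {e e' : X × (D → ℝ) → X × (D → ℝ)} (hN : NI W' ε L U e e') (hε : C * ε ≤ r / 32)
    (y0 : D → ℝ) (hn : need y0) (c : X)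
    (hU : ∀ v : D → ℝ, 21 / 20 < ‖v‖ → ‖v‖ < 6 / 5 → β (bi (Z y0) (ℓ y0) (c, v)) ∈ U)
    (v : D → ℝ) (h1 : 21 / 20 < ‖v‖) (h2 : ‖v‖ < 6 / 5) :
    ‖bl W β r e (Z y0) (ℓ y0) (c, v) - (c, v)‖ ≤ C ^ 2 * ε := by
  obtain ⟨hg, hs1, hs2⟩ := T2_good h y0 hn c v h1 h2
  have hl := h.lpos y0
  have hC0 : 0 ≤ C := zero_le_one.trans h.C1
  have e1 := T1_exists h hN hε (bi (Z y0) (ℓ y0) (c, v)) hg (hU v h1 h2)
  have e2 := T0b_bo_lip (Z y0) (ℓ y0) (W (bi (Z y0) (ℓ y0) (c, v))) hl C h.C1 hs1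
    (lift W β r e (bi (Z y0) (ℓ y0) (c, v))) (bi (Z y0) (ℓ y0) (c, v))
  rw [T0b_bobi (Z y0) (ℓ y0) hl (c, v)] at e2
  calc ‖bl W β r e (Z y0) (ℓ y0) (c, v) - (c, v)‖
      ≤ C * ‖sc (W (bi (Z y0) (ℓ y0) (c, v)))
        (lift W β r e (bi (Z y0) (ℓ y0) (c, v)) - bi (Z y0) (ℓ y0) (c, v))‖ := e2
    _ ≤ C * (C * ε) := mul_le_mul_of_nonneg_left e1.2 hC0
    _ = C ^ 2 * ε := by ring

theorem T2_lip {W W' : X × (D → ℝ) → D → ℝ} {β : X × (D → ℝ) → X × (D → ℝ)} {Z ℓ : (D → ℝ) → D → ℝ}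
    {need : (D → ℝ) → Prop} {r C : ℝ} (h : PImm W W' β Z ℓ need r C) {ε L : ℝ} {U : Set (X × (D → ℝ))}
    {e e' : X × (D → ℝ) → X × (D → ℝ)} (hN : NI W' ε L U e e') (hε : C * ε ≤ r / 32) (hL : 1 ≤ L)
    (y0 : D → ℝ) (hn : need y0) (c : X)
    (hU : ∀ v : D → ℝ, 21 / 20 < ‖v‖ → ‖v‖ < 6 / 5 → β (bi (Z y0) (ℓ y0) (c, v)) ∈ U)
    (v : D → ℝ) (h1 : 21 / 20 < ‖v‖) (h2 : ‖v‖ < 6 / 5) :
    ∀ᶠ q in 𝓝 (c, v), ‖bl W β r e (Z y0) (ℓ y0) q - bl W β r e (Z y0) (ℓ y0) (c, v)‖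
      ≤ C ^ 4 * L * ‖q - (c, v)‖ := by
  obtain ⟨hg, hs1, hs2⟩ := T2_good h y0 hn c v h1 h2
  have hl := h.lpos y0
  have hC0 : 0 ≤ C := zero_le_one.trans h.C1
  have hL0 : 0 ≤ L := zero_le_one.trans hL
  have e1 := T1_lip h hN hε hL0 (bi (Z y0) (ℓ y0) (c, v)) hg (hU v h1 h2)
  have e2 := ((T0b_bi_cont (X := X) (Z y0) (ℓ y0)).continuousAt (x := (c, v))).eventually e1
  filter_upwards [e2] with q hq
  have e3 := T0b_bo_lip (Z y0) (ℓ y0) (W (bi (Z y0) (ℓ y0) (c, v))) hl C h.C1 hs1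
    (lift W β r e (bi (Z y0) (ℓ y0) q)) (lift W β r e (bi (Z y0) (ℓ y0) (c, v)))
  have e4 := T0b_bi_lip (Z y0) (ℓ y0) (W (bi (Z y0) (ℓ y0) (c, v))) hl
    (fun i => (h.pos _ i).le) C h.C1 hs2 q (c, v)
  calc ‖bl W β r e (Z y0) (ℓ y0) q - bl W β r e (Z y0) (ℓ y0) (c, v)‖
      ≤ C * ‖sc (W (bi (Z y0) (ℓ y0) (c, v)))
        (lift W β r e (bi (Z y0) (ℓ y0) q) - lift W β r e (bi (Z y0) (ℓ y0) (c, v)))‖ := e3
    _ ≤ C * (C ^ 2 * L * ‖sc (W (bi (Z y0) (ℓ y0) (c, v)))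
        (bi (Z y0) (ℓ y0) q - bi (Z y0) (ℓ y0) (c, v))‖) := mul_le_mul_of_nonneg_left hq hC0
    _ ≤ C * (C ^ 2 * L * (C * ‖q - (c, v)‖)) := by gcongr
    _ = C ^ 4 * L * ‖q - (c, v)‖ := by ring

theorem T2_inv {W W' : X × (D → ℝ) → D → ℝ} {β : X × (D → ℝ) → X × (D → ℝ)} {Z ℓ : (D → ℝ) → D → ℝ}
    {need : (D → ℝ) → Prop} {r C : ℝ} (h : PImm W W' β Z ℓ need r C) {ε L : ℝ} {U : Set (X × (D → ℝ))}
    {e e' : X × (D → ℝ) → X × (D → ℝ)} (hN : NI W' ε L U e e') (hε : C * ε ≤ r / 32)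
    (y0 : D → ℝ) (hn : need y0) (c : X)
    (hU : ∀ v : D → ℝ, 21 / 20 < ‖v‖ → ‖v‖ < 6 / 5 → β (bi (Z y0) (ℓ y0) (c, v)) ∈ U)
    (v : D → ℝ) (h1 : 21 / 20 < ‖v‖) (h2 : ‖v‖ < 6 / 5)
    (hi : bl W β r e (Z y0) (ℓ y0) (c, v) ∈ ({c} ×ˢ {v : D → ℝ | 21 / 20 < ‖v‖ ∧ ‖v‖ < 6 / 5} :
      Set (X × (D → ℝ)))) :
    bl W β r e' (Z y0) (ℓ y0) (bl W β r e (Z y0) (ℓ y0) (c, v)) = (c, v) := by
  obtain ⟨hg, hs1, hs2⟩ := T2_good h y0 hn c v h1 h2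
  have hl := h.lpos y0
  have e1 := T1_exists h hN hε (bi (Z y0) (ℓ y0) (c, v)) hg (hU v h1 h2)
  have e2 : bi (Z y0) (ℓ y0) (bl W β r e (Z y0) (ℓ y0) (c, v))
      = lift W β r e (bi (Z y0) (ℓ y0) (c, v)) := T0b_bibo (Z y0) (ℓ y0) hl _
  have e3 : e (β (bi (Z y0) (ℓ y0) (c, v))) ∈ U := by
    rw [← e1.1, ← e2]
    obtain ⟨hi1, hi2, hi3⟩ := hi
    have e4 : bl W β r e (Z y0) (ℓ y0) (c, v) = (c, (bl W β r e (Z y0) (ℓ y0) (c, v)).2) :=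
      Prod.ext hi1 rfl
    rw [e4]
    exact hU _ hi2 hi3
  have e5 := T1_inv h hN hε (bi (Z y0) (ℓ y0) (c, v)) hg (hU v h1 h2) e3
  change bo (Z y0) (ℓ y0) (lift W β r e' (bi (Z y0) (ℓ y0)
    (bl W β r e (Z y0) (ℓ y0) (c, v)))) = (c, v)
  rw [e2, e5]
  exact T0b_bobi (Z y0) (ℓ y0) hl (c, v)

theorem T2_pres {W W' : X × (D → ℝ) → D → ℝ} {β : X × (D → ℝ) → X × (D → ℝ)} {Z ℓ : (D → ℝ) → D → ℝ}
    {need : (D → ℝ) → Prop} {r C : ℝ} (h : PImm W W' β Z ℓ need r C) {ε L : ℝ} {U : Set (X × (D → ℝ))}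
    {e e' : X × (D → ℝ) → X × (D → ℝ)} (hN : NI W' ε L U e e') (z l : D → ℝ) (p : X × (D → ℝ)) :
    (bl W β r e z l p).1 = p.1 :=
  T1_pres W β r e h.pres hN.pres (bi z l p)

theorem T2_box {W W' : X × (D → ℝ) → D → ℝ} {β : X × (D → ℝ) → X × (D → ℝ)} {Z ℓ : (D → ℝ) → D → ℝ}
    {need : (D → ℝ) → Prop} {r C : ℝ} (h : PImm W W' β Z ℓ need r C) {ε L : ℝ} {U : Set (X × (D → ℝ))}
    {e e' : X × (D → ℝ) → X × (D → ℝ)} (hN : NI W' ε L U e e') (hε : C * ε ≤ r / 32) (hL : 1 ≤ L)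
    (y0 : D → ℝ) (hn : need y0) (c : X)
    (hU : ∀ v : D → ℝ, 21 / 20 < ‖v‖ → ‖v‖ < 6 / 5 → β (bi (Z y0) (ℓ y0) (c, v)) ∈ U) :
    NP (C ^ 2 * ε) (C ^ 4 * L) ({c} ×ˢ {v : D → ℝ | 21 / 20 < ‖v‖ ∧ ‖v‖ < 6 / 5})
      (bl W β r e (Z y0) (ℓ y0)) (bl W β r e' (Z y0) (ℓ y0)) := by
  refine ⟨fun p => T2_pres h hN _ _ p, fun p => T2_pres h hN.symm _ _ p, ?_, ?_, ?_, ?_, ?_, ?_⟩
  · rintro ⟨c', v⟩ ⟨hc, hv1, hv2⟩
    obtain rfl : c' = c := hc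
    exact T2_disp h hN hε y0 hn c' hU v hv1 hv2
  · rintro ⟨c', v⟩ ⟨hc, hv1, hv2⟩
    obtain rfl : c' = c := hc
    exact T2_disp h hN.symm hε y0 hn c' hU v hv1 hv2
  · rintro ⟨c', v⟩ ⟨hc, hv1, hv2⟩
    obtain rfl : c' = c := hc
    exact T2_lip h hN hε hL y0 hn c' hU v hv1 hv2
  · rintro ⟨c', v⟩ ⟨hc, hv1, hv2⟩
    obtain rfl : c' = c := hc
    exact T2_lip h hN.symm hε hL y0 hn c' hU v hv1 hv2
  · rintro ⟨c', v⟩ ⟨hc, hv1, hv2⟩ hi
    obtain rfl : c' = c := hc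
    exact T2_inv h hN hε y0 hn c' hU v hv1 hv2 hi
  · rintro ⟨c', v⟩ ⟨hc, hv1, hv2⟩ hi
    obtain rfl : c' = c := hc
    exact T2_inv h hN.symm hε y0 hn c' hU v hv1 hv2 hi

end H80.LD

end S_H80_LD_T2

section S_H80_LD_GEnv

/-!
# GEnv (project MP_816883_LD, blocks 8-9): first consequences of `Env` (proved)
-/

open Filter Topology Metric Set

namespace H80.LD

variable {E : Type*} [NormedAddCommGroup E] {A B : E → E} {s : E → ℝ} {L ε r : ℝ}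

theorem Env.s_le (h : Env A B s L ε r) {x z : E} (hx : x ∈ ball (0 : E) r)
    (hz : z ∈ ball (0 : E) r) : s x ≤ s z + ε * ‖x - z‖ := by
  have := (abs_le.1 (h.slip x hx z hz)).2
  linarith

theorem Env.nA (h : Env A B s L ε r) {x : E} (hx : x ∈ ball (0 : E) r) : ‖A x‖ ≤ L * ‖x‖ := by
  have := h.lipA x hx 0 (mem_ball_self h.hr)
  rwa [h.A0, sub_zero, sub_zero] at this

theorem Env.nB1 (h : Env A B s L ε r) {x : E} (hx : x ∈ ball (0 : E) r) : ‖B x‖ ≤ L * ‖x‖ := by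
  have := h.lipB x hx 0 (mem_ball_self h.hr)
  rwa [h.B0, sub_zero, sub_zero] at this

theorem Env.contB (h : Env A B s L ε r) {y : E} (hy : y ∈ ball (0 : E) r) : ContinuousAt B y := by
  have h1 : ∀ᶠ y' in 𝓝 y, ‖B y' - B y‖ ≤ L * ‖y' - y‖ := by
    filter_upwards [isOpen_ball.mem_nhds hy] with y' hy'
    exact h.lipB y' hy' y hy
  have h2 : Tendsto (fun y' : E => L * ‖y' - y‖) (𝓝 y) (𝓝 0) := by
    have : Continuous (fun y' : E => L * ‖y' - y‖) := by fun_prop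
    have h3 := this.tendsto y
    simpa using h3
  unfold ContinuousAt
  rw [tendsto_iff_norm_sub_tendsto_zero]
  exact squeeze_zero' (Eventually.of_forall fun y => norm_nonneg _) h1 h2

/-- a centre `z` and a point `x` at distance at most `a s z`, `a ε ≤ 1/2` -/
theorem Env.near (h : Env A B s L ε r) {r2 a : ℝ} {z x : E} (h8 : 8 * L ^ 2 * r2 ≤ r) (hz : z ≠ 0)
    (hz2 : ‖z‖ < r2) (ha : a * ε ≤ 1 / 2) (hx : ‖x - z‖ ≤ a * s z) :
    x ≠ 0 ∧ ‖x‖ < 2 * r2 ∧ x ∈ ball (0 : E) r ∧ s x ≤ 2 * s z ∧ s z ≤ 2 * s x ∧ 0 < s x ∧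
      0 < s z ∧ z ∈ ball (0 : E) r := by
  have hL := h.hL
  have hz0 : 0 < ‖z‖ := norm_pos_iff.2 hz
  have hr2 : 0 < r2 := hz0.trans hz2
  have hL2 : 1 ≤ L ^ 2 := by nlinarith
  have hr : 8 * r2 ≤ r := by nlinarith
  have hzr : z ∈ ball (0 : E) r := by
    rw [mem_ball_zero_iff]; linarith
  have hs := h.spos z hzr hz
  have hsz := h.ssmall z hzr
  have hε := h.hε
  have ha0 : 0 ≤ a := by
    by_contra hneg
    push Not at hneg
    have h1 : a * s z < 0 := mul_neg_of_neg_of_pos hneg hs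
    linarith [norm_nonneg (x - z)]
  have h1 : a * s z ≤ 1 / 2 * ‖z‖ := by
    calc a * s z ≤ a * (ε * ‖z‖) := mul_le_mul_of_nonneg_left hsz ha0
      _ = (a * ε) * ‖z‖ := by ring
      _ ≤ 1 / 2 * ‖z‖ := mul_le_mul_of_nonneg_right ha hz0.le
  have h2 : ‖x‖ ≤ ‖x - z‖ + ‖z‖ := by
    calc ‖x‖ = ‖(x - z) + z‖ := by rw [sub_add_cancel]
      _ ≤ _ := norm_add_le _ _
  have h3 : ‖z‖ ≤ ‖x‖ + ‖x - z‖ := by
    calc ‖z‖ = ‖x - (x - z)‖ := by rw [sub_sub_cancel]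
      _ ≤ _ := norm_sub_le _ _
  have hx0 : x ≠ 0 := by
    rintro rfl
    rw [norm_zero] at h3
    linarith
  have hx2 : ‖x‖ < 2 * r2 := by linarith
  have hxr : x ∈ ball (0 : E) r := by
    rw [mem_ball_zero_iff]; linarith
  have h4 : ε * ‖x - z‖ ≤ 1 / 2 * s z := by
    calc ε * ‖x - z‖ ≤ ε * (a * s z) := mul_le_mul_of_nonneg_left hx hε.le
      _ = (a * ε) * s z := by ring
      _ ≤ 1 / 2 * s z := mul_le_mul_of_nonneg_right ha hs.le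
  have h5 := h.s_le hxr hzr
  have h6 := h.s_le hzr hxr
  rw [norm_sub_rev] at h6
  exact ⟨hx0, hx2, hxr, by linarith, by linarith, h.spos x hxr hx0, hs, hzr⟩

end H80.LD

end S_H80_LD_GEnv

section S_H80_LD_GGlA

/-!
# GGlA (project MP_816883_LD, blocks 8-9): glued maps, basic properties

`glu s Z b g1 G x = g1 z x` if `b x ∈ ball z (5/2 s z)` for some `z ∈ Z`, and `G x` otherwise. It is used with `b = id` (source maps) and `b = B` (target maps).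
* `glu_eq`: uniqueness of `z`: if `b x ∈ ball z (5/2 s z)` and `b x ∈ ball z' (5/2 s z')`, `z ≠ z'`, then `‖z - z'‖ < 5/2 (s z + s z') ≤ 5 max < 6 max ≤ ‖z - z'‖` (`0 < s z`).
* `glu_margin`: put `x0 = b x`, `δ = τ s x0 / 3 > 0` (`x0 ∈ Dm`, so `x0 ≠ 0`, `x0 ∈ ball 0 r`). For `x'` near `x`: `hg` holds at `x'`, `w = b x'` satisfies `‖w - x0‖ ≤ δ` and `w ∈ ball 0 r`.
  If `w ∈ ball z (5/2 s z)` for a `z ∈ Z`: `glu x' = g1 z x'` (`glu_eq`), `w ∈ ball z (3 s z)`; `s z ≤ s w + 5/2 ε s z ≤ s w + s z / 4`, so `s z ≤ 4/3 s w`, `s w ≤ s x0 + ε δ`;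
  `τ s z + δ ≤ 4/3 τ (s x0 + ε δ) + δ ≤ 4/3 τ s x0 + 2 δ = 2 τ s x0` (as `4/3 τ ε ≤ 1`), hence `closedBall w (τ s z) ⊆ closedBall x0 (2 τ s x0) ⊆ Dm`, and `hg` gives `g1 z x' = G x'`.
  If there is no such `z`, `glu x' = G x'` by definition.
-/

open Filter Topology Metric Set

namespace H80.LD

variable {E : Type*} [NormedAddCommGroup E]

open scoped Classical in
noncomputable def glu (s : E → ℝ) (Z : Set E) (b : E → E) (g1 : E → E → E) (G : E → E) (x : E) : E :=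
  if h : ∃ z ∈ Z, b x ∈ ball z (5 / 2 * s z) then g1 h.choose x else G x

theorem glu_eq {s : E → ℝ} {Z : Set E} {b : E → E} {g1 : E → E → E} {G : E → E}
    (hpos : ∀ z ∈ Z, 0 < s z)
    (hsep : ∀ z ∈ Z, ∀ z' ∈ Z, z ≠ z' → 6 * max (s z) (s z') ≤ ‖z - z'‖) {x z : E} (hz : z ∈ Z)
    (hx : b x ∈ ball z (5 / 2 * s z)) : glu s Z b g1 G x = g1 z x := by
  have h : ∃ z ∈ Z, b x ∈ ball z (5 / 2 * s z) := ⟨z, hz, hx⟩
  have e1 : glu s Z b g1 G x = g1 h.choose x := by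
    unfold glu
    rw [dif_pos h]
  obtain ⟨h1, h2⟩ := h.choose_spec
  have e2 : h.choose = z := by
    by_contra hne
    have h3 := hsep _ h1 z hz hne
    rw [mem_ball_iff_norm] at h2 hx
    have h4 : ‖h.choose - z‖ ≤ ‖b x - z‖ + ‖b x - h.choose‖ := by
      calc ‖h.choose - z‖ = ‖(b x - z) - (b x - h.choose)‖ := by
            congr 1
            abel
        _ ≤ _ := norm_sub_le _ _
    have h5 := le_max_left (s h.choose) (s z)
    have h6 := le_max_right (s h.choose) (s z)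
    have h7 := hpos z hz
    linarith
  rw [e1, e2]

theorem glu_margin {A B : E → E} {s : E → ℝ} {L ε r r2 τ : ℝ} {Dm Z : Set E} {b : E → E}
    {g1 : E → E → E} {G : E → E} (env : Env A B s L ε r) (h8 : 8 * L ^ 2 * r2 ≤ r) (hτ : 0 < τ)
    (hτ1 : τ ≤ 1) (hε : ε ≤ 1 / 10) (hD : ∀ x ∈ Dm, x ≠ 0 ∧ ‖x‖ < r2)
    (hZ : ∀ z ∈ Z, z ≠ 0 ∧ ‖z‖ < r2)
    (hsep : ∀ z ∈ Z, ∀ z' ∈ Z, z ≠ z' → 6 * max (s z) (s z') ≤ ‖z - z'‖) {x : E}
    (hb : ContinuousAt b x) (hx : b x ∈ Dm) (hx2 : closedBall (b x) (2 * τ * s (b x)) ⊆ Dm)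
    (hg : ∀ᶠ x' in 𝓝 x, ∀ z ∈ Z, b x' ∈ ball z (3 * s z) →
      closedBall (b x') (τ * s z) ⊆ Dm → g1 z x' = G x') :
    ∀ᶠ x' in 𝓝 x, glu s Z b g1 G x' = G x' := by
  obtain ⟨hx0, hxr2⟩ := hD _ hx
  have hL := env.hL
  have hr2 : 0 < r2 := (norm_nonneg _).trans_lt hxr2
  have hL2 : 1 ≤ L ^ 2 := by nlinarith
  have hr : 8 * r2 ≤ r := by nlinarith
  have hball : ∀ z : E, ‖z‖ < r2 → z ∈ ball (0 : E) r := by
    intro z hz
    rw [mem_ball_zero_iff]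
    linarith
  have hxr := hball _ hxr2
  have hs0 := env.spos _ hxr hx0
  have hpos : ∀ z ∈ Z, 0 < s z := fun z hz => env.spos z (hball z (hZ z hz).2) (hZ z hz).1
  have hε0 := env.hε
  obtain ⟨δ, hδ⟩ : ∃ δ : ℝ, δ = τ * s (b x) / 3 := ⟨_, rfl⟩
  have hδ0 : 0 < δ := by rw [hδ]; positivity
  have hev1 : ∀ᶠ x' in 𝓝 x, b x' ∈ ball (b x) δ := hb.eventually (ball_mem_nhds _ hδ0)
  have hev2 : ∀ᶠ x' in 𝓝 x, b x' ∈ ball (0 : E) r := hb.eventually (isOpen_ball.mem_nhds hxr)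
  filter_upwards [hg, hev1, hev2] with x' h1 h2 h3
  by_cases hex : ∃ z ∈ Z, b x' ∈ ball z (5 / 2 * s z)
  · obtain ⟨z, hz, hzb⟩ := hex
    rw [glu_eq hpos hsep hz hzb]
    have hsz := hpos z hz
    have hzr := hball z (hZ z hz).2
    have h4 := env.s_le hzr h3
    have hzb' := hzb
    rw [mem_ball_iff_norm, ← norm_neg, neg_sub] at hzb'
    have h5 : ε * ‖z - b x'‖ ≤ 1 / 10 * (5 / 2 * s z) :=
      mul_le_mul hε hzb'.le (norm_nonneg _) (by norm_num)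
    have h6 := env.s_le h3 hxr
    rw [mem_ball_iff_norm] at h2
    have h7 : ε * ‖b x' - b x‖ ≤ ε * δ := mul_le_mul_of_nonneg_left h2.le hε0.le
    refine h1 z hz (ball_subset_ball (by linarith) hzb) ?_
    refine Subset.trans ?_ hx2
    intro y hy
    rw [mem_closedBall_iff_norm] at hy ⊢
    have h8 : ‖y - b x‖ ≤ ‖y - b x'‖ + ‖b x' - b x‖ := by
      calc ‖y - b x‖ = ‖(y - b x') + (b x' - b x)‖ := by
            congr 1
            abel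
        _ ≤ _ := norm_add_le _ _
    have h9 : s z ≤ 4 / 3 * (s (b x) + ε * δ) := by linarith
    have h10 : τ * s z ≤ τ * (4 / 3 * (s (b x) + ε * δ)) := mul_le_mul_of_nonneg_left h9 hτ.le
    have h11 : τ * ε ≤ 1 * (1 / 10) := mul_le_mul hτ1 hε hε0.le zero_le_one
    have h12 : τ * ε * δ ≤ 1 * (1 / 10) * δ := mul_le_mul_of_nonneg_right h11 hδ0.le
    have h13 : 3 * δ = τ * s (b x) := by rw [hδ]; ring
    nlinarith
  · unfold glu
    rw [dif_neg hex]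

end H80.LD

end S_H80_LD_GGlA
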