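import Mathlib
import Pool.Agent.H24.LS.Base
import Pool.Agent.H80.LM.G01
import Pool.Agent.H80.LM.G11

/-! MP_816883_ag: this file joins several modules (see the folders H80/LD, H24/LS) to save build time. -/

section S_H80_LD_T3

/-!
# T3: displacement and pointwise Lipschitz bound of the transferred map

`Φ z l`, `Φ' z l` are fillings (`Fills`) of the pairs `bl W β r e z l`, `bl W β r e' z l`.  `T p = tr Z ℓ need (lift W β r e) Φ p`.  Let `p` be such that `β q ∈ U` for all `q` with `‖sc (W p) (q - p)‖ ≤ 3 C`.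
In particular `β p ∈ U`.  Let `z = Z p.2`, `l = ℓ p.2`, `p' = bo z l p`, `c = p.1`.
(*) If `need p.2` and `gau p.2 < 6/5`: for all `v` with `‖v‖ < 6/5`, `q = bi z l (c, v)`: `‖sc (W p) (q - p)‖ ≤ C ‖(c,v) - p'‖ ≤ C * 12/5 ≤ 3 C`, so `β q ∈ U`; T2 gives the NP property of the pair in box coordinates on
`{c} ×ˢ shell` with constants `C^2 ε ≤ 1/3400`, `C^4 L ≥ 1`, hence `NP (10^5 C^2 ε) (10^16 (C^4 L)^3)` for `Φ z l, Φ' z l` on `{c} ×ˢ ball 0 (6/5)`, and `Φ z l (c, v) = bl ... e z l (c, v)` for `219/200 ≤ ‖v‖ < 6/5`.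
(i) displacement: case box (`need`, `gau < 11/10`): `‖sc (W p) (bi (Φ p') - p)‖ = ‖sc (W p) (bi (Φ p') - bi p')‖ ≤ C * 10^5 C^2 ε`.  Otherwise `p` is good and `T1_exists` gives `C ε`.
(ii) Lipschitz bound near `p`:
  - `need p.2`, `gau p.2 < 11/10`: near `p`, box data are the same (`T0b_near`), `gau q.2 = ‖(bo z l q).2‖ < 11/10` (continuity), so `T q = bi (Φ (bo q))`,
    `‖sc (W p) (T q - T p)‖ ≤ C * 10^16 (C^4 L)^3 * ‖bo q - bo p‖ ≤ C * 10^16 * C^12 L^3 * C ‖sc (W p) (q-p)‖`.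
  - `need p.2`, `11/10 < gau p.2 < 6/5`: near `p` `T q = lift q`, `T1_lip`.
  - `need p.2`, `gau p.2 = 11/10`: near `p` `T q` is `lift q` or `bi (Φ (bo q))`, these two agree at `p` (see (*)), both have pointwise bounds; for every `q` use the appropriate one (`T p = lift p`).
  - `need p.2`, `gau p.2 ≥ 6/5`, or not `need p.2`: near `p` `T q = lift q`.  Indeed let `δ` be small (`N (q - p) ≤ 1/2` and `N (q-p) < 1 / (20 C)`), and suppose `need q.2` and `gau q.2 < 11/10`.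
    Then `|p.2 i - Z q.2 i| ≤ |p.2 i - q.2 i| + (11/10) ℓ q.2 i` and `W q i |p.2 i - q.2 i| ≤ 2 N (p - q) < 1/(10 C) ≤ (1/10) W q i ℓ q.2 i`, so `|p.2 i - Z q.2 i| < (6/5) ℓ q.2 i`,
    by `box` `Z p.2 = Z q.2`, `ℓ p.2 = ℓ q.2`, `need p.2`, and `gau p.2 < 6/5`, contradiction.
* `T3_disp'`, `T3_lip'` for the inverse: `NI.symm`, `Fills.symm`.
* `T3_nbhd`: the last argument as a lemma, used again in T4: if `need q.2`, `gau q.2 < 11/10`, `‖sc (W q) (p - q)‖ < 1 / (10 C)`, then `Z p.2 = Z q.2`, `ℓ p.2 = ℓ q.2`, `need p.2`, `gau p.2 < 6/5`.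
-/

open Filter Topology Metric Set

namespace H80.LD

variable {X : Type*} [NormedAddCommGroup X] {D : Type*} [Fintype D]

theorem T3_gau (Z ℓ : (D → ℝ) → D → ℝ) (p : X × (D → ℝ)) (z l : D → ℝ) (hz : Z p.2 = z)
    (hl : ℓ p.2 = l) : gau Z ℓ p.2 = ‖(bo z l p).2‖ := by
  subst hz; subst hl; rfl

theorem T3_nbhd {W W' : X × (D → ℝ) → D → ℝ} {β : X × (D → ℝ) → X × (D → ℝ)} {Z ℓ : (D → ℝ) → D → ℝ}
    {need : (D → ℝ) → Prop} {r C : ℝ} (h : PImm W W' β Z ℓ need r C) (p q : X × (D → ℝ)) (hn : need q.2)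
    (hg : gau Z ℓ q.2 < 11 / 10) (hpq : ‖sc (W q) (p - q)‖ < 1 / (10 * C)) :
    Z p.2 = Z q.2 ∧ ℓ p.2 = ℓ q.2 ∧ need p.2 ∧ gau Z ℓ p.2 < 6 / 5 := by
  have hC : 0 < C := lt_of_lt_of_le one_pos h.C1
  have hlt : ∀ i, |p.2 i - Z q.2 i| < 6 / 5 * ℓ q.2 i := by
    intro i
    rw [T3_gau Z ℓ q _ _ rfl rfl] at hg
    have h1 := (T0b_box_iff (Z q.2) (ℓ q.2) (h.lpos q.2) (11 / 10) (by norm_num) q).1 hg i
    have h2 := (T0b_coord (W q) (fun j => (h.pos q j).le) (p - q) i).trans_lt hpq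
    have h3 := (h.size q i).1
    have h4 : (1 / (10 * C)) = (1 / 10) * (1 / C) := by field_simp
    have h5 : W q i * |(p - q).2 i| < W q i * ((1 / 10) * ℓ q.2 i) := by
      rw [h4] at h2; nlinarith
    have h6 : |(p - q).2 i| < (1 / 10) * ℓ q.2 i := lt_of_mul_lt_mul_left h5 (h.pos q i).le
    have h7 : |p.2 i - Z q.2 i| ≤ |(p - q).2 i| + |q.2 i - Z q.2 i| := by
      have : p.2 i - Z q.2 i = (p - q).2 i + (q.2 i - Z q.2 i) := by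
        simp only [Prod.snd_sub, Pi.sub_apply]; ring
      rw [this]; exact abs_add_le _ _
    linarith
  obtain ⟨h1, h2, h3⟩ := h.box q.2 p.2 hn hlt
  refine ⟨h1, h2, h3, ?_⟩
  rw [T3_gau Z ℓ p _ _ h1 h2]
  exact (T0b_box_iff (Z q.2) (ℓ q.2) (h.lpos q.2) (6 / 5) (by norm_num) p).2 hlt

/-- the fact (*) -/
theorem T3_star {W W' : X × (D → ℝ) → D → ℝ} {β : X × (D → ℝ) → X × (D → ℝ)} {Z ℓ : (D → ℝ) → D → ℝ}
    {need : (D → ℝ) → Prop} {r C : ℝ} (h : PImm W W' β Z ℓ need r C) {ε L : ℝ} {U : Set (X × (D → ℝ))}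
    {e e' : X × (D → ℝ) → X × (D → ℝ)} (hN : NI W' ε L U e e') (hε : C * ε ≤ r / 32) (hL : 1 ≤ L)
    (p : X × (D → ℝ)) (hp : ∀ q : X × (D → ℝ), ‖sc (W p) (q - p)‖ ≤ 3 * C → β q ∈ U) (hn : need p.2)
    (hg : gau Z ℓ p.2 < 6 / 5) :
    (∀ v : D → ℝ, ‖v‖ < 6 / 5 → ‖sc (W p) (bi (Z p.2) (ℓ p.2) (p.1, v) - p)‖ ≤ 3 * C) ∧
    NP (C ^ 2 * ε) (C ^ 4 * L) ({p.1} ×ˢ {v : D → ℝ | 21 / 20 < ‖v‖ ∧ ‖v‖ < 6 / 5})
      (bl W β r e (Z p.2) (ℓ p.2)) (bl W β r e' (Z p.2) (ℓ p.2)) := by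
  have hC : 0 < C := lt_of_lt_of_le one_pos h.C1
  have h1 : ∀ v : D → ℝ, ‖v‖ < 6 / 5 →
      ‖sc (W p) (bi (Z p.2) (ℓ p.2) (p.1, v) - p)‖ ≤ 3 * C := by
    intro v hv
    have e1 : bi (Z p.2) (ℓ p.2) (bo (Z p.2) (ℓ p.2) p) = p := T0b_bibo _ _ (h.lpos p.2) p
    have h2 := T0b_bi_lip (Z p.2) (ℓ p.2) (W p) (h.lpos p.2) (fun j => (h.pos p j).le) C h.C1
      (fun i => (h.size p i).2) (p.1, v) (bo (Z p.2) (ℓ p.2) p)
    rw [e1] at h2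
    refine h2.trans ?_
    have h3 : ‖(p.1, v) - bo (Z p.2) (ℓ p.2) p‖ ≤ 12 / 5 := by
      rw [T3_gau Z ℓ p _ _ rfl rfl] at hg
      rw [Prod.norm_def]
      apply max_le
      · have : ((p.1, v) - bo (Z p.2) (ℓ p.2) p).1 = 0 := by
          rw [Prod.fst_sub]; exact sub_self _
        rw [this, norm_zero]; norm_num
      · rw [Prod.snd_sub]
        have := norm_sub_le v (bo (Z p.2) (ℓ p.2) p).2
        linarith
    nlinarith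
  exact ⟨h1, T2_box h hN hε hL p.2 hn p.1 fun v _ hv2 => hp _ (h1 v hv2)⟩

theorem T3_np {W W' : X × (D → ℝ) → D → ℝ} {β : X × (D → ℝ) → X × (D → ℝ)} {Z ℓ : (D → ℝ) → D → ℝ}
    {need : (D → ℝ) → Prop} {r C : ℝ} (h : PImm W W' β Z ℓ need r C) {ε L : ℝ}
    {e e' : X × (D → ℝ) → X × (D → ℝ)} (hε0 : 0 ≤ ε)
    (hε1 : C ^ 2 * ε ≤ 1 / 3400) (hL : 1 ≤ L) (Φ Φ' : (D → ℝ) → (D → ℝ) → X × (D → ℝ) → X × (D → ℝ))
    (hΦ : ∀ z l, Fills (bl W β r e z l) (bl W β r e' z l) (Φ z l) (Φ' z l))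
    (p : X × (D → ℝ)) (hnp : NP (C ^ 2 * ε) (C ^ 4 * L)
      ({p.1} ×ˢ {v : D → ℝ | 21 / 20 < ‖v‖ ∧ ‖v‖ < 6 / 5})
      (bl W β r e (Z p.2) (ℓ p.2)) (bl W β r e' (Z p.2) (ℓ p.2))) :
    NP (10 ^ 5 * (C ^ 2 * ε)) (10 ^ 16 * (C ^ 4 * L) ^ 3) ({p.1} ×ˢ ball (0 : D → ℝ) (6 / 5))
      (Φ (Z p.2) (ℓ p.2)) (Φ' (Z p.2) (ℓ p.2)) ∧
    ∀ v : D → ℝ, 219 / 200 ≤ ‖v‖ → ‖v‖ < 6 / 5 →
      Φ (Z p.2) (ℓ p.2) (p.1, v) = bl W β r e (Z p.2) (ℓ p.2) (p.1, v) := by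
  have hC4 : 1 ≤ C ^ 4 := one_le_pow₀ h.C1
  have h1 : 1 ≤ C ^ 4 * L := by nlinarith
  have h2 : 0 ≤ C ^ 2 * ε := by positivity
  exact ⟨(hΦ _ _).np p.1 _ _ h1 h2 hε1 hnp, fun v a b => ((hΦ _ _).eq p.1 _ _ h1 h2 hε1 hnp v a b).1⟩

theorem T3_mem (Z ℓ : (D → ℝ) → D → ℝ) (p : X × (D → ℝ)) (hg : gau Z ℓ p.2 < 6 / 5) :
    bo (Z p.2) (ℓ p.2) p ∈ ({p.1} ×ˢ ball (0 : D → ℝ) (6 / 5) : Set (X × (D → ℝ))) := by
  refine ⟨rfl, ?_⟩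
  rw [mem_ball_zero_iff]
  exact hg

theorem T3_disp {W W' : X × (D → ℝ) → D → ℝ} {β : X × (D → ℝ) → X × (D → ℝ)} {Z ℓ : (D → ℝ) → D → ℝ}
    {need : (D → ℝ) → Prop} {r C : ℝ} (h : PImm W W' β Z ℓ need r C) {ε L : ℝ} {U : Set (X × (D → ℝ))}
    {e e' : X × (D → ℝ) → X × (D → ℝ)} (hN : NI W' ε L U e e') (hε0 : 0 ≤ ε) (hε : C * ε ≤ r / 32)
    (hε1 : C ^ 2 * ε ≤ 1 / 3400) (hL : 1 ≤ L) (Φ Φ' : (D → ℝ) → (D → ℝ) → X × (D → ℝ) → X × (D → ℝ))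
    (hΦ : ∀ z l, Fills (bl W β r e z l) (bl W β r e' z l) (Φ z l) (Φ' z l))
    (p : X × (D → ℝ)) (hp : ∀ q : X × (D → ℝ), ‖sc (W p) (q - p)‖ ≤ 3 * C → β q ∈ U) :
    ‖sc (W p) (tr Z ℓ need (lift W β r e) Φ p - p)‖ ≤ 10 ^ 5 * C ^ 3 * ε := by
  have hC : 0 < C := lt_of_lt_of_le one_pos h.C1
  unfold tr
  split_ifs with hc
  · obtain ⟨hn, hg⟩ := hc
    have hg' : gau Z ℓ p.2 < 6 / 5 := hg.trans (by norm_num)
    have hs := (T3_star h hN hε hL p hp hn hg').2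
    have h1 := (T3_np h hε0 hε1 hL Φ Φ' hΦ p hs).1.disp _ (T3_mem Z ℓ p hg')
    have e1 : bi (Z p.2) (ℓ p.2) (bo (Z p.2) (ℓ p.2) p) = p := T0b_bibo _ _ (h.lpos p.2) p
    have h2 := T0b_bi_lip (Z p.2) (ℓ p.2) (W p) (h.lpos p.2) (fun j => (h.pos p j).le) C h.C1
      (fun i => (h.size p i).2) (Φ (Z p.2) (ℓ p.2) (bo (Z p.2) (ℓ p.2) p)) (bo (Z p.2) (ℓ p.2) p)
    rw [e1] at h2
    refine h2.trans ?_
    calc C * ‖Φ (Z p.2) (ℓ p.2) (bo (Z p.2) (ℓ p.2) p) - bo (Z p.2) (ℓ p.2) p‖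
        ≤ C * (10 ^ 5 * (C ^ 2 * ε)) := mul_le_mul_of_nonneg_left h1 hC.le
      _ = 10 ^ 5 * C ^ 3 * ε := by ring
  · have hgood : need p.2 → 1 ≤ gau Z ℓ p.2 := by
      intro hn
      by_contra hcon
      exact hc ⟨hn, (not_le.1 hcon).trans (by norm_num)⟩
    have hU : β p ∈ U := hp p (by rw [T0b_self]; positivity)
    refine (T1_exists h hN hε p hgood hU).2.trans ?_
    have h1 : 1 ≤ C ^ 2 := one_le_pow₀ h.C1
    have h2 : 0 ≤ C * ε := by positivity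
    calc C * ε = 1 * (C * ε) := by ring
      _ ≤ (10 ^ 5 * C ^ 2) * (C * ε) := mul_le_mul_of_nonneg_right (by nlinarith) h2
      _ = 10 ^ 5 * C ^ 3 * ε := by ring

theorem T3_box_lip {W W' : X × (D → ℝ) → D → ℝ} {β : X × (D → ℝ) → X × (D → ℝ)} {Z ℓ : (D → ℝ) → D → ℝ}
    {need : (D → ℝ) → Prop} {r C : ℝ} (h : PImm W W' β Z ℓ need r C) {ε L : ℝ} {U : Set (X × (D → ℝ))}
    {e e' : X × (D → ℝ) → X × (D → ℝ)} (hN : NI W' ε L U e e') (hε0 : 0 ≤ ε) (hε : C * ε ≤ r / 32)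
    (hε1 : C ^ 2 * ε ≤ 1 / 3400) (hL : 1 ≤ L) (Φ Φ' : (D → ℝ) → (D → ℝ) → X × (D → ℝ) → X × (D → ℝ))
    (hΦ : ∀ z l, Fills (bl W β r e z l) (bl W β r e' z l) (Φ z l) (Φ' z l))
    (p : X × (D → ℝ)) (hp : ∀ q : X × (D → ℝ), ‖sc (W p) (q - p)‖ ≤ 3 * C → β q ∈ U) (hn : need p.2)
    (hg : gau Z ℓ p.2 < 6 / 5) :
    ∀ᶠ q in 𝓝 p, ‖sc (W p) (bi (Z p.2) (ℓ p.2) (Φ (Z p.2) (ℓ p.2) (bo (Z p.2) (ℓ p.2) q)) -
      bi (Z p.2) (ℓ p.2) (Φ (Z p.2) (ℓ p.2) (bo (Z p.2) (ℓ p.2) p)))‖ ≤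
      10 ^ 16 * C ^ 14 * L ^ 3 * ‖sc (W p) (q - p)‖ := by
  have hC : 0 < C := lt_of_lt_of_le one_pos h.C1
  have hs := (T3_star h hN hε hL p hp hn hg).2
  have h1 := (T3_np h hε0 hε1 hL Φ Φ' hΦ p hs).1.lip _ (T3_mem Z ℓ p hg)
  have h2 := (T0b_bo_cont (X := X) (Z p.2) (ℓ p.2)).continuousAt (x := p) |>.eventually h1
  filter_upwards [h2] with q hq
  have h3 := T0b_bi_lip (Z p.2) (ℓ p.2) (W p) (h.lpos p.2) (fun j => (h.pos p j).le) C h.C1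
      (fun i => (h.size p i).2) (Φ (Z p.2) (ℓ p.2) (bo (Z p.2) (ℓ p.2) q))
      (Φ (Z p.2) (ℓ p.2) (bo (Z p.2) (ℓ p.2) p))
  have h4 := T0b_bo_lip (Z p.2) (ℓ p.2) (W p) (h.lpos p.2) C h.C1 (fun i => (h.size p i).1) q p
  have hL0 : 0 ≤ L := by linarith
  calc _ ≤ C * ‖Φ (Z p.2) (ℓ p.2) (bo (Z p.2) (ℓ p.2) q) -
        Φ (Z p.2) (ℓ p.2) (bo (Z p.2) (ℓ p.2) p)‖ := h3
    _ ≤ C * (10 ^ 16 * (C ^ 4 * L) ^ 3 * ‖bo (Z p.2) (ℓ p.2) q - bo (Z p.2) (ℓ p.2) p‖) :=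
        mul_le_mul_of_nonneg_left hq hC.le
    _ ≤ C * (10 ^ 16 * (C ^ 4 * L) ^ 3 * (C * ‖sc (W p) (q - p)‖)) :=
        mul_le_mul_of_nonneg_left (mul_le_mul_of_nonneg_left h4 (by positivity)) hC.le
    _ = 10 ^ 16 * C ^ 14 * L ^ 3 * ‖sc (W p) (q - p)‖ := by ring

theorem T3_lip {W W' : X × (D → ℝ) → D → ℝ} {β : X × (D → ℝ) → X × (D → ℝ)} {Z ℓ : (D → ℝ) → D → ℝ}
    {need : (D → ℝ) → Prop} {r C : ℝ} (h : PImm W W' β Z ℓ need r C) {ε L : ℝ} {U : Set (X × (D → ℝ))}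
    {e e' : X × (D → ℝ) → X × (D → ℝ)} (hN : NI W' ε L U e e') (hε0 : 0 ≤ ε) (hε : C * ε ≤ r / 32)
    (hε1 : C ^ 2 * ε ≤ 1 / 3400) (hL : 1 ≤ L) (Φ Φ' : (D → ℝ) → (D → ℝ) → X × (D → ℝ) → X × (D → ℝ))
    (hΦ : ∀ z l, Fills (bl W β r e z l) (bl W β r e' z l) (Φ z l) (Φ' z l))
    (p : X × (D → ℝ)) (hp : ∀ q : X × (D → ℝ), ‖sc (W p) (q - p)‖ ≤ 3 * C → β q ∈ U) :
    ∀ᶠ q in 𝓝 p, ‖sc (W p) (tr Z ℓ need (lift W β r e) Φ q - tr Z ℓ need (lift W β r e) Φ p)‖ ≤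
      10 ^ 16 * C ^ 14 * L ^ 3 * ‖sc (W p) (q - p)‖ := by
  have hC : 0 < C := lt_of_lt_of_le one_pos h.C1
  have hL0 : 0 ≤ L := by linarith
  have hU : β p ∈ U := hp p (by rw [T0b_self]; positivity)
  have hK : C ^ 2 * L ≤ 10 ^ 16 * C ^ 14 * L ^ 3 := by
    have h1 : 1 ≤ C ^ 12 := one_le_pow₀ h.C1
    have h2 : 1 ≤ L ^ 2 := one_le_pow₀ hL
    have h3 : 0 ≤ C ^ 2 * L := by positivity
    have h4 : 1 ≤ C ^ 12 * L ^ 2 := by nlinarith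
    calc C ^ 2 * L = 1 * (C ^ 2 * L) := by ring
      _ ≤ (10 ^ 16 * (C ^ 12 * L ^ 2)) * (C ^ 2 * L) :=
          mul_le_mul_of_nonneg_right (by linarith) h3
      _ = 10 ^ 16 * C ^ 14 * L ^ 3 := by ring
  -- the bound for lifts
  have hlift : (need p.2 → 1 ≤ gau Z ℓ p.2) → ∀ᶠ q in 𝓝 p,
      ‖sc (W p) (lift W β r e q - lift W β r e p)‖ ≤
        10 ^ 16 * C ^ 14 * L ^ 3 * ‖sc (W p) (q - p)‖ := by
    intro hgood
    filter_upwards [T1_lip h hN hε hL0 p hgood hU] with q hq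
    exact hq.trans (mul_le_mul_of_nonneg_right hK (norm_nonneg _))
  by_cases hcase : need p.2 ∧ gau Z ℓ p.2 < 6 / 5
  · obtain ⟨hn, hg⟩ := hcase
    have hnear := T0b_near Z ℓ need h.lpos h.box p hn hg
    have hbox := T3_box_lip h hN hε0 hε hε1 hL Φ Φ' hΦ p hp hn hg
    by_cases hg1 : gau Z ℓ p.2 < 11 / 10
    · -- inside the box
      have hcont : ∀ᶠ q in 𝓝 p, ‖(bo (Z p.2) (ℓ p.2) q).2‖ < 11 / 10 := by
        have hc : ContinuousAt (fun q : X × (D → ℝ) => ‖(bo (Z p.2) (ℓ p.2) q).2‖) p :=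
          (continuous_norm.comp (continuous_snd.comp (T0b_bo_cont (Z p.2) (ℓ p.2)))).continuousAt
        exact hc.eventually_lt_const hg1
      filter_upwards [hnear, hbox, hcont] with q hq hq2 hq3
      obtain ⟨a, b, c, _⟩ := hq
      have hg2 : gau Z ℓ q.2 < 11 / 10 := by rw [T3_gau Z ℓ q _ _ a b]; exact hq3
      unfold tr
      rw [if_pos ⟨c, hg2⟩, if_pos ⟨hn, hg1⟩, a, b]
      exact hq2
    · have hgood : need p.2 → 1 ≤ gau Z ℓ p.2 := fun _ => by linarith [not_lt.1 hg1]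
      have hTp : tr Z ℓ need (lift W β r e) Φ p = lift W β r e p := by
        unfold tr; rw [if_neg fun hh => hg1 hh.2]
      have hs := (T3_star h hN hε hL p hp hn hg).2
      have heq : bi (Z p.2) (ℓ p.2) (Φ (Z p.2) (ℓ p.2) (bo (Z p.2) (ℓ p.2) p)) =
          lift W β r e p := by
        have h1 := (T3_np h hε0 hε1 hL Φ Φ' hΦ p hs).2 (bo (Z p.2) (ℓ p.2) p).2
          (le_trans (by norm_num) (not_lt.1 hg1)) hg
        have h2 : ((p.1, (bo (Z p.2) (ℓ p.2) p).2) : X × (D → ℝ)) = bo (Z p.2) (ℓ p.2) p := rfl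
        rw [h2] at h1
        rw [h1, bl, T0b_bibo _ _ (h.lpos p.2), T0b_bibo _ _ (h.lpos p.2)]
      filter_upwards [hnear, hbox, hlift hgood] with q hq hq2 hq3
      obtain ⟨a, b, c, _⟩ := hq
      rw [hTp]
      by_cases hg2 : need q.2 ∧ gau Z ℓ q.2 < 11 / 10
      · have hTq : tr Z ℓ need (lift W β r e) Φ q =
            bi (Z p.2) (ℓ p.2) (Φ (Z p.2) (ℓ p.2) (bo (Z p.2) (ℓ p.2) q)) := by
          unfold tr; rw [if_pos hg2, a, b]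
        rw [hTq, ← heq]; exact hq2
      · have hTq : tr Z ℓ need (lift W β r e) Φ q = lift W β r e q := by
          unfold tr; rw [if_neg hg2]
        rw [hTq]; exact hq3
  · have hgood : need p.2 → 1 ≤ gau Z ℓ p.2 := by
      intro hn
      by_contra hcon
      exact hcase ⟨hn, (not_le.1 hcon).trans (by norm_num)⟩
    have hTp : tr Z ℓ need (lift W β r e) Φ p = lift W β r e p := by
      unfold tr
      rw [if_neg fun hh => hcase ⟨hh.1, hh.2.trans (by norm_num)⟩]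
    have hpos : 0 < 1 / (20 * C) := by positivity
    filter_upwards [hlift hgood, T0b_nhds (W p) p (1 / (20 * C)) hpos,
      T0b_nhds (W p) p 1 one_pos] with q hq hq1 hq2
    have hTq : tr Z ℓ need (lift W β r e) Φ q = lift W β r e q := by
      unfold tr
      rw [if_neg]
      rintro ⟨hn, hg⟩
      have h1 : ‖sc (W q) (p - q)‖ ≤ 2 * ‖sc (W p) (p - q)‖ :=
        T0b_mono (W q) (W p) 2 (by norm_num) (fun i => (h.pos q i).le) (h.slow p q hq2.le) _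
      have h2 : ‖sc (W q) (p - q)‖ < 1 / (10 * C) := by
        rw [T0b_symm (W p) p q] at h1
        have h3 : 2 * (1 / (20 * C)) = 1 / (10 * C) := by field_simp; norm_num
        linarith
      obtain ⟨_, _, h5, h6⟩ := T3_nbhd h p q hn hg h2
      exact hcase ⟨h5, h6⟩
    rw [hTp, hTq]; exact hq

end H80.LD

end S_H80_LD_T3

section S_H80_LD_E3

/-!
# E3: tapering outside a ball

Given `L, ρ₁ < ρ₂, η`: `δ = ρ₂ - ρ₁`, `η' = min η (δ/4)`, `l = 4 (ρ₁ + η')/δ`.  `CTStmt univ` with `(L, η', l)`: `ε₁, C`.  `ε₀ = min ε₁ (δ/(4 C))`.  Walls `w1 i c = z.2 i - ρ₁`, `w2 i c = z.2 i + ρ₁ - l * max 0 (‖c - z.1‖ - ρ₁)` (Lipschitz with constant `l`).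
`F, F'` as given by `CTStmt`.
* `p ∈ closedBall z ρ₁`: `‖p.1 - z.1‖ ≤ ρ₁`, `|p.2 i - z.2 i| ≤ ρ₁`: `F p = e p`.
* (*) `p ∉ closedBall z (ρ₁ + δ/2)`: `F p = p`, `F' p = p`.  If `|p.2 i - z.2 i| > ρ₁ + δ/2` for some `i`: `p.2 i ≤ w1 i - η'` or `p.2 i ≥ z.2 i + ρ₁ + η' ≥ w2 i p.1 + η'`.  If `‖p.1 - z.1‖ > ρ₁ + δ/2`: `w2 i p.1 ≤ z.2 i + ρ₁ - l δ/2 = z.2 i + ρ₁ - 2 (ρ₁ + η')`
  `= z.2 i - ρ₁ - 2 η'` for all `i` (`D` nonempty, take any `i`), so `p.2 i ≥ w2 i p.1 + η'` or `p.2 i < z.2 i - ρ₁ - η' = w1 i - η'`.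
* NP on `univ`: let `B = closedBall z ρ₂`; for `p ∈ B`: `closedBall p η' ⊆ closedBall z (ρ₂ + η) ⊆ U`, so `p` is in the NP set.  disp, lip at `p ∈ B`: NP; at `p ∉ B`: `F = id` near `p` by (*) (complement of the smaller closed ball is open).
  inv: `p ∉ closedBall z (ρ₁ + δ/2)`: `F p = p = F' p`.  Otherwise `p ∈ B` and `F p ∈ closedBall z (ρ₁ + δ/2 + C ε) ⊆ B`: NP inv.
* `p ∉ closedBall z ρ₂`: (*).  Identity property: `η' ≤ η`.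
-/

open Filter Topology Metric Set

namespace H80.LD

theorem E3_far {X : Type} [NormedAddCommGroup X] {D : Type} [Fintype D] [Nonempty D]
    (z p : X × (D → ℝ)) (ρ₁ δ η' : ℝ) (hδ : 0 < δ) (hρ : 0 < ρ₁) (hη : 0 < η')
    (hη' : η' ≤ δ / 4) (hp : p ∉ closedBall z (ρ₁ + δ / 2)) :
    ∃ i ∈ (Finset.univ : Finset D), p.2 i ≤ z.2 i - ρ₁ - η' ∨
      z.2 i + ρ₁ - 4 * (ρ₁ + η') / δ * max 0 (‖p.1 - z.1‖ - ρ₁) + η' ≤ p.2 i := by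
  rw [mem_closedBall, Prod.dist_eq, max_le_iff, not_and_or] at hp
  have hl : 0 ≤ 4 * (ρ₁ + η') / δ := by positivity
  rcases hp with hp | hp
  · rw [not_le, dist_eq_norm] at hp
    obtain ⟨i⟩ := ‹Nonempty D›
    refine ⟨i, Finset.mem_univ _, ?_⟩
    have h1 : δ / 2 ≤ max 0 (‖p.1 - z.1‖ - ρ₁) := le_trans (by linarith) (le_max_right _ _)
    have h2 := mul_le_mul_of_nonneg_left h1 hl
    have h3 : 4 * (ρ₁ + η') / δ * (δ / 2) = 2 * (ρ₁ + η') := by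
      field_simp
      ring
    rw [h3] at h2
    rcases le_total (z.2 i + ρ₁ - 4 * (ρ₁ + η') / δ * max 0 (‖p.1 - z.1‖ - ρ₁) + η') (p.2 i) with h | h
    · exact Or.inr h
    · left
      linarith
  · have h1 : ∃ i, ¬ dist (p.2 i) (z.2 i) ≤ ρ₁ + δ / 2 := by
      by_contra hcon
      push Not at hcon
      exact hp ((dist_pi_le_iff (by positivity)).2 hcon)
    obtain ⟨i, hi⟩ := h1
    refine ⟨i, Finset.mem_univ _, ?_⟩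
    rw [not_le, Real.dist_eq, lt_abs] at hi
    have h2 : 0 ≤ 4 * (ρ₁ + η') / δ * max 0 (‖p.1 - z.1‖ - ρ₁) := mul_nonneg hl (le_max_left _ _)
    rcases hi with hi | hi
    · right
      linarith
    · left
      linarith

theorem E3_lipw {X : Type} [NormedAddCommGroup X] (c₀ : X) (a l ρ₁ : ℝ) (hl : 0 ≤ l) :
    Lipw l (fun c : X => a - l * max 0 (‖c - c₀‖ - ρ₁)) := by
  intro c c'
  have e : (a - l * max 0 (‖c - c₀‖ - ρ₁)) - (a - l * max 0 (‖c' - c₀‖ - ρ₁)) =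
      -(l * (max (‖c - c₀‖ - ρ₁) 0 - max (‖c' - c₀‖ - ρ₁) 0)) := by
    rw [max_comm 0, max_comm 0]
    ring
  show |(a - l * max 0 (‖c - c₀‖ - ρ₁)) - (a - l * max 0 (‖c' - c₀‖ - ρ₁))| ≤ l * ‖c - c'‖
  rw [e, abs_neg, abs_mul, abs_of_nonneg hl]
  refine mul_le_mul_of_nonneg_left ?_ hl
  refine (abs_max_sub_max_le_abs _ _ _).trans ?_
  have e2 : ‖c - c₀‖ - ρ₁ - (‖c' - c₀‖ - ρ₁) = ‖c - c₀‖ - ‖c' - c₀‖ := by ring
  rw [e2]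
  refine (abs_norm_sub_norm_le _ _).trans ?_
  rw [sub_sub_sub_cancel_right]

/-- one half of the conditions -/
theorem E3_half {X V : Type} [NormedAddCommGroup X] [NormedAddCommGroup V] (z : X × V)
    (F F' : X × V → X × V) (ρ₁ δ C ε : ℝ) (hδ : 0 < δ) (hC : 1 ≤ C) (hε : 0 < ε)
    (hCε : C * ε ≤ δ / 4)
    (hfar : ∀ p, p ∉ closedBall z (ρ₁ + δ / 2) → F p = p ∧ F' p = p)
    (hdisp : ∀ p ∈ closedBall z (ρ₁ + δ), ‖F p - p‖ ≤ C * ε)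
    (hlip : ∀ p ∈ closedBall z (ρ₁ + δ), ∀ᶠ q in 𝓝 p, ‖F q - F p‖ ≤ C * ‖q - p‖)
    (hinv : ∀ p ∈ closedBall z (ρ₁ + δ), F p ∈ closedBall z (ρ₁ + δ) → F' (F p) = p) :
    (∀ p, ‖F p - p‖ ≤ C * ε) ∧ (∀ p, ∀ᶠ q in 𝓝 p, ‖F q - F p‖ ≤ C * ‖q - p‖) ∧
      ∀ p, F' (F p) = p := by
  refine ⟨?_, ?_, ?_⟩
  · intro p
    by_cases hp : p ∈ closedBall z (ρ₁ + δ)
    · exact hdisp p hp
    · have h1 : p ∉ closedBall z (ρ₁ + δ / 2) := fun h =>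
        hp (closedBall_subset_closedBall (by linarith) h)
      rw [(hfar p h1).1, sub_self, norm_zero]
      positivity
  · intro p
    by_cases hp : p ∈ closedBall z (ρ₁ + δ)
    · exact hlip p hp
    · have h1 : p ∉ closedBall z (ρ₁ + δ / 2) := fun h =>
        hp (closedBall_subset_closedBall (by linarith) h)
      filter_upwards [isClosed_closedBall.isOpen_compl.mem_nhds h1] with q hq
      rw [(hfar p h1).1, (hfar q hq).1]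
      exact le_mul_of_one_le_left (norm_nonneg _) hC
  · intro p
    by_cases hp : p ∈ closedBall z (ρ₁ + δ / 2)
    · have h1 : p ∈ closedBall z (ρ₁ + δ) := closedBall_subset_closedBall (by linarith) hp
      refine hinv p h1 ?_
      rw [mem_closedBall] at hp ⊢
      have h2 := hdisp p h1
      rw [← dist_eq_norm] at h2
      calc dist (F p) z ≤ dist (F p) p + dist p z := dist_triangle _ _ _
        _ ≤ ρ₁ + δ := by linarith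
    · rw [(hfar p hp).1, (hfar p hp).2]

theorem E3_bt (X : Type) [NormedAddCommGroup X] (D : Type) [Fintype D] [Nonempty D] (h : CTStmt X D Finset.univ) :
    BTStmt X D := by
  intro L hL ρ₁ ρ₂ η hρ₁ hρ₂ hη
  obtain ⟨δ, hδd⟩ : ∃ δ, δ = ρ₂ - ρ₁ := ⟨_, rfl⟩
  have hδ : 0 < δ := by rw [hδd]; linarith
  have hρ : ρ₂ = ρ₁ + δ := by rw [hδd]; ring
  obtain ⟨η', hη'd⟩ : ∃ η', η' = min η (δ / 4) := ⟨_, rfl⟩
  have hη' : 0 < η' := by rw [hη'd]; exact lt_min hη (by positivity)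
  have hη'1 : η' ≤ η := by rw [hη'd]; exact min_le_left _ _
  have hη'2 : η' ≤ δ / 4 := by rw [hη'd]; exact min_le_right _ _
  have hl : 0 ≤ 4 * (ρ₁ + η') / δ := by positivity
  obtain ⟨ε₁, hε₁, C, hC, key⟩ := h L hL η' hη' (4 * (ρ₁ + η') / δ) hl
  have hC0 : 0 < C := by linarith
  refine ⟨min ε₁ (δ / (4 * C)), lt_min hε₁ (by positivity), C, hC, ?_⟩
  intro ε hε hεle z U e e' hNP hU
  have hε1 : ε ≤ ε₁ := hεle.trans (min_le_left _ _)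
  have hε2 : C * ε ≤ δ / 4 := by
    have h1 : ε ≤ δ / (4 * C) := hεle.trans (min_le_right _ _)
    have h2 := mul_le_mul_of_nonneg_left h1 hC0.le
    have h3 : C * (δ / (4 * C)) = δ / 4 := by
      field_simp
    linarith
  obtain ⟨F, F', hF, hin, hout, hid⟩ := key ε hε hε1 U e e' (fun i _ => z.2 i - ρ₁)
    (fun i c => z.2 i + ρ₁ - 4 * (ρ₁ + η') / δ * max 0 (‖c - z.1‖ - ρ₁))
    (fun i => ⟨fun c c' => by
      show |(z.2 i - ρ₁) - (z.2 i - ρ₁)| ≤ _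
      rw [sub_self, abs_zero]
      positivity, E3_lipw z.1 (z.2 i + ρ₁) _ ρ₁ hl⟩) hNP
  have hfar : ∀ p, p ∉ closedBall z (ρ₁ + δ / 2) → F p = p ∧ F' p = p := fun p hp =>
    hout p (E3_far z p ρ₁ δ η' hδ hρ₁ hη' hη'2 hp)
  have hset : ∀ p ∈ closedBall z (ρ₁ + δ), p ∈ {p : X × (D → ℝ) | closedBall p η' ⊆ U} := by
    intro p hp q hq
    apply hU
    rw [mem_closedBall] at hp hq ⊢
    calc dist q z ≤ dist q p + dist p z := dist_triangle _ _ _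
      _ ≤ ρ₂ + η := by linarith
  have h1 := E3_half z F F' ρ₁ δ C ε hδ hC hε hε2 hfar (fun p hp => hF.disp p (hset p hp))
    (fun p hp => hF.lip p (hset p hp)) (fun p hp hp' => hF.inv p (hset p hp) (hset _ hp'))
  have h2 := E3_half z F' F ρ₁ δ C ε hδ hC hε hε2 (fun p hp => (hfar p hp).symm)
    (fun p hp => hF.disp' p (hset p hp)) (fun p hp => hF.lip' p (hset p hp))
    (fun p hp hp' => hF.inv' p (hset p hp) (hset _ hp'))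
  refine ⟨F, F', ⟨hF.pres, hF.pres', fun p _ => h1.1 p, fun p _ => h2.1 p, fun p _ => h1.2.1 p,
    fun p _ => h2.2.1 p, fun p _ _ => h1.2.2 p, fun p _ _ => h2.2.2 p⟩, ?_, ?_, ?_⟩
  · intro p hp
    rw [mem_closedBall, Prod.dist_eq, max_le_iff, dist_eq_norm] at hp
    refine hin p fun i _ => ?_
    have h3 : dist (p.2 i) (z.2 i) ≤ ρ₁ := (dist_le_pi_dist p.2 z.2 i).trans hp.2
    rw [Real.dist_eq, abs_le] at h3
    have h4 : max 0 (‖p.1 - z.1‖ - ρ₁) = 0 := max_eq_left (by linarith [hp.1])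
    show z.2 i - ρ₁ ≤ p.2 i ∧ p.2 i ≤ z.2 i + ρ₁ - 4 * (ρ₁ + η') / δ * max 0 (‖p.1 - z.1‖ - ρ₁)
    rw [h4, mul_zero, sub_zero]
    constructor <;> linarith [h3.1, h3.2]
  · intro p hp
    refine hfar p fun hp' => hp ?_
    rw [hρ]
    exact closedBall_subset_closedBall (by linarith) hp'
  · intro p hp
    exact hid p fun q hq => hp q (closedBall_subset_closedBall hη'1 hq)

end H80.LD

end S_H80_LD_E3

section S_H80_LD_GFin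

/-!
# GFin (project MP_816883_LD, blocks 8-9): from the state on a punctured ball to Lipschitz equivalence

`h x = if x = 0 then 0 else G x`, `h' y = if y = 0 then 0 else H y`, `ρ = r3 / (4 L)` (so `4 L ρ ≤ r3 ≤ r`).
* `x ≠ 0`, `‖x‖ < ρ`: `x ∈ D`, `‖G x - A x‖ ≤ ε1 s x ≤ ε1 ε ‖x‖ ≤ ‖x‖` (`L ε1 ε ≤ 1/2`), `‖G x‖ ≤ (L + 1) ‖x‖ < r`; `‖B (G x) - x‖ ≤ L ε1 s x + ε s x ≤ (L ε1 + ε) ε ‖x‖ ≤ ‖x‖ / 2`, so `B (G x) ≠ 0`,
  `‖B (G x)‖ ≤ 3/2 ‖x‖ < r3`, `B (G x) ∈ D`, `H (G x) = x` (`s3`), and `G x ≠ 0` as `B 0 = 0`. So `h' (h x) = x`; also for `x = 0`. `f x = g (h x)` (`s1`, `f 0 = g 0`).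
* `y ≠ 0`, `‖y‖ < ρ`: `B y ≠ 0` (`nB`), `‖B y‖ ≤ L ‖y‖ < r3`, `B y ∈ D`; `‖H y - B y‖ ≤ ε1 s (B y) ≤ ‖B y‖ / 2`, so `H y ≠ 0`, `‖H y‖ ≤ 3/2 L ‖y‖ < r3`, `H y ∈ D`, `G (H y) = y` (`s3'`): `h (h' y) = y`.
* Lipschitz: with `K = max Λ (2 L)` every point of `ball 0 ρ` satisfies the pointwise bound for `h` (near `x ≠ 0` it is `G`; at `0`: `‖h x‖ ≤ (L + 1) ‖x‖`) and for `h'` (`‖H y‖ ≤ 3/2 L ‖y‖`);
  `B0a_lip_seg` on segments of the convex ball.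
-/

open Filter Topology Metric Set H24.LS

namespace H80.LD

theorem gfin_src {E : Type*} [NormedAddCommGroup E] {f g : E → ℂ} {A B : E → E}
    {s : E → ℝ} {L ε r ε1 Λ r3 : ℝ} {D : Set E} {G H : E → E} (env : Env A B s L ε r)
    (hSt : St f g A B s r D ε1 Λ G H) (hr3r : r3 ≤ r)
    (hD : ∀ x : E, x ≠ 0 → ‖x‖ < r3 → x ∈ D) (hε1 : 0 < ε1)
    (hsm : (L * ε1 + ε) * ε ≤ 1 / 2) (x : E) (hx0 : x ≠ 0) (hx : ‖x‖ < r3 / (4 * L)) :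
    x ∈ D ∧ G x ≠ 0 ∧ H (G x) = x ∧ ‖G x‖ ≤ 2 * L * ‖x‖ := by
  have hL := env.hL
  have hε := env.hε
  have hLp : (0 : ℝ) < 4 * L := by linarith
  rw [lt_div_iff₀ hLp] at hx
  have hxp : 0 < ‖x‖ := norm_pos_iff.2 hx0
  have hLx : ‖x‖ ≤ L * ‖x‖ := by nlinarith
  have hxr3 : ‖x‖ < r3 := by nlinarith
  have hxr : x ∈ ball (0 : E) r := by
    rw [mem_ball_zero_iff]
    linarith
  have hxD : x ∈ D := hD x hx0 hxr3
  have hs := env.ssmall x hxr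
  have hsp := env.spos x hxr hx0
  have h1 := hSt.s1d x hxD
  have hAx := env.nA hxr
  have hAr : A x ∈ ball (0 : E) r := by
    rw [mem_ball_zero_iff]
    nlinarith
  have hsm1 : ε1 * ε ≤ 1 / 2 := by nlinarith [mul_pos hε1 hε, mul_pos hε hε]
  have h2 : ‖G x - A x‖ ≤ 1 / 2 * ‖x‖ := by
    calc ‖G x - A x‖ ≤ ε1 * s x := h1
      _ ≤ ε1 * (ε * ‖x‖) := mul_le_mul_of_nonneg_left hs hε1.le
      _ = (ε1 * ε) * ‖x‖ := by ring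
      _ ≤ 1 / 2 * ‖x‖ := mul_le_mul_of_nonneg_right hsm1 hxp.le
  have h3 : ‖G x‖ ≤ ‖G x - A x‖ + ‖A x‖ := by
    calc ‖G x‖ = ‖(G x - A x) + A x‖ := by rw [sub_add_cancel]
      _ ≤ _ := norm_add_le _ _
  have hGx : ‖G x‖ ≤ 2 * L * ‖x‖ := by nlinarith
  have hGr : G x ∈ ball (0 : E) r := by
    rw [mem_ball_zero_iff]
    nlinarith
  have h4 : ‖B (G x) - x‖ ≤ 1 / 2 * ‖x‖ := by
    have e : B (G x) - x = (B (G x) - B (A x)) + (B (A x) - x) := by abel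
    have h5 := env.lipB (G x) hGr (A x) hAr
    have h6 := env.BA x hxr
    have h7 : L * ‖G x - A x‖ ≤ L * (ε1 * s x) := mul_le_mul_of_nonneg_left h1 (by linarith)
    calc ‖B (G x) - x‖ ≤ ‖B (G x) - B (A x)‖ + ‖B (A x) - x‖ := by
          rw [e]
          exact norm_add_le _ _
      _ ≤ (L * ε1 + ε) * s x := by linarith
      _ ≤ (L * ε1 + ε) * (ε * ‖x‖) := mul_le_mul_of_nonneg_left hs (by nlinarith)
      _ = ((L * ε1 + ε) * ε) * ‖x‖ := by ring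
      _ ≤ 1 / 2 * ‖x‖ := mul_le_mul_of_nonneg_right hsm hxp.le
  have h8 : ‖x‖ ≤ ‖B (G x)‖ + ‖B (G x) - x‖ := by
    calc ‖x‖ = ‖B (G x) - (B (G x) - x)‖ := by rw [sub_sub_cancel]
      _ ≤ _ := norm_sub_le _ _
  have h9 : ‖B (G x)‖ ≤ ‖B (G x) - x‖ + ‖x‖ := by
    calc ‖B (G x)‖ = ‖(B (G x) - x) + x‖ := by rw [sub_add_cancel]
      _ ≤ _ := norm_add_le _ _
  have hB0 : B (G x) ≠ 0 := by
    intro h0
    rw [h0, norm_zero] at h8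
    rw [h0] at h4
    linarith
  have hG0 : G x ≠ 0 := by
    intro h0
    rw [h0] at hB0
    exact hB0 env.B0
  refine ⟨hxD, hG0, hSt.s3 x hxD (hD _ hB0 (by nlinarith)), hGx⟩

theorem gfin_tgt {E : Type*} [NormedAddCommGroup E] {f g : E → ℂ} {A B : E → E}
    {s : E → ℝ} {L ε r ε1 Λ r3 : ℝ} {D : Set E} {G H : E → E} (env : Env A B s L ε r)
    (hSt : St f g A B s r D ε1 Λ G H) (hr3r : r3 ≤ r)
    (hD : ∀ x : E, x ≠ 0 → ‖x‖ < r3 → x ∈ D) (hε1 : 0 < ε1)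
    (hsm : (L * ε1 + ε) * ε ≤ 1 / 2) (y : E) (hy0 : y ≠ 0) (hy : ‖y‖ < r3 / (4 * L)) :
    y ∈ ball (0 : E) r ∧ B y ∈ D ∧ H y ≠ 0 ∧ G (H y) = y ∧ ‖H y‖ ≤ 2 * L * ‖y‖ := by
  have hL := env.hL
  have hε := env.hε
  have hLp : (0 : ℝ) < 4 * L := by linarith
  rw [lt_div_iff₀ hLp] at hy
  have hyp : 0 < ‖y‖ := norm_pos_iff.2 hy0
  have hLy : ‖y‖ ≤ L * ‖y‖ := by nlinarith
  have hyr : y ∈ ball (0 : E) r := by
    rw [mem_ball_zero_iff]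
    nlinarith
  have hB := env.nB1 hyr
  have hnB := env.nB y hyr
  have hBy0 : B y ≠ 0 := by
    intro h0
    rw [h0, norm_zero] at hnB
    linarith
  have hBp : 0 < ‖B y‖ := norm_pos_iff.2 hBy0
  have hBD : B y ∈ D := hD _ hBy0 (by nlinarith)
  have hBr : B y ∈ ball (0 : E) r := by
    rw [mem_ball_zero_iff]
    nlinarith
  have hsm1 : ε1 * ε ≤ 1 / 2 := by nlinarith [mul_pos hε1 hε, mul_pos hε hε]
  have h2 : ‖H y - B y‖ ≤ 1 / 2 * ‖B y‖ := by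
    calc ‖H y - B y‖ ≤ ε1 * s (B y) := hSt.s2d y hyr hBD
      _ ≤ ε1 * (ε * ‖B y‖) := mul_le_mul_of_nonneg_left (env.ssmall _ hBr) hε1.le
      _ = (ε1 * ε) * ‖B y‖ := by ring
      _ ≤ 1 / 2 * ‖B y‖ := mul_le_mul_of_nonneg_right hsm1 hBp.le
  have h8 : ‖B y‖ ≤ ‖H y‖ + ‖H y - B y‖ := by
    calc ‖B y‖ = ‖H y - (H y - B y)‖ := by rw [sub_sub_cancel]
      _ ≤ _ := norm_sub_le _ _
  have h9 : ‖H y‖ ≤ ‖H y - B y‖ + ‖B y‖ := by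
    calc ‖H y‖ = ‖(H y - B y) + B y‖ := by rw [sub_add_cancel]
      _ ≤ _ := norm_add_le _ _
  have hH0 : H y ≠ 0 := by
    intro h0
    rw [h0, norm_zero] at h8
    rw [h0] at h2
    linarith
  have hHy : ‖H y‖ ≤ 2 * L * ‖y‖ := by nlinarith
  exact ⟨hyr, hBD, hH0, hSt.s3' y hyr hBD (hD _ hH0 (by nlinarith)), hHy⟩

theorem gfin_lip {E : Type*} [NormedAddCommGroup E] [NormedSpace ℝ E] (G : E → E) (ρ L Λ : ℝ)
    (h : E → E) (hh : ∀ x, x ≠ 0 → h x = G x) (h0 : h 0 = 0)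
    (hG : ∀ x, x ≠ 0 → ‖x‖ < ρ → ∀ᶠ x' in 𝓝 x, ‖G x' - G x‖ ≤ Λ * ‖x' - x‖)
    (hb : ∀ x, x ≠ 0 → ‖x‖ < ρ → ‖G x‖ ≤ 2 * L * ‖x‖) :
    ∀ x ∈ ball (0 : E) ρ, ∀ y ∈ ball (0 : E) ρ, ‖h x - h y‖ ≤ max Λ (2 * L) * ‖x - y‖ := by
  intro x hx y hy
  refine B0a_lip_convex h (max Λ (2 * L)) (ball (0 : E) ρ) (convex_ball _ _) ?_ y hy x hx
  intro z hz
  rw [mem_ball_zero_iff] at hz
  by_cases hz0 : z = 0
  · subst hz0
    filter_upwards [isOpen_ball.mem_nhds (mem_ball_zero_iff.2 hz)] with w hw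
    rw [mem_ball_zero_iff] at hw
    rw [h0, sub_zero, sub_zero]
    by_cases hw0 : w = 0
    · rw [hw0, h0, norm_zero, mul_zero]
    · rw [hh w hw0]
      exact (hb w hw0 hw).trans (mul_le_mul_of_nonneg_right (le_max_right _ _) (norm_nonneg _))
  · filter_upwards [hG z hz0 hz, isOpen_ne.mem_nhds hz0] with w hw hw0
    rw [hh w hw0, hh z hz0]
    exact hw.trans (mul_le_mul_of_nonneg_right (le_max_left _ _) (norm_nonneg _))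

theorem gfin {E : Type*} [NormedAddCommGroup E] [NormedSpace ℝ E] {f g : E → ℂ} {A B : E → E}
    {s : E → ℝ} {L ε r ε1 Λ r3 : ℝ} {D : Set E} {G H : E → E} (env : Env A B s L ε r)
    (hSt : St f g A B s r D ε1 Λ G H) (hr3 : 0 < r3) (hr3r : r3 ≤ r)
    (hD : ∀ x : E, x ≠ 0 → ‖x‖ < r3 → x ∈ D) (f0 : f 0 = 0) (g0 : g 0 = 0) (hε1 : 0 < ε1)
    (hsm : (L * ε1 + ε) * ε ≤ 1 / 2) : LipEquiv f g := by
  classical
  have hL := env.hL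
  have hρ : 0 < r3 / (4 * L) := div_pos hr3 (by linarith)
  have hsrc := gfin_src env hSt hr3r hD hε1 hsm
  have htgt := gfin_tgt env hSt hr3r hD hε1 hsm
  obtain ⟨h, hh⟩ : ∃ h : E → E, h = fun x => if x = 0 then 0 else G x := ⟨_, rfl⟩
  obtain ⟨h', hh'⟩ : ∃ h' : E → E, h' = fun y => if y = 0 then 0 else H y := ⟨_, rfl⟩
  have e0 : h 0 = 0 := by
    rw [hh]
    simp
  have e0' : h' 0 = 0 := by
    rw [hh']
    simp
  have e1 : ∀ x, x ≠ 0 → h x = G x := fun x hx => by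
    rw [hh]
    simp [hx]
  have e1' : ∀ y, y ≠ 0 → h' y = H y := fun y hy => by
    rw [hh']
    simp [hy]
  have hball : ∀ᶠ x in 𝓝 (0 : E), ‖x‖ < r3 / (4 * L) := by
    filter_upwards [isOpen_ball.mem_nhds (mem_ball_self hρ)] with x hx
    exact mem_ball_zero_iff.1 hx
  refine ⟨h, h', max Λ (2 * L), r3 / (4 * L), hρ, e0, e0', ?_, ?_, ?_, ?_, ?_⟩
  · exact gfin_lip G _ L Λ h e1 e0 (fun x hx0 hx => hSt.s1l x (hsrc x hx0 hx).1)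
      (fun x hx0 hx => (hsrc x hx0 hx).2.2.2)
  · exact gfin_lip H _ L Λ h' e1' e0'
      (fun y hy0 hy => hSt.s2l y (htgt y hy0 hy).1 (htgt y hy0 hy).2.1)
      (fun y hy0 hy => (htgt y hy0 hy).2.2.2.2)
  · filter_upwards [hball] with x hx
    by_cases hx0 : x = 0
    · rw [hx0, e0, e0']
    · obtain ⟨_, hG0, hHG, _⟩ := hsrc x hx0 hx
      rw [e1 x hx0, e1' _ hG0, hHG]
  · filter_upwards [hball] with y hy
    by_cases hy0 : y = 0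
    · rw [hy0, e0', e0]
    · obtain ⟨_, _, hH0, hGH, _⟩ := htgt y hy0 hy
      rw [e1' y hy0, e1 _ hH0, hGH]
  · filter_upwards [hball] with x hx
    by_cases hx0 : x = 0
    · rw [hx0, e0, f0, g0]
    · rw [e1 x hx0]
      exact hSt.s1 x (hsrc x hx0 hx).1

end H80.LD

end S_H80_LD_GFin

section S_H80_LD_GLocA

/-!
# GLocA (project MP_816883_LD, blocks 8-9): the near-identity pair in a chart

Write `ρ = s z`, `R1 = 4 C + 1`, `a = C R1`, `R = L a + 2` (so `a + 2 ≤ R`, `5 ≤ a`), `x = Ψ' p`. All points below are in `ball 0 r` by `Env.near` with `a := R`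
(points of `ball z (R ρ)`: `‖x‖ < 2 r2`, `s x ≤ 2 ρ`), `Env.nA`, `Env.nB1`: for `x ∈ ball z (R ρ)`: `‖A x‖ ≤ 2 L r2`, `‖h x‖ ≤ 3 L r2 < r`
(`‖h x - A x‖ ≤ ε ρ ≤ r2`), for `x ∈ Dm`: `‖G x‖ ≤ L r2 + c ε s x ≤ 2 L r2 < r`.
* `‖p‖ < R1` gives `‖x - z‖ = ‖Ψ' p - Ψ' (Ψ z)‖ ≤ C ρ ‖p‖ < a ρ` (`c0`, `cinv`). So `x ∈ ball z (R ρ)`, `h x ∈ ball (A z) (R ρ)`:
  `‖h x - A z‖ ≤ ε ρ + L a ρ`.
* if moreover `x ∈ Dm`: `‖G x - A x‖ ≤ c ε s x ≤ 2 c ε ρ`, so `‖G x - A z‖ ≤ (1 + L a) ρ`, `G x ∈ ball (A z) (R ρ)`, and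
  `‖h' (G x) - x‖ = ‖h' (G x) - h' (h x)‖ ≤ 4 L (‖G x - A x‖ + ‖h x - A x‖) ≤ 4 L (2 c + 1) ε ρ ≤ ρ`; so `h' (G x) ∈ ball z (R ρ)` and `f (h' (G x)) = g (G x) = f x`,
  hence by `c1`, `cinv'`: `(Ψ (h' (G x))).1 = (Ψ x).1 = p.1`. This is `pres` for `eMap`; `disp`: `‖Ψ (h' (G x)) - Ψ x‖ ≤ (C/ρ) 4 L (2 c + 1) ε ρ`.
* if `‖p‖ < R1` and `B y ∈ Dm`, `y = h x` (`y ∈ ball 0 r`, `h' y = x`): `‖x - B y‖ = ‖h' y - B y‖ ≤ ε ρ` (`ghB`), so `‖B y - z‖ ≤ (a + 1) ρ`, `s (B y) ≤ 2 ρ`;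
  `‖H y - x‖ ≤ ‖H y - B y‖ + ‖B y - x‖ ≤ (2 c + 1) ε ρ ≤ ρ`, `H y ∈ ball z (R ρ)`, `f (H y) = g y = g (h x) = f x`: `pres'`, `disp'`.
* `lip` at `p ∈ eU`: for `q` near `p`: `‖q‖ < R1`, `Ψ' q ∈ Dm` (open, `Ψ'` continuous), so `eMap q = Ψ (h' (G (Ψ' q)))`, and by `s1l` at `x` (pulled back by `Ψ'`):
  `‖eMap q - eMap p‖ ≤ (C/ρ) (4 L) Λ (C ρ) ‖q - p‖`. `lip'` the same with `B (h (Ψ' q)) ∈ Dm` (`Env.contB` at `h x`) and `s2l` at `h x`.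
* `inv`: `p ∈ eU`, `eMap p ∈ eU`: `x ∈ Dm`, `Ψ' (eMap p) = h' (G x)`, `h (h' (G x)) = G x`, so `B (G x) ∈ Dm`; `eMap' (eMap p) = Ψ (H (G x)) = Ψ x = p` by `s3`.
* `inv'`: `y = h x`, `B y ∈ Dm`, `Ψ' (eMap' p) = H y ∈ Dm`; `eMap (eMap' p) = Ψ (h' (G (H y))) = Ψ (h' y) = Ψ x = p` by `s3'`.
-/

open Filter Topology Metric Set

namespace H80.LD

variable {E : Type*} [NormedAddCommGroup E] {D : Type*} [Fintype D]

open scoped Classical in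
noncomputable def eMap (R1 : ℝ) (Dm : Set E) (G h' : E → E) (Ψ : E → ℂ × (D → ℝ))
    (Ψ' : ℂ × (D → ℝ) → E) (p : ℂ × (D → ℝ)) : ℂ × (D → ℝ) :=
  if ‖p‖ < R1 ∧ Ψ' p ∈ Dm then Ψ (h' (G (Ψ' p))) else p

open scoped Classical in
noncomputable def eMap' (R1 : ℝ) (Dm : Set E) (B H h : E → E) (Ψ : E → ℂ × (D → ℝ))
    (Ψ' : ℂ × (D → ℝ) → E) (p : ℂ × (D → ℝ)) : ℂ × (D → ℝ) :=
  if ‖p‖ < R1 ∧ B (h (Ψ' p)) ∈ Dm then Ψ (H (h (Ψ' p))) else p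

def eU (R1 : ℝ) (Dm : Set E) (B h : E → E) (Ψ' : ℂ × (D → ℝ) → E) : Set (ℂ × (D → ℝ)) :=
  {p | ‖p‖ < R1 ∧ Ψ' p ∈ Dm ∧ B (h (Ψ' p)) ∈ Dm}

theorem gloca_num {L C R ε : ℝ} (hL : 1 ≤ L) (hε : 0 < ε) (hC : 1 ≤ C)
    (hR : R = L * (C * (4 * C + 1)) + 2) (hRε : R * ε ≤ 1 / 2) :
    5 ≤ C * (4 * C + 1) ∧ C * (4 * C + 1) ≤ L * (C * (4 * C + 1)) ∧
      C * (4 * C + 1) + 2 ≤ R ∧ ε ≤ 1 / 14 := by
  have h1 : 5 ≤ C * (4 * C + 1) := by nlinarith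
  have h2 : C * (4 * C + 1) ≤ L * (C * (4 * C + 1)) := by nlinarith
  have h3 : C * (4 * C + 1) + 2 ≤ R := by linarith
  refine ⟨h1, h2, h3, ?_⟩
  have h4 : 7 * ε ≤ R * ε := mul_le_mul_of_nonneg_right (by linarith) hε.le
  linarith

theorem gloca_x {f g : E → ℂ} {A B : E → E} {s : E → ℝ} {L C R ε r r2 : ℝ} {z : E}
    {h h' : E → E} {Ψ : E → ℂ × (D → ℝ)} {Ψ' : ℂ × (D → ℝ) → E}
    (env : Env A B s L ε r) (h8 : 8 * L ^ 2 * r2 ≤ r) (hz : z ≠ 0) (hz2 : ‖z‖ < r2)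
    (loc : Loc f g A B s L C R ε z h h' Ψ Ψ') (hC : 1 ≤ C)
    (hR : R = L * (C * (4 * C + 1)) + 2) (hRε : R * ε ≤ 1 / 2)
    {p : ℂ × (D → ℝ)} (hp : ‖p‖ < 4 * C + 1) :
    0 < s z ∧ ‖Ψ' p - z‖ < C * (4 * C + 1) * s z ∧ Ψ' p ∈ ball z (R * s z) ∧
      Ψ' p ∈ ball (0 : E) r ∧ s (Ψ' p) ≤ 2 * s z ∧ ‖Ψ' p‖ < 2 * r2 ∧
      h (Ψ' p) ∈ ball (A z) (R * s z) ∧ h (Ψ' p) ∈ ball (0 : E) r ∧
      ‖h (Ψ' p) - A (Ψ' p)‖ ≤ ε * s z ∧ ‖A (Ψ' p) - A z‖ ≤ L * (C * (4 * C + 1)) * s z ∧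
      s z ≤ r2 := by
  have hL := env.hL
  have hε := env.hε
  obtain ⟨n1, n2, n3, n4⟩ := gloca_num hL hε hC hR hRε
  have hz0 : 0 < ‖z‖ := norm_pos_iff.2 hz
  have hr2 : 0 < r2 := hz0.trans hz2
  have hL2 : 1 ≤ L ^ 2 := by nlinarith
  have hLL : L ≤ L ^ 2 := by nlinarith
  have hr8 : 8 * r2 ≤ r := by nlinarith
  have hr8L : 8 * (L * r2) ≤ r := by
    have : L * r2 ≤ L ^ 2 * r2 := mul_le_mul_of_nonneg_right hLL hr2.le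
    linarith
  have hzr : z ∈ ball (0 : E) r := by
    rw [mem_ball_zero_iff]; linarith
  have hs : 0 < s z := env.spos z hzr hz
  have hsr : s z ≤ r2 := by
    have h1 := env.ssmall z hzr
    have h2 : ε * ‖z‖ ≤ 1 * r2 := mul_le_mul (by linarith) hz2.le hz0.le zero_le_one
    linarith
  have hP0 : Ψ' 0 = z := by rw [← loc.c0, loc.cinv]
  have h1 : ‖Ψ' p - z‖ ≤ C * s z * ‖p‖ := by
    have := loc.clip' p 0
    rwa [hP0, sub_zero] at this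
  have hCs : 0 < C * s z := mul_pos (by linarith) hs
  have h2 : ‖Ψ' p - z‖ < C * (4 * C + 1) * s z := by
    refine lt_of_le_of_lt h1 ?_
    calc C * s z * ‖p‖ < C * s z * (4 * C + 1) := mul_lt_mul_of_pos_left hp hCs
      _ = C * (4 * C + 1) * s z := by ring
  have hRs : C * (4 * C + 1) * s z + 2 * s z ≤ R * s z := by
    have := mul_le_mul_of_nonneg_right n3 hs.le
    linarith
  have h3 : Ψ' p ∈ ball z (R * s z) := by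
    rw [mem_ball_iff_norm]
    linarith
  obtain ⟨m1, m2, m3, m4, m5, m6, -, -⟩ := env.near h8 hz hz2 hRε (x := Ψ' p)
    (mem_ball_iff_norm.1 h3).le
  have h4 := loc.fhA _ h3
  have h5 : ‖A (Ψ' p) - A z‖ ≤ L * (C * (4 * C + 1)) * s z := by
    refine (env.lipA _ m3 _ hzr).trans ?_
    calc L * ‖Ψ' p - z‖ ≤ L * (C * (4 * C + 1) * s z) :=
          mul_le_mul_of_nonneg_left h2.le (by linarith)
      _ = _ := by ring
  have h6 : ε * s z ≤ s z := by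
    have := mul_le_mul_of_nonneg_right (show ε ≤ 1 by linarith) hs.le
    linarith
  refine ⟨hs, h2, h3, m3, m4, m2, ?_, ?_, h4, h5, hsr⟩
  · rw [mem_ball_iff_norm]
    have h7 : ‖h (Ψ' p) - A z‖ ≤ ‖h (Ψ' p) - A (Ψ' p)‖ + ‖A (Ψ' p) - A z‖ := by
      calc ‖h (Ψ' p) - A z‖ = ‖(h (Ψ' p) - A (Ψ' p)) + (A (Ψ' p) - A z)‖ := by
            rw [sub_add_sub_cancel]
        _ ≤ _ := norm_add_le _ _
    have h8 : R * s z = L * (C * (4 * C + 1)) * s z + 2 * s z := by rw [hR]; ring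
    linarith
  · rw [mem_ball_zero_iff]
    have h7 : ‖h (Ψ' p)‖ ≤ ‖h (Ψ' p) - A (Ψ' p)‖ + ‖A (Ψ' p)‖ := by
      calc ‖h (Ψ' p)‖ = ‖(h (Ψ' p) - A (Ψ' p)) + A (Ψ' p)‖ := by rw [sub_add_cancel]
        _ ≤ _ := norm_add_le _ _
    have h9 := env.nA m3
    have h10 : L * ‖Ψ' p‖ ≤ L * (2 * r2) := mul_le_mul_of_nonneg_left m2.le (by linarith)
    have h11 : r2 ≤ L * r2 := by nlinarith
    linarith

theorem gloca_G {f g : E → ℂ} {A B : E → E} {s : E → ℝ} {L C R ε r r2 c Λ : ℝ} {z : E}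
    {h h' : E → E} {Ψ : E → ℂ × (D → ℝ)} {Ψ' : ℂ × (D → ℝ) → E} {Dm : Set E} {G H : E → E}
    (env : Env A B s L ε r) (h8 : 8 * L ^ 2 * r2 ≤ r) (hz : z ≠ 0) (hz2 : ‖z‖ < r2)
    (loc : Loc f g A B s L C R ε z h h' Ψ Ψ') (hC : 1 ≤ C) (hc : 1 ≤ c)
    (hR : R = L * (C * (4 * C + 1)) + 2) (hRε : R * ε ≤ 1 / 2) (hcε : 12 * L * c * ε ≤ 1)
    (hSt : St f g A B s r Dm (c * ε) Λ G H)
    {p : ℂ × (D → ℝ)} (hp : ‖p‖ < 4 * C + 1) (hx : Ψ' p ∈ Dm) :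
    ‖h' (G (Ψ' p)) - Ψ' p‖ ≤ 4 * L * (2 * c + 1) * ε * s z ∧
      (Ψ (h' (G (Ψ' p)))).1 = p.1 := by
  have hL := env.hL
  have hε := env.hε
  obtain ⟨n1, n2, n3, n4⟩ := gloca_num hL hε hC hR hRε
  obtain ⟨hs, k1, k2, k3, k4, k5, k6, k7, k8, k9, k10⟩ :=
    gloca_x env h8 hz hz2 loc hC hR hRε hp
  have hcε2 : 0 < c * ε := mul_pos (by linarith) hε
  have h12 : 12 * (c * ε) ≤ 1 := by
    have h1 : 1 * (12 * (c * ε)) ≤ L * (12 * (c * ε)) :=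
      mul_le_mul_of_nonneg_right hL (by positivity)
    have h2 : L * (12 * (c * ε)) = 12 * L * c * ε := by ring
    linarith
  have h1 : ‖G (Ψ' p) - A (Ψ' p)‖ ≤ 2 * (c * ε) * s z := by
    refine (hSt.s1d _ hx).trans ?_
    calc c * ε * s (Ψ' p) ≤ c * ε * (2 * s z) := mul_le_mul_of_nonneg_left k4 hcε2.le
      _ = _ := by ring
  have h1' : 2 * (c * ε) * s z ≤ s z := by
    have := mul_le_mul_of_nonneg_right (show 2 * (c * ε) ≤ 1 by linarith) hs.le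
    linarith
  have h2 : G (Ψ' p) ∈ ball (A z) (R * s z) := by
    rw [mem_ball_iff_norm]
    have h7 : ‖G (Ψ' p) - A z‖ ≤ ‖G (Ψ' p) - A (Ψ' p)‖ + ‖A (Ψ' p) - A z‖ := by
      calc ‖G (Ψ' p) - A z‖ = ‖(G (Ψ' p) - A (Ψ' p)) + (A (Ψ' p) - A z)‖ := by
            rw [sub_add_sub_cancel]
        _ ≤ _ := norm_add_le _ _
    have h8 : R * s z = L * (C * (4 * C + 1)) * s z + 2 * s z := by rw [hR]; ring
    linarith
  have h3 : ‖h' (G (Ψ' p)) - Ψ' p‖ ≤ 4 * L * (2 * c + 1) * ε * s z := by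
    have e1 : h' (G (Ψ' p)) - Ψ' p = h' (G (Ψ' p)) - h' (h (Ψ' p)) := by rw [loc.inv]
    rw [e1]
    refine (loc.hlip' _ _).trans ?_
    have e2 : ‖G (Ψ' p) - h (Ψ' p)‖ ≤ 2 * (c * ε) * s z + ε * s z := by
      calc ‖G (Ψ' p) - h (Ψ' p)‖ =
            ‖(G (Ψ' p) - A (Ψ' p)) - (h (Ψ' p) - A (Ψ' p))‖ := by
              rw [sub_sub_sub_cancel_right]
        _ ≤ ‖G (Ψ' p) - A (Ψ' p)‖ + ‖h (Ψ' p) - A (Ψ' p)‖ := norm_sub_le _ _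
        _ ≤ _ := add_le_add h1 k8
    calc 4 * L * ‖G (Ψ' p) - h (Ψ' p)‖ ≤ 4 * L * (2 * (c * ε) * s z + ε * s z) :=
          mul_le_mul_of_nonneg_left e2 (by linarith)
      _ = _ := by ring
  refine ⟨h3, ?_⟩
  have h4 : 4 * L * (2 * c + 1) * ε * s z ≤ s z := by
    have e1 : 4 * L * (2 * c + 1) * ε ≤ 12 * L * c * ε := by
      have e2 : 0 ≤ 4 * L * ε * (c - 1) :=
        mul_nonneg (mul_nonneg (by linarith) hε.le) (by linarith)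
      linarith
    have := mul_le_mul_of_nonneg_right (e1.trans hcε) hs.le
    linarith
  have h5 : h' (G (Ψ' p)) ∈ ball z (R * s z) := by
    rw [mem_ball_iff_norm]
    have h7 : ‖h' (G (Ψ' p)) - z‖ ≤ ‖h' (G (Ψ' p)) - Ψ' p‖ + ‖Ψ' p - z‖ := by
      calc ‖h' (G (Ψ' p)) - z‖ = ‖(h' (G (Ψ' p)) - Ψ' p) + (Ψ' p - z)‖ := by
            rw [sub_add_sub_cancel]
        _ ≤ _ := norm_add_le _ _
    have h8 := mul_le_mul_of_nonneg_right n3 hs.le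
    linarith
  have h6 : f (h' (G (Ψ' p))) = f (Ψ' p) := by
    rw [← loc.gh _ h2, ← hSt.s1 _ hx]
  have h7 := (loc.c1 _ h5 _ k2).2 h6
  rw [h7, loc.cinv']

theorem gloca_H {f g : E → ℂ} {A B : E → E} {s : E → ℝ} {L C R ε r r2 c Λ : ℝ} {z : E}
    {h h' : E → E} {Ψ : E → ℂ × (D → ℝ)} {Ψ' : ℂ × (D → ℝ) → E} {Dm : Set E} {G H : E → E}
    (env : Env A B s L ε r) (h8 : 8 * L ^ 2 * r2 ≤ r) (hz : z ≠ 0) (hz2 : ‖z‖ < r2)
    (loc : Loc f g A B s L C R ε z h h' Ψ Ψ') (hC : 1 ≤ C) (hc : 1 ≤ c)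
    (hR : R = L * (C * (4 * C + 1)) + 2) (hRε : R * ε ≤ 1 / 2) (hcε : 12 * L * c * ε ≤ 1)
    (hSt : St f g A B s r Dm (c * ε) Λ G H)
    {p : ℂ × (D → ℝ)} (hp : ‖p‖ < 4 * C + 1) (hx : B (h (Ψ' p)) ∈ Dm) :
    ‖H (h (Ψ' p)) - Ψ' p‖ ≤ (2 * c + 1) * ε * s z ∧
      (Ψ (H (h (Ψ' p)))).1 = p.1 := by
  have hL := env.hL
  have hε := env.hε
  obtain ⟨n1, n2, n3, n4⟩ := gloca_num hL hε hC hR hRε
  obtain ⟨hs, k1, k2, k3, k4, k5, k6, k7, k8, k9, k10⟩ :=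
    gloca_x env h8 hz hz2 loc hC hR hRε hp
  have hcε2 : 0 < c * ε := mul_pos (by linarith) hε
  have h12 : 12 * (c * ε) ≤ 1 := by
    have h1 : 1 * (12 * (c * ε)) ≤ L * (12 * (c * ε)) :=
      mul_le_mul_of_nonneg_right hL (by positivity)
    have h2 : L * (12 * (c * ε)) = 12 * L * c * ε := by ring
    linarith
  have h1 : ‖Ψ' p - B (h (Ψ' p))‖ ≤ ε * s z := by
    have := loc.ghB _ k6
    rwa [loc.inv] at this
  have h1' : ε * s z ≤ s z := by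
    have := mul_le_mul_of_nonneg_right (show ε ≤ 1 by linarith) hs.le
    linarith
  have hR3 := mul_le_mul_of_nonneg_right n3 hs.le
  have h2 : ‖B (h (Ψ' p)) - z‖ ≤ R * s z := by
    have h7 : ‖B (h (Ψ' p)) - z‖ ≤ ‖Ψ' p - B (h (Ψ' p))‖ + ‖Ψ' p - z‖ := by
      calc ‖B (h (Ψ' p)) - z‖ = ‖(Ψ' p - z) - (Ψ' p - B (h (Ψ' p)))‖ := by
            rw [sub_sub_sub_cancel_left]
        _ ≤ ‖Ψ' p - z‖ + ‖Ψ' p - B (h (Ψ' p))‖ := norm_sub_le _ _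
        _ = _ := add_comm _ _
    linarith
  obtain ⟨-, -, -, m4, -, -, -, -⟩ := env.near h8 hz hz2 hRε h2
  have h3 : ‖H (h (Ψ' p)) - B (h (Ψ' p))‖ ≤ 2 * (c * ε) * s z := by
    refine (hSt.s2d _ k7 hx).trans ?_
    calc c * ε * s (B (h (Ψ' p))) ≤ c * ε * (2 * s z) := mul_le_mul_of_nonneg_left m4 hcε2.le
      _ = _ := by ring
  have h4 : ‖H (h (Ψ' p)) - Ψ' p‖ ≤ (2 * c + 1) * ε * s z := by
    calc ‖H (h (Ψ' p)) - Ψ' p‖ =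
          ‖(H (h (Ψ' p)) - B (h (Ψ' p))) - (Ψ' p - B (h (Ψ' p)))‖ := by
            rw [sub_sub_sub_cancel_right]
      _ ≤ ‖H (h (Ψ' p)) - B (h (Ψ' p))‖ + ‖Ψ' p - B (h (Ψ' p))‖ := norm_sub_le _ _
      _ ≤ 2 * (c * ε) * s z + ε * s z := add_le_add h3 h1
      _ = _ := by ring
  refine ⟨h4, ?_⟩
  have h4' : (2 * c + 1) * ε * s z ≤ s z := by
    have e1 : (2 * c + 1) * ε ≤ 1 := by nlinarith
    have := mul_le_mul_of_nonneg_right e1 hs.le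
    linarith
  have h5 : H (h (Ψ' p)) ∈ ball z (R * s z) := by
    rw [mem_ball_iff_norm]
    have h7 : ‖H (h (Ψ' p)) - z‖ ≤ ‖H (h (Ψ' p)) - Ψ' p‖ + ‖Ψ' p - z‖ := by
      calc ‖H (h (Ψ' p)) - z‖ = ‖(H (h (Ψ' p)) - Ψ' p) + (Ψ' p - z)‖ := by
            rw [sub_add_sub_cancel]
        _ ≤ _ := norm_add_le _ _
    linarith
  have h6 : f (H (h (Ψ' p))) = f (Ψ' p) := by
    rw [← hSt.s2 _ k7 hx, loc.fh _ k2]
  have h7 := (loc.c1 _ h5 _ k2).2 h6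
  rw [h7, loc.cinv']

theorem gloca_lipcont {X Y : Type*} [SeminormedAddCommGroup X] [SeminormedAddCommGroup Y]
    (φ : X → Y) (K : ℝ) (hφ : ∀ x y, ‖φ x - φ y‖ ≤ K * ‖x - y‖) : Continuous φ := by
  rw [continuous_iff_continuousAt]
  intro x
  have h2 : Tendsto (fun y : X => K * ‖y - x‖) (𝓝 x) (𝓝 0) := by
    have : Continuous (fun y : X => K * ‖y - x‖) := by fun_prop
    have h3 := this.tendsto x
    simpa using h3
  unfold ContinuousAt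
  rw [tendsto_iff_norm_sub_tendsto_zero]
  exact squeeze_zero (fun y => norm_nonneg _) (fun y => hφ y x) h2

theorem gloca_cont {f g : E → ℂ} {A B : E → E} {s : E → ℝ} {L C R ε : ℝ} {z : E}
    {h h' : E → E} {Ψ : E → ℂ × (D → ℝ)} {Ψ' : ℂ × (D → ℝ) → E}
    (loc : Loc f g A B s L C R ε z h h' Ψ Ψ') : Continuous Ψ' ∧ Continuous h := by
  exact ⟨gloca_lipcont _ _ loc.clip', gloca_lipcont _ _ loc.hlip⟩

theorem gloc_np {f g : E → ℂ} {A B : E → E} {s : E → ℝ} {L C R ε r r2 c Λ : ℝ} {z : E}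
    {h h' : E → E} {Ψ : E → ℂ × (D → ℝ)} {Ψ' : ℂ × (D → ℝ) → E} {Dm : Set E} {G H : E → E}
    (env : Env A B s L ε r) (h8 : 8 * L ^ 2 * r2 ≤ r) (hz : z ≠ 0) (hz2 : ‖z‖ < r2)
    (loc : Loc f g A B s L C R ε z h h' Ψ Ψ') (hC : 1 ≤ C) (hc : 1 ≤ c) (hΛ : 1 ≤ Λ)
    (hR : R = L * (C * (4 * C + 1)) + 2) (hRε : R * ε ≤ 1 / 2) (hcε : 12 * L * c * ε ≤ 1)
    (hDo : IsOpen Dm) (hD : ∀ x ∈ Dm, x ≠ 0 ∧ ‖x‖ < r2)
    (hSt : St f g A B s r Dm (c * ε) Λ G H) :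
    NP (4 * L * C * (2 * c + 1) * ε) (4 * L * Λ * C ^ 2) (eU (4 * C + 1) Dm B h Ψ')
      (eMap (4 * C + 1) Dm G h' Ψ Ψ') (eMap' (4 * C + 1) Dm B H h Ψ Ψ') := by
  have hL := env.hL
  have hε := env.hε
  obtain ⟨hΨc, hhc⟩ := gloca_cont loc
  have hs : 0 < s z := (gloca_x env h8 hz hz2 loc hC hR hRε (p := 0) (by
    rw [norm_zero]; linarith)).1
  have hCs : C / s z * s z = C := div_mul_cancel₀ C hs.ne'
  have hCs0 : 0 ≤ C / s z := div_nonneg (by linarith) hs.le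
  have hopen : ∀ p : ℂ × (D → ℝ), ‖p‖ < 4 * C + 1 → ∀ᶠ q in 𝓝 p, ‖q‖ < 4 * C + 1 := fun p hp =>
    (isOpen_lt continuous_norm continuous_const).mem_nhds hp
  refine ⟨?_, ?_, ?_, ?_, ?_, ?_, ?_, ?_⟩
  · intro p
    unfold eMap
    split_ifs with hp
    · exact (gloca_G env h8 hz hz2 loc hC hc hR hRε hcε hSt hp.1 hp.2).2
    · rfl
  · intro p
    unfold eMap'
    split_ifs with hp
    · exact (gloca_H env h8 hz hz2 loc hC hc hR hRε hcε hSt hp.1 hp.2).2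
    · rfl
  · rintro p ⟨hp1, hp2, hp3⟩
    unfold eMap
    rw [if_pos ⟨hp1, hp2⟩]
    have h1 := (gloca_G env h8 hz hz2 loc hC hc hR hRε hcε hSt hp1 hp2).1
    have h2 := loc.clip (h' (G (Ψ' p))) (Ψ' p)
    rw [loc.cinv'] at h2
    refine h2.trans ?_
    calc C / s z * ‖h' (G (Ψ' p)) - Ψ' p‖ ≤ C / s z * (4 * L * (2 * c + 1) * ε * s z) :=
          mul_le_mul_of_nonneg_left h1 hCs0
      _ = 4 * L * (C / s z * s z) * (2 * c + 1) * ε := by ring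
      _ = _ := by rw [hCs]
  · rintro p ⟨hp1, hp2, hp3⟩
    unfold eMap'
    rw [if_pos ⟨hp1, hp3⟩]
    have h1 := (gloca_H env h8 hz hz2 loc hC hc hR hRε hcε hSt hp1 hp3).1
    have h2 := loc.clip (H (h (Ψ' p))) (Ψ' p)
    rw [loc.cinv'] at h2
    refine h2.trans ?_
    calc C / s z * ‖H (h (Ψ' p)) - Ψ' p‖ ≤ C / s z * ((2 * c + 1) * ε * s z) :=
          mul_le_mul_of_nonneg_left h1 hCs0
      _ = (C / s z * s z) * ((2 * c + 1) * ε) := by ring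
      _ = 1 * (C * ((2 * c + 1) * ε)) := by rw [hCs, one_mul]
      _ ≤ (4 * L) * (C * ((2 * c + 1) * ε)) := by
          refine mul_le_mul_of_nonneg_right (by linarith) ?_
          exact mul_nonneg (by linarith) (mul_nonneg (by linarith) hε.le)
      _ = _ := by ring
  · rintro p ⟨hp1, hp2, hp3⟩
    have e1 : eMap (4 * C + 1) Dm G h' Ψ Ψ' p = Ψ (h' (G (Ψ' p))) := if_pos ⟨hp1, hp2⟩
    have e2 : ∀ᶠ q in 𝓝 p, Ψ' q ∈ Dm := hΨc.continuousAt.eventually (hDo.mem_nhds hp2)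
    have e3 : ∀ᶠ q in 𝓝 p, ‖G (Ψ' q) - G (Ψ' p)‖ ≤ Λ * ‖Ψ' q - Ψ' p‖ :=
      hΨc.continuousAt.eventually (hSt.s1l _ hp2)
    filter_upwards [hopen p hp1, e2, e3] with q q1 q2 q3
    have e4 : eMap (4 * C + 1) Dm G h' Ψ Ψ' q = Ψ (h' (G (Ψ' q))) := if_pos ⟨q1, q2⟩
    rw [e1, e4]
    refine (loc.clip _ _).trans ?_
    have e5 : ‖h' (G (Ψ' q)) - h' (G (Ψ' p))‖ ≤ 4 * L * (Λ * (C * s z * ‖q - p‖)) := by
      refine (loc.hlip' _ _).trans (mul_le_mul_of_nonneg_left ?_ (by linarith))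
      refine q3.trans (mul_le_mul_of_nonneg_left ?_ (by linarith))
      exact loc.clip' q p
    calc C / s z * ‖h' (G (Ψ' q)) - h' (G (Ψ' p))‖ ≤
          C / s z * (4 * L * (Λ * (C * s z * ‖q - p‖))) := mul_le_mul_of_nonneg_left e5 hCs0
      _ = 4 * L * Λ * ((C / s z * s z) * C) * ‖q - p‖ := by ring
      _ = _ := by rw [hCs]; ring
  · rintro p ⟨hp1, hp2, hp3⟩
    obtain ⟨-, -, -, -, -, -, -, k7, -, -, -⟩ := gloca_x env h8 hz hz2 loc hC hR hRε hp1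
    have e1 : eMap' (4 * C + 1) Dm B H h Ψ Ψ' p = Ψ (H (h (Ψ' p))) := if_pos ⟨hp1, hp3⟩
    have hhc2 : ContinuousAt (fun q => h (Ψ' q)) p := (hhc.comp hΨc).continuousAt
    have e2 : ∀ᶠ q in 𝓝 p, B (h (Ψ' q)) ∈ Dm := by
      have h1 : ContinuousAt (fun q => B (h (Ψ' q))) p :=
        ContinuousAt.comp (f := fun q => h (Ψ' q)) (g := B) (env.contB k7) hhc2
      exact h1.eventually (hDo.mem_nhds hp3)
    have e3 : ∀ᶠ q in 𝓝 p, ‖H (h (Ψ' q)) - H (h (Ψ' p))‖ ≤ Λ * ‖h (Ψ' q) - h (Ψ' p)‖ :=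
      hhc2.eventually (hSt.s2l _ k7 hp3)
    filter_upwards [hopen p hp1, e2, e3] with q q1 q2 q3
    have e4 : eMap' (4 * C + 1) Dm B H h Ψ Ψ' q = Ψ (H (h (Ψ' q))) := if_pos ⟨q1, q2⟩
    rw [e1, e4]
    refine (loc.clip _ _).trans ?_
    have e5 : ‖H (h (Ψ' q)) - H (h (Ψ' p))‖ ≤ Λ * (4 * L * (C * s z * ‖q - p‖)) := by
      refine q3.trans (mul_le_mul_of_nonneg_left ?_ (by linarith))
      refine (loc.hlip _ _).trans (mul_le_mul_of_nonneg_left ?_ (by linarith))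
      exact loc.clip' q p
    calc C / s z * ‖H (h (Ψ' q)) - H (h (Ψ' p))‖ ≤
          C / s z * (Λ * (4 * L * (C * s z * ‖q - p‖))) := mul_le_mul_of_nonneg_left e5 hCs0
      _ = 4 * L * Λ * ((C / s z * s z) * C) * ‖q - p‖ := by ring
      _ = _ := by rw [hCs]; ring
  · rintro p ⟨hp1, hp2, hp3⟩ hq
    have e1 : eMap (4 * C + 1) Dm G h' Ψ Ψ' p = Ψ (h' (G (Ψ' p))) := if_pos ⟨hp1, hp2⟩
    rw [e1] at hq ⊢
    obtain ⟨hq1, hq2, hq3⟩ := hq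
    have e2 : eMap' (4 * C + 1) Dm B H h Ψ Ψ' (Ψ (h' (G (Ψ' p)))) =
        Ψ (H (h (Ψ' (Ψ (h' (G (Ψ' p))))))) := if_pos ⟨hq1, hq3⟩
    rw [e2]
    rw [loc.cinv, loc.inv'] at hq3 ⊢
    rw [hSt.s3 _ hp2 hq3, loc.cinv']
  · rintro p ⟨hp1, hp2, hp3⟩ hq
    obtain ⟨-, -, -, -, -, -, -, k7, -, -, -⟩ := gloca_x env h8 hz hz2 loc hC hR hRε hp1
    have e1 : eMap' (4 * C + 1) Dm B H h Ψ Ψ' p = Ψ (H (h (Ψ' p))) := if_pos ⟨hp1, hp3⟩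
    rw [e1] at hq ⊢
    obtain ⟨hq1, hq2, hq3⟩ := hq
    have e2 : eMap (4 * C + 1) Dm G h' Ψ Ψ' (Ψ (H (h (Ψ' p)))) =
        Ψ (h' (G (Ψ' (Ψ (H (h (Ψ' p))))))) := if_pos ⟨hq1, hq2⟩
    rw [e2]
    rw [loc.cinv] at hq2 ⊢
    rw [hSt.s3' _ k7 hp3 hq2, loc.inv, loc.cinv']

end H80.LD

end S_H80_LD_GLocA
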