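import Mathlib
import Pool.Agent.H80.LM.G01
import Pool.Agent.H80.LM.G03
import Pool.Agent.H80.LM.G08
import Pool.Agent.H80.LM.G09
import Pool.Agent.H80.LM.G10
import Pool.Agent.H80.LM.G11
import Pool.Agent.H80.LM.G12

/-! MP_816883_ag: this file joins several modules (see the folders H80/LD, H24/LS) to save build time. -/

section S_H80_LD_F4b

/-!
# F4b: the bounds at the centre (`V` proper)

`K = {v | 3/8 ≤ ‖v‖ ≤ 3/4}` is compact.  For `v ∈ K`: `‖(fF (c, v)).2‖ ≤ 4/5` (cases as in F2) and by `F4_lip` (continuity at `(c, v)`) `‖(fF q).2‖ ≤ 1` for `q` near `(c, v)`.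
By the tube lemma (`IsCompact.eventually_forall_of_forall_eventually`) there is a neighbourhood of `c` such that `‖(fF (c', v)).2‖ ≤ 1` for all `v ∈ K` and `c'` in it.
For `q = (c', u)` near `(c, 0)`, `u ≠ 0`, `‖u‖ < 3/8`: `k = kk (3/8) q`, `2^k u ∈ K`, `‖(fF q).2‖ = 2^{-k} ‖(gF (c', 2^k u)).2‖ ≤ 2^{-k} ≤ (8/3) ‖u‖` (`gF = fF` on `K` by `F1_ext_big`).
Same for `fFi` with `K' = {1/2 ≤ ‖v‖ ≤ 1}`, `‖(fFi (c, v)).2‖ ≤ 1.01` there (`gFi` is `f'` or has radius `< 3/4`), constant `2.2`.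
-/

open Filter Topology Metric Set

namespace H80.LD

variable {X V : Type*} [NormedAddCommGroup X] [NormedAddCommGroup V] [NormedSpace ℝ V] [ProperSpace V]

omit [NormedAddCommGroup X] [ProperSpace V] in
theorem F4b_ext_fst (a : ℝ) (G : X × V → X × V) (hG : ∀ p, (G p).1 = p.1) (p : X × V) :
    (ext a G p).1 = p.1 := by
  unfold ext
  split_ifs
  · rfl
  · simp only [lam]
    rw [hG]

theorem F4b_core (a b : ℝ) (ha : 0 < a) (c : X) (G : X × V → X × V)
    (hc : ∀ v : V, a ≤ ‖v‖ → ‖v‖ ≤ 2 * a → ContinuousAt (ext a G) (c, v) ∧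
      ‖(ext a G (c, v)).2‖ < b) :
    ∀ᶠ q in 𝓝 ((c, 0) : X × V), ‖(ext a G q).2‖ ≤ b / a * ‖q.2‖ := by
  have hK : IsCompact (closedBall (0 : V) (2 * a) ∩ {v : V | a ≤ ‖v‖}) :=
    (isCompact_closedBall _ _).inter_right (isClosed_le continuous_const continuous_norm)
  have h1 := hK.eventually_forall_of_forall_eventually (x₀ := c)
    (P := fun x v => ‖(ext a G (x, v)).2‖ < b) (by
      intro v hv
      have hv1 : ‖v‖ ≤ 2 * a := by simpa using hv.1
      obtain ⟨h1, h2⟩ := hc v hv.2 hv1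
      have h3 : ContinuousAt (fun z => ‖(ext a G z).2‖) (c, v) :=
        (continuous_snd.continuousAt.comp h1).norm
      exact h3.eventually (gt_mem_nhds h2))
  have h2 : ∀ᶠ q in 𝓝 ((c, 0) : X × V), ∀ v ∈ closedBall (0 : V) (2 * a) ∩ {v : V | a ≤ ‖v‖},
      ‖(ext a G (q.1, v)).2‖ < b := by
    have : Tendsto (fun q : X × V => q.1) (𝓝 (c, 0)) (𝓝 c) := continuous_fst.tendsto _
    exact this.eventually h1
  have h3 : ∀ᶠ q in 𝓝 ((c, 0) : X × V), ‖q.2‖ < a := by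
    have : Tendsto (fun q : X × V => ‖q.2‖) (𝓝 (c, 0)) (𝓝 ‖(0 : V)‖) :=
      (continuous_snd.norm).tendsto _
    rw [norm_zero] at this
    exact this.eventually (gt_mem_nhds ha)
  filter_upwards [h2, h3] with q hq2 hq3
  by_cases h0 : q.2 = 0
  · have : ext a G q = q := by
      unfold ext
      rw [if_pos h0]
    rw [this, h0, norm_zero, mul_zero]
  · obtain ⟨e1, e2⟩ := F1_kk a ha q h0
    set k := kk a q with hk
    have hk0 : k ≠ 0 := by
      intro h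
      rw [h, pow_zero, one_mul] at e1
      linarith
    have e3 : 2 ^ k * ‖q.2‖ < 2 * a := e2.resolve_left hk0
    have hn : ‖(lam (2 ^ k) q).2‖ = 2 ^ k * ‖q.2‖ := F1_lam_norm _ (by positivity) q
    have e4 : ext a G q = lam ((1 / 2) ^ k) (ext a G (lam (2 ^ k) q)) := by
      rw [F1_ext_big a ha G (lam (2 ^ k) q) (by rw [hn]; exact e1)]
      conv_lhs => unfold ext
      rw [if_neg h0, ← hk]
    have e5 : ‖(ext a G (lam (2 ^ k) q)).2‖ < b := by
      have := hq2 (lam (2 ^ k) q).2 ⟨by simp only [mem_closedBall, dist_zero_right, hn]; exact e3.le,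
        by show a ≤ ‖(lam (2 ^ k) q).2‖; rw [hn]; exact e1⟩
      exact this
    rw [e4, F1_lam_norm _ (by positivity)]
    have hp : (0 : ℝ) < (1 / 2) ^ k := by positivity
    have hpp : (1 / 2 : ℝ) ^ k * 2 ^ k = 1 := by
      rw [← mul_pow]
      norm_num
    have hb : 0 ≤ b := (norm_nonneg _).trans e5.le
    have e6 : (1 / 2 : ℝ) ^ k ≤ ‖q.2‖ / a := by
      rw [le_div_iff₀ ha]
      calc (1 / 2 : ℝ) ^ k * a ≤ (1 / 2) ^ k * (2 ^ k * ‖q.2‖) :=
            mul_le_mul_of_nonneg_left e1 hp.le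
        _ = ‖q.2‖ := by rw [← mul_assoc, hpp, one_mul]
    calc (1 / 2 : ℝ) ^ k * ‖(ext a G (lam (2 ^ k) q)).2‖ ≤ (1 / 2) ^ k * b :=
          mul_le_mul_of_nonneg_left e5.le hp.le
      _ ≤ ‖q.2‖ / a * b := mul_le_mul_of_nonneg_right e6 hb
      _ = b / a * ‖q.2‖ := by ring

theorem F4b_main (a b C : ℝ) (ha : 0 < a) (c : X) (G : X × V → X × V) (hG : ∀ p, (G p).1 = p.1)
    (hC : 1 ≤ C) (hC' : b / a ≤ C)
    (hc : ∀ v : V, a ≤ ‖v‖ → ‖v‖ ≤ 2 * a → ContinuousAt (ext a G) (c, v) ∧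
      ‖(ext a G (c, v)).2‖ < b) :
    ∀ᶠ q in 𝓝 ((c, 0) : X × V), ‖ext a G q - ext a G (c, 0)‖ ≤ C * ‖q - (c, 0)‖ := by
  filter_upwards [F4b_core a b ha c G hc] with q hq
  have h0 : ext a G ((c, 0) : X × V) = (c, 0) := by
    unfold ext
    rw [if_pos rfl]
  rw [h0, Prod.norm_def, Prod.norm_def]
  simp only [Prod.fst_sub, Prod.snd_sub, sub_zero, F4b_ext_fst a G hG q]
  have h1 : 0 ≤ max ‖q.1 - c‖ ‖q.2‖ := (norm_nonneg _).trans (le_max_left _ _)
  refine max_le ?_ ?_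
  · calc ‖q.1 - c‖ ≤ max ‖q.1 - c‖ ‖q.2‖ := le_max_left _ _
      _ = 1 * max ‖q.1 - c‖ ‖q.2‖ := (one_mul _).symm
      _ ≤ C * max ‖q.1 - c‖ ‖q.2‖ := mul_le_mul_of_nonneg_right hC h1
  · calc ‖(ext a G q).2‖ ≤ b / a * ‖q.2‖ := hq
      _ ≤ C * ‖q.2‖ := mul_le_mul_of_nonneg_right hC' (norm_nonneg _)
      _ ≤ C * max ‖q.1 - c‖ ‖q.2‖ :=
        mul_le_mul_of_nonneg_left (le_max_right _ _) (by linarith)

omit [NormedSpace ℝ V] [ProperSpace V] in
theorem F4b_disp {ε L : ℝ} (hε : ε ≤ 1 / 100) (c : X) (f f' : X × V → X × V)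
    (h : NP ε L ({c} ×ˢ sh V) f f') (x : X × V) (hc : x.1 = c) (h1 : 1 / 3 < ‖x.2‖)
    (h2 : ‖x.2‖ < 2) : |‖(f x).2‖ - ‖x.2‖| ≤ 1 / 100 ∧ |‖(f' x).2‖ - ‖x.2‖| ≤ 1 / 100 := by
  have hx : x ∈ ({c} ×ˢ sh V : Set (X × V)) := ⟨hc, h1, h2⟩
  constructor
  · calc |‖(f x).2‖ - ‖x.2‖| ≤ ‖(f x).2 - x.2‖ := abs_norm_sub_norm_le _ _
      _ ≤ ‖f x - x‖ := norm_snd_le (f x - x)
      _ ≤ 1 / 100 := (h.disp x hx).trans hε
  · calc |‖(f' x).2‖ - ‖x.2‖| ≤ ‖(f' x).2 - x.2‖ := abs_norm_sub_norm_le _ _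
      _ ≤ ‖f' x - x‖ := norm_snd_le (f' x - x)
      _ ≤ 1 / 100 := (h.disp' x hx).trans hε

omit [ProperSpace V] in
theorem F4b_rad {r : ℝ → ℝ} (w : X × V) (hw : 0 < ‖w.2‖) (hr : 0 ≤ r ‖w.2‖) :
    ‖(rad r w).2‖ = r ‖w.2‖ := by
  rw [F1_rad_norm r w (norm_pos_iff.1 hw), abs_of_nonneg hr]

omit [ProperSpace V] in
theorem F4b_gF {ε L : ℝ} (hε : ε ≤ 1 / 100) (c : X) (f f' : X × V → X × V)
    (h : NP ε L ({c} ×ˢ sh V) f f') (v : V) (h1 : 3 / 8 ≤ ‖v‖) (h2 : ‖v‖ ≤ 3 / 4) :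
    ‖(gF f f' (c, v)).2‖ < 1 := by
  unfold gF
  split_ifs with g1
  · have := (abs_le.1 (F4b_disp hε c f f' h (c, v) rfl (by simp only; linarith)
      (by simp only; linarith)).1).2
    simp only at this
    linarith
  · unfold stF
    have e1 : ‖(lam 2 ((c, v) : X × V)).2‖ = 2 * ‖v‖ := F1_lam_norm 2 (by norm_num) _
    have e2 := abs_le.1 (F4b_disp hε c f f' h (lam 2 (c, v)) rfl (by rw [e1]; linarith)
      (by rw [e1]; linarith)).1
    rw [e1] at e2
    set w := f (lam 2 (c, v)) with hw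
    have hwc : w.1 = c := by rw [hw, h.pres]; rfl
    split_ifs with g2
    · have hr1 : 1 / 2 ≤ rR ‖w.2‖ := by
        unfold rR
        refine le_min ?_ ?_ <;> linarith
      have hr2 : rR ‖w.2‖ ≤ ‖w.2‖ := min_le_right _ _
      have ey := F4b_rad (r := rR) w (by linarith) (by linarith)
      set y := rad rR w with hy
      have hyc : y.1 = c := hwc
      have e3 := abs_le.1 (F4b_disp hε c f f' h y hyc (by rw [ey]; linarith)
        (by rw [ey]; linarith)).2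
      rw [ey] at e3
      unfold stT
      split_ifs with g3
      · have hs1 : 3 / 5 ≤ rS ‖(f' y).2‖ := by
          unfold rS
          refine le_min g3 ?_
          linarith
        have hs2 : rS ‖(f' y).2‖ ≤ 1 / 2 + ‖(f' y).2‖ / 6 := min_le_right _ _
        have ez := F4b_rad (r := rS) (f' y) (by linarith) (by linarith)
        have e4 := abs_le.1 (F4b_disp hε c f f' h (rad rS (f' y))
          (by show (f' y).1 = c; rw [h.pres']; exact hyc) (by rw [ez]; linarith)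
          (by rw [ez]; linarith)).1
        rw [ez] at e4
        linarith
      · rw [ey]
        linarith
    · rw [F1_lam_norm _ (by norm_num)]
      linarith

omit [ProperSpace V] in
theorem F4b_gFi {ε L : ℝ} (hε : ε ≤ 1 / 100) (c : X) (f f' : X × V → X × V)
    (h : NP ε L ({c} ×ˢ sh V) f f') (v : V) (h1 : 1 / 2 ≤ ‖v‖) (h2 : ‖v‖ ≤ 1) :
    ‖(gFi f f' (c, v)).2‖ < 2 := by
  have hr : ∀ y : X × V, y.1 = c → 1 / 2 ≤ ‖y.2‖ → ‖y.2‖ ≤ 152 / 100 →
      ‖(lam (1 / 2) (f' (rad rRi y))).2‖ < 2 := by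
    intro y hyc hy1 hy2
    have hr1 : ‖y.2‖ ≤ rRi ‖y.2‖ := le_max_right _ _
    have hr2 : rRi ‖y.2‖ ≤ 152 / 100 := by
      unfold rRi
      refine max_le ?_ hy2
      linarith
    have ez := F4b_rad (r := rRi) y (by linarith) (by linarith)
    have e4 := abs_le.1 (F4b_disp hε c f f' h (rad rRi y) hyc (by rw [ez]; linarith)
      (by rw [ez]; linarith)).2
    rw [ez] at e4
    rw [F1_lam_norm _ (by norm_num)]
    linarith
  unfold gFi
  have e1 := abs_le.1 (F4b_disp hε c f f' h (c, v) rfl (by simp only; linarith)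
      (by simp only; linarith)).2
  simp only at e1
  split_ifs with g1
  · linarith
  · push Not at g1
    unfold stTi
    split_ifs with g2
    · have hs1 : ‖(f' (c, v)).2‖ ≤ rSi ‖(f' (c, v)).2‖ := le_max_left _ _
      have hs2 : rSi ‖(f' (c, v)).2‖ ≤ 3 / 2 := by
        unfold rSi
        refine max_le ?_ ?_ <;> linarith
      have ez := F4b_rad (r := rSi) (f' (c, v)) (by linarith) (by linarith)
      have e4 := abs_le.1 (F4b_disp hε c f f' h (rad rSi (f' (c, v)))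
        (by show (f' (c, v)).1 = c; rw [h.pres']) (by rw [ez]; linarith)
        (by rw [ez]; linarith)).1
      rw [ez] at e4
      refine hr _ ?_ ?_ ?_
      · rw [h.pres]
        show (f' (c, v)).1 = c
        rw [h.pres']
      · linarith
      · linarith
    · exact hr (c, v) rfl h1 (by simp only; linarith)

omit [ProperSpace V] in
theorem F4b_pres {ε L : ℝ} {U : Set (X × V)} (f f' : X × V → X × V)
    (h : NP ε L U f f') : (∀ p, (gF f f' p).1 = p.1) ∧ ∀ p, (gFi f f' p).1 = p.1 := by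
  constructor
  · intro p
    unfold gF
    split_ifs
    · exact h.pres p
    · unfold stF
      split_ifs
      · unfold stT
        split_ifs
        · simp only [rad, h.pres, h.pres', lam]
        · simp only [rad, h.pres, lam]
      · simp only [h.pres, lam]
  · intro p
    unfold gFi
    split_ifs
    · exact h.pres' p
    · unfold stTi
      split_ifs
      · simp only [rad, h.pres, h.pres', lam]
      · simp only [rad, h.pres', lam]

theorem F4b_lip {ε L : ℝ} (hL : 1 ≤ L) (hε : ε ≤ 1 / 100) (c : X) (f f' : X × V → X × V)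
    (h : NP ε L ({c} ×ˢ sh V) f f') (p : X × V) (hc : p.1 = c) (hp : ‖p.2‖ < 2) :
    ∀ᶠ q in 𝓝 p, ‖fF f f' q - fF f f' p‖ ≤ 200 * L ^ 3 * ‖q - p‖ := by
  have hL3 : 1 ≤ L ^ 3 := one_le_pow₀ hL
  by_cases h0 : p.2 = 0
  · obtain ⟨x, v⟩ := p
    simp only at hc h0
    subst hc h0
    refine F4b_main (3 / 8) 1 (200 * L ^ 3) (by norm_num) x (gF f f') (F4b_pres f f' h).1
      (by linarith) (by norm_num; linarith) ?_
    intro v h1 h2
    have h3 : v ≠ 0 := by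
      rw [← norm_pos_iff]
      linarith
    refine ⟨B0b_cont (F4_lip hL hε x f f' h (x, v) rfl (by simp only; linarith) h3), ?_⟩
    rw [F1_ext_big _ (by norm_num) _ _ h1]
    exact F4b_gF hε x f f' h v h1 (by linarith)
  · filter_upwards [F4_lip hL hε c f f' h p hc hp h0] with q hq
    refine hq.trans (mul_le_mul_of_nonneg_right ?_ (norm_nonneg _))
    linarith

theorem F4b_lip' {ε L : ℝ} (hL : 1 ≤ L) (hε : ε ≤ 1 / 100) (c : X) (f f' : X × V → X × V)
    (h : NP ε L ({c} ×ˢ sh V) f f') (p : X × V) (hc : p.1 = c) (hp : ‖p.2‖ < 2) :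
    ∀ᶠ q in 𝓝 p, ‖fFi f f' q - fFi f f' p‖ ≤ 200 * L ^ 3 * ‖q - p‖ := by
  have hL3 : 1 ≤ L ^ 3 := one_le_pow₀ hL
  by_cases h0 : p.2 = 0
  · obtain ⟨x, v⟩ := p
    simp only at hc h0
    subst hc h0
    refine F4b_main (1 / 2) 2 (200 * L ^ 3) (by norm_num) x (gFi f f') (F4b_pres f f' h).2
      (by linarith) (by norm_num; linarith) ?_
    intro v h1 h2
    have h3 : v ≠ 0 := by
      rw [← norm_pos_iff]
      linarith
    refine ⟨B0b_cont (F5_lip hL hε x f f' h (x, v) rfl (by simp only; linarith) h3), ?_⟩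
    rw [F1_ext_big _ (by norm_num) _ _ h1]
    exact F4b_gFi hε x f f' h v h1 (by linarith)
  · exact F5_lip hL hε c f f' h p hc hp h0

end H80.LD

end S_H80_LD_F4b

section S_H80_LD_F7

/-!
# F7: the normalised extension

`F p = fF f f' (fFi id id p)`, `F' p = fF id id (fFi f f' p)`.  `(id, id)` is an `NP 0 1` pair everywhere, so F2-F6 apply to it.  Facts for `id`: `fF id id`, `fFi id id` are radial
(they map radius `< 2` to radius `< 2`), equal to the identity for radius `≥ 3/4`, mutually inverse.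
* For `4/5 ≤ ‖p.2‖ < 2`, `p.1 = c`: `fFi id id p = p`, `fF f f' p = f p`; `fFi f f' p = gFi f f' p = f' p` as `n (f' p) ≥ 3/4`, and `fF id id (f' p) = f' p`.
* displacement: `r = fFi id id p`, `p = fF id id r`, `F p - p = fF f f' r - fF id id r` (`F6_close`).  For `F'`: if `r = fFi f f' p` has radius `< 2`: `p = fF f f' r` (`F3_right`), same bound; if not,
  then `n p ≥ 4/5` (otherwise `r` has small radius: `n r ≤ 0.9`: for `n p < 4/5` the cases of F3 give this) and `F' p = f' p`.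
* Lipschitz: `fFi id id` is `200`-Lipschitz (pointwise, F4b), `fF f f'` is `200 L^3`; for `F'` at `p` with `n p > 4/5` near `p` (in all fibres: `n (f' q) ≥ 3/4` by continuity of `f'` at `p`) `F' = f'`
  (and for `n p < 2`), for `n p ≤ 4/5` compose (`fFi f f' p` has radius `< 2`).
* `inv`: `r = fFi id id p`, `F p = fF f f' r` has radius `< 2`: `fFi f f' (fF f f' r) = r` (F2), `fF id id r = p` (F3 for id).
* `inv'`: `s = fFi f f' p`.  If `n s < 2`: `fFi id id (fF id id s) = s` (F2 for id, `n (fF id id s) < 2`), `fF f f' s = p` (F3).  If `n s ≥ 2` then `F' p = fF id id s = s` is not in the ball.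
* identity property: `F6_congr` and F2/F3 for `id`.
* `pres`: `fF`, `fFi` preserve the first component if `f, f'` do.
-/

open Filter Topology Metric Set

namespace H80.LD

variable {X V : Type*} [NormedAddCommGroup X] [NormedAddCommGroup V] [NormedSpace ℝ V] [ProperSpace V]

omit [ProperSpace V] in
theorem F7_ext_pres (a : ℝ) (G : X × V → X × V) (hG : ∀ p, (G p).1 = p.1) (p : X × V) :
    (ext a G p).1 = p.1 := by
  unfold ext
  split_ifs
  · rfl
  · show (G (lam (2 ^ kk a p) p)).1 = p.1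
    rw [hG]
    rfl

omit [ProperSpace V] in
theorem F7_fF_pres (f f' : X × V → X × V) (hf : ∀ p, (f p).1 = p.1) (hf' : ∀ p, (f' p).1 = p.1)
    (p : X × V) : (fF f f' p).1 = p.1 := by
  refine F7_ext_pres _ _ (fun q => ?_) p
  have h1 : ∀ y, (stT f f' y).1 = y.1 := by
    intro y
    unfold stT
    split_ifs
    · rw [hf]
      show (f' y).1 = y.1
      rw [hf']
    · rfl
  unfold gF
  split_ifs
  · exact hf q
  · unfold stF
    split_ifs
    · rw [h1]
      show (f (lam 2 q)).1 = q.1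
      rw [hf]
      rfl
    · show (f (lam 2 q)).1 = q.1
      rw [hf]
      rfl

omit [ProperSpace V] in
theorem F7_fFi_pres (f f' : X × V → X × V) (hf : ∀ p, (f p).1 = p.1) (hf' : ∀ p, (f' p).1 = p.1)
    (p : X × V) : (fFi f f' p).1 = p.1 := by
  refine F7_ext_pres _ _ (fun q => ?_) p
  have h1 : ∀ y, (stTi f f' y).1 = y.1 := by
    intro y
    unfold stTi
    split_ifs
    · rw [hf]
      show (f' y).1 = y.1
      rw [hf']
    · rfl
  unfold gFi
  split_ifs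
  · exact hf' q
  · show (f' (rad rRi (stTi f f' q))).1 = q.1
    rw [hf']
    show (stTi f f' q).1 = q.1
    exact h1 q

omit [NormedSpace ℝ V] [ProperSpace V] in
theorem F7_mem (c : X) (q : X × V) : q ∈ ({c} ×ˢ sh V : Set (X × V)) ↔
    q.1 = c ∧ 1 / 3 < ‖q.2‖ ∧ ‖q.2‖ < 2 := by
  rw [mem_prod, mem_singleton_iff]
  rfl

omit [NormedSpace ℝ V] [ProperSpace V] in
theorem F7_n {ε L : ℝ} {c : X} {f f' : X × V → X × V}
    (h : NP ε L ({c} ×ˢ sh V) f f') (q : X × V) (h0 : q.1 = c) (h1 : 1 / 3 < ‖q.2‖)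
    (h2 : ‖q.2‖ < 2) :
    (‖(f q).2‖ ≤ ‖q.2‖ + ε ∧ ‖q.2‖ - ε ≤ ‖(f q).2‖) ∧
      (‖(f' q).2‖ ≤ ‖q.2‖ + ε ∧ ‖q.2‖ - ε ≤ ‖(f' q).2‖) := by
  have hq := (F7_mem c q).2 ⟨h0, h1, h2⟩
  have key : ∀ x : X × V, ‖x - q‖ ≤ ε → ‖x.2‖ ≤ ‖q.2‖ + ε ∧ ‖q.2‖ - ε ≤ ‖x.2‖ := by
    intro x hx
    have h3 : ‖x.2 - q.2‖ ≤ ε := (norm_snd_le (x - q)).trans hx
    have h4 := abs_norm_sub_norm_le x.2 q.2
    have h5 := abs_le.1 (h4.trans h3)
    exact ⟨by linarith [h5.2], by linarith [h5.1]⟩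
  exact ⟨key _ (h.disp q hq), key _ (h.disp' q hq)⟩

omit [ProperSpace V] in
theorem F7_fF_big (f f' : X × V → X × V) (p : X × V) (h : 3 / 4 ≤ ‖p.2‖) : fF f f' p = f p := by
  unfold fF
  rw [F1_ext_big _ (by norm_num) _ _ (by linarith)]
  unfold gF
  rw [if_pos h]

omit [ProperSpace V] in
theorem F7_fFi_big (f f' : X × V → X × V) (p : X × V) (h : 1 / 2 ≤ ‖p.2‖)
    (h' : 3 / 4 ≤ ‖(f' p).2‖) : fFi f f' p = f' p := by
  unfold fFi
  rw [F1_ext_big _ (by norm_num) _ _ h]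
  unfold gFi
  rw [if_pos h']

omit [ProperSpace V] in
theorem F7_rad_norm (r : ℝ → ℝ) (p : X × V) (hp : 0 < ‖p.2‖) (hr : 0 ≤ r ‖p.2‖) :
    ‖(rad r p).2‖ = r ‖p.2‖ := by
  rw [F1_rad_norm r p (norm_pos_iff.1 hp), abs_of_nonneg hr]

omit [ProperSpace V] in
/-- the inverse maps small radii to radii below `2` -/
theorem F7_small {ε L : ℝ} (hε0 : 0 ≤ ε) (hε : ε ≤ 1 / 100) (c : X) (f f' : X × V → X × V)
    (hf : ∀ p, (f p).1 = p.1) (hf' : ∀ p, (f' p).1 = p.1)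
    (h : NP ε L ({c} ×ˢ sh V) f f') (p : X × V) (hc : p.1 = c) (hp : ‖p.2‖ ≤ 4 / 5) :
    ‖(fFi f f' p).2‖ < 2 := by
  by_cases h0 : p.2 = 0
  · unfold fFi ext
    rw [if_pos h0, h0, norm_zero]
    norm_num
  · obtain ⟨hk1, hk2⟩ := F1_kk (1 / 2) (by norm_num) p h0
    set k := kk (1 / 2) p with hk
    set p' := lam (2 ^ k) p with hp'
    have hn' : ‖p'.2‖ = 2 ^ k * ‖p.2‖ := F1_lam_norm _ (by positivity) p
    have h1 : 1 / 2 ≤ ‖p'.2‖ := by rw [hn']; exact hk1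
    have h2 : ‖p'.2‖ < 1 := by
      rcases hk2 with h3 | h3
      · rw [hn', h3, pow_zero, one_mul]
        linarith
      · rw [hn']
        linarith
    have hc' : p'.1 = c := hc
    have hfp : ‖(fFi f f' p).2‖ = (1 / 2) ^ k * ‖(gFi f f' p').2‖ := by
      have h3 : fFi f f' p = lam ((1 / 2) ^ k) (gFi f f' p') := by
        unfold fFi ext
        rw [if_neg h0]
      rw [h3, F1_lam_norm _ (by positivity)]
    have hpow : ((1 : ℝ) / 2) ^ k ≤ 1 := pow_le_one₀ (by norm_num) (by norm_num)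
    have hg : ‖(gFi f f' p').2‖ < 2 := by
      obtain ⟨_, h4, h5⟩ := F7_n h p' hc' (by linarith) (by linarith)
      unfold gFi
      split_ifs with h6
      · linarith
      · rw [F1_lam_norm _ (by norm_num)]
        push Not at h6
        have h7 : 9 / 20 ≤ ‖(stTi f f' p').2‖ ∧ ‖(stTi f f' p').2‖ ≤ 151 / 100 ∧
            (stTi f f' p').1 = c := by
          unfold stTi
          split_ifs with h8
          · have h9 : ‖(rad rSi (f' p')).2‖ = rSi ‖(f' p').2‖ := by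
              refine F7_rad_norm _ _ (by linarith) ?_
              unfold rSi
              exact le_max_of_le_left (norm_nonneg _)
            have h10 : 3 / 5 ≤ rSi ‖(f' p').2‖ := by
              unfold rSi
              exact le_max_of_le_left h8
            have h11 : rSi ‖(f' p').2‖ ≤ 3 / 2 := by
              unfold rSi
              exact max_le (by linarith) (by linarith)
            have h12 : (rad rSi (f' p')).1 = c := by
              show (f' p').1 = c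
              rw [hf']
              exact hc'
            obtain ⟨⟨h13, h14⟩, _⟩ := F7_n h (rad rSi (f' p')) h12 (by rw [h9]; linarith)
              (by rw [h9]; linarith)
            rw [h9] at h13 h14
            refine ⟨by linarith, by linarith, ?_⟩
            rw [hf]
            exact h12
          · exact ⟨by linarith, by linarith, hc'⟩
        obtain ⟨h8, h9, h10⟩ := h7
        set u := stTi f f' p' with hu
        have h11 : ‖(rad rRi u).2‖ = rRi ‖u.2‖ := by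
          refine F7_rad_norm _ _ (by linarith) ?_
          unfold rRi
          exact le_max_of_le_right (norm_nonneg _)
        have h12 : 9 / 20 ≤ rRi ‖u.2‖ := by
          unfold rRi
          exact le_max_of_le_right h8
        have h13 : rRi ‖u.2‖ ≤ 151 / 100 := by
          unfold rRi
          exact max_le (by linarith) h9
        obtain ⟨_, h14, h15⟩ := F7_n h (rad rRi u) h10 (by rw [h11]; linarith)
          (by rw [h11]; linarith)
        rw [h11] at h14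
        linarith
    rw [hfp]
    have h3 : (1 / 2 : ℝ) ^ k * ‖(gFi f f' p').2‖ ≤ 1 * ‖(gFi f f' p').2‖ :=
      mul_le_mul_of_nonneg_right hpow (norm_nonneg _)
    linarith

omit [NormedSpace ℝ V] [ProperSpace V] in
theorem F7_id (U : Set (X × V)) : NP 0 1 U (id : X × V → X × V) id where
  pres := fun _ => rfl
  pres' := fun _ => rfl
  disp := fun p _ => by simp
  disp' := fun p _ => by simp
  lip := fun p _ => Eventually.of_forall fun q => by simp
  lip' := fun p _ => Eventually.of_forall fun q => by simp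
  inv := fun _ _ _ => rfl
  inv' := fun _ _ _ => rfl

omit [ProperSpace V] in
theorem F7_idi (p : X × V) (hp : ‖p.2‖ < 2) : ‖(fFi (id : X × V → X × V) id p).2‖ < 2 := by
  rcases le_or_gt ‖p.2‖ (4 / 5) with h | h
  · exact F7_small le_rfl (by norm_num) p.1 id id (fun _ => rfl) (fun _ => rfl)
      (F7_id _) p rfl h
  · rw [F7_fFi_big id id p (by linarith) (by show 3 / 4 ≤ ‖p.2‖; linarith)]
    exact hp

theorem F7_fill (f f' : X × V → X × V) (hf : ∀ p, (f p).1 = p.1) (hf' : ∀ p, (f' p).1 = p.1) :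
    ∃ F F' : X × V → X × V, (∀ p, (F p).1 = p.1) ∧ (∀ p, (F' p).1 = p.1) ∧
      ∀ (c : X) (ε L : ℝ), 1 ≤ L → 0 ≤ ε → ε ≤ 1 / 100 → NP ε L ({c} ×ˢ sh V) f f' →
        NP (40 * ε) (10 ^ 5 * L ^ 3) ({c} ×ˢ ball (0 : V) 2) F F' ∧
        (∀ v : V, 4 / 5 ≤ ‖v‖ → ‖v‖ < 2 → F (c, v) = f (c, v) ∧ F' (c, v) = f' (c, v)) ∧
        ((∀ v ∈ sh V, f (c, v) = (c, v) ∧ f' (c, v) = (c, v)) →
          ∀ v : V, ‖v‖ < 2 → F (c, v) = (c, v) ∧ F' (c, v) = (c, v)) := by
  have hid1 : ∀ p : X × V, ((id : X × V → X × V) p).1 = p.1 := fun _ => rfl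
  have hF1 : ∀ p : X × V, (fF f f' (fFi id id p)).1 = p.1 := by
    intro p
    rw [F7_fF_pres f f' hf hf', F7_fFi_pres id id hid1 hid1]
  have hF1' : ∀ p : X × V, (fF id id (fFi f f' p)).1 = p.1 := by
    intro p
    rw [F7_fF_pres id id hid1 hid1, F7_fFi_pres f f' hf hf']
  refine ⟨fun p => fF f f' (fFi id id p), fun p => fF id id (fFi f f' p), hF1, hF1', ?_⟩
  intro c ε L hL hε0 hε h
  have hL3 : 1 ≤ L ^ 3 := one_le_pow₀ hL
  have hLL : L ≤ 10 ^ 5 * L ^ 3 := by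
    have h1 : L ≤ L ^ 3 := le_self_pow₀ hL (by norm_num)
    nlinarith
  have hmem : ∀ p : X × V, p ∈ ({c} ×ˢ ball (0 : V) 2 : Set (X × V)) ↔ p.1 = c ∧ ‖p.2‖ < 2 := by
    intro p
    rw [mem_prod, mem_singleton_iff, mem_ball_zero_iff]
  have hidc : NP 0 1 ({c} ×ˢ sh V) (id : X × V → X × V) id := F7_id _
  -- `fF id id (fFi id id p) = p`
  have hidr : ∀ p : X × V, p.1 = c → ‖p.2‖ < 2 → fF id id (fFi id id p) = p := fun p hc hp =>
    F3_right (by norm_num) c id id hidc p hc hp (F7_idi p hp)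
  have hri : ∀ p : X × V, p.1 = c → (fFi (id : X × V → X × V) id p).1 = c := fun p hc => by
    rw [F7_fFi_pres id id hid1 hid1]
    exact hc
  have hsi : ∀ p : X × V, p.1 = c → (fFi f f' p).1 = c := fun p hc => by
    rw [F7_fFi_pres f f' hf hf']
    exact hc
  -- big radii
  have hbig : ∀ v : V, 4 / 5 ≤ ‖v‖ → ‖v‖ < 2 →
      fF f f' (fFi id id (c, v)) = f (c, v) ∧ fF id id (fFi f f' (c, v)) = f' (c, v) := by
    intro v h1 h2
    have h3 := F7_n h (c, v) rfl (by show 1 / 3 < ‖v‖; linarith) h2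
    have h4 : 3 / 4 ≤ ‖(f' (c, v)).2‖ := by
      have := h3.2.2
      have h5 : ‖((c, v) : X × V).2‖ = ‖v‖ := rfl
      rw [h5] at this
      linarith
    refine ⟨?_, ?_⟩
    · rw [F7_fFi_big id id (c, v) (by show 1 / 2 ≤ ‖v‖; linarith)
        (by show 3 / 4 ≤ ‖v‖; linarith)]
      exact F7_fF_big f f' (c, v) (by show 3 / 4 ≤ ‖v‖; linarith)
    · rw [F7_fFi_big f f' (c, v) (by show 1 / 2 ≤ ‖v‖; linarith) h4]
      exact F7_fF_big id id _ h4
  have hbig' : ∀ p : X × V, p.1 = c → 4 / 5 ≤ ‖p.2‖ → ‖p.2‖ < 2 →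
      fF id id (fFi f f' p) = f' p := by
    rintro ⟨c', v⟩ hc h1 h2
    replace hc : c' = c := hc
    subst hc
    exact (hbig v h1 h2).2
  have hlarge : ∀ p : X × V, p.1 = c → ¬ ‖(fFi f f' p).2‖ < 2 → 4 / 5 < ‖p.2‖ := by
    intro p hc h1
    by_contra h2
    push Not at h2
    exact h1 (F7_small hε0 hε c f f' hf hf' h p hc h2)
  refine ⟨?_, hbig, ?_⟩
  · refine ⟨hF1, hF1', ?_, ?_, ?_, ?_, ?_, ?_⟩
    · -- disp
      intro p hp
      obtain ⟨hc, hp2⟩ := (hmem p).1 hp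
      have h1 := F6_close hε0 hε c f f' h (fFi id id p) (hri p hc) (F7_idi p hp2)
      rw [hidr p hc hp2] at h1
      exact h1
    · -- disp'
      intro p hp
      obtain ⟨hc, hp2⟩ := (hmem p).1 hp
      by_cases h1 : ‖(fFi f f' p).2‖ < 2
      · have h2 := F6_close hε0 hε c f f' h (fFi f f' p) (hsi p hc) h1
        rw [F3_right hε c f f' h p hc hp2 h1, norm_sub_rev] at h2
        exact h2
      · have h2 := hlarge p hc h1
        show ‖fF id id (fFi f f' p) - p‖ ≤ 40 * ε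
        rw [hbig' p hc h2.le hp2]
        have h3 := h.disp' p ((F7_mem c p).2 ⟨hc, by linarith, hp2⟩)
        linarith
    · -- lip
      intro p hp
      obtain ⟨hc, hp2⟩ := (hmem p).1 hp
      have h1 := F4b_lip' (L := 1) le_rfl (by norm_num : (0 : ℝ) ≤ 1 / 100) c id id hidc p hc hp2
      have h2 := F4b_lip hL hε c f f' h (fFi id id p) (hri p hc) (F7_idi p hp2)
      have h3 := B0b_plip_comp (by positivity : (0 : ℝ) ≤ 200 * L ^ 3) h1 h2
      filter_upwards [h3] with q hq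
      refine hq.trans (mul_le_mul_of_nonneg_right ?_ (norm_nonneg _))
      nlinarith
    · -- lip'
      intro p hp
      obtain ⟨hc, hp2⟩ := (hmem p).1 hp
      by_cases h1 : ‖(fFi f f' p).2‖ < 2
      · have h2 := F4b_lip' hL hε c f f' h p hc hp2
        have h3 := F4b_lip (L := 1) le_rfl (by norm_num : (0 : ℝ) ≤ 1 / 100) c id id hidc
          (fFi f f' p) (hsi p hc) h1
        have h4 := B0b_plip_comp (by norm_num : (0 : ℝ) ≤ 200 * 1 ^ 3) h2 h3
        filter_upwards [h4] with q hq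
        refine hq.trans (mul_le_mul_of_nonneg_right ?_ (norm_nonneg _))
        nlinarith
      · have h2 := hlarge p hc h1
        have hps : p ∈ ({c} ×ˢ sh V : Set (X × V)) := (F7_mem c p).2 ⟨hc, by linarith, hp2⟩
        have h3 := h.lip' p hps
        have h4 : ContinuousAt f' p := B0b_cont h3
        have h5 : 3 / 4 < ‖(f' p).2‖ := by
          have := (F7_n h p hc (by linarith) hp2).2.2
          linarith
        have h6 : ∀ᶠ q in 𝓝 p, 3 / 4 < ‖(f' q).2‖ :=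
          (((continuous_snd.norm).continuousAt).comp h4).eventually
            (lt_mem_nhds (a := 3 / 4) h5)
        have h7 : ∀ᶠ q : X × V in 𝓝 p, 4 / 5 < ‖q.2‖ :=
          (continuous_snd.norm).continuousAt.eventually (lt_mem_nhds (a := 4 / 5) h2)
        have h8 : fF id id (fFi f f' p) = f' p := hbig' p hc h2.le hp2
        filter_upwards [h3, h6, h7] with q hq1 hq2 hq3
        have h9 : fF id id (fFi f f' q) = f' q := by
          rw [F7_fFi_big f f' q (by linarith) hq2.le]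
          exact F7_fF_big id id _ hq2.le
        show ‖fF id id (fFi f f' q) - fF id id (fFi f f' p)‖ ≤ 10 ^ 5 * L ^ 3 * ‖q - p‖
        rw [h8, h9]
        exact hq1.trans (mul_le_mul_of_nonneg_right hLL (norm_nonneg _))
    · -- inv
      intro p hp hp'
      obtain ⟨hc, hp2⟩ := (hmem p).1 hp
      obtain ⟨_, hp3⟩ := (hmem _).1 hp'
      show fF id id (fFi f f' (fF f f' (fFi id id p))) = p
      rw [F2_left hε c f f' h (fFi id id p) (hri p hc) (F7_idi p hp2) hp3]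
      exact hidr p hc hp2
    · -- inv'
      intro p hp hp'
      obtain ⟨hc, hp2⟩ := (hmem p).1 hp
      obtain ⟨_, hp3⟩ := (hmem _).1 hp'
      replace hp3 : ‖(fF id id (fFi f f' p)).2‖ < 2 := hp3
      show fF f f' (fFi id id (fF id id (fFi f f' p))) = p
      by_cases h1 : ‖(fFi f f' p).2‖ < 2
      · rw [F2_left (by norm_num) c id id hidc (fFi f f' p) (hsi p hc) h1 hp3]
        exact F3_right hε c f f' h p hc hp2 h1
      · exfalso
        rw [F7_fF_big id id (fFi f f' p) (by linarith)] at hp3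
        exact h1 hp3
  · intro hfid v hv
    refine ⟨?_, ?_⟩
    · show fF f f' (fFi id id (c, v)) = (c, v)
      rw [(F6_congr c f f' hfid (fFi id id (c, v)) (hri (c, v) rfl) (F7_idi (c, v) hv)).1]
      exact hidr (c, v) rfl hv
    · show fF id id (fFi f f' (c, v)) = (c, v)
      rw [(F6_congr c f f' hfid (c, v) rfl hv).2]
      exact hidr (c, v) rfl hv

end H80.LD

end S_H80_LD_F7

section S_H80_LD_F8

/-!
# F8: the filling theorem for the thin shell `21/20 < ‖v‖ < 6/5`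

Radial reparametrisation `Φ = rad θ`, `Φ' = rad θ'`, `θ g = max (20 g / 63) (1/3 + (100/9) (g - 21/20))`, `θ' s = min (63 s / 20) (21/20 + (9/100) (s - 1/3))` (increasing piecewise linear, mutually inverse,
`θ (21/20) = 1/3`, `θ (6/5) = 2`, `θ 0 = 0`).  `Φ` is `34`-Lipschitz, `Φ'` is `10`-Lipschitz (`F1_rad_lip`; for `p.2 = 0` exchange the points).  `B0b_conj` with `Φ`:
`NP (34 ε) (340 L)` on `{c} ×ˢ sh V`; apply F7 (`34 ε ≤ 1/100`), and conjugate back with `Φ'` (`B0b_mono` to fix the sets).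
`θ g ≥ 4/5` for `g ≥ 219/200`: then `F (c,v) = Φ' (Φ (f (Φ' (Φ (c,v))))) = f (c,v)`.  If `f, f'` are the identity on the thin shell then the conjugates are the identity on `sh V`.
`ε₀ = 1/3400`, `C = 10 ^ 16 * L ^ 3` works.
-/

open Filter Topology Metric Set

namespace H80.LD

variable {X V : Type*} [NormedAddCommGroup X] [NormedAddCommGroup V] [NormedSpace ℝ V] [ProperSpace V]

/-- the radial function of the header -/
noncomputable def F8_th (g : ℝ) : ℝ := max (20 * g / 63) (1 / 3 + (100 / 9) * (g - 21 / 20))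

/-- its inverse -/
noncomputable def F8_th' (s : ℝ) : ℝ := min (63 * s / 20) (21 / 20 + (9 / 100) * (s - 1 / 3))

theorem F8_inv (g : ℝ) : F8_th' (F8_th g) = g := by
  unfold F8_th F8_th'
  rcases le_total (20 * g / 63) (1 / 3 + (100 / 9) * (g - 21 / 20)) with h | h
  · rw [max_eq_right h, min_eq_right (by linarith)]; ring
  · rw [max_eq_left h, min_eq_left (by linarith)]; ring

theorem F8_inv' (g : ℝ) : F8_th (F8_th' g) = g := by
  unfold F8_th F8_th'
  rcases le_total (63 * g / 20) (21 / 20 + (9 / 100) * (g - 1 / 3)) with h | h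
  · rw [min_eq_left h, max_eq_left (by linarith)]; ring
  · rw [min_eq_right h, max_eq_right (by linarith)]; ring

theorem F8_lip (a b : ℝ) : |F8_th a - F8_th b| ≤ (100 / 9) * |a - b| := by
  unfold F8_th
  refine (abs_max_sub_max_le_max _ _ _ _).trans (max_le ?_ ?_)
  · have : 20 * a / 63 - 20 * b / 63 = (20 / 63) * (a - b) := by ring
    rw [this, abs_mul, abs_of_pos (by norm_num : (0 : ℝ) < 20 / 63)]
    have := abs_nonneg (a - b)
    nlinarith
  · have : 1 / 3 + 100 / 9 * (a - 21 / 20) - (1 / 3 + 100 / 9 * (b - 21 / 20)) = (100 / 9) * (a - b) := by ring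
    rw [this, abs_mul, abs_of_pos (by norm_num : (0 : ℝ) < 100 / 9)]

theorem F8_lip' (a b : ℝ) : |F8_th' a - F8_th' b| ≤ (63 / 20) * |a - b| := by
  unfold F8_th'
  refine (abs_min_sub_min_le_max _ _ _ _).trans (max_le ?_ ?_)
  · have : 63 * a / 20 - 63 * b / 20 = (63 / 20) * (a - b) := by ring
    rw [this, abs_mul, abs_of_pos (by norm_num : (0 : ℝ) < 63 / 20)]
  · have : 21 / 20 + 9 / 100 * (a - 1 / 3) - (21 / 20 + 9 / 100 * (b - 1 / 3)) = (9 / 100) * (a - b) := by ring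
    rw [this, abs_mul, abs_of_pos (by norm_num : (0 : ℝ) < 9 / 100)]
    have := abs_nonneg (a - b)
    nlinarith

theorem F8_zero : F8_th 0 = 0 := by
  unfold F8_th; rw [max_eq_left (by norm_num)]; norm_num

theorem F8_zero' : F8_th' 0 = 0 := by
  unfold F8_th'; rw [min_eq_left (by norm_num)]; norm_num

theorem F8_nonneg (a : ℝ) (ha : 0 ≤ a) : 0 ≤ F8_th a :=
  le_max_of_le_left (by positivity)

theorem F8_nonneg' (a : ℝ) (ha : 0 ≤ a) : 0 ≤ F8_th' a :=
  le_min (by positivity) (by nlinarith)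

theorem F8_pos (a : ℝ) (ha : 0 < a) : 0 < F8_th a :=
  lt_max_of_lt_left (by positivity)

theorem F8_pos' (a : ℝ) (ha : 0 < a) : 0 < F8_th' a :=
  lt_min (by positivity) (by nlinarith)

theorem F8_radlip (r : ℝ → ℝ) (ℓ : ℝ) (hℓ : 1 ≤ ℓ) (h1 : ∀ a b, |r a - r b| ≤ ℓ * |a - b|)
    (h0 : r 0 = 0) (hn : ∀ a, 0 ≤ a → 0 ≤ r a) (p q : X × V) :
    ‖rad r q - rad r p‖ ≤ 3 * ℓ * ‖q - p‖ := by
  have hle : ∀ a, 0 ≤ a → r a ≤ ℓ * a := by
    intro a ha
    have := h1 a 0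
    rw [h0, sub_zero, sub_zero, abs_of_nonneg ha] at this
    exact (le_abs_self _).trans this
  by_cases hp : p.2 = 0
  · by_cases hq : q.2 = 0
    · have e1 : rad r p = p := by
        apply Prod.ext
        · rfl
        · simp [rad, hp]
      have e2 : rad r q = q := by
        apply Prod.ext
        · rfl
        · simp [rad, hq]
      rw [e1, e2]
      have := norm_nonneg (q - p)
      nlinarith
    · rw [norm_sub_rev, norm_sub_rev q p]
      exact F1_rad_lip r ℓ hℓ q p hq (h1 _ _) (hn _ (norm_nonneg _)) (hle _ (norm_nonneg _))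
  · exact F1_rad_lip r ℓ hℓ p q hp (h1 _ _) (hn _ (norm_nonneg _)) (hle _ (norm_nonneg _))

theorem F8_radinv (r s : ℝ → ℝ) (hp : ∀ a, 0 < a → 0 < r a) (h : ∀ a, s (r a) = a) (p : X × V) :
    rad s (rad r p) = p := by
  by_cases hz : p.2 = 0
  · have e1 : rad r p = p := by
      apply Prod.ext
      · rfl
      · simp [rad, hz]
    rw [e1]
    apply Prod.ext
    · rfl
    · simp [rad, hz]
  · rw [F1_rad_rad r s p hz (hp _ (norm_pos_iff.2 hz))]
    exact F1_rad_id _ p (h _)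

theorem F8_radnorm (r : ℝ → ℝ) (h0 : r 0 = 0) (hn : ∀ a, 0 ≤ a → 0 ≤ r a) (p : X × V) :
    ‖(rad r p).2‖ = r ‖p.2‖ := by
  by_cases hz : p.2 = 0
  · simp [rad, hz, h0]
  · rw [F1_rad_norm r p hz, abs_of_nonneg (hn _ (norm_nonneg _))]

theorem F8_fill (f f' : X × V → X × V) (hf : ∀ p, (f p).1 = p.1) (hf' : ∀ p, (f' p).1 = p.1) :
    ∃ F F' : X × V → X × V, (∀ p, (F p).1 = p.1) ∧ (∀ p, (F' p).1 = p.1) ∧
      ∀ (c : X) (ε L : ℝ), 1 ≤ L → 0 ≤ ε → ε ≤ 1 / 3400 →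
        NP ε L ({c} ×ˢ {v : V | 21 / 20 < ‖v‖ ∧ ‖v‖ < 6 / 5}) f f' →
        NP (10 ^ 5 * ε) (10 ^ 16 * L ^ 3) ({c} ×ˢ ball (0 : V) (6 / 5)) F F' ∧
        (∀ v : V, 219 / 200 ≤ ‖v‖ → ‖v‖ < 6 / 5 → F (c, v) = f (c, v) ∧ F' (c, v) = f' (c, v)) ∧
        ((∀ v : V, 21 / 20 < ‖v‖ → ‖v‖ < 6 / 5 → f (c, v) = (c, v) ∧ f' (c, v) = (c, v)) →
          ∀ v : V, ‖v‖ < 6 / 5 → F (c, v) = (c, v) ∧ F' (c, v) = (c, v)) := by
  set P : X × V → X × V := rad F8_th with hP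
  set Q : X × V → X × V := rad F8_th' with hQ
  have hQP : ∀ p, Q (P p) = p := F8_radinv _ _ F8_pos F8_inv
  have hPQ : ∀ p, P (Q p) = p := F8_radinv _ _ F8_pos' F8_inv'
  have hPn : ∀ p, ‖(P p).2‖ = F8_th ‖p.2‖ := F8_radnorm _ F8_zero F8_nonneg
  have hQn : ∀ p, ‖(Q p).2‖ = F8_th' ‖p.2‖ := F8_radnorm _ F8_zero' F8_nonneg'
  have hPl : ∀ p q, ‖P p - P q‖ ≤ 34 * ‖p - q‖ := fun p q => by
    have := F8_radlip F8_th (100 / 9) (by norm_num) F8_lip F8_zero F8_nonneg q p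
    have h2 := norm_nonneg (p - q)
    exact this.trans (by nlinarith)
  have hQl : ∀ p q, ‖Q p - Q q‖ ≤ 10 * ‖p - q‖ := fun p q => by
    have := F8_radlip F8_th' (63 / 20) (by norm_num) F8_lip' F8_zero' F8_nonneg' q p
    have h2 := norm_nonneg (p - q)
    exact this.trans (by nlinarith)
  have hP1 : ∀ p, (P p).1 = p.1 := fun p => rfl
  have hQ1 : ∀ p, (Q p).1 = p.1 := fun p => rfl
  obtain ⟨G, G', hG1, hG1', hG⟩ := F7_fill (fun p => P (f (Q p))) (fun p => P (f' (Q p)))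
    (fun p => by simp only [hP1, hf, hQ1]) (fun p => by simp only [hP1, hf', hQ1])
  refine ⟨fun p => Q (G (P p)), fun p => Q (G' (P p)), fun p => by simp only [hQ1, hG1, hP1],
    fun p => by simp only [hQ1, hG1', hP1], ?_⟩
  intro c ε L hL hε hε2 hN
  have hthin : ∀ v : V, v ∈ sh V → 21 / 20 < ‖(Q (c, v)).2‖ ∧ ‖(Q (c, v)).2‖ < 6 / 5 := by
    intro v hv
    obtain ⟨h1, h2⟩ := hv
    rw [hQn]
    simp only [F8_th']
    constructor
    · exact lt_min (by linarith) (by linarith)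
    · exact min_lt_of_right_lt (by linarith)
  have hc := B0b_conj hN (a := 34) (b := 10) (by norm_num) (by norm_num) (by linarith) P Q hQP hPQ hPl hQl
    (fun p q h => h)
  have hc2 : NP (34 * ε) (34 * 10 * L) ({c} ×ˢ sh V) (fun p => P (f (Q p))) (fun p => P (f' (Q p))) := by
    refine B0b_mono hc le_rfl le_rfl ?_
    rintro ⟨x, v⟩ ⟨hx, hv⟩
    simp only [mem_singleton_iff] at hx
    subst hx
    exact ⟨rfl, hthin v hv⟩
  obtain ⟨g1, g2, g3⟩ := hG c (34 * ε) (34 * 10 * L) (by linarith) (by linarith) (by linarith) hc2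
  have hball : ∀ v : V, ‖v‖ < 6 / 5 → ‖(P (c, v)).2‖ < 2 := by
    intro v hv
    rw [hPn]
    simp only [F8_th]
    exact max_lt (by linarith) (by linarith)
  refine ⟨?_, ?_, ?_⟩
  · have := B0b_conj g1 (a := 10) (b := 34) (by norm_num) (by norm_num) (by positivity) Q P hPQ hQP hQl hPl
      (fun p q h => h)
    refine B0b_mono this (by linarith) ?_ ?_
    · have h3 : (0 : ℝ) ≤ L ^ 3 := by positivity
      nlinarith
    · rintro ⟨x, v⟩ ⟨hx, hv⟩
      simp only [mem_singleton_iff] at hx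
      subst hx
      refine ⟨rfl, ?_⟩
      simp only [mem_ball_zero_iff] at hv ⊢
      exact hball v hv
  · intro v h1 h2
    have hw : P (c, v) = (c, (P (c, v)).2) := rfl
    have h45 : 4 / 5 ≤ ‖(P (c, v)).2‖ := by
      rw [hPn]
      simp only [F8_th]
      exact le_max_of_le_right (by linarith)
    obtain ⟨e1, e2⟩ := g2 (P (c, v)).2 h45 (hball v h2)
    rw [← hw] at e1 e2
    constructor
    · show Q (G (P (c, v))) = _
      rw [e1]; simp only [hQP]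
    · show Q (G' (P (c, v))) = _
      rw [e2]; simp only [hQP]
  · intro hid v hv
    have key := g3 (by
      intro v hv
      obtain ⟨a1, a2⟩ := hthin v hv
      have hw : Q (c, v) = (c, (Q (c, v)).2) := rfl
      obtain ⟨b1, b2⟩ := hid (Q (c, v)).2 a1 a2
      rw [← hw] at b1 b2
      constructor
      · simp only [b1, hPQ]
      · simp only [b2, hPQ])
    have hw : P (c, v) = (c, (P (c, v)).2) := rfl
    obtain ⟨e1, e2⟩ := key (P (c, v)).2 (hball v hv)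
    rw [← hw] at e1 e2
    constructor
    · show Q (G (P (c, v))) = _
      rw [e1, hQP]
    · show Q (G' (P (c, v))) = _
      rw [e2, hQP]

end H80.LD

end S_H80_LD_F8

section S_H80_LD_T0f

/-!
# T0f: what F8 gives
-/

open Filter Topology Metric Set

namespace H80.LD

section
variable {X : Type*} [NormedAddCommGroup X] {D : Type*} [Fintype D]

theorem T0_fills (f f' : X × (D → ℝ) → X × (D → ℝ)) (hf : ∀ p, (f p).1 = p.1) (hf' : ∀ p, (f' p).1 = p.1) :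
    ∃ F F' : X × (D → ℝ) → X × (D → ℝ), Fills f f' F F' := by
  obtain ⟨F, F', h1, h2, h3⟩ := F8_fill f f' hf hf'
  exact ⟨F, F', h1, h2, fun c ε L a b d e => (h3 c ε L a b d e).1, fun c ε L a b d e => (h3 c ε L a b d e).2.1,
    fun c ε L a b d e => (h3 c ε L a b d e).2.2⟩

end

end H80.LD

end S_H80_LD_T0f

section S_H80_LD_T4

/-!
# T4: the transferred maps are inverse to each other

Notation of T3; `T p = tr Z ℓ need (lift W β r e) Φ p`, `T' = tr Z ℓ need (lift W β r e') Φ'`.  `N v = ‖sc (W p) v‖`.  Assume the `3C`-ball conditions at `p` and at `T p`.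
`N (T p - p) ≤ 10^5 C^3 ε ≤ 1/(200 C)`  (T3_disp; hypothesis `10^8 C^4 ε ≤ 1`).
Case 1: `need p.2`, `gau p.2 < 11/10`, `z, l, p'` as in T3.  `T p = bi (Φ p')`, `bo (T p) = Φ p' =: (c, v₁)`, `‖Φ p' - p'‖ ≤ 10^5 C^2 ε ≤ 1/1000`, `‖v₁‖ < 11/10 + 1/1000 < 6/5`.  By `box`, `T p` has the same box data and
  `gau (T p).2 = ‖v₁‖`.  (1a) `‖v₁‖ < 11/10`: `T' (T p) = bi (Φ' (Φ p')) = bi p' = p` by `inv` of the NP pair `Φ, Φ'` on `{c} ×ˢ ball 0 (6/5)`.
  (1b) `‖v₁‖ ≥ 11/10 ≥ 219/200`: `T' (T p) = lift e' (T p) = bi (bl e' z l (c, v₁)) = bi (Φ' (c, v₁)) = bi (Φ' (Φ p')) = p`.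
Case 2: not case 1: `T p = lift e p =: s`, `p` is good.  (2a) `need s.2` and `gau s.2 < 11/10`: `‖sc (W s) (p - s)‖ ≤ 2 N (p-s) < 1/(10 C)`, so by `T3_nbhd` `p` has the same box data `z, l`, `need p.2`, `gau p.2 < 6/5`; since not case 1,
  `gau p.2 ≥ 11/10`; `p' = bo z l p`, `Φ p' = bl e z l p' = bo (lift e p) = bo s`, and `T' s = bi (Φ' (bo s)) = bi (Φ' (Φ p')) = bi p' = p` (`inv`; `bo s` is in the ball as `gau s.2 < 11/10`).
  (2b) otherwise `T' s = lift e' s = p` by `T1_inv` (`e (β p) = β s ∈ U` by the hypothesis at `T p = s`).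
-/

open Filter Topology Metric Set

namespace H80.LD

variable {X : Type*} [NormedAddCommGroup X] {D : Type*} [Fintype D]

theorem T4_gau {Z ℓ : (D → ℝ) → D → ℝ} (p : X × (D → ℝ)) (z l : D → ℝ) (hz : Z p.2 = z) (hl : ℓ p.2 = l) :
    gau Z ℓ p.2 = ‖(bo z l p).2‖ := by
  subst hz hl
  rfl

theorem T4_snd {X V : Type*} [NormedAddCommGroup X] [NormedAddCommGroup V] (a b : X × V) : ‖(a - b).2‖ ≤ ‖a - b‖ := by
  rw [Prod.norm_def]
  exact le_max_right _ _

theorem T4_pow {C ε : ℝ} (hC : 1 ≤ C) (hε0 : 0 ≤ ε) (hε1 : 10 ^ 8 * C ^ 4 * ε ≤ 1) : 10 ^ 8 * (C ^ 2 * ε) ≤ 1 := by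
  have h1 : C ^ 2 ≤ C ^ 4 := pow_le_pow_right₀ hC (by norm_num)
  have h2 : C ^ 2 * ε ≤ C ^ 4 * ε := mul_le_mul_of_nonneg_right h1 hε0
  nlinarith

/-- the pair of fillings on the ball -/
theorem T4_np {W W' : X × (D → ℝ) → D → ℝ} {β : X × (D → ℝ) → X × (D → ℝ)} {Z ℓ : (D → ℝ) → D → ℝ}
    {need : (D → ℝ) → Prop} {r C : ℝ} (h : PImm W W' β Z ℓ need r C) {ε L : ℝ} {U : Set (X × (D → ℝ))}
    {e e' : X × (D → ℝ) → X × (D → ℝ)} (hN : NI W' ε L U e e') (hε0 : 0 ≤ ε) (hε : C * ε ≤ r / 32)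
    (hε1 : 10 ^ 8 * C ^ 4 * ε ≤ 1) (hL : 1 ≤ L) (Φ Φ' : (D → ℝ) → (D → ℝ) → X × (D → ℝ) → X × (D → ℝ))
    (hΦ : ∀ z l, Fills (bl W β r e z l) (bl W β r e' z l) (Φ z l) (Φ' z l))
    (p : X × (D → ℝ)) (hp : ∀ q : X × (D → ℝ), ‖sc (W p) (q - p)‖ ≤ 3 * C → β q ∈ U) (hn : need p.2)
    (hg : gau Z ℓ p.2 < 6 / 5) :
    NP (10 ^ 5 * (C ^ 2 * ε)) (10 ^ 16 * (C ^ 4 * L) ^ 3) ({p.1} ×ˢ ball (0 : D → ℝ) (6 / 5))
      (Φ (Z p.2) (ℓ p.2)) (Φ' (Z p.2) (ℓ p.2)) ∧
    ∀ v : D → ℝ, 219 / 200 ≤ ‖v‖ → ‖v‖ < 6 / 5 →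
      Φ (Z p.2) (ℓ p.2) (p.1, v) = bl W β r e (Z p.2) (ℓ p.2) (p.1, v) ∧
      Φ' (Z p.2) (ℓ p.2) (p.1, v) = bl W β r e' (Z p.2) (ℓ p.2) (p.1, v) := by
  have hC := h.C1
  have h0 := T4_pow hC hε0 hε1
  have hstar := (T3_star h hN hε hL p hp hn hg).2
  have hCL : 1 ≤ C ^ 4 * L := by
    have : 1 ≤ C ^ 4 := one_le_pow₀ hC
    nlinarith
  have h1 : 0 ≤ C ^ 2 * ε := by positivity
  have h2 : C ^ 2 * ε ≤ 1 / 3400 := by linarith
  exact ⟨(hΦ _ _).np p.1 _ _ hCL h1 h2 hstar, (hΦ _ _).eq p.1 _ _ hCL h1 h2 hstar⟩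

theorem T4_inv {W W' : X × (D → ℝ) → D → ℝ} {β : X × (D → ℝ) → X × (D → ℝ)} {Z ℓ : (D → ℝ) → D → ℝ}
    {need : (D → ℝ) → Prop} {r C : ℝ} (h : PImm W W' β Z ℓ need r C) {ε L : ℝ} {U : Set (X × (D → ℝ))}
    {e e' : X × (D → ℝ) → X × (D → ℝ)} (hN : NI W' ε L U e e') (hε0 : 0 ≤ ε) (hε : C * ε ≤ r / 32)
    (hε1 : 10 ^ 8 * C ^ 4 * ε ≤ 1) (hL : 1 ≤ L) (Φ Φ' : (D → ℝ) → (D → ℝ) → X × (D → ℝ) → X × (D → ℝ))
    (hΦ : ∀ z l, Fills (bl W β r e z l) (bl W β r e' z l) (Φ z l) (Φ' z l))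
    (p : X × (D → ℝ)) (hp : ∀ q : X × (D → ℝ), ‖sc (W p) (q - p)‖ ≤ 3 * C → β q ∈ U)
    (hp' : ∀ q : X × (D → ℝ), ‖sc (W (tr Z ℓ need (lift W β r e) Φ p)) (q - tr Z ℓ need (lift W β r e) Φ p)‖ ≤ 3 * C →
      β q ∈ U) :
    tr Z ℓ need (lift W β r e') Φ' (tr Z ℓ need (lift W β r e) Φ p) = p := by
  have hC := h.C1
  have h0 := T4_pow hC hε0 hε1
  by_cases hc1 : need p.2 ∧ gau Z ℓ p.2 < 11 / 10
  · -- case 1
    obtain ⟨hn, hg⟩ := hc1
    have hg' : gau Z ℓ p.2 < 6 / 5 := hg.trans (by norm_num)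
    obtain ⟨hnp, heq⟩ := T4_np h hN hε0 hε hε1 hL Φ Φ' hΦ p hp hn hg'
    have hTp : tr Z ℓ need (lift W β r e) Φ p
        = bi (Z p.2) (ℓ p.2) (Φ (Z p.2) (ℓ p.2) (bo (Z p.2) (ℓ p.2) p)) := by
      unfold tr
      rw [if_pos ⟨hn, hg⟩]
    rw [hTp]
    have hlp : ∀ i, 0 < ℓ p.2 i := h.lpos p.2
    have hgp : gau Z ℓ p.2 = ‖(bo (Z p.2) (ℓ p.2) p).2‖ := T4_gau p _ _ rfl rfl
    obtain ⟨z, hz⟩ : ∃ z, z = Z p.2 := ⟨_, rfl⟩
    obtain ⟨l, hl⟩ : ∃ l, l = ℓ p.2 := ⟨_, rfl⟩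
    simp only [← hz, ← hl] at hnp heq hlp hgp ⊢
    have hp'1 : (bo z l p).1 = p.1 := rfl
    have hmem : bo z l p ∈ ({p.1} ×ˢ ball (0 : D → ℝ) (6 / 5) : Set (X × (D → ℝ))) := by
      refine ⟨rfl, ?_⟩
      rw [mem_ball_zero_iff, ← hgp]
      exact hg'
    have hdisp := hnp.disp _ hmem
    have hv1 : ‖(Φ z l (bo z l p)).2‖ < 6 / 5 := by
      have a1 := T4_snd (Φ z l (bo z l p)) (bo z l p)
      have a2 : ‖(Φ z l (bo z l p)).2‖ ≤ ‖(Φ z l (bo z l p) - bo z l p).2‖ + ‖(bo z l p).2‖ := by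
        have : (Φ z l (bo z l p)).2 = (Φ z l (bo z l p) - bo z l p).2 + (bo z l p).2 := by
          rw [Prod.snd_sub]; abel
        calc ‖(Φ z l (bo z l p)).2‖ = ‖(Φ z l (bo z l p) - bo z l p).2 + (bo z l p).2‖ := by rw [← this]
          _ ≤ _ := norm_add_le _ _
      rw [← hgp] at a2
      linarith
    have hv2 : (Φ z l (bo z l p)).1 = p.1 := (hΦ z l).pres _
    have hmem2 : Φ z l (bo z l p) ∈ ({p.1} ×ˢ ball (0 : D → ℝ) (6 / 5) : Set (X × (D → ℝ))) := by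
      refine ⟨hv2, ?_⟩
      rw [mem_ball_zero_iff]
      exact hv1
    have hinv : Φ' z l (Φ z l (bo z l p)) = bo z l p := hnp.inv _ hmem hmem2
    obtain ⟨s, hs⟩ : ∃ s, s = bi z l (Φ z l (bo z l p)) := ⟨_, rfl⟩
    have hbos : bo z l s = Φ z l (bo z l p) := by rw [hs]; exact T0b_bobi z l hlp _
    rw [← hs]
    have hbox : ∀ i, |s.2 i - z i| < 6 / 5 * l i := by
      rw [← T0b_box_iff z l hlp (6 / 5) (by norm_num) s, hbos]
      exact hv1
    have hb := h.box p.2 s.2 hn (by rw [← hz, ← hl]; exact hbox)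
    rw [← hz, ← hl] at hb
    obtain ⟨hZs, hls, hns⟩ := hb
    have hgs : gau Z ℓ s.2 = ‖(Φ z l (bo z l p)).2‖ := by
      rw [T4_gau s z l hZs hls, hbos]
    by_cases hsm : ‖(Φ z l (bo z l p)).2‖ < 11 / 10
    · have : tr Z ℓ need (lift W β r e') Φ' s = bi z l (Φ' z l (bo z l s)) := by
        unfold tr
        rw [if_pos ⟨hns, by rw [hgs]; exact hsm⟩, hZs, hls]
      rw [this, hbos, hinv]
      exact T0b_bibo z l hlp p
    · have : tr Z ℓ need (lift W β r e') Φ' s = lift W β r e' s := by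
        unfold tr
        rw [if_neg]
        rintro ⟨_, h2⟩
        rw [hgs] at h2
        exact hsm h2
      rw [this]
      push Not at hsm
      have h3 := (heq (Φ z l (bo z l p)).2 (by linarith) hv1).2
      have h4 : (p.1, (Φ z l (bo z l p)).2) = Φ z l (bo z l p) := by
        rw [← hv2]
      rw [h4, hinv] at h3
      unfold bl at h3
      rw [← hs] at h3
      calc lift W β r e' s = bi z l (bo z l (lift W β r e' s)) := (T0b_bibo z l hlp _).symm
        _ = bi z l (bo z l p) := by rw [← h3]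
        _ = p := T0b_bibo z l hlp p
  · -- case 2
    have hTp : tr Z ℓ need (lift W β r e) Φ p = lift W β r e p := by
      unfold tr
      rw [if_neg hc1]
    rw [hTp] at hp' ⊢
    have hgood : need p.2 → 1 ≤ gau Z ℓ p.2 := by
      intro hn
      by_contra hlt
      push Not at hlt
      exact hc1 ⟨hn, by linarith⟩
    have hU : β p ∈ U := hp p (by rw [T0b_self]; positivity)
    obtain ⟨hβs, hsp⟩ := T1_exists h hN hε p hgood hU
    have hUs : β (lift W β r e p) ∈ U := hp' _ (by rw [T0b_self]; positivity)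
    obtain ⟨s, hs⟩ : ∃ s, s = lift W β r e p := ⟨_, rfl⟩
    rw [← hs] at hβs hsp hUs ⊢
    by_cases hc2 : need s.2 ∧ gau Z ℓ s.2 < 11 / 10
    · obtain ⟨hns, hgs⟩ := hc2
      have hr1 := h.r1
      have hslow := h.slow p s (by linarith)
      have h2 : ‖sc (W s) (p - s)‖ ≤ 2 * ‖sc (W p) (p - s)‖ :=
        T0b_mono (W s) (W p) 2 (by norm_num) (fun i => (h.pos s i).le) hslow _
      rw [T0b_symm (W p)] at h2
      have h3 : ‖sc (W s) (p - s)‖ < 1 / (10 * C) := by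
        have hC0 : 0 < 10 * C := by positivity
        rw [lt_div_iff₀ hC0]
        have : ‖sc (W s) (p - s)‖ ≤ 2 * (C * ε) := by linarith
        have h4 : ‖sc (W s) (p - s)‖ * (10 * C) ≤ 2 * (C * ε) * (10 * C) :=
          mul_le_mul_of_nonneg_right this hC0.le
        have h5 : 2 * (C * ε) * (10 * C) = 20 * (C ^ 2 * ε) := by ring
        rw [h5] at h4
        linarith
      obtain ⟨hZ, hℓ, hn, hg⟩ := T3_nbhd h p s hns hgs h3
      have hg2 : 11 / 10 ≤ gau Z ℓ p.2 := by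
        by_contra hlt
        push Not at hlt
        exact hc1 ⟨hn, hlt⟩
      obtain ⟨hnp, heq⟩ := T4_np h hN hε0 hε hε1 hL Φ Φ' hΦ p hp hn hg
      have hlp : ∀ i, 0 < ℓ p.2 i := h.lpos p.2
      have hgp : gau Z ℓ p.2 = ‖(bo (Z p.2) (ℓ p.2) p).2‖ := T4_gau p _ _ rfl rfl
      have hgs' : gau Z ℓ s.2 = ‖(bo (Z p.2) (ℓ p.2) s).2‖ := T4_gau s _ _ hZ.symm hℓ.symm
      have htr : tr Z ℓ need (lift W β r e') Φ' s
          = bi (Z p.2) (ℓ p.2) (Φ' (Z p.2) (ℓ p.2) (bo (Z p.2) (ℓ p.2) s)) := by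
        unfold tr
        rw [if_pos ⟨hns, hgs⟩, hZ, hℓ]
      rw [htr]
      obtain ⟨z, hz⟩ : ∃ z, z = Z p.2 := ⟨_, rfl⟩
      obtain ⟨l, hl⟩ : ∃ l, l = ℓ p.2 := ⟨_, rfl⟩
      simp only [← hz, ← hl] at hnp heq hlp hgp hgs' ⊢
      have hmem : bo z l p ∈ ({p.1} ×ˢ ball (0 : D → ℝ) (6 / 5) : Set (X × (D → ℝ))) := by
        refine ⟨rfl, ?_⟩
        rw [mem_ball_zero_iff, ← hgp]
        exact hg
      have hΦp : Φ z l (bo z l p) = bo z l s := by
        have h6 := (heq (bo z l p).2 (by rw [← hgp]; linarith) (by rw [← hgp]; exact hg)).1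
        have h7 : (p.1, (bo z l p).2) = bo z l p := rfl
        rw [h7] at h6
        unfold bl at h6
        rw [T0b_bibo z l hlp p, ← hs] at h6
        exact h6
      have hs1 : s.1 = p.1 := by
        rw [hs]
        exact T1_pres W β r e h.pres hN.pres p
      have hmem2 : Φ z l (bo z l p) ∈ ({p.1} ×ˢ ball (0 : D → ℝ) (6 / 5) : Set (X × (D → ℝ))) := by
        rw [hΦp]
        refine ⟨hs1, ?_⟩
        rw [mem_ball_zero_iff, ← hgs']
        linarith
      have hinv : Φ' z l (Φ z l (bo z l p)) = bo z l p := hnp.inv _ hmem hmem2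
      rw [← hΦp, hinv]
      exact T0b_bibo z l hlp p
    · have : tr Z ℓ need (lift W β r e') Φ' s = lift W β r e' s := by
        unfold tr
        rw [if_neg hc2]
      rw [this, hs]
      exact T1_inv h hN hε p hgood hU (by rw [← hβs]; exact hUs)

end H80.LD

end S_H80_LD_T4

section S_H80_LD_T5

/-!
# T5: the transfer theorem

Choose `Φ, Φ'` by `T0_fills` (`choose`; `bl` preserves the first component by `T1_pres`, `bo`, `bi`), `E = tr Z ℓ need (lift W β r e) Φ`, `E' = tr Z ℓ need (lift W β r e') Φ'`, `R = 3 C`,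
`ε₀ = min (r / (32 C)) (1 / (10^8 C^4))`, `C' = 10^16 C^14 L^3` (`10^5 C^3 ≤ C'`).  T3 and T4 (for the primed map use `NI.symm`, `Fills.symm`) give the NI property.
* pres: `tr` preserves the first component: `bi`, `Φ`, `bo`, `lift` do.
* identity property: `p` in the box (`need`, `gau < 11/10`): `bl e z l (c, v) = (c, v)` for `21/20 < ‖v‖ < 6/5` (and same for `e'`) by `T1_id` at `q = bi z l (c, v)`, which is a good point (`box`, `gau = ‖v‖`) and in the `3C`-ball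
  (`T3_star`); `idp` gives `Φ (bo p) = bo p`.  Not in the box: `T1_id`.
* last property: `not need p.2`: `E p = lift e p = e p` by `T1_eq`.
-/

open Filter Topology Metric Set

namespace H80.LD

variable {X : Type*} [NormedAddCommGroup X] {D : Type*} [Fintype D]

theorem T5_bl_pres (W : X × (D → ℝ) → D → ℝ) (β : X × (D → ℝ) → X × (D → ℝ)) (r : ℝ)
    (e : X × (D → ℝ) → X × (D → ℝ)) (hβ : ∀ p, (β p).1 = p.1) (he : ∀ p, (e p).1 = p.1) (z l : D → ℝ)
    (p : X × (D → ℝ)) : (bl W β r e z l p).1 = p.1 := by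
  have h1 : (bl W β r e z l p).1 = (lift W β r e (bi z l p)).1 := rfl
  have h2 : (bi z l p).1 = p.1 := rfl
  rw [h1, T1_pres W β r e hβ he, h2]

theorem T5_tr_pres (W : X × (D → ℝ) → D → ℝ) (β : X × (D → ℝ) → X × (D → ℝ)) (Z ℓ : (D → ℝ) → D → ℝ)
    (need : (D → ℝ) → Prop) (r : ℝ)
    (e : X × (D → ℝ) → X × (D → ℝ)) (hβ : ∀ p, (β p).1 = p.1) (he : ∀ p, (e p).1 = p.1)
    (Φ : (D → ℝ) → (D → ℝ) → X × (D → ℝ) → X × (D → ℝ)) (hΦ : ∀ z l p, (Φ z l p).1 = p.1)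
    (p : X × (D → ℝ)) : (tr Z ℓ need (lift W β r e) Φ p).1 = p.1 := by
  unfold tr
  split_ifs with hc
  · have h1 : (bi (Z p.2) (ℓ p.2) (Φ (Z p.2) (ℓ p.2) (bo (Z p.2) (ℓ p.2) p))).1 =
        (Φ (Z p.2) (ℓ p.2) (bo (Z p.2) (ℓ p.2) p)).1 := rfl
    have h2 : (bo (Z p.2) (ℓ p.2) p).1 = p.1 := rfl
    rw [h1, hΦ, h2]
  · exact T1_pres W β r e hβ he p

theorem T5_bl_id {W W' : X × (D → ℝ) → D → ℝ} {β : X × (D → ℝ) → X × (D → ℝ)} {Z ℓ : (D → ℝ) → D → ℝ}
    {need : (D → ℝ) → Prop} {r C : ℝ} (h : PImm W W' β Z ℓ need r C)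
    (e : X × (D → ℝ) → X × (D → ℝ)) (y : D → ℝ) (hn : need y) (c : X) (v : D → ℝ) (h1 : 21 / 20 < ‖v‖)
    (h2 : ‖v‖ < 6 / 5) (he : e (β (bi (Z y) (ℓ y) (c, v))) = β (bi (Z y) (ℓ y) (c, v))) :
    bl W β r e (Z y) (ℓ y) (c, v) = (c, v) := by
  have hb := T0b_bobi (Z y) (ℓ y) (h.lpos y) (c, v)
  have hbox : ∀ i, |(bi (Z y) (ℓ y) (c, v)).2 i - Z y i| < 6 / 5 * ℓ y i := by
    apply (T0b_box_iff (Z y) (ℓ y) (h.lpos y) (6 / 5) (by norm_num) _).1
    rw [hb]
    exact h2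
  obtain ⟨hZ, hl, hnq⟩ := h.box y (bi (Z y) (ℓ y) (c, v)).2 hn hbox
  have hgau : gau Z ℓ (bi (Z y) (ℓ y) (c, v)).2 = ‖v‖ := by
    have h3 : gau Z ℓ (bi (Z y) (ℓ y) (c, v)).2 = ‖(bo (Z y) (ℓ y) (bi (Z y) (ℓ y) (c, v))).2‖ := by
      unfold gau bo
      rw [hZ, hl]
    rw [h3, hb]
  unfold bl
  rw [T1_id h (bi (Z y) (ℓ y) (c, v)) (fun _ => by rw [hgau]; linarith) he, hb]

theorem T5_transfer {W W' : X × (D → ℝ) → D → ℝ} {β : X × (D → ℝ) → X × (D → ℝ)} {Z ℓ : (D → ℝ) → D → ℝ}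
    {need : (D → ℝ) → Prop} {r C : ℝ} (h : PImm W W' β Z ℓ need r C) (L : ℝ) (hL : 1 ≤ L) :
    ∃ R : ℝ, 1 ≤ R ∧ ∃ ε₀ : ℝ, 0 < ε₀ ∧ ∃ C' : ℝ, 1 ≤ C' ∧ ∀ ε : ℝ, 0 < ε → ε ≤ ε₀ →
      ∀ (U : Set (X × (D → ℝ))) (e e' : X × (D → ℝ) → X × (D → ℝ)), NI W' ε L U e e' →
      ∃ E E' : X × (D → ℝ) → X × (D → ℝ),
        NI W (C' * ε) C' {p | ∀ q : X × (D → ℝ), ‖sc (W p) (q - p)‖ ≤ R → β q ∈ U} E E' ∧
        (∀ p : X × (D → ℝ), (∀ q : X × (D → ℝ), ‖sc (W p) (q - p)‖ ≤ R → β q ∈ U) →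
          (∀ q : X × (D → ℝ), ‖sc (W p) (q - p)‖ ≤ R → e (β q) = β q ∧ e' (β q) = β q) → E p = p ∧ E' p = p) ∧
        (∀ p : X × (D → ℝ), (∀ q : X × (D → ℝ), ‖sc (W p) (q - p)‖ ≤ R → β q ∈ U) → ¬ need p.2 →
          (∀ q : X × (D → ℝ), ‖sc (W p) (q - p)‖ ≤ r → β q = q) → E p = e p ∧ E' p = e' p) := by
  have hC1 : 1 ≤ C := h.C1
  have hC0 : 0 < C := by linarith
  have hr0 : 0 < r := h.r0
  have hC4 : 1 ≤ C ^ 4 := one_le_pow₀ hC1
  have hC14 : 1 ≤ C ^ 14 := one_le_pow₀ hC1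
  have hL3 : 1 ≤ L ^ 3 := one_le_pow₀ hL
  refine ⟨3 * C, by linarith, min (r / (32 * C)) (1 / (10 ^ 8 * C ^ 4)), ?_, 10 ^ 16 * C ^ 14 * L ^ 3, ?_, ?_⟩
  · exact lt_min (by positivity) (by positivity)
  · have h1 : 1 ≤ C ^ 14 * L ^ 3 := one_le_mul_of_one_le_of_one_le hC14 hL3
    nlinarith
  intro ε hε0 hεle U e e' hN
  have hεa : ε ≤ r / (32 * C) := hεle.trans (min_le_left _ _)
  have hεb : ε ≤ 1 / (10 ^ 8 * C ^ 4) := hεle.trans (min_le_right _ _)
  have hε : C * ε ≤ r / 32 := by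
    rw [le_div_iff₀ (by positivity)] at hεa
    rw [le_div_iff₀ (by norm_num)]
    linarith
  have hε1 : 10 ^ 8 * C ^ 4 * ε ≤ 1 := by
    rw [le_div_iff₀ (by positivity)] at hεb
    linarith
  have hC24 : C ^ 2 ≤ C ^ 4 := pow_le_pow_right₀ hC1 (by norm_num)
  have hε2 : C ^ 2 * ε ≤ 1 / 3400 := by
    have h1 : C ^ 2 * ε ≤ C ^ 4 * ε := mul_le_mul_of_nonneg_right hC24 hε0.le
    linarith
  have hε2' : 0 ≤ C ^ 2 * ε := by positivity
  have hL4 : 1 ≤ C ^ 4 * L := one_le_mul_of_one_le_of_one_le hC4 hL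
  have hNs := hN.symm
  choose Φ Φ' hΦ using fun z l => T0_fills (bl W β r e z l) (bl W β r e' z l)
    (T5_bl_pres W β r e h.pres hN.pres z l) (T5_bl_pres W β r e' h.pres hN.pres' z l)
  have hΦs : ∀ z l, Fills (bl W β r e' z l) (bl W β r e z l) (Φ' z l) (Φ z l) := fun z l => (hΦ z l).symm
  refine ⟨tr Z ℓ need (lift W β r e) Φ, tr Z ℓ need (lift W β r e') Φ', ?_, ?_, ?_⟩
  · have hdC : 10 ^ 5 * C ^ 3 * ε ≤ 10 ^ 16 * C ^ 14 * L ^ 3 * ε := by
      apply mul_le_mul_of_nonneg_right _ hε0.le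
      have h1 : C ^ 3 ≤ C ^ 14 := pow_le_pow_right₀ hC1 (by norm_num)
      have h2 : C ^ 14 ≤ C ^ 14 * L ^ 3 := le_mul_of_one_le_right (by positivity) hL3
      have h3 : 0 ≤ C ^ 14 * L ^ 3 := by positivity
      nlinarith
    exact
      { pres := T5_tr_pres W β Z ℓ need r e h.pres hN.pres Φ (fun z l => (hΦ z l).pres)
        pres' := T5_tr_pres W β Z ℓ need r e' h.pres hN.pres' Φ' (fun z l => (hΦ z l).pres')
        disp := fun p hp => (T3_disp h hN hε0.le hε hε2 hL Φ Φ' hΦ p hp).trans hdC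
        disp' := fun p hp => (T3_disp h hNs hε0.le hε hε2 hL Φ' Φ hΦs p hp).trans hdC
        lip := fun p hp => T3_lip h hN hε0.le hε hε2 hL Φ Φ' hΦ p hp
        lip' := fun p hp => T3_lip h hNs hε0.le hε hε2 hL Φ' Φ hΦs p hp
        inv := fun p hp hp' => T4_inv h hN hε0.le hε hε1 hL Φ Φ' hΦ p hp hp'
        inv' := fun p hp hp' => T4_inv h hNs hε0.le hε hε1 hL Φ' Φ hΦs p hp hp' }
  · intro p hp hid
    have hself : ‖sc (W p) (p - p)‖ ≤ 3 * C := by
      rw [T0b_self]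
      positivity
    by_cases hc : need p.2 ∧ gau Z ℓ p.2 < 11 / 10
    · have hn := hc.1
      have hg : gau Z ℓ p.2 < 6 / 5 := hc.2.trans (by norm_num)
      obtain ⟨hs1, hs2⟩ := T3_star h hN hε hL p hp hn hg
      have hbl : ∀ v : D → ℝ, 21 / 20 < ‖v‖ → ‖v‖ < 6 / 5 →
          bl W β r e (Z p.2) (ℓ p.2) (p.1, v) = (p.1, v) ∧
          bl W β r e' (Z p.2) (ℓ p.2) (p.1, v) = (p.1, v) := by
        intro v hv1 hv2
        have hv3 := hid _ (hs1 v hv2)
        exact ⟨T5_bl_id h e p.2 hn p.1 v hv1 hv2 hv3.1, T5_bl_id h e' p.2 hn p.1 v hv1 hv2 hv3.2⟩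
      have hgau : ‖(bo (Z p.2) (ℓ p.2) p).2‖ < 6 / 5 := hg
      have hfin := (hΦ (Z p.2) (ℓ p.2)).idp p.1 (C ^ 2 * ε) (C ^ 4 * L) hL4 hε2' hε2 hs2 hbl
        (bo (Z p.2) (ℓ p.2) p).2 hgau
      have hbo : bo (Z p.2) (ℓ p.2) p = (p.1, (bo (Z p.2) (ℓ p.2) p).2) := rfl
      rw [← hbo] at hfin
      have hbb := T0b_bibo (Z p.2) (ℓ p.2) (h.lpos p.2) p
      constructor
      · unfold tr
        rw [if_pos hc, hfin.1, hbb]
      · unfold tr
        rw [if_pos hc, hfin.2, hbb]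
    · have hg : need p.2 → 1 ≤ gau Z ℓ p.2 := by
        intro hn
        by_contra hlt
        push Not at hlt
        exact hc ⟨hn, hlt.trans (by norm_num)⟩
      have he := hid p hself
      constructor
      · unfold tr
        rw [if_neg hc]
        exact T1_id h p hg he.1
      · unfold tr
        rw [if_neg hc]
        exact T1_id h p hg he.2
  · intro p hp hn hidr
    have hself : ‖sc (W p) (p - p)‖ ≤ 3 * C := by
      rw [T0b_self]
      positivity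
    have hU : β p ∈ U := hp p hself
    have hc : ¬ (need p.2 ∧ gau Z ℓ p.2 < 11 / 10) := fun hc => hn hc.1
    constructor
    · unfold tr
      rw [if_neg hc]
      exact T1_eq h hN hε p (fun hn' => absurd hn' hn) hU hidr
    · unfold tr
      rw [if_neg hc]
      exact T1_eq h hNs hε p (fun hn' => absurd hn' hn) hU hidr

end H80.LD

end S_H80_LD_T5

section S_H80_LD_E4

/-!
# E4: tapering outside a separated family of balls

Same constants as in `BTStmt` (with `C * ε₀ ≤ η/2` in addition: `ε₀' = min ε₀ (η/(2 C))`).  For `z ∈ Zs` choose `F_z, F_z'` (`classical choose`).  `F p = F_z p` if there is `z ∈ Zs` with `p ∈ closedBall z ρ₂` (then `z` is unique: two such centres have distance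
`≤ 2 ρ₂ < 2 ρ₂ + 2 η`), `F p = p` otherwise; same for `F'`.
(1) If `z ∈ Zs`, `p ∈ ball z (ρ₂ + η)` then `F p = F_z p`, `F' p = F_z' p`: if `p ∈ closedBall z ρ₂` by definition; otherwise `F_z p = p`, and `p ∉ closedBall z' ρ₂` for `z' ≠ z` (`dist z z' ≥ 2 ρ₂ + 2 η`), so `F p = p`.
(2) If `p ∉ ball z (ρ₂ + η)` for all `z ∈ Zs` then `F = id`, `F' = id` on `ball p η`.
NP: at `p` of type (1): disp, lip from `F_z` (`F = F_z` near `p`, the ball is open); inv: if `p ∈ closedBall z ρ₂` then `F p = F_z p ∈ ball z (ρ₂ + η)` (`C ε ≤ η/2`), so `F' (F p) = F_z' (F_z p) = p`; if `p ∉ closedBall z ρ₂`: `F p = F_z p = p`, `F' p = F_z' p = p`.  Type (2): identity near `p`.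
Other properties: from those of `F_z`.
-/

open Filter Topology Metric Set

namespace H80.LD

private lemma E4_glue {E : Type*} [PseudoMetricSpace E] (Zs : Set E) (ρ η : ℝ) (hη : 0 < η)
    (hsep : ∀ z ∈ Zs, ∀ z' ∈ Zs, z ≠ z' → 2 * ρ + 2 * η ≤ dist z z') (Φ : E → E → E)
    (hΦ : ∀ z ∈ Zs, ∀ p, p ∉ closedBall z ρ → Φ z p = p) :
    ∃ F : E → E, (∀ z ∈ Zs, ∀ p ∈ ball z (ρ + η), F p = Φ z p) ∧
      (∀ p, (∀ z ∈ Zs, p ∉ closedBall z ρ) → F p = p) := by
  classical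
  refine ⟨fun p => if h : ∃ z ∈ Zs, p ∈ closedBall z ρ then Φ h.choose p else p, ?_, ?_⟩
  · intro z hz p hp
    by_cases h : ∃ z ∈ Zs, p ∈ closedBall z ρ
    · simp only [dif_pos h]
      have hc := h.choose_spec
      by_cases hzz : h.choose = z
      · rw [hzz]
      · exfalso
        have h1 := hsep _ hc.1 z hz hzz
        have h2 : dist p h.choose ≤ ρ := hc.2
        have h3 : dist p z < ρ + η := hp
        have h4 : dist h.choose z ≤ dist h.choose p + dist p z := dist_triangle _ _ _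
        rw [dist_comm h.choose p] at h4
        linarith
    · simp only [dif_neg h]
      have h5 : p ∉ closedBall z ρ := fun h6 => h ⟨z, hz, h6⟩
      exact (hΦ z hz p h5).symm
  · intro p hp
    have h : ¬ ∃ z ∈ Zs, p ∈ closedBall z ρ := by
      rintro ⟨z, hz, h1⟩
      exact hp z hz h1
    simp only [dif_neg h]

private lemma E4_half {X V : Type*} [NormedAddCommGroup X] [NormedAddCommGroup V]
    {ε' C ρ η : ℝ} (hC : 1 ≤ C) (hη : 0 < η) (hε' : ε' ≤ η / 2) (hε0 : 0 ≤ ε')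
    (Zs : Set (X × V)) (Φ Φ' : X × V → X × V → X × V)
    (hpres : ∀ z ∈ Zs, ∀ p, (Φ z p).1 = p.1) (hdisp : ∀ z ∈ Zs, ∀ p, ‖Φ z p - p‖ ≤ ε')
    (hlip : ∀ z ∈ Zs, ∀ p, ∀ᶠ q in 𝓝 p, ‖Φ z q - Φ z p‖ ≤ C * ‖q - p‖)
    (hinv : ∀ z ∈ Zs, ∀ p, Φ' z (Φ z p) = p)
    (hid : ∀ z ∈ Zs, ∀ p, p ∉ closedBall z ρ → Φ z p = p ∧ Φ' z p = p)
    (F F' : X × V → X × V)
    (hF : ∀ z ∈ Zs, ∀ p ∈ ball z (ρ + η), F p = Φ z p)
    (hF0 : ∀ p, (∀ z ∈ Zs, p ∉ closedBall z ρ) → F p = p)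
    (hF' : ∀ z ∈ Zs, ∀ p ∈ ball z (ρ + η), F' p = Φ' z p)
    (hF0' : ∀ p, (∀ z ∈ Zs, p ∉ closedBall z ρ) → F' p = p) :
    (∀ p, (F p).1 = p.1) ∧ (∀ p, ‖F p - p‖ ≤ ε') ∧
      (∀ p, ∀ᶠ q in 𝓝 p, ‖F q - F p‖ ≤ C * ‖q - p‖) ∧ ∀ p, F' (F p) = p := by
  have hcb : ∀ p : X × V, (∀ z ∈ Zs, p ∉ ball z (ρ + η)) → ∀ q, dist q p < η →
      ∀ z ∈ Zs, q ∉ closedBall z ρ := by
    intro p hp q hq z hz hqz
    apply hp z hz
    have h1 : dist q z ≤ ρ := hqz
    have h2 : dist p z ≤ dist p q + dist q z := dist_triangle _ _ _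
    rw [dist_comm p q] at h2
    exact mem_ball.2 (by linarith)
  have hdich : ∀ p : X × V, (∃ z ∈ Zs, p ∈ ball z (ρ + η)) ∨ (∀ z ∈ Zs, p ∉ ball z (ρ + η)) := by
    intro p
    by_cases h : ∃ z ∈ Zs, p ∈ ball z (ρ + η)
    · exact Or.inl h
    · right
      intro z hz hp
      exact h ⟨z, hz, hp⟩
  have hself : ∀ p : X × V, (∀ z ∈ Zs, p ∉ ball z (ρ + η)) → ∀ z ∈ Zs, p ∉ closedBall z ρ :=
    fun p hp => hcb p hp p (by rw [dist_self]; exact hη)
  refine ⟨?_, ?_, ?_, ?_⟩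
  · intro p
    rcases hdich p with ⟨z, hz, hp⟩ | hp
    · rw [hF z hz p hp]
      exact hpres z hz p
    · rw [hF0 p (hself p hp)]
  · intro p
    rcases hdich p with ⟨z, hz, hp⟩ | hp
    · rw [hF z hz p hp]
      exact hdisp z hz p
    · rw [hF0 p (hself p hp), sub_self, norm_zero]
      exact hε0
  · intro p
    rcases hdich p with ⟨z, hz, hp⟩ | hp
    · filter_upwards [isOpen_ball.mem_nhds hp, hlip z hz p] with q hq1 hq2
      rw [hF z hz q hq1, hF z hz p hp]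
      exact hq2
    · filter_upwards [ball_mem_nhds p hη] with q hq
      rw [hF0 q (hcb p hp q hq), hF0 p (hself p hp)]
      exact le_mul_of_one_le_left (norm_nonneg _) hC
  · intro p
    rcases hdich p with ⟨z, hz, hp⟩ | hp
    · rw [hF z hz p hp]
      by_cases hpz : p ∈ closedBall z ρ
      · have h1 : Φ z p ∈ ball z (ρ + η) := by
          have h2 : dist p z ≤ ρ := hpz
          have h3 : dist (Φ z p) p ≤ ε' := by
            rw [dist_eq_norm]
            exact hdisp z hz p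
          have h4 : dist (Φ z p) z ≤ dist (Φ z p) p + dist p z := dist_triangle _ _ _
          exact mem_ball.2 (by linarith)
        rw [hF' z hz _ h1]
        exact hinv z hz p
      · rw [(hid z hz p hpz).1, hF' z hz p hp, (hid z hz p hpz).2]
    · rw [hF0 p (hself p hp), hF0' p (hself p hp)]

theorem E4_ft (X : Type) [NormedAddCommGroup X] (D : Type) [Fintype D] (h : BTStmt X D) : FTStmt X D := by
  intro L hL ρ₁ ρ₂ η hρ₁ hρ₁₂ hη
  obtain ⟨ε₀, hε₀, C, hC, hbt⟩ := h L hL ρ₁ ρ₂ η hρ₁ hρ₁₂ hη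
  have hCpos : 0 < C := by linarith
  refine ⟨min ε₀ (η / (2 * C)), lt_min hε₀ (by positivity), C, hC, ?_⟩
  intro ε hε hεε Zs hsep U e e' hNP hZU
  have hε1 : ε ≤ ε₀ := hεε.trans (min_le_left _ _)
  have hε2 : C * ε ≤ η / 2 := by
    have h1 := hεε.trans (min_le_right _ _)
    rw [le_div_iff₀ (by positivity)] at h1
    linarith
  have hε3 : 0 ≤ C * ε := by positivity
  have hex : ∀ z : X × (D → ℝ), ∃ F F' : X × (D → ℝ) → X × (D → ℝ), z ∈ Zs →
      (NP (C * ε) C univ F F' ∧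
        (∀ p ∈ closedBall z ρ₁, F p = e p ∧ F' p = e' p) ∧
        (∀ p, p ∉ closedBall z ρ₂ → F p = p ∧ F' p = p) ∧
        (∀ p : X × (D → ℝ), (∀ q ∈ closedBall p η, e q = q ∧ e' q = q) → F p = p ∧ F' p = p)) := by
    intro z
    by_cases hz : z ∈ Zs
    · obtain ⟨F, F', h1⟩ := hbt ε hε hε1 z U e e' hNP (hZU z hz)
      exact ⟨F, F', fun _ => h1⟩
    · exact ⟨id, id, fun hz' => absurd hz' hz⟩
  choose Φ Φ' hΦ using hex
  obtain ⟨F, hF, hF0⟩ := E4_glue Zs ρ₂ η hη hsep Φ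
    (fun z hz p hp => ((hΦ z hz).2.2.1 p hp).1)
  obtain ⟨F', hF', hF0'⟩ := E4_glue Zs ρ₂ η hη hsep Φ'
    (fun z hz p hp => ((hΦ z hz).2.2.1 p hp).2)
  obtain ⟨a1, a2, a3, a4⟩ := E4_half hC hη hε2 hε3 Zs Φ Φ'
    (fun z hz p => (hΦ z hz).1.pres p) (fun z hz p => (hΦ z hz).1.disp p (mem_univ _))
    (fun z hz p => (hΦ z hz).1.lip p (mem_univ _))
    (fun z hz p => (hΦ z hz).1.inv p (mem_univ _) (mem_univ _))
    (fun z hz p hp => (hΦ z hz).2.2.1 p hp) F F' hF hF0 hF' hF0'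
  obtain ⟨b1, b2, b3, b4⟩ := E4_half hC hη hε2 hε3 Zs Φ' Φ
    (fun z hz p => (hΦ z hz).1.pres' p) (fun z hz p => (hΦ z hz).1.disp' p (mem_univ _))
    (fun z hz p => (hΦ z hz).1.lip' p (mem_univ _))
    (fun z hz p => (hΦ z hz).1.inv' p (mem_univ _) (mem_univ _))
    (fun z hz p hp => ((hΦ z hz).2.2.1 p hp).symm) F' F hF' hF0' hF hF0
  refine ⟨F, F', ⟨a1, b1, fun p _ => a2 p, fun p _ => b2 p, fun p _ => a3 p, fun p _ => b3 p,
    fun p _ _ => a4 p, fun p _ _ => b4 p⟩, ?_, ?_, ?_⟩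
  · intro z hz p hp
    have h1 : p ∈ ball z (ρ₂ + η) := by
      have h2 : dist p z ≤ ρ₁ := hp
      exact mem_ball.2 (by linarith)
    rw [hF z hz p h1, hF' z hz p h1]
    exact (hΦ z hz).2.1 p hp
  · intro p hp
    exact ⟨hF0 p hp, hF0' p hp⟩
  · intro p hp
    by_cases h1 : ∃ z ∈ Zs, p ∈ ball z (ρ₂ + η)
    · obtain ⟨z, hz, hpz⟩ := h1
      rw [hF z hz p hpz, hF' z hz p hpz]
      exact (hΦ z hz).2.2.2 p hp
    · have h2 : ∀ z ∈ Zs, p ∉ closedBall z ρ₂ := by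
        intro z hz hpz
        apply h1
        have h3 : dist p z ≤ ρ₂ := hpz
        exact ⟨z, hz, mem_ball.2 (by linarith)⟩
      exact ⟨hF0 p h2, hF0' p h2⟩

end H80.LD

end S_H80_LD_E4
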