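import Mathlib
import Pool.Agent.H80.LM.G01
import Pool.Agent.H80.LM.G06
import Pool.Agent.H80.LM.G07

/-! MP_816883_ag: this file joins several modules (see the folders H80/LD, H24/LS) to save build time. -/

section S_H80_LD_P6

/-!
# P6: Lipschitz dependence of the growing pattern on `c`

Closed level `i`; `c, c'` in the closed level `i` (`i ≤ max (c/Lp) 0 ≤ i + 1`, same for `c'`); `δ = |c - c'|/Lp`; `|am c - am c'| ≤ δ`, `|th i c - th i c'| ≤ δ`, `θ, A ∈ [0,1]`.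
* `|Wf i c x - Wf i c' x| ≤ 23 δ` (`P2_par`, `pw A θ z = WW A θ (fract z)`).
* `|1/sg c - 1/sg c'| ≤ δ` (`sg ≥ 1`, `1/sg c = 2^{-max(c/Lp) 0}`, `|2^{-a} - 2^{-b}| ≤ |a - b|`), so `|al i c - al i c'| ≤ 2 (δ + 46 δ) + 4 (3/2) (46 δ) ≤ 400 δ` (`Ip ≥ 1/2`, `|x/y - x'/y'| ≤ |x-x'|/y + |x'| |y-y'|/(y y')`).
* `x = lam' i * (m + u)`, `m = ⌊x / lam' i⌋`, `u ∈ [0,1)`: `P4_per` with `μ = 1/sg c`: `g1f i c x = lam' i * m + lam' i * sg c * G1 .. u`, `g2f i c x = lam' i * sg c * G2 .. u`, so with `|G1 u| ≤ 3`, `|G2 u| ≤ 1`, `P4_par`, `|lam' i * sg c - lam' i * sg c'| ≤ 2 Lam * δ` (`lam' i * sg c = Lam 2^θ`,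
  `|2^θ - 2^θ'| ≤ 2 |θ-θ'|`): `|g1f i c x - g1f i c' x| ≤ 2 Lam * 3 δ + 2 Lam (400 δ + 16 δ + 168 δ) ≤ 2000 Lam δ = 20 |c - c'|` (`Lam/Lp = 1/100`).
* global: for all real `c, c'`: `B0a_lip_convex` on `univ` for the function `c ↦ b1 c x` etc.: every `c` has a neighbourhood in which every `c'` lies together with `c` in a common closed level
  (if `c / Lp` is not a positive integer: the level `lev c` (for `c ≤ 0` level `0`); if `c / Lp = k ≥ 1`: level `k` for `c' ≥ c`, level `k - 1` for `c' ≤ c`), and on a closed level the functions are `g1f i` etc. by `P5_cons`.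
  Constant `KK = 10^9 ≥ 20`.
-/

open Filter Topology Metric Set MeasureTheory

namespace H80.LD

theorem P6_Lp : (0 : ℝ) < Lp ∧ Lam = Lp / 100 := by
  unfold Lp Lam
  constructor <;> norm_num

theorem P6_am (c c' : ℝ) : |am c - am c'| ≤ |c - c'| / Lp := by
  have hL := P6_Lp.1
  unfold am
  refine (K1_cl_lip _ _).trans (le_of_eq ?_)
  have e : 1 + c / Lp - (1 + c' / Lp) = (c - c') / Lp := by ring
  rw [e, abs_div, abs_of_pos hL]

theorem P6_max (c c' : ℝ) : |max (c / Lp) 0 - max (c' / Lp) 0| ≤ |c - c'| / Lp := by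
  have hL := P6_Lp.1
  refine (abs_max_sub_max_le_abs _ _ _).trans (le_of_eq ?_)
  rw [← sub_div, abs_div, abs_of_pos hL]

theorem P6_th (i : ℕ) (c c' : ℝ) : |th i c - th i c'| ≤ |c - c'| / Lp := by
  have e : th i c - th i c' = max (c / Lp) 0 - max (c' / Lp) 0 := by
    unfold th
    ring
  rw [e]
  exact P6_max c c'

theorem P6_sg_diff (c c' : ℝ) (h : c ≤ c') : 0 ≤ sg c' - sg c ∧
    sg c' - sg c ≤ sg c' * ((c' - c) / Lp) := by
  have hL := P6_Lp.1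
  have h1 := P5_sg_mono c c' h
  refine ⟨by linarith, ?_⟩
  have hs' := P5_sg c'
  rcases le_total 0 c with h0 | h0
  · have h2 := (P5_sg_diff c c' h0 h).2
    rw [mul_div_assoc] at h2
    exact h2
  · rcases le_total 0 c' with h0' | h0'
    · have h2 := (P5_sg_diff 0 c' le_rfl h0').2
      have h3 : sg c = sg 0 := by rw [P5_sg_neg c h0, P5_sg_neg 0 le_rfl]
      rw [h3]
      refine h2.trans ?_
      rw [mul_div_assoc]
      apply mul_le_mul_of_nonneg_left _ (by linarith)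
      apply div_le_div_of_nonneg_right _ hL.le
      linarith
    · rw [P5_sg_neg c h0, P5_sg_neg c' h0']
      have : 0 ≤ (c' - c) / Lp := div_nonneg (by linarith) hL.le
      linarith

theorem P6_inv (c c' : ℝ) : |1 / sg c - 1 / sg c'| ≤ |c - c'| / Lp := by
  have hL := P6_Lp.1
  have key : ∀ c c' : ℝ, c ≤ c' → |1 / sg c - 1 / sg c'| ≤ |c - c'| / Lp := by
    intro c c' h
    obtain ⟨h1, h2⟩ := P6_sg_diff c c' h
    have hs := P5_sg c
    have hs' := P5_sg c'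
    have h3 : 1 / sg c - 1 / sg c' = (sg c' - sg c) / (sg c * sg c') := by
      have a1 : sg c ≠ 0 := by linarith
      have a2 : sg c' ≠ 0 := by linarith
      field_simp
    rw [h3, abs_of_nonneg (div_nonneg h1 (by nlinarith)), div_le_iff₀ (by nlinarith)]
    have h4 : |c - c'| = c' - c := by
      rw [abs_sub_comm, abs_of_nonneg (by linarith)]
    rw [h4]
    have h5 : 0 ≤ (c' - c) / Lp := div_nonneg (by linarith) hL.le
    refine h2.trans ?_
    have h6 : 0 ≤ (c' - c) / Lp * sg c' := mul_nonneg h5 (by linarith)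
    nlinarith
  rcases le_total c c' with h | h
  · exact key c c' h
  · rw [abs_sub_comm, abs_sub_comm c c']
    exact key c' c h

theorem P6_S (i : ℕ) (c c' : ℝ) (h : (i : ℝ) ≤ max (c / Lp) 0) (h' : max (c / Lp) 0 ≤ i + 1)
    (k : (i : ℝ) ≤ max (c' / Lp) 0) (k' : max (c' / Lp) 0 ≤ i + 1) :
    |lam' i * sg c - lam' i * sg c'| ≤ 2 * Lam * (|c - c'| / Lp) := by
  have hL := P6_Lp.1
  have hlam : 0 < lam' i := by
    unfold lam' Lam
    positivity
  have key : ∀ c c' : ℝ, c ≤ c' → lam' i * sg c' ≤ 2 * Lam →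
      |lam' i * sg c - lam' i * sg c'| ≤ 2 * Lam * (|c - c'| / Lp) := by
    intro c c' h hs
    obtain ⟨h1, h2⟩ := P6_sg_diff c c' h
    have h3 : |lam' i * sg c - lam' i * sg c'| = lam' i * (sg c' - sg c) := by
      rw [abs_sub_comm, ← mul_sub, abs_of_nonneg (mul_nonneg hlam.le h1)]
    have h4 : |c - c'| = c' - c := by
      rw [abs_sub_comm, abs_of_nonneg (by linarith)]
    have h5 : 0 ≤ (c' - c) / Lp := div_nonneg (by linarith) hL.le
    rw [h3, h4]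
    calc lam' i * (sg c' - sg c) ≤ lam' i * (sg c' * ((c' - c) / Lp)) :=
          mul_le_mul_of_nonneg_left h2 hlam.le
      _ = (lam' i * sg c') * ((c' - c) / Lp) := by ring
      _ ≤ 2 * Lam * ((c' - c) / Lp) := mul_le_mul_of_nonneg_right hs h5
  rcases le_total c c' with h1 | h1
  · exact key c c' h1 (P5_size i c' k k').2
  · rw [abs_sub_comm, abs_sub_comm c c']
    exact key c' c h1 (P5_size i c h h').2

theorem P6_quot (x x' y y' δ : ℝ) (hδ : 0 ≤ δ) (hy : 1 / 2 ≤ y) (hy' : 1 / 2 ≤ y')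
    (hx : |x - x'| ≤ 47 * δ) (hyy : |y - y'| ≤ 46 * δ) (h0 : 0 ≤ x' / y') (h3 : x' / y' ≤ 3) :
    |x / y - x' / y'| ≤ 370 * δ := by
  have a1 : y ≠ 0 := by linarith
  have a2 : y' ≠ 0 := by linarith
  have e : x / y - x' / y' = ((x - x') + (x' / y') * (y' - y)) / y := by
    field_simp
    ring
  rw [e, abs_div, abs_of_pos (by linarith : (0 : ℝ) < y), div_le_iff₀ (by linarith)]
  have h4 : |x' / y' * (y' - y)| ≤ 3 * (46 * δ) := by
    rw [abs_mul, abs_of_nonneg h0, abs_sub_comm y' y]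
    exact mul_le_mul h3 hyy (abs_nonneg _) (by norm_num)
  calc |x - x' + x' / y' * (y' - y)| ≤ |x - x'| + |x' / y' * (y' - y)| := abs_add_le _ _
    _ ≤ 47 * δ + 3 * (46 * δ) := add_le_add hx h4
    _ ≤ 370 * δ * y := by nlinarith

theorem P6_al (i : ℕ) (c c' : ℝ) (h : (i : ℝ) ≤ max (c / Lp) 0) (h' : max (c / Lp) 0 ≤ i + 1)
    (k : (i : ℝ) ≤ max (c' / Lp) 0) (k' : max (c' / Lp) 0 ≤ i + 1) :
    |al i c - al i c'| ≤ 370 * (|c - c'| / Lp) := by
  have hL := P6_Lp.1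
  obtain ⟨t0, t1, a0, a1⟩ := P5_th i c h h'
  obtain ⟨t0', t1', a0', a1'⟩ := P5_th i c' k k'
  have hδ : 0 ≤ |c - c'| / Lp := div_nonneg (abs_nonneg _) hL.le
  have hA := P6_am c c'
  have hθ := P6_th i c c'
  have hIp := P3_Ip_lip (am c) (am c') (th i c) (th i c') a0 a1 a0' a1' t0 t1 t0' t1'
  have hIm := P3_Im_lip (am c) (am c') (th i c) (th i c') a0 a1 a0' a1' t0 t1 t0' t1'
  have hinv := P6_inv c c'
  have hal := P5_al i c' k k'
  unfold al at hal ⊢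
  refine P6_quot _ _ _ _ _ hδ (P3_Ip _ _ a0 a1 t0 t1).1 (P3_Ip _ _ a0' a1' t0' t1').1 ?_ ?_
    (by linarith [hal.1]) hal.2
  · have e : 1 / sg c + Im (am c) (th i c) - (1 / sg c' + Im (am c') (th i c'))
        = (1 / sg c - 1 / sg c') + (Im (am c) (th i c) - Im (am c') (th i c')) := by ring
    rw [e]
    refine (abs_add_le _ _).trans ?_
    linarith
  · linarith

theorem P6_prod (S S' G G' Λ δ K M : ℝ) (hS : |S - S'| ≤ 2 * Λ * δ) (hS' : |S'| ≤ 2 * Λ)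
    (hG : |G| ≤ M) (hGG : |G - G'| ≤ K * δ) (hΛ : 0 ≤ Λ) (hδ : 0 ≤ δ) :
    |S * G - S' * G'| ≤ (2 * M + 2 * K) * Λ * δ := by
  have e : S * G - S' * G' = (S - S') * G + S' * (G - G') := by ring
  rw [e]
  refine (abs_add_le _ _).trans ?_
  rw [abs_mul, abs_mul]
  have h1 : |S - S'| * |G| ≤ (2 * Λ * δ) * M :=
    mul_le_mul hS hG (abs_nonneg _) (by positivity)
  have h2 : |S'| * |G - G'| ≤ (2 * Λ) * (K * δ) :=
    mul_le_mul hS' hGG (abs_nonneg _) (by positivity)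
  nlinarith

theorem P6_level (i : ℕ) (c c' x : ℝ) (h : (i : ℝ) ≤ max (c / Lp) 0) (h' : max (c / Lp) 0 ≤ i + 1)
    (k : (i : ℝ) ≤ max (c' / Lp) 0) (k' : max (c' / Lp) 0 ≤ i + 1) :
    |g1f i c x - g1f i c' x| ≤ 20 * |c - c'| ∧ |g2f i c x - g2f i c' x| ≤ 20 * |c - c'| ∧
    |Wf i c x - Wf i c' x| ≤ |c - c'| := by
  have hL := P6_Lp.1
  have hΛ := P6_Lp.2
  obtain ⟨t0, t1, a0, a1⟩ := P5_th i c h h'
  obtain ⟨t0', t1', a0', a1'⟩ := P5_th i c' k k'
  obtain ⟨δ, hδe⟩ : ∃ δ : ℝ, δ = |c - c'| / Lp := ⟨_, rfl⟩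
  have hδ : 0 ≤ δ := by
    rw [hδe]
    exact div_nonneg (abs_nonneg _) hL.le
  have hcc : |c - c'| = Lp * δ := by
    rw [hδe]
    field_simp
  have hA := P6_am c c'
  have hθ := P6_th i c c'
  have hS := P6_S i c c' h h' k k'
  have hal := P6_al i c c' h h' k k'
  rw [← hδe] at hA hθ hS hal
  have hal0 := P5_al i c h h'
  have hal0' := P5_al i c' k k'
  have hsize := P5_size i c' k k'
  have hsz : |lam' i * sg c'| ≤ 2 * Lam := by
    rw [abs_of_nonneg]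
    · exact hsize.2
    · have : 0 ≤ Lam := by
        unfold Lam
        norm_num
      linarith [hsize.1]
  have hΛ0 : 0 ≤ Lam := by
    unfold Lam
    norm_num
  obtain ⟨m, hm⟩ : ∃ m : ℤ, m = ⌊x / lam' i⌋ := ⟨_, rfl⟩
  obtain ⟨u, hu⟩ : ∃ u : ℝ, u = Int.fract (x / lam' i) := ⟨_, rfl⟩
  have hu0 : 0 ≤ u := by
    rw [hu]
    exact Int.fract_nonneg _
  have hu1 : u ≤ 1 := by
    rw [hu]
    exact (Int.fract_lt_one _).le
  have hxu : x / lam' i = u + m := by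
    rw [hm, hu]
    exact (Int.fract_add_floor _).symm
  have hg1 : ∀ c : ℝ, (0 ≤ th i c ∧ th i c ≤ 1 ∧ 0 ≤ am c ∧ am c ≤ 1) →
      g1f i c x = lam' i * sg c * G1 (am c) (th i c) (al i c) u + lam' i * m := by
    intro c hc
    unfold g1f
    rw [hxu]
    have h3 := (P4_per (am c) (th i c) (1 / sg c) u m hc.2.2.1 hc.2.2.2 hc.1 hc.2.1).1
    have h4 : al i c = (1 / sg c + Im (am c) (th i c)) / Ip (am c) (th i c) := rfl
    rw [h4, h3]
    have h5 : sg c ≠ 0 := by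
      have := P5_sg c
      linarith
    field_simp
  have hg2 : ∀ c : ℝ, (0 ≤ th i c ∧ th i c ≤ 1 ∧ 0 ≤ am c ∧ am c ≤ 1) →
      g2f i c x = lam' i * sg c * G2 (am c) (th i c) u := by
    intro c hc
    unfold g2f
    rw [hxu]
    rw [(P4_per (am c) (th i c) (1 / sg c) u m hc.2.2.1 hc.2.2.2 hc.1 hc.2.1).2]
  have hG := P4_lip (am c) (th i c) (al i c) u 0 a0 a1 t0 t1 (by linarith [hal0.1]) hal0.2
  have hz := P4_zero (am c) (th i c) (al i c)
  rw [hz.1, hz.2, sub_zero, sub_zero, sub_zero, abs_of_nonneg hu0] at hG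
  have hpar := P4_par (am c) (am c') (th i c) (th i c') (al i c) (al i c') u a0 a1 a0' a1' t0 t1
    t0' t1' (by linarith [hal0.1]) hal0.2 (by linarith [hal0'.1]) hal0'.2 hu0 hu1
  refine ⟨?_, ?_, ?_⟩
  · rw [hg1 c ⟨t0, t1, a0, a1⟩, hg1 c' ⟨t0', t1', a0', a1'⟩]
    have h3 := P6_prod (lam' i * sg c) (lam' i * sg c') (G1 (am c) (th i c) (al i c) u)
      (G1 (am c') (th i c') (al i c') u) Lam δ 554 3 hS hsz (by linarith [hG.1])
      (by linarith [hpar.1]) hΛ0 hδ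
    rw [add_sub_add_right_eq_sub, hcc]
    refine h3.trans ?_
    rw [hΛ]
    nlinarith [mul_nonneg hL.le hδ]
  · rw [hg2 c ⟨t0, t1, a0, a1⟩, hg2 c' ⟨t0', t1', a0', a1'⟩]
    have h3 := P6_prod (lam' i * sg c) (lam' i * sg c') (G2 (am c) (th i c) u)
      (G2 (am c') (th i c') u) Lam δ 46 1 hS hsz (by linarith [hG.2])
      (by linarith [hpar.2]) hΛ0 hδ
    rw [hcc]
    refine h3.trans ?_
    rw [hΛ]
    nlinarith [mul_nonneg hL.le hδ]
  · unfold Wf pw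
    have h3 := P2_par (am c) (am c') (th i c) (th i c') (Int.fract (x / lam' i)) a0 a1 t0' t1' t0 t1
      (Int.fract_nonneg _) (Int.fract_lt_one _).le a0' a1'
    refine h3.trans ?_
    rw [hcc]
    have h4 : (23 : ℝ) ≤ Lp := by
      unfold Lp
      norm_num
    nlinarith

theorem P6_common (c : ℝ) : ∀ᶠ c' in 𝓝 c, ∃ i : ℕ, (i : ℝ) ≤ max (c / Lp) 0 ∧
    max (c / Lp) 0 ≤ i + 1 ∧ (i : ℝ) ≤ max (c' / Lp) 0 ∧ max (c' / Lp) 0 ≤ i + 1 := by
  have hcont : Continuous (fun c : ℝ => max (c / Lp) 0) := by fun_prop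
  obtain ⟨i, hi⟩ : ∃ i : ℕ, i = ⌊max (c / Lp) 0⌋₊ := ⟨_, rfl⟩
  have h0 : ∀ c : ℝ, 0 ≤ max (c / Lp) 0 := fun c => le_max_right _ _
  have h1 : (i : ℝ) ≤ max (c / Lp) 0 := by
    rw [hi]
    exact Nat.floor_le (h0 c)
  have h2 : max (c / Lp) 0 < i + 1 := by
    rw [hi]
    exact Nat.lt_floor_add_one _
  have e1 : ∀ᶠ c' in 𝓝 c, max (c' / Lp) 0 < i + 1 :=
    (hcont.tendsto c).eventually (gt_mem_nhds h2)
  rcases lt_or_eq_of_le h1 with h3 | h3
  · have e2 : ∀ᶠ c' in 𝓝 c, (i : ℝ) < max (c' / Lp) 0 :=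
      (hcont.tendsto c).eventually (lt_mem_nhds h3)
    filter_upwards [e1, e2] with c' h4 h5
    exact ⟨i, h1, h2.le, h5.le, h4.le⟩
  · have h6 : (i : ℝ) - 1 < max (c / Lp) 0 := by linarith
    have e2 : ∀ᶠ c' in 𝓝 c, (i : ℝ) - 1 < max (c' / Lp) 0 :=
      (hcont.tendsto c).eventually (lt_mem_nhds h6)
    filter_upwards [e1, e2] with c' h4 h5
    rcases le_or_gt (i : ℝ) (max (c' / Lp) 0) with h7 | h7
    · exact ⟨i, h1, h2.le, h7, h4.le⟩
    · have h8 : (0 : ℝ) < i := lt_of_le_of_lt (h0 c') h7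
      have h9 : 0 < i := by exact_mod_cast h8
      obtain ⟨n, hn⟩ : ∃ n, i = n + 1 := ⟨i - 1, by omega⟩
      rw [hn] at h3 h5 h7
      push_cast at h3 h5 h7
      exact ⟨n, by linarith, by linarith, by linarith, by linarith⟩

theorem P6_bn (W W' d : ℝ) (h : |W - W'| ≤ d) : |-fs W - -fs W'| ≤ 20 * d ∧
    |1 - 2 * |W| - (1 - 2 * |W'|)| ≤ 20 * d := by
  have h1 := P1_fs_lip W W'
  have h2 := abs_abs_sub_abs_le W W'
  have h3 : 0 ≤ d := (abs_nonneg _).trans h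
  constructor
  · have e : -fs W - -fs W' = -(fs W - fs W') := by ring
    rw [e, abs_neg]
    linarith
  · have e : 1 - 2 * |W| - (1 - 2 * |W'|) = -(2 * (|W| - |W'|)) := by ring
    rw [e, abs_neg, abs_mul, abs_of_pos (by norm_num : (0 : ℝ) < 2)]
    linarith

theorem P6_local (c x : ℝ) : ∀ᶠ c' in 𝓝 c,
    |b1 c' x - b1 c x| ≤ 20 * |c' - c| ∧ |b2 c' x - b2 c x| ≤ 20 * |c' - c| ∧
    |bn1 c' x - bn1 c x| ≤ 20 * |c' - c| ∧ |bn2 c' x - bn2 c x| ≤ 20 * |c' - c| := by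
  filter_upwards [P6_common c] with c' hc'
  obtain ⟨i, h, h', k, k'⟩ := hc'
  obtain ⟨e1, e2, e3, _⟩ := P5_cons i c x h h'
  obtain ⟨f1, f2, f3, _⟩ := P5_cons i c' x k k'
  obtain ⟨g1, g2, g3⟩ := P6_level i c' c x k k' h h'
  unfold b1 b2 bn1 bn2
  rw [← e1, ← e2, ← e3, ← f1, ← f2, ← f3]
  exact ⟨g1, g2, P6_bn _ _ _ g3⟩

theorem P6_glob (G : ℝ → ℝ) (h : ∀ c, ∀ᶠ c' in 𝓝 c, |G c' - G c| ≤ 20 * |c' - c|) (c c' : ℝ) :
    |G c - G c'| ≤ 20 * |c - c'| := by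
  have := B0a_lip_convex G 20 univ convex_univ (fun x _ => by
    filter_upwards [h x] with y hy
    simpa [Real.norm_eq_abs] using hy) c' (mem_univ _) c (mem_univ _)
  simpa [Real.norm_eq_abs] using this

theorem P6_global (c c' x : ℝ) :
    |b1 c x - b1 c' x| ≤ 20 * |c - c'| ∧ |b2 c x - b2 c' x| ≤ 20 * |c - c'| ∧
    |bn1 c x - bn1 c' x| ≤ 20 * |c - c'| ∧ |bn2 c x - bn2 c' x| ≤ 20 * |c - c'| := by
  refine ⟨?_, ?_, ?_, ?_⟩
  · exact P6_glob (fun c => b1 c x) (fun c => (P6_local c x).mono fun _ h => h.1) c c'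
  · exact P6_glob (fun c => b2 c x) (fun c => (P6_local c x).mono fun _ h => h.2.1) c c'
  · exact P6_glob (fun c => bn1 c x) (fun c => (P6_local c x).mono fun _ h => h.2.2.1) c c'
  · exact P6_glob (fun c => bn2 c x) (fun c => (P6_local c x).mono fun _ h => h.2.2.2) c c'

end H80.LD

end S_H80_LD_P6
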