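import Mathlib
import Pool.Agent.H80.LM.G01
import Pool.Agent.H80.LM.G11

/-! MP_816883_ag: this file joins several modules (see the folders H80/LD, H24/LS) to save build time. -/

section S_H80_LD_E2

/-!
# E2: reflection, and induction over the coordinates

* `E2_hl`: conjugation of `HTStmt` with the reflection `Φ (c, y) = (c, y with y t replaced by - y t)` (an involutive isometry preserving the first component), wall `- w`.
* `E2_empty`: `F = e`, `F' = e'`: `ε₀ = 1`, `C = L`; `closedBall p η ⊆ U` implies `p ∈ U`.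
* `E2_step`: `i ∉ s`.  Given `L, η, l` put `η₁ = η/2`, `η₂ = η/(8 (1 + l))`.  `CTStmt s` with `(L, η₁, l)`: `ε₁, C₁`; `HLStmt` for `i` with `(C₁, η₂, l)`: `ε₂, C₂`; `HTStmt` for `i` with `(C₂, η₂, l)`: `ε₃, C₃`.  `ε₀ = min ε₁ (min (ε₂/C₁) (ε₃/(C₁ C₂)))`, `C = C₁ C₂ C₃`.
  `F₁` from `CTStmt s` (NP on `U₁ = {closedBall p η₁ ⊆ U}`), `F₂` from `HLStmt` with wall `w1 i` applied to `F₁, U₁` (NP on a set containing `U₂ = {closedBall p η₂ ⊆ U₁}`), `F₃` from `HTStmt` with wall `w2 i` applied to `F₂, U₂` (NP on a set containing `{closedBall p η₂ ⊆ U₂}`,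
  which contains `{closedBall p η ⊆ U}` since `η₁ + 2 η₂ ≤ η`).
  keep: `w1 i ≤ p.2 i ≤ w2 i`: `F₃ p = F₂ p = F₁ p = e p` (conditions for `j ∈ s`).
  identity outside: `w2 i p.1 + η ≤ p.2 i`: `F₃ p = p` as `η₂ ≤ η`.  `p.2 i ≤ w1 i p.1 - η`: for `q ∈ closedBall p η₂`, `q.2 i ≤ p.2 i + η₂ ≤ w1 i q.1 + l η₂ - η + η₂ ≤ w1 i q.1 - η₂`, so `F₂ q = q`; identity property of `F₃`.
  `p.2 j ≤ w1 j p.1 - η`, `j ∈ s` (or `w2 j p.1 + η ≤ p.2 j`): for `‖q - p‖ ≤ 2 η₂`: `q.2 j ≤ w1 j q.1 - η₁` (as `2 η₂ (1 + l) ≤ η/2`), so `F₁ q = q`; hence `F₂ q = q` for `‖q - p‖ ≤ η₂` and `F₃ p = p`.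
  identity property: same with `η₁ + 2 η₂ ≤ η`.  (Write one lemma for each of `F`, `F'`; or treat pairs.)
* `E2_ct`: `Finset.induction_on`.
-/

open Filter Topology Metric Set

namespace H80.LD

open Classical in
/-- reflection of the coordinate `t` -/
noncomputable def E2_R {X D : Type*} (t : D) (p : X × (D → ℝ)) : X × (D → ℝ) :=
  (p.1, fun i => if i = t then -(p.2 i) else p.2 i)

theorem E2_R_R {X D : Type*} (t : D) (p : X × (D → ℝ)) : E2_R t (E2_R t p) = p := by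
  unfold E2_R
  refine Prod.ext rfl ?_
  funext i
  by_cases h : i = t
  · simp [h]
  · simp [h]

theorem E2_R_t {X D : Type*} (t : D) (p : X × (D → ℝ)) : (E2_R t p).2 t = -(p.2 t) := by
  unfold E2_R
  simp

theorem E2_R_norm {X : Type*} [NormedAddCommGroup X] {D : Type*} [Fintype D] (t : D)
    (p q : X × (D → ℝ)) : ‖E2_R t p - E2_R t q‖ ≤ 1 * ‖p - q‖ := by
  rw [one_mul, Prod.norm_def]
  apply max_le
  · exact norm_fst_le (p - q)
  · refine (pi_norm_le_iff_of_nonneg (norm_nonneg _)).mpr ?_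
    intro i
    have h1 : ‖(p - q).2 i‖ ≤ ‖p - q‖ := (norm_le_pi_norm (p - q).2 i).trans (norm_snd_le (p - q))
    by_cases h : i = t
    · have h2 : (E2_R t p - E2_R t q).2 i = -((p - q).2 i) := by
        subst h
        change (E2_R i p).2 i - (E2_R i q).2 i = -(p.2 i - q.2 i)
        rw [E2_R_t, E2_R_t]
        ring
      rw [h2, norm_neg]
      exact h1
    · have h2 : (E2_R t p - E2_R t q).2 i = (p - q).2 i := by
        simp [E2_R, h]
      rw [h2]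
      exact h1

theorem E2_R_ball {X : Type*} [NormedAddCommGroup X] {D : Type*} [Fintype D] (t : D)
    (p q : X × (D → ℝ)) (η : ℝ) (h : q ∈ closedBall (E2_R t p) η) : E2_R t q ∈ closedBall p η := by
  rw [mem_closedBall, dist_eq_norm] at h ⊢
  have h1 := E2_R_norm t q (E2_R t p)
  rw [E2_R_R, one_mul] at h1
  exact h1.trans h

theorem E2_hl (X : Type) [NormedAddCommGroup X] (D : Type) [Fintype D] (t : D) (h : HTStmt X D t) : HLStmt X D t := by
  intro L hL η hη l hl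
  obtain ⟨ε₀, hε₀, C, hC, H⟩ := h L hL η hη l hl
  refine ⟨ε₀, hε₀, C, hC, ?_⟩
  intro ε hε hεε U e e' w hw hN
  have hL0 : 0 ≤ L := zero_le_one.trans hL
  have hC0 : 0 ≤ C := zero_le_one.trans hC
  have hN1 := B0b_conj hN zero_le_one zero_le_one hL0 (E2_R t) (E2_R t) (E2_R_R t) (E2_R_R t)
    (E2_R_norm t) (E2_R_norm t) (fun p q hpq => hpq)
  have hN2 : NP ε L {p : X × (D → ℝ) | E2_R t p ∈ U} (fun p => E2_R t (e (E2_R t p)))
      (fun p => E2_R t (e' (E2_R t p))) :=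
    B0b_mono hN1 (by rw [one_mul]) (by rw [one_mul, one_mul]) subset_rfl
  have hw' : Lipw l (fun c => -(w c)) := by
    intro c c'
    have := hw c c'
    have e1 : -(w c) - -(w c') = -(w c - w c') := by ring
    rw [e1, abs_neg]
    exact this
  obtain ⟨G, G', hG, g1, g2, g3⟩ := H ε hε hεε _ _ _ _ hw' hN2
  have hG1 := B0b_conj hG zero_le_one zero_le_one hC0 (E2_R t) (E2_R t) (E2_R_R t) (E2_R_R t)
    (E2_R_norm t) (E2_R_norm t) (fun p q hpq => hpq)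
  refine ⟨fun p => E2_R t (G (E2_R t p)), fun p => E2_R t (G' (E2_R t p)), ?_, ?_, ?_, ?_⟩
  · refine B0b_mono hG1 (by rw [one_mul]) (by rw [one_mul, one_mul]) ?_
    rintro p (⟨h1, h2⟩ | h1 | h1)
    · left
      refine ⟨?_, ?_⟩
      · rw [E2_R_t]
        exact neg_lt_neg h1
      · change E2_R t (E2_R t p) ∈ U
        rw [E2_R_R]
        exact h2
    · right
      left
      intro q hq
      exact h1 (E2_R_ball t p q η hq)
    · right
      right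
      rw [E2_R_t]
      change -(w p.1) + η < -(p.2 t)
      linarith
  · intro p hp
    have := g1 (E2_R t p) (by rw [E2_R_t]; exact neg_le_neg hp)
    constructor
    · change E2_R t (G (E2_R t p)) = e p
      rw [this.1, E2_R_R, E2_R_R]
    · change E2_R t (G' (E2_R t p)) = e' p
      rw [this.2, E2_R_R, E2_R_R]
  · intro p hp
    have := g2 (E2_R t p) (by
      rw [E2_R_t]
      change -(w p.1) + η ≤ -(p.2 t)
      linarith)
    constructor
    · change E2_R t (G (E2_R t p)) = p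
      rw [this.1, E2_R_R]
    · change E2_R t (G' (E2_R t p)) = p
      rw [this.2, E2_R_R]
  · intro p hp
    have := g3 (E2_R t p) (by
      intro q hq
      have h1 := hp _ (E2_R_ball t p q η hq)
      constructor
      · rw [h1.1, E2_R_R]
      · rw [h1.2, E2_R_R])
    constructor
    · change E2_R t (G (E2_R t p)) = p
      rw [this.1, E2_R_R]
    · change E2_R t (G' (E2_R t p)) = p
      rw [this.2, E2_R_R]

theorem E2_empty (X : Type) [NormedAddCommGroup X] (D : Type) [Fintype D] : CTStmt X D ∅ := by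
  intro L hL η hη l hl
  refine ⟨1, one_pos, L, hL, ?_⟩
  intro ε hε _ U e e' w1 w2 _ hN
  refine ⟨e, e', ?_, ?_, ?_, ?_⟩
  · refine B0b_mono hN (by nlinarith) le_rfl ?_
    intro p hp
    exact hp (mem_closedBall_self hη.le)
  · intro p _
    exact ⟨rfl, rfl⟩
  · rintro p ⟨i, hi, -⟩
    exact absurd hi (Finset.notMem_empty i)
  · intro p hp
    exact hp p (mem_closedBall_self hη.le)

theorem E2_coord {X : Type*} [NormedAddCommGroup X] {D : Type*} [Fintype D] (p q : X × (D → ℝ))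
    (δ : ℝ) (h : ‖q - p‖ ≤ δ) (j : D) (l : ℝ) (hl : 0 ≤ l) (w : X → ℝ) (hw : Lipw l w) :
    |q.2 j - p.2 j| ≤ δ ∧ |w q.1 - w p.1| ≤ l * δ := by
  constructor
  · have h1 : ‖(q - p).2 j‖ ≤ ‖q - p‖ := (norm_le_pi_norm (q - p).2 j).trans (norm_snd_le (q - p))
    exact h1.trans h
  · have h1 : ‖q.1 - p.1‖ ≤ ‖q - p‖ := norm_fst_le (q - p)
    exact (hw q.1 p.1).trans (mul_le_mul_of_nonneg_left (h1.trans h) hl)

theorem E2_prop {X : Type*} [NormedAddCommGroup X] {D : Type*} [Fintype D]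
    {F₁ F₁' F₂ F₂' F₃ F₃' : X × (D → ℝ) → X × (D → ℝ)} {η₂ : ℝ}
    (i2 : ∀ p : X × (D → ℝ), (∀ q ∈ closedBall p η₂, F₁ q = q ∧ F₁' q = q) → F₂ p = p ∧ F₂' p = p)
    (i3 : ∀ p : X × (D → ℝ), (∀ q ∈ closedBall p η₂, F₂ q = q ∧ F₂' q = q) → F₃ p = p ∧ F₃' p = p)
    (p : X × (D → ℝ)) (h : ∀ q, ‖q - p‖ ≤ 2 * η₂ → F₁ q = q ∧ F₁' q = q) :
    F₃ p = p ∧ F₃' p = p := by
  apply i3
  intro q hq
  apply i2
  intro r hr
  apply h
  rw [mem_closedBall, dist_eq_norm] at hq hr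
  calc ‖r - p‖ = ‖(r - q) + (q - p)‖ := by congr 1; abel
    _ ≤ ‖r - q‖ + ‖q - p‖ := norm_add_le _ _
    _ ≤ 2 * η₂ := by linarith

theorem E2_step (X : Type) [NormedAddCommGroup X] (D : Type) [Fintype D] [DecidableEq D] (s : Finset D) (i : D)
    (hi : i ∉ s) (h : CTStmt X D s) (h1 : HTStmt X D i) (h2 : HLStmt X D i) : CTStmt X D (insert i s) := by
  intro L hL η hη l hl
  have h8 : 0 < 8 * (1 + l) := by linarith
  have hη₁ : 0 < η / 2 := by linarith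
  have hη₂ : 0 < η / (8 * (1 + l)) := div_pos hη h8
  have hη₂e : 8 * (1 + l) * (η / (8 * (1 + l))) = η := by field_simp
  generalize hη₂d : η / (8 * (1 + l)) = η₂ at hη₂ hη₂e
  have hη₂l : 0 ≤ l * η₂ := mul_nonneg hl hη₂.le
  obtain ⟨ε₁, hε₁, C₁, hC₁, H₁⟩ := h L hL (η / 2) hη₁ l hl
  obtain ⟨ε₂, hε₂, C₂, hC₂, H₂⟩ := h2 C₁ hC₁ η₂ hη₂ l hl
  obtain ⟨ε₃, hε₃, C₃, hC₃, H₃⟩ := h1 C₂ hC₂ η₂ hη₂ l hl
  have hC₁0 : 0 < C₁ := by linarith
  have hC₂0 : 0 < C₂ := by linarith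
  have hC₃0 : 0 < C₃ := by linarith
  have hC12 : 1 ≤ C₁ * C₂ := one_le_mul_of_one_le_of_one_le hC₁ hC₂
  refine ⟨min ε₁ (min (ε₂ / C₁) (ε₃ / (C₁ * C₂))), by positivity, C₁ * C₂ * C₃,
    one_le_mul_of_one_le_of_one_le hC12 hC₃, ?_⟩
  intro ε hε hεε U e e' w1 w2 hw hN
  have b1 : ε ≤ ε₁ := hεε.trans (min_le_left _ _)
  have b2 : C₁ * ε ≤ ε₂ := by
    have := hεε.trans ((min_le_right _ _).trans (min_le_left _ _))
    rw [le_div_iff₀ hC₁0] at this
    linarith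
  have b3 : C₂ * (C₁ * ε) ≤ ε₃ := by
    have := hεε.trans ((min_le_right _ _).trans (min_le_right _ _))
    rw [le_div_iff₀ (by positivity)] at this
    linarith
  obtain ⟨F₁, F₁', n1, k1, o1, i1⟩ := H₁ ε hε b1 U e e' w1 w2 hw hN
  obtain ⟨F₂, F₂', n2, k2, o2, i2⟩ := H₂ (C₁ * ε) (by positivity) b2 _ F₁ F₁' (w1 i) (hw i).1 n1
  have n2' : NP (C₂ * (C₁ * ε)) C₂
      {p : X × (D → ℝ) | closedBall p η₂ ⊆ {p : X × (D → ℝ) | closedBall p (η / 2) ⊆ U}} F₂ F₂' :=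
    B0b_mono n2 le_rfl le_rfl (fun p hp => Or.inr (Or.inl hp))
  obtain ⟨F₃, F₃', n3, k3, o3, i3⟩ := H₃ (C₂ * (C₁ * ε)) (by positivity) b3 _ F₂ F₂' (w2 i)
    (hw i).2 n2'
  refine ⟨F₃, F₃', ?_, ?_, ?_, ?_⟩
  · refine B0b_mono n3 (le_of_eq (by ring)) ?_ ?_
    · calc C₃ = 1 * C₃ := (one_mul _).symm
        _ ≤ C₁ * C₂ * C₃ := mul_le_mul_of_nonneg_right hC12 hC₃0.le
    · intro p hp
      right
      left
      intro q hq r hr s' hs'
      apply hp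
      rw [mem_closedBall] at hq hr hs' ⊢
      have t1 := dist_triangle s' r p
      have t2 := dist_triangle r q p
      nlinarith
  · intro p hp
    have hpi := hp i (Finset.mem_insert_self i s)
    have a1 := k1 p (fun j hj => hp j (Finset.mem_insert_of_mem hj))
    have a2 := k2 p hpi.1
    have a3 := k3 p hpi.2
    exact ⟨a3.1.trans (a2.1.trans a1.1), a3.2.trans (a2.2.trans a1.2)⟩
  · rintro p ⟨j, hj, hjp⟩
    rcases Finset.mem_insert.mp hj with rfl | hjs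
    · rcases hjp with hjp | hjp
      · apply i3
        intro q hq
        apply o2
        rw [mem_closedBall, dist_eq_norm] at hq
        obtain ⟨c1, c2⟩ := E2_coord p q η₂ hq j l hl (w1 j) (hw j).1
        rw [abs_le] at c1 c2
        nlinarith [c1.2, c2.1]
      · apply o3
        nlinarith
    · apply E2_prop i2 i3
      intro q hq
      apply o1
      refine ⟨j, hjs, ?_⟩
      rcases hjp with hjp | hjp
      · left
        obtain ⟨c1, c2⟩ := E2_coord p q (2 * η₂) hq j l hl (w1 j) (hw j).1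
        rw [abs_le] at c1 c2
        nlinarith [c1.2, c2.1]
      · right
        obtain ⟨c1, c2⟩ := E2_coord p q (2 * η₂) hq j l hl (w2 j) (hw j).2
        rw [abs_le] at c1 c2
        nlinarith [c1.1, c2.2]
  · intro p hp
    apply E2_prop i2 i3
    intro q hq
    apply i1
    intro r hr
    apply hp
    rw [mem_closedBall, dist_eq_norm] at hr ⊢
    calc ‖r - p‖ = ‖(r - q) + (q - p)‖ := by congr 1; abel
      _ ≤ ‖r - q‖ + ‖q - p‖ := norm_add_le _ _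
      _ ≤ η / 2 + 2 * η₂ := add_le_add hr hq
      _ ≤ η := by nlinarith

theorem E2_ct (X : Type) [NormedAddCommGroup X] (D : Type) [Fintype D] (h : ∀ t : D, HTStmt X D t) :
    CTStmt X D Finset.univ := by
  classical
  exact Finset.induction_on Finset.univ (E2_empty X D)
    (fun i s hi ih => E2_step X D s i hi ih (h i) (E2_hl X D i (h i)))

end H80.LD

end S_H80_LD_E2

section S_H80_LD_GGlB

/-!
# GGlB (project MP_816883_LD, blocks 8-9): gluing lemma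

`G' = glu s Z id g1 G`, `H' = glu s Z B k1 H`, `ε' = max ε1 (2 ε2)`, `D' = newD s Dm Z τ`.
(M) At a margin point `x` (`x ∈ Dm`, `closedBall x (2 τ s x) ⊆ Dm`): `G' = G` near `x` and at `x` (`glu_margin` with `b = id`, `hg` from `o4`; `Eventually.self_of_nhds`).
(M') At `y ∈ ball 0 r` with `B y` a margin point: `H' = H` near `y` and at `y` (`glu_margin` with `b = B`, `Env.contB`, `hg` from `o5` on the open ball).
(C) For `z ∈ Z`, `x ∈ ball z (5/2 s z)`: `G' = g1 z` near `x` and at `x`; for `y ∈ ball 0 r`, `B y ∈ ball z (5/2 s z)`: `H' = k1 z` near `y` and at `y` (`glu_eq`, openness, `Env.contB`).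
* `s1, s1d, s1l` for `x ∈ D'`: margin point: (M) and the old state (`ε1 ≤ ε'`, `Λ1 ≤ max`); `x ∈ ball z (2 s z)`: (C), `o1, o1d, o1l`, `s z ≤ 2 s x` (`Env.near` with `a = 2`), so
  `ε2 s z ≤ ε' s x`. `s2, s2d, s2l` the same with `B y`.
* distance: for `x ∈ D'`, `y = G' x`: `‖x‖ < 2 r2`, `‖y‖ ≤ L ‖x‖ + ε' s x ≤ 2 L ‖x‖ < r`, `‖B y - x‖ ≤ ‖B y - B (A x)‖ + ‖B (A x) - x‖ ≤ (L ε' + ε) s x ≤ s x / 10`. For `y ∈ ball 0 r`, `B y ∈ D'`, `x = H' y`:
  `‖x - B y‖ ≤ ε' s (B y) ≤ s (B y) / 10`.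
* (T) if `u ∈ ball z (2 s z)` and `‖v - u‖ ≤ s u / 10` or `‖v - u‖ ≤ s v / 10` (`v ∈ ball 0 r`) then `v ∈ ball z (5/2 s z)`: first case `s u ≤ 2 s z`, `2 + 1/5 < 5/2`;
  second case `s v ≤ s u + ε ‖v - u‖ ≤ 2 s z + s v / 100`, so `s v / 10 ≤ 1/4 s z`.
* `s3`: `x ∈ D'`, `B y ∈ D'` with `y = G' x`. If both `x` and `B y` are margin points: `G' x = G x`, `H' y = H y`, old `s3`. Otherwise one of them is in some `ball z (2 s z)`, by (T) both are in
  `ball z (5/2 s z)`, so `G' x = g1 z x`, `H' y = k1 z y` and `o3`.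
* `s3'`: `y ∈ ball 0 r`, `B y ∈ D'`, `x = H' y ∈ D'`. Both margin points: `H' y = H y`, `G' x = G x`, old `s3'`. Otherwise by (T) both in `ball z (5/2 s z)`: `H' y = k1 z y`, `G' x = g1 z x`, `o3'`.
-/

open Filter Topology Metric Set

namespace H80.LD

theorem gglb_pos {E : Type*} [NormedAddCommGroup E] {A B : E → E} {s : E → ℝ}
    {L ε r r2 : ℝ} (env : Env A B s L ε r) (h8 : 8 * L ^ 2 * r2 ≤ r) {z : E} (hz : z ≠ 0)
    (hz2 : ‖z‖ < r2) : 0 < s z ∧ z ∈ ball (0 : E) r ∧ ‖z‖ < 2 * r2 := by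
  have h := env.near (a := 0) (x := z) h8 hz hz2 (by norm_num) (by simp)
  exact ⟨h.2.2.2.2.2.1, h.2.2.1, h.2.1⟩

/-- Every point of the new domain is good. -/
theorem gglb_dom {E : Type*} [NormedAddCommGroup E] {A B : E → E} {s : E → ℝ}
    {L ε r r2 τ : ℝ} {Dm Z : Set E} (env : Env A B s L ε r) (h8 : 8 * L ^ 2 * r2 ≤ r)
    (hε : ε ≤ 1 / 10) (hD : ∀ x ∈ Dm, x ≠ 0 ∧ ‖x‖ < r2) (hZ : ∀ z ∈ Z, z ≠ 0 ∧ ‖z‖ < r2)
    {x : E} (hx : x ∈ newD s Dm Z τ) : 0 < s x ∧ x ∈ ball (0 : E) r ∧ ‖x‖ < 2 * r2 := by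
  rcases hx with hx | hx
  · exact gglb_pos env h8 (hD x hx.1).1 (hD x hx.1).2
  · simp only [mem_iUnion] at hx
    obtain ⟨z, hz, hxz⟩ := hx
    rw [mem_ball_iff_norm] at hxz
    have h := env.near (a := 2) (x := x) h8 (hZ z hz).1 (hZ z hz).2 (by linarith) hxz.le
    exact ⟨h.2.2.2.2.2.1, h.2.2.1, h.2.1⟩

/-- (T) -/
theorem gglb_T {E : Type*} [NormedAddCommGroup E] {A B : E → E} {s : E → ℝ}
    {L ε r r2 : ℝ} {Z : Set E} (env : Env A B s L ε r) (h8 : 8 * L ^ 2 * r2 ≤ r)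
    (hε : ε ≤ 1 / 10) (hZ : ∀ z ∈ Z, z ≠ 0 ∧ ‖z‖ < r2)
    {z u v : E} (hz : z ∈ Z) (hu : u ∈ ball z (2 * s z)) (hv : v ∈ ball (0 : E) r)
    (h : ‖v - u‖ ≤ s u / 10 ∨ ‖v - u‖ ≤ s v / 10) : v ∈ ball z (5 / 2 * s z) := by
  rw [mem_ball_iff_norm] at hu ⊢
  have hn := env.near (a := 2) (x := u) h8 (hZ z hz).1 (hZ z hz).2 (by linarith) hu.le
  obtain ⟨-, -, hur, hsu, -, hsu0, hsz0, -⟩ := hn
  have htri : ‖v - z‖ ≤ ‖v - u‖ + ‖u - z‖ := by
    calc ‖v - z‖ = ‖(v - u) + (u - z)‖ := by rw [sub_add_sub_cancel]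
      _ ≤ _ := norm_add_le _ _
  rcases h with h | h
  · linarith
  · have h1 := env.s_le hv hur
    have h2 : ε * ‖v - u‖ ≤ 1 / 10 * ‖v - u‖ := mul_le_mul_of_nonneg_right hε (norm_nonneg _)
    linarith

/-- (M) -/
theorem gglb_M {E : Type*} [NormedAddCommGroup E] {f g : E → ℂ} {A B : E → E} {s : E → ℝ}
    {L ε r r2 τ ε2 Λ2 : ℝ} {Dm Z : Set E} {G H : E → E} (env : Env A B s L ε r)
    (h8 : 8 * L ^ 2 * r2 ≤ r) (hτ : 0 < τ) (hτ1 : τ ≤ 1) (hε : ε ≤ 1 / 10)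
    (hD : ∀ x ∈ Dm, x ≠ 0 ∧ ‖x‖ < r2) (hZ : ∀ z ∈ Z, z ≠ 0 ∧ ‖z‖ < r2)
    (hsep : ∀ z ∈ Z, ∀ z' ∈ Z, z ≠ z' → 6 * max (s z) (s z') ≤ ‖z - z'‖) (g1 k1 : E → E → E)
    (hout : ∀ z ∈ Z, LocOut f g A B s r z Dm τ ε2 Λ2 G H (g1 z) (k1 z))
    {x : E} (hx : x ∈ Dm) (hx2 : closedBall x (2 * τ * s x) ⊆ Dm) :
    ∀ᶠ x' in 𝓝 x, glu s Z id g1 G x' = G x' := by
  refine glu_margin env h8 hτ hτ1 hε hD hZ hsep (b := id) continuousAt_id hx hx2 ?_
  exact Eventually.of_forall (fun x' z hz h1 h2 => (hout z hz).o4 x' h1 h2)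

/-- (M') -/
theorem gglb_M' {E : Type*} [NormedAddCommGroup E] {f g : E → ℂ} {A B : E → E} {s : E → ℝ}
    {L ε r r2 τ ε2 Λ2 : ℝ} {Dm Z : Set E} {G H : E → E} (env : Env A B s L ε r)
    (h8 : 8 * L ^ 2 * r2 ≤ r) (hτ : 0 < τ) (hτ1 : τ ≤ 1) (hε : ε ≤ 1 / 10)
    (hD : ∀ x ∈ Dm, x ≠ 0 ∧ ‖x‖ < r2) (hZ : ∀ z ∈ Z, z ≠ 0 ∧ ‖z‖ < r2)
    (hsep : ∀ z ∈ Z, ∀ z' ∈ Z, z ≠ z' → 6 * max (s z) (s z') ≤ ‖z - z'‖) (g1 k1 : E → E → E)
    (hout : ∀ z ∈ Z, LocOut f g A B s r z Dm τ ε2 Λ2 G H (g1 z) (k1 z))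
    {y : E} (hy : y ∈ ball (0 : E) r) (hx : B y ∈ Dm)
    (hx2 : closedBall (B y) (2 * τ * s (B y)) ⊆ Dm) :
    ∀ᶠ y' in 𝓝 y, glu s Z B k1 H y' = H y' := by
  refine glu_margin env h8 hτ hτ1 hε hD hZ hsep (b := B) (env.contB hy) hx hx2 ?_
  filter_upwards [isOpen_ball.mem_nhds hy] with y' hy' z hz h1 h2
  exact (hout z hz).o5 y' hy' h1 h2

/-- (C) -/
theorem gglb_C {E : Type*} [NormedAddCommGroup E] {s : E → ℝ} {Z : Set E} {G : E → E}
    (hpos : ∀ z ∈ Z, 0 < s z)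
    (hsep : ∀ z ∈ Z, ∀ z' ∈ Z, z ≠ z' → 6 * max (s z) (s z') ≤ ‖z - z'‖) (g1 : E → E → E)
    {x z : E} (hz : z ∈ Z) (hx : x ∈ ball z (5 / 2 * s z)) :
    ∀ᶠ x' in 𝓝 x, glu s Z id g1 G x' = g1 z x' := by
  filter_upwards [isOpen_ball.mem_nhds hx] with x' hx'
  exact glu_eq hpos hsep hz hx'

/-- (C') -/
theorem gglb_C' {E : Type*} [NormedAddCommGroup E] {A B : E → E} {s : E → ℝ} {L ε r : ℝ}
    {Z : Set E} {H : E → E} (env : Env A B s L ε r)
    (hpos : ∀ z ∈ Z, 0 < s z)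
    (hsep : ∀ z ∈ Z, ∀ z' ∈ Z, z ≠ z' → 6 * max (s z) (s z') ≤ ‖z - z'‖) (k1 : E → E → E)
    {y z : E} (hz : z ∈ Z) (hy : y ∈ ball (0 : E) r) (hx : B y ∈ ball z (5 / 2 * s z)) :
    ∀ᶠ y' in 𝓝 y, glu s Z B k1 H y' = k1 z y' := by
  filter_upwards [(env.contB hy).preimage_mem_nhds (isOpen_ball.mem_nhds hx)] with y' hy'
  exact glu_eq hpos hsep hz hy'

theorem gglb_sub {E : Type*} [NormedAddCommGroup E] {z x : E} {t : ℝ} (a b : ℝ) (hab : a ≤ b)
    (ht : 0 < t) (hx : x ∈ ball z (a * t)) : x ∈ ball z (b * t) :=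
  ball_subset_ball (mul_le_mul_of_nonneg_right hab ht.le) hx

theorem gglue {E : Type*} [NormedAddCommGroup E] {f g : E → ℂ} {A B : E → E} {s : E → ℝ}
    {L ε r r2 τ ε1 ε2 Λ1 Λ2 : ℝ} {Dm Z : Set E} {G H : E → E} (env : Env A B s L ε r)
    (h8 : 8 * L ^ 2 * r2 ≤ r) (hτ : 0 < τ) (hτ1 : τ ≤ 1) (hε1 : 0 < ε1) (hε2 : 0 < ε2)
    (hsm : L * max ε1 (2 * ε2) + ε ≤ 1 / 10) (hD : ∀ x ∈ Dm, x ≠ 0 ∧ ‖x‖ < r2)
    (hSt : St f g A B s r Dm ε1 Λ1 G H) (hZ : ∀ z ∈ Z, z ≠ 0 ∧ ‖z‖ < r2)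
    (hsep : ∀ z ∈ Z, ∀ z' ∈ Z, z ≠ z' → 6 * max (s z) (s z') ≤ ‖z - z'‖) (g1 k1 : E → E → E)
    (hout : ∀ z ∈ Z, LocOut f g A B s r z Dm τ ε2 Λ2 G H (g1 z) (k1 z)) :
    ∃ G' H' : E → E, St f g A B s r (newD s Dm Z τ) (max ε1 (2 * ε2)) (max Λ1 Λ2) G' H' := by
  have hL := env.hL
  set ε' := max ε1 (2 * ε2) with hε'
  have hε'1 : ε1 ≤ ε' := le_max_left _ _
  have hε'2 : 2 * ε2 ≤ ε' := le_max_right _ _
  have hε'0 : 0 < ε' := lt_of_lt_of_le hε1 hε'1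
  have hLε : ε' ≤ L * ε' := by nlinarith
  have hε0 := env.hε
  have hε : ε ≤ 1 / 10 := by linarith
  have hpos : ∀ z ∈ Z, 0 < s z := fun z hz => (gglb_pos env h8 (hZ z hz).1 (hZ z hz).2).1
  have hdom : ∀ x ∈ newD s Dm Z τ, 0 < s x ∧ x ∈ ball (0 : E) r ∧ ‖x‖ < 2 * r2 :=
    fun x hx => gglb_dom env h8 hε hD hZ hx
  -- a case principle
  have hcase : ∀ x ∈ newD s Dm Z τ, (x ∈ Dm ∧ closedBall x (2 * τ * s x) ⊆ Dm) ∨
      ∃ z ∈ Z, x ∈ ball z (2 * s z) := by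
    rintro x (hx | hx)
    · exact Or.inl hx
    · simp only [mem_iUnion, exists_prop] at hx
      exact Or.inr hx
  have M : ∀ x, x ∈ Dm → closedBall x (2 * τ * s x) ⊆ Dm →
      ∀ᶠ x' in 𝓝 x, glu s Z id g1 G x' = G x' :=
    fun x hx hx2 => gglb_M env h8 hτ hτ1 hε hD hZ hsep g1 k1 hout hx hx2
  have M' : ∀ y, y ∈ ball (0 : E) r → B y ∈ Dm → closedBall (B y) (2 * τ * s (B y)) ⊆ Dm →
      ∀ᶠ y' in 𝓝 y, glu s Z B k1 H y' = H y' :=
    fun y hy hx hx2 => gglb_M' env h8 hτ hτ1 hε hD hZ hsep g1 k1 hout hy hx hx2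
  have C : ∀ z ∈ Z, ∀ x ∈ ball z (5 / 2 * s z), ∀ᶠ x' in 𝓝 x, glu s Z id g1 G x' = g1 z x' :=
    fun z hz x hx => gglb_C hpos hsep g1 hz hx
  have C' : ∀ z ∈ Z, ∀ y ∈ ball (0 : E) r, B y ∈ ball z (5 / 2 * s z) →
      ∀ᶠ y' in 𝓝 y, glu s Z B k1 H y' = k1 z y' :=
    fun z hz y hy hx => gglb_C' env hpos hsep k1 hz hy hx
  have T : ∀ z ∈ Z, ∀ u ∈ ball z (2 * s z), ∀ v ∈ ball (0 : E) r,
      (‖v - u‖ ≤ s u / 10 ∨ ‖v - u‖ ≤ s v / 10) → v ∈ ball z (5 / 2 * s z) :=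
    fun z hz u hu v hv h => gglb_T env h8 hε hZ hz hu hv h
  have hnear : ∀ z ∈ Z, ∀ x ∈ ball z (2 * s z), s z ≤ 2 * s x := by
    intro z hz x hx
    rw [mem_ball_iff_norm] at hx
    exact (env.near (a := 2) (x := x) h8 (hZ z hz).1 (hZ z hz).2 (by linarith) hx.le).2.2.2.2.1
  -- first half
  have h1 : ∀ x ∈ newD s Dm Z τ, f x = g (glu s Z id g1 G x) ∧
      ‖glu s Z id g1 G x - A x‖ ≤ ε' * s x := by
    intro x hx
    have hsx := (hdom x hx).1
    rcases hcase x hx with ⟨hx1, hx2⟩ | ⟨z, hz, hxz⟩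
    · rw [(M x hx1 hx2).self_of_nhds]
      exact ⟨hSt.s1 x hx1, (hSt.s1d x hx1).trans (mul_le_mul_of_nonneg_right hε'1 hsx.le)⟩
    · rw [(C z hz x (gglb_sub 2 (5 / 2) (by norm_num) (hpos z hz) hxz)).self_of_nhds]
      have hx3 := gglb_sub 2 3 (by norm_num) (hpos z hz) hxz
      refine ⟨(hout z hz).o1 x hx3, ((hout z hz).o1d x hx3).trans ?_⟩
      have h2 := hnear z hz x hxz
      calc ε2 * s z ≤ ε2 * (2 * s x) := mul_le_mul_of_nonneg_left h2 hε2.le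
        _ = (2 * ε2) * s x := by ring
        _ ≤ ε' * s x := mul_le_mul_of_nonneg_right hε'2 hsx.le
  have h2 : ∀ y ∈ ball (0 : E) r, B y ∈ newD s Dm Z τ → g y = f (glu s Z B k1 H y) ∧
      ‖glu s Z B k1 H y - B y‖ ≤ ε' * s (B y) := by
    intro y hy hx
    have hsx := (hdom _ hx).1
    rcases hcase _ hx with ⟨hx1, hx2⟩ | ⟨z, hz, hxz⟩
    · rw [(M' y hy hx1 hx2).self_of_nhds]
      exact ⟨hSt.s2 y hy hx1, (hSt.s2d y hy hx1).trans (mul_le_mul_of_nonneg_right hε'1 hsx.le)⟩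
    · rw [(C' z hz y hy (gglb_sub 2 (5 / 2) (by norm_num) (hpos z hz) hxz)).self_of_nhds]
      have hx3 := gglb_sub 2 3 (by norm_num) (hpos z hz) hxz
      refine ⟨(hout z hz).o2 y hy hx3, ((hout z hz).o2d y hy hx3).trans ?_⟩
      have h2 := hnear z hz _ hxz
      calc ε2 * s z ≤ ε2 * (2 * s (B y)) := mul_le_mul_of_nonneg_left h2 hε2.le
        _ = (2 * ε2) * s (B y) := by ring
        _ ≤ ε' * s (B y) := mul_le_mul_of_nonneg_right hε'2 hsx.le
  -- the distances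
  have hdist : ∀ x ∈ newD s Dm Z τ, glu s Z id g1 G x ∈ ball (0 : E) r ∧
      ‖B (glu s Z id g1 G x) - x‖ ≤ s x / 10 := by
    intro x hx
    obtain ⟨hsx, hxr, hx2⟩ := hdom x hx
    have hd := (h1 x hx).2
    set y := glu s Z id g1 G x with hy
    have hr2 : 0 < r2 := by linarith [norm_nonneg x]
    have hnA := env.nA hxr
    have hA1 : L * ‖x‖ ≤ L * (2 * r2) := mul_le_mul_of_nonneg_left hx2.le (by linarith)
    have hLL : L ≤ L ^ 2 := by nlinarith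
    have hLr : L * r2 ≤ L ^ 2 * r2 := mul_le_mul_of_nonneg_right hLL hr2.le
    have hLr0 : 0 < L * r2 := mul_pos (by linarith) hr2
    have hAr : A x ∈ ball (0 : E) r := by
      rw [mem_ball_zero_iff]
      nlinarith
    have hss := env.ssmall x hxr
    have hyn : ‖y‖ ≤ ‖y - A x‖ + ‖A x‖ := by
      calc ‖y‖ = ‖(y - A x) + A x‖ := by rw [sub_add_cancel]
        _ ≤ _ := norm_add_le _ _
    have hyr : y ∈ ball (0 : E) r := by
      rw [mem_ball_zero_iff]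
      have h3 : ε' * s x ≤ 1 * s x := mul_le_mul_of_nonneg_right (by linarith) hsx.le
      have h4 : ε * ‖x‖ ≤ 1 * ‖x‖ := mul_le_mul_of_nonneg_right (by linarith) (norm_nonneg x)
      have h5 : 1 * ‖x‖ ≤ L * ‖x‖ := mul_le_mul_of_nonneg_right hL (norm_nonneg x)
      nlinarith
    refine ⟨hyr, ?_⟩
    have h3 := env.lipB y hyr (A x) hAr
    have h4 := env.BA x hxr
    have h5 : ‖B y - x‖ ≤ ‖B y - B (A x)‖ + ‖B (A x) - x‖ := by
      calc ‖B y - x‖ = ‖(B y - B (A x)) + (B (A x) - x)‖ := by rw [sub_add_sub_cancel]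
        _ ≤ _ := norm_add_le _ _
    have h6 : L * ‖y - A x‖ ≤ L * (ε' * s x) := mul_le_mul_of_nonneg_left hd (by linarith)
    have h7 : (L * ε' + ε) * s x ≤ 1 / 10 * s x := mul_le_mul_of_nonneg_right hsm hsx.le
    nlinarith
  refine ⟨glu s Z id g1 G, glu s Z B k1 H, ?_⟩
  exact
    { s1 := fun x hx => (h1 x hx).1
      s1d := fun x hx => (h1 x hx).2
      s1l := by
        intro x hx
        rcases hcase x hx with ⟨hx1, hx2⟩ | ⟨z, hz, hxz⟩
        · have h3 := M x hx1 hx2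
          rw [h3.self_of_nhds]
          filter_upwards [h3, hSt.s1l x hx1] with x' h4 h5
          rw [h4]
          exact h5.trans (mul_le_mul_of_nonneg_right (le_max_left _ _) (norm_nonneg _))
        · have h3 := C z hz x (gglb_sub 2 (5 / 2) (by norm_num) (hpos z hz) hxz)
          rw [h3.self_of_nhds]
          filter_upwards [h3, (hout z hz).o1l x] with x' h4 h5
          rw [h4]
          exact h5.trans (mul_le_mul_of_nonneg_right (le_max_right _ _) (norm_nonneg _))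
      s2 := fun y hy hx => (h2 y hy hx).1
      s2d := fun y hy hx => (h2 y hy hx).2
      s2l := by
        intro y hy hx
        rcases hcase _ hx with ⟨hx1, hx2⟩ | ⟨z, hz, hxz⟩
        · have h3 := M' y hy hx1 hx2
          rw [h3.self_of_nhds]
          filter_upwards [h3, hSt.s2l y hy hx1] with x' h4 h5
          rw [h4]
          exact h5.trans (mul_le_mul_of_nonneg_right (le_max_left _ _) (norm_nonneg _))
        · have h3 := C' z hz y hy (gglb_sub 2 (5 / 2) (by norm_num) (hpos z hz) hxz)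
          rw [h3.self_of_nhds]
          filter_upwards [h3, (hout z hz).o2l y] with x' h4 h5
          rw [h4]
          exact h5.trans (mul_le_mul_of_nonneg_right (le_max_right _ _) (norm_nonneg _))
      s3 := by
        intro x hx hBy
        obtain ⟨hyr, hd⟩ := hdist x hx
        have hxr := (hdom x hx).2.1
        have hByr := (hdom _ hBy).2.1
        have key : ∀ z ∈ Z, x ∈ ball z (5 / 2 * s z) →
            B (glu s Z id g1 G x) ∈ ball z (5 / 2 * s z) →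
            glu s Z B k1 H (glu s Z id g1 G x) = x := by
          intro z hz h3 h4
          rw [(C' z hz _ hyr h4).self_of_nhds, (C z hz x h3).self_of_nhds]
          exact (hout z hz).o3 x
        rcases hcase x hx with ⟨hx1, hx2⟩ | ⟨z, hz, hxz⟩
        · rcases hcase _ hBy with ⟨hx3, hx4⟩ | ⟨z, hz, hxz⟩
          · rw [(M' _ hyr hx3 hx4).self_of_nhds]
            have h3 := (M x hx1 hx2).self_of_nhds
            rw [h3] at hx3 ⊢
            exact hSt.s3 x hx1 hx3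
          · refine key z hz (T z hz _ hxz x hxr (Or.inr ?_))
              (gglb_sub 2 (5 / 2) (by norm_num) (hpos z hz) hxz)
            rw [norm_sub_rev]
            exact hd
        · exact key z hz (gglb_sub 2 (5 / 2) (by norm_num) (hpos z hz) hxz)
            (T z hz x hxz _ hByr (Or.inl hd))
      s3' := by
        intro y hy hBy hxD
        have hd := (h2 y hy hBy).2
        obtain ⟨hsB, hByr, -⟩ := hdom _ hBy
        have hxr := (hdom _ hxD).2.1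
        have hd' : ‖glu s Z B k1 H y - B y‖ ≤ s (B y) / 10 := by
          have h3 : ε' * s (B y) ≤ 1 / 10 * s (B y) :=
            mul_le_mul_of_nonneg_right (by linarith) hsB.le
          linarith
        have key : ∀ z ∈ Z, glu s Z B k1 H y ∈ ball z (5 / 2 * s z) →
            B y ∈ ball z (5 / 2 * s z) →
            glu s Z id g1 G (glu s Z B k1 H y) = y := by
          intro z hz h3 h4
          rw [(C z hz _ h3).self_of_nhds, (C' z hz _ hy h4).self_of_nhds]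
          exact (hout z hz).o3' y
        rcases hcase _ hBy with ⟨hx1, hx2⟩ | ⟨z, hz, hxz⟩
        · rcases hcase _ hxD with ⟨hx3, hx4⟩ | ⟨z, hz, hxz⟩
          · rw [(M _ hx3 hx4).self_of_nhds]
            have h3 := (M' y hy hx1 hx2).self_of_nhds
            rw [h3] at hx3 ⊢
            exact hSt.s3' y hy hx1 hx3
          · refine key z hz (gglb_sub 2 (5 / 2) (by norm_num) (hpos z hz) hxz)
              (T z hz _ hxz _ hByr (Or.inr ?_))
            rw [norm_sub_rev]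
            exact hd'
        · exact key z hz (T z hz _ hxz _ hxr (Or.inl hd'))
            (gglb_sub 2 (5 / 2) (by norm_num) (hpos z hz) hxz) }

end H80.LD

end S_H80_LD_GGlB
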