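import Mathlib
import Pool.Agent.H80.LM.G01
import Pool.Agent.H80.LM.G02
import Pool.Agent.H80.LM.G04
import Pool.Agent.H80.LM.G05
import Pool.Agent.H80.LM.G06
import Pool.Agent.H80.LM.G07
import Pool.Agent.H80.LM.G08
import Pool.Agent.H80.LM.G12
import Pool.Agent.H80.LM.G13
import Pool.Agent.H80.LM.G14
import Pool.Agent.H80.LM.G15
import Pool.Agent.H80.LM.G16

/-! MP_816883_ag: this file joins several modules (see the folders H80/LD, H24/LS) to save build time. -/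

section S_H80_LD_M6

/-!
# M6: a fold map along a pattern is a punctured immersion

`r = rr a b = 1/(100 M) ≤ 1/4`, `C = cc a b K ≥ 1`, `need = ndd lj nd b a`.  Fields `pos, pos'`: `σ ≥ 1`; `slow`, `size`: M3; `lpos`, `box`: K5 (`lj j > 0` from `l1`, `σ ≥ 1`).
`low, upp, surj` at `p` with `hg : need p.2 → 1 ≤ gau p.2`:
* if `p` satisfies `hy` (hypothesis of `K4_indep`): M4.
* otherwise `|p.2 b - (..)| < 3/10/M`, so `K4_floor` gives `hfl` (`r ≤ 1/(25 M)`; apply it to functions `y'` with `y' b = s`).  Let `j = ⌊p.2 b⌋`, `λ = lj j > 0`, `m = ⌊p.2 a / λ + 1/8⌋`.  For `σ (p.2 b) |x - p.2 a| ≤ r`: `|x / λ - p.2 a / λ| ≤ r / (σ (p.2 b) λ) ≤ r ≤ 1/100` (`l1`).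
  - `need p.2` false, i.e. `¬ nd j m`: `p.2 a / λ ∈ [m - 1/8, m + 7/8)`, so `x / λ ∈ [m - 1/8 - 1/100, m + 7/8 + 1/100]`: if `x / λ ≥ m` use `p7`, otherwise `p6`: `hv` holds.
  - `need p.2` true: `gau ≥ 1` gives `i` with `LL i ≤ |p.2 i - ZZ i|` (`gau < 1` iff all `|p.2 i - ZZ i| < LL i`; `pi_norm_lt_iff`), `K5_good` and the negation of `hy` give `34/100 λ ≤ |p.2 a - (m + 3/8) λ|`, so with `t = p.2 a / λ - m`:
    `t ∈ [-1/8, 7/8)` and `|t - 3/8| ≥ 34/100`: `t ∈ [-0.125, 0.035]` or `t ∈ [0.715, 0.875)`.  `x / λ - m ∈ [-0.135, 0.045]` or `x / λ - (m + 1) ∈ [-0.295, -0.115]`: `p6` with `m` or `m + 1`.  So `hv` holds.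
  M5.
-/

open Filter Topology Metric Set

namespace H80.LD

theorem M6_v {σ : ℝ → ℝ} {lj : ℤ → ℝ} {g1 g2 ν1 ν2 : ℝ → ℝ → ℝ} {nd : ℤ → ℤ → Prop} {K : ℝ}
    (h : Pat σ lj g1 g2 ν1 ν2 nd K) (j : ℤ) (s x0 r : ℝ) (hj : (j : ℝ) ≤ s) (hj' : s ≤ j + 1)
    (hr : r ≤ 1 / 100)
    (hc : nd j ⌊x0 / lj j + 1 / 8⌋ →
      34 / 100 * lj j ≤ |x0 - ((⌊x0 / lj j + 1 / 8⌋ : ℝ) + 3 / 8) * lj j|)
    (c x : ℝ) (hc1 : (j : ℝ) ≤ c) (hc2 : c ≤ j + 1) (hx : σ s * |x - x0| ≤ r) :
    ν1 c x = 0 ∧ ν2 c x = 1 ∧ g2 c x = 0 := by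
  have hs1 := h.s1 s
  have hl := (h.l1 j s hj hj').1
  have hl0 : 0 < lj j := by
    by_contra hcon
    push Not at hcon
    nlinarith
  have hax : |x - x0| ≤ r * lj j := by
    have h1 : |x - x0| * 1 ≤ |x - x0| * (σ s * lj j) := mul_le_mul_of_nonneg_left hl (abs_nonneg _)
    have h2 : σ s * |x - x0| * lj j ≤ r * lj j := mul_le_mul_of_nonneg_right hx hl0.le
    nlinarith
  have ht : |x / lj j - x0 / lj j| ≤ 1 / 100 := by
    rw [← sub_div, abs_div, abs_of_pos hl0, div_le_iff₀ hl0]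
    nlinarith
  obtain ⟨ht1, ht2⟩ := abs_le.1 ht
  have hm1 := Int.floor_le (x0 / lj j + 1 / 8)
  have hm2 := Int.lt_floor_add_one (x0 / lj j + 1 / 8)
  set m : ℤ := ⌊x0 / lj j + 1 / 8⌋ with hm
  by_cases hnd : nd j m
  · have h1 := hc hnd
    have e : x0 - ((m : ℝ) + 3 / 8) * lj j = (x0 / lj j - ((m : ℝ) + 3 / 8)) * lj j := by
      field_simp
    rw [e, abs_mul, abs_of_pos hl0] at h1
    have h2 : 34 / 100 ≤ |x0 / lj j - ((m : ℝ) + 3 / 8)| := le_of_mul_le_mul_right h1 hl0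
    rcases le_abs.1 h2 with h3 | h3
    · refine h.p6 j (m + 1) x c ?_ ?_ hc1 hc2
      · push_cast
        linarith
      · push_cast
        linarith
    · exact h.p6 j m x c (by linarith) (by linarith) hc1 hc2
  · rcases le_total (m : ℝ) (x / lj j) with h3 | h3
    · exact h.p7 j m hnd x c h3 (by linarith) hc1 hc2
    · exact h.p6 j m x c (by linarith) (by linarith) hc1 hc2

theorem M6_key {X : Type*} [NormedAddCommGroup X] {D : Type*} [Fintype D] [DecidableEq D]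
    {σ : ℝ → ℝ} {lj : ℤ → ℝ} {g1 g2 ν1 ν2 : ℝ → ℝ → ℝ} {nd : ℤ → ℤ → Prop} {K : ℝ}
    (h : Pat σ lj g1 g2 ν1 ν2 nd K) (H : Finset D) (a b : D) (hab : a ≠ b) (hσ : ∀ c, 0 < σ c)
    (hl : ∀ j, 0 < lj j) (p : X × (D → ℝ))
    (hg : ndd lj nd b a p.2 → 1 ≤ gau (ZZ σ lj H a b) (LL σ lj H a b) p.2) :
    (3 / 10 / (MM a b : ℝ) ≤ |p.2 b - ((⌊p.2 b⌋ : ℝ) + ((nn a b p.2 : ℝ) + 1 / 2) / (MM a b : ℝ))| ∨
      ∃ i : JJ a b, 35 / 100 / sH σ H ⌊p.2 b⌋ i ≤ |p.2 i - ZZ σ lj H a b p.2 i|) ∨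
    ((∀ s : ℝ, |s - p.2 b| ≤ rr a b → ⌊s⌋ = ⌊p.2 b⌋) ∧
      ∀ c x : ℝ, (⌊p.2 b⌋ : ℝ) ≤ c → c ≤ ⌊p.2 b⌋ + 1 → σ (p.2 b) * |x - p.2 a| ≤ rr a b →
        ν1 c x = 0 ∧ ν2 c x = 1 ∧ g2 c x = 0) := by
  have hM : (1 : ℝ) ≤ (MM a b : ℝ) := by exact_mod_cast K2_MM a b
  have hM0 : (0 : ℝ) < (MM a b : ℝ) := by linarith
  by_cases hy : (3 / 10 / (MM a b : ℝ) ≤ |p.2 b - ((⌊p.2 b⌋ : ℝ) + ((nn a b p.2 : ℝ) + 1 / 2) / (MM a b : ℝ))| ∨
      ∃ i : JJ a b, 35 / 100 / sH σ H ⌊p.2 b⌋ i ≤ |p.2 i - ZZ σ lj H a b p.2 i|)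
  · exact Or.inl hy
  · right
    have hy1 : |p.2 b - ((⌊p.2 b⌋ : ℝ) + ((nn a b p.2 : ℝ) + 1 / 2) / (MM a b : ℝ))| <
        3 / 10 / (MM a b : ℝ) := by
      by_contra hcon
      push Not at hcon
      exact hy (Or.inl hcon)
    refine ⟨fun s hs => ?_, fun c x hc1 hc2 hx => ?_⟩
    · have h1 := K4_floor a b p.2 hy1 (fun _ => s) (by
        refine hs.trans ?_
        unfold rr
        exact one_div_le_one_div_of_le (by positivity) (by nlinarith))
      exact h1
    · refine M6_v h ⌊p.2 b⌋ (p.2 b) (p.2 a) (rr a b) (Int.floor_le _) (Int.lt_floor_add_one _).le ?_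
        (fun hnd => ?_) c x hc1 hc2 hx
      · unfold rr
        exact one_div_le_one_div_of_le (by norm_num) (by nlinarith)
      · have h1 := hg hnd
        have h2 : ∃ i, LL σ lj H a b p.2 i ≤ |p.2 i - ZZ σ lj H a b p.2 i| := by
          by_contra hcon
          push Not at hcon
          have h3 : gau (ZZ σ lj H a b) (LL σ lj H a b) p.2 < 1 := by
            unfold gau
            rw [pi_norm_lt_iff one_pos]
            intro i
            have hp := K5_pos σ hσ lj hl H a b p.2 i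
            rw [Real.norm_eq_abs, abs_div, abs_of_pos hp, div_lt_one hp]
            exact hcon i
          linarith
        rcases K5_good σ hσ lj hl H a b hab p.2 h2 with h3 | h3
        · exact absurd h3 hy
        · exact h3

theorem M6_pimm {X : Type*} [NormedAddCommGroup X] {D : Type*} [Fintype D] [DecidableEq D]
    {σ : ℝ → ℝ} {lj : ℤ → ℝ} {g1 g2 ν1 ν2 : ℝ → ℝ → ℝ} {nd : ℤ → ℤ → Prop} {K : ℝ}
    (h : Pat σ lj g1 g2 ν1 ν2 nd K) (H : Finset D) (a b : D) (hab : a ≠ b) (ha : a ∉ H) (hb : b ∉ H) :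
    PImm (X := X) (wgt σ (insert a H) b) (wgt σ H b) (fold σ H a b g1 g2 ν1 ν2) (ZZ σ lj H a b) (LL σ lj H a b)
      (ndd lj nd b a) (rr a b) (cc a b K) := by
  have hσ : ∀ c, 0 < σ c := fun c => lt_of_lt_of_le one_pos (h.s1 c)
  have hl : ∀ j, 0 < lj j := fun j => by
    have h1 := (h.l1 j j le_rfl (by linarith)).1
    have h2 := hσ j
    by_contra hcon
    push Not at hcon
    nlinarith
  have hM : (1 : ℝ) ≤ (MM a b : ℝ) := by exact_mod_cast K2_MM a b
  have hM0 : (0 : ℝ) < (MM a b : ℝ) := by linarith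
  have hcc := M3_cc h.K1 a b
  refine ⟨?_, ?_, ?_, ?_, ?_, ?_, ?_, ?_, ?_, ?_, ?_, ?_, ?_⟩
  · unfold rr
    positivity
  · unfold rr
    exact one_div_le_one_div_of_le (by norm_num) (by nlinarith)
  · linarith [hcc.1]
  · intro p
    rfl
  · intro p i
    unfold wgt
    split_ifs
    · exact hσ _
    · exact one_pos
  · intro p i
    unfold wgt
    split_ifs
    · exact hσ _
    · exact one_pos
  · intro p q hq i
    exact M3_slow h H a b hab hb p q hq i
  · intro p hg q q' hq hq'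
    rcases M6_key h H a b hab hσ hl p hg with hy | ⟨hfl, hv⟩
    · exact M4_low h H a b hab ha hb p hy q q' hq hq'
    · exact M5_low h H a b hab ha hb p hfl hv q q' hq hq'
  · intro p hg q q' hq hq'
    rcases M6_key h H a b hab hσ hl p hg with hy | ⟨hfl, hv⟩
    · exact M4_upp h H a b hab ha hb p hy q q' hq hq'
    · exact M5_upp h H a b hab ha hb p hfl hv q q' hq hq'
  · intro p hg w hw
    rcases M6_key h H a b hab hσ hl p hg with hy | ⟨hfl, hv⟩
    · exact M4_surj h H a b hab ha hb p hy w hw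
    · exact M5_surj h H a b hab ha hb p hfl hv w hw
  · intro y i
    exact K5_pos σ hσ lj hl H a b y i
  · intro y y' hn hy
    obtain ⟨h1, h2, h3⟩ := K5_box σ hσ lj hl nd H a b hab y y' hy
    exact ⟨h1, h2, h3.2 hn⟩
  · intro p i
    exact M3_size h H a b hab ha hb p i

end H80.LD

end S_H80_LD_M6

section S_H80_LD_P8

/-!
# P8: the outermost pattern is a pattern (`Pat`) with `σ = 1`

`Wo y = pw 1 0 (max y 0 / Lam)`, `|Wo| ≤ 1`, `|Wo y - Wo y'| ≤ 80 |y - y'| / Lam`; `Wo y = 0` for `y ≤ 0` (`P2_pw_zero`).  `1/20 ≤ alo ≤ 1` (`P3`: `Im 1 0 ∈ [1/20, 1/2]`, `Ip 1 0 ∈ [1/2, 1]`; note `alo = (0 + Im 1 0)/Ip 1 0`).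
`Do y = alo fp (Wo y) - fm (Wo y) + (1 - alo) cl (1 - 20 y/Lam)`; `|Do y - Do y'| ≤ ((2 alo + 2) 80 + 20) |y-y'|/Lam ≤ 340 |y - y'|/Lam`; `Do y = 1` for `y ≤ 0`.  If `cl (1 - 20y/Lam) ≠ 0` then `y < Lam/20`, so `Wo y = 0` and
`Do y = alo + (1 - alo) cl (..) ∈ [alo, 1]`; otherwise `Do y = alo fp - fm`.  Hence `|Do| ≤ 1` and `Do y * (1 - 2 |Wo y|) + fs (Wo y)^2 ≥ 1/40` (`P1_det` with `alo`; in the first case `Wo y = 0` and the left side is `Do y ≥ alo ≥ 1/20`).
* `s1, s2`: `σ = 1`.  `l1`: `1 ≤ Lam ≤ KK`.  `p1`: `|Do| ≤ 1`, `|fs| ≤ 1`.  `p2`: no dependence on `c`.  `p3`: `160/Lam ≤ 10^{-5}`.  `p3b`.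
* `p4`: `D1 = Do x0`, `D2 = fs (Wo x0)`, error `≤ 340/Lam * |x - x'| ≤ |x-x'|/10^5` (integral of `Do y - Do x0`, `|y - x0| ≤ 1`).
* `p5`: `o2 c t = 0` for `t ≤ 0`, `= Lam * G2 1 0 (t/Lam)` for `t ≥ 0` (substitution), `|G2| ≤ 1` (`P4_bound`).
* `p6`: `-3/10 ≤ x/Lam - m ≤ 1/20`: if `x ≤ 0`: `Wo x = 0`, `o2 = 0`; if `x ≥ 0`: `P2_pw_zero`, `P4_col`.  `p7`: `¬ 0 ≤ m`: `x/Lam ≤ m + 1 ≤ 0`: `x ≤ 0`.
* `P8_drift`: `t ≤ 0`: `o1 c t = t`.  `t ≥ 0`: `o1 c t = Lam * G1 1 0 alo (t/Lam) + (1 - alo) ∫_0^t cl (1 - 20y/Lam) dy`, the first term is bounded by `4 Lam` (`P4_bound`, `μ = 0`), the second is between `0` and `Lam/20`.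
-/

open Filter Topology Metric Set MeasureTheory

namespace H80.LD

theorem P8_Lam_pos : 0 < Lam := by
  unfold Lam
  norm_num

theorem P8_cont (f : ℝ → ℝ) (K : ℝ) (hK : 0 ≤ K) (h : ∀ x y, |f x - f y| ≤ K * |x - y|) :
    Continuous f := by
  have h1 : LipschitzWith (Real.toNNReal K) f := LipschitzWith.of_dist_le_mul fun x y => by
    rw [Real.dist_eq, Real.dist_eq, Real.coe_toNNReal K hK]
    exact h x y
  exact h1.continuous

theorem P8_alo : 1 / 20 ≤ alo ∧ alo ≤ 1 := by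
  have h1 := P3_al 1 0 0 zero_le_one le_rfl le_rfl zero_le_one le_rfl zero_le_one (Or.inr rfl)
  rw [zero_add] at h1
  have h2 := P3_Ip 1 0 zero_le_one le_rfl le_rfl zero_le_one
  have h3 := P3_Im 1 0 zero_le_one le_rfl le_rfl zero_le_one
  refine ⟨h1.1, ?_⟩
  unfold alo
  rw [div_le_one (by linarith [h2.1])]
  linarith [h2.1, h3.2]

theorem P8_Wo_abs (y : ℝ) : |Wo y| ≤ 1 := P2_pw_abs 1 0 _ zero_le_one le_rfl le_rfl zero_le_one

theorem P8_Wo_lip (y y' : ℝ) : |Wo y - Wo y'| ≤ 80 * (|y - y'| / Lam) := by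
  have hL := P8_Lam_pos
  unfold Wo
  refine (P2_pw_lip 1 0 _ _ zero_le_one le_rfl le_rfl zero_le_one).trans ?_
  rw [← sub_div, abs_div, abs_of_pos hL]
  have h1 : |max y 0 - max y' 0| ≤ |y - y'| := abs_max_sub_max_le_abs y y' 0
  have h2 : |max y 0 - max y' 0| / Lam ≤ |y - y'| / Lam := div_le_div_of_nonneg_right h1 hL.le
  linarith

theorem P8_Wo_small (y : ℝ) (h : y ≤ Lam / 20) : Wo y = 0 := by
  have hL := P8_Lam_pos
  have h1 : 0 ≤ max y 0 / Lam := div_nonneg (le_max_right _ _) hL.le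
  have h2 : max y 0 / Lam ≤ 1 / 20 := by
    rw [div_le_iff₀ hL]
    refine max_le (by linarith) (by positivity)
  exact P2_pw_zero 1 0 _ 0 le_rfl zero_le_one (by push_cast; linarith) (by push_cast; linarith)

theorem P8_cl_zero (y : ℝ) (h : Lam / 20 ≤ y) : cl (1 - 20 * y / Lam) = 0 := by
  have hL := P8_Lam_pos
  refine K1_cl_zero _ ?_
  have h1 : 1 ≤ 20 * y / Lam := by
    rw [le_div_iff₀ hL]
    linarith
  linarith

theorem P8_Do_cases (y : ℝ) : (Wo y = 0 ∧ alo ≤ Do y ∧ Do y ≤ 1) ∨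
    Do y = alo * fp (Wo y) - fm (Wo y) := by
  obtain ⟨h1, h2⟩ := P8_alo
  rcases le_total y (Lam / 20) with h | h
  · left
    have h3 := P8_Wo_small y h
    refine ⟨h3, ?_⟩
    unfold Do
    rw [h3, P1_f_zero.1, P1_f_zero.2.1]
    obtain ⟨h4, h5⟩ := K1_cl_mem (1 - 20 * y / Lam)
    have h6 : 0 ≤ (1 - alo) * cl (1 - 20 * y / Lam) := mul_nonneg (by linarith) h4
    have h7 : (1 - alo) * cl (1 - 20 * y / Lam) ≤ (1 - alo) * 1 :=
      mul_le_mul_of_nonneg_left h5 (by linarith)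
    constructor <;> linarith
  · right
    unfold Do
    rw [P8_cl_zero y h, mul_zero, add_zero]

theorem P8_Do_abs (y : ℝ) : |Do y| ≤ 1 := by
  obtain ⟨h1, h2⟩ := P8_alo
  rcases P8_Do_cases y with ⟨-, h3, h4⟩ | h3
  · rw [abs_le]
    constructor <;> linarith
  · rw [h3, abs_le]
    obtain ⟨h4, h5, h6, h7, -⟩ := P1_f_mem (Wo y) (P8_Wo_abs y)
    have h8 : 0 ≤ alo * fp (Wo y) := mul_nonneg (by linarith) h4
    have h9 : alo * fp (Wo y) ≤ 1 := mul_le_one₀ h2 h4 h5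
    constructor <;> linarith

theorem P8_Do_det (y : ℝ) : 1 / 40 ≤ Do y * (1 - 2 * |Wo y|) - fs (Wo y) * (-fs (Wo y)) := by
  obtain ⟨h1, h2⟩ := P8_alo
  rcases P8_Do_cases y with ⟨h0, h3, h4⟩ | h3
  · rw [h0, P1_f_zero.2.2, abs_zero]
    linarith
  · rw [h3]
    exact P1_det (Wo y) alo (P8_Wo_abs y) h1

theorem P8_Do_lip (y y' : ℝ) : |Do y - Do y'| ≤ 340 / Lam * |y - y'| := by
  have hL := P8_Lam_pos
  obtain ⟨h1, h2⟩ := P8_alo
  have h3 := P8_Wo_lip y y'
  have h4 := P1_fp_lip (Wo y) (Wo y')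
  have h5 := P1_fm_lip (Wo y) (Wo y')
  have h6 := K1_cl_lip (1 - 20 * y / Lam) (1 - 20 * y' / Lam)
  have h7 : |1 - 20 * y / Lam - (1 - 20 * y' / Lam)| = 20 * (|y - y'| / Lam) := by
    have e : 1 - 20 * y / Lam - (1 - 20 * y' / Lam) = -(20 / Lam * (y - y')) := by ring
    rw [e, abs_neg, abs_mul, abs_of_pos (by positivity)]
    ring
  rw [h7] at h6
  have e : Do y - Do y' = alo * (fp (Wo y) - fp (Wo y')) - (fm (Wo y) - fm (Wo y')) +
      (1 - alo) * (cl (1 - 20 * y / Lam) - cl (1 - 20 * y' / Lam)) := by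
    unfold Do
    ring
  have h8 : |alo * (fp (Wo y) - fp (Wo y'))| ≤ 1 * |fp (Wo y) - fp (Wo y')| := by
    rw [abs_mul, abs_of_nonneg (by linarith : 0 ≤ alo)]
    exact mul_le_mul_of_nonneg_right h2 (abs_nonneg _)
  have h9 : |(1 - alo) * (cl (1 - 20 * y / Lam) - cl (1 - 20 * y' / Lam))| ≤
      1 * |cl (1 - 20 * y / Lam) - cl (1 - 20 * y' / Lam)| := by
    rw [abs_mul, abs_of_nonneg (by linarith : 0 ≤ 1 - alo)]
    exact mul_le_mul_of_nonneg_right (by linarith) (abs_nonneg _)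
  rw [e]
  have h10 : 340 / Lam * |y - y'| = 340 * (|y - y'| / Lam) := by ring
  rw [h10]
  refine (abs_add_le _ _).trans ?_
  refine (add_le_add (abs_sub _ _) le_rfl).trans ?_
  linarith

theorem P8_fs_lip (y y' : ℝ) : |fs (Wo y) - fs (Wo y')| ≤ 340 / Lam * |y - y'| := by
  have hL := P8_Lam_pos
  have h3 := P8_Wo_lip y y'
  have h4 := P1_fs_lip (Wo y) (Wo y')
  have h5 : 0 ≤ |y - y'| / Lam := by positivity
  have h10 : 340 / Lam * |y - y'| = 340 * (|y - y'| / Lam) := by ring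
  rw [h10]
  linarith

theorem P8_cDo : Continuous Do :=
  P8_cont _ _ (div_nonneg (by norm_num) P8_Lam_pos.le) P8_Do_lip

theorem P8_cfs : Continuous (fun y => fs (Wo y)) :=
  P8_cont _ _ (div_nonneg (by norm_num) P8_Lam_pos.le) P8_fs_lip

theorem P8_int (F : ℝ → ℝ) (hF : Continuous F) (E x0 : ℝ)
    (h : ∀ y, |y - x0| ≤ 1 → |F y - F x0| ≤ E) (x x' : ℝ) (hx : |x - x0| ≤ 1)
    (hx' : |x' - x0| ≤ 1) :
    |(∫ y in (0 : ℝ)..x, F y) - (∫ y in (0 : ℝ)..x', F y) - (x - x') * F x0| ≤ E * |x - x'| := by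
  have e1 : (∫ y in (0 : ℝ)..x, F y) - (∫ y in (0 : ℝ)..x', F y) = ∫ y in x'..x, F y :=
    intervalIntegral.integral_interval_sub_left (hF.intervalIntegrable _ _)
      (hF.intervalIntegrable _ _)
  have e2 : (x - x') * F x0 = ∫ _y in x'..x, F x0 := by
    rw [intervalIntegral.integral_const, smul_eq_mul]
  rw [e1, e2, ← intervalIntegral.integral_sub (hF.intervalIntegrable _ _)
    (continuous_const.intervalIntegrable _ _)]
  have h1 := intervalIntegral.norm_integral_le_of_norm_le_const (a := x') (b := x) (C := E)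
    (f := fun y => F y - F x0) (fun y hy => by
      rw [Real.norm_eq_abs]
      refine h y ?_
      rw [Set.mem_uIoc] at hy
      rw [abs_le] at hx hx' ⊢
      rcases hy with ⟨h2, h3⟩ | ⟨h2, h3⟩
      · constructor <;> linarith [hx.1, hx.2, hx'.1, hx'.2]
      · constructor <;> linarith [hx.1, hx.2, hx'.1, hx'.2])
  rw [Real.norm_eq_abs] at h1
  exact h1

theorem P8_int1 (F : ℝ → ℝ) (hF : Continuous F) (h : ∀ y, |F y| ≤ 1) (x x' : ℝ) :
    |(∫ y in (0 : ℝ)..x, F y) - (∫ y in (0 : ℝ)..x', F y)| ≤ |x - x'| := by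
  have e1 : (∫ y in (0 : ℝ)..x, F y) - (∫ y in (0 : ℝ)..x', F y) = ∫ y in x'..x, F y :=
    intervalIntegral.integral_interval_sub_left (hF.intervalIntegrable _ _)
      (hF.intervalIntegrable _ _)
  rw [e1]
  have h1 := intervalIntegral.norm_integral_le_of_norm_le_const (a := x') (b := x) (C := 1)
    (f := F) (fun y _ => by
      rw [Real.norm_eq_abs]
      exact h y)
  rw [Real.norm_eq_abs, one_mul] at h1
  exact h1

theorem P8_Do_neg (y : ℝ) (h : y ≤ 0) : Do y = 1 := by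
  have hL := P8_Lam_pos
  unfold Do
  rw [P8_Wo_small y (by linarith [div_nonneg hL.le (by norm_num : (0 : ℝ) ≤ 20)]),
    P1_f_zero.1, P1_f_zero.2.1, K1_cl_one]
  · ring
  · have h1 : 20 * y / Lam ≤ 0 := div_nonpos_of_nonpos_of_nonneg (by linarith) hL.le
    linarith

theorem P8_triv (c t : ℝ) (h : t ≤ 0) : o1 c t = t ∧ o2 c t = 0 ∧ on1 c t = 0 ∧ on2 c t = 1 := by
  have hL := P8_Lam_pos
  have hw : ∀ y, y ≤ 0 → Wo y = 0 := fun y hy =>
    P8_Wo_small y (by linarith [div_nonneg hL.le (by norm_num : (0 : ℝ) ≤ 20)])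
  refine ⟨?_, ?_, ?_, ?_⟩
  · unfold o1
    have h1 : ∫ y in (0 : ℝ)..t, Do y = ∫ _y in (0 : ℝ)..t, (1 : ℝ) := by
      refine intervalIntegral.integral_congr fun y hy => ?_
      rw [Set.uIcc_of_ge h] at hy
      exact P8_Do_neg y hy.2
    rw [h1, intervalIntegral.integral_const, smul_eq_mul, mul_one, sub_zero]
  · unfold o2
    have h1 : ∫ y in (0 : ℝ)..t, fs (Wo y) = ∫ _y in (0 : ℝ)..t, (0 : ℝ) := by
      refine intervalIntegral.integral_congr fun y hy => ?_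
      rw [Set.uIcc_of_ge h] at hy
      show fs (Wo y) = 0
      rw [hw y hy.2]
      exact P1_f_zero.2.2
    rw [h1, intervalIntegral.integral_zero]
  · unfold on1
    rw [hw t h, P1_f_zero.2.2, neg_zero]
  · unfold on2
    rw [hw t h, abs_zero]
    ring

theorem P8_o2 (c t : ℝ) (h : 0 ≤ t) : o2 c t = Lam * G2 1 0 (t / Lam) := by
  have hL := P8_Lam_pos
  unfold o2 G2
  have h1 : ∫ y in (0 : ℝ)..t, fs (Wo y) = ∫ y in (0 : ℝ)..t, fs (pw 1 0 (y / Lam)) := by
    refine intervalIntegral.integral_congr fun y hy => ?_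
    rw [Set.uIcc_of_le h] at hy
    show fs (Wo y) = fs (pw 1 0 (y / Lam))
    unfold Wo
    rw [max_eq_left hy.1]
  rw [h1, intervalIntegral.integral_comp_div (fun z => fs (pw 1 0 z)) hL.ne', zero_div,
    smul_eq_mul]

theorem P8_drift (c t : ℝ) : |o1 c t - min t 0| ≤ KK := by
  have hL := P8_Lam_pos
  have hK : KK = 10 * Lam := by
    unfold KK Lam
    norm_num
  rcases le_total t 0 with h | h
  · rw [(P8_triv c t h).1, min_eq_left h, sub_self, abs_zero, hK]
    positivity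
  · rw [min_eq_right h, sub_zero]
    obtain ⟨ha1, ha2⟩ := P8_alo
    have hcpw : Continuous (fun y => pw 1 0 (y / Lam)) := by
      refine P8_cont _ (80 / Lam) (by positivity) fun x y => ?_
      have h1 := P2_pw_lip 1 0 (x / Lam) (y / Lam) zero_le_one le_rfl le_rfl zero_le_one
      rw [← sub_div, abs_div, abs_of_pos hL] at h1
      calc _ ≤ _ := h1
        _ = 80 / Lam * |x - y| := by ring
    have hcfp : Continuous fp := by
      unfold fp
      exact continuous_const.max (continuous_const.sub (continuous_const.mul continuous_abs))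
    have hcfm : Continuous fm := by
      unfold fm
      exact continuous_const.max ((continuous_const.mul continuous_abs).sub continuous_const)
    have hc1 : Continuous (fun y => alo * fp (pw 1 0 (y / Lam)) - fm (pw 1 0 (y / Lam))) :=
      (continuous_const.mul (hcfp.comp hcpw)).sub (hcfm.comp hcpw)
    have hccl : Continuous (fun y : ℝ => cl (1 - 20 * y / Lam)) := by
      refine P8_cont _ (20 / Lam) (by positivity) fun x y => ?_
      have h1 := K1_cl_lip (1 - 20 * x / Lam) (1 - 20 * y / Lam)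
      have e : 1 - 20 * x / Lam - (1 - 20 * y / Lam) = -(20 / Lam * (x - y)) := by ring
      rw [e, abs_neg, abs_mul, abs_of_pos (by positivity : 0 < 20 / Lam)] at h1
      exact h1
    have hc2 : Continuous (fun y : ℝ => (1 - alo) * cl (1 - 20 * y / Lam)) :=
      continuous_const.mul hccl
    have e1 : o1 c t = Lam * G1 1 0 alo (t / Lam) +
        (1 - alo) * ∫ y in (0 : ℝ)..t, cl (1 - 20 * y / Lam) := by
      unfold o1 G1
      have h1 : ∫ y in (0 : ℝ)..t, Do y = ∫ y in (0 : ℝ)..t,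
          ((alo * fp (pw 1 0 (y / Lam)) - fm (pw 1 0 (y / Lam))) +
            (1 - alo) * cl (1 - 20 * y / Lam)) := by
        refine intervalIntegral.integral_congr fun y hy => ?_
        rw [Set.uIcc_of_le h] at hy
        show Do y = _
        unfold Do Wo
        rw [max_eq_left hy.1]
      rw [h1, intervalIntegral.integral_add (hc1.intervalIntegrable _ _)
        (hc2.intervalIntegrable _ _),
        intervalIntegral.integral_comp_div (fun z => alo * fp (pw 1 0 z) - fm (pw 1 0 z)) hL.ne',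
        zero_div, smul_eq_mul, intervalIntegral.integral_const_mul]
    have h2 := (P4_bound 1 0 0 (t / Lam) zero_le_one le_rfl le_rfl zero_le_one
      (by rw [zero_add]; change 0 ≤ alo; linarith) (by rw [zero_add]; change alo ≤ 3; linarith)
      le_rfl zero_le_one).1
    rw [zero_add, zero_mul, sub_zero] at h2
    have h3 : |G1 1 0 alo (t / Lam)| ≤ 4 := h2
    have h4 : ∀ s : ℝ, 0 ≤ s → s ≤ Lam → |∫ y in (0 : ℝ)..s, cl (1 - 20 * y / Lam)| ≤ Lam := by
      intro s hs0 hs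
      have h5 := intervalIntegral.norm_integral_le_of_norm_le_const (a := 0) (b := s) (C := 1)
        (f := fun y : ℝ => cl (1 - 20 * y / Lam)) (fun y _ => by
          rw [Real.norm_eq_abs, abs_of_nonneg (K1_cl_mem _).1]
          exact (K1_cl_mem _).2)
      rw [Real.norm_eq_abs, one_mul, sub_zero, abs_of_nonneg hs0] at h5
      exact h5.trans hs
    have h5 : |∫ y in (0 : ℝ)..t, cl (1 - 20 * y / Lam)| ≤ Lam := by
      rcases le_total t Lam with h6 | h6
      · exact h4 t h h6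
      · have e2 := intervalIntegral.integral_add_adjacent_intervals
          (hccl.intervalIntegrable (μ := volume) 0 Lam) (hccl.intervalIntegrable (μ := volume) Lam t)
        have e3 : ∫ y in Lam..t, cl (1 - 20 * y / Lam) = ∫ _y in Lam..t, (0 : ℝ) := by
          refine intervalIntegral.integral_congr fun y hy => ?_
          rw [Set.uIcc_of_le h6] at hy
          exact P8_cl_zero y (by linarith [hy.1])
        rw [e3, intervalIntegral.integral_zero, add_zero] at e2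
        rw [← e2]
        exact h4 Lam hL.le le_rfl
    rw [e1]
    have h6 : |Lam * G1 1 0 alo (t / Lam)| ≤ Lam * 4 := by
      rw [abs_mul, abs_of_pos hL]
      exact mul_le_mul_of_nonneg_left h3 hL.le
    have h7 : |(1 - alo) * ∫ y in (0 : ℝ)..t, cl (1 - 20 * y / Lam)| ≤ 1 * Lam := by
      rw [abs_mul, abs_of_nonneg (by linarith : 0 ≤ 1 - alo)]
      exact mul_le_mul (by linarith) h5 (abs_nonneg _) zero_le_one
    refine (abs_add_le _ _).trans ?_
    rw [hK]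
    linarith

theorem P8_pat : Pat (fun _ => 1) olj o1 o2 on1 on2 ond KK := by
  have hL := P8_Lam_pos
  have hK : KK = 10 * Lam := by
    unfold KK Lam
    norm_num
  have hL1 : Lam = 10 ^ 8 := rfl
  have hK1 : 1 ≤ KK := by
    unfold KK
    norm_num
  have hK0 : 0 ≤ KK := by linarith
  refine ⟨hK1, fun _ => le_rfl, fun _ _ _ => by norm_num, ?_, ?_, ?_, ?_, ?_, ?_, ?_, ?_, ?_⟩
  · intro j c _ _
    show 1 ≤ 1 * Lam ∧ 1 * Lam ≤ KK
    rw [hK, hL1]
    constructor <;> norm_num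
  · intro c x x'
    have h1 := P8_int1 Do P8_cDo P8_Do_abs x x'
    have h2 := P8_int1 (fun y => fs (Wo y)) P8_cfs (fun y => (P1_f_mem _ (P8_Wo_abs y)).2.2.2.2) x x'
    have h3 : |x - x'| ≤ KK * (1 * |x - x'|) := by
      rw [one_mul]
      exact le_mul_of_one_le_left (abs_nonneg _) hK1
    exact ⟨h1.trans h3, h2.trans h3⟩
  · intro c c' x
    have h1 : 0 ≤ KK * |c - c'| := by positivity
    refine ⟨?_, ?_, ?_, ?_⟩
    · show |(∫ y in (0 : ℝ)..x, Do y) - ∫ y in (0 : ℝ)..x, Do y| ≤ _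
      rw [sub_self, abs_zero]
      exact h1
    · show |(∫ y in (0 : ℝ)..x, fs (Wo y)) - ∫ y in (0 : ℝ)..x, fs (Wo y)| ≤ _
      rw [sub_self, abs_zero]
      exact h1
    · show |(-fs (Wo x)) - (-fs (Wo x))| ≤ _
      rw [sub_self, abs_zero]
      exact h1
    · show |(1 - 2 * |Wo x|) - (1 - 2 * |Wo x|)| ≤ _
      rw [sub_self, abs_zero]
      exact h1
  · intro c x x'
    have h1 := P8_Wo_lip x x'
    have h2 : 160 * (|x - x'| / Lam) ≤ 1 * |x - x'| / 10 ^ 5 := by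
      rw [hL1]
      have := abs_nonneg (x - x')
      have e : 160 * (|x - x'| / 10 ^ 8) = |x - x'| * (160 / 10 ^ 8) := by ring
      have e' : 1 * |x - x'| / 10 ^ 5 = |x - x'| * (1 / 10 ^ 5) := by ring
      rw [e, e']
      exact mul_le_mul_of_nonneg_left (by norm_num) this
    constructor
    · show |(-fs (Wo x)) - (-fs (Wo x'))| ≤ _
      have h3 := P1_fs_lip (Wo x) (Wo x')
      have e : (-fs (Wo x)) - (-fs (Wo x')) = -(fs (Wo x) - fs (Wo x')) := by ring
      rw [e, abs_neg]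
      linarith
    · show |(1 - 2 * |Wo x|) - (1 - 2 * |Wo x'|)| ≤ _
      have h3 := abs_abs_sub_abs_le (Wo x) (Wo x')
      have e : (1 - 2 * |Wo x|) - (1 - 2 * |Wo x'|) = -(2 * (|Wo x| - |Wo x'|)) := by ring
      rw [e, abs_neg, abs_mul, abs_of_pos (by norm_num : (0 : ℝ) < 2)]
      linarith
  · intro c x
    have h1 := P8_Wo_abs x
    constructor
    · show |-fs (Wo x)| ≤ 1
      rw [abs_neg]
      exact (P1_f_mem _ h1).2.2.2.2
    · show |(1 - 2 * |Wo x|)| ≤ 1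
      have h2 := abs_nonneg (Wo x)
      rw [abs_le]
      constructor <;> linarith
  · intro c x0
    refine ⟨Do x0, fs (Wo x0), (P8_Do_abs x0).trans (by norm_num),
      (P1_f_mem _ (P8_Wo_abs x0)).2.2.2.2, P8_Do_det x0, ?_⟩
    intro x x' hx hx'
    rw [one_mul] at hx hx'
    have hE : ∀ y, |y - x0| ≤ 1 → 340 / Lam * |y - x0| ≤ 1 / 10 ^ 5 := by
      intro y hy
      have h1 : 340 / Lam * |y - x0| ≤ 340 / Lam * 1 := mul_le_mul_of_nonneg_left hy (by positivity)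
      refine h1.trans ?_
      rw [hL1]
      norm_num
    have h1 := P8_int Do P8_cDo (1 / 10 ^ 5) x0
      (fun y hy => (P8_Do_lip y x0).trans (hE y hy)) x x' hx hx'
    have h2 := P8_int (fun y => fs (Wo y)) P8_cfs (1 / 10 ^ 5) x0
      (fun y hy => (P8_fs_lip y x0).trans (hE y hy)) x x' hx hx'
    have e : 1 / 10 ^ 5 * |x - x'| = 1 * |x - x'| / 10 ^ 5 := by ring
    rw [e] at h1 h2
    constructor
    · show |(∫ y in (0 : ℝ)..x, Do y) - (∫ y in (0 : ℝ)..x', Do y) - 1 * (x - x') * Do x0| ≤ _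
      rw [one_mul]
      exact h1
    · show |(∫ y in (0 : ℝ)..x, fs (Wo y)) - (∫ y in (0 : ℝ)..x', fs (Wo y)) -
        1 * (x - x') * fs (Wo x0)| ≤ _
      rw [one_mul]
      exact h2
  · intro c x
    rcases le_total x 0 with h | h
    · rw [(P8_triv c x h).2.1, abs_zero]
      exact hK0
    · rw [P8_o2 c x h, abs_mul, abs_of_pos hL, hK]
      have h2 := (P4_bound 1 0 0 (x / Lam) zero_le_one le_rfl le_rfl zero_le_one
        (by rw [zero_add]; change 0 ≤ alo; linarith [P8_alo.1])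
        (by rw [zero_add]; change alo ≤ 3; linarith [P8_alo.2]) le_rfl zero_le_one).2
      have h3 := mul_le_mul_of_nonneg_left h2 hL.le
      linarith
  · intro j m x c h1 h2 _ _
    rcases le_total x 0 with h | h
    · obtain ⟨-, h3, h4, h5⟩ := P8_triv c x h
      exact ⟨h4, h5, h3⟩
    · have h1' : -(3 / 10) ≤ x / Lam - m := h1
      have h2' : x / Lam - m ≤ 1 / 20 := h2
      have h3 : Wo x = 0 := by
        unfold Wo
        rw [max_eq_left h]
        exact P2_pw_zero 1 0 _ m le_rfl zero_le_one h1' h2'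
      refine ⟨?_, ?_, ?_⟩
      · show -fs (Wo x) = 0
        rw [h3, P1_f_zero.2.2, neg_zero]
      · show 1 - 2 * |Wo x| = 1
        rw [h3, abs_zero]
        ring
      · rw [P8_o2 c x h, P4_col 1 0 (x / Lam) m zero_le_one le_rfl le_rfl zero_le_one h1' h2',
          mul_zero]
  · intro j m hm x c _ h2 _ _
    have hm' : ¬ (0 ≤ m) := hm
    have h2' : x / Lam ≤ m + 1 := h2
    have hm1 : (m : ℝ) + 1 ≤ 0 := by
      have : m + 1 ≤ 0 := by omega
      exact_mod_cast this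
    have hx : x ≤ 0 := by
      by_contra hcon
      push Not at hcon
      have : 0 < x / Lam := div_pos hcon hL
      linarith
    obtain ⟨-, h3, h4, h5⟩ := P8_triv c x hx
    exact ⟨h4, h5, h3⟩

end H80.LD

end S_H80_LD_P8

section S_H80_LD_C1

/-!
# C1: the first fold (the coordinate `t` is folded, with the help of a lateral coordinate `x ≠ t`)

`β = fold (fun _ => 1) ∅ t x o1 o2 on1 on2` (folded coordinate `a = t`, `b = x`, `H = ∅`), `P8_pat`, `M6_pimm`: punctured immersion with weights `wgt (fun _ => 1) _ _ = 1 = wgt sg ∅ t`.  `NP ε L U e e'` is `NI` with weights `1` (`T0b_one`; write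
`sc (fun _ => 1) v = v`).  `T5_transfer` with `L`: `R_T, ε_T, C'`.
`C1_fold_triv`: if `g1 c x = x`, `g2 c x = 0`, `ν1 c x = 0`, `ν2 c x = 1` at `c = cb σ H a b p.2`, `x = p.2 a`, then `fold p = p`.
Displacement of `β`: `(β q).2 i = q.2 i` for `i ≠ t, x`; `|(β q).2 x - q.2 x| ≤ KK + 2` (`M3_disp`); `|(β q).2 t - min (q.2 t) 0| ≤ |o1 - min| + |q.2 x - c| |on1| ≤ KK + 1` (`P8_drift`, `K3_abs`, `p3b`).
`R = R_T + KK + 2`: if `p ∈ VV t R U` and `‖q - p‖ ≤ R_T` then `vn t R p (β q)`, so `β q ∈ U`  (`|min (q t) 0 - min (p t) 0| ≤ |q t - p t|`).  So the transferred pair is `NI` on `VV t R U` (restrict).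
* identity property: `e (β q) = β q` for `q` in the `R_T`-ball as `vn t R p (β q)`.
* `p.2 t ≤ -Lp - 2`: `ndd olj ond x t p.2` is `0 ≤ ⌊p.2 t / Lam + 1/8⌋`, false as `p.2 t / Lam ≤ -100`; on the `r`-ball (`r ≤ 1`) `q.2 t ≤ 0`, so `P8_triv` and `C1_fold_triv` give `β q = q`; the last property of T5.
-/

open Filter Topology Metric Set

namespace H80.LD

theorem C1_fold_triv {X : Type*} [NormedAddCommGroup X] {D : Type*} [Fintype D] [DecidableEq D] (σ : ℝ → ℝ)
    (H : Finset D) (a b : D) (g1 g2 ν1 ν2 : ℝ → ℝ → ℝ) (hab : a ≠ b) (p : X × (D → ℝ))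
    (h : g1 (cb σ H a b p.2) (p.2 a) = p.2 a ∧ g2 (cb σ H a b p.2) (p.2 a) = 0 ∧ ν1 (cb σ H a b p.2) (p.2 a) = 0 ∧
      ν2 (cb σ H a b p.2) (p.2 a) = 1) : fold σ H a b g1 g2 ν1 ν2 p = p := by
  obtain ⟨h1, h2, h3, h4⟩ := h
  unfold fold
  refine Prod.ext rfl ?_
  funext i
  show (if i = a then ph1 g1 ν1 (cb σ H a b p.2) (p.2 a) (p.2 b)
    else if i = b then ph2 g2 ν2 (cb σ H a b p.2) (p.2 a) (p.2 b) else p.2 i) = p.2 i
  split_ifs with h5 h6
  · unfold ph1
    rw [h1, h3, h5]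
    ring
  · unfold ph2
    rw [h2, h4, h6]
    ring
  · rfl

theorem C1_NI_one {X : Type*} [NormedAddCommGroup X] {D : Type*} [Fintype D] [DecidableEq D] {ε L : ℝ}
    {U : Set (X × (D → ℝ))} {e e' : X × (D → ℝ) → X × (D → ℝ)} (W : X × (D → ℝ) → D → ℝ) (hW : ∀ p i, W p i = 1) :
    NP ε L U e e' ↔ NI W ε L U e e' := by
  have hs : ∀ (p v : X × (D → ℝ)), ‖sc (W p) v‖ = ‖v‖ := by
    intro p v
    have h1 : W p = fun _ => (1 : ℝ) := funext (hW p)
    rw [h1, T0b_one]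
  constructor
  · intro h
    exact
      { pres := h.pres
        pres' := h.pres'
        disp := fun p hp => by rw [hs]; exact h.disp p hp
        disp' := fun p hp => by rw [hs]; exact h.disp' p hp
        lip := fun p hp => by simp only [hs]; exact h.lip p hp
        lip' := fun p hp => by simp only [hs]; exact h.lip' p hp
        inv := h.inv
        inv' := h.inv' }
  · intro h
    exact
      { pres := h.pres
        pres' := h.pres'
        disp := fun p hp => by rw [← hs p]; exact h.disp p hp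
        disp' := fun p hp => by rw [← hs p]; exact h.disp' p hp
        lip := fun p hp => by
          have := h.lip p hp
          simp only [hs] at this
          exact this
        lip' := fun p hp => by
          have := h.lip' p hp
          simp only [hs] at this
          exact this
        inv := h.inv
        inv' := h.inv' }

/-- restriction of a pair, weights one -/
theorem C1_restr {X : Type*} [NormedAddCommGroup X] {D : Type*} [Fintype D] [DecidableEq D] {ε L : ℝ}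
    {U V : Set (X × (D → ℝ))} {e e' : X × (D → ℝ) → X × (D → ℝ)} (hUV : V ⊆ U) (h : NP ε L U e e') :
    NP ε L V e e' :=
  { pres := h.pres
    pres' := h.pres'
    disp := fun p hp => h.disp p (hUV hp)
    disp' := fun p hp => h.disp' p (hUV hp)
    lip := fun p hp => h.lip p (hUV hp)
    lip' := fun p hp => h.lip' p (hUV hp)
    inv := fun p hp hp' => h.inv p (hUV hp) (hUV hp')
    inv' := fun p hp hp' => h.inv' p (hUV hp) (hUV hp') }

theorem C1_vn {X : Type*} [NormedAddCommGroup X] {D : Type*} [Fintype D] [DecidableEq D] (t x : D) (hx : x ≠ t)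
    (R : ℝ) (hR : 1 ≤ R) (p q : X × (D → ℝ)) (hq : ‖q - p‖ ≤ R) :
    vn t (R + KK + 2) p (fold (fun _ => 1) ∅ t x o1 o2 on1 on2 q) := by
  have hK : 0 ≤ KK := by unfold KK; norm_num
  have hc : ∀ i, |q.2 i - p.2 i| ≤ R := by
    intro i
    have h1 : ‖(q - p).2 i‖ ≤ ‖(q - p).2‖ := norm_le_pi_norm _ i
    have h2 : ‖(q - p).2‖ ≤ ‖q - p‖ := norm_snd_le _
    exact h1.trans (h2.trans hq)
  refine ⟨?_, ?_, ?_⟩
  · have h1 : ‖(q - p).1‖ ≤ ‖q - p‖ := norm_fst_le _
    have h2 : ‖(fold (fun _ => 1) ∅ t x o1 o2 on1 on2 q).1 - p.1‖ = ‖(q - p).1‖ := rfl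
    rw [h2]
    linarith
  · intro i hi
    by_cases hix : i = x
    · subst hix
      have h1 := M3_disp P8_pat (∅ : Finset D) t i hx.symm q
      have h2 := hc i
      have h3 := abs_add_le ((fold (fun _ => 1) ∅ t i o1 o2 on1 on2 q).2 i - q.2 i) (q.2 i - p.2 i)
      rw [sub_add_sub_cancel] at h3
      linarith
    · have h1 : (fold (fun _ => 1) ∅ t x o1 o2 on1 on2 q).2 i = q.2 i := by
        show (if i = t then _ else if i = x then _ else q.2 i) = q.2 i
        rw [if_neg hi, if_neg hix]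
      rw [h1]
      have h2 := hc i
      linarith
  · have h1 : (fold (fun _ => 1) ∅ t x o1 o2 on1 on2 q).2 t =
        ph1 o1 on1 (cb (fun _ => 1) ∅ t x q.2) (q.2 t) (q.2 x) := by
      show (if t = t then ph1 o1 on1 (cb (fun _ => 1) ∅ t x q.2) (q.2 t) (q.2 x)
        else if t = x then _ else q.2 t) = _
      rw [if_pos rfl]
    rw [h1]
    unfold ph1
    have h2 := P8_drift (cb (fun _ => 1) ∅ t x q.2) (q.2 t)
    have h3 := K3_abs (fun _ => 1) ∅ t x q.2
    have h4 := (P8_pat.p3b (cb (fun _ => 1) ∅ t x q.2) (q.2 t)).1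
    have h5 : |(q.2 x - cb (fun _ => 1) ∅ t x q.2) * on1 (cb (fun _ => 1) ∅ t x q.2) (q.2 t)| ≤ 1 := by
      rw [abs_mul]
      exact mul_le_one₀ h3 (abs_nonneg _) h4
    have h6 : |min (q.2 t) 0 - min (p.2 t) 0| ≤ |q.2 t - p.2 t| := by
      have h61 := abs_min_sub_min_le_max (q.2 t) 0 (p.2 t) 0
      rwa [sub_self, abs_zero, max_eq_left (abs_nonneg _)] at h61
    have h7 := hc t
    rw [abs_le] at h2 h5 h7 ⊢
    have h8 := abs_le.1 (h6.trans (hc t))
    constructor <;> linarith [h2.1, h2.2, h5.1, h5.2, h7.1, h7.2, h8.1, h8.2]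

theorem C1_base (X : Type) [NormedAddCommGroup X] (D : Type) [Fintype D] [DecidableEq D] (t x : D) (hx : x ≠ t) :
    ChainStmt X D t ∅ := by
  intro L hL
  have hP := M6_pimm (X := X) P8_pat (∅ : Finset D) t x hx.symm (Finset.notMem_empty _) (Finset.notMem_empty _)
  obtain ⟨R, hR, ε₀, hε₀, C', hC', hT⟩ := T5_transfer hP L hL
  have hK : 0 ≤ KK := by unfold KK; norm_num
  have hW : ∀ (p : X × (D → ℝ)) (i : D), wgt (fun _ => 1) (insert t (∅ : Finset D)) x p i = 1 := by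
    intro p i
    unfold wgt
    rw [ite_self]
  have hW' : ∀ (p : X × (D → ℝ)) (i : D), wgt (fun _ => 1) (∅ : Finset D) x p i = 1 := by
    intro p i
    unfold wgt
    rw [ite_self]
  have hWs : ∀ (p : X × (D → ℝ)) (i : D), wgt sg (∅ : Finset D) t p i = 1 := by
    intro p i
    unfold wgt
    rw [if_neg (Finset.notMem_empty _)]
  have hs : ∀ (p v : X × (D → ℝ)), ‖sc (wgt (fun _ => 1) (insert t (∅ : Finset D)) x p) v‖ = ‖v‖ := by
    intro p v
    have h1 : wgt (fun _ => 1) (insert t (∅ : Finset D)) x p = fun _ => (1 : ℝ) := funext (hW p)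
    rw [h1, T0b_one]
  refine ⟨R + KK + 2, by linarith, ε₀, hε₀, C', hC', ?_⟩
  intro ε hε hεle U e e' hN
  obtain ⟨E, E', h1, h2, h3⟩ := hT ε hε hεle U e e' ((C1_NI_one _ hW').1 hN)
  simp only [hs] at h1 h2 h3
  have hsub : VV t (R + KK + 2) U ⊆
      {p | ∀ q : X × (D → ℝ), ‖q - p‖ ≤ R → fold (fun _ => 1) ∅ t x o1 o2 on1 on2 q ∈ U} := by
    intro p hp q hq
    exact hp _ (C1_vn t x hx R hR p q hq)
  refine ⟨E, E', ?_, ?_, ?_⟩
  · exact (C1_NI_one _ hWs).1 (C1_restr hsub ((C1_NI_one _ hW).2 h1))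
  · intro p hp hz
    exact h2 p (hsub hp) fun q hq => hz _ (C1_vn t x hx R hR p q hq)
  · intro p hp ht
    have hLp : Lp = 10 ^ 10 := rfl
    have hLam : Lam = 10 ^ 8 := rfl
    refine h3 p (hsub hp) ?_ ?_
    · unfold ndd ond olj
      intro hcon
      have h4 := Int.floor_le (p.2 t / Lam + 1 / 8)
      have h5 : (0 : ℝ) ≤ (⌊p.2 t / Lam + 1 / 8⌋ : ℝ) := by exact_mod_cast hcon
      have h6 : p.2 t / Lam ≤ -1 := by
        rw [hLam, div_le_iff₀ (by norm_num)]
        rw [hLp] at ht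
        linarith
      linarith
    · intro q hq
      have hr1 : rr t x ≤ 1 := by linarith [hP.r1]
      have h4 : |q.2 t - p.2 t| ≤ 1 := by
        have h5 : ‖(q - p).2 t‖ ≤ ‖(q - p).2‖ := norm_le_pi_norm _ t
        have h6 : ‖(q - p).2‖ ≤ ‖q - p‖ := norm_snd_le _
        exact h5.trans (h6.trans (hq.trans hr1))
      have h5 : q.2 t ≤ 0 := by
        rw [abs_le] at h4
        rw [hLp] at ht
        linarith [h4.2]
      exact C1_fold_triv _ _ _ _ _ _ _ _ hx.symm q (P8_triv _ _ h5)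

end H80.LD

end S_H80_LD_C1

section S_H80_LD_P7

/-!
# P7: the growing pattern is a pattern (`Pat`)

`i = lev c`, `A = am c`, `θ = th i c`, `α = al i c`, `z = x / lam' i`; `P5_lev, P5_th, P5_al, P5_size`.  `sg c * |z - z'| = sg c |x - x'| / lam' i`, `lam' i * sg c ∈ [Lam, 2 Lam]`, `1/lam' i ≤ sg c / Lam`.
* `s1, s2`: P5 (`KK + 3 ≤ Lp`).  `l1`: `blj j = lam' (lev j)`, `P5_levj`, `P5_size`: `Lam ≤ ... ≤ 2 Lam ≤ KK`.
* `p1`: `|g1f i c x - g1f i c x'| ≤ lam' i * sg c * 3 |z - z'| = 3 sg c |x - x'|`.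
* `p2`: `P6_global`.  `p3`: `|fs (pw z) - fs (pw z')| ≤ 160 |z - z'| ≤ 160 sg c |x-x'| / Lam ≤ ../10^5`; same for `2 |pw|`.  `p3b`: `|pw| ≤ 1`, `|fs| ≤ 1`.
* `p4`: `D1 = α fp w - fm w`, `D2 = fs w`, `w = Wf i c x0`: `P1_D`, `P1_f_mem`, `P1_det`; if `sg c |x - x0| ≤ 1` then `|z - z0| ≤ 1/(sg c * lam' i) ≤ 1/Lam =: ρ`; `P4_lin`: error `≤ lam' i * sg c * 640 ρ |z - z'| = 640/Lam * sg c |x - x'| ≤ sg c |x-x'|/10^5`.
* `p5`: `|g2f| ≤ 2 Lam * 1` (`P4_bound`).
* `p6`: `j ≤ c ≤ j+1`, `i' = lev j`: `P5_levj`, `P5_cons` (`Wf i' c x = Wf (lev c) c x` etc.), `x / lam' i'` is in the column: `P2_pw_zero`, `P4_col`; `fs 0 = 0`.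
* `p7`: `¬ bnd j m` means `j < -Lp`, so (integers) `j + 1 ≤ -Lp`, `c ≤ -Lp`, `am c = cl (1 + c/Lp) = 0`: `P2_amp0`, `P4_amp0`.
* `P7_drift`: `|b1 c x - x| ≤ KK`: `P4_bound` with `μ = 1/sg c`: `|G1 z - μ z| ≤ 4`, times `lam' i * sg c ≤ 2 Lam`, `lam' i * sg c * μ z = x`.
* `P7_triv`: `c ≤ -Lp`: `am c = 0`, `sg c = 1`, `al = 1` (`P3_amp0`), `G1 0 θ 1 z = z`: `b1 c x = x`, `b2 = 0`, `bn1 = 0`, `bn2 = 1`.
-/

open Filter Topology Metric Set MeasureTheory

namespace H80.LD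

theorem P7_lam_pos (i : ℕ) : 0 < lam' i := by
  unfold lam' Lam
  positivity

/-- all parameters of the level of `c` -/
theorem P7_data (c : ℝ) : (0 ≤ th (lev c) c ∧ th (lev c) c ≤ 1 ∧ 0 ≤ am c ∧ am c ≤ 1) ∧
    (1 / 20 ≤ al (lev c) c ∧ al (lev c) c ≤ 3) ∧
    (Lam ≤ lam' (lev c) * sg c ∧ lam' (lev c) * sg c ≤ 2 * Lam) := by
  obtain ⟨h1, h2⟩ := P5_lev c
  exact ⟨P5_th _ _ h1 h2, P5_al _ _ h1 h2, P5_size _ _ h1 h2⟩

theorem P7_z (c x x' : ℝ) :
    |x / lam' (lev c) - x' / lam' (lev c)| ≤ sg c * |x - x'| / Lam := by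
  obtain ⟨-, -, h1, -⟩ := P7_data c
  have h2 := P7_lam_pos (lev c)
  have h3 : 0 < Lam := by unfold Lam; norm_num
  rw [← sub_div, abs_div, abs_of_pos h2, div_le_div_iff₀ h2 h3]
  nlinarith [abs_nonneg (x - x')]

theorem P7_zz (c x x' : ℝ) :
    lam' (lev c) * sg c * |x / lam' (lev c) - x' / lam' (lev c)| = sg c * |x - x'| := by
  have h2 := P7_lam_pos (lev c)
  rw [← sub_div, abs_div, abs_of_pos h2]
  field_simp

theorem P7_sg_pos (c : ℝ) : 0 < sg c := lt_of_lt_of_le one_pos (P5_sg c)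

theorem P7_W_lip (c x x' : ℝ) :
    |Wf (lev c) c x - Wf (lev c) c x'| ≤ 80 * (sg c * |x - x'| / Lam) := by
  obtain ⟨⟨h0, h1, h2, h3⟩, -, -⟩ := P7_data c
  refine (P2_pw_lip _ _ _ _ h2 h3 h0 h1).trans ?_
  exact mul_le_mul_of_nonneg_left (P7_z c x x') (by norm_num)

theorem P7_W_abs (c x : ℝ) : |Wf (lev c) c x| ≤ 1 := by
  obtain ⟨⟨h0, h1, h2, h3⟩, -, -⟩ := P7_data c
  exact P2_pw_abs _ _ _ h2 h3 h0 h1

theorem P7_small (c x x' : ℝ) :
    160 * (sg c * |x - x'| / Lam) ≤ sg c * |x - x'| / 10 ^ 5 := by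
  have h : 0 ≤ sg c * |x - x'| := mul_nonneg (P7_sg_pos c).le (abs_nonneg _)
  unfold Lam
  rw [← mul_div_assoc, div_le_div_iff₀ (by norm_num) (by norm_num)]
  nlinarith

theorem P7_bound (c x : ℝ) : |b1 c x - x| ≤ 8 * Lam ∧ |b2 c x| ≤ 2 * Lam := by
  obtain ⟨⟨h0, h1, h2, h3⟩, ⟨h4, h5⟩, ⟨h6, h7⟩⟩ := P7_data c
  have hs := P5_sg c
  have hsp := P7_sg_pos c
  have hl := P7_lam_pos (lev c)
  obtain ⟨k1, k2⟩ := P4_bound (am c) (th (lev c) c) (1 / sg c) (x / lam' (lev c)) h2 h3 h0 h1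
    (by
      change 0 ≤ al (lev c) c
      linarith) h5 (by positivity) (by
      rw [div_le_one hsp]
      exact hs)
  have hp : 0 < lam' (lev c) * sg c := mul_pos hl hsp
  constructor
  · have e : b1 c x - x = lam' (lev c) * sg c *
        (G1 (am c) (th (lev c) c) ((1 / sg c + Im (am c) (th (lev c) c)) / Ip (am c) (th (lev c) c))
          (x / lam' (lev c)) - 1 / sg c * (x / lam' (lev c))) := by
      rw [mul_sub]
      congr 1
      field_simp
    rw [e, abs_mul, abs_of_pos hp]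
    have := mul_le_mul h7 k1 (abs_nonneg _) (by linarith)
    linarith
  · have e : b2 c x = lam' (lev c) * sg c * G2 (am c) (th (lev c) c) (x / lam' (lev c)) := rfl
    rw [e, abs_mul, abs_of_pos hp]
    have := mul_le_mul h7 k2 (abs_nonneg _) (by linarith)
    linarith

theorem P7_lin (c x0 : ℝ) : ∃ D1 D2 : ℝ, |D1| ≤ 3 ∧ |D2| ≤ 1 ∧
    1 / 40 ≤ D1 * bn2 c x0 - D2 * bn1 c x0 ∧
    ∀ x x', sg c * |x - x0| ≤ 1 → sg c * |x' - x0| ≤ 1 →
      |b1 c x - b1 c x' - sg c * (x - x') * D1| ≤ sg c * |x - x'| / 10 ^ 5 ∧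
      |b2 c x - b2 c x' - sg c * (x - x') * D2| ≤ sg c * |x - x'| / 10 ^ 5 := by
  obtain ⟨⟨h0, h1, h2, h3⟩, ⟨h4, h5⟩, ⟨h6, h7⟩⟩ := P7_data c
  have hW := P7_W_abs c x0
  have hsp := P7_sg_pos c
  have hl := P7_lam_pos (lev c)
  have hp : 0 < lam' (lev c) * sg c := mul_pos hl hsp
  have hLam : 0 < Lam := by unfold Lam; norm_num
  refine ⟨al (lev c) c * fp (Wf (lev c) c x0) - fm (Wf (lev c) c x0), fs (Wf (lev c) c x0),
    P1_D _ _ hW (by linarith) h5, (P1_f_mem _ hW).2.2.2.2, P1_det _ _ hW h4, ?_⟩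
  intro x x' hx hx'
  have hz : ∀ y, sg c * |y - x0| ≤ 1 → |y / lam' (lev c) - x0 / lam' (lev c)| ≤ 1 / Lam := by
    intro y hy
    exact (P7_z c y x0).trans (div_le_div_of_nonneg_right hy hLam.le)
  obtain ⟨k1, k2⟩ := P4_lin (am c) (th (lev c) c) (al (lev c) c) (x / lam' (lev c))
    (x' / lam' (lev c)) (x0 / lam' (lev c)) (1 / Lam) h2 h3 h0 h1 (by linarith) h5 (hz x hx) (hz x' hx')
  have hfin : ∀ E : ℝ, |E| ≤ 640 * (1 / Lam) * |x / lam' (lev c) - x' / lam' (lev c)| →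
      |lam' (lev c) * sg c * E| ≤ sg c * |x - x'| / 10 ^ 5 := by
    intro E hE
    rw [abs_mul, abs_of_pos hp]
    refine (mul_le_mul_of_nonneg_left hE hp.le).trans ?_
    have e := P7_zz c x x'
    have e2 : lam' (lev c) * sg c * (640 * (1 / Lam) * |x / lam' (lev c) - x' / lam' (lev c)|) =
        640 * (1 / Lam) * (sg c * |x - x'|) := by
      rw [← e]
      ring
    rw [e2]
    have h : 0 ≤ sg c * |x - x'| := mul_nonneg hsp.le (abs_nonneg _)
    unfold Lam
    rw [le_div_iff₀ (by norm_num)]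
    nlinarith
  have hd : lam' (lev c) * (x / lam' (lev c) - x' / lam' (lev c)) = x - x' := by
    field_simp
  constructor
  · have e : b1 c x - b1 c x' -
        sg c * (x - x') * (al (lev c) c * fp (Wf (lev c) c x0) - fm (Wf (lev c) c x0)) =
        lam' (lev c) * sg c * (G1 (am c) (th (lev c) c) (al (lev c) c) (x / lam' (lev c)) -
          G1 (am c) (th (lev c) c) (al (lev c) c) (x' / lam' (lev c)) -
          (x / lam' (lev c) - x' / lam' (lev c)) *
            (al (lev c) c * fp (pw (am c) (th (lev c) c) (x0 / lam' (lev c))) -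
              fm (pw (am c) (th (lev c) c) (x0 / lam' (lev c))))) := by
      rw [← hd]
      unfold b1 g1f Wf
      ring
    rw [e]
    exact hfin _ k1
  · have e : b2 c x - b2 c x' - sg c * (x - x') * fs (Wf (lev c) c x0) =
        lam' (lev c) * sg c * (G2 (am c) (th (lev c) c) (x / lam' (lev c)) -
          G2 (am c) (th (lev c) c) (x' / lam' (lev c)) -
          (x / lam' (lev c) - x' / lam' (lev c)) *
            fs (pw (am c) (th (lev c) c) (x0 / lam' (lev c)))) := by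
      rw [← hd]
      unfold b2 g2f Wf
      ring
    rw [e]
    exact hfin _ k2

theorem P7_lip1 (c x x' : ℝ) : |b1 c x - b1 c x'| ≤ KK * (sg c * |x - x'|) ∧
    |b2 c x - b2 c x'| ≤ KK * (sg c * |x - x'|) := by
  obtain ⟨⟨h0, h1, h2, h3⟩, ⟨h4, h5⟩, -⟩ := P7_data c
  have hsp := P7_sg_pos c
  have hl := P7_lam_pos (lev c)
  have hp : 0 < lam' (lev c) * sg c := mul_pos hl hsp
  obtain ⟨k1, k2⟩ := P4_lip (am c) (th (lev c) c) (al (lev c) c) (x / lam' (lev c))
    (x' / lam' (lev c)) h2 h3 h0 h1 (by linarith) h5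
  have e := P7_zz c x x'
  have h : 0 ≤ sg c * |x - x'| := mul_nonneg hsp.le (abs_nonneg _)
  have hK : (3 : ℝ) ≤ KK := by unfold KK; norm_num
  constructor
  · have e1 : b1 c x - b1 c x' = lam' (lev c) * sg c *
        (G1 (am c) (th (lev c) c) (al (lev c) c) (x / lam' (lev c)) -
          G1 (am c) (th (lev c) c) (al (lev c) c) (x' / lam' (lev c))) := by
      unfold b1 g1f
      ring
    rw [e1, abs_mul, abs_of_pos hp]
    have := mul_le_mul_of_nonneg_left k1 hp.le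
    nlinarith
  · have e1 : b2 c x - b2 c x' = lam' (lev c) * sg c *
        (G2 (am c) (th (lev c) c) (x / lam' (lev c)) -
          G2 (am c) (th (lev c) c) (x' / lam' (lev c))) := by
      unfold b2 g2f
      ring
    rw [e1, abs_mul, abs_of_pos hp]
    have := mul_le_mul_of_nonneg_left k2 hp.le
    nlinarith

theorem P7_of_zero (c x : ℝ) (hW : Wf (lev c) c x = 0) : bn1 c x = 0 ∧ bn2 c x = 1 := by
  unfold bn1 bn2
  rw [hW, P1_f_zero.2.2, abs_zero, mul_zero, sub_zero, neg_zero]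
  exact ⟨rfl, rfl⟩

theorem P7_am0 (c : ℝ) (h : c ≤ -Lp) : am c = 0 := by
  unfold am
  refine K1_cl_zero _ ?_
  have hL : 0 < Lp := by unfold Lp; norm_num
  have h2 : c / Lp ≤ -1 := by
    rw [div_le_iff₀ hL]
    linarith
  linarith

theorem P7_triv (c x : ℝ) (h : c ≤ -Lp) : b1 c x = x ∧ b2 c x = 0 ∧ bn1 c x = 0 ∧ bn2 c x = 1 := by
  have ha := P7_am0 c h
  have hL : 0 < Lp := by unfold Lp; norm_num
  have hs : sg c = 1 := P5_sg_neg c (by linarith)
  have hl := P7_lam_pos (lev c)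
  have hW : Wf (lev c) c x = 0 := by
    unfold Wf
    rw [ha, P2_amp0]
  refine ⟨?_, ?_, (P7_of_zero c x hW).1, (P7_of_zero c x hW).2⟩
  · unfold b1 g1f al
    rw [ha, hs, (P3_amp0 _).1, (P3_amp0 _).2, add_zero, div_one, div_one, (P4_amp0 _ _).1, mul_one]
    field_simp
  · unfold b2 g2f
    rw [ha, (P4_amp0 _ _).2, mul_zero]

theorem P7_pat : Pat sg blj b1 b2 bn1 bn2 bnd KK where
  K1 := by unfold KK; norm_num
  s1 := P5_sg
  s2 := by
    intro c c' h
    refine P5_sg_slow c c' (h.trans ?_)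
    unfold KK Lp
    norm_num
  l1 := by
    intro j c h h'
    obtain ⟨h1, h2⟩ := P5_levj j c h h'
    obtain ⟨h3, h4⟩ := P5_size _ _ h1 h2
    unfold blj
    rw [mul_comm]
    refine ⟨le_trans ?_ h3, h4.trans ?_⟩
    · unfold Lam
      norm_num
    · unfold Lam KK
      norm_num
  p1 := P7_lip1
  p2 := by
    intro c c' x
    obtain ⟨h1, h2, h3, h4⟩ := P6_global c c' x
    have h : 20 * |c - c'| ≤ KK * |c - c'| :=
      mul_le_mul_of_nonneg_right (by unfold KK; norm_num) (abs_nonneg _)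
    exact ⟨h1.trans h, h2.trans h, h3.trans h, h4.trans h⟩
  p3 := by
    intro c x x'
    have hW := P7_W_lip c x x'
    have hs := P7_small c x x'
    constructor
    · have h1 := P1_fs_lip (Wf (lev c) c x') (Wf (lev c) c x)
      have e : bn1 c x - bn1 c x' = fs (Wf (lev c) c x') - fs (Wf (lev c) c x) := by
        unfold bn1
        ring
      rw [e]
      rw [abs_sub_comm (Wf (lev c) c x')] at h1
      linarith
    · have h1 := abs_abs_sub_abs_le_abs_sub (Wf (lev c) c x') (Wf (lev c) c x)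
      have e : bn2 c x - bn2 c x' = 2 * (|Wf (lev c) c x'| - |Wf (lev c) c x|) := by
        unfold bn2
        ring
      rw [e, abs_mul, abs_of_pos (by norm_num : (0 : ℝ) < 2)]
      rw [abs_sub_comm (Wf (lev c) c x')] at h1
      linarith
  p3b := by
    intro c x
    have hW := P7_W_abs c x
    constructor
    · unfold bn1
      rw [abs_neg]
      exact (P1_f_mem _ hW).2.2.2.2
    · unfold bn2
      rw [abs_le]
      have := abs_nonneg (Wf (lev c) c x)
      constructor <;> linarith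
  p4 := P7_lin
  p5 := by
    intro c x
    refine (P7_bound c x).2.trans ?_
    unfold Lam KK
    norm_num
  p6 := by
    intro j m x c h1 h2 h3 h4
    obtain ⟨k1, k2⟩ := P5_levj j c h3 h4
    obtain ⟨c1, -, c3, -⟩ := P5_cons _ c x k1 k2
    obtain ⟨t0, t1, t2, t3⟩ := P5_th _ _ k1 k2
    have hW : Wf (lev c) c x = 0 := by
      rw [← c1]
      exact P2_pw_zero _ _ _ m t0 t1 h1 h2
    refine ⟨(P7_of_zero c x hW).1, (P7_of_zero c x hW).2, ?_⟩
    have e : b2 c x = g2f (lev (j : ℝ)) c x := c3.symm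
    rw [e]
    have e2 : G2 (am c) (th (lev (j : ℝ)) c) (x / lam' (lev (j : ℝ))) = 0 :=
      P4_col _ _ _ m t2 t3 t0 t1 h1 h2
    unfold g2f
    rw [e2, mul_zero]
  p7 := by
    intro j m hn x c _ _ _ h4
    have h : c ≤ -Lp := by
      unfold bnd at hn
      rw [not_le] at hn
      refine h4.trans ?_
      have e : -Lp = ((-(10 ^ 10) : ℤ) : ℝ) := by
        unfold Lp
        norm_num
      rw [e] at hn ⊢
      have h5 : j < -(10 ^ 10) := Int.cast_lt.1 hn
      have h6 : j + 1 ≤ -(10 ^ 10) := h5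
      have h7 : ((j + 1 : ℤ) : ℝ) ≤ ((-(10 ^ 10) : ℤ) : ℝ) := Int.cast_le.2 h6
      rw [Int.cast_add, Int.cast_one] at h7
      exact h7
    obtain ⟨-, h1, h2, h3⟩ := P7_triv c x h
    exact ⟨h2, h3, h1⟩

theorem P7_drift (c x : ℝ) : |b1 c x - x| ≤ KK := by
  refine (P7_bound c x).1.trans ?_
  unfold Lam KK
  norm_num

end H80.LD

end S_H80_LD_P7

section S_H80_LD_C2

/-!
# C2: folding one more lateral coordinate

`a ∉ H`, `a ≠ t` (and `t ∉ H`), `β = fold sg H a t b1 b2 bn1 bn2` (`b = t`), `P7_pat`, `M6_pimm`: source weights `wgt sg (insert a H) t`, target `wgt sg H t`.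
Given `L ≥ 1`: the hypothesis for `H` gives `R_H, ε_H, C_H`; `T5_transfer` with Lipschitz constant `C_H` gives `R_T, ε_T, C'`.  `ε₀ = min ε_H (ε_T / C_H)`, `C = C' * C_H`, `R = R_H + R_T + KK + 2`.
For `NP ε L U e e'`: `E_H, E_H'` with `NI (wgt sg H t) (C_H ε) C_H (VV t R_H U)`, transfer: `E, E'` with `NI (wgt sg (insert a H) t) (C' (C_H ε)) C' {p | ∀ q in the R_T ball, β q ∈ VV t R_H U}`.
* `p ∈ VV t R U`, `‖sc (W p) (q - p)‖ ≤ R_T` (weights `≥ 1`, so `|q.2 i - p.2 i| ≤ R_T`, `‖q.1 - p.1‖ ≤ R_T`), `vn t R_H (β q) z` imply `vn t R p z`: `|(β q).2 a - q.2 a| ≤ KK + 1` (`P7_drift`, `K3_abs`, `p3b`),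
  `|(β q).2 t - q.2 t| ≤ KK + 2` (`M3_disp`), other coordinates equal; `|min u 0 - min v 0| ≤ |u - v|`.  Hence `β q ∈ VV t R_H U`.
* identity property: for such `q`, `E_H (β q) = β q` by the identity property for `H`; then the one of T5.
* `p ∈ VV t R U`, `p.2 t ≤ -Lp - 2`: `ndd blj bnd t a p.2` is `-Lp ≤ ⌊p.2 t⌋`, false; for `q` in the `r`-ball (`r ≤ 1`) `cb .. q.2 ≤ ⌊q.2 t⌋ + 1 ≤ -Lp - 2 + 1 + 1 = -Lp` (`K3_mem`; weight of `t` is 1), `P7_triv`, `C1_fold_triv`: `β q = q`.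
  So `E p = E_H p = e p` (`VV t R U ⊆ VV t R_H U`).
* `C2_chain`: induction over `H ⊆ univ \ {t}` (`Finset.induction_on`).
-/

open Filter Topology Metric Set

namespace H80.LD

theorem C2_mono {X : Type*} [NormedAddCommGroup X] {D : Type*} [Fintype D] {W : X × (D → ℝ) → D → ℝ}
    {ε ε' L L' : ℝ} {U U' : Set (X × (D → ℝ))} {e e' : X × (D → ℝ) → X × (D → ℝ)}
    (h : NI W ε L U e e') (hε : ε ≤ ε') (hL : L ≤ L') (hU : U' ⊆ U) : NI W ε' L' U' e e' where
  pres := h.pres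
  pres' := h.pres'
  disp := fun p hp => (h.disp p (hU hp)).trans hε
  disp' := fun p hp => (h.disp' p (hU hp)).trans hε
  lip := fun p hp => (h.lip p (hU hp)).mono fun q hq =>
    hq.trans (mul_le_mul_of_nonneg_right hL (norm_nonneg _))
  lip' := fun p hp => (h.lip' p (hU hp)).mono fun q hq =>
    hq.trans (mul_le_mul_of_nonneg_right hL (norm_nonneg _))
  inv := fun p hp he => h.inv p (hU hp) (hU he)
  inv' := fun p hp he => h.inv' p (hU hp) (hU he)

theorem C2_wgt {X : Type*} [NormedAddCommGroup X] {D : Type*} [Fintype D] [DecidableEq D] (H : Finset D)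
    (t : D) (p : X × (D → ℝ)) (i : D) : 1 ≤ wgt sg H t p i := by
  unfold wgt
  split_ifs
  · exact P5_sg _
  · exact le_refl _

theorem C2_ball {X : Type*} [NormedAddCommGroup X] {D : Type*} [Fintype D] [DecidableEq D] (H : Finset D)
    (t : D) (p q : X × (D → ℝ)) (R : ℝ) (h : ‖sc (wgt sg H t p) (q - p)‖ ≤ R) :
    ‖q.1 - p.1‖ ≤ R ∧ ∀ i, |q.2 i - p.2 i| ≤ R := by
  constructor
  · exact (T0b_fst _ (q - p)).trans h
  · intro i
    have h0 : ∀ i, 0 ≤ wgt sg H t p i := fun i => zero_le_one.trans (C2_wgt H t p i)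
    have h1 := T0b_coord (wgt sg H t p) h0 (q - p) i
    have h2 : (q - p).2 i = q.2 i - p.2 i := rfl
    rw [h2] at h1
    have h3 : |q.2 i - p.2 i| ≤ wgt sg H t p i * |q.2 i - p.2 i| :=
      le_mul_of_one_le_left (abs_nonneg _) (C2_wgt H t p i)
    exact h3.trans (h1.trans h)

theorem C2_beta {X : Type*} [NormedAddCommGroup X] {D : Type*} [Fintype D] [DecidableEq D] (H : Finset D)
    (a t : D) (hat : a ≠ t) (q : X × (D → ℝ)) :
    (fold sg H a t b1 b2 bn1 bn2 q).1 = q.1 ∧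
    (∀ i, |(fold sg H a t b1 b2 bn1 bn2 q).2 i - q.2 i| ≤ KK + 2) := by
  refine ⟨rfl, ?_⟩
  intro i
  have hK : (1 : ℝ) ≤ KK := P7_pat.K1
  by_cases hi : i = a
  · subst hi
    have h1 : (fold sg H i t b1 b2 bn1 bn2 q).2 i =
        ph1 b1 bn1 (cb sg H i t q.2) (q.2 i) (q.2 t) := by
      simp [fold]
    rw [h1]
    unfold ph1
    have h2 := P7_drift (cb sg H i t q.2) (q.2 i)
    have h3 := K3_abs sg H i t q.2
    have h4 := (P7_pat.p3b (cb sg H i t q.2) (q.2 i)).1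
    have h5 : |(q.2 t - cb sg H i t q.2) * bn1 (cb sg H i t q.2) (q.2 i)| ≤ 1 := by
      rw [abs_mul]
      calc |q.2 t - cb sg H i t q.2| * |bn1 (cb sg H i t q.2) (q.2 i)| ≤ 1 * 1 :=
            mul_le_mul h3 h4 (abs_nonneg _) zero_le_one
        _ = 1 := one_mul 1
    have h6 : b1 (cb sg H i t q.2) (q.2 i) +
        (q.2 t - cb sg H i t q.2) * bn1 (cb sg H i t q.2) (q.2 i) - q.2 i =
        (b1 (cb sg H i t q.2) (q.2 i) - q.2 i) +
        (q.2 t - cb sg H i t q.2) * bn1 (cb sg H i t q.2) (q.2 i) := by ring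
    rw [h6]
    refine (abs_add_le _ _).trans ?_
    linarith
  · by_cases hit : i = t
    · subst hit
      exact M3_disp P7_pat H a i hat q
    · have h1 : (fold sg H a t b1 b2 bn1 bn2 q).2 i = q.2 i := by
        simp [fold, hi, hit]
      rw [h1, sub_self, abs_zero]
      linarith

theorem C2_key {X : Type*} [NormedAddCommGroup X] {D : Type*} [Fintype D] [DecidableEq D] (H H' : Finset D)
    (a t : D) (hat : a ≠ t) (RH RT : ℝ) (p q z : X × (D → ℝ))
    (hq : ‖sc (wgt sg H' t p) (q - p)‖ ≤ RT)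
    (hz : vn t RH (fold sg H a t b1 b2 bn1 bn2 q) z) : vn t (RH + RT + KK + 2) p z := by
  obtain ⟨hq1, hq2⟩ := C2_ball H' t p q RT hq
  obtain ⟨hb1, hb2⟩ := C2_beta H a t hat q
  obtain ⟨hz1, hz2, hz3⟩ := hz
  have hK : (1 : ℝ) ≤ KK := P7_pat.K1
  refine ⟨?_, ?_, ?_⟩
  · rw [hb1] at hz1
    have h1 : z.1 - p.1 = (z.1 - q.1) + (q.1 - p.1) := by abel
    rw [h1]
    refine (norm_add_le _ _).trans ?_
    linarith
  · intro i hi
    have h1 := hz2 i hi
    have h2 := hb2 i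
    have h3 := hq2 i
    rw [abs_le] at h1 h2 h3 ⊢
    constructor <;> linarith [h1.1, h1.2, h2.1, h2.2, h3.1, h3.2]
  · have h2 := hb2 t
    have h3 := hq2 t
    have h4 : |(fold sg H a t b1 b2 bn1 bn2 q).2 t - p.2 t| ≤ KK + 2 + RT := by
      rw [abs_le] at h2 h3 ⊢
      constructor <;> linarith [h2.1, h2.2, h3.1, h3.2]
    have h5 : |min ((fold sg H a t b1 b2 bn1 bn2 q).2 t) 0 - min (p.2 t) 0| ≤
        |(fold sg H a t b1 b2 bn1 bn2 q).2 t - p.2 t| := by
      have h6 := abs_min_sub_min_le_max ((fold sg H a t b1 b2 bn1 bn2 q).2 t) 0 (p.2 t) 0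
      rwa [sub_self, abs_zero, max_eq_left (abs_nonneg _)] at h6
    have h6 := h5.trans h4
    rw [abs_le] at hz3 h6 ⊢
    constructor <;> linarith [hz3.1, hz3.2, h6.1, h6.2]

theorem C2_step (X : Type) [NormedAddCommGroup X] (D : Type) [Fintype D] [DecidableEq D] (t : D) (H : Finset D)
    (ht : t ∉ H) (a : D) (ha : a ∉ H) (hat : a ≠ t) (h : ChainStmt X D t H) : ChainStmt X D t (insert a H) := by
  have hP := M6_pimm (X := X) P7_pat H a t hat ha ht
  have hK : (1 : ℝ) ≤ KK := P7_pat.K1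
  intro L hL
  obtain ⟨RH, hRH, εH, hεH, CH, hCH, hH⟩ := h L hL
  obtain ⟨RT, hRT, εT, hεT, C', hC', hT⟩ := T5_transfer hP CH hCH
  have hCH0 : 0 < CH := lt_of_lt_of_le one_pos hCH
  have hC0 : 0 < C' := lt_of_lt_of_le one_pos hC'
  refine ⟨RH + RT + KK + 2, by linarith, min εH (εT / CH), lt_min hεH (div_pos hεT hCH0),
    C' * CH, one_le_mul_of_one_le_of_one_le hC' hCH, ?_⟩
  intro ε hε hεle U e e' hNP
  obtain ⟨EH, EH', hNI, hid, hdeep⟩ := hH ε hε (hεle.trans (min_le_left _ _)) U e e' hNP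
  have hεT' : CH * ε ≤ εT := by
    have h1 : ε ≤ εT / CH := hεle.trans (min_le_right _ _)
    rw [le_div_iff₀ hCH0] at h1
    linarith [mul_comm ε CH]
  obtain ⟨E, E', hNI2, hid2, hdeep2⟩ := hT (CH * ε) (mul_pos hCH0 hε) hεT' (VV t RH U) EH EH' hNI
  have hball : ∀ p ∈ VV t (RH + RT + KK + 2) U, ∀ q : X × (D → ℝ),
      ‖sc (wgt sg (insert a H) t p) (q - p)‖ ≤ RT →
        fold sg H a t b1 b2 bn1 bn2 q ∈ VV t RH U := by
    intro p hp q hq z hz
    exact hp z (C2_key H (insert a H) a t hat RH RT p q z hq hz)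
  refine ⟨E, E', ?_, ?_, ?_⟩
  · refine C2_mono hNI2 (le_of_eq (by ring)) (le_mul_of_one_le_right hC0.le hCH) ?_
    intro p hp
    exact hball p hp
  · intro p hp hz
    refine hid2 p (hball p hp) fun q hq => hid _ (hball p hp q hq) fun z hz' => ?_
    exact hz z (C2_key H (insert a H) a t hat RH RT p q z hq hz')
  · intro p hp hpt
    have hnd : ¬ ndd blj bnd t a p.2 := by
      intro hn
      have h1 : -Lp ≤ ((⌊p.2 t⌋ : ℤ) : ℝ) := hn
      have h2 := Int.floor_le (p.2 t)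
      linarith
    have htriv : ∀ q : X × (D → ℝ), ‖sc (wgt sg (insert a H) t p) (q - p)‖ ≤ rr a t →
        fold sg H a t b1 b2 bn1 bn2 q = q := by
      intro q hq
      have h1 := (C2_ball (insert a H) t p q _ (hq.trans hP.r1)).2 t
      have h2 := (K3_mem sg H a t q.2).2
      have h3 := Int.floor_le (q.2 t)
      have h4 : cb sg H a t q.2 ≤ -Lp := by
        rw [abs_le] at h1
        linarith [h1.1, h1.2]
      exact C1_fold_triv sg H a t b1 b2 bn1 bn2 hat q (P7_triv _ _ h4)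
    have h1 := hdeep2 p (hball p hp) hnd htriv
    have h2 : p ∈ VV t RH U := by
      intro z hz
      obtain ⟨hz1, hz2, hz3⟩ := hz
      exact hp z ⟨by linarith, fun i hi => by linarith [hz2 i hi], by linarith⟩
    have h3 := hdeep p h2 hpt
    exact ⟨h1.1.trans h3.1, h1.2.trans h3.2⟩

theorem C2_chain (X : Type) [NormedAddCommGroup X] (D : Type) [Fintype D] [DecidableEq D] [Nontrivial D] (t : D) :
    ChainStmt X D t (Finset.univ.erase t) := by
  have key : ∀ H : Finset D, t ∉ H → ChainStmt X D t H := by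
    intro H
    induction H using Finset.induction_on with
    | empty =>
      intro _
      obtain ⟨x, hx⟩ := exists_ne t
      exact C1_base X D t x hx
    | insert a s ha ih =>
      intro ht
      have h1 : a ≠ t := fun h => ht (by rw [← h]; exact Finset.mem_insert_self _ _)
      have h2 : t ∉ s := fun h => ht (Finset.mem_insert_of_mem h)
      exact C2_step X D t s h2 a ha h1 (ih h2)
  exact key _ (Finset.notMem_erase t _)

end H80.LD

end S_H80_LD_C2

section S_H80_LD_C6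

/-!
# C6: the core theorem, part 1

Given `L ≥ 1` take `R_c, ε_c, C_c` from `C2_chain` (with `L`).  Put `s₀ = Lp + 3`, `τ = shf t s₀`, `τ⁻¹ = shf t (-s₀)` (isometries, fibre preserving).  `R = R_c + 3 Lp + 10` (so `R ≥ R_c + 2 Lp + 1` and `R ≥ 2 Lp + s₀`), `ε₀ = min ε_c (1/(4 C_c))`, `C = 32 C_c`.
For `NP ε L U e e'`: `e_s = τ⁻¹ e τ`, `e_s' = τ⁻¹ e' τ`, `U_s = {p | τ p ∈ U}`: `NP ε L U_s e_s e_s'` (`B0b_conj` with `a = b = 1` or directly).  Chain: `E, E'` with `NI W (C_c ε) C_c (VV t R_c U_s)`; `C5_conj` (`C_c ε ≤ 1`): `F_s, F_s'`;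
`F = τ F_s τ⁻¹`, `F' = τ F_s' τ⁻¹`: `NP (4 C_c ε) (32 C_c) {p | τ⁻¹ p ∈ S}`, `S` the set in C5.
(*) If `q` is such that `closedBall p R ⊆ U`, `‖q - p‖ ≤ 1/2`, and `y = (τ⁻¹ q)`, `y.2 t < 2 Lp`: `kap t y ∈ VV t R_c U_s`.  Let `vn t R_c (kap t y) z`.  `‖z.1 - q.1‖ ≤ R_c`, `|z.2 i - q.2 i| ≤ R_c` for `i ≠ t`.  If `y.2 t ≤ 0`: `SS (y.2 t) = y.2 t`, `min = y.2 t`,
  `|z.2 t - y.2 t| ≤ R_c`, i.e. `|(τ z).2 t - q.2 t| ≤ R_c`.  If `y.2 t > 0`: `SS (y.2 t) ≥ 0`, `min = 0`, `|z.2 t| ≤ R_c`, `|(τ z).2 t - q.2 t| = |z.2 t - y.2 t| ≤ R_c + 2 Lp`.  So `τ z ∈ closedBall p R ⊆ U`.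
* NP: if `closedBall p R ⊆ U` then `τ⁻¹ p ∈ S` by (*) (with `q = p`, and for the second condition all `q` near `p`).  If `R < p.2 t` then `(τ⁻¹ p).2 t > 2 Lp` and both conditions are void.
* `closedBall p R ⊆ U`, `p.2 t ≤ 1`: `y = τ⁻¹ p`, `y.2 t ≤ -Lp - 2 ≤ 0`, `kap t y = y` (`C4_SSneg`), `y ∈ VV t R_c U_s`, so `E y = e_s y`, `(e_s y).2 t ≤ -Lp - 2 + ε ≤ 0` (`y ∈ U_s`), `iot t (e_s y) = e_s y` (`C4_neg`), `F p = τ (e_s y) = e p`.
* `R ≤ p.2 t`: `2 Lp ≤ (τ⁻¹ p).2 t`.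
* identity: `closedBall p R ⊆ U`, `e = e' = id` on it.  If `(τ⁻¹ p).2 t ≥ 2 Lp` clear.  Otherwise `kap t y ∈ VV t R_c U_s` and for `vn t R_c (kap t y) z`: `τ z ∈ closedBall p R` (proof of (*)), `e_s z = z`.  So `E (kap t y) = kap t y`, `F p = τ (iot t (kap t y)) = τ y = p`.
-/

open Filter Topology Metric Set

namespace H80.LD

theorem C6_shf_cancel {X : Type*} [NormedAddCommGroup X] {D : Type*} [Fintype D] [DecidableEq D]
    (t : D) (s : ℝ) (p : X × (D → ℝ)) : shf t (-s) (shf t s p) = p := by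
  unfold shf
  refine Prod.ext rfl ?_
  funext i
  by_cases hi : i = t
  · subst hi
    simp
  · simp [hi]

theorem C6_shf_cancel' {X : Type*} [NormedAddCommGroup X] {D : Type*} [Fintype D] [DecidableEq D]
    (t : D) (s : ℝ) (p : X × (D → ℝ)) : shf t s (shf t (-s) p) = p := by
  have := C6_shf_cancel t (-s) p
  rwa [neg_neg] at this

theorem C6_shf_sub {X : Type*} [NormedAddCommGroup X] {D : Type*} [Fintype D] [DecidableEq D]
    (t : D) (s : ℝ) (p q : X × (D → ℝ)) : shf t s p - shf t s q = p - q := by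
  unfold shf
  refine Prod.ext rfl ?_
  funext i
  by_cases hi : i = t
  · subst hi
    simp
  · simp [hi]

theorem C6_shf_t {X : Type*} [NormedAddCommGroup X] {D : Type*} [Fintype D] [DecidableEq D]
    (t : D) (s : ℝ) (p : X × (D → ℝ)) : (shf t s p).2 t = p.2 t + s := by
  simp [shf]

theorem C6_shf_ne {X : Type*} [NormedAddCommGroup X] {D : Type*} [Fintype D] [DecidableEq D]
    (t : D) (s : ℝ) (p : X × (D → ℝ)) (i : D) (hi : i ≠ t) : (shf t s p).2 i = p.2 i := by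
  simp [shf, hi]

theorem C6_SS_nonneg (y : ℝ) (hy : 0 < y) (hy2 : y < 2 * Lp) : 0 ≤ SS y := by
  by_contra hneg
  push Not at hneg
  have h1 := C4_TT y hy2
  rw [C4_neg _ hneg.le] at h1
  linarith

theorem C6_Lp : Lp = 10 ^ 10 := rfl

theorem C6_far {X : Type*} [NormedAddCommGroup X] {D : Type*} [Fintype D] [DecidableEq D]
    (t : D) (Rc s : ℝ) (hRc : 1 ≤ Rc) (q z : X × (D → ℝ))
    (hy : (shf t (-s) q).2 t < 2 * Lp) (hz : vn t Rc (kap t (shf t (-s) q)) z) :
    ‖shf t s z - q‖ ≤ Rc + 2 * Lp := by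
  obtain ⟨h1, h2, h3⟩ := hz
  have hL : (0 : ℝ) ≤ Lp := by rw [C6_Lp]; norm_num
  have hR0 : 0 ≤ Rc + 2 * Lp := by linarith
  rw [norm_prod_le_iff]
  constructor
  · have h4 : (shf t s z - q).1 = z.1 - (kap t (shf t (-s) q)).1 := rfl
    rw [h4]
    linarith
  · rw [pi_norm_le_iff_of_nonneg hR0]
    intro i
    rw [Real.norm_eq_abs]
    change |(shf t s z).2 i - q.2 i| ≤ _
    by_cases hi : i = t
    · subst hi
      rw [C6_shf_t]
      have h4 : (kap i (shf i (-s) q)).2 i = SS ((shf i (-s) q).2 i) := by simp [kap]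
      rw [h4] at h3
      rw [C6_shf_t] at h3 hy
      set y := q.2 i + -s with hydef
      have h5 : z.2 i + s - q.2 i = z.2 i - y := by rw [hydef]; ring
      rw [h5]
      by_cases hy0 : y ≤ 0
      · rw [C4_SSneg y hy0, min_eq_left hy0] at h3
        linarith
      · push Not at hy0
        rw [min_eq_right (C6_SS_nonneg y hy0 hy), sub_zero] at h3
        have h6 := abs_le.1 h3
        rw [abs_le]
        constructor <;> linarith [h6.1, h6.2]
    · rw [C6_shf_ne t s z i hi]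
      have h4 := h2 i hi
      have h5 : (kap t (shf t (-s) q)).2 i = q.2 i := by
        simp [kap, shf, hi]
      rw [h5] at h4
      linarith

theorem C6_mem {X : Type*} [NormedAddCommGroup X] {D : Type*} [Fintype D] [DecidableEq D]
    (t : D) (Rc s R : ℝ) (hRc : 1 ≤ Rc) (hR : Rc + 2 * Lp + 1 / 2 ≤ R) (p q z : X × (D → ℝ))
    (hq : ‖q - p‖ ≤ 1 / 2) (hy : (shf t (-s) q).2 t < 2 * Lp)
    (hz : vn t Rc (kap t (shf t (-s) q)) z) :
    shf t s z ∈ closedBall p R := by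
  rw [mem_closedBall_iff_norm]
  have h1 := C6_far t Rc s hRc q z hy hz
  calc ‖shf t s z - p‖ = ‖(shf t s z - q) + (q - p)‖ := by rw [sub_add_sub_cancel]
    _ ≤ ‖shf t s z - q‖ + ‖q - p‖ := norm_add_le _ _
    _ ≤ R := by linarith

theorem C6_VV {X : Type*} [NormedAddCommGroup X] {D : Type*} [Fintype D] [DecidableEq D]
    (t : D) (Rc s R : ℝ) (hRc : 1 ≤ Rc) (hR : Rc + 2 * Lp + 1 / 2 ≤ R) (U : Set (X × (D → ℝ)))
    (p q : X × (D → ℝ)) (hp : closedBall p R ⊆ U)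
    (hq : ‖q - p‖ ≤ 1 / 2) (hy : (shf t (-s) q).2 t < 2 * Lp) :
    kap t (shf t (-s) q) ∈ VV t Rc {x | shf t s x ∈ U} :=
  fun z hz => hp (C6_mem t Rc s R hRc hR p q z hq hy hz)

theorem C6_kap_neg {X : Type*} [NormedAddCommGroup X] {D : Type*} [Fintype D] [DecidableEq D]
    (t : D) (y : X × (D → ℝ)) (h : y.2 t ≤ 0) : kap t y = y := by
  unfold kap
  rw [C4_SSneg _ h, Function.update_eq_self]

theorem C6_iot_neg {X : Type*} [NormedAddCommGroup X] {D : Type*} [Fintype D] [DecidableEq D]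
    (t : D) (y : X × (D → ℝ)) (h : y.2 t ≤ 0) : iot t y = y := by
  unfold iot
  rw [C4_neg _ h, Function.update_eq_self]

theorem C6_hat (X : Type) [NormedAddCommGroup X] (D : Type) [Fintype D] [DecidableEq D] [Nontrivial D] (t : D) :
    HatStmt X D t := by
  intro L hL
  obtain ⟨Rc, hRc, εc, hεc, Cc, hCc, hch⟩ := C2_chain X D t L hL
  have hLp : (0 : ℝ) < Lp := by rw [C6_Lp]; norm_num
  have hCc0 : 0 < Cc := by linarith
  refine ⟨Rc + 3 * Lp + 10, by linarith, min εc (1 / (4 * Cc)),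
    lt_min hεc (by positivity), 32 * Cc, by linarith, ?_⟩
  intro ε hε hεle U e e' hNP
  have hε1 : ε ≤ εc := hεle.trans (min_le_left _ _)
  have hε2 : ε ≤ 1 / (4 * Cc) := hεle.trans (min_le_right _ _)
  have hε3 : 4 * (Cc * ε) ≤ 1 := by
    have h1 : (4 * Cc) * ε ≤ (4 * Cc) * (1 / (4 * Cc)) :=
      mul_le_mul_of_nonneg_left hε2 (by positivity)
    have h2 : (4 * Cc) * (1 / (4 * Cc)) = 1 := by field_simp
    linarith
  have hCε : ε ≤ Cc * ε := by nlinarith
  have hCε0 : 0 < Cc * ε := by positivity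
  set s0 : ℝ := Lp + 3 with hs0
  set R : ℝ := Rc + 3 * Lp + 10 with hR
  have hNPs : NP ε L {p | shf t s0 p ∈ U} (fun p => shf t (-s0) (e (shf t s0 p)))
      (fun p => shf t (-s0) (e' (shf t s0 p))) := by
    have h := B0b_conj hNP (a := 1) (b := 1) zero_le_one zero_le_one (by linarith)
      (shf t (-s0)) (shf t s0) (C6_shf_cancel' t s0) (C6_shf_cancel t s0)
      (fun p q => by rw [C6_shf_sub, one_mul]) (fun p q => by rw [C6_shf_sub, one_mul])
      (fun p q hpq => hpq)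
    rwa [one_mul, one_mul, one_mul] at h
  obtain ⟨E, E', hNI, hid, hneg⟩ := hch ε hε hε1 _ _ _ hNPs
  obtain ⟨Fs, Fs', hFs, hge, hlt⟩ := C5_conj t (Cc * ε) Cc hCε0.le (by linarith) hCc _ E E' hNI
  have hF := B0b_conj hFs (a := 1) (b := 1) zero_le_one zero_le_one (by linarith)
      (shf t s0) (shf t (-s0)) (C6_shf_cancel t s0) (C6_shf_cancel' t s0)
      (fun p q => by rw [C6_shf_sub, one_mul]) (fun p q => by rw [C6_shf_sub, one_mul])
      (fun p q hpq => hpq)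
  rw [one_mul, one_mul, one_mul] at hF
  have hRR : Rc + 2 * Lp + 1 / 2 ≤ R := by rw [hR]; linarith
  refine ⟨fun p => shf t s0 (Fs (shf t (-s0) p)), fun p => shf t s0 (Fs' (shf t (-s0) p)),
    B0b_mono hF (by linarith) le_rfl ?_, ?_, ?_, ?_⟩
  · rintro p (hp | hp)
    · refine ⟨fun h => C6_VV t Rc s0 R hRc hRR U p p hp (by simp) h, fun _ => ?_⟩
      have hb : ball (shf t (-s0) p) (1 / 2) ∈ 𝓝 (shf t (-s0) p) :=
        ball_mem_nhds _ (by norm_num)
      filter_upwards [hb] with q hq hq2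
      rw [mem_ball_iff_norm] at hq
      have h1 := C6_VV t Rc s0 R hRc hRR U p (shf t s0 q) hp
      rw [C6_shf_cancel] at h1
      refine h1 ?_ hq2
      have h2 : shf t s0 q - p = q - shf t (-s0) p := by
        rw [← C6_shf_sub t (-s0), C6_shf_cancel]
      rw [h2]
      exact hq.le
    · have h1 : 2 * Lp < (shf t (-s0) p).2 t := by
        rw [C6_shf_t]
        linarith
      exact ⟨fun h => absurd h1 (not_lt.2 h.le), fun h => absurd h1 (by rw [h]; exact lt_irrefl _)⟩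
  · intro p hp hpt
    have hyt : (shf t (-s0) p).2 t ≤ -Lp - 2 := by
      rw [C6_shf_t]
      linarith
    have hyV := C6_VV t Rc s0 R hRc hRR U p p hp (by simp) (by linarith)
    rw [C6_kap_neg t _ (by linarith)] at hyV
    have hpU : p ∈ U := hp (mem_closedBall_self (by linarith))
    have hyU : shf t (-s0) p ∈ {p | shf t s0 p ∈ U} := by
      change shf t s0 (shf t (-s0) p) ∈ U
      rw [C6_shf_cancel']
      exact hpU
    have hE := hneg _ hyV hyt
    have hl := hlt (shf t (-s0) p) (by linarith)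
    rw [C6_kap_neg t _ (by linarith)] at hl
    have aux : ∀ w : X × (D → ℝ), ‖w - shf t (-s0) p‖ ≤ ε → w.2 t ≤ 0 := by
      intro w hw
      have h1 := (norm_prod_le_iff.1 hw).2
      have h2 := (pi_norm_le_iff_of_nonneg hε.le).1 h1 t
      rw [Real.norm_eq_abs] at h2
      have h3 := (abs_le.1 h2).2
      change w.2 t - (shf t (-s0) p).2 t ≤ ε at h3
      linarith
    constructor
    · change shf t s0 (Fs (shf t (-s0) p)) = e p
      rw [hl.1, hE.1, C6_iot_neg t _ (aux _ (hNPs.disp _ hyU)), C6_shf_cancel', C6_shf_cancel']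
    · change shf t s0 (Fs' (shf t (-s0) p)) = e' p
      rw [hl.2, hE.2, C6_iot_neg t _ (aux _ (hNPs.disp' _ hyU)), C6_shf_cancel', C6_shf_cancel']
  · intro p hp
    have h1 : 2 * Lp ≤ (shf t (-s0) p).2 t := by
      rw [C6_shf_t]
      linarith
    have h2 := hge _ h1
    constructor
    · change shf t s0 (Fs (shf t (-s0) p)) = p
      rw [h2.1, C6_shf_cancel']
    · change shf t s0 (Fs' (shf t (-s0) p)) = p
      rw [h2.2, C6_shf_cancel']
  · intro p hp hide
    by_cases h1 : 2 * Lp ≤ (shf t (-s0) p).2 t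
    · have h2 := hge _ h1
      constructor
      · change shf t s0 (Fs (shf t (-s0) p)) = p
        rw [h2.1, C6_shf_cancel']
      · change shf t s0 (Fs' (shf t (-s0) p)) = p
        rw [h2.2, C6_shf_cancel']
    · push Not at h1
      have hyV := C6_VV t Rc s0 R hRc hRR U p p hp (by simp) h1
      have h2 := hid _ hyV (fun z hz => by
        have h3 := hide _ (C6_mem t Rc s0 R hRc hRR p p z (by simp) h1 hz)
        constructor
        · rw [h3.1, C6_shf_cancel]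
        · rw [h3.2, C6_shf_cancel])
      have hl := hlt _ h1
      constructor
      · change shf t s0 (Fs (shf t (-s0) p)) = p
        rw [hl.1, h2.1, C4_iotkap t _ h1, C6_shf_cancel']
      · change shf t s0 (Fs' (shf t (-s0) p)) = p
        rw [hl.2, h2.2, C4_iotkap t _ h1, C6_shf_cancel']

end H80.LD

end S_H80_LD_C6

section S_H80_LD_C7

/-!
# C7: the core theorem

`C7_U1`: for `NP ε L U e e'`, `ε > 0`, `L ≥ 1`, the set `U₁ = {p | closedBall p (2 ε) ⊆ U ∨ ∀ q ∈ closedBall p (2 ε), e q = q ∧ e' q = q}` has `NP ε L U₁ e e'`: type 1: `p ∈ U`, and `e p ∈ closedBall p ε ⊆ U`, so `e' (e p) = p`; type 2: `e p = p`, `e' p = p`, `e = e' = id` near `p`.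
Core: given `L`, `C6_hat`: `R, ε₁, C₁`.  `R' = R + 3`, `ε₀ = min ε₁ (1/(8 C₁))`, `C = C₁ + L`.  Apply `C6_hat` to `U₁, e, e'`: `F̂, F̂'`.  `F p = e p` if `p.2 t ≤ 0`, `F̂ p` otherwise; same for `F'`.
(a) `closedBall p (R + 3) ⊆ U` implies `closedBall q R ⊆ U₁` for `‖q - p‖ ≤ 1` (`2 ε ≤ 1`).
* `F p = e p` for `p.2 t ≤ 0` by definition; `F p = p` for `R' ≤ p.2 t`; identity: if `e = e' = id` on `closedBall p (R+3)`: `p.2 t ≤ 0`: `e p = p`; otherwise `closedBall p R ⊆ U₁` (type 2) and the identity property of `F̂`.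
* NP on `G = {p | (p.2 t < 0 ∧ p ∈ U) ∨ closedBall p R' ⊆ U ∨ R' < p.2 t}`.
  disp: clear in all cases (`F̂` has displacement `≤ C₁ ε`).
  lip: `p.2 t < 0`, `p ∈ U`: `F = e` near `p`.  `closedBall p R' ⊆ U`, `p.2 t > 0`: `F = F̂` near `p`.  `closedBall p R' ⊆ U`, `p.2 t = 0`: for `q` near `p`, `q.2 t ≤ 1`, by (a) `F̂ q = e q`, so `F = e` near `p`.  `R' < p.2 t`: `F = id` near `p`.
  inv: (i) `p.2 t ≤ 1/2` and (`p.2 t < 0 ∧ p ∈ U` or `closedBall p R' ⊆ U`): `F p = e p =: r` (for `0 < p.2 t ≤ 1/2` by (a)); `p ∈ U`; `r.2 t ≤ 1/2 + ε ≤ 1`; `r ∈ G`, so `r ∈ U` (third type is impossible) and `F' r = e' r` (`r.2 t ≤ 0`: definition; `r.2 t > 0`: `closedBall r R' ⊆ U` and (a));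
  `e' (e p) = p`.  (ii) `p.2 t > 1/2`, `closedBall p R' ⊆ U`: `r = F̂ p`, `r.2 t ≥ 1/2 - C₁ ε > 0`, `F' r = F̂' r`, and `p`, `r` (`‖r - p‖ ≤ C₁ ε ≤ 1`) are in the NP set of `F̂` by (a): `F̂' (F̂ p) = p`.  (iii) `R' < p.2 t`: `F p = p`, `F' p = p`.
  The primed statements are symmetric.
-/

open Filter Topology Metric Set

namespace H80.LD

theorem C7_U1 {X V : Type*} [NormedAddCommGroup X] [NormedAddCommGroup V] {ε L : ℝ} {U : Set (X × V)}
    {e e' : X × V → X × V} (h : NP ε L U e e') (hε : 0 < ε) (hL : 1 ≤ L) :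
    NP ε L {p | closedBall p (2 * ε) ⊆ U ∨ ∀ q ∈ closedBall p (2 * ε), e q = q ∧ e' q = q} e e' := by
  have hself : ∀ p : X × V, p ∈ closedBall p (2 * ε) := fun p => mem_closedBall_self (by linarith)
  refine ⟨h.pres, h.pres', ?_, ?_, ?_, ?_, ?_, ?_⟩
  · rintro p (hp | hp)
    · exact h.disp p (hp (hself p))
    · rw [(hp p (hself p)).1, sub_self, norm_zero]; exact hε.le
  · rintro p (hp | hp)
    · exact h.disp' p (hp (hself p))
    · rw [(hp p (hself p)).2, sub_self, norm_zero]; exact hε.le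
  · rintro p (hp | hp)
    · exact h.lip p (hp (hself p))
    · filter_upwards [closedBall_mem_nhds p (by linarith : (0 : ℝ) < 2 * ε)] with q hq
      rw [(hp q hq).1, (hp p (hself p)).1]
      nlinarith [norm_nonneg (q - p)]
  · rintro p (hp | hp)
    · exact h.lip' p (hp (hself p))
    · filter_upwards [closedBall_mem_nhds p (by linarith : (0 : ℝ) < 2 * ε)] with q hq
      rw [(hp q hq).2, (hp p (hself p)).2]
      nlinarith [norm_nonneg (q - p)]
  · rintro p (hp | hp) _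
    · have h1 := h.disp p (hp (hself p))
      refine h.inv p (hp (hself p)) (hp ?_)
      rw [mem_closedBall, dist_eq_norm]; linarith
    · rw [(hp p (hself p)).1, (hp p (hself p)).2]
  · rintro p (hp | hp) _
    · have h1 := h.disp' p (hp (hself p))
      refine h.inv' p (hp (hself p)) (hp ?_)
      rw [mem_closedBall, dist_eq_norm]; linarith
    · rw [(hp p (hself p)).2, (hp p (hself p)).1]

theorem C7_coord {X : Type} [NormedAddCommGroup X] {D : Type} [Fintype D] (t : D)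
    (p q : X × (D → ℝ)) (r : ℝ) (h : ‖q - p‖ ≤ r) : |q.2 t - p.2 t| ≤ r := by
  have h1 : ‖(q - p).2‖ ≤ ‖q - p‖ := norm_snd_le (q - p)
  have h2 : ‖(q - p).2 t‖ ≤ ‖(q - p).2‖ := norm_le_pi_norm _ t
  rw [Real.norm_eq_abs] at h2
  exact h2.trans (h1.trans h)

theorem C7_inv {X : Type} [NormedAddCommGroup X] {D : Type} [Fintype D] (t : D)
    (R ε δ : ℝ) (hR : 1 ≤ R) (hε : ε ≤ 1 / 8) (hδ : δ ≤ 1 / 8)
    (U U₁ : Set (X × (D → ℝ))) (e e' f f' : X × (D → ℝ) → X × (D → ℝ))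
    (hU : ∀ p ∈ U, ‖e p - p‖ ≤ ε) (hinv : ∀ p ∈ U, e p ∈ U → e' (e p) = p)
    (hh : ∀ p : X × (D → ℝ), (closedBall p R ⊆ U₁ ∨ R < p.2 t) → ‖f p - p‖ ≤ δ)
    (hhinv : ∀ p : X × (D → ℝ), (closedBall p R ⊆ U₁ ∨ R < p.2 t) →
      (closedBall (f p) R ⊆ U₁ ∨ R < (f p).2 t) → f' (f p) = p)
    (ha : ∀ p : X × (D → ℝ), closedBall p R ⊆ U₁ → p.2 t ≤ 1 → f p = e p)
    (ha' : ∀ p : X × (D → ℝ), closedBall p R ⊆ U₁ → p.2 t ≤ 1 → f' p = e' p)
    (hb : ∀ p : X × (D → ℝ), R ≤ p.2 t → f p = p) (hb' : ∀ p : X × (D → ℝ), R ≤ p.2 t → f' p = p)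
    (hc : ∀ p q : X × (D → ℝ), closedBall p (R + 3) ⊆ U → ‖q - p‖ ≤ 1 → closedBall q R ⊆ U₁)
    (F F' : X × (D → ℝ) → X × (D → ℝ))
    (hF0 : ∀ p : X × (D → ℝ), p.2 t ≤ 0 → F p = e p) (hF1 : ∀ p : X × (D → ℝ), 0 < p.2 t → F p = f p)
    (hF0' : ∀ p : X × (D → ℝ), p.2 t ≤ 0 → F' p = e' p) (hF1' : ∀ p : X × (D → ℝ), 0 < p.2 t → F' p = f' p)
    (p : X × (D → ℝ)) (hp : (p.2 t < 0 ∧ p ∈ U) ∨ closedBall p (R + 3) ⊆ U ∨ R + 3 < p.2 t)
    (hq : ((F p).2 t < 0 ∧ (F p) ∈ U) ∨ closedBall (F p) (R + 3) ⊆ U ∨ R + 3 < (F p).2 t) :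
    F' (F p) = p := by
  have hself : ∀ p : X × (D → ℝ), p ∈ closedBall p (R + 3) := fun p => mem_closedBall_self (by linarith)
  have hc0 : ∀ p : X × (D → ℝ), closedBall p (R + 3) ⊆ U → closedBall p R ⊆ U₁ := by
    intro p hp
    refine hc p p hp ?_
    rw [sub_self, norm_zero]; norm_num
  rcases le_or_gt (p.2 t) (1 / 2) with h1 | h1
  · -- case (i)
    have hpU : p ∈ U := by
      rcases hp with hp | hp | hp
      · exact hp.2
      · exact hp (hself p)
      · linarith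
    have hFp : F p = e p := by
      rcases le_or_gt (p.2 t) 0 with h0 | h0
      · exact hF0 p h0
      · rw [hF1 p h0]
        rcases hp with hp | hp | hp
        · linarith [hp.1]
        · exact ha p (hc0 p hp) (by linarith)
        · linarith
    rw [hFp] at hq ⊢
    have h2 := (abs_le.1 (C7_coord t p (e p) ε (hU p hpU))).2
    have h3 : (e p).2 t ≤ 1 := by linarith
    have hrU : e p ∈ U := by
      rcases hq with hq | hq | hq
      · exact hq.2
      · exact hq (hself _)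
      · linarith
    have hFr : F' (e p) = e' (e p) := by
      rcases le_or_gt ((e p).2 t) 0 with h0 | h0
      · exact hF0' _ h0
      · rw [hF1' _ h0]
        rcases hq with hq | hq | hq
        · linarith [hq.1]
        · exact ha' _ (hc0 _ hq) h3
        · linarith
    rw [hFr]
    exact hinv p hpU hrU
  · rcases hp with hp | hp | hp
    · linarith [hp.1]
    · have hG : closedBall p R ⊆ U₁ ∨ R < p.2 t := Or.inl (hc0 p hp)
      have h4 := hh p hG
      have h5 := (abs_le.1 (C7_coord t p (f p) δ h4)).1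
      rw [hF1 p (by linarith), hF1' (f p) (by linarith)]
      exact hhinv p hG (Or.inl (hc p (f p) hp (by linarith)))
    · rw [hF1 p (by linarith), hb p (by linarith), hF1' p (by linarith), hb' p (by linarith)]

theorem C7_of_hat (X : Type) [NormedAddCommGroup X] [NormedSpace ℝ X] (D : Type) [Fintype D] (t : D)
    (h : HatStmt X D t) : CoreStmt X D t := by
  classical
  intro L hL
  obtain ⟨R, hR, ε₁, hε₁, C₁, hC₁, H⟩ := h L hL
  refine ⟨R + 3, by linarith, min ε₁ (1 / (8 * C₁)), ?_, C₁ + L, by linarith, ?_⟩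
  · exact lt_min hε₁ (by positivity)
  intro ε hε hεle U e e' hN
  have hε1 : ε ≤ ε₁ := hεle.trans (min_le_left _ _)
  have hε2 : C₁ * ε ≤ 1 / 8 := by
    have h1 : ε ≤ 1 / (8 * C₁) := hεle.trans (min_le_right _ _)
    rw [le_div_iff₀ (by positivity)] at h1
    linarith
  have hε3 : ε ≤ 1 / 8 := by nlinarith
  have hN1 := C7_U1 hN hε hL
  set U₁ : Set (X × (D → ℝ)) :=
    {p | closedBall p (2 * ε) ⊆ U ∨ ∀ q ∈ closedBall p (2 * ε), e q = q ∧ e' q = q} with hU₁
  obtain ⟨f, f', hf, ha, hb, hid⟩ := H ε hε hε1 U₁ e e' hN1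
  have hself : ∀ p : X × (D → ℝ), p ∈ closedBall p (R + 3) := fun p => mem_closedBall_self (by linarith)
  have hsub : ∀ p q z : X × (D → ℝ), ‖q - p‖ ≤ 1 → z ∈ closedBall q R →
      closedBall z (2 * ε) ⊆ closedBall p (R + 3) := by
    intro p q z hpq hz w hw
    rw [mem_closedBall] at hz hw ⊢
    rw [← dist_eq_norm] at hpq
    have h1 := dist_triangle w z p
    have h2 := dist_triangle z q p
    linarith
  have hc : ∀ p q : X × (D → ℝ), closedBall p (R + 3) ⊆ U → ‖q - p‖ ≤ 1 → closedBall q R ⊆ U₁ := by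
    intro p q hp hpq z hz
    exact Or.inl ((hsub p q z hpq hz).trans hp)
  have hc' : ∀ p q : X × (D → ℝ), (∀ w ∈ closedBall p (R + 3), e w = w ∧ e' w = w) → ‖q - p‖ ≤ 1 →
      closedBall q R ⊆ U₁ := by
    intro p q hp hpq z hz
    exact Or.inr fun w hw => hp w (hsub p q z hpq hz hw)
  have hc0 : ∀ p : X × (D → ℝ), closedBall p (R + 3) ⊆ U → closedBall p R ⊆ U₁ := by
    intro p hp
    refine hc p p hp ?_
    rw [sub_self, norm_zero]; norm_num
  set F : X × (D → ℝ) → X × (D → ℝ) := fun p => if p.2 t ≤ 0 then e p else f p with hF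
  set F' : X × (D → ℝ) → X × (D → ℝ) := fun p => if p.2 t ≤ 0 then e' p else f' p with hF'
  have hF0 : ∀ p : X × (D → ℝ), p.2 t ≤ 0 → F p = e p := fun p hp => by rw [hF]; exact if_pos hp
  have hF1 : ∀ p : X × (D → ℝ), 0 < p.2 t → F p = f p := fun p hp => by
    rw [hF]; exact if_neg (not_le.2 hp)
  have hF0' : ∀ p : X × (D → ℝ), p.2 t ≤ 0 → F' p = e' p := fun p hp => by rw [hF']; exact if_pos hp
  have hF1' : ∀ p : X × (D → ℝ), 0 < p.2 t → F' p = f' p := fun p hp => by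
    rw [hF']; exact if_neg (not_le.2 hp)
  have hct : Continuous fun p : X × (D → ℝ) => p.2 t := by fun_prop
  have key : ∀ p : X × (D → ℝ), ((p.2 t < 0 ∧ p ∈ U) ∨ closedBall p (R + 3) ⊆ U ∨ R + 3 < p.2 t) →
      (p ∈ U ∧ ∀ᶠ q in 𝓝 p, F q = e q ∧ F' q = e' q) ∨
      ((closedBall p R ⊆ U₁ ∨ R < p.2 t) ∧ ∀ᶠ q in 𝓝 p, F q = f q ∧ F' q = f' q) := by
    intro p hp
    rcases lt_trichotomy (p.2 t) 0 with h0 | h0 | h0
    · left
      constructor
      · rcases hp with hp | hp | hp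
        · exact hp.2
        · exact hp (hself p)
        · linarith
      · filter_upwards [hct.continuousAt.eventually_lt continuousAt_const h0] with q hq
        exact ⟨hF0 q hq.le, hF0' q hq.le⟩
    · rcases hp with hp | hp | hp
      · linarith [hp.1]
      · left
        refine ⟨hp (hself p), ?_⟩
        filter_upwards [hct.continuousAt.eventually_lt continuousAt_const (show p.2 t < 1 by linarith),
          closedBall_mem_nhds p one_pos] with q hq1 hq2
        rw [mem_closedBall, dist_eq_norm] at hq2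
        have h2 := ha q (hc p q hp hq2) hq1.le
        rcases le_or_gt (q.2 t) 0 with h3 | h3
        · exact ⟨hF0 q h3, hF0' q h3⟩
        · exact ⟨(hF1 q h3).trans h2.1, (hF1' q h3).trans h2.2⟩
      · linarith
    · right
      constructor
      · rcases hp with hp | hp | hp
        · linarith [hp.1]
        · exact Or.inl (hc0 p hp)
        · exact Or.inr (by linarith)
      · filter_upwards [continuousAt_const.eventually_lt hct.continuousAt h0] with q hq
        exact ⟨hF1 q hq, hF1' q hq⟩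
  have hCL : C₁ * ε ≤ (C₁ + L) * ε := by nlinarith
  have hCL' : ε ≤ (C₁ + L) * ε := by nlinarith
  refine ⟨F, F', ⟨?_, ?_, ?_, ?_, ?_, ?_, ?_, ?_⟩, ?_, ?_, ?_⟩
  · intro p
    rcases le_or_gt (p.2 t) 0 with h0 | h0
    · rw [hF0 p h0]; exact hN.pres p
    · rw [hF1 p h0]; exact hf.pres p
  · intro p
    rcases le_or_gt (p.2 t) 0 with h0 | h0
    · rw [hF0' p h0]; exact hN.pres' p
    · rw [hF1' p h0]; exact hf.pres' p
  · intro p hp
    rcases key p hp with ⟨h1, h2⟩ | ⟨h1, h2⟩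
    · rw [h2.self_of_nhds.1]; exact (hN.disp p h1).trans hCL'
    · rw [h2.self_of_nhds.1]; exact (hf.disp p h1).trans hCL
  · intro p hp
    rcases key p hp with ⟨h1, h2⟩ | ⟨h1, h2⟩
    · rw [h2.self_of_nhds.2]; exact (hN.disp' p h1).trans hCL'
    · rw [h2.self_of_nhds.2]; exact (hf.disp' p h1).trans hCL
  · intro p hp
    rcases key p hp with ⟨h1, h2⟩ | ⟨h1, h2⟩
    · filter_upwards [h2, hN.lip p h1] with q hq1 hq2
      rw [h2.self_of_nhds.1, hq1.1]
      nlinarith [norm_nonneg (q - p)]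
    · filter_upwards [h2, hf.lip p h1] with q hq1 hq2
      rw [h2.self_of_nhds.1, hq1.1]
      nlinarith [norm_nonneg (q - p)]
  · intro p hp
    rcases key p hp with ⟨h1, h2⟩ | ⟨h1, h2⟩
    · filter_upwards [h2, hN.lip' p h1] with q hq1 hq2
      rw [h2.self_of_nhds.2, hq1.2]
      nlinarith [norm_nonneg (q - p)]
    · filter_upwards [h2, hf.lip' p h1] with q hq1 hq2
      rw [h2.self_of_nhds.2, hq1.2]
      nlinarith [norm_nonneg (q - p)]
  · intro p hp hq
    exact C7_inv t R ε (C₁ * ε) hR hε3 hε2 U U₁ e e' f f' hN.disp hN.inv (fun p hp => hf.disp p hp)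
      (fun p hp hq => hf.inv p hp hq) (fun p h1 h2 => (ha p h1 h2).1) (fun p h1 h2 => (ha p h1 h2).2)
      (fun p h1 => (hb p h1).1) (fun p h1 => (hb p h1).2) hc F F' hF0 hF1 hF0' hF1' p hp hq
  · intro p hp hq
    exact C7_inv t R ε (C₁ * ε) hR hε3 hε2 U U₁ e' e f' f hN.disp' hN.inv' (fun p hp => hf.disp' p hp)
      (fun p hp hq => hf.inv' p hp hq) (fun p h1 h2 => (ha p h1 h2).2) (fun p h1 h2 => (ha p h1 h2).1)
      (fun p h1 => (hb p h1).2) (fun p h1 => (hb p h1).1) hc F' F hF0' hF1' hF0 hF1 p hp hq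
  · exact fun p hp => ⟨hF0 p hp, hF0' p hp⟩
  · intro p hp
    rw [hF1 p (by linarith), hF1' p (by linarith)]
    exact hb p (by linarith)
  · intro p hp
    rcases le_or_gt (p.2 t) 0 with h0 | h0
    · rw [hF0 p h0, hF0' p h0]; exact hp p (hself p)
    · rw [hF1 p h0, hF1' p h0]
      refine hid p (hc' p p hp ?_) ?_
      · rw [sub_self, norm_zero]; norm_num
      · intro q hq
        exact hp q (closedBall_subset_closedBall (by linarith) hq)

theorem C7_core (X : Type) [NormedAddCommGroup X] [NormedSpace ℝ X] (D : Type) [Fintype D] [DecidableEq D]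
    [Nontrivial D] (t : D) : CoreStmt X D t :=
  C7_of_hat X D t (C6_hat X D t)

end H80.LD

end S_H80_LD_C7

section S_H80_LD_E7

/-!
# E7: the extension theorem

`E7_of_ft`: given `L, ζ` put `κ = ζ/6`; `E5_lat`: `N, Zs`; `StepStmt D κ N Zs L N` by induction (`E6_zero`, `E6_succ`): `ε₀, C`.  For `e, e', U`: `F, F'`.
* `closedBall p ζ ⊆ U`: there are `j < N`, `z ∈ Zs j` with `dist p z ≤ κ`; `closedBall z (5 κ) ⊆ closedBall p (6 κ) ⊆ U`; `p ∈ closedBall z κ = closedBall z (κ (2 - N/N))`: `F p = e p`.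
* `p ∉ U`: `p ∉ closedBall z (3κ)` whenever `closedBall z (5 κ) ⊆ U`: `F p = p`.
`E7_ext`: `C7_core ℂ (Fin d) t` (`Fin d` is nontrivial for `d ≥ 2`: `Fin.nontrivial_iff_two_le`), `E1_ht`, `E2_ct`, `E3_bt`, `E4_ft`.
-/

open Filter Topology Metric Set

namespace H80.LD

theorem E7_of_ft (D : Type) [Fintype D] (hF : FTStmt ℂ D) (hl : LatStmt D) : ExtStmt D := by
  intro L hL ζ hζ
  have hκ : 0 < ζ / 6 := by positivity
  obtain ⟨N, Zs, hN, hsep, hcov⟩ := hl (ζ / 6) hκ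
  have hstep : ∀ k ≤ N, StepStmt D (ζ / 6) N Zs L k := by
    intro k
    induction k with
    | zero => intro _; exact E6_zero D (ζ / 6) N Zs L
    | succ k ih =>
      intro hk
      exact E6_succ D hF (ζ / 6) hκ N Zs hsep L hL k (by omega) (ih (by omega))
  obtain ⟨ε₀, h0, C, hC, H⟩ := hstep N le_rfl
  refine ⟨ε₀, h0, C, hC, fun ε hε hε0 U e e' hNP => ?_⟩
  obtain ⟨F, F', hF1, hF2, hF3⟩ := H ε hε hε0 U e e' hNP
  refine ⟨F, F', hF1, ?_, ?_⟩
  · intro p hp
    obtain ⟨j, hj, z, hz, hd⟩ := hcov p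
    refine hF2 j hj z hz ?_ p ?_
    · intro q hq
      apply hp
      rw [mem_closedBall] at hq ⊢
      have h1 := dist_triangle q z p
      rw [dist_comm z p] at h1
      linarith
    · have hN' : (N : ℝ) ≠ 0 := by positivity
      rw [mem_closedBall, div_self hN']
      linarith
  · intro p hp
    apply hF3
    intro j hj z hz hb hp'
    exact hp (hb (closedBall_subset_closedBall (by linarith) hp'))

theorem E7_ext (d : ℕ) (hd : 2 ≤ d) : ExtStmt (Fin d) := by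
  have : Nontrivial (Fin d) := Fin.nontrivial_iff_two_le.mpr hd
  exact E7_of_ft (Fin d) (E4_ft ℂ (Fin d) (E3_bt ℂ (Fin d) (E2_ct ℂ (Fin d) fun t =>
    E1_ht ℂ (Fin d) t (C7_core ℂ (Fin d) t)))) (E5_lat (Fin d))

end H80.LD

end S_H80_LD_E7
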