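import Mathlib
import Pool.Agent.H24.LS.A0
import Pool.Agent.H24.LS.Base

/-! MP_816883_ag: this file joins several modules (see the folders H80/LD, H24/LS) to save build time. -/

section S_H24_LS_A3

/-!
# A3: the number of variables is determined

`‖fderiv f x‖ ≤ C ‖x‖^2`... (`fderiv ℂ f` is analytic, vanishes with its derivative at `0`, so it is `o(‖x‖)`, which suffices).
Blow up: for `x : Fin c → ℂ` the sequence `j • A (x/j)` (`j ≥ 1` large) is bounded by `L ‖x‖`; let `A0 x` be its limit along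
`Filter.hyperfilter ℕ` (compactness of closed balls; `IsCompact.ultrafilter_le_nhds`); same for `B0`.  `A0`, `B0` are `L`-Lipschitz.
`B0 (A0 x) = x`: `‖j B (A0 x/j) - x‖ ≤ j ‖B (A0 x/j) - B (A (x/j))‖ + j ‖B (A (x/j)) - x/j‖
≤ L ‖A0 x - j A (x/j)‖ + j L ‖fderiv f (x/j)‖`, the first tends to `0` along the ultrafilter, the second because
`‖fderiv f y‖ = o(‖y‖)`.  Similarly `A0 (B0 y) = y`.
So `A0` is a bijection, Lipschitz with Lipschitz inverse: `dimH` of `univ` in `Fin c → ℂ` equals that in `Fin c' → ℂ`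
(`LipschitzWith.dimH_image_le`, `A0 '' univ = univ`, both directions); `Real.dimH_univ_eq_finrank`: real dimensions
`2 c = 2 c'` (`finrank_real_of_complex`, `Module.finrank_fin_fun`).
-/

open Filter Topology Metric

namespace H24.LS

/-- rescaling -/
noncomputable def A3_a {E E' : Type*} [NormedAddCommGroup E] [NormedSpace ℂ E]
    [NormedAddCommGroup E'] [NormedSpace ℂ E'] (A : E → E') (j : ℕ) (x : E) : E' :=
  (j : ℂ) • A ((j : ℂ)⁻¹ • x)

section
variable {E E' : Type*} [NormedAddCommGroup E] [NormedSpace ℂ E]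
    [NormedAddCommGroup E'] [NormedSpace ℂ E']

theorem A3_small (x : E) : Tendsto (fun j : ℕ => ((j : ℂ)⁻¹ • x)) atTop (𝓝 0) := by
  have h1 : Tendsto (fun j : ℕ => ((j : ℂ)⁻¹)) atTop (𝓝 0) := tendsto_inv_atTop_nhds_zero_nat
  have h2 := h1.smul_const x
  rwa [zero_smul] at h2

theorem A3_ball {ρ : ℝ} (hρ : 0 < ρ) (x : E) :
    ∀ᶠ j : ℕ in atTop, 0 < j ∧ ((j : ℂ)⁻¹ • x) ∈ ball (0 : E) ρ := by
  filter_upwards [(A3_small x).eventually (ball_mem_nhds _ hρ), eventually_gt_atTop 0] with j h1 h2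
  exact ⟨h2, h1⟩

theorem A3_lip {A : E → E'} {L ρ : ℝ}
    (lipA : ∀ p ∈ ball (0 : E) ρ, ∀ q ∈ ball (0 : E) ρ, ‖A p - A q‖ ≤ L * ‖p - q‖) {j : ℕ}
    (hj : 0 < j) {x y : E} (hx : ((j : ℂ)⁻¹ • x) ∈ ball (0 : E) ρ)
    (hy : ((j : ℂ)⁻¹ • y) ∈ ball (0 : E) ρ) : ‖A3_a A j x - A3_a A j y‖ ≤ L * ‖x - y‖ := by
  have h1 := lipA _ hx _ hy
  have hj' : (0 : ℝ) < j := by exact_mod_cast hj
  unfold A3_a
  rw [← smul_sub, norm_smul, Complex.norm_natCast]
  rw [← smul_sub, norm_smul, norm_inv, Complex.norm_natCast] at h1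
  calc (j : ℝ) * ‖A ((j : ℂ)⁻¹ • x) - A ((j : ℂ)⁻¹ • y)‖ ≤ j * (L * ((j : ℝ)⁻¹ * ‖x - y‖)) :=
        mul_le_mul_of_nonneg_left h1 hj'.le
    _ = L * ‖x - y‖ := by field_simp

theorem A3_lim [ProperSpace E'] {A : E → E'} {L ρ : ℝ} (hρ : 0 < ρ) (A0 : A 0 = 0)
    (lipA : ∀ p ∈ ball (0 : E) ρ, ∀ q ∈ ball (0 : E) ρ, ‖A p - A q‖ ≤ L * ‖p - q‖) :
    ∃ T : E → E', (∀ x, Tendsto (fun j : ℕ => A3_a A j x) (hyperfilter ℕ) (𝓝 (T x))) ∧
      ∀ x y, ‖T x - T y‖ ≤ L * ‖x - y‖ := by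
  have hU : (hyperfilter ℕ : Filter ℕ) ≤ atTop := Nat.hyperfilter_le_atTop
  have h1 : ∀ x, ∃ z, Tendsto (fun j : ℕ => A3_a A j x) (hyperfilter ℕ) (𝓝 z) := by
    intro x
    have hK : IsCompact (closedBall (0 : E') (L * ‖x‖)) := isCompact_closedBall _ _
    have h2 : ((hyperfilter ℕ).map (fun j : ℕ => A3_a A j x) : Filter E') ≤
        𝓟 (closedBall (0 : E') (L * ‖x‖)) := by
      rw [le_principal_iff]
      show ∀ᶠ j : ℕ in (hyperfilter ℕ : Filter ℕ), A3_a A j x ∈ closedBall (0 : E') (L * ‖x‖)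
      filter_upwards [hU (A3_ball hρ x)] with j hj
      have h3 := A3_lip lipA hj.1 hj.2 (y := 0) (by rw [smul_zero]; exact mem_ball_self hρ)
      have h4 : A3_a A j 0 = 0 := by
        unfold A3_a
        rw [smul_zero, A0, smul_zero]
      rw [h4, sub_zero, sub_zero] at h3
      rw [mem_closedBall_zero_iff]
      exact h3
    obtain ⟨z, -, hz⟩ := hK.ultrafilter_le_nhds _ h2
    exact ⟨z, hz⟩
  choose T hT using h1
  refine ⟨T, hT, fun x y => ?_⟩
  have h2 := ((hT x).sub (hT y)).norm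
  refine le_of_tendsto h2 ?_
  filter_upwards [hU (A3_ball hρ x), hU (A3_ball hρ y)] with j hx hy
  exact A3_lip lipA hx.1 hx.2 hy.2

theorem A3_o {g : E' → ℂ} (hg : AnalyticAt ℂ g 0) (g1 : fderiv ℂ g 0 = 0)
    (g2 : fderiv ℂ (fderiv ℂ g) 0 = 0) (y : E') :
    Tendsto (fun j : ℕ => (j : ℝ) * ‖fderiv ℂ g ((j : ℂ)⁻¹ • y)‖) atTop (𝓝 0) := by
  have hd : HasFDerivAt (fderiv ℂ g) (0 : E' →L[ℂ] (E' →L[ℂ] ℂ)) 0 := by
    rw [← g2]
    exact hg.fderiv.differentiableAt.hasFDerivAt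
  have ho := hd.isLittleO
  simp only [g1, sub_zero, ContinuousLinearMap.zero_apply] at ho
  rw [Metric.tendsto_atTop']
  intro ε hε
  have hc : 0 < ε / (2 * (‖y‖ + 1)) := by positivity
  have h1 := (A3_small y).eventually (ho.bound hc)
  obtain ⟨N, hN⟩ := eventually_atTop.1 (h1.and (eventually_gt_atTop 0))
  refine ⟨N, fun j hj => ?_⟩
  obtain ⟨h2, h3⟩ := hN j hj.le
  have hj' : (0 : ℝ) < j := by exact_mod_cast h3
  rw [norm_smul, norm_inv, Complex.norm_natCast] at h2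
  rw [dist_zero_right, Real.norm_of_nonneg (by positivity)]
  calc (j : ℝ) * ‖fderiv ℂ g ((j : ℂ)⁻¹ • y)‖ ≤
        j * (ε / (2 * (‖y‖ + 1)) * ((j : ℝ)⁻¹ * ‖y‖)) := mul_le_mul_of_nonneg_left h2 hj'.le
    _ = ε / 2 * (‖y‖ / (‖y‖ + 1)) := by field_simp
    _ ≤ ε / 2 * 1 := by
        apply mul_le_mul_of_nonneg_left _ (by positivity)
        rw [div_le_one (by positivity)]
        linarith
    _ < ε := by linarith

theorem A3_inv {f : E → ℂ} {g : E' → ℂ} (hg : AnalyticAt ℂ g 0) (g1 : fderiv ℂ g 0 = 0)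
    (g2 : fderiv ℂ (fderiv ℂ g) 0 = 0) {A : E → E'} {B : E' → E} {L ρ : ℝ}
    (h : Coarse f g A B L ρ) {T : E → E'} {S : E' → E}
    (hT : ∀ x, Tendsto (fun j : ℕ => A3_a A j x) (hyperfilter ℕ) (𝓝 (T x)))
    (hS : ∀ x, Tendsto (fun j : ℕ => A3_a B j x) (hyperfilter ℕ) (𝓝 (S x))) (y : E') :
    T (S y) = y := by
  have hU : (hyperfilter ℕ : Filter ℕ) ≤ atTop := Nat.hyperfilter_le_atTop
  have hL : 0 < L := lt_of_lt_of_le one_pos h.hL
  have key : Tendsto (fun j : ℕ => ‖A3_a A j (S y) - y‖) (hyperfilter ℕ) (𝓝 0) := by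
    have h1 : Tendsto (fun j : ℕ => L * ‖S y - A3_a B j y‖ +
        L * ((j : ℝ) * ‖fderiv ℂ g ((j : ℂ)⁻¹ • y)‖)) (hyperfilter ℕ) (𝓝 0) := by
      have h2 := (((tendsto_const_nhds (x := S y)).sub (hS y)).norm).const_mul L
      have h3 := ((A3_o hg g1 g2 y).mono_left hU).const_mul L
      have h4 := h2.add h3
      simpa using h4
    refine squeeze_zero' (Eventually.of_forall fun _ => norm_nonneg _) ?_ h1
    have hBs : ∀ᶠ j : ℕ in atTop, B ((j : ℂ)⁻¹ • y) ∈ ball (0 : E) ρ := by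
      filter_upwards [A3_ball h.hρ y, A3_ball (div_pos h.hρ hL) y] with j hj hj2
      have h5 := h.lipB _ hj.2 0 (mem_ball_self h.hρ)
      rw [h.B0, sub_zero, sub_zero] at h5
      have h6 := mem_ball_zero_iff.1 hj2.2
      rw [lt_div_iff₀ hL] at h6
      rw [mem_ball_zero_iff]
      linarith
    filter_upwards [hU (A3_ball h.hρ y), hU (A3_ball h.hρ (S y)), hU hBs] with j h1 h2 h3
    have hj' : (0 : ℝ) < j := by exact_mod_cast h1.1
    have hjc : (j : ℂ) ≠ 0 := by exact_mod_cast h1.1.ne'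
    have e1 : ((j : ℂ)⁻¹ • A3_a B j y) = B ((j : ℂ)⁻¹ • y) := by
      unfold A3_a
      rw [smul_smul, inv_mul_cancel₀ hjc, one_smul]
    have h4 : ‖A3_a A j (S y) - A3_a A j (A3_a B j y)‖ ≤ L * ‖S y - A3_a B j y‖ :=
      A3_lip h.lipA h1.1 h2.2 (by rw [e1]; exact h3)
    have h5 : ‖A3_a A j (A3_a B j y) - y‖ ≤ L * ((j : ℝ) * ‖fderiv ℂ g ((j : ℂ)⁻¹ • y)‖) := by
      have e2 : A3_a A j (A3_a B j y) - y = (j : ℂ) • (A (B ((j : ℂ)⁻¹ • y)) - (j : ℂ)⁻¹ • y) := by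
        rw [A3_a, e1, smul_sub, smul_smul, mul_inv_cancel₀ hjc, one_smul]
      rw [e2, norm_smul, Complex.norm_natCast]
      calc (j : ℝ) * ‖A (B ((j : ℂ)⁻¹ • y)) - (j : ℂ)⁻¹ • y‖
          ≤ j * (L * ‖fderiv ℂ g ((j : ℂ)⁻¹ • y)‖) :=
            mul_le_mul_of_nonneg_left (h.AB _ h1.2) hj'.le
        _ = _ := by ring
    calc ‖A3_a A j (S y) - y‖ = ‖(A3_a A j (S y) - A3_a A j (A3_a B j y)) +
          (A3_a A j (A3_a B j y) - y)‖ := by congr 1; abel
      _ ≤ _ := norm_add_le _ _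
      _ ≤ _ := add_le_add h4 h5
  have h6 := ((hT (S y)).sub_const y).norm
  have h7 := tendsto_nhds_unique h6 key
  exact sub_eq_zero.1 (norm_eq_zero.1 h7)

theorem A3_symm {f : E → ℂ} {g : E' → ℂ} {A : E → E'} {B : E' → E}
    {L ρ : ℝ} (h : Coarse f g A B L ρ) : Coarse g f B A L ρ where
  hL := h.hL
  hρ := h.hρ
  A0 := h.B0
  B0 := h.A0
  lipA := h.lipB
  lipB := h.lipA
  fA := h.gB
  gB := h.fA
  dA := h.dB
  dB := h.dA
  BA := h.AB
  AB := h.BA

end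

theorem A3_le {c c' : ℕ} (f : (Fin c → ℂ) → ℂ) (g : (Fin c' → ℂ) → ℂ)
    (hg : AnalyticAt ℂ g 0) (g1 : fderiv ℂ g 0 = 0) (g2 : fderiv ℂ (fderiv ℂ g) 0 = 0)
    {A : (Fin c → ℂ) → (Fin c' → ℂ)} {B : (Fin c' → ℂ) → (Fin c → ℂ)} {L ρ : ℝ}
    (h : Coarse f g A B L ρ) : c' ≤ c := by
  obtain ⟨T, hT, hTL⟩ := A3_lim h.hρ h.A0 h.lipA
  obtain ⟨S, hS, -⟩ := A3_lim h.hρ h.B0 h.lipB
  have hL : 0 ≤ L := zero_le_one.trans h.hL
  have hlip : LipschitzWith L.toNNReal T := by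
    refine LipschitzWith.of_dist_le_mul fun x y => ?_
    rw [dist_eq_norm, dist_eq_norm, Real.coe_toNNReal L hL]
    exact hTL x y
  have hsurj : T '' Set.univ = Set.univ := by
    rw [Set.image_univ, Set.range_eq_univ]
    exact fun y => ⟨S y, A3_inv hg g1 g2 h hT hS y⟩
  have h1 := hlip.dimH_image_le Set.univ
  rw [hsurj, Real.dimH_univ_eq_finrank, Real.dimH_univ_eq_finrank] at h1
  have h2 : ∀ n : ℕ, Module.finrank ℝ (Fin n → ℂ) = 2 * n := by
    intro n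
    rw [finrank_real_of_complex, Module.finrank_fin_fun]
  rw [h2, h2] at h1
  have h3 : 2 * c' ≤ 2 * c := by exact_mod_cast h1
  omega

theorem corank_eq {c c' : ℕ} (f : (Fin c → ℂ) → ℂ) (g : (Fin c' → ℂ) → ℂ)
    (hf : AnalyticAt ℂ f 0) (hg : AnalyticAt ℂ g 0) (f1 : fderiv ℂ f 0 = 0)
    (g1 : fderiv ℂ g 0 = 0) (f2 : fderiv ℂ (fderiv ℂ f) 0 = 0) (g2 : fderiv ℂ (fderiv ℂ g) 0 = 0)
    {A : (Fin c → ℂ) → (Fin c' → ℂ)} {B : (Fin c' → ℂ) → (Fin c → ℂ)} {L ρ : ℝ}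
    (h : Coarse f g A B L ρ) : c = c' :=
  le_antisymm (A3_le g f hf f1 f2 (A3_symm h)) (A3_le f g hg g1 g2 h)

end H24.LS

end S_H24_LS_A3

section S_H24_LS_A4b

/-!
# A4b: `f (x,z) = f (x, ζ x) + (S (x,z))^2` with `S` strictly differentiable

`w (x,z) = ∫_0^1 (1-s) fzz (x, ζ x + s (z - ζ x)) ds`, `fzz p = fderiv (fderiv f) p (0,1) (0,1)`.  Taylor's formula with integral
remainder in the complex variable `z` (apply the one variable formula to `s ↦ f (x, ζ + s (z - ζ))`, `s ∈ [0,1]`; its first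
derivative at `s = 0` is `(z - ζ) fz (x, ζ x) = 0`): `f (x,z) = f (x, ζ x) + (z - ζ x)^2 w (x,z)` near `0`.
`w 0 = fzz 0/2 ≠ 0`.  `w` is `C^1` (over `ℝ` or `ℂ`) near `0`: the integrand is analytic near the compact set `{0} × [0,1]`;
differentiate under the integral sign (`hasFDerivAt_integral_of_dominated_of_fderiv_le`) and continuity of the derivative
(`intervalIntegral.continuous_parametric..`), `hasStrictFDerivAt_of_hasFDerivAt_of_continuousAt`.
(Any other proof of the existence of such a `w` is fine, e.g. with `dslope` and Cauchy integrals.)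
`S (x,z) = (z - ζ x) * a * (w/w0)^{1/2}` with `a^2 = w0 = w 0`, principal power near `1`.  `S 0 = 0`; its derivative at `0` is
`(u, s) ↦ a (s - ζ' u)`: nonzero on `(0,1)`.
-/

open Filter Topology Metric

namespace H24.LS

private theorem A4b_strict {G : Type*} [NormedAddCommGroup G] [NormedSpace ℂ G] {u v : G → ℂ}
    {u' : G →L[ℂ] ℂ} (hu : HasStrictFDerivAt u u' 0) (hu0 : u 0 = 0) {K : NNReal} {t : Set G}
    (ht : t ∈ 𝓝 (0 : G)) (hv : LipschitzOnWith K v t) :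
    HasStrictFDerivAt (fun p => u p * v p) (v 0 • u') 0 := by
  rw [hasStrictFDerivAt_iff_isLittleO]
  have hvc : ContinuousAt v 0 := hv.continuousOn.continuousAt ht
  have huc : ContinuousAt u 0 := hu.continuousAt
  have hO := hu.isLittleO
  have t1 : Tendsto (fun p : G × G => p.1) (𝓝 (0, 0)) (𝓝 0) := continuous_fst.tendsto (0, 0)
  have t2 : Tendsto (fun p : G × G => p.2) (𝓝 (0, 0)) (𝓝 0) := continuous_snd.tendsto (0, 0)
  have h1 : (fun p : G × G => v p.1 * (u p.1 - u p.2 - u' (p.1 - p.2))) =o[𝓝 (0, 0)]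
      fun p => (1 : ℝ) * ‖p.1 - p.2‖ := by
    refine Asymptotics.IsBigO.mul_isLittleO ?_ hO.norm_right
    exact (hvc.tendsto.comp t1).isBigO_one ℝ
  have h2 : (fun p : G × G => (v p.1 - v 0) * u' (p.1 - p.2)) =o[𝓝 (0, 0)]
      fun p => (1 : ℝ) * ‖p.1 - p.2‖ := by
    refine Asymptotics.IsLittleO.mul_isBigO ?_ ?_
    · rw [Asymptotics.isLittleO_one_iff]
      have := (hvc.tendsto.comp t1).sub_const (v 0)
      rwa [sub_self] at this
    · exact (u'.isBigO_comp _ _).norm_right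
  have h3 : (fun p : G × G => u p.2 * (v p.1 - v p.2)) =o[𝓝 (0, 0)]
      fun p => (1 : ℝ) * ‖p.1 - p.2‖ := by
    refine Asymptotics.IsLittleO.mul_isBigO ?_ ?_
    · rw [Asymptotics.isLittleO_one_iff]
      have := huc.tendsto.comp t2
      rwa [hu0] at this
    · refine Asymptotics.IsBigO.of_bound K ?_
      filter_upwards [prod_mem_nhds ht ht] with p hp
      rw [norm_norm]
      have := hv.dist_le_mul p.1 hp.1 p.2 hp.2
      rwa [dist_eq_norm, dist_eq_norm] at this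
  have h4 := (h1.add h2).add h3
  simp only [one_mul] at h4
  have h5 := h4.norm_right.of_norm_right
  refine (Asymptotics.isLittleO_norm_right.1 h4).congr_left fun p => ?_
  simp only [smul_apply, smul_eq_mul]
  ring

/-- Taylor's formula along the segment from `c` to `p` -/
private theorem A4b_taylor {G : Type*} [NormedAddCommGroup G] [NormedSpace ℂ G] {f : G → ℂ}
    {c p e : G} {δ : ℂ} {r : ℝ} (hf : ∀ q ∈ ball (0 : G) r, AnalyticAt ℂ f q)
    (hc : c ∈ ball (0 : G) r) (hp : p ∈ ball (0 : G) r) (he : p - c = δ • e)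
    (h0 : fderiv ℂ f c e = 0) :
    f p = f c + δ ^ 2 * ∫ t in (0:ℝ)..1, ((1 - t : ℝ) : ℂ) *
      fderiv ℂ (fderiv ℂ f) (c + t • (p - c)) e e := by
  have hseg : ∀ t ∈ Set.Icc (0:ℝ) 1, c + t • (p - c) ∈ ball (0 : G) r := by
    intro t ht
    have := (convex_ball (0 : G) r).add_smul_sub_mem hc hp ht
    exact this
  have hγ : ∀ t : ℝ, HasDerivAt (fun t : ℝ => c + t • (p - c)) (p - c) t := by
    intro t
    have := ((hasDerivAt_id t).smul_const (p - c)).const_add c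
    simpa using this
  have hd1 : ∀ t ∈ Set.Icc (0:ℝ) 1, HasDerivAt (fun t : ℝ => f (c + t • (p - c)))
      (fderiv ℂ f (c + t • (p - c)) (p - c)) t := by
    intro t ht
    have h1 := ((hf _ (hseg t ht)).differentiableAt.hasFDerivAt).restrictScalars ℝ
    have := h1.comp_hasDerivAt t (hγ t)
    exact this
  have hd2 : ∀ t ∈ Set.Icc (0:ℝ) 1, HasDerivAt (fun t : ℝ => fderiv ℂ f (c + t • (p - c)) (p - c))
      (fderiv ℂ (fderiv ℂ f) (c + t • (p - c)) (p - c) (p - c)) t := by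
    intro t ht
    have h1 := ((hf _ (hseg t ht)).fderiv.differentiableAt.hasFDerivAt).restrictScalars ℝ
    have h2 := h1.comp_hasDerivAt t (hγ t)
    have h3 : HasDerivAt (fun t : ℝ => fderiv ℂ f (c + t • (p - c)))
      (fderiv ℂ (fderiv ℂ f) (c + t • (p - c)) (p - c)) t := h2
    have h4 := ((ContinuousLinearMap.apply ℂ ℂ (p - c)).restrictScalars ℝ).hasFDerivAt.comp_hasDerivAt t h3
    exact h4
  have hd3 : ∀ t ∈ Set.uIcc (0:ℝ) 1, HasDerivAt (fun t : ℝ => f (c + t • (p - c)) +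
      ((1 - t : ℝ) : ℂ) * fderiv ℂ f (c + t • (p - c)) (p - c))
      (δ ^ 2 * (((1 - t : ℝ) : ℂ) * fderiv ℂ (fderiv ℂ f) (c + t • (p - c)) e e)) t := by
    intro t ht
    rw [Set.uIcc_of_le zero_le_one] at ht
    have h1 : HasDerivAt (fun t : ℝ => ((1 - t : ℝ) : ℂ)) (-1) t := by
      have := ((hasDerivAt_id t).const_sub 1).ofReal_comp
      simpa using this
    have h2 := (hd1 t ht).add (h1.mul (hd2 t ht))
    refine h2.congr_deriv ?_
    rw [he]
    simp only [map_smul, smul_apply, smul_eq_mul]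
    ring
  have hcont : ContinuousOn (fun t : ℝ => δ ^ 2 * (((1 - t : ℝ) : ℂ) *
      fderiv ℂ (fderiv ℂ f) (c + t • (p - c)) e e)) (Set.uIcc (0:ℝ) 1) := by
    rw [Set.uIcc_of_le zero_le_one]
    intro t ht
    have h1 : ContinuousAt (fun t : ℝ => fderiv ℂ (fderiv ℂ f) (c + t • (p - c))) t :=
      ContinuousAt.comp (f := fun t : ℝ => c + t • (p - c)) (hf _ (hseg t ht)).fderiv.fderiv.continuousAt
        (hγ t).continuousAt
    have h2 : ContinuousAt (fun t : ℝ => fderiv ℂ (fderiv ℂ f) (c + t • (p - c)) e e) t :=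
      (h1.clm_apply continuousAt_const).clm_apply continuousAt_const
    refine (ContinuousAt.mul continuousAt_const (ContinuousAt.mul ?_ h2)).continuousWithinAt
    fun_prop
  have h5 := intervalIntegral.integral_eq_sub_of_hasDerivAt hd3 hcont.intervalIntegrable
  rw [intervalIntegral.integral_const_mul] at h5
  rw [h5]
  have h6 : fderiv ℂ f c (p - c) = 0 := by
    rw [he, map_smul, h0, smul_zero]
  simp only [one_smul, zero_smul, add_zero, sub_self, Complex.ofReal_zero, zero_mul, sub_zero,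
    h6, mul_zero, add_sub_cancel]

theorem square_part {E : Type*} [NormedAddCommGroup E] [NormedSpace ℂ E] [FiniteDimensional ℂ E]
    (f : E × ℂ → ℂ) (hf : AnalyticAt ℂ f 0)
    (hz : fderiv ℂ (fderiv ℂ f) 0 (0, 1) (0, 1) ≠ 0) (ζ : E → ℂ) (hζ : AnalyticAt ℂ ζ 0)
    (hζ0 : ζ 0 = 0) (hcr : ∀ᶠ x in 𝓝 (0 : E), fderiv ℂ f (x, ζ x) (0, 1) = 0) :
    ∃ (S : E × ℂ → ℂ) (S' : E × ℂ →L[ℂ] ℂ), HasStrictFDerivAt S S' 0 ∧ S 0 = 0 ∧ S' (0, 1) ≠ 0 ∧
      ∀ᶠ p in 𝓝 (0 : E × ℂ), f p = f (p.1, ζ p.1) + S p ^ 2 := by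
  set e : E × ℂ := (0, 1) with he
  let F2 : E × ℂ → ℂ := fun q => fderiv ℂ (fderiv ℂ f) q e e
  have hF2 : ContDiffAt ℂ 1 F2 0 :=
    (hf.fderiv.fderiv.contDiffAt.clm_apply contDiffAt_const).clm_apply contDiffAt_const
  let c : E × ℂ → E × ℂ := fun p => (p.1, ζ p.1)
  have hc0 : c 0 = 0 := by
    simp only [c, Prod.fst_zero, hζ0]
    rfl
  have hcd : ContDiffAt ℂ 1 c 0 := by
    refine contDiffAt_fst.prodMk ?_
    exact ContDiffAt.comp (0 : E × ℂ) (g := ζ) hζ.contDiffAt contDiffAt_fst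
  obtain ⟨K1, t1, ht1, hK1⟩ := hcd.exists_lipschitzOnWith
  obtain ⟨K2, t2, ht2, hK2⟩ := hF2.exists_lipschitzOnWith
  have hev : ∀ᶠ q in 𝓝 (0 : E × ℂ), AnalyticAt ℂ f q ∧ q ∈ t2 :=
    hf.eventually_analyticAt.and ht2
  obtain ⟨r, hr, hball⟩ := Metric.eventually_nhds_iff_ball.1 hev
  have hev2 : ∀ᶠ p in 𝓝 (0 : E × ℂ), p ∈ ball (0 : E × ℂ) r ∧ c p ∈ ball (0 : E × ℂ) r ∧ p ∈ t1 ∧
      fderiv ℂ f (c p) e = 0 := by
    have k1 : ∀ᶠ p in 𝓝 (0 : E × ℂ), p ∈ ball (0 : E × ℂ) r := ball_mem_nhds _ hr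
    have k2 : ∀ᶠ p in 𝓝 (0 : E × ℂ), c p ∈ ball (0 : E × ℂ) r := by
      have : Tendsto c (𝓝 0) (𝓝 (c 0)) := hcd.continuousAt
      rw [hc0] at this
      exact this (ball_mem_nhds _ hr)
    have k3 : ∀ᶠ p in 𝓝 (0 : E × ℂ), fderiv ℂ f (c p) e = 0 := by
      have : Tendsto (fun p : E × ℂ => p.1) (𝓝 0) (𝓝 0) := continuous_fst.tendsto (0 : E × ℂ)
      exact this.eventually hcr
    filter_upwards [k1, k2, ht1, k3] with p h1 h2 h3 h4
    exact ⟨h1, h2, h3, h4⟩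
  obtain ⟨r', hr', hball'⟩ := Metric.eventually_nhds_iff_ball.1 hev2
  let γ : E × ℂ → ℝ → E × ℂ := fun p t => c p + t • (p - c p)
  have hγb : ∀ p ∈ ball (0 : E × ℂ) r', ∀ t ∈ Set.Icc (0:ℝ) 1, γ p t ∈ ball (0 : E × ℂ) r := by
    intro p hp t ht
    exact (convex_ball (0 : E × ℂ) r).add_smul_sub_mem (hball' p hp).2.1 (hball' p hp).1 ht
  let W : E × ℂ → ℂ := fun p => ∫ t in (0:ℝ)..1, ((1 - t : ℝ) : ℂ) * F2 (γ p t)
  have hint : ∀ p ∈ ball (0 : E × ℂ) r',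
      IntervalIntegrable (fun t : ℝ => ((1 - t : ℝ) : ℂ) * F2 (γ p t)) MeasureTheory.volume 0 1 := by
    intro p hp
    apply ContinuousOn.intervalIntegrable
    rw [Set.uIcc_of_le zero_le_one]
    intro t ht
    have hγc : Continuous (γ p) := by
      simp only [γ]
      fun_prop
    have h1 : ContinuousAt (fun t : ℝ => fderiv ℂ (fderiv ℂ f) (γ p t)) t :=
      ContinuousAt.comp (f := γ p) (hball _ (hγb p hp t ht)).1.fderiv.fderiv.continuousAt
        hγc.continuousAt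
    have h2 : ContinuousAt (fun t : ℝ => F2 (γ p t)) t :=
      (h1.clm_apply continuousAt_const).clm_apply continuousAt_const
    refine (ContinuousAt.mul ?_ h2).continuousWithinAt
    fun_prop
  have hWlip : LipschitzOnWith (K2 * (K1 + 1)) W (ball (0 : E × ℂ) r') := by
    refine LipschitzOnWith.of_dist_le_mul fun p hp q hq => ?_
    rw [dist_eq_norm, dist_eq_norm]
    simp only [W]
    rw [← intervalIntegral.integral_sub (hint p hp) (hint q hq)]
    have hbd : ∀ t ∈ Set.uIoc (0:ℝ) 1, ‖((1 - t : ℝ) : ℂ) * F2 (γ p t) -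
        ((1 - t : ℝ) : ℂ) * F2 (γ q t)‖ ≤ ((K2 * (K1 + 1) : NNReal) : ℝ) * ‖p - q‖ := by
      intro t ht
      rw [Set.uIoc_of_le zero_le_one] at ht
      have ht' : t ∈ Set.Icc (0:ℝ) 1 := ⟨ht.1.le, ht.2⟩
      have h1 : dist (F2 (γ p t)) (F2 (γ q t)) ≤ K2 * dist (γ p t) (γ q t) :=
        hK2.dist_le_mul _ (hball _ (hγb p hp t ht')).2 _ (hball _ (hγb q hq t ht')).2
      have h2 : dist (c p) (c q) ≤ K1 * dist p q :=
        hK1.dist_le_mul _ (hball' p hp).2.2.1 _ (hball' q hq).2.2.1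
      rw [dist_eq_norm, dist_eq_norm] at h1 h2
      have h3 : γ p t - γ q t = (1 - t) • (c p - c q) + t • (p - q) := by
        simp only [γ]
        module
      have h4 : ‖γ p t - γ q t‖ ≤ (K1 + 1) * ‖p - q‖ := by
        rw [h3]
        refine (norm_add_le _ _).trans ?_
        rw [norm_smul, norm_smul, Real.norm_eq_abs, Real.norm_eq_abs, abs_of_nonneg ht'.1,
          abs_of_nonneg (sub_nonneg.2 ht'.2)]
        have e1 : (1 - t) * ‖c p - c q‖ ≤ 1 * (K1 * ‖p - q‖) :=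
          mul_le_mul (by linarith [ht'.1]) h2 (norm_nonneg _) zero_le_one
        have e2 : t * ‖p - q‖ ≤ 1 * ‖p - q‖ := mul_le_mul_of_nonneg_right ht'.2 (norm_nonneg _)
        linarith
      rw [← mul_sub, norm_mul, Complex.norm_real, Real.norm_eq_abs,
        abs_of_nonneg (sub_nonneg.2 ht'.2)]
      push_cast
      calc (1 - t) * ‖F2 (γ p t) - F2 (γ q t)‖ ≤ 1 * (K2 * ((K1 + 1) * ‖p - q‖)) := by
            refine mul_le_mul (by linarith [ht'.1]) (h1.trans ?_) (norm_nonneg _) zero_le_one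
            exact mul_le_mul_of_nonneg_left h4 K2.2
        _ = K2 * (K1 + 1) * ‖p - q‖ := by ring
    have := intervalIntegral.norm_integral_le_of_norm_le_const hbd
    simpa using this
  have hW0 : W 0 = F2 0 / 2 := by
    have h1 : ∀ t : ℝ, γ 0 t = 0 := by
      intro t
      simp only [γ]
      rw [hc0, sub_zero, smul_zero, add_zero]
    simp only [W, h1]
    rw [intervalIntegral.integral_mul_const, intervalIntegral.integral_ofReal]
    have h2 : ∫ t in (0:ℝ)..1, (1 - t) = 1 / 2 := by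
      rw [intervalIntegral.integral_sub (by simp) (by simp)]
      simp
      norm_num
    rw [h2]
    push_cast
    ring
  have hW0' : W 0 ≠ 0 := by
    rw [hW0]
    exact div_ne_zero hz two_ne_zero
  obtain ⟨a, ha⟩ := IsAlgClosed.exists_pow_nat_eq (W 0) (n := 2) two_pos
  have ha0 : a ≠ 0 := by
    rintro rfl
    apply hW0'
    rw [← ha]
    norm_num
  let R : ℂ → ℂ := fun w => a * Complex.exp (Complex.log (w / W 0) / 2)
  have hRd : ContDiffAt ℂ 1 R (W 0) := by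
    refine contDiffAt_const.mul (ContDiffAt.cexp (ContDiffAt.div_const ?_ _))
    refine AnalyticAt.contDiffAt (AnalyticAt.clog (f := fun w => w / W 0)
      (analyticAt_id.div analyticAt_const hW0') ?_)
    rw [div_self hW0']
    exact Complex.one_mem_slitPlane
  have hRsq : ∀ w, w ≠ 0 → R w ^ 2 = w := by
    intro w hw
    simp only [R]
    rw [mul_pow, ha, ← Complex.exp_nat_mul]
    have : ((2:ℕ) : ℂ) * (Complex.log (w / W 0) / 2) = Complex.log (w / W 0) := by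
      push_cast
      ring
    rw [this, Complex.exp_log (div_ne_zero hw hW0')]
    field_simp
  have hR0 : R (W 0) = a := by
    simp only [R]
    rw [div_self hW0', Complex.log_one, zero_div, Complex.exp_zero, mul_one]
  obtain ⟨K3, t3, ht3, hK3⟩ := hRd.exists_lipschitzOnWith
  have hWc : ContinuousAt W 0 := hWlip.continuousOn.continuousAt (ball_mem_nhds _ hr')
  let V : E × ℂ → ℂ := fun p => R (W p)
  have hVs : ball (0 : E × ℂ) r' ∩ W ⁻¹' t3 ∈ 𝓝 (0 : E × ℂ) :=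
    Filter.inter_mem (ball_mem_nhds _ hr') (hWc ht3)
  have hV : LipschitzOnWith (K3 * (K2 * (K1 + 1))) V (ball (0 : E × ℂ) r' ∩ W ⁻¹' t3) :=
    hK3.comp (hWlip.mono Set.inter_subset_left) fun p hp => hp.2
  let u : E × ℂ → ℂ := fun p => p.2 - ζ p.1
  have hu : HasStrictFDerivAt u (ContinuousLinearMap.snd ℂ E ℂ -
      (fderiv ℂ ζ 0).comp (ContinuousLinearMap.fst ℂ E ℂ)) 0 := by
    refine hasStrictFDerivAt_snd.sub ?_
    exact HasStrictFDerivAt.comp (0 : E × ℂ) (g := ζ) hζ.hasStrictFDerivAt hasStrictFDerivAt_fst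
  have hu0 : u 0 = 0 := by
    simp only [u, Prod.fst_zero, Prod.snd_zero, hζ0, sub_zero]
  refine ⟨fun p => u p * V p, _, A4b_strict hu hu0 hVs hV, ?_, ?_, ?_⟩
  · show u 0 * V 0 = 0
    rw [hu0, zero_mul]
  · have : V 0 = a := hR0
    rw [this, he]
    simp [ha0]
  · have k1 : ∀ᶠ p in 𝓝 (0 : E × ℂ), p ∈ ball (0 : E × ℂ) r' := ball_mem_nhds _ hr'
    have k2 : ∀ᶠ p in 𝓝 (0 : E × ℂ), W p ≠ 0 := hWc.eventually_ne hW0'
    filter_upwards [k1, k2] with p h1 h2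
    obtain ⟨m1, m2, m3, m4⟩ := hball' p h1
    have hδ : p - c p = (u p) • e := by
      simp only [c, u, he]
      ext
      · simp
      · simp
    have h3 := A4b_taylor (fun q hq => (hball q hq).1) m2 m1 hδ m4
    rw [h3, mul_pow]
    have : V p ^ 2 = W p := hRsq _ h2
    rw [this]

end H24.LS

end S_H24_LS_A4b

section S_H24_LS_A5a

/-!
# A5a: linear changes of coordinates

* `exists_equiv`: complete `v` to a basis: e.g. `Basis.extend`/a linear functional `l` with `l v = 1` and `Fin (n+1) → ℂ = ker l ⊕ ℂ v`,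
  `finrank (ker l) = n`, `ker l ≃ (Fin n → ℂ)`; finite dimensional linear equivalences are continuous
  (`LinearEquiv.toContinuousLinearEquiv`).
* `hess_symm`: `second_derivative_symmetric` / `ContDiffAt.isSymmSndFDerivAt`.
* `exists_nonisotropic`: if `B ≠ 0` choose `u, v` with `B u v ≠ 0`; if `B u u = B v v = 0` then `B (u+v) (u+v) = 2 B u v ≠ 0`.
* `grm_comp`: chain rule; `fderiv (f ∘ e) x = (fderiv f (e x)) ∘ e`;
  `fderiv (fderiv (f ∘ e)) 0 u v = fderiv (fderiv f) 0 (e u) (e v)`.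
* `crk_comp`: `e` maps the kernel of the Hessian of `f ∘ e` isomorphically onto that of `f`.
-/

open Filter Topology Metric

namespace H24.LS

theorem exists_equiv (n : ℕ) (v : Fin (n + 1) → ℂ) (hv : v ≠ 0) :
    ∃ e : ((Fin n → ℂ) × ℂ) ≃L[ℂ] (Fin (n + 1) → ℂ), e (0, 1) = v := by
  have hfin : Module.finrank ℂ ((Fin n → ℂ) × ℂ) = Module.finrank ℂ (Fin (n + 1) → ℂ) := by
    simp
  let e0 : ((Fin n → ℂ) × ℂ) ≃L[ℂ] (Fin (n + 1) → ℂ) := ContinuousLinearEquiv.ofFinrankEq hfin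
  have h0 : e0 (0, 1) ≠ 0 := by
    rw [Ne, e0.map_eq_zero_iff]
    intro h
    have := congrArg Prod.snd h
    simp at this
  obtain ⟨A, hA⟩ := SeparatingDual.exists_continuousLinearEquiv_apply_eq (R := ℂ) h0 hv
  exact ⟨e0.trans A, hA⟩

theorem hess_symm {E : Type*} [NormedAddCommGroup E] [NormedSpace ℂ E] [FiniteDimensional ℂ E]
    (f : E → ℂ) (hf : AnalyticAt ℂ f 0) (u v : E) :
    fderiv ℂ (fderiv ℂ f) 0 u v = fderiv ℂ (fderiv ℂ f) 0 v u :=
  (ContDiffAt.isSymmSndFDerivAt_of_omega hf.contDiffAt) u v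

theorem exists_nonisotropic {E : Type*} [NormedAddCommGroup E] [NormedSpace ℂ E]
    [FiniteDimensional ℂ E] (f : E → ℂ) (hf : AnalyticAt ℂ f 0)
    (h : fderiv ℂ (fderiv ℂ f) 0 ≠ 0) : ∃ v : E, fderiv ℂ (fderiv ℂ f) 0 v v ≠ 0 := by
  by_contra hno
  push Not at hno
  apply h
  ext u v
  have h1 := hno (u + v)
  simp only [map_add, add_apply] at h1
  rw [hno u, hno v, hess_symm f hf v u, zero_add, add_zero] at h1
  have h2 : (2:ℂ) * fderiv ℂ (fderiv ℂ f) 0 u v = 0 := by linear_combination h1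
  simpa using h2

theorem A5a_fderiv {E E' : Type*} [NormedAddCommGroup E] [NormedSpace ℂ E]
    [NormedAddCommGroup E'] [NormedSpace ℂ E'] (f : E' → ℂ) (e : E ≃L[ℂ] E') (x : E) :
    fderiv ℂ (fun x => f (e x)) x = (fderiv ℂ f (e x)).comp (e : E →L[ℂ] E') :=
  e.comp_right_fderiv (f := f) (x := x)

theorem hess_comp {E E' : Type*} [NormedAddCommGroup E] [NormedSpace ℂ E] [FiniteDimensional ℂ E]
    [NormedAddCommGroup E'] [NormedSpace ℂ E'] [FiniteDimensional ℂ E'] (f : E' → ℂ)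
    (hf : AnalyticAt ℂ f 0) (e : E ≃L[ℂ] E') (u v : E) :
    fderiv ℂ (fderiv ℂ (fun x => f (e x))) 0 u v = fderiv ℂ (fderiv ℂ f) 0 (e u) (e v) := by
  have h1 : fderiv ℂ (fun x => f (e x)) =
      fun x => ((ContinuousLinearMap.compL ℂ E E' ℂ).flip (e : E →L[ℂ] E')) (fderiv ℂ f (e x)) := by
    funext x
    rw [A5a_fderiv]
    rfl
  have hd : DifferentiableAt ℂ (fderiv ℂ f) (e 0) := by
    rw [map_zero]
    exact hf.fderiv.differentiableAt
  have h2 : HasFDerivAt (fun x => fderiv ℂ f (e x))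
      ((fderiv ℂ (fderiv ℂ f) (e 0)).comp (e : E →L[ℂ] E')) 0 :=
    hd.hasFDerivAt.comp (0 : E) e.hasFDerivAt
  have h3 := ((ContinuousLinearMap.compL ℂ E E' ℂ).flip (e : E →L[ℂ] E')).hasFDerivAt.comp
    (0 : E) h2
  have h4 : fderiv ℂ (fderiv ℂ (fun x => f (e x))) 0 =
      ((ContinuousLinearMap.compL ℂ E E' ℂ).flip (e : E →L[ℂ] E')).comp
        ((fderiv ℂ (fderiv ℂ f) (e 0)).comp (e : E →L[ℂ] E')) := by
    rw [h1]
    exact h3.fderiv
  rw [h4, map_zero]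
  rfl

theorem grm_comp {E E' : Type*} [NormedAddCommGroup E] [NormedSpace ℂ E] [FiniteDimensional ℂ E]
    [NormedAddCommGroup E'] [NormedSpace ℂ E'] [FiniteDimensional ℂ E'] (f : E' → ℂ)
    (hf : Grm f) (e : E ≃L[ℂ] E') : Grm (fun x => f (e x)) ∧ crk (fun x => f (e x)) = crk f := by
  refine ⟨⟨?_, ?_, ?_, ?_⟩, ?_⟩
  · have h1 : AnalyticAt ℂ f (e 0) := by rw [map_zero]; exact hf.an
    exact h1.comp ((e : E →L[ℂ] E').analyticAt 0)
  · simp only [map_zero, hf.f0]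
  · rw [A5a_fderiv, map_zero, hf.f1, ContinuousLinearMap.zero_comp]
  · have h1 : Tendsto e (𝓝[≠] (0:E)) (𝓝[≠] (0:E')) := by
      have h2 := e.continuous.continuousAt.tendsto (x := (0:E))
      rw [map_zero] at h2
      refine tendsto_nhdsWithin_iff.2 ⟨h2.mono_left nhdsWithin_le_nhds, ?_⟩
      filter_upwards [self_mem_nhdsWithin] with x hx
      rw [Set.mem_compl_iff, Set.mem_singleton_iff, e.map_eq_zero_iff]
      exact hx
    filter_upwards [h1.eventually hf.iso] with x hx h0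
    apply hx
    rw [A5a_fderiv] at h0
    ext w
    have := congrArg (fun L : E →L[ℂ] ℂ => L (e.symm w)) h0
    simpa using this
  · unfold crk
    rw [← LinearEquiv.finrank_map_eq e.toLinearEquiv
      (LinearMap.ker (fderiv ℂ (fderiv ℂ (fun x => f (e x))) 0).toLinearMap)]
    have hk : Submodule.map (e.toLinearEquiv : E →ₗ[ℂ] E')
        (LinearMap.ker (fderiv ℂ (fderiv ℂ (fun x => f (e x))) 0).toLinearMap) =
        LinearMap.ker (fderiv ℂ (fderiv ℂ f) 0).toLinearMap := by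
      ext y
      constructor
      · rintro ⟨x, hx, rfl⟩
        rw [LinearMap.mem_ker]
        have hx' : fderiv ℂ (fderiv ℂ (fun x => f (e x))) 0 x = 0 := hx
        change fderiv ℂ (fderiv ℂ f) 0 (e x) = 0
        ext w
        have h1 := hess_comp f hf.an e x (e.symm w)
        rw [hx', e.apply_symm_apply] at h1
        rw [← h1]
        rfl
      · intro hy
        have hy' : fderiv ℂ (fderiv ℂ f) 0 y = 0 := hy
        refine ⟨e.symm y, ?_, e.apply_symm_apply y⟩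
        change fderiv ℂ (fderiv ℂ (fun x => f (e x))) 0 (e.symm y) = 0
        ext w
        rw [hess_comp f hf.an e, e.apply_symm_apply, hy']
        rfl
    rw [hk]

end H24.LS

end S_H24_LS_A5a

section S_H80_LD_AStr

/-!
# AStr (project MP_816883_LD, part A): straightening of an almost linear function

* `exists_vec`: `ContinuousLinearMap.exists_lt_apply_of_lt_opNorm` with `‖e‖/2`: `‖x‖ < 1`, `‖e‖/2 < ‖e x‖`; `w = (e x)⁻¹ • x`.
* `straighten`: let `π` be the radial retraction onto `closedBall 0 R`, `π u = u` if `‖u‖ ≤ R`, else `(R/‖u‖) • u`; it is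
  `2`-Lipschitz (both points outside: `R/‖x‖ (‖x - y‖ + |‖y‖ - ‖x‖|)`; `x` inside, `y` outside:
  `‖x - y‖ + (‖y‖ - R) ≤ 2 ‖x - y‖`). `ψ u = φ (π u) - e (π u)` is `2η`-Lipschitz (mean value inequality on the convex
  `closedBall 0 R`, `Convex.norm_image_sub_le_of_norm_fderiv_le` for `φ - e`), `‖ψ u‖ ≤ η + η R`. `Θ u = u + ψ u • w`:
  `‖(Θ u - u) - (Θ v - v)‖ ≤ 2 η M ‖u - v‖ ≤ ‖u - v‖/2`, so `Θ` is bijective (Banach fixed point, or
  `ApproximatesLinearOn.toHomeomorph` on `univ` with `f' = ContinuousLinearEquiv.refl`), `2`-Lipschitz with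
  `2`-Lipschitz inverse. For `‖u‖ ≤ R`: `e (Θ u) = e u + (φ u - e u) = φ u`.
-/

open Filter Topology Metric

namespace H80.LD

variable {V : Type*} [NormedAddCommGroup V] [NormedSpace ℂ V]

theorem exists_vec (e : V →L[ℂ] ℂ) (he : 0 < ‖e‖) : ∃ w : V, e w = 1 ∧ ‖w‖ ≤ 2 / ‖e‖ := by
  obtain ⟨x, hx1, hx2⟩ := ContinuousLinearMap.exists_lt_apply_of_lt_opNorm e
    (r := ‖e‖ / 2) (by linarith)
  have hpos : 0 < ‖e x‖ := by linarith
  have hne : e x ≠ 0 := norm_pos_iff.1 hpos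
  refine ⟨(e x)⁻¹ • x, ?_, ?_⟩
  · rw [map_smul, smul_eq_mul, inv_mul_cancel₀ hne]
  · rw [norm_smul, norm_inv, inv_mul_eq_div, div_le_div_iff₀ hpos he]
    nlinarith [norm_nonneg x]

/-- the radial retraction. -/
noncomputable def astr_pi (R : ℝ) (u : V) : V := ((R / max R ‖u‖ : ℝ) : ℂ) • u

theorem astr_pi_eq {R : ℝ} (hR : 0 < R) (u : V) (hu : ‖u‖ ≤ R) : astr_pi R u = u := by
  rw [astr_pi, max_eq_left hu, div_self hR.ne', Complex.ofReal_one, one_smul]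

theorem astr_pi_norm {R : ℝ} (hR : 0 < R) (u : V) : ‖astr_pi R u‖ ≤ R := by
  have hm : 0 < max R ‖u‖ := lt_max_of_lt_left hR
  have h0 : 0 ≤ R / max R ‖u‖ := by positivity
  rw [astr_pi, norm_smul, Complex.norm_real, Real.norm_of_nonneg h0, div_mul_eq_mul_div,
    div_le_iff₀ hm]
  exact mul_le_mul_of_nonneg_left (le_max_right _ _) hR.le

theorem astr_pi_lip {R : ℝ} (hR : 0 < R) (u v : V) :
    ‖astr_pi R u - astr_pi R v‖ ≤ 2 * ‖u - v‖ := by
  set a := max R ‖u‖ with ha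
  set b := max R ‖v‖ with hb
  have ha0 : 0 < a := lt_max_of_lt_left hR
  have hb0 : 0 < b := lt_max_of_lt_left hR
  have hRa : R / a ≤ 1 := by
    rw [div_le_one ha0]
    exact le_max_left _ _
  have hRa0 : 0 ≤ R / a := by positivity
  have hvb : ‖v‖ / b ≤ 1 := by
    rw [div_le_one hb0]
    exact le_max_right _ _
  have hvb0 : 0 ≤ ‖v‖ / b := by positivity
  have hab : |b - a| ≤ ‖u - v‖ := by
    have h1 : |b - a| ≤ |‖v‖ - ‖u‖| := by
      rw [ha, hb]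
      have := abs_max_sub_max_le_max R ‖v‖ R ‖u‖
      rw [sub_self, abs_zero] at this
      exact this.trans (max_le (abs_nonneg _) le_rfl)
    refine h1.trans ?_
    rw [norm_sub_rev]
    exact abs_norm_sub_norm_le v u
  have e : astr_pi R u - astr_pi R v =
      ((R / a : ℝ) : ℂ) • (u - v) + (((R / a) * ((b - a) / b) : ℝ) : ℂ) • v := by
    have h2 : R / a * ((b - a) / b) = R / a - R / b := by
      field_simp
    rw [h2, astr_pi, astr_pi, ← ha, ← hb, smul_sub, Complex.ofReal_sub, sub_smul]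
    abel
  rw [e]
  have h3 : ‖((R / a : ℝ) : ℂ) • (u - v)‖ ≤ ‖u - v‖ := by
    rw [norm_smul, Complex.norm_real, Real.norm_of_nonneg hRa0]
    calc R / a * ‖u - v‖ ≤ 1 * ‖u - v‖ := mul_le_mul_of_nonneg_right hRa (norm_nonneg _)
      _ = ‖u - v‖ := one_mul _
  have h4 : ‖(((R / a) * ((b - a) / b) : ℝ) : ℂ) • v‖ ≤ ‖u - v‖ := by
    rw [norm_smul, Complex.norm_real, Real.norm_eq_abs, abs_mul, abs_of_nonneg hRa0, abs_div,
      abs_of_pos hb0]
    calc R / a * (|b - a| / b) * ‖v‖ = R / a * (|b - a| * (‖v‖ / b)) := by ring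
      _ ≤ 1 * (‖u - v‖ * 1) := by
        apply mul_le_mul hRa _ (by positivity) (by norm_num)
        exact mul_le_mul hab hvb hvb0 (norm_nonneg _)
      _ = ‖u - v‖ := by ring
  calc ‖((R / a : ℝ) : ℂ) • (u - v) + (((R / a) * ((b - a) / b) : ℝ) : ℂ) • v‖
      ≤ ‖((R / a : ℝ) : ℂ) • (u - v)‖ + ‖(((R / a) * ((b - a) / b) : ℝ) : ℂ) • v‖ := norm_add_le _ _
    _ ≤ ‖u - v‖ + ‖u - v‖ := add_le_add h3 h4
    _ = 2 * ‖u - v‖ := by ring

theorem astr_fix [CompleteSpace V] (s : V → V) (hs : ∀ u v, ‖s u - s v‖ ≤ ‖u - v‖ / 2) :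
    ∃ Θi : V → V, (∀ u, Θi (u + s u) = u) ∧ (∀ v, Θi v + s (Θi v) = v) := by
  have hc : ∀ v : V, ContractingWith (1 / 2) (fun u => v - s u) := by
    intro v
    refine ⟨?_, ?_⟩
    · rw [← NNReal.coe_lt_coe]
      norm_num
    · apply LipschitzWith.of_dist_le_mul
      intro x y
      rw [dist_eq_norm, dist_eq_norm]
      have h1 : v - s x - (v - s y) = -(s x - s y) := by abel
      rw [h1, norm_neg]
      refine (hs x y).trans ?_
      have : ((1 / 2 : NNReal) : ℝ) = 1 / 2 := by norm_num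
      rw [this]
      linarith
  refine ⟨fun v => ContractingWith.fixedPoint (fun u => v - s u) (hc v), ?_, ?_⟩
  · intro u
    symm
    apply ContractingWith.fixedPoint_unique
    show u + s u - s u = u
    abel
  · intro v
    have h1 := ContractingWith.fixedPoint_isFixedPt (hc v)
    have h2 : v - s (ContractingWith.fixedPoint (fun u => v - s u) (hc v)) =
      ContractingWith.fixedPoint (fun u => v - s u) (hc v) := h1
    show ContractingWith.fixedPoint (fun u => v - s u) (hc v) +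
      s (ContractingWith.fixedPoint (fun u => v - s u) (hc v)) = v
    nth_rewrite 1 [← h2]
    abel

theorem straighten [CompleteSpace V] (e : V →L[ℂ] ℂ) (w : V) {M η R : ℝ} (hR : 0 < R)
    (hη : 0 ≤ η) (hM : ‖w‖ ≤ M) (hηM : 4 * η * M ≤ 1) (hw : e w = 1) (φ : V → ℂ)
    (h0 : ‖φ 0‖ ≤ η) (hd : ∀ u ∈ closedBall (0 : V) R, DifferentiableAt ℂ φ u)
    (hφ : ∀ u ∈ closedBall (0 : V) R, ‖fderiv ℂ φ u - e‖ ≤ η) :
    ∃ Θ Θi : V → V, (∀ u, Θi (Θ u) = u) ∧ (∀ v, Θ (Θi v) = v) ∧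
      (∀ u v, ‖Θ u - Θ v‖ ≤ 2 * ‖u - v‖) ∧ (∀ u v, ‖Θi u - Θi v‖ ≤ 2 * ‖u - v‖) ∧
      (∀ u, ‖Θ u - u‖ ≤ M * (η * (1 + R))) ∧ (∀ v, ‖Θi v - v‖ ≤ M * (η * (1 + R))) ∧
      (∀ u ∈ closedBall (0 : V) R, e (Θ u) = φ u) ∧ (φ 0 = 0 → Θ 0 = 0) := by
  have hM0 : 0 ≤ M := (norm_nonneg w).trans hM
  set g : V → ℂ := fun u => φ u - e u with hg
  have hgd : ∀ u ∈ closedBall (0 : V) R, DifferentiableAt ℂ g u := fun u hu =>
    (hd u hu).sub e.differentiableAt
  have hgf : ∀ u ∈ closedBall (0 : V) R, ‖fderiv ℂ g u‖ ≤ η := by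
    intro u hu
    have h1 : fderiv ℂ g u = fderiv ℂ φ u - e := by
      have h2 : HasFDerivAt g (fderiv ℂ φ u - e) u := (hd u hu).hasFDerivAt.sub e.hasFDerivAt
      exact h2.fderiv
    rw [h1]
    exact hφ u hu
  have hgl : ∀ x ∈ closedBall (0 : V) R, ∀ y ∈ closedBall (0 : V) R,
      ‖g y - g x‖ ≤ η * ‖y - x‖ := fun x hx y hy =>
    Convex.norm_image_sub_le_of_norm_fderiv_le hgd hgf (convex_closedBall 0 R) hx hy
  have hπ : ∀ u : V, astr_pi R u ∈ closedBall (0 : V) R := fun u => by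
    rw [mem_closedBall_zero_iff]
    exact astr_pi_norm hR u
  have h0m : (0 : V) ∈ closedBall (0 : V) R := mem_closedBall_self hR.le
  set ψ : V → ℂ := fun u => g (astr_pi R u) with hψ
  have hψl : ∀ u v, ‖ψ u - ψ v‖ ≤ 2 * η * ‖u - v‖ := by
    intro u v
    calc ‖ψ u - ψ v‖ ≤ η * ‖astr_pi R u - astr_pi R v‖ := hgl _ (hπ v) _ (hπ u)
      _ ≤ η * (2 * ‖u - v‖) := mul_le_mul_of_nonneg_left (astr_pi_lip hR u v) hη
      _ = 2 * η * ‖u - v‖ := by ring
  have hψb : ∀ u, ‖ψ u‖ ≤ η * (1 + R) := by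
    intro u
    have h1 := hgl 0 h0m _ (hπ u)
    have h2 : g 0 = φ 0 := by
      rw [hg]
      simp
    rw [h2, sub_zero] at h1
    have h3 : ‖ψ u‖ ≤ ‖ψ u - φ 0‖ + ‖φ 0‖ := by
      calc ‖ψ u‖ = ‖(ψ u - φ 0) + φ 0‖ := by rw [sub_add_cancel]
        _ ≤ _ := norm_add_le _ _
    have h4 : η * ‖astr_pi R u‖ ≤ η * R := mul_le_mul_of_nonneg_left (astr_pi_norm hR u) hη
    have h5 : ‖ψ u - φ 0‖ ≤ η * ‖astr_pi R u‖ := h1
    linarith
  set s : V → V := fun u => ψ u • w with hs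
  have hsb : ∀ u, ‖s u‖ ≤ M * (η * (1 + R)) := by
    intro u
    show ‖ψ u • w‖ ≤ _
    rw [norm_smul, mul_comm]
    exact mul_le_mul hM (hψb u) (norm_nonneg _) hM0
  have hsl : ∀ u v, ‖s u - s v‖ ≤ ‖u - v‖ / 2 := by
    intro u v
    show ‖ψ u • w - ψ v • w‖ ≤ _
    rw [← sub_smul, norm_smul]
    calc ‖ψ u - ψ v‖ * ‖w‖ ≤ (2 * η * ‖u - v‖) * M :=
          mul_le_mul (hψl u v) hM (norm_nonneg _) (by positivity)
      _ = (4 * η * M) * (‖u - v‖ / 2) := by ring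
      _ ≤ 1 * (‖u - v‖ / 2) := mul_le_mul_of_nonneg_right hηM (by positivity)
      _ = ‖u - v‖ / 2 := one_mul _
  obtain ⟨Θi, hi1, hi2⟩ := astr_fix s hsl
  refine ⟨fun u => u + s u, Θi, hi1, hi2, ?_, ?_, ?_, ?_, ?_, ?_⟩
  · intro u v
    show ‖u + s u - (v + s v)‖ ≤ _
    have h1 : u + s u - (v + s v) = (u - v) + (s u - s v) := by abel
    rw [h1]
    have h2 := norm_add_le (u - v) (s u - s v)
    have h3 := hsl u v
    have h4 := norm_nonneg (u - v)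
    linarith
  · intro u v
    have h1 := hi2 u
    have h2 := hi2 v
    set a := Θi u with ha
    set b := Θi v with hb
    have h3 : a - b = (u - v) - (s a - s b) := by
      rw [← h1, ← h2]
      abel
    have h4 := hsl a b
    have h5 : ‖a - b‖ ≤ ‖u - v‖ + ‖s a - s b‖ := by
      nth_rewrite 1 [h3]
      exact norm_sub_le _ _
    linarith
  · intro u
    show ‖u + s u - u‖ ≤ _
    rw [add_sub_cancel_left]
    exact hsb u
  · intro v
    have h1 : Θi v - v = -s (Θi v) := by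
      nth_rewrite 2 [← hi2 v]
      abel
    rw [h1, norm_neg]
    exact hsb _
  · intro u hu
    have hun : ‖u‖ ≤ R := mem_closedBall_zero_iff.1 hu
    show e (u + ψ u • w) = φ u
    have h1 : ψ u = φ u - e u := by
      show g (astr_pi R u) = _
      rw [astr_pi_eq hR u hun]
    rw [map_add, map_smul, hw, h1, smul_eq_mul, mul_one]
    ring
  · intro h
    show (0 : V) + ψ 0 • w = 0
    have h1 : ψ 0 = 0 := by
      show g (astr_pi R 0) = 0
      rw [astr_pi_eq hR 0 (by rw [norm_zero]; exact hR.le)]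
      show φ 0 - e 0 = 0
      rw [h, map_zero, sub_zero]
    rw [h1, zero_smul, add_zero]

end H80.LD

end S_H80_LD_AStr

section S_H80_LD_ALin

/-!
# ALin (project MP_816883_LD, part A): linear charts

`lin_chart`: write `e_i = e (Pi.single i 1)`; `e u = ∑ i, u i * e_i` and `1 = ‖e‖ ≤ ∑ i, |e_i|`, so there is `i0` with
`|e_{i0}| ≥ 1/(m+1)`; all `|e_i| ≤ 1`. `ℓ u = (e u, k ↦ the k-th of the 2m real numbers Re u_(i0.succAbove j),
Im u_(i0.succAbove j))` (index `k = 2 j + 0/1`, e.g. `j = k / 2` and parity, or `finProdFinEquiv : Fin m × Fin 2 ≃ Fin (m * 2)`),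
`ℓ' (z, v)` = the vector `u` with `u_(i0.succAbove j) = v_{j,0} + v_{j,1} i` and
`u_(i0) = (z - ∑ j, e_(i0.succAbove j) * u_(i0.succAbove j)) / e_{i0}` (`Fin.insertNth i0`, `Fin.sum_univ_succAbove`). Both are
real linear; `‖ℓ u‖ ≤ ‖u‖`; `‖ℓ' (z, v)‖ ≤ (m+1) (‖z‖ + 2 m ‖v‖) + 2 ‖v‖ ≤ C ‖(z, v)‖` with `C = (m+1)*(2*m+1) + 2`
(work directly with differences `ℓ u - ℓ v`, `ℓ' p - ℓ' q`).
-/

open Filter Topology Metric

namespace H80.LD

theorem alin_apply (m : ℕ) (e : (Fin (m + 1) → ℂ) →L[ℂ] ℂ) (u : Fin (m + 1) → ℂ) :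
    e u = ∑ i, u i * e (Pi.single i 1) := by
  conv_lhs => rw [← Finset.univ_sum_single u]
  rw [map_sum]
  refine Finset.sum_congr rfl fun i _ => ?_
  have : (Pi.single i (u i) : Fin (m + 1) → ℂ) = u i • Pi.single i (1 : ℂ) := by
    rw [← Pi.single_smul, smul_eq_mul, mul_one]
  rw [this, map_smul, smul_eq_mul]

theorem alin_le (m : ℕ) (e : (Fin (m + 1) → ℂ) →L[ℂ] ℂ) (he : ‖e‖ = 1) (i : Fin (m + 1)) :
    ‖e (Pi.single i 1)‖ ≤ 1 := by
  refine (e.le_opNorm _).trans ?_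
  rw [he, one_mul, Pi.norm_single, norm_one]

theorem alin_ex (m : ℕ) (e : (Fin (m + 1) → ℂ) →L[ℂ] ℂ) (he : ‖e‖ = 1) :
    ∃ i : Fin (m + 1), 1 ≤ ((m : ℝ) + 1) * ‖e (Pi.single i 1)‖ := by
  by_contra hcon
  push Not at hcon
  have h1 : ‖e‖ ≤ ∑ i, ‖e (Pi.single i 1)‖ := by
    refine e.opNorm_le_bound (Finset.sum_nonneg fun _ _ => norm_nonneg _) fun u => ?_
    rw [alin_apply, Finset.sum_mul]
    refine (norm_sum_le _ _).trans (Finset.sum_le_sum fun i _ => ?_)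
    rw [norm_mul, mul_comm]
    exact mul_le_mul_of_nonneg_left (norm_le_pi_norm u i) (norm_nonneg _)
  have h2 : ∑ i : Fin (m + 1), ((m : ℝ) + 1) * ‖e (Pi.single i 1)‖ < ∑ _i : Fin (m + 1), (1 : ℝ) :=
    Finset.sum_lt_sum_of_nonempty Finset.univ_nonempty fun i _ => hcon i
  rw [← Finset.mul_sum] at h2
  simp only [Finset.sum_const, Finset.card_univ, Fintype.card_fin, nsmul_eq_mul, mul_one] at h2
  push_cast at h2
  have h3 : (0 : ℝ) < (m : ℝ) + 1 := by positivity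
  rw [he] at h1
  nlinarith

/-- The forward chart. -/
noncomputable def alin_l (m : ℕ) (e : (Fin (m + 1) → ℂ) →L[ℂ] ℂ) (i0 : Fin (m + 1))
    (u : Fin (m + 1) → ℂ) : ℂ × (Fin (2 * m) → ℝ) :=
  (e u, fun k => if (finProdFinEquiv.symm k : Fin 2 × Fin m).1 = 0 then
    (u (i0.succAbove (finProdFinEquiv.symm k : Fin 2 × Fin m).2)).re else
    (u (i0.succAbove (finProdFinEquiv.symm k : Fin 2 × Fin m).2)).im)

/-- The complex coordinates. -/
noncomputable def alin_w (m : ℕ) (v : Fin (2 * m) → ℝ) (j : Fin m) : ℂ :=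
  (v (finProdFinEquiv ((0 : Fin 2), j)) : ℂ) + (v (finProdFinEquiv ((1 : Fin 2), j)) : ℂ) * Complex.I

/-- The inverse chart. -/
noncomputable def alin_l' (m : ℕ) (e : (Fin (m + 1) → ℂ) →L[ℂ] ℂ) (i0 : Fin (m + 1))
    (p : ℂ × (Fin (2 * m) → ℝ)) : Fin (m + 1) → ℂ :=
  i0.insertNth ((p.1 - ∑ j, alin_w m p.2 j * e (Pi.single (i0.succAbove j) 1)) /
    e (Pi.single i0 1)) (alin_w m p.2)

theorem alin_w_l (m : ℕ) (e : (Fin (m + 1) → ℂ) →L[ℂ] ℂ) (i0 : Fin (m + 1))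
    (u : Fin (m + 1) → ℂ) : alin_w m (alin_l m e i0 u).2 = fun j => u (i0.succAbove j) := by
  funext j
  simp only [alin_w, alin_l, Equiv.symm_apply_apply]
  simp [Complex.re_add_im]

theorem alin_w_sub (m : ℕ) (v v' : Fin (2 * m) → ℝ) (j : Fin m) :
    ‖alin_w m v j - alin_w m v' j‖ ≤ 2 * ‖v - v'‖ := by
  have e1 : alin_w m v j - alin_w m v' j =
      (((v - v') (finProdFinEquiv ((0 : Fin 2), j)) : ℝ) : ℂ) +
      (((v - v') (finProdFinEquiv ((1 : Fin 2), j)) : ℝ) : ℂ) * Complex.I := by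
    simp only [alin_w, Pi.sub_apply]; push_cast; ring
  rw [e1]
  refine (norm_add_le _ _).trans ?_
  rw [norm_mul, Complex.norm_I, mul_one, Complex.norm_real, Complex.norm_real]
  have h1 := norm_le_pi_norm (v - v') (finProdFinEquiv ((0 : Fin 2), j))
  have h2 := norm_le_pi_norm (v - v') (finProdFinEquiv ((1 : Fin 2), j))
  linarith

theorem alin_left (m : ℕ) (e : (Fin (m + 1) → ℂ) →L[ℂ] ℂ) (i0 : Fin (m + 1))
    (h0 : e (Pi.single i0 1) ≠ 0) (u : Fin (m + 1) → ℂ) :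
    alin_l' m e i0 (alin_l m e i0 u) = u := by
  unfold alin_l'
  rw [alin_w_l]
  have h1 : ((alin_l m e i0 u).1 - ∑ j, u (i0.succAbove j) * e (Pi.single (i0.succAbove j) 1)) /
      e (Pi.single i0 1) = u i0 := by
    have : (alin_l m e i0 u).1 = e u := rfl
    rw [this, alin_apply m e u, Fin.sum_univ_succAbove _ i0, add_sub_cancel_right,
      mul_div_assoc, div_self h0, mul_one]
  rw [h1]
  exact Fin.insertNth_self_removeNth i0 u

theorem alin_right (m : ℕ) (e : (Fin (m + 1) → ℂ) →L[ℂ] ℂ) (i0 : Fin (m + 1))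
    (h0 : e (Pi.single i0 1) ≠ 0) (p : ℂ × (Fin (2 * m) → ℝ)) :
    alin_l m e i0 (alin_l' m e i0 p) = p := by
  have h1 : e (alin_l' m e i0 p) = p.1 := by
    rw [alin_apply m e, Fin.sum_univ_succAbove _ i0]
    simp only [alin_l', Fin.insertNth_apply_same, Fin.insertNth_apply_succAbove]
    rw [div_mul_cancel₀ _ h0, sub_add_cancel]
  refine Prod.ext h1 ?_
  funext k
  obtain ⟨⟨a, j⟩, rfl⟩ := finProdFinEquiv.surjective k
  simp only [alin_l, alin_l', Equiv.symm_apply_apply, Fin.insertNth_apply_succAbove, alin_w]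
  fin_cases a
  · simp
  · simp

theorem lin_chart (m : ℕ) : ∃ C : ℝ, 1 ≤ C ∧ ∀ e : (Fin (m + 1) → ℂ) →L[ℂ] ℂ, ‖e‖ = 1 →
    ∃ (l : (Fin (m + 1) → ℂ) → ℂ × (Fin (2 * m) → ℝ))
      (l' : ℂ × (Fin (2 * m) → ℝ) → (Fin (m + 1) → ℂ)),
      (∀ u v, ‖l u - l v‖ ≤ C * ‖u - v‖) ∧ (∀ p q, ‖l' p - l' q‖ ≤ C * ‖p - q‖) ∧
      (∀ u, l' (l u) = u) ∧ (∀ p, l (l' p) = p) ∧ l 0 = 0 ∧ (∀ u, (l u).1 = e u) := by
  have hm : (0 : ℝ) ≤ (m : ℝ) := Nat.cast_nonneg m
  have hC1 : (1 : ℝ) ≤ ((m : ℝ) + 1) * (2 * m + 1) + 2 := by nlinarith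
  refine ⟨((m : ℝ) + 1) * (2 * m + 1) + 2, hC1, fun e he => ?_⟩
  obtain ⟨i0, hi0⟩ := alin_ex m e he
  have h0 : e (Pi.single i0 1) ≠ 0 := by
    intro h; rw [h, norm_zero, mul_zero] at hi0; linarith
  refine ⟨alin_l m e i0, alin_l' m e i0, ?_, ?_, alin_left m e i0 h0, alin_right m e i0 h0, ?_,
    fun u => rfl⟩
  · intro u v
    have h1 : ‖alin_l m e i0 u - alin_l m e i0 v‖ ≤ ‖u - v‖ := by
      rw [Prod.norm_def]
      apply max_le
      · have : (alin_l m e i0 u - alin_l m e i0 v).1 = e (u - v) := by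
          rw [map_sub]; rfl
        rw [this]
        refine (e.le_opNorm _).trans ?_
        rw [he, one_mul]
      · refine (pi_norm_le_iff_of_nonneg (norm_nonneg _)).2 fun k => ?_
        obtain ⟨⟨a, j⟩, rfl⟩ := finProdFinEquiv.surjective k
        have h2 : ‖(u - v) (i0.succAbove j)‖ ≤ ‖u - v‖ := norm_le_pi_norm _ _
        refine le_trans ?_ h2
        simp only [alin_l, Prod.snd_sub, Pi.sub_apply, Equiv.symm_apply_apply]
        split_ifs
        · rw [← Complex.sub_re, Real.norm_eq_abs]; exact Complex.abs_re_le_norm _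
        · rw [← Complex.sub_im, Real.norm_eq_abs]; exact Complex.abs_im_le_norm _
    refine h1.trans ?_
    nlinarith [norm_nonneg (u - v)]
  · intro p q
    have hw : ∀ j, ‖alin_w m p.2 j - alin_w m q.2 j‖ ≤ 2 * ‖p - q‖ := fun j =>
      (alin_w_sub m p.2 q.2 j).trans (by
        have : ‖p.2 - q.2‖ ≤ ‖p - q‖ := norm_snd_le (p - q)
        linarith)
    have hz : ‖p.1 - q.1‖ ≤ ‖p - q‖ := norm_fst_le (p - q)
    refine (pi_norm_le_iff_of_nonneg (by positivity)).2 ?_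
    refine (Fin.forall_iff_succAbove i0).2 ⟨?_, fun j => ?_⟩
    · simp only [alin_l', Pi.sub_apply, Fin.insertNth_apply_same]
      rw [← sub_div, norm_div]
      have hpos : 0 < ‖e (Pi.single i0 1)‖ := norm_pos_iff.2 h0
      rw [div_le_iff₀ hpos]
      have e1 : (p.1 - ∑ j, alin_w m p.2 j * e (Pi.single (i0.succAbove j) 1)) -
          (q.1 - ∑ j, alin_w m q.2 j * e (Pi.single (i0.succAbove j) 1)) =
          (p.1 - q.1) - ∑ j, (alin_w m p.2 j - alin_w m q.2 j) *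
            e (Pi.single (i0.succAbove j) 1) := by
        simp only [sub_mul, Finset.sum_sub_distrib]; ring
      rw [e1]
      have h3 : ‖∑ j, (alin_w m p.2 j - alin_w m q.2 j) * e (Pi.single (i0.succAbove j) 1)‖ ≤
          m * (2 * ‖p - q‖) := by
        refine (norm_sum_le _ _).trans ?_
        have : ∀ j ∈ (Finset.univ : Finset (Fin m)),
            ‖(alin_w m p.2 j - alin_w m q.2 j) * e (Pi.single (i0.succAbove j) 1)‖ ≤
            2 * ‖p - q‖ := fun j _ => by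
          rw [norm_mul]
          calc _ ≤ (2 * ‖p - q‖) * 1 := mul_le_mul (hw j) (alin_le m e he _) (norm_nonneg _)
                (by positivity)
            _ = _ := mul_one _
        refine (Finset.sum_le_sum this).trans (le_of_eq ?_)
        simp
      have h4 := (norm_sub_le (p.1 - q.1) (∑ j, (alin_w m p.2 j - alin_w m q.2 j) *
            e (Pi.single (i0.succAbove j) 1)))
      have h5 : ‖p - q‖ * (2 * m + 1) ≤
          (‖p - q‖ * (2 * m + 1)) * (((m : ℝ) + 1) * ‖e (Pi.single i0 1)‖) := by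
        have : 0 ≤ ‖p - q‖ * (2 * m + 1) := by positivity
        nlinarith
      have h6 : 0 ≤ 2 * ‖p - q‖ * ‖e (Pi.single i0 1)‖ := by positivity
      nlinarith
    · simp only [alin_l', Pi.sub_apply, Fin.insertNth_apply_succAbove]
      refine (hw j).trans ?_
      have : 0 ≤ ‖p - q‖ * (((m : ℝ) + 1) * (2 * m + 1)) := by positivity
      nlinarith
  · refine Prod.ext (map_zero e) ?_
    funext k
    simp [alin_l]

end H80.LD

end S_H80_LD_ALin

section S_H80_LD_GCov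

/-!
# GCov (project MP_816883_LD, blocks 8-9): coloured covering at the scale `s`

`N = 192`, colours: `ZMod 8 × (Fin n → ZMod N × ZMod N)` (finite; `M` = its cardinality, `Fintype.equivFin`; take `Z i = ∅` for `i ≥ M`).
For a colour `c` let `Z_c` be the set of `z` with `z ≠ 0`, `‖z‖ < r/2` such that there are `k : ℤ` and `v : Fin n → ℤ × ℤ` with
`z i = 2^(k-3) * ((v i).1 + (v i).2 * I)` for all `i`, `2^(k-1) ≤ s z ≤ 2^(k+2)` and colour of `(k, v)` `= ((k : ZMod 8), fun i => ((v i).1, (v i).2)) = c`.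

* covering: `x ≠ 0`, `‖x‖ < r/4`: `0 < s x`, `exists_mem_Ico_zpow` gives `k` with `2^k ≤ s x < 2^(k+1)`. `v i = (round (re (x i) / 2^(k-3)), round (im (x i) / 2^(k-3)))`,
  `z i = 2^(k-3) ((v i).1 + (v i).2 I)`; `|x i - z i| ≤ |re| + |im| ≤ 2^(k-3)` (`abs_sub_round`), so `‖x - z‖ ≤ 2^(k-3) ≤ s x / 8 ≤ ε ‖x‖ / 8 < ‖x‖`: `z ≠ 0`,
  `‖z‖ < 2 ‖x‖ < r/2`. `|s z - s x| ≤ ε s x / 8 ≤ s x / 4`: `2^(k-1) ≤ 3/4 * 2^k ≤ s z ≤ 5/4 * 2^(k+1) ≤ 2^(k+2)`, and `‖x - z‖ ≤ s x / 8 < s z`.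
* separation: `z ≠ z'` in `Z_c` with `(k, v)`, `(k', v')`.
  `k = k'`: there is `i` with `v i ≠ v' i`, say first components `a ≠ a'`; `N ∣ a - a'` (`ZMod.intCast_eq_intCast_iff_dvd_sub` or `ZMod.intCast_zmod_eq_zero_iff_dvd`), so
  `|a - a'| ≥ N` and `‖z - z'‖ ≥ |re (z i - z' i)| = 2^(k-3) |a - a'| ≥ 192 * 2^(k-3) = 6 * 2^(k+2) ≥ 6 max (s z) (s z')` (the same with `im`; `norm_le_pi_norm`, `Complex.abs_re_le_norm`).
  `k ≠ k'`: by symmetry `k < k'`, `8 ∣ k' - k`, so `k' ≥ k + 8`; `s z ≤ 2^(k+2) ≤ 2^(k'-6)`, `s z' ≥ 2^(k'-1)`: `s z' - s z ≥ 2^(k'-2) ≥ s z' / 16`, and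
  `s z' - s z ≤ ε ‖z - z'‖` gives `‖z - z'‖ ≥ s z' / (16 ε) ≥ 6 s z'`, `max (s z) (s z') = s z'`.
-/

open Filter Topology Metric Set

namespace H80.LD

/-- colours -/
abbrev gcov_Col (n : ℕ) : Type := ZMod 8 × (Fin n → ZMod 192 × ZMod 192)

/-- lattice points -/
noncomputable def gcov_pt {n : ℕ} (k : ℤ) (v : Fin n → ℤ × ℤ) : Fin n → ℂ := fun i =>
  (((2 : ℝ) ^ k / 8 : ℝ) : ℂ) * ((((v i).1 : ℝ) : ℂ) + (((v i).2 : ℝ) : ℂ) * Complex.I)

/-- colour of a lattice point -/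
def gcov_col {n : ℕ} (k : ℤ) (v : Fin n → ℤ × ℤ) : gcov_Col n :=
  ((k : ZMod 8), fun i => (((v i).1 : ZMod 192), ((v i).2 : ZMod 192)))

/-- centres of one colour -/
def gcov_Z {n : ℕ} (s : (Fin n → ℂ) → ℝ) (r : ℝ) (c : gcov_Col n) : Set (Fin n → ℂ) :=
  {z | z ≠ 0 ∧ ‖z‖ < r / 2 ∧ ∃ (k : ℤ) (v : Fin n → ℤ × ℤ), z = gcov_pt k v ∧
    (2 : ℝ) ^ k / 2 ≤ s z ∧ s z ≤ 4 * (2 : ℝ) ^ k ∧ gcov_col k v = c}

theorem gcov_re {n : ℕ} (k : ℤ) (v : Fin n → ℤ × ℤ) (i : Fin n) :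
    (gcov_pt k v i).re = (2 : ℝ) ^ k / 8 * (v i).1 ∧ (gcov_pt k v i).im = (2 : ℝ) ^ k / 8 * (v i).2 := by
  unfold gcov_pt
  constructor
  · rw [Complex.re_ofReal_mul]; simp
  · rw [Complex.im_ofReal_mul]; simp

theorem gcov_int (m : ℕ) (hm : 0 < m) (a b : ℤ) (h : (a : ZMod m) = (b : ZMod m)) (hab : a ≠ b) :
    (m : ℝ) ≤ |(a : ℝ) - b| := by
  rw [ZMod.intCast_eq_intCast_iff_dvd_sub] at h
  obtain ⟨t, ht⟩ := h
  have ht0 : t ≠ 0 := by
    rintro rfl
    rw [mul_zero] at ht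
    exact hab (sub_eq_zero.1 ht).symm
  have h1 : (1 : ℤ) ≤ |t| := Int.one_le_abs ht0
  have h2 : (a : ℝ) - b = -((m : ℝ) * t) := by
    have : ((b - a : ℤ) : ℝ) = ((m * t : ℤ) : ℝ) := by rw [ht]
    push_cast at this
    linarith
  rw [h2, abs_neg, abs_mul, Nat.abs_cast]
  have h3 : (1 : ℝ) ≤ |(t : ℝ)| := by exact_mod_cast h1
  exact le_mul_of_one_le_right (Nat.cast_nonneg m) h3

theorem gcov_lt {s1 s2 d ε : ℝ} {k k' : ℤ} (hkk : k + 8 ≤ k') (h1 : s1 ≤ 4 * (2 : ℝ) ^ k)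
    (h2 : (2 : ℝ) ^ k' / 2 ≤ s2) (h2' : s2 ≤ 4 * (2 : ℝ) ^ k') (hε0 : 0 < ε) (hε : ε ≤ 1 / 1000)
    (hd0 : 0 ≤ d) (hd : |s1 - s2| ≤ ε * d) : 6 * max s1 s2 ≤ d := by
  have hk : (2 : ℝ) ^ k ≤ (2 : ℝ) ^ k' / 256 := by
    have h3 : (2 : ℝ) ^ (k + 8) ≤ (2 : ℝ) ^ k' := zpow_le_zpow_right₀ (by norm_num) hkk
    rw [zpow_add₀ (by norm_num)] at h3
    have h4 : (2 : ℝ) ^ (8 : ℤ) = 256 := by norm_num
    rw [h4] at h3
    linarith
  have hpos : (0 : ℝ) < (2 : ℝ) ^ k' := by positivity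
  have h5 : s1 ≤ s2 := by linarith
  rw [max_eq_right h5]
  rw [abs_sub_comm, abs_of_nonneg (by linarith)] at hd
  nlinarith

theorem gcov_sep {n : ℕ} {s : (Fin n → ℂ) → ℝ} {r ε : ℝ} (hr : 0 < r) (hε0 : 0 < ε) (hε : ε ≤ 1 / 1000)
    (hs : ∀ x ∈ ball (0 : Fin n → ℂ) r, ∀ y ∈ ball (0 : Fin n → ℂ) r, |s x - s y| ≤ ε * ‖x - y‖)
    (c : gcov_Col n) (z z' : Fin n → ℂ) (hz : z ∈ gcov_Z s r c) (hz' : z' ∈ gcov_Z s r c)
    (hne : z ≠ z') : 6 * max (s z) (s z') ≤ ‖z - z'‖ := by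
  obtain ⟨hz0, hzr, k, v, hzv, h1, h2, hc⟩ := hz
  obtain ⟨hz0', hzr', k', v', hzv', h1', h2', hc'⟩ := hz'
  have hb : z ∈ ball (0 : Fin n → ℂ) r := by rw [mem_ball_zero_iff]; linarith
  have hb' : z' ∈ ball (0 : Fin n → ℂ) r := by rw [mem_ball_zero_iff]; linarith
  have hss := hs z hb z' hb'
  have hcc : gcov_col k v = gcov_col k' v' := hc.trans hc'.symm
  have hk8 : (k : ZMod 8) = (k' : ZMod 8) := congrArg Prod.fst hcc
  rcases lt_trichotomy k k' with hlt | heq | hgt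
  · have h8 := gcov_int 8 (by norm_num) k k' hk8 hlt.ne
    have h9 : k + 8 ≤ k' := by
      have : ((8 : ℕ) : ℝ) ≤ |((k - k' : ℤ) : ℝ)| := by push_cast; exact h8
      rw [← Int.cast_abs] at this
      have h10 : (8 : ℤ) ≤ |k - k'| := by exact_mod_cast this
      rw [abs_of_neg (by omega)] at h10
      omega
    exact gcov_lt h9 h2 h1' h2' hε0 hε (norm_nonneg _) hss
  · subst heq
    have hvv : v ≠ v' := by
      rintro rfl
      exact hne (hzv.trans hzv'.symm)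
    obtain ⟨i, hi⟩ := Function.ne_iff.1 hvv
    have hci := congrFun (congrArg Prod.snd hcc) i
    have hpos : (0 : ℝ) < (2 : ℝ) ^ k := by positivity
    have hmax : 6 * max (s z) (s z') ≤ 24 * (2 : ℝ) ^ k := by
      have := max_le h2 h2'
      linarith
    refine hmax.trans ?_
    refine le_trans ?_ (norm_le_pi_norm (z - z') i)
    rw [Pi.sub_apply]
    by_cases hi1 : (v i).1 = (v' i).1
    · have hi2 : (v i).2 ≠ (v' i).2 := fun h => hi (Prod.ext hi1 h)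
      have h3 := gcov_int 192 (by norm_num) _ _ (congrArg Prod.snd hci) hi2
      refine le_trans ?_ (Complex.abs_im_le_norm _)
      rw [Complex.sub_im, hzv, hzv', (gcov_re k v i).2, (gcov_re k v' i).2, ← mul_sub, abs_mul,
        abs_of_pos (by positivity)]
      push_cast at h3
      nlinarith
    · have h3 := gcov_int 192 (by norm_num) _ _ (congrArg Prod.fst hci) hi1
      refine le_trans ?_ (Complex.abs_re_le_norm _)
      rw [Complex.sub_re, hzv, hzv', (gcov_re k v i).1, (gcov_re k v' i).1, ← mul_sub, abs_mul,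
        abs_of_pos (by positivity)]
      push_cast at h3
      nlinarith
  · have h8 := gcov_int 8 (by norm_num) k k' hk8 hgt.ne'
    have h9 : k' + 8 ≤ k := by
      have : ((8 : ℕ) : ℝ) ≤ |((k - k' : ℤ) : ℝ)| := by push_cast; exact h8
      rw [← Int.cast_abs] at this
      have h10 : (8 : ℤ) ≤ |k - k'| := by exact_mod_cast this
      rw [abs_of_pos (by omega)] at h10
      omega
    rw [max_comm, norm_sub_rev]
    rw [abs_sub_comm, norm_sub_rev] at hss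
    exact gcov_lt h9 h2' h1 h2 hε0 hε (norm_nonneg _) hss

theorem gcov_round (δ t : ℝ) (hδ : 0 < δ) : |t - δ * round (t / δ)| ≤ δ / 2 := by
  have h1 := abs_sub_round (t / δ)
  have h2 : t - δ * round (t / δ) = δ * (t / δ - round (t / δ)) := by field_simp
  rw [h2, abs_mul, abs_of_pos hδ]
  nlinarith

theorem gcov_cov {n : ℕ} {s : (Fin n → ℂ) → ℝ} {r ε : ℝ} (hr : 0 < r) (hε0 : 0 < ε) (hε : ε ≤ 1 / 1000)
    (hpos : ∀ x ∈ ball (0 : Fin n → ℂ) r, x ≠ 0 → 0 < s x)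
    (hs : ∀ x ∈ ball (0 : Fin n → ℂ) r, ∀ y ∈ ball (0 : Fin n → ℂ) r, |s x - s y| ≤ ε * ‖x - y‖)
    (hsm : ∀ x ∈ ball (0 : Fin n → ℂ) r, s x ≤ ε * ‖x‖) (x : Fin n → ℂ) (hx0 : x ≠ 0)
    (hx : ‖x‖ < r / 4) : ∃ c : gcov_Col n, ∃ z ∈ gcov_Z s r c, x ∈ ball z (1 * s z) := by
  have hxb : x ∈ ball (0 : Fin n → ℂ) r := by rw [mem_ball_zero_iff]; linarith
  have hsx := hpos x hxb hx0
  have hxn : 0 < ‖x‖ := norm_pos_iff.2 hx0
  obtain ⟨k, hk1, hk2⟩ := exists_mem_Ico_zpow hsx (by norm_num : (1 : ℝ) < 2)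
  rw [zpow_add₀ (by norm_num), zpow_one] at hk2
  have hδ : (0 : ℝ) < (2 : ℝ) ^ k / 8 := by positivity
  set v : Fin n → ℤ × ℤ := fun i =>
    (round ((x i).re / ((2 : ℝ) ^ k / 8)), round ((x i).im / ((2 : ℝ) ^ k / 8))) with hv
  have hd : ‖x - gcov_pt k v‖ ≤ (2 : ℝ) ^ k / 8 := by
    refine (pi_norm_le_iff_of_nonneg hδ.le).2 fun i => ?_
    refine (Complex.norm_le_abs_re_add_abs_im _).trans ?_
    rw [Pi.sub_apply, Complex.sub_re, Complex.sub_im, (gcov_re k v i).1, (gcov_re k v i).2]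
    have h1 := gcov_round _ (x i).re hδ
    have h2 := gcov_round _ (x i).im hδ
    simp only [hv]
    linarith
  have hxs := hsm x hxb
  have hxs' : s x ≤ ‖x‖ / 1000 := by nlinarith
  have hz1 : ‖gcov_pt k v‖ ≤ ‖x‖ + ‖x - gcov_pt k v‖ := by
    have := norm_sub_le x (x - gcov_pt k v)
    rwa [sub_sub_cancel] at this
  have hz2 : ‖x‖ ≤ ‖gcov_pt k v‖ + ‖x - gcov_pt k v‖ := by
    have := norm_add_le (gcov_pt k v) (x - gcov_pt k v)
    rwa [add_sub_cancel] at this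
  have hzr : ‖gcov_pt k v‖ < r / 2 := by linarith
  have hzb : gcov_pt k v ∈ ball (0 : Fin n → ℂ) r := by rw [mem_ball_zero_iff]; linarith
  have hz0 : gcov_pt k v ≠ 0 := by
    intro h
    rw [h, norm_zero, sub_zero] at hz2
    rw [h, sub_zero] at hd
    linarith
  have hsz := abs_le.1 (hs x hxb (gcov_pt k v) hzb)
  have hεd : ε * ‖x - gcov_pt k v‖ ≤ s x / 8 := by
    have h1 : 0 ≤ ‖x - gcov_pt k v‖ := norm_nonneg _
    nlinarith
  refine ⟨gcov_col k v, gcov_pt k v, ⟨hz0, hzr, k, v, rfl, ?_, ?_, rfl⟩, ?_⟩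
  · linarith [hsz.2]
  · linarith [hsz.1]
  · rw [mem_ball, dist_eq_norm, one_mul]
    linarith [hsz.2]

theorem cover (n : ℕ) : ∃ M : ℕ, 0 < M ∧ ∀ (s : (Fin n → ℂ) → ℝ) (r ε : ℝ), 0 < r → 0 < ε →
    ε ≤ 1 / 1000 → (∀ x ∈ ball (0 : Fin n → ℂ) r, x ≠ 0 → 0 < s x) →
    (∀ x ∈ ball (0 : Fin n → ℂ) r, ∀ y ∈ ball (0 : Fin n → ℂ) r, |s x - s y| ≤ ε * ‖x - y‖) →
    (∀ x ∈ ball (0 : Fin n → ℂ) r, s x ≤ ε * ‖x‖) →
    ∃ Z : ℕ → Set (Fin n → ℂ), (∀ i, ∀ z ∈ Z i, z ≠ 0 ∧ ‖z‖ < r / 2) ∧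
      (∀ i, ∀ z ∈ Z i, ∀ z' ∈ Z i, z ≠ z' → 6 * max (s z) (s z') ≤ ‖z - z'‖) ∧
      ∀ x : Fin n → ℂ, x ≠ 0 → ‖x‖ < r / 4 → ∃ i < M, ∃ z ∈ Z i, x ∈ ball z (1 * s z) := by
  classical
  refine ⟨Fintype.card (gcov_Col n), Fintype.card_pos, fun s r ε hr hε0 hε hpos hs hsm => ?_⟩
  set e := Fintype.equivFin (gcov_Col n) with he
  refine ⟨fun i => if h : i < Fintype.card (gcov_Col n) then gcov_Z s r (e.symm ⟨i, h⟩) else ∅,
    ?_, ?_, ?_⟩
  · intro i z hz
    by_cases h : i < Fintype.card (gcov_Col n)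
    · simp only [dif_pos h] at hz
      exact ⟨hz.1, hz.2.1⟩
    · simp only [dif_neg h] at hz
      exact hz.elim
  · intro i z hz z' hz' hne
    by_cases h : i < Fintype.card (gcov_Col n)
    · simp only [dif_pos h] at hz hz'
      exact gcov_sep hr hε0 hε hs _ z z' hz hz' hne
    · simp only [dif_neg h] at hz
      exact hz.elim
  · intro x hx0 hx
    obtain ⟨c, z, hz, hxz⟩ := gcov_cov hr hε0 hε hpos hs hsm x hx0 hx
    refine ⟨(e c : ℕ), (e c).2, z, ?_, hxz⟩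
    simp only [dif_pos (e c).2, Fin.eta, Equiv.symm_apply_apply]
    exact hz

end H80.LD

end S_H80_LD_GCov
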