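import Mathlib
import Pool.Agent.H24.LS.A0
import Pool.Agent.H24.LS.Base
import Pool.Agent.H80.LM.G19

/-! MP_816883_ag: this file joins several modules (see the folders H80/LD, H24/LS) to save build time. -/

section S_H80_LD_AReg

/-!
# AReg (project MP_816883_LD, part A): regularity of a germ with zero Hessian on a small ball

* `reg_exists`: `fderiv ℂ f` is analytic at `0` (`AnalyticAt.fderiv`), so it has the strict derivative
  `fderiv ℂ (fderiv ℂ f) 0 = 0` at `0`: `‖f'(x) - f'(y)‖ ≤ w ‖x - y‖` for `(x, y)` near `(0, 0)`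
  (`HasStrictFDerivAt.isLittleO`, `Asymptotics.IsLittleO.def`, `nhds_prod_eq`/`Metric.eventually_nhds_iff_ball`).
  `small`: put `y = 0`, `f'(0) = 0`. `diff`: `AnalyticAt.eventually_analyticAt`. `pos`: `Grm.iso`.
* `Reg.mono`: trivial.
* `Reg.quad`: `z ↦ f z - f'(x) z` has derivative `f'(z) - f'(x)` of norm `≤ w ‖z - x‖ ≤ w ‖y - x‖` on the segment
  `[x, y] ⊆ ball 0 r` (`Convex.norm_image_sub_le_of_norm_hasFDerivWithin_le` on `segment ℝ x y`).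
* `Reg.near`: the triangle inequality and `lip`.
* `Reg.resc`: chain rule, `fderiv (rsf f y0 s κ c) u = κ⁻¹ f'(y0 + s u)` and
  `‖f'(y0 + s u) - f'(y0)‖ ≤ w s ‖u‖`.
-/

open Filter Topology Metric H24.LS

namespace H80.LD

variable {E : Type*} [NormedAddCommGroup E] [NormedSpace ℂ E]

/-- on the ball of radius `r` the function `f` is differentiable, its derivative is `w`-Lipschitz, is at
most `w ‖x‖` and does not vanish outside the origin -/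
structure Reg (f : E → ℂ) (w r : ℝ) : Prop where
  hw : 0 < w
  hr : 0 < r
  diff : ∀ x ∈ ball (0 : E) r, DifferentiableAt ℂ f x
  lip : ∀ x ∈ ball (0 : E) r, ∀ y ∈ ball (0 : E) r, ‖fderiv ℂ f x - fderiv ℂ f y‖ ≤ w * ‖x - y‖
  small : ∀ x ∈ ball (0 : E) r, ‖fderiv ℂ f x‖ ≤ w * ‖x‖
  pos : ∀ x ∈ ball (0 : E) r, x ≠ 0 → 0 < ‖fderiv ℂ f x‖

/-- the function `u ↦ (f (y0 + s u) - c) / (s κ)` -/
noncomputable def rsf (f : E → ℂ) (y0 : E) (s κ : ℝ) (c : ℂ) (u : E) : ℂ :=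
  (f (y0 + (s : ℂ) • u) - c) / ((s : ℂ) * (κ : ℂ))

theorem Reg.mono {f : E → ℂ} {w r w' r' : ℝ} (h : Reg f w r) (hw : w ≤ w') (h0 : 0 < r')
    (hr : r' ≤ r) : Reg f w' r' := by
  have hb : ball (0 : E) r' ⊆ ball 0 r := ball_subset_ball hr
  exact ⟨h.hw.trans_le hw, h0, fun x hx => h.diff x (hb hx),
    fun x hx y hy => (h.lip x (hb hx) y (hb hy)).trans
      (mul_le_mul_of_nonneg_right hw (norm_nonneg _)),
    fun x hx => (h.small x (hb hx)).trans (mul_le_mul_of_nonneg_right hw (norm_nonneg _)),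
    fun x hx hne => h.pos x (hb hx) hne⟩

theorem reg_exists {f : E → ℂ} (hf : Grm f) (f2 : fderiv ℂ (fderiv ℂ f) 0 = 0) {w : ℝ}
    (hw : 0 < w) : ∃ r : ℝ, Reg f w r := by
  have han : AnalyticAt ℂ (fderiv ℂ f) 0 := hf.an.fderiv
  have hs := han.hasStrictFDerivAt
  rw [f2] at hs
  have h1 := hs.isLittleO.def hw
  rw [Metric.eventually_nhds_iff_ball] at h1
  obtain ⟨r1, hr1, h1⟩ := h1
  have h2 := hf.an.eventually_analyticAt
  rw [Metric.eventually_nhds_iff_ball] at h2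
  obtain ⟨r2, hr2, h2⟩ := h2
  have h3 := eventually_nhdsWithin_iff.1 hf.iso
  rw [Metric.eventually_nhds_iff_ball] at h3
  obtain ⟨r3, hr3, h3⟩ := h3
  have hlip : ∀ x ∈ ball (0 : E) r1, ∀ y ∈ ball (0 : E) r1,
      ‖fderiv ℂ f x - fderiv ℂ f y‖ ≤ w * ‖x - y‖ := by
    intro x hx y hy
    have hm : (x, y) ∈ ball ((0 : E), (0 : E)) r1 := by
      rw [← ball_prod_same]; exact ⟨hx, hy⟩
    have := h1 (x, y) hm
    simpa using this
  refine ⟨min r1 (min r2 r3), hw, lt_min hr1 (lt_min hr2 hr3), fun x hx => ?_,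
    fun x hx y hy => ?_, fun x hx => ?_, fun x hx hne => ?_⟩
  · exact (h2 x (ball_subset_ball ((min_le_right _ _).trans (min_le_left _ _)) hx)).differentiableAt
  · exact hlip x (ball_subset_ball (min_le_left _ _) hx) y (ball_subset_ball (min_le_left _ _) hy)
  · have := hlip x (ball_subset_ball (min_le_left _ _) hx) 0 (mem_ball_self hr1)
    rwa [hf.f1, sub_zero, sub_zero] at this
  · exact norm_pos_iff.2 (h3 x (ball_subset_ball ((min_le_right _ _).trans (min_le_right _ _)) hx)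
      hne)

theorem Reg.quad {f : E → ℂ} {w r : ℝ} (h : Reg f w r) {x y : E} (hx : x ∈ ball (0 : E) r)
    (hy : y ∈ ball (0 : E) r) : ‖f y - f x - fderiv ℂ f x (y - x)‖ ≤ w * ‖y - x‖ ^ 2 := by
  have hconv : Convex ℝ (ball (0 : E) r) := convex_ball 0 r
  have hseg : segment ℝ x y ⊆ ball (0 : E) r := hconv.segment_subset hx hy
  have hd : ∀ z ∈ segment ℝ x y, HasFDerivWithinAt (fun z => f z - fderiv ℂ f x z)
      (fderiv ℂ f z - fderiv ℂ f x) (segment ℝ x y) z := by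
    intro z hz
    exact ((h.diff z (hseg hz)).hasFDerivAt.sub
      (fderiv ℂ f x).hasFDerivAt).hasFDerivWithinAt
  have hb : ∀ z ∈ segment ℝ x y, ‖fderiv ℂ f z - fderiv ℂ f x‖ ≤ w * ‖y - x‖ := by
    intro z hz
    refine (h.lip z (hseg hz) x hx).trans (mul_le_mul_of_nonneg_left ?_ h.hw.le)
    obtain ⟨a, b, ha, hb, hab, rfl⟩ := hz
    have e : a • x + b • y - x = b • (y - x) := by
      have : a = 1 - b := by linarith
      rw [this]; module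
    rw [e, norm_smul, Real.norm_eq_abs, abs_of_nonneg hb]
    calc b * ‖y - x‖ ≤ 1 * ‖y - x‖ :=
          mul_le_mul_of_nonneg_right (by linarith) (norm_nonneg _)
      _ = ‖y - x‖ := one_mul _
  have := (convex_segment x y).norm_image_sub_le_of_norm_hasFDerivWithin_le hd hb
    (left_mem_segment ℝ x y) (right_mem_segment ℝ x y)
  have e : f y - fderiv ℂ f x y - (f x - fderiv ℂ f x x) =
      f y - f x - fderiv ℂ f x (y - x) := by
    rw [map_sub]; ring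
  rw [e] at this
  calc _ ≤ _ := this
    _ = w * ‖y - x‖ ^ 2 := by ring

theorem Reg.near {f : E → ℂ} {w r : ℝ} (h : Reg f w r) {x y : E} (hx : x ∈ ball (0 : E) r)
    (hy : y ∈ ball (0 : E) r) : ‖fderiv ℂ f y‖ ≤ ‖fderiv ℂ f x‖ + w * ‖y - x‖ := by
  have h1 := h.lip y hy x hx
  have h2 := norm_add_le (fderiv ℂ f x) (fderiv ℂ f y - fderiv ℂ f x)
  rw [add_sub_cancel] at h2
  linarith

theorem Reg.resc {f : E → ℂ} {w r : ℝ} (h : Reg f w r) {y0 : E} {s κ R : ℝ} (c : ℂ) (hs : 0 < s)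
    (hκ : 0 < κ) (hR : 0 < R) (hin : ‖y0‖ + s * R < r) (u : E) (hu : u ∈ closedBall (0 : E) R) :
    DifferentiableAt ℂ (rsf f y0 s κ c) u ∧
      ‖fderiv ℂ (rsf f y0 s κ c) u - ((κ : ℂ)⁻¹) • fderiv ℂ f y0‖ ≤ w * s * R / κ := by
  have hsc : ‖(s : ℂ)‖ = s := by rw [Complex.norm_real, Real.norm_eq_abs, abs_of_pos hs]
  have hκc : ‖(κ : ℂ)‖ = κ := by rw [Complex.norm_real, Real.norm_eq_abs, abs_of_pos hκ]
  have hs0 : (s : ℂ) ≠ 0 := by exact_mod_cast hs.ne'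
  have hκ0 : (κ : ℂ) ≠ 0 := by exact_mod_cast hκ.ne'
  have hu' : ‖u‖ ≤ R := by simpa using hu
  have hsu : ‖(s : ℂ) • u‖ = s * ‖u‖ := by rw [norm_smul, hsc]
  have hsR : s * ‖u‖ ≤ s * R := mul_le_mul_of_nonneg_left hu' hs.le
  have hmem : y0 + (s : ℂ) • u ∈ ball (0 : E) r := by
    rw [mem_ball_zero_iff]
    have := norm_add_le y0 ((s : ℂ) • u)
    rw [hsu] at this
    linarith
  have hmem0 : y0 ∈ ball (0 : E) r := by
    rw [mem_ball_zero_iff]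
    have : 0 < s * R := mul_pos hs hR
    linarith
  have hin1 : HasFDerivAt (fun u : E => y0 + (s : ℂ) • u)
      ((s : ℂ) • ContinuousLinearMap.id ℂ E) u :=
    ((hasFDerivAt_id u).const_smul (s : ℂ)).const_add y0
  have hcomp : HasFDerivAt (fun u : E => f (y0 + (s : ℂ) • u))
      ((fderiv ℂ f (y0 + (s : ℂ) • u)).comp ((s : ℂ) • ContinuousLinearMap.id ℂ E)) u :=
    HasFDerivAt.comp u (h.diff _ hmem).hasFDerivAt hin1
  have hall : HasFDerivAt (rsf f y0 s κ c)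
      ((((s : ℂ) * (κ : ℂ))⁻¹) •
        (fderiv ℂ f (y0 + (s : ℂ) • u)).comp ((s : ℂ) • ContinuousLinearMap.id ℂ E)) u := by
    have h1 := (hcomp.sub_const c).const_mul (((s : ℂ) * (κ : ℂ))⁻¹)
    have e : rsf f y0 s κ c =
        fun u : E => (((s : ℂ) * (κ : ℂ))⁻¹) * (f (y0 + (s : ℂ) • u) - c) := by
      funext v
      unfold rsf
      rw [div_eq_mul_inv, mul_comm]
    rw [e]
    exact h1
  refine ⟨hall.differentiableAt, ?_⟩
  rw [hall.fderiv]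
  have e : (((s : ℂ) * (κ : ℂ))⁻¹) •
      (fderiv ℂ f (y0 + (s : ℂ) • u)).comp ((s : ℂ) • ContinuousLinearMap.id ℂ E) -
      ((κ : ℂ)⁻¹) • fderiv ℂ f y0 =
      ((κ : ℂ)⁻¹) • (fderiv ℂ f (y0 + (s : ℂ) • u) - fderiv ℂ f y0) := by
    ext v
    simp only [ContinuousLinearMap.sub_apply, ContinuousLinearMap.smul_apply,
      ContinuousLinearMap.comp_apply, ContinuousLinearMap.id_apply, map_smul, smul_eq_mul]
    field_simp
  rw [e, norm_smul, norm_inv, hκc]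
  have h1 := h.lip _ hmem _ hmem0
  rw [add_sub_cancel_left, hsu] at h1
  have h2 : w * (s * ‖u‖) ≤ w * (s * R) := mul_le_mul_of_nonneg_left hsR h.hw.le
  calc κ⁻¹ * ‖fderiv ℂ f (y0 + (s : ℂ) • u) - fderiv ℂ f y0‖ ≤ κ⁻¹ * (w * (s * R)) :=
        mul_le_mul_of_nonneg_left (h1.trans h2) (inv_nonneg.2 hκ.le)
    _ = w * s * R / κ := by field_simp

end H80.LD

end S_H80_LD_AReg

section S_H80_LD_ACR

/-!
# ACR (project MP_816883_LD, part A): coarse equivalence of germs with zero Hessian, regularized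

`cr_exists`: let `w1 = min w (1/(2L))`, `Reg f w1 r1`, `Reg g w1 r1` (`reg_exists`, `Reg.mono`), `r1 ≤ ρ`, and
`r = r1 / (L^2 + 1)` (so that for `‖p‖ < r` the points `A p`, `B (A p)` are in `ball 0 r1`, since `‖A p‖ ≤ L ‖p‖`,
`‖B (A p)‖ ≤ L^2 ‖p‖`; the same for `B`). `lipA, lipB, fA, gB, dA, dB, BA, AB'` are the fields of `Coarse`.
* `dA'`: `‖f'(p)‖ ≤ ‖f'(B (A p))‖ + w1 ‖B (A p) - p‖ ≤ L ‖g'(A p)‖ + w1 L ‖f'(p)‖` and `w1 L ≤ 1/2`. `dB'` the same.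
* `AB`: `AB'` and `dB'`.
* `nA`: `‖p‖ ≤ ‖B (A p)‖ + L ‖f'(p)‖ ≤ L ‖A p‖ + L w1 ‖p‖`. `nB` the same.
-/

open Filter Topology Metric H24.LS

namespace H80.LD

variable {E E' : Type*} [NormedAddCommGroup E] [NormedSpace ℂ E] [NormedAddCommGroup E']
  [NormedSpace ℂ E']

/-- `Coarse` together with regularity and its first consequences on the ball of radius `r` -/
structure CR (f : E → ℂ) (g : E' → ℂ) (A : E → E') (B : E' → E) (L w r : ℝ) : Prop where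
  hL : 1 ≤ L
  rf : Reg f w r
  rg : Reg g w r
  A0 : A 0 = 0
  B0 : B 0 = 0
  lipA : ∀ p ∈ ball (0 : E) r, ∀ q ∈ ball (0 : E) r, ‖A p - A q‖ ≤ L * ‖p - q‖
  lipB : ∀ p ∈ ball (0 : E') r, ∀ q ∈ ball (0 : E') r, ‖B p - B q‖ ≤ L * ‖p - q‖
  fA : ∀ p ∈ ball (0 : E) r, ‖f p - g (A p)‖ ≤ L * ‖fderiv ℂ f p‖ ^ 2
  gB : ∀ q ∈ ball (0 : E') r, ‖g q - f (B q)‖ ≤ L * ‖fderiv ℂ g q‖ ^ 2
  dA : ∀ p ∈ ball (0 : E) r, ‖fderiv ℂ g (A p)‖ ≤ L * ‖fderiv ℂ f p‖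
  dB : ∀ q ∈ ball (0 : E') r, ‖fderiv ℂ f (B q)‖ ≤ L * ‖fderiv ℂ g q‖
  dA' : ∀ p ∈ ball (0 : E) r, ‖fderiv ℂ f p‖ ≤ 2 * L * ‖fderiv ℂ g (A p)‖
  dB' : ∀ q ∈ ball (0 : E') r, ‖fderiv ℂ g q‖ ≤ 2 * L * ‖fderiv ℂ f (B q)‖
  BA : ∀ p ∈ ball (0 : E) r, ‖B (A p) - p‖ ≤ L * ‖fderiv ℂ f p‖
  AB' : ∀ q ∈ ball (0 : E') r, ‖A (B q) - q‖ ≤ L * ‖fderiv ℂ g q‖
  AB : ∀ q ∈ ball (0 : E') r, ‖A (B q) - q‖ ≤ 2 * L ^ 2 * ‖fderiv ℂ f (B q)‖
  nA : ∀ p ∈ ball (0 : E) r, ‖p‖ ≤ 2 * L * ‖A p‖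
  nB : ∀ q ∈ ball (0 : E') r, ‖q‖ ≤ 2 * L * ‖B q‖

theorem CR.mono {f : E → ℂ} {g : E' → ℂ} {A : E → E'} {B : E' → E} {L w r w' r' : ℝ}
    (h : CR f g A B L w r) (hw : w ≤ w') (h0 : 0 < r') (hr : r' ≤ r) : CR f g A B L w' r' := by
  have h1 : ball (0 : E) r' ⊆ ball (0 : E) r := ball_subset_ball hr
  have h2 : ball (0 : E') r' ⊆ ball (0 : E') r := ball_subset_ball hr
  exact
    { hL := h.hL
      rf := h.rf.mono hw h0 hr
      rg := h.rg.mono hw h0 hr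
      A0 := h.A0
      B0 := h.B0
      lipA := fun p hp q hq => h.lipA p (h1 hp) q (h1 hq)
      lipB := fun p hp q hq => h.lipB p (h2 hp) q (h2 hq)
      fA := fun p hp => h.fA p (h1 hp)
      gB := fun p hp => h.gB p (h2 hp)
      dA := fun p hp => h.dA p (h1 hp)
      dB := fun p hp => h.dB p (h2 hp)
      dA' := fun p hp => h.dA' p (h1 hp)
      dB' := fun p hp => h.dB' p (h2 hp)
      BA := fun p hp => h.BA p (h1 hp)
      AB' := fun p hp => h.AB' p (h2 hp)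
      AB := fun p hp => h.AB p (h2 hp)
      nA := fun p hp => h.nA p (h1 hp)
      nB := fun p hp => h.nB p (h2 hp) }

theorem acr_symm {f : E → ℂ} {g : E' → ℂ} {A : E → E'} {B : E' → E} {L ρ : ℝ}
    (h : Coarse f g A B L ρ) : Coarse g f B A L ρ :=
  { hL := h.hL
    hρ := h.hρ
    A0 := h.B0
    B0 := h.A0
    lipA := h.lipB
    lipB := h.lipA
    fA := h.gB
    gB := h.fA
    dA := h.dB
    dB := h.dA
    BA := h.AB
    AB := h.BA }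

theorem acr_half {f : E → ℂ} {g : E' → ℂ} {A : E → E'} {B : E' → E} {L ρ w r1 r : ℝ}
    (h : Coarse f g A B L ρ) (hf : Reg f w r1) (hw : w * L ≤ 1 / 2) (h1 : r1 ≤ ρ)
    (hr : r * (L ^ 2 + 1) ≤ r1) (p : E) (hp : p ∈ ball (0 : E) r) :
    ‖fderiv ℂ f p‖ ≤ 2 * L * ‖fderiv ℂ g (A p)‖ ∧ ‖p‖ ≤ 2 * L * ‖A p‖ := by
  have hL := h.hL
  have hpr : ‖p‖ < r := by rwa [mem_ball_zero_iff] at hp
  have hp0 : 0 ≤ ‖p‖ := norm_nonneg p
  have hr0 : 0 < r := lt_of_le_of_lt hp0 hpr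
  have hp1 : ‖p‖ < r1 := by nlinarith
  have hpρ : p ∈ ball (0 : E) ρ := by
    rw [mem_ball_zero_iff]
    linarith
  have hA : ‖A p‖ ≤ L * ‖p‖ := by
    have := h.lipA p hpρ 0 (mem_ball_self h.hρ)
    rwa [h.A0, sub_zero, sub_zero] at this
  have hA1 : ‖A p‖ < r1 := by nlinarith
  have hAρ : A p ∈ ball (0 : E') ρ := by
    rw [mem_ball_zero_iff]
    linarith
  have hB : ‖B (A p)‖ ≤ L * ‖A p‖ := by
    have := h.lipB (A p) hAρ 0 (mem_ball_self h.hρ)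
    rwa [h.B0, sub_zero, sub_zero] at this
  have hB1 : ‖B (A p)‖ < r1 := by
    have h2 : L * ‖A p‖ ≤ L * (L * ‖p‖) := mul_le_mul_of_nonneg_left hA (by linarith)
    nlinarith
  have hBA := h.BA p hpρ
  have hd := h.dB (A p) hAρ
  have hn := hf.near (x := B (A p)) (y := p) (by rwa [mem_ball_zero_iff])
    (by rwa [mem_ball_zero_iff])
  have hw0 := hf.hw
  have hf0 : 0 ≤ ‖fderiv ℂ f p‖ := norm_nonneg _
  rw [norm_sub_rev] at hn
  refine ⟨?_, ?_⟩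
  · have h3 : w * ‖B (A p) - p‖ ≤ w * (L * ‖fderiv ℂ f p‖) :=
      mul_le_mul_of_nonneg_left hBA hw0.le
    have h4 : w * L * ‖fderiv ℂ f p‖ ≤ 1 / 2 * ‖fderiv ℂ f p‖ :=
      mul_le_mul_of_nonneg_right hw hf0
    nlinarith
  · have h3 := hf.small p (by rwa [mem_ball_zero_iff])
    have h4 : ‖p‖ ≤ ‖B (A p)‖ + ‖B (A p) - p‖ := by
      have h5 : p = B (A p) - (B (A p) - p) := by abel
      calc ‖p‖ = ‖B (A p) - (B (A p) - p)‖ := by rw [← h5]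
        _ ≤ _ := norm_sub_le _ _
    have h5 : L * ‖fderiv ℂ f p‖ ≤ L * (w * ‖p‖) := mul_le_mul_of_nonneg_left h3 (by linarith)
    have h6 : w * L * ‖p‖ ≤ 1 / 2 * ‖p‖ := mul_le_mul_of_nonneg_right hw hp0
    nlinarith

theorem cr_exists {f : E → ℂ} {g : E' → ℂ} (hf : Grm f) (hg : Grm g)
    (f2 : fderiv ℂ (fderiv ℂ f) 0 = 0) (g2 : fderiv ℂ (fderiv ℂ g) 0 = 0) {A : E → E'}
    {B : E' → E} {L ρ : ℝ} (hco : Coarse f g A B L ρ) {w : ℝ} (hw : 0 < w) :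
    ∃ r : ℝ, CR f g A B L w r := by
  have hL := hco.hL
  have hρ := hco.hρ
  have hL0 : 0 < L := by linarith
  set w1 : ℝ := min w (1 / (2 * L)) with hw1
  have hw10 : 0 < w1 := lt_min hw (by positivity)
  have hw1L : w1 * L ≤ 1 / 2 := by
    have h1 : w1 ≤ 1 / (2 * L) := min_le_right _ _
    calc w1 * L ≤ 1 / (2 * L) * L := mul_le_mul_of_nonneg_right h1 hL0.le
      _ = 1 / 2 := by field_simp
  obtain ⟨ra, hra⟩ := reg_exists hf f2 hw10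
  obtain ⟨rb, hrb⟩ := reg_exists hg g2 hw10
  set r1 : ℝ := min (min ra rb) ρ with hr1
  have hr10 : 0 < r1 := lt_min (lt_min hra.hr hrb.hr) hρ
  have hr1ρ : r1 ≤ ρ := min_le_right _ _
  have hf1 : Reg f w1 r1 := hra.mono le_rfl hr10 ((min_le_left _ _).trans (min_le_left _ _))
  have hg1 : Reg g w1 r1 := hrb.mono le_rfl hr10 ((min_le_left _ _).trans (min_le_right _ _))
  set r : ℝ := r1 / (L ^ 2 + 1) with hr
  have hr0 : 0 < r := by positivity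
  have hrr : r * (L ^ 2 + 1) ≤ r1 := by
    rw [hr, div_mul_cancel₀ _ (by positivity)]
  have hrr1 : r ≤ r1 := by nlinarith
  have hww : w1 ≤ w := min_le_left _ _
  have e1 : ball (0 : E) r ⊆ ball (0 : E) ρ := ball_subset_ball (hrr1.trans hr1ρ)
  have e2 : ball (0 : E') r ⊆ ball (0 : E') ρ := ball_subset_ball (hrr1.trans hr1ρ)
  have hA := acr_half hco hf1 hw1L hr1ρ hrr
  have hB := acr_half (acr_symm hco) hg1 hw1L hr1ρ hrr
  exact ⟨r,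
    { hL := hL
      rf := hf1.mono hww hr0 hrr1
      rg := hg1.mono hww hr0 hrr1
      A0 := hco.A0
      B0 := hco.B0
      lipA := fun p hp q hq => hco.lipA p (e1 hp) q (e1 hq)
      lipB := fun p hp q hq => hco.lipB p (e2 hp) q (e2 hq)
      fA := fun p hp => hco.fA p (e1 hp)
      gB := fun p hp => hco.gB p (e2 hp)
      dA := fun p hp => hco.dA p (e1 hp)
      dB := fun p hp => hco.dB p (e2 hp)
      dA' := fun p hp => (hA p hp).1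
      dB' := fun p hp => (hB p hp).1
      BA := fun p hp => hco.BA p (e1 hp)
      AB' := fun p hp => hco.AB p (e2 hp)
      AB := fun p hp => by
        have h1 := hco.AB p (e2 hp)
        have h2 := (hB p hp).1
        have h3 : L * ‖fderiv ℂ g p‖ ≤ L * (2 * L * ‖fderiv ℂ f (B p)‖) :=
          mul_le_mul_of_nonneg_left h2 hL0.le
        nlinarith
      nA := fun p hp => (hA p hp).2
      nB := fun p hp => (hB p hp).2 }⟩

end H80.LD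

end S_H80_LD_ACR

section S_H80_LD_ARes

/-!
# ARes (project MP_816883_LD, part A): the rescaled coarse equivalence

`resc`: let `δ ≤ 1` without loss of generality? (no: keep `δ`; put `δ1 = min δ 1` only in the choice of the constants). `K0 = 10 L^2/δ + 1`...
Given `K ≥ K0` choose `w > 0` with `w K ≤ δ` (so `w K / δ ≤ 1`) and `2 w L^2 K / δ^2 ≤ δ / 2`, `CR f g A B L w r` (`cr_exists`), `r0 = r / (2 L + 2)`.
Let `κ = ‖f'(x0)‖ > 0`, `s = K κ ≤ K w ‖x0‖`. For `‖u‖ < 1/δ`: `x = x0 + s u`, `‖x - x0‖ ≤ s/δ ≤ ‖x0‖`, `‖x‖ ≤ 2 ‖x0‖ < r`,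
`‖f'(x)‖ ≤ κ + w s/δ ≤ 2 κ`; `y = A x0 + s v`, `‖y‖ ≤ L ‖x0‖ + ‖x0‖ < r`, `‖g'(y)‖ ≤ L κ + w s / δ ≤ 2 L κ`.
* `T0`, `lipT`, `lipS`: clear. * `ST`: `S (T u) - u = s⁻¹ (B (A x) - x)`, norm `≤ s⁻¹ L 2 κ = 2 L / K ≤ δ`.
* `TS`: `T (S v) - v = s⁻¹ (A (B y) - y)`, norm `≤ s⁻¹ L 2 L κ = 2 L^2 / K ≤ δ` (`AB'`).
* `eT`: `e' (T u) - e u = (s κ)⁻¹ (g'(A x0) (A x - A x0) - f'(x0) (x - x0))`; by `Reg.quad` this is
  `(s κ)⁻¹ ((g (A x) - f x) - (g (A x0) - f x0) + O(w L^2 s^2/δ^2) + O(w s^2/δ^2))`, norm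
  `≤ (K κ^2)⁻¹ (4 L κ^2 + L κ^2 + 2 w L^2 K^2 κ^2/δ^2) = 5 L/K + 2 w L^2 K/δ^2 ≤ δ/2 + δ/2`.
* `ne`: `‖e‖ = 1`; `ne'`: `dA`.
`resc_g0`: `‖g (A x0) - f x0‖ / (s κ) ≤ L κ^2 / (K κ^2)`. `resc_e'`: `dA'`.
-/

open Filter Topology Metric H24.LS

namespace H80.LD

variable {E E' : Type*} [NormedAddCommGroup E] [NormedSpace ℂ E] [NormedAddCommGroup E']
  [NormedSpace ℂ E']

/-- rescaled `A` -/
noncomputable def rsA (A : E → E') (x0 : E) (s : ℝ) (u : E) : E' :=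
  ((s : ℂ)⁻¹) • (A (x0 + (s : ℂ) • u) - A x0)

/-- rescaled `B` -/
noncomputable def rsB (A : E → E') (B : E' → E) (x0 : E) (s : ℝ) (v : E') : E :=
  ((s : ℂ)⁻¹) • (B (A x0 + (s : ℂ) • v) - x0)

theorem ARes_norm_inv {s : ℝ} (hs : 0 < s) : ‖((s : ℂ)⁻¹)‖ = s⁻¹ := by
  rw [norm_inv, Complex.norm_real, Real.norm_of_nonneg hs.le]

theorem ARes_norm_smul {F : Type*} [NormedAddCommGroup F] [NormedSpace ℂ F] {s : ℝ} (hs : 0 < s)
    (v : F) : ‖(s : ℂ) • v‖ = s * ‖v‖ := by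
  rw [norm_smul, Complex.norm_real, Real.norm_of_nonneg hs.le]

theorem ARes_norm_inv_smul {F : Type*} [NormedAddCommGroup F] [NormedSpace ℂ F] {s : ℝ}
    (hs : 0 < s) (v : F) : ‖((s : ℂ)⁻¹) • v‖ = s⁻¹ * ‖v‖ := by
  rw [norm_smul, ARes_norm_inv hs]

theorem ARes_cancel {F : Type*} [NormedAddCommGroup F] [NormedSpace ℂ F] {s : ℝ} (hs : 0 < s)
    (v : F) : (s : ℂ) • (((s : ℂ)⁻¹) • v) = v := by
  have hs0 : (s : ℂ) ≠ 0 := by exact_mod_cast hs.ne'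
  rw [smul_smul, mul_inv_cancel₀ hs0, one_smul]

theorem ARes_cancel' {F : Type*} [NormedAddCommGroup F] [NormedSpace ℂ F] {s : ℝ} (hs : 0 < s)
    (v : F) : ((s : ℂ)⁻¹) • ((s : ℂ) • v) = v := by
  have hs0 : (s : ℂ) ≠ 0 := by exact_mod_cast hs.ne'
  rw [smul_smul, inv_mul_cancel₀ hs0, one_smul]

theorem ARes_ST (A : E → E') (B : E' → E) (x0 : E) {s : ℝ} (hs : 0 < s) (u : E) :
    rsB A B x0 s (rsA A x0 s u) - u
      = ((s : ℂ)⁻¹) • (B (A (x0 + (s : ℂ) • u)) - (x0 + (s : ℂ) • u)) := by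
  unfold rsB rsA
  rw [ARes_cancel hs]
  have h1 : A x0 + (A (x0 + (s : ℂ) • u) - A x0) = A (x0 + (s : ℂ) • u) := by abel
  rw [h1]
  conv_lhs => rw [← ARes_cancel' hs u]
  rw [← smul_sub]
  congr 1
  rw [ARes_cancel' hs]
  abel

theorem ARes_TS (A : E → E') (B : E' → E) (x0 : E) {s : ℝ} (hs : 0 < s) (v : E') :
    rsA A x0 s (rsB A B x0 s v) - v
      = ((s : ℂ)⁻¹) • (A (B (A x0 + (s : ℂ) • v)) - (A x0 + (s : ℂ) • v)) := by
  unfold rsB rsA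
  rw [ARes_cancel hs]
  have h1 : x0 + (B (A x0 + (s : ℂ) • v) - x0) = B (A x0 + (s : ℂ) • v) := by abel
  rw [h1]
  conv_lhs => rw [← ARes_cancel' hs v]
  rw [← smul_sub]
  congr 1
  rw [ARes_cancel' hs]
  abel

theorem ARes_main {f : E → ℂ} {g : E' → ℂ} {A : E → E'} {B : E' → E} {L w r : ℝ}
    (h : CR f g A B L w r) {δ K : ℝ} (hδ : 0 < δ) (hK : 10 * L ^ 2 / δ + 1 ≤ K)
    (hw1 : w * K ≤ δ) (hw2 : 4 * L ^ 2 * K * w ≤ δ ^ 3) {x0 : E} (hx0 : x0 ≠ 0)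
    (hxr : ‖x0‖ < r / (2 * L + 2)) :
    CptHyp (rsA A x0 (K * ‖fderiv ℂ f x0‖)) (rsB A B x0 (K * ‖fderiv ℂ f x0‖))
      (((‖fderiv ℂ f x0‖ : ℝ) : ℂ)⁻¹ • fderiv ℂ f x0)
      (((‖fderiv ℂ f x0‖ : ℝ) : ℂ)⁻¹ • fderiv ℂ g (A x0)) L δ := by
  have hL := h.hL
  have hL0 : 0 < L := by linarith
  have hw : 0 < w := h.rf.hw
  have hr : 0 < r := h.rf.hr
  have h10 : 0 < 10 * L ^ 2 / δ := by positivity
  have hK0 : 0 < K := by linarith
  have hx0r : (2 * L + 2) * ‖x0‖ < r := by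
    rw [lt_div_iff₀ (by linarith)] at hxr
    linarith
  have hxn : 0 ≤ ‖x0‖ := norm_nonneg x0
  have hLx : 0 ≤ L * ‖x0‖ := by positivity
  have hx0b : x0 ∈ ball (0 : E) r := by
    rw [mem_ball_zero_iff]; nlinarith
  have h0b : (0 : E) ∈ ball (0 : E) r := mem_ball_self hr
  have hκ : 0 < ‖fderiv ℂ f x0‖ := h.rf.pos x0 hx0b hx0
  have hsmall := h.rf.small x0 hx0b
  have hAx0 : ‖A x0‖ ≤ L * ‖x0‖ := by
    have := h.lipA x0 hx0b 0 h0b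
    rwa [h.A0, sub_zero, sub_zero] at this
  have hAx0b : A x0 ∈ ball (0 : E') r := by
    rw [mem_ball_zero_iff]; nlinarith
  have hdA := h.dA x0 hx0b
  have hfA0 := h.fA x0 hx0b
  generalize hκd : ‖fderiv ℂ f x0‖ = κ at *
  have hs : 0 < K * κ := by positivity
  -- the displacement
  have hsd : K * κ * (1 / δ) ≤ ‖x0‖ := by
    rw [mul_one_div, div_le_iff₀ hδ]
    calc K * κ ≤ K * (w * ‖x0‖) := by gcongr
      _ = (w * K) * ‖x0‖ := by ring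
      _ ≤ δ * ‖x0‖ := by gcongr
      _ = ‖x0‖ * δ := by ring
  have hwsd : w * (K * κ * (1 / δ)) ≤ κ := by
    rw [mul_one_div, mul_div_assoc', div_le_iff₀ hδ]
    calc w * (K * κ) = (w * K) * κ := by ring
      _ ≤ δ * κ := by gcongr
      _ = κ * δ := by ring
  have hsu : ∀ u ∈ ball (0 : E) (1 / δ), ‖((K * κ : ℝ) : ℂ) • u‖ ≤ K * κ * (1 / δ) := by
    intro u hu
    rw [mem_ball_zero_iff] at hu
    rw [ARes_norm_smul hs]
    gcongr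
  have hsv : ∀ v ∈ ball (0 : E') (1 / δ), ‖((K * κ : ℝ) : ℂ) • v‖ ≤ K * κ * (1 / δ) := by
    intro u hu
    rw [mem_ball_zero_iff] at hu
    rw [ARes_norm_smul hs]
    gcongr
  have hxn2 : ∀ u ∈ ball (0 : E) (1 / δ), ‖x0 + ((K * κ : ℝ) : ℂ) • u‖ ≤ 2 * ‖x0‖ := by
    intro u hu
    calc ‖x0 + ((K * κ : ℝ) : ℂ) • u‖ ≤ ‖x0‖ + ‖((K * κ : ℝ) : ℂ) • u‖ := norm_add_le _ _
      _ ≤ ‖x0‖ + ‖x0‖ := by gcongr; exact (hsu u hu).trans hsd
      _ = 2 * ‖x0‖ := by ring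
  have hxb : ∀ u ∈ ball (0 : E) (1 / δ), x0 + ((K * κ : ℝ) : ℂ) • u ∈ ball (0 : E) r := by
    intro u hu
    rw [mem_ball_zero_iff]
    have := hxn2 u hu
    nlinarith
  have hyb : ∀ v ∈ ball (0 : E') (1 / δ), A x0 + ((K * κ : ℝ) : ℂ) • v ∈ ball (0 : E') r := by
    intro v hv
    rw [mem_ball_zero_iff]
    have h1 : ‖A x0 + ((K * κ : ℝ) : ℂ) • v‖ ≤ L * ‖x0‖ + ‖x0‖ :=
      (norm_add_le _ _).trans (add_le_add hAx0 ((hsv v hv).trans hsd))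
    nlinarith
  have hAxb : ∀ u ∈ ball (0 : E) (1 / δ), A (x0 + ((K * κ : ℝ) : ℂ) • u) ∈ ball (0 : E') r := by
    intro u hu
    rw [mem_ball_zero_iff]
    have h1 := h.lipA _ (hxb u hu) 0 h0b
    rw [h.A0, sub_zero, sub_zero] at h1
    have h2 := hxn2 u hu
    have h3 : L * ‖x0 + ((K * κ : ℝ) : ℂ) • u‖ ≤ L * (2 * ‖x0‖) := by gcongr
    nlinarith
  -- the derivative bounds
  have hfx : ∀ u ∈ ball (0 : E) (1 / δ), ‖fderiv ℂ f (x0 + ((K * κ : ℝ) : ℂ) • u)‖ ≤ 2 * κ := by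
    intro u hu
    have h1 := h.rf.near hx0b (hxb u hu)
    rw [hκd, add_sub_cancel_left] at h1
    have h2 : w * ‖((K * κ : ℝ) : ℂ) • u‖ ≤ w * (K * κ * (1 / δ)) := by
      gcongr; exact hsu u hu
    linarith
  have hgy : ∀ v ∈ ball (0 : E') (1 / δ),
      ‖fderiv ℂ g (A x0 + ((K * κ : ℝ) : ℂ) • v)‖ ≤ 2 * L * κ := by
    intro v hv
    have h1 := h.rg.near hAx0b (hyb v hv)
    rw [add_sub_cancel_left] at h1
    have h2 : w * ‖((K * κ : ℝ) : ℂ) • v‖ ≤ w * (K * κ * (1 / δ)) := by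
      gcongr; exact hsv v hv
    nlinarith
  have hKinv : K⁻¹ * (2 * L ^ 2) ≤ δ := by
    rw [inv_mul_le_iff₀ hK0]
    have h1 : 10 * L ^ 2 / δ ≤ K := by linarith
    rw [div_le_iff₀ hδ] at h1
    nlinarith [sq_nonneg L]
  refine ⟨?_, ?_, ?_, ?_, ?_, ?_, ?_, ?_⟩
  · unfold rsA
    rw [smul_zero, add_zero, sub_self, smul_zero]
  · intro u hu v hv
    unfold rsA
    rw [← smul_sub, ARes_norm_inv_smul hs, inv_mul_le_iff₀ hs]
    have h1 : A (x0 + ((K * κ : ℝ) : ℂ) • u) - A x0 - (A (x0 + ((K * κ : ℝ) : ℂ) • v) - A x0)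
        = A (x0 + ((K * κ : ℝ) : ℂ) • u) - A (x0 + ((K * κ : ℝ) : ℂ) • v) := by abel
    rw [h1]
    have h2 := h.lipA _ (hxb u hu) _ (hxb v hv)
    rw [add_sub_add_left_eq_sub, ← smul_sub, ARes_norm_smul hs] at h2
    linarith
  · intro u hu v hv
    unfold rsB
    rw [← smul_sub, ARes_norm_inv_smul hs, inv_mul_le_iff₀ hs]
    have h1 : B (A x0 + ((K * κ : ℝ) : ℂ) • u) - x0 - (B (A x0 + ((K * κ : ℝ) : ℂ) • v) - x0)
        = B (A x0 + ((K * κ : ℝ) : ℂ) • u) - B (A x0 + ((K * κ : ℝ) : ℂ) • v) := by abel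
    rw [h1]
    have h2 := h.lipB _ (hyb u hu) _ (hyb v hv)
    rw [add_sub_add_left_eq_sub, ← smul_sub, ARes_norm_smul hs] at h2
    linarith
  · intro u hu
    rw [ARes_ST A B x0 hs u, ARes_norm_inv_smul hs]
    have h1 := h.BA _ (hxb u hu)
    have h2 := hfx u hu
    have h3 : ‖B (A (x0 + ((K * κ : ℝ) : ℂ) • u)) - (x0 + ((K * κ : ℝ) : ℂ) • u)‖ ≤ L * (2 * κ) :=
      h1.trans (by gcongr)
    calc (K * κ)⁻¹ * ‖B (A (x0 + ((K * κ : ℝ) : ℂ) • u)) - (x0 + ((K * κ : ℝ) : ℂ) • u)‖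
        ≤ (K * κ)⁻¹ * (L * (2 * κ)) := by gcongr
      _ = K⁻¹ * (2 * L) := by field_simp
      _ ≤ K⁻¹ * (2 * L ^ 2) := by gcongr; nlinarith
      _ ≤ δ := hKinv
  · intro v hv
    rw [ARes_TS A B x0 hs v, ARes_norm_inv_smul hs]
    have h1 := h.AB' _ (hyb v hv)
    have h2 := hgy v hv
    have h3 : ‖A (B (A x0 + ((K * κ : ℝ) : ℂ) • v)) - (A x0 + ((K * κ : ℝ) : ℂ) • v)‖
        ≤ L * (2 * L * κ) :=
      h1.trans (by gcongr)
    calc (K * κ)⁻¹ * ‖A (B (A x0 + ((K * κ : ℝ) : ℂ) • v)) - (A x0 + ((K * κ : ℝ) : ℂ) • v)‖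
        ≤ (K * κ)⁻¹ * (L * (2 * L * κ)) := by gcongr
      _ = K⁻¹ * (2 * L ^ 2) := by field_simp
      _ ≤ δ := hKinv
  · intro u hu
    have hid : ((((κ : ℝ) : ℂ)⁻¹ • fderiv ℂ g (A x0)) (rsA A x0 (K * κ) u)
        - (((κ : ℝ) : ℂ)⁻¹ • fderiv ℂ f x0) u)
        = (((K * κ * κ : ℝ) : ℂ)⁻¹) • (fderiv ℂ g (A x0) (A (x0 + ((K * κ : ℝ) : ℂ) • u) - A x0)
          - fderiv ℂ f x0 (((K * κ : ℝ) : ℂ) • u)) := by
      have hKc : ((K : ℝ) : ℂ) ≠ 0 := by exact_mod_cast hK0.ne'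
      have hκc : ((κ : ℝ) : ℂ) ≠ 0 := by exact_mod_cast hκ.ne'
      unfold rsA
      simp only [smul_apply, map_smul, smul_eq_mul, Complex.ofReal_mul]
      field_simp
    rw [hid, ARes_norm_inv_smul (by positivity)]
    have q1 := h.rg.quad hAx0b (hAxb u hu)
    have q2 := h.rf.quad hx0b (hxb u hu)
    rw [add_sub_cancel_left] at q2
    have a1 := h.fA _ (hxb u hu)
    have a2 := hfx u hu
    have hl : ‖A (x0 + ((K * κ : ℝ) : ℂ) • u) - A x0‖ ≤ L * (K * κ * (1 / δ)) := by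
      have := h.lipA _ (hxb u hu) _ hx0b
      rw [add_sub_cancel_left] at this
      exact this.trans (by gcongr; exact hsu u hu)
    have a3 : ‖f (x0 + ((K * κ : ℝ) : ℂ) • u) - g (A (x0 + ((K * κ : ℝ) : ℂ) • u))‖
        ≤ L * (2 * κ) ^ 2 := a1.trans (by gcongr)
    have q1' : ‖g (A (x0 + ((K * κ : ℝ) : ℂ) • u)) - g (A x0)
        - fderiv ℂ g (A x0) (A (x0 + ((K * κ : ℝ) : ℂ) • u) - A x0)‖
        ≤ w * (L * (K * κ * (1 / δ))) ^ 2 := q1.trans (by gcongr)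
    have q2' : ‖f (x0 + ((K * κ : ℝ) : ℂ) • u) - f x0 - fderiv ℂ f x0 (((K * κ : ℝ) : ℂ) • u)‖
        ≤ w * (K * κ * (1 / δ)) ^ 2 := q2.trans (by gcongr; exact hsu u hu)
    have hdec : fderiv ℂ g (A x0) (A (x0 + ((K * κ : ℝ) : ℂ) • u) - A x0)
          - fderiv ℂ f x0 (((K * κ : ℝ) : ℂ) • u)
        = (f (x0 + ((K * κ : ℝ) : ℂ) • u) - f x0 - fderiv ℂ f x0 (((K * κ : ℝ) : ℂ) • u))
          - (g (A (x0 + ((K * κ : ℝ) : ℂ) • u)) - g (A x0)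
            - fderiv ℂ g (A x0) (A (x0 + ((K * κ : ℝ) : ℂ) • u) - A x0))
          - (f (x0 + ((K * κ : ℝ) : ℂ) • u) - g (A (x0 + ((K * κ : ℝ) : ℂ) • u)))
          + (f x0 - g (A x0)) := by ring
    have hbound : ‖fderiv ℂ g (A x0) (A (x0 + ((K * κ : ℝ) : ℂ) • u) - A x0)
          - fderiv ℂ f x0 (((K * κ : ℝ) : ℂ) • u)‖
        ≤ w * (K * κ * (1 / δ)) ^ 2 + w * (L * (K * κ * (1 / δ))) ^ 2 + L * (2 * κ) ^ 2
          + L * κ ^ 2 := by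
      rw [hdec]
      refine (norm_add_le _ _).trans ?_
      refine add_le_add ((norm_sub_le _ _).trans (add_le_add ((norm_sub_le _ _).trans
        (add_le_add q2' q1')) a3)) hfA0
    calc (K * κ * κ)⁻¹ * ‖fderiv ℂ g (A x0) (A (x0 + ((K * κ : ℝ) : ℂ) • u) - A x0)
          - fderiv ℂ f x0 (((K * κ : ℝ) : ℂ) • u)‖
        ≤ (K * κ * κ)⁻¹ * (w * (K * κ * (1 / δ)) ^ 2 + w * (L * (K * κ * (1 / δ))) ^ 2
          + L * (2 * κ) ^ 2 + L * κ ^ 2) := by gcongr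
      _ = w * K * (1 + L ^ 2) / δ ^ 2 + 5 * L / K := by field_simp; ring
      _ ≤ δ / 2 + δ / 2 := by
          apply add_le_add
          · rw [div_le_iff₀ (by positivity)]
            have e1 : w * K * (1 + L ^ 2) ≤ w * K * (2 * L ^ 2) := by
              gcongr
              nlinarith
            nlinarith
          · rw [div_le_iff₀ hK0]
            have h1 : 10 * L ^ 2 / δ ≤ K := by linarith
            rw [div_le_iff₀ hδ] at h1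
            nlinarith
      _ = δ := by ring
  · rw [norm_smul, ARes_norm_inv hκ, hκd, inv_mul_cancel₀ hκ.ne']
    exact hL
  · rw [norm_smul, ARes_norm_inv hκ, inv_mul_le_iff₀ hκ]
    linarith

theorem resc {f : E → ℂ} {g : E' → ℂ} (hf : Grm f) (hg : Grm g)
    (f2 : fderiv ℂ (fderiv ℂ f) 0 = 0) (g2 : fderiv ℂ (fderiv ℂ g) 0 = 0) {A : E → E'}
    {B : E' → E} {L ρ : ℝ} (hco : Coarse f g A B L ρ) {δ : ℝ} (hδ : 0 < δ) :
    ∃ K0 : ℝ, 1 ≤ K0 ∧ ∀ K : ℝ, K0 ≤ K → ∃ r0 : ℝ, 0 < r0 ∧ ∀ x0 : E, x0 ≠ 0 → ‖x0‖ < r0 →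
      CptHyp (rsA A x0 (K * ‖fderiv ℂ f x0‖)) (rsB A B x0 (K * ‖fderiv ℂ f x0‖))
        (((‖fderiv ℂ f x0‖ : ℝ) : ℂ)⁻¹ • fderiv ℂ f x0)
        (((‖fderiv ℂ f x0‖ : ℝ) : ℂ)⁻¹ • fderiv ℂ g (A x0)) L δ := by
  have hL : 1 ≤ L := by
    obtain ⟨r, h⟩ := cr_exists hf hg f2 g2 hco one_pos
    exact h.hL
  have hL0 : 0 < L := by linarith
  refine ⟨10 * L ^ 2 / δ + 1, ?_, ?_⟩
  · have : 0 ≤ 10 * L ^ 2 / δ := by positivity
    linarith
  intro K hK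
  have hK0 : 0 < K := by
    have : 0 ≤ 10 * L ^ 2 / δ := by positivity
    linarith
  have hw0 : 0 < min (δ / K) (δ ^ 3 / (4 * L ^ 2 * K)) := by positivity
  obtain ⟨r, h⟩ := cr_exists hf hg f2 g2 hco hw0
  have hr : 0 < r := h.rf.hr
  refine ⟨r / (2 * L + 2), by positivity, ?_⟩
  intro x0 hx0 hxr
  refine ARes_main h hδ hK ?_ ?_ hx0 hxr
  · have := min_le_left (δ / K) (δ ^ 3 / (4 * L ^ 2 * K))
    rwa [le_div_iff₀ hK0] at this
  · have := min_le_right (δ / K) (δ ^ 3 / (4 * L ^ 2 * K))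
    rw [le_div_iff₀ (by positivity)] at this
    linarith

end H80.LD

end S_H80_LD_ARes
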