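import Mathlib
import Pool.Agent.H24.LS.A0
import Pool.Agent.H24.LS.Base
import Pool.Agent.H80.LM.G18
import Pool.Agent.H80.LM.G20

/-! MP_816883_ag: this file joins several modules (see the folders H80/LD, H24/LS) to save build time. -/

section S_H24_LS_A1

/-!
# A1: Lipschitz maps and slopes; coarse equivalence from stable Lipschitz equivalence

* `slope_le`: for `ε > 0` and `q` near `p`: `‖Φ q - Φ p‖ = ‖Ψ (H q) - Ψ (H p)‖ ≤ (‖fderiv Ψ (H p)‖ + ε) ‖H q - H p‖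
  ≤ (‖fderiv Ψ (H p)‖ + ε) K ‖q - p‖` (`H` is continuous at `p`, so `H q` is near `H p`).  For a vector `w`, `q = p + s w`, `s → 0`:
  `‖fderiv Φ p w‖ ≤ (..) K ‖w‖`; let `ε → 0`.
* `stb_fderiv`: derivative of `stb m f` at `(x,z)` is `(u,w) ↦ fderiv f x u + Σ 2 z_i w_i`; its norm is `≥ ‖fderiv f x‖`, `≥ ‖z‖` (take `w = e_i`:
  `2‖z_i‖`), and for `z = 0` it is `≤ ‖fderiv f x‖`.
* `coarse_of_stable`: `H, H'` = the Lipschitz germs, `K ≥ 1`.  `A x = (H (x,0)).1`, `B x' = (H' (x',0)).1`.  Choose `ρ` small so that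
  all the points below lie in the good balls (`H, H'` Lipschitz and mutually inverse, `f+Q = (g+Q) ∘ H`, `g+Q = (f+Q) ∘ H'`, `f, g`
  differentiable).
  Apply `slope_le` to `Φ = g + Q`, `Ψ = f + Q`, map `H'`, at the point `H (x,0) = (A x, z')`, `H' (A x, z') = (x,0)`:
  `max ‖fderiv g (A x)‖ ‖z'‖ ≤ ‖fderiv (g+Q) (A x, z')‖ ≤ K ‖fderiv (f+Q) (x,0)‖ ≤ K ‖fderiv f x‖`.
  `f x = (f+Q)(x,0) = g (A x) + Q z'`, `‖Q z'‖ ≤ m' ‖z'‖^2 ≤ m' K^2 ‖fderiv f x‖^2`.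
  `‖B (A x) - x‖ = ‖(H' (A x, 0)).1 - (H' (A x, z')).1‖ ≤ K ‖z'‖ ≤ K^2 ‖fderiv f x‖`.  Symmetric for `B`.  `L = max (m + m' + 1) K^2`-like.
-/

open Filter Topology Metric

namespace H24.LS

theorem slope_le {E E' : Type*} [NormedAddCommGroup E] [NormedSpace ℂ E]
    [NormedAddCommGroup E'] [NormedSpace ℂ E'] (Φ : E → ℂ) (Ψ : E' → ℂ) (H : E → E') (K r : ℝ)
    (p : E) (hK : 0 ≤ K) (hr : 0 < r) (hH : ∀ q ∈ ball p r, ‖H q - H p‖ ≤ K * ‖q - p‖)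
    (hΦ : DifferentiableAt ℂ Φ p) (hΨ : DifferentiableAt ℂ Ψ (H p))
    (h : ∀ᶠ q in 𝓝 p, Φ q = Ψ (H q)) : ‖fderiv ℂ Φ p‖ ≤ K * ‖fderiv ℂ Ψ (H p)‖ := by
  have hp : Φ p = Ψ (H p) := h.self_of_nhds
  have hHc : ContinuousAt H p := by
    rw [Metric.continuousAt_iff]
    intro ε hε
    refine ⟨min r (ε / (K + 1)), lt_min hr (by positivity), fun q hq => ?_⟩
    rw [dist_eq_norm] at hq ⊢
    have h1 := hH q (by rw [mem_ball, dist_eq_norm]; exact hq.trans_le (min_le_left _ _))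
    have h2 : ‖q - p‖ < ε / (K + 1) := hq.trans_le (min_le_right _ _)
    rw [lt_div_iff₀ (by linarith)] at h2
    have h3 := norm_nonneg (q - p)
    nlinarith
  have key : ∀ ε : ℝ, 0 < ε → ‖fderiv ℂ Φ p‖ ≤ ε + (‖fderiv ℂ Ψ (H p)‖ + ε) * K := by
    intro ε hε
    have h1 := (hasFDerivAt_iff_isLittleO.1 hΦ.hasFDerivAt).def hε
    have h2 := hHc.eventually ((hasFDerivAt_iff_isLittleO.1 hΨ.hasFDerivAt).def hε)
    have h3 : ∀ᶠ q in 𝓝 p, ‖H q - H p‖ ≤ K * ‖q - p‖ := by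
      filter_upwards [ball_mem_nhds p hr] with q hq using hH q hq
    have h4 : ∀ᶠ q in 𝓝 p, ‖fderiv ℂ Φ p (q - p)‖ ≤
        (ε + (‖fderiv ℂ Ψ (H p)‖ + ε) * K) * ‖q - p‖ := by
      filter_upwards [h1, h2, h3, h] with q a1 a2 a3 a4
      have b1 : fderiv ℂ Φ p (q - p) = fderiv ℂ Ψ (H p) (H q - H p) +
          (Ψ (H q) - Ψ (H p) - fderiv ℂ Ψ (H p) (H q - H p)) -
          (Φ q - Φ p - fderiv ℂ Φ p (q - p)) := by
        rw [a4, hp]; ring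
      rw [b1]
      have b2 := (fderiv ℂ Ψ (H p)).le_opNorm (H q - H p)
      have b3 := norm_nonneg (fderiv ℂ Ψ (H p))
      calc _ ≤ ‖fderiv ℂ Ψ (H p) (H q - H p)‖ +
            ‖Ψ (H q) - Ψ (H p) - fderiv ℂ Ψ (H p) (H q - H p)‖ +
            ‖Φ q - Φ p - fderiv ℂ Φ p (q - p)‖ :=
            (norm_sub_le _ _).trans (add_le_add_left (norm_add_le _ _) _)
        _ ≤ ‖fderiv ℂ Ψ (H p)‖ * ‖H q - H p‖ + ε * ‖H q - H p‖ + ε * ‖q - p‖ :=
            add_le_add (add_le_add b2 a2) a1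
        _ = (‖fderiv ℂ Ψ (H p)‖ + ε) * ‖H q - H p‖ + ε * ‖q - p‖ := by ring
        _ ≤ (‖fderiv ℂ Ψ (H p)‖ + ε) * (K * ‖q - p‖) + ε * ‖q - p‖ :=
            add_le_add_left (mul_le_mul_of_nonneg_left a3 (by positivity)) _
        _ = _ := by ring
    apply ContinuousLinearMap.opNorm_le_of_nhds_zero (by positivity)
    have h5 : Tendsto (fun x : E => p + x) (𝓝 0) (𝓝 p) := by
      have : ContinuousAt (fun x : E => p + x) 0 := by fun_prop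
      simpa [ContinuousAt] using this
    filter_upwards [h5.eventually h4] with x hx
    simpa using hx
  refine le_of_forall_pos_le_add fun ε hε => ?_
  have h1 := key (ε / (1 + K)) (by positivity)
  have h2 : ε / (1 + K) + (‖fderiv ℂ Ψ (H p)‖ + ε / (1 + K)) * K =
      K * ‖fderiv ℂ Ψ (H p)‖ + ε := by
    field_simp
    ring
  linarith

theorem stb_fderiv {E : Type*} [NormedAddCommGroup E] [NormedSpace ℂ E] (f : E → ℂ) (m : ℕ)
    (x : E) (z : Fin m → ℂ) (hf : DifferentiableAt ℂ f x) :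
    DifferentiableAt ℂ (stb m f) (x, z) ∧
    ‖fderiv ℂ f x‖ ≤ ‖fderiv ℂ (stb m f) (x, z)‖ ∧ ‖z‖ ≤ ‖fderiv ℂ (stb m f) (x, z)‖ ∧
    (z = 0 → ‖fderiv ℂ (stb m f) (x, z)‖ ≤ ‖fderiv ℂ f x‖) := by
  have hQ : HasFDerivAt (stb m f) ((fderiv ℂ f x).comp (ContinuousLinearMap.fst ℂ E (Fin m → ℂ)) +
      ∑ i, (2 * z i) • (ContinuousLinearMap.proj (R := ℂ) (φ := fun _ : Fin m => ℂ) i).comp
        (ContinuousLinearMap.snd ℂ E (Fin m → ℂ))) (x, z) := by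
    have h1 : HasFDerivAt (fun p : E × (Fin m → ℂ) => f p.1)
        ((fderiv ℂ f x).comp (ContinuousLinearMap.fst ℂ E (Fin m → ℂ))) (x, z) := by
      have : HasFDerivAt f (fderiv ℂ f x) ((x, z) : E × (Fin m → ℂ)).1 := hf.hasFDerivAt
      exact this.comp (x, z) hasFDerivAt_fst
    have h2 : ∀ i : Fin m, HasFDerivAt (fun p : E × (Fin m → ℂ) => p.2 i ^ 2)
        ((2 * z i) • (ContinuousLinearMap.proj (R := ℂ) (φ := fun _ : Fin m => ℂ) i).comp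
        (ContinuousLinearMap.snd ℂ E (Fin m → ℂ))) (x, z) := by
      intro i
      have h3 : HasFDerivAt (fun p : E × (Fin m → ℂ) => p.2 i)
          ((ContinuousLinearMap.proj (R := ℂ) (φ := fun _ : Fin m => ℂ) i).comp
          (ContinuousLinearMap.snd ℂ E (Fin m → ℂ))) (x, z) :=
        ((ContinuousLinearMap.proj (R := ℂ) (φ := fun _ : Fin m => ℂ) i).comp
          (ContinuousLinearMap.snd ℂ E (Fin m → ℂ))).hasFDerivAt
      have h4 : HasDerivAt (fun t : ℂ => t ^ 2) (2 * z i) (((x, z) : E × (Fin m → ℂ)).2 i) := by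
        have := hasDerivAt_pow 2 (z i)
        simpa using this
      exact h4.comp_hasFDerivAt (x, z) h3
    have h5 := h1.add (HasFDerivAt.fun_sum fun i (_ : i ∈ Finset.univ) => h2 i)
    exact h5
  have hfd := hQ.fderiv
  have happ : ∀ (u : E) (w : Fin m → ℂ), fderiv ℂ (stb m f) (x, z) (u, w) =
      fderiv ℂ f x u + ∑ i, 2 * z i * w i := by
    intro u w
    rw [hfd]
    simp
  refine ⟨hQ.differentiableAt, ?_, ?_, ?_⟩
  · refine ContinuousLinearMap.opNorm_le_bound _ (norm_nonneg _) fun u => ?_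
    have h1 := (fderiv ℂ (stb m f) (x, z)).le_opNorm (u, 0)
    rw [happ] at h1
    have h2 : ‖((u, 0) : E × (Fin m → ℂ))‖ = ‖u‖ := by simp [Prod.norm_def]
    rw [h2] at h1
    simpa using h1
  · rw [pi_norm_le_iff_of_nonneg (norm_nonneg _)]
    intro i
    have h1 := (fderiv ℂ (stb m f) (x, z)).le_opNorm (0, Pi.single i 1)
    rw [happ] at h1
    have h2 : ‖((0, Pi.single i 1) : E × (Fin m → ℂ))‖ = 1 := by
      have : ‖(Pi.single i 1 : Fin m → ℂ)‖ = 1 := by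
        rw [Pi.norm_single]; simp
      rw [Prod.norm_def, this]; simp
    have h3 : ∑ j, 2 * z j * (Pi.single i (1 : ℂ) : Fin m → ℂ) j = 2 * z i := by
      rw [Finset.sum_eq_single i]
      · simp
      · intro j _ hj
        rw [Pi.single_eq_of_ne hj, mul_zero]
      · intro hi
        exact absurd (Finset.mem_univ i) hi
    rw [h2, h3, map_zero, zero_add, mul_one, norm_mul] at h1
    have h4 : ‖(2 : ℂ)‖ = 2 := by simp
    rw [h4] at h1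
    have := norm_nonneg (z i)
    linarith
  · intro hz
    refine ContinuousLinearMap.opNorm_le_bound _ (norm_nonneg _) fun v => ?_
    obtain ⟨u, w⟩ := v
    rw [happ, hz]
    have h1 := (fderiv ℂ f x).le_opNorm u
    have h2 : ‖u‖ ≤ ‖((u, w) : E × (Fin m → ℂ))‖ := norm_fst_le (u, w)
    have h3 := mul_le_mul_of_nonneg_left h2 (norm_nonneg (fderiv ℂ f x))
    simp only [Pi.zero_apply, mul_zero, zero_mul, Finset.sum_const_zero, add_zero]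
    linarith

private theorem A1_Q {m : ℕ} (z : Fin m → ℂ) : ‖∑ i, z i ^ 2‖ ≤ m * ‖z‖ ^ 2 := by
  calc ‖∑ i, z i ^ 2‖ ≤ ∑ i : Fin m, ‖z i ^ 2‖ := norm_sum_le _ _
    _ ≤ ∑ _i : Fin m, ‖z‖ ^ 2 := by
        apply Finset.sum_le_sum
        intro i _
        rw [norm_pow]
        exact pow_le_pow_left₀ (norm_nonneg _) (norm_le_pi_norm z i) 2
    _ = m * ‖z‖ ^ 2 := by simp

private theorem A1_half {E E' : Type*} [NormedAddCommGroup E] [NormedSpace ℂ E]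
    [NormedAddCommGroup E'] [NormedSpace ℂ E'] {f : E → ℂ} {g : E' → ℂ} {m m' : ℕ}
    {H : E × (Fin m → ℂ) → E' × (Fin m' → ℂ)} {H' : E' × (Fin m' → ℂ) → E × (Fin m → ℂ)} {K r : ℝ}
    (hK : 1 ≤ K) (hr : 0 < r) (H0 : H 0 = 0)
    (lH : ∀ x ∈ ball (0 : E × (Fin m → ℂ)) r, ∀ y ∈ ball (0 : E × (Fin m → ℂ)) r,
      ‖H x - H y‖ ≤ K * ‖x - y‖)
    (lH' : ∀ x ∈ ball (0 : E' × (Fin m' → ℂ)) r, ∀ y ∈ ball (0 : E' × (Fin m' → ℂ)) r,
      ‖H' x - H' y‖ ≤ K * ‖x - y‖)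
    (hl : ∀ x ∈ ball (0 : E × (Fin m → ℂ)) r, H' (H x) = x)
    (he : ∀ x ∈ ball (0 : E × (Fin m → ℂ)) r, stb m f x = stb m' g (H x))
    (he' : ∀ y ∈ ball (0 : E' × (Fin m' → ℂ)) r, stb m' g y = stb m f (H' y))
    (df : ∀ x ∈ ball (0 : E) r, DifferentiableAt ℂ f x)
    (dg : ∀ x ∈ ball (0 : E') r, DifferentiableAt ℂ g x) {x : E} (hx : x ∈ ball (0 : E) (r / (2 * K))) :
    ‖f x - g (H (x, 0)).1‖ ≤ m' * K ^ 2 * ‖fderiv ℂ f x‖ ^ 2 ∧
    ‖fderiv ℂ g (H (x, 0)).1‖ ≤ K * ‖fderiv ℂ f x‖ ∧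
    ‖(H' ((H (x, 0)).1, 0)).1 - x‖ ≤ K ^ 2 * ‖fderiv ℂ f x‖ := by
  have hK0 : 0 < K := by linarith
  have hx1 : ‖x‖ < r / (2 * K) := by simpa using hx
  have hn : ∀ y : E, ‖((y, 0) : E × (Fin m → ℂ))‖ = ‖y‖ := fun y => by simp [Prod.norm_def]
  have hxr : ‖x‖ < r := hx1.trans_le (div_le_self hr.le (by linarith))
  have hxp : ((x, 0) : E × (Fin m → ℂ)) ∈ ball (0 : E × (Fin m → ℂ)) r := by
    rw [mem_ball_zero_iff, hn]; exact hxr
  have h0r : (0 : E × (Fin m → ℂ)) ∈ ball (0 : E × (Fin m → ℂ)) r := mem_ball_self hr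
  have hHn : ‖H (x, 0)‖ ≤ K * ‖x‖ := by
    have := lH _ hxp _ h0r
    rwa [H0, sub_zero, sub_zero, hn] at this
  have hHr : ‖H (x, 0)‖ < r := by
    rw [lt_div_iff₀ (by positivity)] at hx1
    have := norm_nonneg x
    nlinarith
  have hHb : H (x, 0) ∈ ball (0 : E' × (Fin m' → ℂ)) r := by
    rw [mem_ball_zero_iff]; exact hHr
  have hAr : ‖(H (x, 0)).1‖ < r := (norm_fst_le _).trans_lt hHr
  have hdf := df x (by rw [mem_ball_zero_iff]; exact hxr)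
  have hdg := dg (H (x, 0)).1 (by rw [mem_ball_zero_iff]; exact hAr)
  obtain ⟨sf1, sf2, sf3, sf4⟩ := stb_fderiv f m x 0 hdf
  obtain ⟨sg1, sg2, sg3, sg4⟩ := stb_fderiv g m' (H (x, 0)).1 (H (x, 0)).2 hdg
  obtain ⟨ρ, hρ, hρb⟩ := Metric.isOpen_iff.1 isOpen_ball _ hHb
  have hslope : ‖fderiv ℂ (stb m' g) (H (x, 0))‖ ≤ K * ‖fderiv ℂ (stb m f) (H' (H (x, 0)))‖ := by
    refine slope_le (stb m' g) (stb m f) H' K ρ (H (x, 0)) hK0.le hρ
      (fun q hq => lH' q (hρb hq) _ hHb) sg1 ?_ ?_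
    · rw [hl _ hxp]; exact sf1
    · filter_upwards [isOpen_ball.mem_nhds hHb] with q hq using he' q hq
  rw [hl _ hxp] at hslope
  have hslope2 : ‖fderiv ℂ (stb m' g) (H (x, 0))‖ ≤ K * ‖fderiv ℂ f x‖ :=
    hslope.trans (mul_le_mul_of_nonneg_left (sf4 rfl) hK0.le)
  have hz : ‖(H (x, 0)).2‖ ≤ K * ‖fderiv ℂ f x‖ := sg3.trans hslope2
  refine ⟨?_, sg2.trans hslope2, ?_⟩
  · have h1 := he _ hxp
    have h2 : stb m f (x, 0) = f x := by simp [stb]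
    rw [h2] at h1
    have h3 : f x - g (H (x, 0)).1 = ∑ i, (H (x, 0)).2 i ^ 2 := by
      rw [h1]; unfold stb; ring
    rw [h3]
    calc _ ≤ m' * ‖(H (x, 0)).2‖ ^ 2 := A1_Q _
      _ ≤ m' * (K * ‖fderiv ℂ f x‖) ^ 2 :=
          mul_le_mul_of_nonneg_left (pow_le_pow_left₀ (norm_nonneg _) hz 2) (by positivity)
      _ = _ := by ring
  · have hA0 : (((H (x, 0)).1, 0) : E' × (Fin m' → ℂ)) ∈ ball (0 : E' × (Fin m' → ℂ)) r := by
      rw [mem_ball_zero_iff]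
      have : ‖(((H (x, 0)).1, 0) : E' × (Fin m' → ℂ))‖ = ‖(H (x, 0)).1‖ := by simp [Prod.norm_def]
      rw [this]; exact hAr
    have h2 := lH' _ hA0 _ hHb
    have h3 : ‖(((H (x, 0)).1, 0) : E' × (Fin m' → ℂ)) - H (x, 0)‖ = ‖(H (x, 0)).2‖ := by
      rw [Prod.norm_def]
      simp
    rw [h3] at h2
    have h4 : ‖(H' ((H (x, 0)).1, 0)).1 - x‖ ≤ ‖H' ((H (x, 0)).1, 0) - H' (H (x, 0))‖ := by
      have h5 : (H' ((H (x, 0)).1, 0)).1 - x = (H' ((H (x, 0)).1, 0) - H' (H (x, 0))).1 := by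
        rw [Prod.fst_sub, hl _ hxp]
      rw [h5]
      exact norm_fst_le (H' ((H (x, 0)).1, 0) - H' (H (x, 0)))
    calc _ ≤ K * ‖(H (x, 0)).2‖ := h4.trans h2
      _ ≤ K * (K * ‖fderiv ℂ f x‖) := mul_le_mul_of_nonneg_left hz hK0.le
      _ = _ := by ring

private theorem A1_lip {E E' : Type*} [NormedAddCommGroup E] [NormedAddCommGroup E'] {m m' : ℕ}
    {H : E × (Fin m → ℂ) → E' × (Fin m' → ℂ)} {K r : ℝ} (hK : 1 ≤ K) (hr : 0 < r)
    (lH : ∀ x ∈ ball (0 : E × (Fin m → ℂ)) r, ∀ y ∈ ball (0 : E × (Fin m → ℂ)) r,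
      ‖H x - H y‖ ≤ K * ‖x - y‖) {p q : E} (hp : p ∈ ball (0 : E) (r / (2 * K)))
    (hq : q ∈ ball (0 : E) (r / (2 * K))) : ‖(H (p, 0)).1 - (H (q, 0)).1‖ ≤ K * ‖p - q‖ := by
  have hn : ∀ y : E, ‖((y, 0) : E × (Fin m → ℂ))‖ = ‖y‖ := fun y => by simp [Prod.norm_def]
  have hb : ∀ y ∈ ball (0 : E) (r / (2 * K)), ((y, 0) : E × (Fin m → ℂ)) ∈ ball 0 r := by
    intro y hy
    rw [mem_ball_zero_iff] at hy ⊢
    rw [hn]
    exact hy.trans_le (div_le_self hr.le (by linarith))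
  have h1 := lH _ (hb p hp) _ (hb q hq)
  have h2 : ((p, 0) : E × (Fin m → ℂ)) - (q, 0) = (p - q, 0) := by
    rw [Prod.mk_sub_mk, sub_zero]
  rw [h2, hn] at h1
  exact (norm_fst_le (H (p, 0) - H (q, 0))).trans h1

theorem coarse_of_stable {E E' : Type*} [NormedAddCommGroup E] [NormedSpace ℂ E]
    [NormedAddCommGroup E'] [NormedSpace ℂ E'] (f : E → ℂ) (g : E' → ℂ)
    (hf : AnalyticAt ℂ f 0) (hg : AnalyticAt ℂ g 0) (m m' : ℕ)
    (h : LipEquiv (stb m f) (stb m' g)) :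
    ∃ (A : E → E') (B : E' → E) (L ρ : ℝ), Coarse f g A B L ρ := by
  obtain ⟨H, H', K0, r0, hr0, H0, H0', lH, lH', hl, hr, he⟩ := h
  set K : ℝ := max K0 1 with hKdef
  have hK : 1 ≤ K := le_max_right _ _
  have hK0 : 0 < K := by linarith
  have lH1 : ∀ x ∈ ball (0 : E × (Fin m → ℂ)) r0, ∀ y ∈ ball (0 : E × (Fin m → ℂ)) r0,
      ‖H x - H y‖ ≤ K * ‖x - y‖ := fun x hx y hy =>
    (lH x hx y hy).trans (mul_le_mul_of_nonneg_right (le_max_left _ _) (norm_nonneg _))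
  have lH1' : ∀ x ∈ ball (0 : E' × (Fin m' → ℂ)) r0, ∀ y ∈ ball (0 : E' × (Fin m' → ℂ)) r0,
      ‖H' x - H' y‖ ≤ K * ‖x - y‖ := fun x hx y hy =>
    (lH' x hx y hy).trans (mul_le_mul_of_nonneg_right (le_max_left _ _) (norm_nonneg _))
  obtain ⟨r1, hr1, h1⟩ := Metric.eventually_nhds_iff_ball.1 (hl.and he)
  obtain ⟨r2, hr2, h2⟩ := Metric.eventually_nhds_iff_ball.1 hr
  obtain ⟨r3, hr3, h3⟩ := Metric.eventually_nhds_iff_ball.1 hf.eventually_analyticAt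
  obtain ⟨r4, hr4, h4⟩ := Metric.eventually_nhds_iff_ball.1 hg.eventually_analyticAt
  set R : ℝ := min r0 (min r1 (min r2 (min r3 r4))) / K with hR
  have hR0 : 0 < R := by positivity
  have hRK : R * K = min r0 (min r1 (min r2 (min r3 r4))) := div_mul_cancel₀ _ hK0.ne'
  have hRle : R ≤ min r0 (min r1 (min r2 (min r3 r4))) := by
    rw [← hRK]
    exact le_mul_of_one_le_right hR0.le hK
  have le0 : R ≤ r0 := hRle.trans (min_le_left _ _)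
  have le1 : R ≤ r1 := hRle.trans ((min_le_right _ _).trans (min_le_left _ _))
  have le2 : R ≤ r2 := hRle.trans ((min_le_right _ _).trans ((min_le_right _ _).trans
    (min_le_left _ _)))
  have le3 : R ≤ r3 := hRle.trans ((min_le_right _ _).trans ((min_le_right _ _).trans
    ((min_le_right _ _).trans (min_le_left _ _))))
  have le4 : R ≤ r4 := hRle.trans ((min_le_right _ _).trans ((min_le_right _ _).trans
    ((min_le_right _ _).trans (min_le_right _ _))))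
  have leK : R * K ≤ r1 := by
    rw [hRK]; exact (min_le_right _ _).trans (min_le_left _ _)
  have lH2 : ∀ x ∈ ball (0 : E × (Fin m → ℂ)) R, ∀ y ∈ ball (0 : E × (Fin m → ℂ)) R,
      ‖H x - H y‖ ≤ K * ‖x - y‖ := fun x hx y hy =>
    lH1 x (ball_subset_ball le0 hx) y (ball_subset_ball le0 hy)
  have lH2' : ∀ x ∈ ball (0 : E' × (Fin m' → ℂ)) R, ∀ y ∈ ball (0 : E' × (Fin m' → ℂ)) R,
      ‖H' x - H' y‖ ≤ K * ‖x - y‖ := fun x hx y hy =>
    lH1' x (ball_subset_ball le0 hx) y (ball_subset_ball le0 hy)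
  have hl2 : ∀ x ∈ ball (0 : E × (Fin m → ℂ)) R, H' (H x) = x := fun x hx =>
    (h1 x (ball_subset_ball le1 hx)).1
  have he2 : ∀ x ∈ ball (0 : E × (Fin m → ℂ)) R, stb m f x = stb m' g (H x) := fun x hx =>
    (h1 x (ball_subset_ball le1 hx)).2
  have hr2' : ∀ x ∈ ball (0 : E' × (Fin m' → ℂ)) R, H (H' x) = x := fun x hx =>
    h2 x (ball_subset_ball le2 hx)
  have he2' : ∀ y ∈ ball (0 : E' × (Fin m' → ℂ)) R, stb m' g y = stb m f (H' y) := by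
    intro y hy
    have hyR : ‖y‖ < R := by simpa using hy
    have h5 := lH2' y hy 0 (mem_ball_self hR0)
    rw [H0', sub_zero, sub_zero] at h5
    have h6 : ‖H' y‖ < r1 := by nlinarith
    have h7 := (h1 (H' y) (by rw [mem_ball_zero_iff]; exact h6)).2
    rw [h7, hr2' y hy]
  have df : ∀ x ∈ ball (0 : E) R, DifferentiableAt ℂ f x := fun x hx =>
    (h3 x (ball_subset_ball le3 hx)).differentiableAt
  have dg : ∀ x ∈ ball (0 : E') R, DifferentiableAt ℂ g x := fun x hx =>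
    (h4 x (ball_subset_ball le4 hx)).differentiableAt
  have hKK : K ≤ K ^ 2 := by nlinarith
  have hL1 : K ≤ (m + m' + 1) * K ^ 2 := by
    have : (0 : ℝ) ≤ (m + m') * K ^ 2 := by positivity
    linarith
  have hL2 : K ^ 2 ≤ (m + m' + 1) * K ^ 2 := by
    have : (0 : ℝ) ≤ (m + m') * K ^ 2 := by positivity
    linarith
  have hL3 : m * K ^ 2 ≤ (m + m' + 1) * K ^ 2 := by
    have : (0 : ℝ) ≤ (m' + 1) * K ^ 2 := by positivity
    linarith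
  have hL4 : m' * K ^ 2 ≤ (m + m' + 1) * K ^ 2 := by
    have : (0 : ℝ) ≤ (m + 1) * K ^ 2 := by positivity
    linarith
  have e1 : ((0 : E), (0 : Fin m → ℂ)) = 0 := rfl
  have e2 : ((0 : E'), (0 : Fin m' → ℂ)) = 0 := rfl
  refine ⟨fun x => (H (x, 0)).1, fun x => (H' (x, 0)).1, (m + m' + 1) * K ^ 2, R / (2 * K),
    ⟨hK.trans hL1, by positivity, ?_, ?_, ?_, ?_, ?_, ?_, ?_, ?_, ?_, ?_⟩⟩
  · simp only [e1, H0, Prod.fst_zero]
  · simp only [e2, H0', Prod.fst_zero]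
  · intro p hp q hq
    exact (A1_lip hK hR0 lH2 hp hq).trans (mul_le_mul_of_nonneg_right hL1 (norm_nonneg _))
  · intro p hp q hq
    exact (A1_lip hK hR0 lH2' hp hq).trans (mul_le_mul_of_nonneg_right hL1 (norm_nonneg _))
  · intro p hp
    exact (A1_half hK hR0 H0 lH2 lH2' hl2 he2 he2' df dg hp).1.trans
      (mul_le_mul_of_nonneg_right hL4 (by positivity))
  · intro p hp
    exact (A1_half hK hR0 H0' lH2' lH2 hr2' he2' he2 dg df hp).1.trans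
      (mul_le_mul_of_nonneg_right hL3 (by positivity))
  · intro p hp
    exact (A1_half hK hR0 H0 lH2 lH2' hl2 he2 he2' df dg hp).2.1.trans
      (mul_le_mul_of_nonneg_right hL1 (norm_nonneg _))
  · intro p hp
    exact (A1_half hK hR0 H0' lH2' lH2 hr2' he2' he2 dg df hp).2.1.trans
      (mul_le_mul_of_nonneg_right hL1 (norm_nonneg _))
  · intro p hp
    exact (A1_half hK hR0 H0 lH2 lH2' hl2 he2 he2' df dg hp).2.2.trans
      (mul_le_mul_of_nonneg_right hL2 (norm_nonneg _))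
  · intro p hp
    exact (A1_half hK hR0 H0' lH2' lH2 hr2' he2' he2 dg df hp).2.2.trans
      (mul_le_mul_of_nonneg_right hL2 (norm_nonneg _))

end H24.LS

end S_H24_LS_A1

section S_H24_LS_A4a

/-!
# A4a: the critical point of `z ↦ f (x, z)`

`fz p = fderiv ℂ f p (0,1)` is analytic at `0`, `fz 0 = 0`, `∂_z fz (0) = fderiv (fderiv f) 0 (0,1) (0,1) ≠ 0`.
Inverse function theorem for `Φ (x,z) = (x, fz (x,z))` over `ℂ` with smoothness `ω` (`AnalyticAt.contDiffAt`,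
`ContDiffAt.toOpenPartialHomeomorph`, `ContDiffAt.to_localInverse`; `E × ℂ` is complete): `ζ x = (Φ⁻¹ (x, 0)).2`.
-/

open Filter Topology Metric

namespace H24.LS

theorem impl_zero {E : Type*} [NormedAddCommGroup E] [NormedSpace ℂ E] [FiniteDimensional ℂ E]
    (f : E × ℂ → ℂ) (hf : AnalyticAt ℂ f 0) (f1 : fderiv ℂ f 0 = 0)
    (hz : fderiv ℂ (fderiv ℂ f) 0 (0, 1) (0, 1) ≠ 0) :
    ∃ ζ : E → ℂ, AnalyticAt ℂ ζ 0 ∧ ζ 0 = 0 ∧
      ∀ᶠ x in 𝓝 (0 : E), fderiv ℂ f (x, ζ x) (0, 1) = 0 := by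
  haveI : CompleteSpace E := FiniteDimensional.complete ℂ E
  haveI : CompleteSpace (E × ℂ) := inferInstance
  set fz : E × ℂ → ℂ := fun p => fderiv ℂ f p (0, 1) with hfz
  have hA1 : AnalyticAt ℂ (fderiv ℂ f) 0 := hf.fderiv
  have hA : AnalyticAt ℂ fz 0 :=
    ((ContinuousLinearMap.apply ℂ ℂ ((0 : E), (1 : ℂ))).analyticAt _).comp hA1
  have hfz0 : fz 0 = 0 := by simp [hfz, f1]
  -- derivative of fz
  have hD1 : HasFDerivAt (fderiv ℂ f) (fderiv ℂ (fderiv ℂ f) 0) 0 :=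
    hA1.differentiableAt.hasFDerivAt
  have hD : HasFDerivAt fz
      ((ContinuousLinearMap.apply ℂ ℂ ((0 : E), (1 : ℂ))).comp (fderiv ℂ (fderiv ℂ f) 0)) 0 :=
    ((ContinuousLinearMap.apply ℂ ℂ ((0 : E), (1 : ℂ))).hasFDerivAt).comp _ hD1
  set L : E × ℂ →L[ℂ] ℂ :=
    (ContinuousLinearMap.apply ℂ ℂ ((0 : E), (1 : ℂ))).comp (fderiv ℂ (fderiv ℂ f) 0) with hL
  have hLz : L (0, 1) ≠ 0 := by simpa [hL] using hz
  set a : ℂ := L (0, 1) with ha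
  have hLsplit : ∀ (x : E) (z : ℂ), L (x, z) = L (x, 0) + z * a := by
    intro x z
    have : ((x, z) : E × ℂ) = (x, 0) + z • ((0 : E), (1 : ℂ)) := by simp
    rw [this, map_add, map_smul, smul_eq_mul]
  -- the linear equivalence
  let T : (E × ℂ) ≃L[ℂ] (E × ℂ) := ContinuousLinearEquiv.equivOfInverse
    ((ContinuousLinearMap.fst ℂ E ℂ).prod L)
    ((ContinuousLinearMap.fst ℂ E ℂ).prod
      (a⁻¹ • (ContinuousLinearMap.snd ℂ E ℂ - L.comp ((ContinuousLinearMap.inl ℂ E ℂ).comp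
        (ContinuousLinearMap.fst ℂ E ℂ)))))
    (by
      rintro ⟨x, z⟩
      simp only [ContinuousLinearMap.prod_apply, ContinuousLinearMap.coe_fst',
        ContinuousLinearMap.smul_apply, ContinuousLinearMap.sub_apply,
        ContinuousLinearMap.coe_snd', ContinuousLinearMap.comp_apply,
        ContinuousLinearMap.inl_apply, smul_eq_mul]
      rw [hLsplit x z]
      ext
      · rfl
      · simp only [add_sub_cancel_left]
        field_simp)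
    (by
      rintro ⟨x, w⟩
      simp only [ContinuousLinearMap.prod_apply, ContinuousLinearMap.coe_fst',
        ContinuousLinearMap.smul_apply, ContinuousLinearMap.sub_apply,
        ContinuousLinearMap.coe_snd', ContinuousLinearMap.comp_apply,
        ContinuousLinearMap.inl_apply, smul_eq_mul]
      rw [hLsplit x _]
      ext
      · rfl
      · simp only
        field_simp
        ring)
  let Φ : E × ℂ → E × ℂ := fun p => (p.1, fz p)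
  have hΦA : AnalyticAt ℂ Φ 0 := analyticAt_fst.prod hA
  have hΦC : ContDiffAt ℂ (⊤ : WithTop ℕ∞) Φ 0 := hΦA.contDiffAt
  have hΦD : HasFDerivAt Φ (T : (E × ℂ) →L[ℂ] (E × ℂ)) 0 := by
    have : HasFDerivAt Φ ((ContinuousLinearMap.fst ℂ E ℂ).prod L) 0 :=
      hasFDerivAt_fst.prodMk hD
    exact this
  have hn : (⊤ : WithTop ℕ∞) ≠ 0 := by simp
  have hΦ0 : Φ 0 = 0 := by
    simp only [Φ, hfz0]; rfl
  set Ψ := hΦC.localInverse hΦD hn with hΨ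
  have hΨC : ContDiffAt ℂ (⊤ : WithTop ℕ∞) Ψ 0 := by
    have := hΦC.to_localInverse hΦD hn
    rwa [hΦ0] at this
  have hΨ0 : Ψ 0 = 0 := by
    have := hΦC.localInverse_apply_image hΦD hn
    rwa [hΦ0] at this
  have hright : ∀ᶠ y in 𝓝 (0 : E × ℂ), Φ (Ψ y) = y := by
    have := (hΦC.hasStrictFDerivAt' hΦD hn).eventually_right_inverse
    rw [hΦ0] at this
    exact this
  have hi : ContDiffAt ℂ (⊤ : WithTop ℕ∞) (fun x : E => ((x, 0) : E × ℂ)) 0 :=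
    contDiffAt_id.prodMk contDiffAt_const
  have hζC : ContDiffAt ℂ (⊤ : WithTop ℕ∞) (fun x : E => (Ψ (x, 0)).2) 0 := by
    have h1 : ContDiffAt ℂ (⊤ : WithTop ℕ∞) (Ψ ∘ fun x : E => ((x, 0) : E × ℂ)) 0 :=
      ContDiffAt.comp (0 : E) (by exact hΨC) hi
    exact h1.snd
  refine ⟨fun x => (Ψ (x, 0)).2, ?_, ?_, ?_⟩
  · exact hζC.analyticAt
  · show (Ψ ((0 : E), (0 : ℂ))).2 = 0
    have : ((0 : E), (0 : ℂ)) = (0 : E × ℂ) := rfl
    rw [this, hΨ0]; rfl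
  · have hcont : Tendsto (fun x : E => ((x, 0) : E × ℂ)) (𝓝 0) (𝓝 0) := by
      have : Continuous (fun x : E => ((x, 0) : E × ℂ)) := by fun_prop
      exact this.tendsto' 0 0 rfl
    filter_upwards [hcont.eventually hright] with x hx
    have h1 : (Ψ (x, 0)).1 = x := congrArg Prod.fst hx
    have h2 : fz (Ψ (x, 0)) = 0 := congrArg Prod.snd hx
    have h3 : ((x, (Ψ (x, 0)).2) : E × ℂ) = Ψ (x, 0) := by
      ext
      · exact h1.symm
      · rfl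
    rw [h3]
    exact h2

end H24.LS

end S_H24_LS_A4a

section S_H24_LS_A4c

/-!
# A4c: the reduced germ `g x = f (x, ζ x)`

* `g` is analytic at `0` (composition; `(0, ζ 0) = 0`), `g 0 = f 0 = 0`.
* `fderiv g x u = fderiv f (x, ζ x) (u, ζ' u) = fderiv f (x, ζ x) (u, 0)` for `x` near `0` (as `fderiv f (x, ζ x) (0,1) = 0`).  So
  `fderiv g 0 = 0`; and if `fderiv g x = 0` then `fderiv f (x, ζ x) = 0`, hence `(x, ζ x) = 0` by `iso` (for `x` near `0`), `x = 0`.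
* Hessian: let `B = fderiv (fderiv f) 0` (symmetric: `f` is analytic), `ζ' = fderiv ζ 0`.  Differentiating
  `fderiv f (x, ζ x) (0,1) = 0` at `0`: `B (v, ζ' v) (0,1) = 0`.  Differentiating `fderiv g x u = fderiv f (x, ζ x) (u, 0)`:
  `fderiv (fderiv g) 0 v u = B (v, ζ' v) (u, 0)`.
  So `v ∈ ker Hess g` iff `B (v, ζ' v) = 0`; and `(v, s) ∈ ker B` implies `B (0, s - ζ' v) (0,1) = 0`, so `s = ζ' v` by `hz`.  Hence
  `v ↦ (v, ζ' v)` is a linear equivalence of the kernels (`LinearEquiv.finrank_eq`).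
-/

open Filter Topology Metric

namespace H24.LS

theorem reduced_germ {E : Type*} [NormedAddCommGroup E] [NormedSpace ℂ E] [FiniteDimensional ℂ E]
    (f : E × ℂ → ℂ) (hf : Grm f)
    (hz : fderiv ℂ (fderiv ℂ f) 0 (0, 1) (0, 1) ≠ 0) (ζ : E → ℂ) (hζ : AnalyticAt ℂ ζ 0)
    (hζ0 : ζ 0 = 0) (hcr : ∀ᶠ x in 𝓝 (0 : E), fderiv ℂ f (x, ζ x) (0, 1) = 0) :
    Grm (fun x => f (x, ζ x)) ∧ crk (fun x => f (x, ζ x)) = crk f := by
  set j : E → E × ℂ := fun x => (x, ζ x) with hj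
  set g : E → ℂ := fun x => f (x, ζ x) with hg
  have hj0 : j 0 = 0 := by
    simp only [hj, hζ0]
    rfl
  have hjan : AnalyticAt ℂ j 0 := analyticAt_id.prod hζ
  have hfj : AnalyticAt ℂ f (j 0) := by rw [hj0]; exact hf.an
  have hgan : AnalyticAt ℂ g 0 := hfj.comp hjan
  have hjt : Tendsto j (𝓝 0) (𝓝 0) := by
    have := hjan.continuousAt.tendsto
    rwa [hj0] at this
  have e1 : ∀ᶠ x in 𝓝 (0:E), DifferentiableAt ℂ f (j x) :=
    hjt.eventually (hf.an.eventually_analyticAt.mono fun p hp => hp.differentiableAt)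
  have e2 : ∀ᶠ x in 𝓝 (0:E), DifferentiableAt ℂ ζ x :=
    hζ.eventually_analyticAt.mono fun p hp => hp.differentiableAt
  have hinl : ∀ (L : E × ℂ →L[ℂ] ℂ), L (0, 1) = 0 → ∀ u s, L (u, s) = L (u, 0) := by
    intro L hL u s
    have h1 : ((u, s) : E × ℂ) = (u, 0) + s • ((0 : E), (1:ℂ)) := by
      ext
      · simp
      · simp
    rw [h1, map_add, map_smul, hL, smul_zero, add_zero]
  have hev : ∀ᶠ x in 𝓝 (0:E), fderiv ℂ g x =
      (fderiv ℂ f (j x)).comp (ContinuousLinearMap.inl ℂ E ℂ) := by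
    filter_upwards [e1, e2, hcr] with x h1 h2 h3
    have h4 : HasFDerivAt j ((ContinuousLinearMap.id ℂ E).prod (fderiv ℂ ζ x)) x :=
      (hasFDerivAt_id x).prodMk h2.hasFDerivAt
    have h5 : HasFDerivAt g ((fderiv ℂ f (j x)).comp
        ((ContinuousLinearMap.id ℂ E).prod (fderiv ℂ ζ x))) x := h1.hasFDerivAt.comp x h4
    rw [h5.fderiv]
    ext u
    exact hinl _ h3 u _
  have hg1 : fderiv ℂ g 0 = 0 := by
    rw [hev.self_of_nhds, hj0, hf.f1, ContinuousLinearMap.zero_comp]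
  have hgrm : Grm g := by
    refine ⟨hgan, ?_, hg1, ?_⟩
    · have h1 : g 0 = f (j 0) := rfl
      rw [h1, hj0, hf.f0]
    · have h1 : Tendsto j (𝓝[≠] (0:E)) (𝓝[≠] (0:E × ℂ)) := by
        refine tendsto_nhdsWithin_iff.2 ⟨hjt.mono_left nhdsWithin_le_nhds, ?_⟩
        filter_upwards [self_mem_nhdsWithin] with x hx h0
        exact hx (congrArg Prod.fst h0)
      filter_upwards [h1.eventually hf.iso, nhdsWithin_le_nhds hev, nhdsWithin_le_nhds hcr]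
        with x h2 h3 h4 h5
      apply h2
      rw [h3] at h5
      ext p
      · have := congrArg (fun L : E →L[ℂ] ℂ => L p) h5
        exact this
      · simpa using h4
  refine ⟨hgrm, ?_⟩
  -- the Hessians
  set B := fderiv ℂ (fderiv ℂ f) 0 with hB
  set ζ' := fderiv ℂ ζ 0 with hζ'
  have hjd : HasFDerivAt j ((ContinuousLinearMap.id ℂ E).prod ζ') 0 :=
    (hasFDerivAt_id (0:E)).prodMk hζ.differentiableAt.hasFDerivAt
  have hfd : HasFDerivAt (fderiv ℂ f) B (j 0) := by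
    rw [hj0]
    exact hf.an.fderiv.differentiableAt.hasFDerivAt
  have hcomp : HasFDerivAt (fun x => fderiv ℂ f (j x))
      (B.comp ((ContinuousLinearMap.id ℂ E).prod ζ')) 0 := hfd.comp (0:E) hjd
  have hHess : ∀ v u, fderiv ℂ (fderiv ℂ g) 0 v u = B (v, ζ' v) (u, 0) := by
    intro v u
    have h1 : fderiv ℂ g =ᶠ[𝓝 0] fun x =>
        ((ContinuousLinearMap.compL ℂ E (E × ℂ) ℂ).flip (ContinuousLinearMap.inl ℂ E ℂ))
          (fderiv ℂ f (j x)) := hev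
    have h2 := ((ContinuousLinearMap.compL ℂ E (E × ℂ) ℂ).flip
      (ContinuousLinearMap.inl ℂ E ℂ)).hasFDerivAt.comp (0:E) hcomp
    rw [h1.fderiv_eq]
    have h3 : fderiv ℂ (fun x => ((ContinuousLinearMap.compL ℂ E (E × ℂ) ℂ).flip
        (ContinuousLinearMap.inl ℂ E ℂ)) (fderiv ℂ f (j x))) 0 = _ := h2.fderiv
    rw [h3]
    rfl
  have hB01 : ∀ v, B (v, ζ' v) (0, 1) = 0 := by
    intro v
    have h1 := (ContinuousLinearMap.apply ℂ ℂ ((0:E), (1:ℂ))).hasFDerivAt.comp (0:E) hcomp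
    have h2 : (fun x => fderiv ℂ f (j x) ((0:E), (1:ℂ))) =ᶠ[𝓝 0] fun _ => (0:ℂ) := hcr
    have h3 : HasFDerivAt (fun x => fderiv ℂ f (j x) ((0:E), (1:ℂ))) (0 : E →L[ℂ] ℂ) 0 :=
      (hasFDerivAt_const (0:ℂ) (0:E)).congr_of_eventuallyEq h2
    have h4 := h1.unique h3
    exact congrArg (fun L : E →L[ℂ] ℂ => L v) h4
  have hker : ∀ v, fderiv ℂ (fderiv ℂ g) 0 v = 0 ↔ B (v, ζ' v) = 0 := by
    intro v
    constructor
    · intro h
      ext p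
      · have h1 := hHess v p
        rw [h] at h1
        exact h1.symm
      · simpa using hB01 v
    · intro h
      ext u
      rw [hHess, h]
      rfl
  have hker2 : ∀ v s, B (v, s) = 0 → s = ζ' v := by
    intro v s h
    have h1 : ((v, s) : E × ℂ) = (v, ζ' v) + (s - ζ' v) • ((0:E), (1:ℂ)) := by
      ext
      · simp
      · simp
    have h2 := congrArg (fun L : E × ℂ →L[ℂ] ℂ => L (0, 1)) h
    rw [h1] at h2
    simp only [map_add, map_smul, add_apply, smul_apply, hB01, zero_add, smul_eq_mul, zero_apply]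
      at h2
    exact sub_eq_zero.1 ((mul_eq_zero.1 h2).resolve_right hz)
  unfold crk
  refine LinearEquiv.finrank_eq
    { toFun := fun v => ⟨((v : E), ζ' v), (hker v).1 v.2⟩
      map_add' := fun v w => Subtype.ext (by
        ext
        · rfl
        · exact map_add ζ' _ _)
      map_smul' := fun c v => Subtype.ext (by
        ext
        · rfl
        · exact map_smul ζ' _ _)
      invFun := fun q => ⟨q.1.1, by
        have h1 : B q.1 = 0 := q.2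
        have h2 := hker2 q.1.1 q.1.2 h1
        refine (hker _).2 ?_
        rw [← h2]
        exact h1⟩
      left_inv := fun v => rfl
      right_inv := fun q => Subtype.ext (by
        have h1 : B q.1 = 0 := q.2
        have h2 := hker2 q.1.1 q.1.2 h1
        ext
        · rfl
        · exact h2.symm) }

end H24.LS

end S_H24_LS_A4c

section S_H24_LS_A4

/-!
# A4: splitting off one variable

`ζ` from `impl_zero`, `g x = f (x, ζ x)`, `S` from `square_part`; `h (x,z) = (x, S (x,z))` is strictly differentiable at `0` with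
invertible derivative `(u,s) ↦ (u, S' (u,s))` (`S' (0,1) ≠ 0`); `f = (g p.1 + p.2^2) ∘ h`; `lip_of_strict` (restrict scalars to `ℝ`).
-/

open Filter Topology Metric

namespace H24.LS

theorem split_one {E : Type*} [NormedAddCommGroup E] [NormedSpace ℂ E] [FiniteDimensional ℂ E]
    (f : E × ℂ → ℂ) (hf : Grm f) (hz : fderiv ℂ (fderiv ℂ f) 0 (0, 1) (0, 1) ≠ 0) :
    ∃ g : E → ℂ, Grm g ∧ crk g = crk f ∧ LipEquiv f (fun p : E × ℂ => g p.1 + p.2 ^ 2) := by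
  obtain ⟨ζ, hζ, hζ0, hcr⟩ := impl_zero f hf.an hf.f1 hz
  obtain ⟨h1, h2⟩ := reduced_germ f hf hz ζ hζ hζ0 hcr
  obtain ⟨S, S', hS, hS0, hS1, hfS⟩ := square_part f hf.an hz ζ hζ hζ0 hcr
  refine ⟨fun x => f (x, ζ x), h1, h2, ?_⟩
  have : CompleteSpace E := FiniteDimensional.complete ℂ E
  set c : ℂ := S' (0, 1) with hc
  let A : E × ℂ →L[ℂ] E × ℂ := (ContinuousLinearMap.fst ℂ E ℂ).prod S'
  let B : E × ℂ →L[ℂ] E × ℂ := (ContinuousLinearMap.fst ℂ E ℂ).prod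
    (c⁻¹ • (ContinuousLinearMap.snd ℂ E ℂ -
      S'.comp ((ContinuousLinearMap.inl ℂ E ℂ).comp (ContinuousLinearMap.fst ℂ E ℂ))))
  have hsplit : ∀ (u : E) (s : ℂ), S' (u, s) = S' (u, 0) + s * c := by
    intro u s
    have : ((u, s) : E × ℂ) = (u, 0) + s • (0, 1) := by
      ext <;> simp
    rw [this, map_add, map_smul, smul_eq_mul]
  have hl : Function.LeftInverse B A := by
    rintro ⟨u, s⟩
    show (u, c⁻¹ * (S' (u, s) - S' (u, 0))) = (u, s)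
    rw [hsplit u s]
    congr 1
    field_simp
    ring
  have hr : Function.RightInverse B A := by
    rintro ⟨u, t⟩
    show (u, S' (u, c⁻¹ * (t - S' (u, 0)))) = (u, t)
    rw [hsplit u (c⁻¹ * (t - S' (u, 0)))]
    congr 1
    field_simp
    ring
  let e : (E × ℂ) ≃L[ℂ] (E × ℂ) := ContinuousLinearEquiv.equivOfInverse A B hl hr
  have hd : HasStrictFDerivAt (fun p : E × ℂ => (p.1, S p)) A 0 :=
    hasStrictFDerivAt_fst.prodMk hS
  have hd' : HasStrictFDerivAt (fun p : E × ℂ => (p.1, S p))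
      ((e.restrictScalars ℝ : (E × ℂ) ≃L[ℝ] (E × ℂ)) : E × ℂ →L[ℝ] E × ℂ) 0 :=
    hd.restrictScalars ℝ
  refine lip_of_strict (fun p : E × ℂ => (p.1, S p)) (e.restrictScalars ℝ) hd' ?_ f _ ?_
  · show ((0 : E × ℂ).1, S 0) = 0
    rw [hS0]
    rfl
  · filter_upwards [hfS] with p hp
    exact hp

end H24.LS

end S_H24_LS_A4

section S_H24_LS_A5

/-!
# A5: the splitting lemma

Induction on `n`.
* If `fderiv (fderiv f) 0 = 0` (in particular if `n = 0`): `c = n`, `d = 0`, `g = f` (`crk f = n`; `f ~ stb 0 f` by the linear equivalence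
  `x ↦ (x, 0)`).
* Otherwise `n = n' + 1`: `v` from `exists_nonisotropic`, `e` from `exists_equiv`, `f' = f ∘ e` on `(Fin n' → ℂ) × ℂ`, `Grm f'`, `crk f' = crk f`,
  `fderiv (fderiv f') 0 (0,1) (0,1) = B v v ≠ 0` (`hess_comp`).  `split_one`: `f' ~ g' + z^2`, `g'` on `Fin n' → ℂ`, `crk g' = crk f`.
  Induction: `g' ~ stb d' g`, `c + d' = n'`.  So `f ~ f' ~ g' + z^2 ~ stb d' g + z^2 ~ stb (d'+1) g` (`lip_add`, `lip_stb_stb` with
  `m = 1`, `Fin 1 → ℂ ≃ ℂ`).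
-/

open Filter Topology Metric

namespace H24.LS

theorem A5_zero {E : Type*} [NormedAddCommGroup E] (f : E → ℂ) : LipEquiv f (stb 0 f) := by
  refine ⟨fun x => (x, 0), fun p => p.1, 1, 1, one_pos, rfl, rfl, fun x _ y _ => ?_,
    fun p _ q _ => ?_, Eventually.of_forall fun _ => rfl, Eventually.of_forall fun p => ?_,
    Eventually.of_forall fun x => ?_⟩
  · rw [Prod.mk_sub_mk, sub_zero, Prod.norm_def, one_mul]
    refine max_le le_rfl ?_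
    show ‖(0 : Fin 0 → ℂ)‖ ≤ _
    rw [norm_zero]
    exact norm_nonneg _
  · rw [one_mul]
    exact norm_fst_le (p - q)
  · exact Prod.ext rfl (Subsingleton.elim _ _)
  · simp [stb]

theorem A5_one {E : Type*} [NormedAddCommGroup E] (f : E → ℂ) :
    LipEquiv (fun p : E × ℂ => f p.1 + p.2 ^ 2) (stb 1 f) := by
  refine ⟨fun p => (p.1, fun _ => p.2), fun q => (q.1, q.2 0), 1, 1, one_pos, rfl, rfl,
    fun p _ q _ => ?_, fun p _ q _ => ?_, Eventually.of_forall fun _ => rfl,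
    Eventually.of_forall fun q => ?_, Eventually.of_forall fun p => ?_⟩
  · rw [Prod.mk_sub_mk, Prod.norm_def, one_mul]
    refine max_le (norm_fst_le (p - q)) ?_
    rw [pi_norm_le_iff_of_nonneg (norm_nonneg _)]
    intro i
    exact norm_snd_le (p - q)
  · rw [Prod.mk_sub_mk, Prod.norm_def, one_mul]
    refine max_le (norm_fst_le (p - q)) ?_
    exact (norm_le_pi_norm (p.2 - q.2) 0).trans (norm_snd_le (p - q))
  · refine Prod.ext rfl (funext fun i => ?_)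
    rw [Subsingleton.elim i 0]
  · simp [stb]

theorem split_full (n : ℕ) : ∀ f : (Fin n → ℂ) → ℂ, Grm f →
    ∃ (c d : ℕ) (g : (Fin c → ℂ) → ℂ), c + d = n ∧ c = crk f ∧ Grm g ∧
      fderiv ℂ (fderiv ℂ g) 0 = 0 ∧ LipEquiv f (stb d g) := by
  induction n with
  | zero =>
    intro f hf
    have h : fderiv ℂ (fderiv ℂ f) 0 = 0 := by
      refine ContinuousLinearMap.ext fun u => ?_
      rw [Subsingleton.elim u 0, map_zero, map_zero]
    refine ⟨0, 0, f, rfl, ?_, hf, h, A5_zero f⟩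
    unfold crk
    exact (Module.finrank_zero_of_subsingleton).symm
  | succ n ih =>
    intro f hf
    by_cases h : fderiv ℂ (fderiv ℂ f) 0 = 0
    · refine ⟨n + 1, 0, f, rfl, ?_, hf, h, A5_zero f⟩
      unfold crk
      rw [h]
      have h1 : LinearMap.ker
          (0 : (Fin (n + 1) → ℂ) →L[ℂ] (Fin (n + 1) → ℂ) →L[ℂ] ℂ).toLinearMap = ⊤ := by
        ext x
        simp
      rw [h1, finrank_top]
      simp
    · obtain ⟨v, hv⟩ := exists_nonisotropic f hf.an h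
      have hv0 : v ≠ 0 := by
        rintro rfl
        exact hv (by simp)
      obtain ⟨e, he⟩ := exists_equiv n v hv0
      obtain ⟨k1, k2⟩ := grm_comp f hf e
      have k3 : fderiv ℂ (fderiv ℂ (fun x => f (e x))) 0 (0, 1) (0, 1) ≠ 0 := by
        rw [hess_comp f hf.an e, he]
        exact hv
      obtain ⟨g', hg1, hg2, hg3⟩ := split_one (fun x => f (e x)) k1 k3
      obtain ⟨c, d, g, h1, h2, h3, h4, h5⟩ := ih g' hg1
      refine ⟨c, d + 1, g, by omega, by rw [h2, hg2, k2], h3, h4, ?_⟩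
      let e' : (Fin (n + 1) → ℂ) ≃L[ℝ] ((Fin n → ℂ) × ℂ) :=
        { toLinearEquiv := e.symm.toLinearEquiv.restrictScalars ℝ
          continuous_toFun := e.symm.continuous
          continuous_invFun := e.continuous }
      have l0 : ∀ x, f x = (fun x : (Fin n → ℂ) × ℂ => f (e x)) (e' x) := fun x => by
        show f x = f (e (e.symm x))
        rw [e.apply_symm_apply]
      have l1 : LipEquiv f (fun x : (Fin n → ℂ) × ℂ => f (e x)) := by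
        apply lip_of_linear e'
        exact l0
      have l2 := lip_add h5 (fun z : ℂ => z ^ 2)
      exact lip_trans (lip_trans (lip_trans (lip_trans l1 hg3) l2) (A5_one (stb d g)))
        (lip_stb_stb g d 1)

end H24.LS

end S_H24_LS_A5

section S_H24_LS_A6a

/-!
# A6a: one variable

* `one_form`: `f` is analytic at `0`, not identically `0` near `0` (isolated critical point), `f 0 = 0`, so `f x = x^a φ(x)`, `φ 0 ≠ 0`, `a ≥ 1`
  (`AnalyticAt.exists_eventuallyEq_pow_smul_nonzero_iff`), `a ≥ 3` as the first two derivatives vanish.  `h x = x s φ(x)^{1/a}`-like: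
  `h x = x * s * (φ x/φ 0)^{1/a}`, `s^a = φ 0`, strictly differentiable at `0` with derivative `s ≠ 0`, `f x = (h x)^a`; so `f ~ x^a`
  (`lip_of_strict`).  `f' x = x^(a-1) (a φ + x φ')`: `c1 ‖x‖^(a-1) ≤ ‖f' x‖ ≤ c2 ‖x‖^(a-1)` near `0`.
* `one_dim`: for `a, b` of `f, g`: `fderiv f` has small Lipschitz constant near `0` (it is analytic with derivative `0` at `0`), so
  `‖fderiv f x‖ ≤ ‖fderiv f (B (A x))‖ + ε ‖B (A x) - x‖ ≤ L ‖fderiv g (A x)‖ + ε L ‖fderiv f x‖`, `‖fderiv f x‖ ≤ 2 L ‖fderiv g (A x)‖`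
  `≤ C ‖A x‖^(b-1) ≤ C' ‖x‖^(b-1)`, hence `a - 1 ≥ b - 1`.  Symmetric (`coarse_symm` in R0a/R0): `a = b`.  `f ~ x^a ~ g`.
-/

open Filter Topology Metric

namespace H24.LS

/-- the factorisation `f x = x^a φ x` and its derivative -/
theorem A6a_factor (f : ℂ → ℂ) (hf : Grm f) (f2 : fderiv ℂ (fderiv ℂ f) 0 = 0) :
    ∃ (a : ℕ) (φ : ℂ → ℂ), 3 ≤ a ∧ AnalyticAt ℂ φ 0 ∧ φ 0 ≠ 0 ∧
      (∀ᶠ x in 𝓝 (0 : ℂ), f x = x ^ a * φ x) ∧
      (∀ᶠ x in 𝓝 (0 : ℂ), deriv f x = x ^ (a - 1) * (a * φ x + x * deriv φ x)) := by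
  have hnz : ¬ ∀ᶠ x in 𝓝 (0 : ℂ), f x = 0 := by
    intro h0
    have h1 : ∀ᶠ x in 𝓝 (0 : ℂ), fderiv ℂ f x = 0 := by
      filter_upwards [h0.eventually_nhds] with x hx
      have : f =ᶠ[𝓝 x] fun _ => (0 : ℂ) := hx
      rw [this.fderiv_eq]
      simp
    have h2 : ∀ᶠ x in 𝓝[≠] (0 : ℂ), False := by
      filter_upwards [hf.iso, h1.filter_mono nhdsWithin_le_nhds] with x hx hx'
      exact hx hx'
    exact (h2.exists).elim fun _ h => h
  obtain ⟨n, φ, hφ, hφ0, hfφ⟩ := hf.an.exists_eventuallyEq_pow_smul_nonzero_iff.mpr hnz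
  have hfφ' : ∀ᶠ x in 𝓝 (0 : ℂ), f x = x ^ n * φ x := by
    filter_upwards [hfφ] with x hx
    rw [hx]; simp
  have hn0 : n ≠ 0 := by
    rintro rfl
    have := hfφ'.self_of_nhds
    rw [hf.f0] at this
    simp at this
    first | exact hφ0 this | exact hφ0 this.symm
  have hder : ∀ᶠ x in 𝓝 (0 : ℂ), deriv f x = x ^ (n - 1) * (n * φ x + x * deriv φ x) := by
    filter_upwards [hfφ'.eventually_nhds, hφ.eventually_analyticAt] with x hx hφx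
    have e : f =ᶠ[𝓝 x] fun x => x ^ n * φ x := hx
    rw [e.deriv_eq]
    have h1 : HasDerivAt (fun x : ℂ => x ^ n * φ x)
        ((n : ℂ) * x ^ (n - 1) * φ x + x ^ n * deriv φ x) x :=
      (hasDerivAt_pow n x).mul hφx.differentiableAt.hasDerivAt
    rw [h1.deriv]
    obtain ⟨m, rfl⟩ := Nat.exists_eq_succ_of_ne_zero hn0
    simp only [Nat.succ_eq_add_one, Nat.add_sub_cancel]
    ring
  have hd0 : deriv f 0 = 0 := by
    have : deriv f 0 = fderiv ℂ f 0 1 := rfl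
    rw [this, hf.f1]; rfl
  have hdd0 : deriv (deriv f) 0 = 0 := by
    have hdiff : DifferentiableAt ℂ (fderiv ℂ f) 0 := hf.an.fderiv.differentiableAt
    have h1 : HasFDerivAt (fderiv ℂ f) (fderiv ℂ (fderiv ℂ f) 0) 0 := hdiff.hasFDerivAt
    rw [f2] at h1
    have h2 : HasFDerivAt (fun x => fderiv ℂ f x 1)
        ((ContinuousLinearMap.apply ℂ ℂ (1 : ℂ)).comp (0 : ℂ →L[ℂ] (ℂ →L[ℂ] ℂ))) 0 :=
      (ContinuousLinearMap.apply ℂ ℂ (1 : ℂ)).hasFDerivAt.comp (0 : ℂ) h1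
    have h3 := h2.hasDerivAt
    have h4 : (fun x => fderiv ℂ f x 1) = deriv f := by
      funext x; rfl
    rw [h4] at h3
    rw [h3.deriv]
    simp
  have hn1 : n ≠ 1 := by
    rintro rfl
    have := hder.self_of_nhds
    rw [hd0] at this
    simp at this
    first | exact hφ0 this | exact hφ0 this.symm
  have hn2 : n ≠ 2 := by
    rintro rfl
    have e : deriv f =ᶠ[𝓝 0] fun x => x * ((2 : ℂ) * φ x + x * deriv φ x) := by
      filter_upwards [hder] with x hx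
      rw [hx]; norm_num
    have hdφ : DifferentiableAt ℂ (deriv φ) 0 := hφ.deriv.differentiableAt
    have h1 : HasDerivAt (fun x : ℂ => x * ((2 : ℂ) * φ x + x * deriv φ x))
        (1 * ((2 : ℂ) * φ 0 + 0 * deriv φ 0) +
          0 * (2 * deriv φ 0 + (1 * deriv φ 0 + 0 * deriv (deriv φ) 0))) 0 := by
      have ha : HasDerivAt (fun x : ℂ => (2 : ℂ) * φ x) (2 * deriv φ 0) 0 :=
        hφ.differentiableAt.hasDerivAt.const_mul 2
      have hb : HasDerivAt (fun x : ℂ => x * deriv φ x)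
          (1 * deriv φ 0 + 0 * deriv (deriv φ) 0) 0 :=
        (hasDerivAt_id (0 : ℂ)).mul hdφ.hasDerivAt
      exact (hasDerivAt_id (0 : ℂ)).mul (ha.add hb)
    have h2 := e.deriv_eq
    rw [hdd0, h1.deriv] at h2
    simp at h2
    first | exact hφ0 h2 | exact hφ0 h2.symm
  exact ⟨n, φ, by omega, hφ, hφ0, hfφ', hder⟩

theorem one_form (f : ℂ → ℂ) (hf : Grm f) (f2 : fderiv ℂ (fderiv ℂ f) 0 = 0) :
    ∃ a : ℕ, 3 ≤ a ∧ LipEquiv f (fun x : ℂ => x ^ a) ∧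
      ∃ c1 > (0 : ℝ), ∃ c2 > (0 : ℝ), ∀ᶠ x in 𝓝 (0 : ℂ),
        c1 * ‖x‖ ^ (a - 1) ≤ ‖fderiv ℂ f x‖ ∧ ‖fderiv ℂ f x‖ ≤ c2 * ‖x‖ ^ (a - 1) := by
  obtain ⟨a, φ, ha, hφ, hφ0, hfφ, hder⟩ := A6a_factor f hf f2
  have ha0 : a ≠ 0 := by omega
  have haC : (a : ℂ) ≠ 0 := by exact_mod_cast ha0
  refine ⟨a, ha, ?_, ?_⟩
  · obtain ⟨s, hs⟩ : ∃ s : ℂ, s ^ a = φ 0 := IsAlgClosed.exists_pow_nat_eq (φ 0) (by omega)
    have hs0 : s ≠ 0 := by
      rintro rfl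
      rw [zero_pow ha0] at hs
      exact hφ0 hs.symm
    set u : ℂ → ℂ := fun x => (φ x / φ 0) ^ ((a : ℂ)⁻¹) with hu
    have hu0 : u 0 = 1 := by
      simp only [hu]
      rw [div_self hφ0, Complex.one_cpow]
    have huan : AnalyticAt ℂ u 0 := by
      have h1 : AnalyticAt ℂ (fun x => φ x / φ 0) 0 := hφ.div analyticAt_const hφ0
      refine h1.cpow analyticAt_const ?_
      rw [div_self hφ0]
      exact Complex.one_mem_slitPlane
    have hupow : ∀ x, u x ^ a = φ x / φ 0 := fun x => Complex.cpow_nat_inv_pow _ ha0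
    have hstr : HasStrictDerivAt (fun x : ℂ => x * (s * u x)) (1 * (s * u 0) + 0 * (s * deriv u 0)) 0 := by
      have h1 : HasStrictDerivAt u (deriv u 0) 0 := huan.hasStrictDerivAt
      exact (hasStrictDerivAt_id (0 : ℂ)).mul (h1.const_mul s)
    have hstr' : HasStrictDerivAt (fun x : ℂ => x * (s * u x)) s 0 := by
      convert hstr using 1
      rw [hu0]; ring
    let e : ℂ ≃L[ℂ] ℂ := ContinuousLinearEquiv.unitsEquivAut ℂ (Units.mk0 s hs0)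
    let e' : ℂ ≃L[ℝ] ℂ := e.restrictScalars ℝ
    have hstr2 : HasStrictFDerivAt (fun x : ℂ => x * (s * u x)) (e' : ℂ →L[ℝ] ℂ) 0 := by
      have h1 : HasStrictFDerivAt (fun x : ℂ => x * (s * u x)) (e : ℂ →L[ℂ] ℂ) 0 := by
        have h2 := hstr'.hasStrictFDerivAt
        have h3 : (e : ℂ →L[ℂ] ℂ) = ContinuousLinearMap.toSpanSingleton ℂ s := by
          ext
          simp [e]
        rw [h3]
        exact h2
      exact h1.restrictScalars ℝ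
    refine lip_of_strict (fun x : ℂ => x * (s * u x)) e' hstr2 (by simp) f (fun x : ℂ => x ^ a) ?_
    filter_upwards [hfφ] with x hx
    rw [hx, mul_pow, mul_pow, hs, hupow]
    field_simp
  · have hcont : ContinuousAt (fun x : ℂ => ‖(a : ℂ) * φ x + x * deriv φ x‖) 0 := by
      have h1 : ContinuousAt (deriv φ) 0 := hφ.deriv.continuousAt
      exact ((continuousAt_const.mul hφ.continuousAt).add (continuousAt_id.mul h1)).norm
    have hv : 0 < ‖(a : ℂ) * φ 0 + 0 * deriv φ 0‖ := by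
      rw [zero_mul, add_zero]
      exact norm_pos_iff.mpr (mul_ne_zero haC hφ0)
    set v : ℝ := ‖(a : ℂ) * φ 0 + 0 * deriv φ 0‖ with hvdef
    refine ⟨v / 2, by positivity, 2 * v, by positivity, ?_⟩
    have h1 : ∀ᶠ x in 𝓝 (0 : ℂ), v / 2 < ‖(a : ℂ) * φ x + x * deriv φ x‖ :=
      hcont.eventually (lt_mem_nhds (by simpa [hvdef] using half_lt_self hv))
    have h2 : ∀ᶠ x in 𝓝 (0 : ℂ), ‖(a : ℂ) * φ x + x * deriv φ x‖ < 2 * v :=
      hcont.eventually (gt_mem_nhds (by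
        have : v < 2 * v := by linarith
        simpa [hvdef] using this))
    filter_upwards [hder, h1, h2] with x hx hx1 hx2
    rw [← norm_deriv_eq_norm_fderiv, hx, norm_mul, norm_pow]
    have hp : 0 ≤ ‖x‖ ^ (a - 1) := by positivity
    constructor
    · rw [mul_comm]
      exact mul_le_mul_of_nonneg_left hx1.le hp
    · rw [mul_comm (2 * v)]
      exact mul_le_mul_of_nonneg_left hx2.le hp

/-- exponent comparison -/
theorem A6a_le (f g : ℂ → ℂ) (hf : Grm f) (f2 : fderiv ℂ (fderiv ℂ f) 0 = 0)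
    {A B : ℂ → ℂ} {L ρ : ℝ} (h : Coarse f g A B L ρ) {a b : ℕ} (ha : 3 ≤ a) (hb : 3 ≤ b)
    {c1 c2 : ℝ} (hc1 : 0 < c1) (hc2 : 0 < c2)
    (h1 : ∀ᶠ x in 𝓝 (0 : ℂ), c1 * ‖x‖ ^ (a - 1) ≤ ‖fderiv ℂ f x‖)
    (h2 : ∀ᶠ x in 𝓝 (0 : ℂ), ‖fderiv ℂ g x‖ ≤ c2 * ‖x‖ ^ (b - 1)) : b ≤ a := by
  by_contra hlt
  rw [not_le] at hlt
  have hL := h.hL
  have hL0 : 0 < L := lt_of_lt_of_le one_pos hL
  have hρ := h.hρ
  -- small Lipschitz constant
  have hstr : HasStrictFDerivAt (fderiv ℂ f) (0 : ℂ →L[ℂ] (ℂ →L[ℂ] ℂ)) 0 := by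
    have := hf.an.fderiv.hasStrictFDerivAt
    rwa [f2] at this
  have hε : (0 : NNReal) < ⟨1 / (2 * L), by positivity⟩ := by
    rw [← NNReal.coe_pos]
    show (0 : ℝ) < 1 / (2 * L)
    positivity
  have hlip : ∃ δ > (0 : ℝ), ∀ x ∈ ball (0 : ℂ) δ, ∀ y ∈ ball (0 : ℂ) δ,
      ‖fderiv ℂ f x - fderiv ℂ f y‖ ≤ 1 / (2 * L) * ‖x - y‖ := by
    obtain ⟨s, hs, hsl⟩ := hstr.approximates_deriv_on_nhds (c := ⟨1 / (2 * L), by positivity⟩) (Or.inr hε)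
    obtain ⟨δ, hδ, hδs⟩ := Metric.mem_nhds_iff.mp hs
    refine ⟨δ, hδ, fun x hx y hy => ?_⟩
    have := hsl x (hδs hx) y (hδs hy)
    rw [zero_apply, sub_zero] at this
    exact this
  obtain ⟨δ, hδ, hlip⟩ := hlip
  obtain ⟨r1, hr1, h1'⟩ := Metric.eventually_nhds_iff.mp h1
  obtain ⟨r2, hr2, h2'⟩ := Metric.eventually_nhds_iff.mp h2
  -- the inequality c1 ‖x‖^(a-1) ≤ C ‖x‖^(b-1)
  have key : ∀ x : ℂ, ‖x‖ < ρ → ‖x‖ < ρ / L → ‖x‖ < δ → ‖x‖ < δ / (L * L) → ‖x‖ < r1 →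
      ‖x‖ < r2 / L → c1 * ‖x‖ ^ (a - 1) ≤ 2 * L * (c2 * (L * ‖x‖) ^ (b - 1)) := by
    intro x x1 x2 x3 x4 x5 x6
    have mx : x ∈ ball (0 : ℂ) ρ := by simpa using x1
    have m0 : (0 : ℂ) ∈ ball (0 : ℂ) ρ := by simpa using hρ
    have hA : ‖A x‖ ≤ L * ‖x‖ := by
      have := h.lipA x mx 0 m0
      simpa [h.A0] using this
    have mA : A x ∈ ball (0 : ℂ) ρ := by
      rw [mem_ball_zero_iff]
      refine lt_of_le_of_lt hA ?_
      rw [lt_div_iff₀ hL0] at x2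
      linarith
    have hB : ‖B (A x)‖ ≤ L * (L * ‖x‖) := by
      have := h.lipB (A x) mA 0 m0
      simp only [h.B0, sub_zero] at this
      exact this.trans (mul_le_mul_of_nonneg_left hA hL0.le)
    have mB : B (A x) ∈ ball (0 : ℂ) δ := by
      rw [mem_ball_zero_iff]
      refine lt_of_le_of_lt hB ?_
      rw [lt_div_iff₀ (by positivity)] at x4
      nlinarith
    have mx' : x ∈ ball (0 : ℂ) δ := by simpa using x3
    have e1 := hlip x mx' (B (A x)) mB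
    have e2 := h.BA x mx
    have e3 := h.dB (A x) mA
    have e4 : ‖fderiv ℂ f x‖ ≤ ‖fderiv ℂ f (B (A x))‖ + ‖fderiv ℂ f x - fderiv ℂ f (B (A x))‖ := by
      have := norm_add_le (fderiv ℂ f (B (A x))) (fderiv ℂ f x - fderiv ℂ f (B (A x)))
      rwa [add_sub_cancel] at this
    have e5 : ‖x - B (A x)‖ ≤ L * ‖fderiv ℂ f x‖ := by
      rw [norm_sub_rev]; exact e2
    have e6 : 1 / (2 * L) * ‖x - B (A x)‖ ≤ ‖fderiv ℂ f x‖ / 2 := by
      calc 1 / (2 * L) * ‖x - B (A x)‖ ≤ 1 / (2 * L) * (L * ‖fderiv ℂ f x‖) :=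
            mul_le_mul_of_nonneg_left e5 (by positivity)
        _ = ‖fderiv ℂ f x‖ / 2 := by field_simp
    have e7 : ‖fderiv ℂ f x‖ ≤ 2 * (L * ‖fderiv ℂ g (A x)‖) := by linarith
    have e8 : ‖fderiv ℂ g (A x)‖ ≤ c2 * ‖A x‖ ^ (b - 1) := by
      apply h2'
      rw [dist_zero_right]
      refine lt_of_le_of_lt hA ?_
      rw [lt_div_iff₀ hL0] at x6
      linarith
    have e9 : ‖A x‖ ^ (b - 1) ≤ (L * ‖x‖) ^ (b - 1) :=
      pow_le_pow_left₀ (norm_nonneg _) hA _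
    have e10 : c1 * ‖x‖ ^ (a - 1) ≤ ‖fderiv ℂ f x‖ := h1' (by rw [dist_zero_right]; exact x5)
    calc c1 * ‖x‖ ^ (a - 1) ≤ ‖fderiv ℂ f x‖ := e10
      _ ≤ 2 * (L * ‖fderiv ℂ g (A x)‖) := e7
      _ ≤ 2 * (L * (c2 * (L * ‖x‖) ^ (b - 1))) := by
        have := mul_le_mul_of_nonneg_left e9 hc2.le
        have := e8.trans this
        gcongr
      _ = _ := by ring
  set D : ℝ := 2 * L * (c2 * L ^ (b - 1)) with hD
  have hDpos : 0 < D := by positivity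
  -- pick a small real x
  set t : ℝ := min (min (min (ρ / 2) (ρ / L / 2)) (min (δ / 2) (δ / (L * L) / 2)))
      (min (min (r1 / 2) (r2 / L / 2)) (min (1 / 2) (c1 / D / 2))) with ht
  have htpos : 0 < t := by
    rw [ht]
    refine lt_min (lt_min (lt_min ?_ ?_) (lt_min ?_ ?_)) (lt_min (lt_min ?_ ?_) (lt_min ?_ ?_)) <;>
      positivity
  have t1 : t ≤ ρ / 2 := by
    rw [ht]; exact (min_le_left _ _).trans ((min_le_left _ _).trans (min_le_left _ _))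
  have t2 : t ≤ ρ / L / 2 := by
    rw [ht]; exact (min_le_left _ _).trans ((min_le_left _ _).trans (min_le_right _ _))
  have t3 : t ≤ δ / 2 := by
    rw [ht]; exact (min_le_left _ _).trans ((min_le_right _ _).trans (min_le_left _ _))
  have t4 : t ≤ δ / (L * L) / 2 := by
    rw [ht]; exact (min_le_left _ _).trans ((min_le_right _ _).trans (min_le_right _ _))
  have t5 : t ≤ r1 / 2 := by
    rw [ht]; exact (min_le_right _ _).trans ((min_le_left _ _).trans (min_le_left _ _))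
  have t6 : t ≤ r2 / L / 2 := by
    rw [ht]; exact (min_le_right _ _).trans ((min_le_left _ _).trans (min_le_right _ _))
  have t7 : t ≤ 1 / 2 := by
    rw [ht]; exact (min_le_right _ _).trans ((min_le_right _ _).trans (min_le_left _ _))
  have t8 : t ≤ c1 / D / 2 := by
    rw [ht]; exact (min_le_right _ _).trans ((min_le_right _ _).trans (min_le_right _ _))
  have p2 : 0 < ρ / L := by positivity
  have p4 : 0 < δ / (L * L) := by positivity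
  have p6 : 0 < r2 / L := by positivity
  have p8 : 0 < c1 / D := by positivity
  have hk := key (t : ℂ)
  have hnt : ‖(t : ℂ)‖ = t := by simp [abs_of_pos htpos]
  rw [hnt] at hk
  have hk' := hk (by linarith) (by linarith) (by linarith) (by linarith) (by linarith) (by linarith)
  have e1 : 2 * L * (c2 * (L * t) ^ (b - 1)) = D * t ^ (b - 1) := by
    rw [hD, mul_pow]; ring
  rw [e1] at hk'
  obtain ⟨k, hkk⟩ : ∃ k, b - 1 = (a - 1) + (k + 1) := ⟨b - a - 1, by omega⟩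
  rw [hkk, pow_add] at hk'
  have hpa : 0 < t ^ (a - 1) := by positivity
  have e2 : c1 ≤ D * t ^ (k + 1) := by
    have : c1 * t ^ (a - 1) ≤ (D * t ^ (k + 1)) * t ^ (a - 1) := by
      calc _ ≤ _ := hk'
        _ = _ := by ring
    exact le_of_mul_le_mul_right this hpa
  have e3 : t ^ (k + 1) ≤ t := by
    calc t ^ (k + 1) ≤ t ^ 1 := pow_le_pow_of_le_one htpos.le (by linarith) (by omega)
      _ = t := pow_one t
  have e4 : D * t ^ (k + 1) ≤ D * (c1 / D / 2) := by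
    exact mul_le_mul_of_nonneg_left (e3.trans t8) hDpos.le
  have e5 : D * (c1 / D / 2) = c1 / 2 := by field_simp
  linarith

theorem one_dim (f g : ℂ → ℂ) (hf : Grm f) (hg : Grm g) (f2 : fderiv ℂ (fderiv ℂ f) 0 = 0)
    (g2 : fderiv ℂ (fderiv ℂ g) 0 = 0) {A B : ℂ → ℂ} {L ρ : ℝ} (h : Coarse f g A B L ρ) :
    LipEquiv f g := by
  obtain ⟨a, ha, hfa, c1, hc1, c2, hc2, hfc⟩ := one_form f hf f2
  obtain ⟨b, hb, hgb, d1, hd1, d2, hd2, hgc⟩ := one_form g hg g2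
  have h' : Coarse g f B A L ρ :=
    { hL := h.hL, hρ := h.hρ, A0 := h.B0, B0 := h.A0, lipA := h.lipB, lipB := h.lipA, fA := h.gB,
      gB := h.fA, dA := h.dB, dB := h.dA, BA := h.AB, AB := h.BA }
  have hba : b ≤ a := A6a_le f g hf f2 h ha hb hc1 hd2 (hfc.mono fun x hx => hx.1)
    (hgc.mono fun x hx => hx.2)
  have hab : a ≤ b := A6a_le g f hg g2 h' hb ha hd1 hc2 (hgc.mono fun x hx => hx.1)
    (hfc.mono fun x hx => hx.2)
  have : a = b := le_antisymm hab hba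
  subst this
  exact lip_trans hfa (lip_symm hgb)

end H24.LS

end S_H24_LS_A6a

section S_H24_LS_P0

/-!
# P0: chart data

A *chart* of a germ `F` in two variables is a tangent line, put at `x = 0` (by a linear change of
coordinates): `F = c x^(n+1) y^(k-1-n) + ...` near the line.  The `n` polar arcs near the line are the
zeros `x = γ_l(t)`, `y = t^N`, of `dx F`.
-/

open Filter Topology Metric Asymptotics

namespace H24.LS

/-- chart of `F` of order `k` at a tangent line `x = 0` of multiplicity `n + 1`; `γ` are the polar arcs -/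
structure PCh (F : ℂ × ℂ → ℂ) (k n N : ℕ) (u : ℂ) (γ : Fin n → ℂ → ℂ) : Prop where
  an : AnalyticAt ℂ F 0
  hk : n + 1 ≤ k
  hN : 1 ≤ N
  hu : u ≠ 0
  γan : ∀ l, AnalyticAt ℂ (γ l) 0
  γsm : ∀ l, (γ l) =o[𝓝[≠] 0] (fun t : ℂ => t ^ N)
  fac : ∀ ε > (0 : ℝ), ∃ δ > (0 : ℝ), ∀ x t : ℂ, 0 < ‖t‖ → ‖t‖ < δ → ‖x‖ < δ * ‖t‖ ^ N →
    ‖dx F (x, t ^ N) - u * t ^ (N * (k - 1 - n)) * ∏ l, (x - γ l t)‖ ≤
      ε * (‖t‖ ^ (N * (k - 1 - n)) * ∏ l, ‖x - γ l t‖)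
  van : ∀ ε > (0 : ℝ), ∃ δ > (0 : ℝ), ∀ x y : ℂ, 0 < ‖y‖ → ‖y‖ < δ → ‖x‖ < δ * ‖y‖ →
    ‖F (x, y)‖ ≤ ε * ‖y‖ ^ k
  bdF : ∃ C > (0 : ℝ), ∃ δ > (0 : ℝ), ∀ p : ℂ × ℂ, ‖p‖ < δ → ‖fderiv ℂ F p‖ ≤ C * ‖p‖ ^ (k - 1)

/-- isolated critical point -/
def Iso (F : ℂ × ℂ → ℂ) : Prop := ∀ᶠ p in 𝓝[≠] (0 : ℂ × ℂ), fderiv ℂ F p ≠ 0

/-- expected size of `dx F` at distance `σ` from `x1` in the slice `y = t^N` -/
noncomputable def Ehat {n : ℕ} (e : ℕ) (γ : Fin n → ℂ → ℂ) (x1 : ℂ) (σ : ℝ) (t : ℂ) : ℝ :=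
  ‖t‖ ^ e * ∏ l, (σ + ‖x1 - γ l t‖)

/-- arcs grouped in clusters `cl`, of size `‖t‖^(b C)` (real exponent) -/
structure PreClu (F : ℂ × ℂ → ℂ) (k n N : ℕ) (γ : Fin n → ℂ → ℂ) (c : ℕ) (cl : Fin n → Fin c)
    (b : Fin c → ℝ) : Prop where
  surj : Function.Surjective cl
  hb : ∀ C, (N : ℝ) < b C
  same : ∀ l l', cl l = cl l' →
    (fun t => γ l t - γ l' t) =O[𝓝[≠] 0] (fun t : ℂ => ‖t‖ ^ (b (cl l)))
  diff : ∀ l l', cl l ≠ cl l' →
    (fun t : ℂ => ‖t‖ ^ (b (cl l))) =o[𝓝[≠] 0] (fun t => γ l t - γ l' t)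
  /-- exact order of the critical values along the arcs -/
  ord : ∀ l, ∃ (D : ℕ) (a : ℂ), N * k < D ∧ a ≠ 0 ∧
    Tendsto (fun t : ℂ => F (γ l t, t ^ N) / t ^ D) (𝓝[≠] 0) (𝓝 a) ∧
    Tendsto (fun t : ℂ => dy F (γ l t, t ^ N) * t ^ N / t ^ D) (𝓝[≠] 0) (𝓝 (a * D / N))
  bal : ∀ l, ∃ c1 > (0 : ℝ), ∃ c2 > (0 : ℝ), ∀ᶠ t in 𝓝[≠] (0 : ℂ),
    c1 * ‖dy F (γ l t, t ^ N)‖ ≤ Ehat (N * (k - 1 - n)) γ (γ l t) (‖t‖ ^ (b (cl l))) t ∧
    Ehat (N * (k - 1 - n)) γ (γ l t) (‖t‖ ^ (b (cl l))) t ≤ c2 * ‖dy F (γ l t, t ^ N)‖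

/-- cluster version of `Ehat`: centres `g`, multiplicities `m`, sizes `‖t‖^(b C)` -/
noncomputable def cE {c : ℕ} (e : ℕ) (m : Fin c → ℕ) (b : Fin c → ℝ) (g : Fin c → ℂ → ℂ)
    (C : Fin c) (σ : ℝ) (t : ℂ) : ℝ :=
  ‖t‖ ^ e * ∏ C', (σ + ‖t‖ ^ (b C') + ‖g C t - g C' t‖) ^ m C'

/-- cluster data of one germ: centres `g`, multiplicities `m`, slopes `v = dV/dy`, `V(t) = F(g t, t^N)` -/
structure Clu (F : ℂ × ℂ → ℂ) (k n N : ℕ) (u : ℂ) (c : ℕ) (m : Fin c → ℕ)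
    (b : Fin c → ℝ) (g v : Fin c → ℂ → ℂ) (a : Fin c → ℂ) (D : Fin c → ℕ) : Prop where
  an : AnalyticAt ℂ F 0
  hk : n + 1 ≤ k
  hN : 1 ≤ N
  hu : u ≠ 0
  hm : ∀ C, 1 ≤ m C
  hmn : ∑ C, m C = n
  hb : ∀ C, (N : ℝ) < b C
  gan : ∀ C, AnalyticAt ℂ (g C) 0
  gsm : ∀ C, (g C) =o[𝓝[≠] 0] (fun t : ℂ => t ^ N)
  sep : ∀ C C', C ≠ C' → (fun t : ℂ => ‖t‖ ^ (b C)) =o[𝓝[≠] 0] (fun t => g C t - g C' t)
  hv : ∀ C t, v C t = deriv (fun s => F (g C s, s ^ N)) t / (N * t ^ (N - 1))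
  hD : ∀ C, N * k < D C
  ha : ∀ C, a C ≠ 0
  Vord : ∀ C, Tendsto (fun t : ℂ => F (g C t, t ^ N) / t ^ (D C)) (𝓝[≠] 0) (𝓝 (a C))
  vord : ∀ C, Tendsto (fun t : ℂ => v C t * t ^ N / t ^ (D C)) (𝓝[≠] 0) (𝓝 (a C * D C / N))
  bal : ∃ c1 > (0 : ℝ), ∃ c2 > (0 : ℝ), ∀ᶠ t in 𝓝[≠] (0 : ℂ), ∀ C,
    c1 * ‖v C t‖ ≤ cE (N * (k - 1 - n)) m b g C 0 t ∧
    cE (N * (k - 1 - n)) m b g C 0 t ≤ c2 * ‖v C t‖
  F1 : ∃ C0 > (0 : ℝ), ∃ δ > (0 : ℝ), ∀ x t : ℂ, 0 < ‖t‖ → ‖t‖ < δ → ‖x‖ < δ * ‖t‖ ^ N → ∀ C,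
    ‖dx F (x, t ^ N)‖ ≤ C0 * cE (N * (k - 1 - n)) m b g C ‖x - g C t‖ t
  F2 : ∀ ε > (0 : ℝ), ∃ K > (0 : ℝ), ∃ δ > (0 : ℝ), ∀ x t : ℂ, 0 < ‖t‖ → ‖t‖ < δ →
    ‖x‖ < δ * ‖t‖ ^ N → (∀ C, K * ‖t‖ ^ (b C) ≤ ‖x - g C t‖) →
    ‖dx F (x, t ^ N) - u * t ^ (N * (k - 1 - n)) * ∏ C, (x - g C t) ^ m C‖ ≤
      ε * (‖t‖ ^ (N * (k - 1 - n)) * ∏ C, ‖x - g C t‖ ^ m C)
  F3 : ∀ ε > (0 : ℝ), ∃ δ > (0 : ℝ), ∀ x t : ℂ, 0 < ‖t‖ → ‖t‖ < δ → ‖x‖ < δ * ‖t‖ ^ N → ∀ C,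
    ‖dy F (x, t ^ N) - v C t‖ ≤ ε * (‖v C t‖ + cE (N * (k - 1 - n)) m b g C ‖x - g C t‖ t)
  small : 3 ≤ k → ∀ ε > (0 : ℝ), ∃ δ > (0 : ℝ), ∀ t : ℂ, 0 < ‖t‖ → ‖t‖ < δ →
    ∀ C (σ : ℝ), ‖t‖ ^ (b C) ≤ σ → σ ≤ ‖t‖ ^ N → cE (N * (k - 1 - n)) m b g C σ t ≤ ε * σ
  inv : ∀ ζ : ℂ, ζ ^ N = 1 → ∃ τ : Equiv.Perm (Fin c), ∀ C, m (τ C) = m C ∧ b (τ C) = b C ∧
    ∀ᶠ t in 𝓝 (0 : ℂ), g (τ C) t = g C (ζ * t)

/-- admissible points of the target: `‖y' - η_C‖ ≤ C1 (s_C + ‖x' - Γ_C‖)` for all clusters -/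
def Adm {c : ℕ} (C1 : ℝ) (b : Fin c → ℝ) (Γ η : Fin c → ℂ → ℂ) (t : ℂ) (q : ℂ × ℂ) : Prop :=
  ∀ C, ‖q.2 - η C t‖ ≤ C1 * (‖t‖ ^ (b C) + ‖q.1 - Γ C t‖)

/-- matched chart facts for a pair `F, G`, normalised so that the matching map is close to
`(x, y) ↦ (x, y)`: the centre `(γ_C(t), t^N)` of a cluster of `F` corresponds to the centre
`(Γ_C(t), η_C(t))` of a cluster of `G` with the same critical value. -/
structure CFa (F G : ℂ × ℂ → ℂ) (k n N : ℕ) (u : ℂ) (c : ℕ) (m : Fin c → ℕ) (b : Fin c → ℝ)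
    (γ v Γ η : Fin c → ℂ → ℂ) (a : Fin c → ℂ) (D : Fin c → ℕ) : Prop where
  clu : Clu F k n N u c m b γ v a D
  anG : AnalyticAt ℂ G 0
  Γan : ∀ C, AnalyticAt ℂ (Γ C) 0
  ηan : ∀ C, AnalyticAt ℂ (η C) 0
  Γsm : ∀ C, (Γ C) =o[𝓝[≠] 0] (fun t : ℂ => t ^ N)
  ηsm : ∀ C, (fun t => η C t - t ^ N) =o[𝓝[≠] 0] (fun t : ℂ => t ^ N)
  ηpair : ∀ C C', (fun t => η C t - η C' t) =O[𝓝[≠] 0] (fun t => γ C t - γ C' t)
  Γpair : ∀ C C', (fun t => (Γ C t - Γ C' t) - (γ C t - γ C' t)) =o[𝓝[≠] 0]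
    (fun t => γ C t - γ C' t)
  val : ∀ C, ∀ᶠ t in 𝓝 (0 : ℂ), F (γ C t, t ^ N) = G (Γ C t, η C t)
  G1 : ∀ C1 > (0 : ℝ), ∃ C0 > (0 : ℝ), ∃ δ > (0 : ℝ), ∀ (t : ℂ) (q : ℂ × ℂ), 0 < ‖t‖ → ‖t‖ < δ →
    ‖q.1‖ < δ * ‖t‖ ^ N → Adm C1 b Γ η t q → ∀ C,
    ‖dx G q‖ ≤ C0 * cE (N * (k - 1 - n)) m b γ C ‖q.1 - Γ C t‖ t
  G2 : ∀ C1 > (0 : ℝ), ∀ ε > (0 : ℝ), ∃ K > (0 : ℝ), ∃ δ > (0 : ℝ), ∀ (t : ℂ) (q : ℂ × ℂ),
    0 < ‖t‖ → ‖t‖ < δ → ‖q.1‖ < δ * ‖t‖ ^ N → Adm C1 b Γ η t q →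
    (∀ C, K * ‖t‖ ^ (b C) ≤ ‖q.1 - Γ C t‖) →
    ‖dx G q - u * t ^ (N * (k - 1 - n)) * ∏ C, (q.1 - Γ C t) ^ m C‖ ≤
      ε * (‖t‖ ^ (N * (k - 1 - n)) * ∏ C, ‖q.1 - Γ C t‖ ^ m C)
  G3 : ∀ C1 > (0 : ℝ), ∀ ε > (0 : ℝ), ∃ δ > (0 : ℝ), ∀ (t : ℂ) (q : ℂ × ℂ), 0 < ‖t‖ → ‖t‖ < δ →
    ‖q.1‖ < δ * ‖t‖ ^ N → Adm C1 b Γ η t q → ∀ C,
    ‖dy G q - v C t‖ ≤ ε * (‖v C t‖ + cE (N * (k - 1 - n)) m b γ C ‖q.1 - Γ C t‖ t)
  inv : ∀ ζ : ℂ, ζ ^ N = 1 → ∃ τ : Equiv.Perm (Fin c), ∀ C, m (τ C) = m C ∧ b (τ C) = b C ∧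
    ∀ᶠ t in 𝓝 (0 : ℂ), γ (τ C) t = γ C (ζ * t) ∧ Γ (τ C) t = Γ C (ζ * t) ∧ η (τ C) t = η C (ζ * t)

end H24.LS

end S_H24_LS_P0

section S_H24_LS_R0

/-!
# R0: block R (root level matching): definitions, symmetry, shears

Notation: line `j` of `f` is `x = X_j y`; in the chart coordinates of this line the point `(x, y)` stands for
`(x + X_j y, y)`; in the target (line `x = X' y`) the chart coordinates of `q` are `(q.1 - X' q.2, q.2)`.
-/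

open Filter Topology Metric

namespace H24.LS

/-- in the chart coordinates at the lines `x = X y`, `x = X' y`, the map `A` sends thin cones to thin cones -/
def ConeTo (A : ℂ × ℂ → ℂ × ℂ) (X X' : ℂ) : Prop :=
  ∀ ε > (0 : ℝ), ∃ δ > (0 : ℝ), ∀ x y : ℂ, ‖y‖ < δ → ‖x‖ ≤ δ * ‖y‖ →
    ‖(A (x + X * y, y)).1 - X' * (A (x + X * y, y)).2‖ ≤ ε * ‖(A (x + X * y, y)).2‖

/-- first root limit of `match_main`, in the chart coordinates -/
def Root1 (A : ℂ × ℂ → ℂ × ℂ) (X X' α : ℂ) : Prop :=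
  ∀ ε > (0 : ℝ), ∃ δ1 > (0 : ℝ), ∀ δ2 > (0 : ℝ), ∃ δ3 > (0 : ℝ), ∀ x y : ℂ,
    0 < ‖y‖ → ‖y‖ < δ3 → δ2 * ‖y‖ ≤ ‖x‖ → ‖x‖ ≤ δ1 * ‖y‖ →
    ‖(A (x + X * y, y)).1 - X' * (A (x + X * y, y)).2 - α * x‖ ≤ ε * ‖x‖

/-- second root limit of `match_main`, in the chart coordinates -/
def Root2 (A : ℂ × ℂ → ℂ × ℂ) (X ω : ℂ) : Prop :=
  ∀ ε > (0 : ℝ), ∃ δ > (0 : ℝ), ∀ x y : ℂ, ‖y‖ < δ → ‖x‖ ≤ δ * ‖y‖ →
    ‖(A (x + X * y, y)).2 - ω * y‖ ≤ ε * ‖y‖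

/-- bound for the derivative -/
def BdF (f : ℂ × ℂ → ℂ) (k : ℕ) : Prop :=
  ∃ C > (0 : ℝ), ∃ δ > (0 : ℝ), ∀ p : ℂ × ℂ, ‖p‖ < δ → ‖fderiv ℂ f p‖ ≤ C * ‖p‖ ^ (k - 1)

/-- the linear map `(x, y) ↦ (x + a y, y)` -/
noncomputable def shear (a : ℂ) : (ℂ × ℂ) ≃L[ℂ] (ℂ × ℂ) :=
  LinearEquiv.toContinuousLinearEquiv
    { toFun := fun p => (p.1 + a * p.2, p.2)
      invFun := fun p => (p.1 - a * p.2, p.2)
      map_add' := fun p q => by
        ext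
        · simp only [Prod.fst_add, Prod.snd_add]
          ring
        · simp
      map_smul' := fun s p => by
        ext
        · simp only [Prod.smul_fst, Prod.smul_snd, smul_eq_mul, RingHom.id_apply]
          ring
        · simp
      left_inv := fun p => by
        ext
        · show p.1 + a * p.2 - a * p.2 = p.1
          ring
        · rfl
      right_inv := fun p => by
        ext
        · show p.1 - a * p.2 + a * p.2 = p.1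
          ring
        · rfl }

theorem shear_apply (a : ℂ) (p : ℂ × ℂ) : shear a p = (p.1 + a * p.2, p.2) := rfl

theorem shear_symm_apply (a : ℂ) (p : ℂ × ℂ) : (shear a).symm p = (p.1 - a * p.2, p.2) := rfl

theorem coarse_symm {E E' : Type*} [NormedAddCommGroup E] [NormedSpace ℂ E]
    [NormedAddCommGroup E'] [NormedSpace ℂ E'] {f : E → ℂ} {g : E' → ℂ} {A : E → E'} {B : E' → E}
    {L ρ : ℝ} (h : Coarse f g A B L ρ) : Coarse g f B A L ρ where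
  hL := h.hL
  hρ := h.hρ
  A0 := h.B0
  B0 := h.A0
  lipA := h.lipB
  lipB := h.lipA
  fA := h.gB
  gB := h.fA
  dA := h.dB
  dB := h.dA
  BA := h.AB
  AB := h.BA

end H24.LS

end S_H24_LS_R0

section S_H24_LS_R0a

/-!
# R0a: invariance of `Coarse`, `Iso`, `LipEquiv` under linear changes of coordinates

* `coarse_equiv`: let `M ≥ 1` bound the norms of `l, l.symm, l', l'.symm` (as continuous linear maps), `L' = M^2 L`,
  `ρ' = ρ / M`.  `ContinuousLinearEquiv.comp_right_fderiv`: `fderiv (f ∘ l) p = (fderiv f (l p)).comp l` (no hypothesis), so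
  `‖fderiv (f ∘ l) p‖ ≤ M ‖fderiv f (l p)‖`, and `fderiv f (l p) = (fderiv (f ∘ l) p).comp l.symm`, so
  `‖fderiv f (l p)‖ ≤ M ‖fderiv (f ∘ l) p‖`.  If `‖p‖ < ρ'` then `‖l p‖ < ρ`.
  `lipA`: `M L M`.  `fA`: `f (l p) - g (l' (l'.symm (A (l p)))) = f (l p) - g (A (l p))`, `≤ L ‖fderiv f (l p)‖^2 ≤ L M^2 ‖..‖^2`.
  `dA`: `‖fderiv (g ∘ l') (l'.symm (A (l p)))‖ ≤ M ‖fderiv g (A (l p))‖ ≤ M L ‖fderiv f (l p)‖ ≤ M^2 L ‖fderiv (f ∘ l) p‖`.
  `BA`: `l.symm (B (A (l p))) - p = l.symm (B (A (l p)) - l p)`, `≤ M L ‖fderiv f (l p)‖ ≤ M^2 L ‖fderiv (f ∘ l) p‖`.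
* `iso_equiv`: `fderiv (f ∘ l) p = (fderiv f (l p)).comp l ≠ 0` if `fderiv f (l p) ≠ 0` (compose with `l.symm`), and `l` maps
  punctured neighbourhoods of `0` to punctured neighbourhoods of `0`.
* `lipEquiv_of_equiv`: if `(h, h', K, r)` are the data for `f ∘ l`, `g ∘ l'`, take `l' ∘ h ∘ l.symm`, `l ∘ h' ∘ l'.symm`,
  `M^2 |K|`, `r / M`; eventual statements: pull back by the continuous `l.symm`, `l'.symm`.
-/

open Filter Topology Metric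

namespace H24.LS

section

variable {E E' E1 E1' : Type*} [NormedAddCommGroup E] [NormedSpace ℂ E]
    [NormedAddCommGroup E'] [NormedSpace ℂ E'] [NormedAddCommGroup E1] [NormedSpace ℂ E1]
    [NormedAddCommGroup E1'] [NormedSpace ℂ E1']

theorem R0a_fderiv (f : E → ℂ) (l : E1 ≃L[ℂ] E) (p : E1) :
    fderiv ℂ (fun p => f (l p)) p = (fderiv ℂ f (l p)).comp (l : E1 →L[ℂ] E) :=
  l.comp_right_fderiv (f := f)

theorem R0a_le (f : E → ℂ) (l : E1 ≃L[ℂ] E) {M : ℝ} (h : ‖(l : E1 →L[ℂ] E)‖ ≤ M) (p : E1) :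
    ‖fderiv ℂ (fun p => f (l p)) p‖ ≤ M * ‖fderiv ℂ f (l p)‖ := by
  rw [R0a_fderiv]
  refine (ContinuousLinearMap.opNorm_comp_le _ _).trans ?_
  rw [mul_comm]
  exact mul_le_mul_of_nonneg_right h (norm_nonneg _)

theorem R0a_ge (f : E → ℂ) (l : E1 ≃L[ℂ] E) {M : ℝ} (h : ‖(l.symm : E →L[ℂ] E1)‖ ≤ M) (p : E1) :
    ‖fderiv ℂ f (l p)‖ ≤ M * ‖fderiv ℂ (fun p => f (l p)) p‖ := by
  have e : fderiv ℂ f (l p) =
      (fderiv ℂ (fun p => f (l p)) p).comp (l.symm : E →L[ℂ] E1) := by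
    rw [R0a_fderiv]
    ext x
    simp
  rw [e]
  refine (ContinuousLinearMap.opNorm_comp_le _ _).trans ?_
  rw [mul_comm]
  exact mul_le_mul_of_nonneg_right h (norm_nonneg _)

theorem R0a_app {F F' : Type*} [NormedAddCommGroup F] [NormedSpace ℂ F] [NormedAddCommGroup F']
    [NormedSpace ℂ F'] (l : F ≃L[ℂ] F') {M : ℝ} (h : ‖(l : F →L[ℂ] F')‖ ≤ M) (p : F) :
    ‖l p‖ ≤ M * ‖p‖ :=
  ((l : F →L[ℂ] F').le_opNorm p).trans (mul_le_mul_of_nonneg_right h (norm_nonneg _))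

theorem R0a_ball {F F' : Type*} [NormedAddCommGroup F] [NormedSpace ℂ F] [NormedAddCommGroup F']
    [NormedSpace ℂ F'] (l : F ≃L[ℂ] F') {M ρ : ℝ} (hM : 1 ≤ M) (h : ‖(l : F →L[ℂ] F')‖ ≤ M)
    {p : F} (hp : p ∈ ball (0 : F) (ρ / M)) : l p ∈ ball (0 : F') ρ := by
  rw [mem_ball_zero_iff] at hp ⊢
  have h1 := R0a_app l h p
  have h2 : ‖p‖ * M < ρ := by rwa [lt_div_iff₀ (by linarith)] at hp
  linarith

theorem R0a_half {f : E → ℂ} {g : E' → ℂ} {A : E → E'} {B : E' → E}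
    {L ρ M : ℝ} (h : Coarse f g A B L ρ) (l : E1 ≃L[ℂ] E) (l' : E1' ≃L[ℂ] E') (hM : 1 ≤ M)
    (h1 : ‖(l : E1 →L[ℂ] E)‖ ≤ M) (h2 : ‖(l.symm : E →L[ℂ] E1)‖ ≤ M)
    (h3 : ‖(l' : E1' →L[ℂ] E')‖ ≤ M) (h4 : ‖(l'.symm : E' →L[ℂ] E1')‖ ≤ M) :
    (∀ p ∈ ball (0 : E1) (ρ / M), ∀ q ∈ ball (0 : E1) (ρ / M),
      ‖l'.symm (A (l p)) - l'.symm (A (l q))‖ ≤ M ^ 2 * L * ‖p - q‖) ∧
    (∀ p ∈ ball (0 : E1) (ρ / M), ‖f (l p) - g (l' (l'.symm (A (l p))))‖ ≤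
      M ^ 2 * L * ‖fderiv ℂ (fun p => f (l p)) p‖ ^ 2) ∧
    (∀ p ∈ ball (0 : E1) (ρ / M), ‖fderiv ℂ (fun q => g (l' q)) (l'.symm (A (l p)))‖ ≤
      M ^ 2 * L * ‖fderiv ℂ (fun p => f (l p)) p‖) ∧
    (∀ p ∈ ball (0 : E1) (ρ / M), ‖l.symm (B (l' (l'.symm (A (l p))))) - p‖ ≤
      M ^ 2 * L * ‖fderiv ℂ (fun p => f (l p)) p‖) := by
  have hL := h.hL
  refine ⟨fun p hp q hq => ?_, fun p hp => ?_, fun p hp => ?_, fun p hp => ?_⟩
  · have e1 := h.lipA _ (R0a_ball l hM h1 hp) _ (R0a_ball l hM h1 hq)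
    have e2 := R0a_app l'.symm h4 (A (l p) - A (l q))
    have e3 := R0a_app l h1 (p - q)
    rw [map_sub] at e2 e3
    calc ‖l'.symm (A (l p)) - l'.symm (A (l q))‖ ≤ M * ‖A (l p) - A (l q)‖ := e2
      _ ≤ M * (L * ‖l p - l q‖) := mul_le_mul_of_nonneg_left e1 (by linarith)
      _ ≤ M * (L * (M * ‖p - q‖)) := by
          refine mul_le_mul_of_nonneg_left (mul_le_mul_of_nonneg_left e3 (by linarith))
            (by linarith)
      _ = M ^ 2 * L * ‖p - q‖ := by ring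
  · rw [l'.apply_symm_apply]
    have e1 := h.fA _ (R0a_ball l hM h1 hp)
    have e2 := R0a_ge f l h2 p
    have e3 : ‖fderiv ℂ f (l p)‖ ^ 2 ≤ (M * ‖fderiv ℂ (fun p => f (l p)) p‖) ^ 2 :=
      pow_le_pow_left₀ (norm_nonneg _) e2 2
    calc ‖f (l p) - g (A (l p))‖ ≤ L * ‖fderiv ℂ f (l p)‖ ^ 2 := e1
      _ ≤ L * (M * ‖fderiv ℂ (fun p => f (l p)) p‖) ^ 2 :=
          mul_le_mul_of_nonneg_left e3 (by linarith)
      _ = M ^ 2 * L * ‖fderiv ℂ (fun p => f (l p)) p‖ ^ 2 := by ring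
  · have e1 := R0a_le g l' h3 (l'.symm (A (l p)))
    rw [l'.apply_symm_apply] at e1
    have e2 := h.dA _ (R0a_ball l hM h1 hp)
    have e3 := R0a_ge f l h2 p
    calc ‖fderiv ℂ (fun q => g (l' q)) (l'.symm (A (l p)))‖ ≤ M * ‖fderiv ℂ g (A (l p))‖ := e1
      _ ≤ M * (L * ‖fderiv ℂ f (l p)‖) := mul_le_mul_of_nonneg_left e2 (by linarith)
      _ ≤ M * (L * (M * ‖fderiv ℂ (fun p => f (l p)) p‖)) := by
          refine mul_le_mul_of_nonneg_left (mul_le_mul_of_nonneg_left e3 (by linarith))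
            (by linarith)
      _ = M ^ 2 * L * ‖fderiv ℂ (fun p => f (l p)) p‖ := by ring
  · rw [l'.apply_symm_apply]
    have e1 := h.BA _ (R0a_ball l hM h1 hp)
    have e2 := R0a_app l.symm h2 (B (A (l p)) - l p)
    rw [map_sub, l.symm_apply_apply] at e2
    have e3 := R0a_ge f l h2 p
    calc ‖l.symm (B (A (l p))) - p‖ ≤ M * ‖B (A (l p)) - l p‖ := e2
      _ ≤ M * (L * ‖fderiv ℂ f (l p)‖) := mul_le_mul_of_nonneg_left e1 (by linarith)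
      _ ≤ M * (L * (M * ‖fderiv ℂ (fun p => f (l p)) p‖)) := by
          refine mul_le_mul_of_nonneg_left (mul_le_mul_of_nonneg_left e3 (by linarith))
            (by linarith)
      _ = M ^ 2 * L * ‖fderiv ℂ (fun p => f (l p)) p‖ := by ring

end

theorem coarse_equiv {E E' E1 E1' : Type*} [NormedAddCommGroup E] [NormedSpace ℂ E]
    [NormedAddCommGroup E'] [NormedSpace ℂ E'] [NormedAddCommGroup E1] [NormedSpace ℂ E1]
    [NormedAddCommGroup E1'] [NormedSpace ℂ E1']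
    {f : E → ℂ} {g : E' → ℂ} {A : E → E'} {B : E' → E}
    {L ρ : ℝ} (h : Coarse f g A B L ρ) (l : E1 ≃L[ℂ] E) (l' : E1' ≃L[ℂ] E') :
    ∃ L' ρ' : ℝ, Coarse (fun p => f (l p)) (fun p => g (l' p)) (fun p => l'.symm (A (l p)))
      (fun p => l.symm (B (l' p))) L' ρ' := by
  obtain ⟨M, hM, h1, h2, h3, h4⟩ : ∃ M : ℝ, 1 ≤ M ∧ ‖(l : E1 →L[ℂ] E)‖ ≤ M ∧
      ‖(l.symm : E →L[ℂ] E1)‖ ≤ M ∧ ‖(l' : E1' →L[ℂ] E')‖ ≤ M ∧
      ‖(l'.symm : E' →L[ℂ] E1')‖ ≤ M := by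
    refine ⟨1 + ‖(l : E1 →L[ℂ] E)‖ + ‖(l.symm : E →L[ℂ] E1)‖ + ‖(l' : E1' →L[ℂ] E')‖ +
      ‖(l'.symm : E' →L[ℂ] E1')‖, ?_, ?_, ?_, ?_, ?_⟩ <;>
    linarith [norm_nonneg (l : E1 →L[ℂ] E), norm_nonneg (l.symm : E →L[ℂ] E1),
      norm_nonneg (l' : E1' →L[ℂ] E'), norm_nonneg (l'.symm : E' →L[ℂ] E1')]
  obtain ⟨a1, a2, a3, a4⟩ := R0a_half h l l' hM h1 h2 h3 h4
  obtain ⟨b1, b2, b3, b4⟩ := R0a_half (coarse_symm h) l' l hM h3 h4 h1 h2
  refine ⟨M ^ 2 * L, ρ / M, ?_⟩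
  have hL := h.hL
  refine
    { hL := ?_
      hρ := div_pos h.hρ (by linarith)
      A0 := by simp [h.A0]
      B0 := by simp [h.B0]
      lipA := a1
      lipB := b1
      fA := a2
      gB := b2
      dA := a3
      dB := b3
      BA := a4
      AB := b4 }
  nlinarith [mul_le_mul hM hM (by norm_num) (by linarith)]

theorem iso_equiv {f : ℂ × ℂ → ℂ} (h : Iso f) (l : (ℂ × ℂ) ≃L[ℂ] (ℂ × ℂ)) :
    Iso (fun p => f (l p)) := by
  have hl : Tendsto l (𝓝[≠] (0 : ℂ × ℂ)) (𝓝[≠] (0 : ℂ × ℂ)) := by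
    apply tendsto_nhdsWithin_of_tendsto_nhds_of_eventually_within
    · have := l.continuous.tendsto 0
      rw [map_zero] at this
      exact this.mono_left nhdsWithin_le_nhds
    · filter_upwards [self_mem_nhdsWithin] with p hp h0
      have h1 : p ≠ 0 := hp
      have h2 : l p = 0 := h0
      exact h1 ((map_eq_zero_iff l l.injective).1 h2)
  have h1 : ∀ᶠ p in 𝓝[≠] (0 : ℂ × ℂ), fderiv ℂ f (l p) ≠ 0 := hl.eventually h
  refine h1.mono fun p hp h0 => hp ?_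
  have h2 := R0a_ge f l (le_refl _) p
  rw [h0, norm_zero, mul_zero] at h2
  exact norm_le_zero_iff.1 h2

theorem lipEquiv_of_equiv {E E' E1 E1' : Type*} [NormedAddCommGroup E] [NormedSpace ℂ E]
    [NormedAddCommGroup E'] [NormedSpace ℂ E'] [NormedAddCommGroup E1] [NormedSpace ℂ E1]
    [NormedAddCommGroup E1'] [NormedSpace ℂ E1'] {f : E → ℂ} {g : E' → ℂ}
    (l : E1 ≃L[ℂ] E) (l' : E1' ≃L[ℂ] E') (h : LipEquiv (fun p => f (l p)) (fun p => g (l' p))) :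
    LipEquiv f g := by
  obtain ⟨u, u', K, r, hr, hu0, hu0', hlip, hlip', hinv, hinv', hfg⟩ := h
  obtain ⟨M, hM, h1, h2, h3, h4⟩ : ∃ M : ℝ, 1 ≤ M ∧ ‖(l : E1 →L[ℂ] E)‖ ≤ M ∧
      ‖(l.symm : E →L[ℂ] E1)‖ ≤ M ∧ ‖(l' : E1' →L[ℂ] E')‖ ≤ M ∧
      ‖(l'.symm : E' →L[ℂ] E1')‖ ≤ M := by
    refine ⟨1 + ‖(l : E1 →L[ℂ] E)‖ + ‖(l.symm : E →L[ℂ] E1)‖ + ‖(l' : E1' →L[ℂ] E')‖ +
      ‖(l'.symm : E' →L[ℂ] E1')‖, ?_, ?_, ?_, ?_, ?_⟩ <;>
    linarith [norm_nonneg (l : E1 →L[ℂ] E), norm_nonneg (l.symm : E →L[ℂ] E1),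
      norm_nonneg (l' : E1' →L[ℂ] E'), norm_nonneg (l'.symm : E' →L[ℂ] E1')]
  have hls : Tendsto l.symm (𝓝 (0 : E)) (𝓝 (0 : E1)) := by
    have := l.symm.continuous.tendsto 0
    rwa [map_zero] at this
  have hls' : Tendsto l'.symm (𝓝 (0 : E')) (𝓝 (0 : E1')) := by
    have := l'.symm.continuous.tendsto 0
    rwa [map_zero] at this
  refine ⟨fun x => l' (u (l.symm x)), fun y => l (u' (l'.symm y)), M ^ 2 * |K|, r / M,
    div_pos hr (by linarith), by simp [hu0], by simp [hu0'], ?_, ?_, ?_, ?_, ?_⟩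
  · intro x hx y hy
    have e1 := hlip _ (R0a_ball l.symm hM h2 hx) _ (R0a_ball l.symm hM h2 hy)
    have e2 := R0a_app l' h3 (u (l.symm x) - u (l.symm y))
    have e3 := R0a_app l.symm h2 (x - y)
    rw [map_sub] at e2 e3
    calc ‖l' (u (l.symm x)) - l' (u (l.symm y))‖ ≤ M * ‖u (l.symm x) - u (l.symm y)‖ := e2
      _ ≤ M * (|K| * ‖l.symm x - l.symm y‖) := by
          refine mul_le_mul_of_nonneg_left (e1.trans ?_) (by linarith)
          exact mul_le_mul_of_nonneg_right (le_abs_self K) (norm_nonneg _)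
      _ ≤ M * (|K| * (M * ‖x - y‖)) := by
          refine mul_le_mul_of_nonneg_left (mul_le_mul_of_nonneg_left e3 (abs_nonneg _))
            (by linarith)
      _ = M ^ 2 * |K| * ‖x - y‖ := by ring
  · intro x hx y hy
    have e1 := hlip' _ (R0a_ball l'.symm hM h4 hx) _ (R0a_ball l'.symm hM h4 hy)
    have e2 := R0a_app l h1 (u' (l'.symm x) - u' (l'.symm y))
    have e3 := R0a_app l'.symm h4 (x - y)
    rw [map_sub] at e2 e3
    calc ‖l (u' (l'.symm x)) - l (u' (l'.symm y))‖ ≤ M * ‖u' (l'.symm x) - u' (l'.symm y)‖ := e2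
      _ ≤ M * (|K| * ‖l'.symm x - l'.symm y‖) := by
          refine mul_le_mul_of_nonneg_left (e1.trans ?_) (by linarith)
          exact mul_le_mul_of_nonneg_right (le_abs_self K) (norm_nonneg _)
      _ ≤ M * (|K| * (M * ‖x - y‖)) := by
          refine mul_le_mul_of_nonneg_left (mul_le_mul_of_nonneg_left e3 (abs_nonneg _))
            (by linarith)
      _ = M ^ 2 * |K| * ‖x - y‖ := by ring
  · refine (hls.eventually hinv).mono fun x hx => ?_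
    show l (u' (l'.symm (l' (u (l.symm x))))) = x
    rw [l'.symm_apply_apply, hx, l.apply_symm_apply]
  · refine (hls'.eventually hinv').mono fun y hy => ?_
    show l' (u (l.symm (l (u' (l'.symm y))))) = y
    rw [l.symm_apply_apply, hy, l'.apply_symm_apply]
  · refine (hls.eventually hfg).mono fun x hx => ?_
    have hx' : f (l (l.symm x)) = g (l' (u (l.symm x))) := hx
    rw [l.apply_symm_apply] at hx'
    exact hx'

end H24.LS

end S_H24_LS_R0a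

section S_H80_LD_AChart

/-!
# AChart (project MP_816883_LD, part A): charts adapted to `f`

Fix `C0` from `lin_chart m`, `C = 2 C0`. Given `R, K`: put `η = 1/8` , `w = η / (K R)`... precisely: choose `w` with
`w K (R) ≤ 1/8` and `K w R ≤ 1`, `Reg f w r` (`reg_exists`) and `r0 = r/2`. Let `x0 ≠ 0`, `‖x0‖ < r0`, `κ = ‖f'(x0)‖ > 0`,
`s = K κ`. `‖x0‖ + s R ≤ ‖x0‖ + K w R ‖x0‖ ≤ 2 ‖x0‖ < r`, so `Reg.resc` (with `c = f x0`): `φ = rsf f x0 s κ (f x0)` is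
differentiable on `closedBall 0 R`, `‖φ' - e‖ ≤ w s R / κ = w K R ≤ 1/8`, `e = κ⁻¹ • f'(x0)`, `‖e‖ = 1`, `φ 0 = 0`. `exists_vec`: `w0` with
`e w0 = 1`, `‖w0‖ ≤ 2 = M`, `4 η M = 1`. `straighten` gives `Θ, Θi`; `lin_chart` gives `l, l'`.
`Ψ x = l (Θ (s⁻¹ • (x - x0)))`, `Ψ' p = x0 + s • Θi (l' p)`. First component on the ball: `e (Θ u) = φ u` with `u = s⁻¹ (x - x0)`,
`x0 + s u = x`. Lipschitz constants: `C0 * 2 / s`, `s * 2 * C0`.
-/

open Filter Topology Metric H24.LS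

namespace H80.LD

theorem chart (m : ℕ) : ∃ C : ℝ, 1 ≤ C ∧ ∀ f : (Fin (m + 1) → ℂ) → ℂ, Grm f →
    fderiv ℂ (fderiv ℂ f) 0 = 0 → ∀ R K : ℝ, 0 < R → 0 < K → ∃ r0 : ℝ, 0 < r0 ∧
    ∀ x0 : Fin (m + 1) → ℂ, x0 ≠ 0 → ‖x0‖ < r0 →
    ∃ (Ψ : (Fin (m + 1) → ℂ) → ℂ × (Fin (2 * m) → ℝ))
      (Ψ' : ℂ × (Fin (2 * m) → ℝ) → (Fin (m + 1) → ℂ)),
      (∀ x y, ‖Ψ x - Ψ y‖ ≤ C / (K * ‖fderiv ℂ f x0‖) * ‖x - y‖) ∧
      (∀ p q, ‖Ψ' p - Ψ' q‖ ≤ C * (K * ‖fderiv ℂ f x0‖) * ‖p - q‖) ∧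
      (∀ x, Ψ' (Ψ x) = x) ∧ (∀ p, Ψ (Ψ' p) = p) ∧ Ψ x0 = 0 ∧
      (∀ x ∈ ball x0 (R * (K * ‖fderiv ℂ f x0‖)), (Ψ x).1 =
        (f x - f x0) / (((K * ‖fderiv ℂ f x0‖ : ℝ) : ℂ) * ((‖fderiv ℂ f x0‖ : ℝ) : ℂ))) := by
  obtain ⟨C0, hC0, hlin⟩ := lin_chart m
  refine ⟨2 * C0, by linarith, ?_⟩
  intro f hf f2 R K hR hK
  have hw : 0 < 1 / (8 * K * R) := by positivity
  obtain ⟨r, hreg⟩ := reg_exists hf f2 hw
  refine ⟨r / 2, half_pos hreg.hr, ?_⟩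
  intro x0 hx0 hx0r
  have hr := hreg.hr
  have hmem : x0 ∈ ball (0 : Fin (m + 1) → ℂ) r := by
    rw [mem_ball_zero_iff]; linarith
  have hκ : 0 < ‖fderiv ℂ f x0‖ := hreg.pos x0 hmem hx0
  have hsmall := hreg.small x0 hmem
  generalize hκdef : ‖fderiv ℂ f x0‖ = κ at *
  have hs : 0 < K * κ := mul_pos hK hκ
  have hsC : ((K * κ : ℝ) : ℂ) ≠ 0 := by exact_mod_cast hs.ne'
  have hκC : (κ : ℂ) ≠ 0 := by exact_mod_cast hκ.ne'
  -- the ball stays inside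
  have hin : ‖x0‖ + (K * κ) * R < r := by
    have h1 : (K * κ) * R ≤ ‖x0‖ / 8 := by
      calc (K * κ) * R ≤ (K * (1 / (8 * K * R) * ‖x0‖)) * R := by gcongr
        _ = ‖x0‖ / 8 := by field_simp
    have h2 : 0 ≤ ‖x0‖ := norm_nonneg _
    linarith
  set e : (Fin (m + 1) → ℂ) →L[ℂ] ℂ := ((κ : ℂ)⁻¹) • fderiv ℂ f x0 with he
  have hnorm : ‖e‖ = 1 := by
    rw [he, norm_smul, norm_inv, Complex.norm_real, Real.norm_of_nonneg hκ.le, hκdef]
    exact inv_mul_cancel₀ hκ.ne'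
  obtain ⟨w0, hw0, hw0n⟩ := exists_vec e (by rw [hnorm]; exact one_pos)
  rw [hnorm] at hw0n
  have hφ0 : rsf f x0 (K * κ) κ (f x0) 0 = 0 := by
    simp [rsf]
  have hres := fun u hu => hreg.resc (y0 := x0) (f x0) hs hκ hR hin u hu
  have hwR : 1 / (8 * K * R) * (K * κ) * R / κ = 1 / 8 := by
    field_simp
  obtain ⟨Θ, Θi, hΘ1, hΘ2, hΘ3, hΘ4, -, -, hΘ7, hΘ8⟩ := straighten e w0 (M := 2) (η := 1 / 8) hR
    (by norm_num) (by simpa using hw0n) (by norm_num) hw0 (rsf f x0 (K * κ) κ (f x0))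
    (by rw [hφ0]; simp) (fun u hu => (hres u hu).1)
    (fun u hu => by
      have h := (hres u hu).2
      rw [hwR] at h
      exact h)
  obtain ⟨l, l', hl1, hl2, hl3, hl4, hl5, hl6⟩ := hlin e hnorm
  have hΘ0 := hΘ8 hφ0
  refine ⟨fun x => l (Θ (((K * κ : ℝ) : ℂ)⁻¹ • (x - x0))),
    fun p => x0 + ((K * κ : ℝ) : ℂ) • Θi (l' p), ?_, ?_, ?_, ?_, ?_, ?_⟩
  · intro x y
    have h1 := hl1 (Θ (((K * κ : ℝ) : ℂ)⁻¹ • (x - x0))) (Θ (((K * κ : ℝ) : ℂ)⁻¹ • (y - x0)))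
    have h2 := hΘ3 (((K * κ : ℝ) : ℂ)⁻¹ • (x - x0)) (((K * κ : ℝ) : ℂ)⁻¹ • (y - x0))
    have h3 : ‖((K * κ : ℝ) : ℂ)⁻¹ • (x - x0) - ((K * κ : ℝ) : ℂ)⁻¹ • (y - x0)‖
        = (K * κ)⁻¹ * ‖x - y‖ := by
      rw [← smul_sub, norm_smul, norm_inv, Complex.norm_real, Real.norm_of_nonneg hs.le]
      congr 2
      abel
    rw [h3] at h2
    calc _ ≤ C0 * (2 * ((K * κ)⁻¹ * ‖x - y‖)) :=
          h1.trans (mul_le_mul_of_nonneg_left h2 (by linarith))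
      _ = 2 * C0 / (K * κ) * ‖x - y‖ := by
          rw [div_eq_mul_inv]; ring
  · intro p q
    have h1 := hl2 p q
    have h2 := hΘ4 (l' p) (l' q)
    have h3 : ‖x0 + ((K * κ : ℝ) : ℂ) • Θi (l' p) - (x0 + ((K * κ : ℝ) : ℂ) • Θi (l' q))‖
        = (K * κ) * ‖Θi (l' p) - Θi (l' q)‖ := by
      rw [add_sub_add_left_eq_sub, ← smul_sub, norm_smul, Complex.norm_real,
        Real.norm_of_nonneg hs.le]
    show ‖x0 + ((K * κ : ℝ) : ℂ) • Θi (l' p) - (x0 + ((K * κ : ℝ) : ℂ) • Θi (l' q))‖ ≤ _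
    rw [h3]
    calc (K * κ) * ‖Θi (l' p) - Θi (l' q)‖ ≤ (K * κ) * (2 * (C0 * ‖p - q‖)) := by
          gcongr
          exact h2.trans (by gcongr)
      _ = 2 * C0 * (K * κ) * ‖p - q‖ := by ring
  · intro x
    show x0 + ((K * κ : ℝ) : ℂ) • Θi (l' (l (Θ (((K * κ : ℝ) : ℂ)⁻¹ • (x - x0))))) = x
    rw [hl3, hΘ1, smul_smul, mul_inv_cancel₀ hsC, one_smul]
    abel
  · intro p
    show l (Θ (((K * κ : ℝ) : ℂ)⁻¹ • (x0 + ((K * κ : ℝ) : ℂ) • Θi (l' p) - x0))) = p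
    rw [add_sub_cancel_left, smul_smul, inv_mul_cancel₀ hsC, one_smul, hΘ2, hl4]
  · show l (Θ (((K * κ : ℝ) : ℂ)⁻¹ • (x0 - x0))) = 0
    rw [sub_self, smul_zero, hΘ0, hl5]
  · intro x hx
    show (l (Θ (((K * κ : ℝ) : ℂ)⁻¹ • (x - x0)))).1 = _
    have hu : ((K * κ : ℝ) : ℂ)⁻¹ • (x - x0) ∈ closedBall (0 : Fin (m + 1) → ℂ) R := by
      rw [mem_closedBall_zero_iff, norm_smul, norm_inv, Complex.norm_real,
        Real.norm_of_nonneg hs.le]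
      rw [mem_ball, dist_eq_norm] at hx
      rw [inv_mul_le_iff₀ hs]
      linarith
    rw [hl6, hΘ7 _ hu]
    unfold rsf
    rw [smul_smul, mul_inv_cancel₀ hsC, one_smul, add_sub_cancel]

end H80.LD

end S_H80_LD_AChart
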