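import Mathlib
import Pool.Agent.H80.LM.G01
import Pool.Agent.H80.LM.G11
import Pool.Agent.H80.LM.G12
import Pool.Agent.H80.LM.G16

/-! MP_816883_ag: this file joins several modules (see the folders H80/LD, H24/LS) to save build time. -/

section S_H80_LD_GLocB

/-!
# GLocB (project MP_816883_LD, blocks 8-9): the local lemma

Constants: `L' = 4 L Λ C^2 ≥ 1`, `ζ = τ / (4 C)`; `ExtStmt D` with `L'`, `ζ` gives `ε₀, C₂`. `Q = 4 L C (2 c + 1)`, `Λ' = 4 L C^2 C₂`, `c' = 4 L C C₂ Q + 1`.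
`e0` = minimum of `1/(12 L c)`, `1/(2 R)`, `ε₀/Q`, `τ/(4 (L + 2))`, `1/(2 C₂ Q)`.
Given the data, `gloc_np` gives `NP (Q ε) L' eU eMap eMap'`, so `F, F'` with `NP (C₂ (Q ε)) C₂ univ F F'`, `C₂ Q ε ≤ 1/2`. Write `ρ = s z > 0`.
`g1 x = h (Ψ' (F (Ψ x)))`, `k1 y = Ψ' (F' (Ψ (h' y)))`.
* `o3`: `k1 (g1 x) = Ψ' (F' (F (Ψ x))) = x` by `inv`, `cinv`, `cinv'`, `NP.inv` (all points are in `univ`). `o3'` the same.
* `o1l`, `o2l`: `h` is `4L`-Lipschitz, `Ψ'` is `C ρ`-Lipschitz, `F` pointwise `C₂` at `Ψ x` (pull back by the continuous map `Ψ`), `Ψ` is `C/ρ`-Lipschitz: `4 L C ρ C₂ (C/ρ)`.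
* `o1`, `o1d`: `x ∈ ball z (3 ρ)`, `‖Ψ x‖ = ‖Ψ x - Ψ z‖ < 3 C`, `u = Ψ' (F (Ψ x))`, `‖F (Ψ x)‖ < 3 C + 1/2`, `‖u - z‖ = ‖Ψ' (F (Ψ x)) - Ψ' (Ψ z)‖ ≤ C ρ (3 C + 1/2) < R ρ`;
  `(Ψ u).1 = (F (Ψ x)).1 = (Ψ x).1`, so `f u = f x` (`c1`), `f x = f u = g (h u)`. `‖h u - A x‖ ≤ 4 L ‖u - x‖ + ‖h x - A x‖`, `‖u - x‖ = ‖Ψ' (F (Ψ x)) - Ψ' (Ψ x)‖ ≤ C ρ C₂ Q ε`.
* `o2`, `o2d`: `y ∈ ball 0 r`, `B y ∈ ball z (3 ρ)`: `s (B y) ≤ 2 ρ` (`Env.near` with `a = 3`), `‖y - A z‖ ≤ ‖y - A (B y)‖ + ‖A (B y) - A z‖ ≤ 2 ε ρ + 3 L ρ < R ρ`; `x' = h' y`,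
  `‖x' - B y‖ ≤ ε ρ ≤ ρ/2`, `x' ∈ ball z (7/2 ρ)`, `u = Ψ' (F' (Ψ x'))`, `‖u - z‖ ≤ C ρ (7/2 C + 1/2) < R ρ`; `g y = f x' = f u`;
  `‖u - B y‖ ≤ C ρ C₂ Q ε + ε ρ`.
* depth lemma: `x ∈ ball z (7/2 ρ)`, `closedBall x (τ/2 ρ) ⊆ Dm` imply `closedBall (Ψ x) ζ ⊆ eU`: `p` with `‖p - Ψ x‖ ≤ ζ ≤ 1/4`: `‖p‖ ≤ 7/2 C + ζ < 4 C + 1`; `x' = Ψ' p`,
  `‖x' - x‖ = ‖Ψ' p - Ψ' (Ψ x)‖ ≤ C ρ ζ = τ ρ / 4`, so `x' ∈ Dm`; `x' ∈ ball z (R ρ)`, `s x' ≤ 2 ρ`, `‖B (h x') - x'‖ ≤ ‖B (h x') - B (A x')‖ + ‖B (A x') - x'‖ ≤ L ε ρ + 2 ε ρ ≤ τ ρ / 4`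
  (`h x', A x' ∈ ball 0 r` as in GLocA), so `B (h x') ∈ closedBall x (τ/2 ρ) ⊆ Dm`.
* `o4`: `closedBall x (τ ρ) ⊆ Dm`, `x ∈ ball z (3 ρ)`: depth lemma, `F (Ψ x) = eMap (Ψ x) = Ψ (h' (G x))` (`Ψ x ∈ eU`, `cinv`), `g1 x = h (Ψ' (Ψ (h' (G x)))) = G x`.
* `o5`: `x = h' y` is at distance `≤ ε ρ ≤ τ ρ / 2` from `B y`, so `closedBall x (τ/2 ρ) ⊆ closedBall (B y) (τ ρ) ⊆ Dm`, `x ∈ ball z (7/2 ρ)`; `F' (Ψ x) = eMap' (Ψ x) = Ψ (H (h x)) = Ψ (H y)`,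
  `k1 y = Ψ' (F' (Ψ (h' y))) = H y`.
-/

open Filter Topology Metric Set

namespace H80.LD

section glocb

variable {E : Type*} [NormedAddCommGroup E] {D : Type*} [Fintype D] {f g : E → ℂ} {A B : E → E}
  {s : E → ℝ} {L C R ε r r2 : ℝ} {z : E} {h h' : E → E} {Ψ : E → ℂ × (D → ℝ)}
  {Ψ' : ℂ × (D → ℝ) → E}

theorem glocb_spos (env : Env A B s L ε r) (h8 : 8 * L ^ 2 * r2 ≤ r) (hz : z ≠ 0)
    (hz2 : ‖z‖ < r2) : 0 < s z := by
  have h0 : ‖z - z‖ ≤ 0 * s z := by simp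
  exact (env.near h8 hz hz2 (by norm_num : (0 : ℝ) * ε ≤ 1 / 2) h0).2.2.2.2.2.2.1

theorem glocb_norm (loc : Loc f g A B s L C R ε z h h' Ψ Ψ') (hs : 0 < s z) (hC : 1 ≤ C)
    {x : E} {b : ℝ} (hx : ‖x - z‖ < b * s z) : ‖Ψ x‖ < C * b := by
  have h1 := loc.clip x z
  rw [loc.c0, sub_zero] at h1
  refine h1.trans_lt ?_
  have h2 : 0 < C / s z := by positivity
  calc C / s z * ‖x - z‖ < C / s z * (b * s z) := mul_lt_mul_of_pos_left hx h2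
    _ = C * b := by field_simp

theorem glocb_dist (loc : Loc f g A B s L C R ε z h h' Ψ Ψ') {p : ℂ × (D → ℝ)} :
    ‖Ψ' p - z‖ ≤ C * s z * ‖p‖ := by
  have h1 := loc.clip' p (Ψ z)
  rw [loc.cinv, loc.c0, sub_zero] at h1
  exact h1

theorem glocb_dist' (loc : Loc f g A B s L C R ε z h h' Ψ Ψ') {p : ℂ × (D → ℝ)} {x : E} :
    ‖Ψ' p - x‖ ≤ C * s z * ‖p - Ψ x‖ := by
  have h1 := loc.clip' p (Ψ x)
  rw [loc.cinv] at h1
  exact h1

theorem glocb_depth (env : Env A B s L ε r) (h8 : 8 * L ^ 2 * r2 ≤ r) (hz : z ≠ 0)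
    (hz2 : ‖z‖ < r2) (loc : Loc f g A B s L C R ε z h h' Ψ Ψ') (hC : 1 ≤ C) (hR7 : 7 ≤ R)
    (hRε : R * ε ≤ 1 / 2) {τ : ℝ} (hτ : 0 < τ) (hτ1 : τ ≤ 1) (hτε : (L + 2) * ε ≤ τ / 4)
    {Dm : Set E} {x : E} (hx : ‖x - z‖ < 7 / 2 * s z)
    (hsub : closedBall x (τ / 2 * s z) ⊆ Dm) :
    closedBall (Ψ x) (τ / (4 * C)) ⊆ eU (4 * C + 1) Dm B h Ψ' := by
  have hs := glocb_spos env h8 hz hz2
  have hL := env.hL
  have hε := env.hε
  have hζ : τ / (4 * C) ≤ 1 / 4 := by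
    rw [div_le_div_iff₀ (by positivity) (by norm_num)]
    nlinarith
  have hε7 : 7 * ε ≤ 1 / 2 := le_trans (mul_le_mul_of_nonneg_right hR7 hε.le) hRε
  intro p hp
  rw [mem_closedBall, dist_eq_norm] at hp
  have hΨx := glocb_norm loc hs hC hx
  have h1 : ‖p‖ < 4 * C + 1 := by
    have h2 : ‖p‖ ≤ ‖p - Ψ x‖ + ‖Ψ x‖ := by
      calc ‖p‖ = ‖(p - Ψ x) + Ψ x‖ := by rw [sub_add_cancel]
        _ ≤ _ := norm_add_le _ _
    nlinarith
  have hx'x : ‖Ψ' p - x‖ ≤ τ / 4 * s z := by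
    refine (glocb_dist' loc).trans ?_
    calc C * s z * ‖p - Ψ x‖ ≤ C * s z * (τ / (4 * C)) :=
          mul_le_mul_of_nonneg_left hp (by positivity)
      _ = τ / 4 * s z := by field_simp
  have hx'D : Ψ' p ∈ Dm := by
    apply hsub
    rw [mem_closedBall, dist_eq_norm]
    have : 0 < τ * s z := by positivity
    linarith
  have hx'z : ‖Ψ' p - z‖ ≤ 4 * s z := by
    have h2 : ‖Ψ' p - z‖ ≤ ‖Ψ' p - x‖ + ‖x - z‖ := by
      calc ‖Ψ' p - z‖ = ‖(Ψ' p - x) + (x - z)‖ := by rw [sub_add_sub_cancel]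
        _ ≤ _ := norm_add_le _ _
    have h3 : τ * s z ≤ 1 * s z := mul_le_mul_of_nonneg_right hτ1 hs.le
    linarith
  obtain ⟨-, hn2, hn3, hn4, -, -, -, hn8⟩ := env.near h8 hz hz2 (a := 4) (by linarith) hx'z
  have hr2 : 0 < r2 := (norm_nonneg _).trans_lt hz2
  have hL2 : L ≤ L ^ 2 := by nlinarith
  have hr : 8 * L * r2 ≤ r := by
    have : L * r2 ≤ L ^ 2 * r2 := mul_le_mul_of_nonneg_right hL2 hr2.le
    linarith
  have hball : Ψ' p ∈ ball z (R * s z) := by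
    rw [mem_ball, dist_eq_norm]
    have : 7 * s z ≤ R * s z := mul_le_mul_of_nonneg_right hR7 hs.le
    linarith
  have hfhA := loc.fhA _ hball
  have hA := env.nA hn3
  have hA2 : L * ‖Ψ' p‖ ≤ L * (2 * r2) := mul_le_mul_of_nonneg_left hn2.le (by linarith)
  have hLr : r2 ≤ L * r2 := le_mul_of_one_le_left hr2.le hL
  have hAr : A (Ψ' p) ∈ ball (0 : E) r := by
    rw [mem_ball_zero_iff]
    linarith
  have hsz : s z ≤ r2 := by
    have h2 := env.ssmall z hn8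
    have h3 : ε * ‖z‖ ≤ 1 * r2 := mul_le_mul (by linarith) hz2.le (norm_nonneg _) zero_le_one
    linarith
  have hhr : h (Ψ' p) ∈ ball (0 : E) r := by
    rw [mem_ball_zero_iff]
    have h2 : ‖h (Ψ' p)‖ ≤ ‖h (Ψ' p) - A (Ψ' p)‖ + ‖A (Ψ' p)‖ := by
      calc ‖h (Ψ' p)‖ = ‖(h (Ψ' p) - A (Ψ' p)) + A (Ψ' p)‖ := by rw [sub_add_cancel]
        _ ≤ _ := norm_add_le _ _
    have h3 : ε * s z ≤ 1 * r2 := mul_le_mul (by linarith) hsz hs.le zero_le_one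
    linarith
  have hB1 := env.lipB _ hhr _ hAr
  have hB2 := env.BA _ hn3
  have hBx : ‖B (h (Ψ' p)) - x‖ ≤ τ / 2 * s z := by
    have h2 : ‖B (h (Ψ' p)) - x‖ ≤ ‖B (h (Ψ' p)) - B (A (Ψ' p))‖ + ‖B (A (Ψ' p)) - Ψ' p‖ +
        ‖Ψ' p - x‖ := by
      calc ‖B (h (Ψ' p)) - x‖ = ‖(B (h (Ψ' p)) - B (A (Ψ' p))) + (B (A (Ψ' p)) - Ψ' p) +
            (Ψ' p - x)‖ := by
              congr 1
              abel
        _ ≤ _ := norm_add₃_le
    have h3 : L * ‖h (Ψ' p) - A (Ψ' p)‖ ≤ L * (ε * s z) :=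
      mul_le_mul_of_nonneg_left hfhA (by linarith)
    have h4 : ε * s (Ψ' p) ≤ ε * (2 * s z) := mul_le_mul_of_nonneg_left hn4 hε.le
    have h5 : (L + 2) * ε * s z ≤ τ / 4 * s z := mul_le_mul_of_nonneg_right hτε hs.le
    linarith
  refine ⟨h1, hx'D, hsub ?_⟩
  rw [mem_closedBall, dist_eq_norm]
  exact hBx

end glocb

theorem gloc {E : Type*} [NormedAddCommGroup E] {D : Type} [Fintype D] (hExt : ExtStmt D)
    (L C R τ Λ c : ℝ) (hL : 1 ≤ L) (hC : 1 ≤ C) (hR : R = L * (C * (4 * C + 1)) + 2) (hτ : 0 < τ)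
    (hτ1 : τ ≤ 1) (hΛ : 1 ≤ Λ) (hc : 1 ≤ c) :
    ∃ Λ' c' e0 : ℝ, 1 ≤ Λ' ∧ 1 ≤ c' ∧ 0 < e0 ∧ ∀ ε : ℝ, ε ≤ e0 →
      ∀ (f g : E → ℂ) (A B : E → E) (s : E → ℝ) (r r2 : ℝ), Env A B s L ε r →
      8 * L ^ 2 * r2 ≤ r → ∀ z : E, z ≠ 0 → ‖z‖ < r2 →
      ∀ (h h' : E → E) (Ψ : E → ℂ × (D → ℝ)) (Ψ' : ℂ × (D → ℝ) → E),
      Loc f g A B s L C R ε z h h' Ψ Ψ' → ∀ Dm : Set E, IsOpen Dm →
      (∀ x ∈ Dm, x ≠ 0 ∧ ‖x‖ < r2) → ∀ G H : E → E, St f g A B s r Dm (c * ε) Λ G H →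
      ∃ g1 k1 : E → E, LocOut f g A B s r z Dm τ (c' * ε) Λ' G H g1 k1 := by
  have hL0 : 0 < L := by linarith
  have hC0 : 0 < C := by linarith
  have hΛ0 : 0 < Λ := by linarith
  have hc0 : 0 < c := by linarith
  have hCC : 5 ≤ C * (4 * C + 1) := by nlinarith
  have hLCC : C * (4 * C + 1) ≤ L * (C * (4 * C + 1)) := le_mul_of_one_le_left (by linarith) hL
  have hR7 : 7 ≤ R := by rw [hR]; linarith
  have hRC : C * (7 / 2 * C + 1 / 2) < R := by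
    rw [hR]
    nlinarith
  have hRL : 5 * L + 2 ≤ R := by
    rw [hR]
    have : L * 5 ≤ L * (C * (4 * C + 1)) := mul_le_mul_of_nonneg_left hCC hL0.le
    linarith
  have hL' : 1 ≤ 4 * L * Λ * C ^ 2 := by
    have h1 : 1 ≤ L * Λ := one_le_mul_of_one_le_of_one_le hL hΛ
    have h2 : 1 ≤ C ^ 2 := one_le_pow₀ hC
    have h3 : 1 ≤ L * Λ * C ^ 2 := one_le_mul_of_one_le_of_one_le h1 h2
    linarith
  have hζ : 0 < τ / (4 * C) := by positivity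
  obtain ⟨ε₀, hε₀, C₂, hC₂, hP⟩ := hExt (4 * L * Λ * C ^ 2) hL' (τ / (4 * C)) hζ
  have hC₂0 : 0 < C₂ := by linarith
  obtain ⟨Q, hQdef⟩ : ∃ Q, Q = 4 * L * C * (2 * c + 1) := ⟨_, rfl⟩
  have hQ0 : 0 < Q := by rw [hQdef]; positivity
  refine ⟨4 * L * C ^ 2 * C₂, 4 * L * C * C₂ * Q + 1,
    min (min (1 / (12 * L * c)) (1 / (2 * R))) (min (ε₀ / Q) (min (τ / (4 * (L + 2))) (1 / (2 * C₂ * Q)))),
    ?_, ?_, ?_, ?_⟩
  · have h1 : 1 ≤ L * C ^ 2 := one_le_mul_of_one_le_of_one_le hL (one_le_pow₀ hC)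
    have h2 : 1 ≤ L * C ^ 2 * C₂ := one_le_mul_of_one_le_of_one_le h1 hC₂
    linarith
  · have : 0 ≤ 4 * L * C * C₂ * Q := by positivity
    linarith
  · have hR0 : 0 < R := by linarith
    refine lt_min (lt_min ?_ ?_) (lt_min ?_ (lt_min ?_ ?_)) <;> positivity
  intro ε hεle f g A B s r r2 env h8 z hz hz2 h h' Ψ Ψ' loc Dm hDo hD G H hSt
  have hε := env.hε
  have hs := glocb_spos env h8 hz hz2
  have e1 : ε ≤ 1 / (12 * L * c) := hεle.trans ((min_le_left _ _).trans (min_le_left _ _))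
  have e2 : ε ≤ 1 / (2 * R) := hεle.trans ((min_le_left _ _).trans (min_le_right _ _))
  have e3 : ε ≤ ε₀ / Q := hεle.trans ((min_le_right _ _).trans (min_le_left _ _))
  have e4 : ε ≤ τ / (4 * (L + 2)) :=
    hεle.trans ((min_le_right _ _).trans ((min_le_right _ _).trans (min_le_left _ _)))
  have e5 : ε ≤ 1 / (2 * C₂ * Q) :=
    hεle.trans ((min_le_right _ _).trans ((min_le_right _ _).trans (min_le_right _ _)))
  have hcε : 12 * L * c * ε ≤ 1 := by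
    rw [le_div_iff₀ (by positivity)] at e1
    linarith
  have hRε : R * ε ≤ 1 / 2 := by
    rw [le_div_iff₀ (by linarith)] at e2
    linarith
  have hQε : Q * ε ≤ ε₀ := by
    rw [le_div_iff₀ hQ0] at e3
    linarith
  have hτε : (L + 2) * ε ≤ τ / 4 := by
    rw [le_div_iff₀ (by positivity)] at e4
    linarith
  have hC₂ε : C₂ * (Q * ε) ≤ 1 / 2 := by
    rw [le_div_iff₀ (by positivity)] at e5
    linarith
  have hε7 : 7 * ε ≤ 1 / 2 := le_trans (mul_le_mul_of_nonneg_right hR7 hε.le) hRε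
  have hNP := gloc_np env h8 hz hz2 loc hC hc hΛ hR hRε hcε hDo hD hSt
  rw [← hQdef] at hNP
  obtain ⟨F, F', hF, hFe, -⟩ := hP (Q * ε) (by positivity) hQε _ _ _ hNP
  have hFd : ∀ p, ‖F p - p‖ ≤ C₂ * (Q * ε) := fun p => hF.disp p (mem_univ _)
  have hFd' : ∀ p, ‖F' p - p‖ ≤ C₂ * (Q * ε) := fun p => hF.disp' p (mem_univ _)
  have hFF : ∀ p, F' (F p) = p := fun p => hF.inv p (mem_univ _) (mem_univ _)
  have hFF' : ∀ p, F (F' p) = p := fun p => hF.inv' p (mem_univ _) (mem_univ _)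
  have hnF : ∀ p, ‖F p‖ ≤ ‖p‖ + 1 / 2 := by
    intro p
    have h2 : ‖F p‖ ≤ ‖F p - p‖ + ‖p‖ := by
      calc ‖F p‖ = ‖(F p - p) + p‖ := by rw [sub_add_cancel]
        _ ≤ _ := norm_add_le _ _
    linarith [hFd p]
  have hnF' : ∀ p, ‖F' p‖ ≤ ‖p‖ + 1 / 2 := by
    intro p
    have h2 : ‖F' p‖ ≤ ‖F' p - p‖ + ‖p‖ := by
      calc ‖F' p‖ = ‖(F' p - p) + p‖ := by rw [sub_add_cancel]
        _ ≤ _ := norm_add_le _ _
    linarith [hFd' p]
  have hΨc : Continuous Ψ := by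
    have : LipschitzWith (Real.toNNReal (C / s z)) Ψ := by
      refine LipschitzWith.of_dist_le_mul fun x y => ?_
      rw [dist_eq_norm, dist_eq_norm, Real.coe_toNNReal _ (by positivity)]
      exact loc.clip x y
    exact this.continuous
  have hh'c : Continuous h' := by
    have : LipschitzWith (Real.toNNReal (4 * L)) h' := by
      refine LipschitzWith.of_dist_le_mul fun x y => ?_
      rw [dist_eq_norm, dist_eq_norm, Real.coe_toNNReal _ (by positivity)]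
      exact loc.hlip' x y
    exact this.continuous
  have hCs : 0 ≤ C * s z := by positivity
  -- the key estimate for a point in the ball
  have key : ∀ (Fm : ℂ × (D → ℝ) → ℂ × (D → ℝ)), (∀ p, ‖Fm p‖ ≤ ‖p‖ + 1 / 2) →
      (∀ p, (Fm p).1 = p.1) → ∀ x : E, ‖x - z‖ < 7 / 2 * s z →
      Ψ' (Fm (Ψ x)) ∈ ball z (R * s z) ∧ f (Ψ' (Fm (Ψ x))) = f x := by
    intro Fm hn hpres x hx
    have h1 := glocb_norm loc hs hC hx
    have h2 : Ψ' (Fm (Ψ x)) ∈ ball z (R * s z) := by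
      rw [mem_ball, dist_eq_norm]
      refine (glocb_dist loc).trans_lt ?_
      have h3 : C * s z * ‖Fm (Ψ x)‖ ≤ C * s z * (C * (7 / 2) + 1 / 2) :=
        mul_le_mul_of_nonneg_left ((hn _).trans (by linarith)) hCs
      have h4 : C * s z * (C * (7 / 2) + 1 / 2) = C * (7 / 2 * C + 1 / 2) * s z := by ring
      have h5 : C * (7 / 2 * C + 1 / 2) * s z < R * s z := mul_lt_mul_of_pos_right hRC hs
      linarith
    refine ⟨h2, ?_⟩
    have h3 : x ∈ ball z (R * s z) := by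
      rw [mem_ball, dist_eq_norm]
      have : 7 * s z ≤ R * s z := mul_le_mul_of_nonneg_right hR7 hs.le
      linarith
    apply (loc.c1 _ h2 _ h3).1
    rw [loc.cinv', hpres]
  have hy : ∀ y ∈ ball (0 : E) r, B y ∈ ball z (3 * s z) →
      y ∈ ball (A z) (R * s z) ∧ ‖h' y - B y‖ ≤ ε * s z ∧ ‖h' y - z‖ < 7 / 2 * s z := by
    intro y hyr hBy
    rw [mem_ball, dist_eq_norm] at hBy
    obtain ⟨-, -, hn3, hn4, -, -, -, hn8⟩ := env.near h8 hz hz2 (a := 3) (by linarith) hBy.le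
    have h1 := env.AB y hyr
    have h2 := env.lipA _ hn3 _ hn8
    have h3 : y ∈ ball (A z) (R * s z) := by
      rw [mem_ball, dist_eq_norm]
      have h4 : ‖y - A z‖ ≤ ‖A (B y) - y‖ + ‖A (B y) - A z‖ := by
        calc ‖y - A z‖ = ‖-(A (B y) - y) + (A (B y) - A z)‖ := by
              congr 1
              abel
          _ ≤ ‖-(A (B y) - y)‖ + ‖A (B y) - A z‖ := norm_add_le _ _
          _ = _ := by rw [norm_neg]
      have h5 : ε * s (B y) ≤ ε * (2 * s z) := mul_le_mul_of_nonneg_left hn4 hε.le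
      have h6 : L * ‖B y - z‖ ≤ L * (3 * s z) := mul_le_mul_of_nonneg_left hBy.le hL0.le
      have h7 : (5 * L + 2) * s z ≤ R * s z := mul_le_mul_of_nonneg_right hRL hs.le
      have h8' : 7 * ε * s z ≤ 1 / 2 * s z := mul_le_mul_of_nonneg_right hε7 hs.le
      have h9 : 0 < L * s z := by positivity
      have h10 : 0 < ε * s z := by positivity
      nlinarith
    have h4 := loc.ghB y h3
    refine ⟨h3, h4, ?_⟩
    have h5 : ‖h' y - z‖ ≤ ‖h' y - B y‖ + ‖B y - z‖ := by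
      calc ‖h' y - z‖ = ‖(h' y - B y) + (B y - z)‖ := by rw [sub_add_sub_cancel]
        _ ≤ _ := norm_add_le _ _
    have h6 : 7 * ε * s z ≤ 1 / 2 * s z := mul_le_mul_of_nonneg_right hε7 hs.le
    have h7 : 0 < ε * s z := by positivity
    linarith
  refine ⟨fun x => h (Ψ' (F (Ψ x))), fun y => Ψ' (F' (Ψ (h' y))), ?_⟩
  have hlt : ∀ x ∈ ball z (3 * s z), ‖x - z‖ < 7 / 2 * s z := by
    intro x hx
    rw [mem_ball, dist_eq_norm] at hx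
    linarith
  refine
    { o1 := ?_, o1d := ?_, o1l := ?_, o2 := ?_, o2d := ?_, o2l := ?_, o3 := ?_, o3' := ?_,
      o4 := ?_, o5 := ?_ }
  · intro x hx
    obtain ⟨h1, h2⟩ := key F hnF hF.pres x (hlt x hx)
    rw [← h2]
    exact loc.fh _ h1
  · intro x hx
    have hxR : x ∈ ball z (R * s z) := by
      have h1 := hlt x hx
      rw [mem_ball, dist_eq_norm]
      have : 7 * s z ≤ R * s z := mul_le_mul_of_nonneg_right hR7 hs.le
      linarith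
    have h1 := loc.fhA x hxR
    have h2 := loc.hlip (Ψ' (F (Ψ x))) x
    have h3 : ‖Ψ' (F (Ψ x)) - x‖ ≤ C * s z * (C₂ * (Q * ε)) :=
      (glocb_dist' loc).trans (mul_le_mul_of_nonneg_left (hFd _) hCs)
    have h4 : ‖h (Ψ' (F (Ψ x))) - A x‖ ≤ ‖h (Ψ' (F (Ψ x))) - h x‖ + ‖h x - A x‖ := by
      calc ‖h (Ψ' (F (Ψ x))) - A x‖ = ‖(h (Ψ' (F (Ψ x))) - h x) + (h x - A x)‖ := by
            rw [sub_add_sub_cancel]
        _ ≤ _ := norm_add_le _ _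
    have h5 : 4 * L * ‖Ψ' (F (Ψ x)) - x‖ ≤ 4 * L * (C * s z * (C₂ * (Q * ε))) :=
      mul_le_mul_of_nonneg_left h3 (by positivity)
    have h6 : (4 * L * C * C₂ * Q + 1) * ε * s z =
        4 * L * (C * s z * (C₂ * (Q * ε))) + ε * s z := by ring
    rw [h6]
    linarith
  · intro x
    have h1 := hΨc.continuousAt.eventually (hF.lip (Ψ x) (mem_univ _))
    filter_upwards [h1] with x' hx'
    have h2 := loc.hlip (Ψ' (F (Ψ x'))) (Ψ' (F (Ψ x)))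
    have h3 := loc.clip' (F (Ψ x')) (F (Ψ x))
    have h4 := loc.clip x' x
    calc ‖h (Ψ' (F (Ψ x'))) - h (Ψ' (F (Ψ x)))‖
        ≤ 4 * L * (C * s z * (C₂ * (C / s z * ‖x' - x‖))) := by
          refine h2.trans (mul_le_mul_of_nonneg_left ?_ (by positivity))
          refine h3.trans (mul_le_mul_of_nonneg_left ?_ hCs)
          exact hx'.trans (mul_le_mul_of_nonneg_left h4 hC₂0.le)
      _ = 4 * L * C ^ 2 * C₂ * ‖x' - x‖ := by field_simp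
  · intro y hyr hBy
    obtain ⟨h1, h2, h3⟩ := hy y hyr hBy
    obtain ⟨h4, h5⟩ := key F' hnF' hF.pres' (h' y) h3
    rw [h5]
    exact loc.gh y h1
  · intro y hyr hBy
    obtain ⟨h1, h2, h3⟩ := hy y hyr hBy
    have h4 : ‖Ψ' (F' (Ψ (h' y))) - h' y‖ ≤ C * s z * (C₂ * (Q * ε)) :=
      (glocb_dist' loc).trans (mul_le_mul_of_nonneg_left (hFd' _) hCs)
    have h5 : ‖Ψ' (F' (Ψ (h' y))) - B y‖ ≤ ‖Ψ' (F' (Ψ (h' y))) - h' y‖ + ‖h' y - B y‖ := by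
      calc ‖Ψ' (F' (Ψ (h' y))) - B y‖ = ‖(Ψ' (F' (Ψ (h' y))) - h' y) + (h' y - B y)‖ := by
            rw [sub_add_sub_cancel]
        _ ≤ _ := norm_add_le _ _
    have h6 : (4 * L * C * C₂ * Q + 1) * ε * s z =
        4 * L * (C * s z * (C₂ * (Q * ε))) + ε * s z := by ring
    rw [h6]
    have h7 : 0 ≤ C * s z * (C₂ * (Q * ε)) := by positivity
    have h8' : 1 * (C * s z * (C₂ * (Q * ε))) ≤ 4 * L * (C * s z * (C₂ * (Q * ε))) :=
      mul_le_mul_of_nonneg_right (by linarith) h7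
    linarith
  · intro y
    have h1 := (hΨc.comp hh'c).continuousAt.eventually (hF.lip' (Ψ (h' y)) (mem_univ _))
    filter_upwards [h1] with y' hy'
    have h2 := loc.clip' (F' (Ψ (h' y'))) (F' (Ψ (h' y)))
    have h3 := loc.clip (h' y') (h' y)
    have h4 := loc.hlip' y' y
    calc ‖Ψ' (F' (Ψ (h' y'))) - Ψ' (F' (Ψ (h' y)))‖
        ≤ C * s z * (C₂ * (C / s z * (4 * L * ‖y' - y‖))) := by
          refine h2.trans (mul_le_mul_of_nonneg_left ?_ hCs)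
          refine LE.le.trans hy' (mul_le_mul_of_nonneg_left ?_ hC₂0.le)
          exact h3.trans (mul_le_mul_of_nonneg_left h4 (by positivity))
      _ = 4 * L * C ^ 2 * C₂ * ‖y' - y‖ := by field_simp
  · intro x
    simp only [loc.inv, loc.cinv', hFF, loc.cinv]
  · intro y
    simp only [loc.cinv', hFF', loc.cinv, loc.inv']
  · intro x hx hsub
    have hd := glocb_depth env h8 hz hz2 loc hC hR7 hRε hτ hτ1 hτε (hlt x hx)
      ((closedBall_subset_closedBall (by nlinarith)).trans hsub)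
    have h1 := (hFe (Ψ x) hd).1
    have h2 : Ψ x ∈ eU (4 * C + 1) Dm B h Ψ' := hd (mem_closedBall_self hζ.le)
    have h3 : eMap (4 * C + 1) Dm G h' Ψ Ψ' (Ψ x) = Ψ (h' (G x)) := by
      unfold eMap
      rw [if_pos ⟨h2.1, h2.2.1⟩, loc.cinv]
    change h (Ψ' (F (Ψ x))) = G x
    rw [h1, h3, loc.cinv, loc.inv']
  · intro y hyr hBy hsub
    obtain ⟨-, h2, h3⟩ := hy y hyr hBy
    have hεs : ε * s z ≤ τ / 2 * s z := by
      apply mul_le_mul_of_nonneg_right _ hs.le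
      nlinarith
    have hd := glocb_depth env h8 hz hz2 loc hC hR7 hRε hτ hτ1 hτε h3 (Dm := Dm) (by
      intro x hx
      apply hsub
      rw [mem_closedBall, dist_eq_norm] at hx ⊢
      have h5 : ‖x - B y‖ ≤ ‖x - h' y‖ + ‖h' y - B y‖ := by
        calc ‖x - B y‖ = ‖(x - h' y) + (h' y - B y)‖ := by rw [sub_add_sub_cancel]
          _ ≤ _ := norm_add_le _ _
      linarith)
    have h1 := (hFe (Ψ (h' y)) hd).2
    have h4 : Ψ (h' y) ∈ eU (4 * C + 1) Dm B h Ψ' := hd (mem_closedBall_self hζ.le)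
    have h5 : eMap' (4 * C + 1) Dm B H h Ψ Ψ' (Ψ (h' y)) = Ψ (H y) := by
      unfold eMap'
      rw [if_pos ⟨h4.1, h4.2.2⟩, loc.cinv, loc.inv']
    change Ψ' (F' (Ψ (h' y))) = H y
    rw [h1, h5, loc.cinv]

end H80.LD

end S_H80_LD_GLocB

section S_H80_LD_GInd

/-!
# GInd (project MP_816883_LD, blocks 8-9): induction over the colours

* `gstep`: `gloc` gives `Λ', c', e0'` (for `L, C, R, τ, Λ, c`). New constants `Λ'' = max Λ Λ'`, `c'' = max c (2 c')`, `e0 = min e0' (1 / (10 (L c'' + 1)))`. For every `z ∈ Z` choose the local data and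
  `g1 z, k1 z` (`choose`; outside `Z` put anything, e.g. use `Classical.choice`/`if`); `gglue` with `ε1 = c ε`, `ε2 = c' ε`, `max (c ε) (2 (c' ε)) = c'' ε`.
* `ginduct`: `τ = 1/(4 M)`. `j = 0`: the set is empty, `St` is trivial (`Λ = c = e0 = 1`, `G = H = id`). Step `j → j+1 ≤ M`: `a_j = 2 - j/M ≤ 2`. `Dm = domJ s Z (2 - j/M) j` is open (union of balls);
  for `x ∈ Dm`, `x ∈ ball z (2 s z)`, `‖z‖ < r2/2`, `z ≠ 0`: `x ≠ 0`, `‖x‖ < ‖z‖ + 2 ε ‖z‖ ≤ r2` (`ε ≤ 1/10`). `gstep` with `Z j` and `τ`. Finally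
  `domJ s Z (2 - (j+1)/M) (j+1) ⊆ newD s Dm (Z j) τ` and `St.mono`: let `x ∈ ball z (a_{j+1} s z)`, `z ∈ Z i`, `i ≤ j`. If `i = j`: `x ∈ ball z (2 s z)`.
  If `i < j`: `s x ≤ 2 s z` (`Env.near`, `a = 2`), `2 τ s x ≤ 4 τ s z = s z / M`, so `closedBall x (2 τ s x) ⊆ ball z (a_j s z) ⊆ Dm`. `e0 = min (e0 of gstep) (e0 of j) (1/10)`.
-/

open Filter Topology Metric Set

namespace H80.LD

theorem gstep {E : Type*} [NormedAddCommGroup E] {D : Type} [Fintype D] (hExt : ExtStmt D)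
    (L C R τ Λ c : ℝ) (hL : 1 ≤ L) (hC : 1 ≤ C) (hR : R = L * (C * (4 * C + 1)) + 2) (hτ : 0 < τ)
    (hτ1 : τ ≤ 1) (hΛ : 1 ≤ Λ) (hc : 1 ≤ c) :
    ∃ Λ' c' e0 : ℝ, 1 ≤ Λ' ∧ 1 ≤ c' ∧ 0 < e0 ∧ ∀ ε : ℝ, ε ≤ e0 →
      ∀ (f g : E → ℂ) (A B : E → E) (s : E → ℝ) (r r2 : ℝ), Env A B s L ε r →
      8 * L ^ 2 * r2 ≤ r → (∀ z : E, z ≠ 0 → ‖z‖ < r2 →
        ∃ (h h' : E → E) (Ψ : E → ℂ × (D → ℝ)) (Ψ' : ℂ × (D → ℝ) → E),
          Loc f g A B s L C R ε z h h' Ψ Ψ') → ∀ Dm : Set E, IsOpen Dm →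
      (∀ x ∈ Dm, x ≠ 0 ∧ ‖x‖ < r2) → ∀ G H : E → E, St f g A B s r Dm (c * ε) Λ G H →
      ∀ Z : Set E, (∀ z ∈ Z, z ≠ 0 ∧ ‖z‖ < r2) →
      (∀ z ∈ Z, ∀ z' ∈ Z, z ≠ z' → 6 * max (s z) (s z') ≤ ‖z - z'‖) →
      ∃ G' H' : E → E, St f g A B s r (newD s Dm Z τ) (c' * ε) Λ' G' H' := by
  obtain ⟨Λ1, c1, e1, hΛ1, hc1, he1, key⟩ := gloc (E := E) hExt L C R τ Λ c hL hC hR hτ hτ1 hΛ hc
  have hcc : 1 ≤ max c (2 * c1) := hc.trans (le_max_left _ _)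
  have hpos : 0 < 10 * (L * max c (2 * c1) + 1) := by
    have h1 : 0 ≤ L * max c (2 * c1) := mul_nonneg (by linarith) (by linarith)
    linarith
  refine ⟨max Λ Λ1, max c (2 * c1), min e1 (1 / (10 * (L * max c (2 * c1) + 1))),
    hΛ.trans (le_max_left _ _), hcc, lt_min he1 (one_div_pos.2 hpos), ?_⟩
  intro ε hε f g A B s r r2 env h8 hloc Dm hDo hD G H hSt Z hZ hsep
  have hε0 := env.hε
  have hεe1 : ε ≤ e1 := hε.trans (min_le_left _ _)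
  have hε2 : ε ≤ 1 / (10 * (L * max c (2 * c1) + 1)) := hε.trans (min_le_right _ _)
  have hout : ∀ z : E, ∃ g1 k1 : E → E, z ∈ Z →
      LocOut f g A B s r z Dm τ (c1 * ε) Λ1 G H g1 k1 := by
    intro z
    by_cases hz : z ∈ Z
    · obtain ⟨hz0, hz2⟩ := hZ z hz
      obtain ⟨h, h', Ψ, Ψ', hl⟩ := hloc z hz0 hz2
      obtain ⟨g1, k1, h1⟩ := key ε hεe1 f g A B s r r2 env h8 z hz0 hz2 h h' Ψ Ψ' hl Dm hDo hD
        G H hSt
      exact ⟨g1, k1, fun _ => h1⟩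
    · exact ⟨id, id, fun h => absurd h hz⟩
  choose g1 k1 hgk using hout
  have hmax : max (c * ε) (2 * (c1 * ε)) = max c (2 * c1) * ε := by
    rw [max_mul_of_nonneg _ _ hε0.le, mul_assoc]
  have hsm : L * max (c * ε) (2 * (c1 * ε)) + ε ≤ 1 / 10 := by
    rw [hmax]
    have h1 : (10 * (L * max c (2 * c1) + 1)) * ε ≤ 1 := by
      have h2 := mul_le_mul_of_nonneg_left hε2 hpos.le
      rwa [mul_one_div_cancel hpos.ne'] at h2
    have h3 : (10 * (L * max c (2 * c1) + 1)) * ε = 10 * (L * (max c (2 * c1) * ε) + ε) := by ring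
    rw [h3] at h1
    linarith
  obtain ⟨G', H', h1⟩ := gglue env h8 hτ hτ1 (mul_pos (by linarith) hε0)
    (mul_pos (by linarith) hε0) hsm hD hSt hZ hsep g1 k1 (fun z hz => hgk z hz)
  rw [hmax] at h1
  exact ⟨G', H', h1⟩

theorem ginduct {E : Type*} [NormedAddCommGroup E] {D : Type} [Fintype D] (hExt : ExtStmt D)
    (L C R : ℝ) (hL : 1 ≤ L) (hC : 1 ≤ C) (hR : R = L * (C * (4 * C + 1)) + 2) (M : ℕ)
    (hM : 0 < M) (j : ℕ) (hj : j ≤ M) :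
    ∃ Λ c e0 : ℝ, 1 ≤ Λ ∧ 1 ≤ c ∧ 0 < e0 ∧ ∀ ε : ℝ, ε ≤ e0 →
      ∀ (f g : E → ℂ) (A B : E → E) (s : E → ℝ) (r r2 : ℝ) (Z : ℕ → Set E),
      Sys D f g A B s L C R ε r r2 Z →
      ∃ G H : E → E, St f g A B s r (domJ s Z (2 - (j : ℝ) / (M : ℝ)) j) (c * ε) Λ G H := by
  induction j with
  | zero =>
    refine ⟨1, 1, 1, le_rfl, le_rfl, one_pos, ?_⟩
    intro ε _ f g A B s r r2 Z _
    have hno : ∀ x, x ∉ domJ s Z (2 - ((0 : ℕ) : ℝ) / (M : ℝ)) 0 := by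
      rintro x ⟨i, hi, -⟩
      omega
    exact ⟨id, id,
      { s1 := fun x hx => absurd hx (hno x)
        s1d := fun x hx => absurd hx (hno x)
        s1l := fun x hx => absurd hx (hno x)
        s2 := fun y _ hx => absurd hx (hno _)
        s2d := fun y _ hx => absurd hx (hno _)
        s2l := fun y _ hx => absurd hx (hno _)
        s3 := fun x hx => absurd hx (hno x)
        s3' := fun y _ hx => absurd hx (hno _) }⟩
  | succ j ih =>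
    obtain ⟨Λ, c, e0, hΛ, hc, he0, key⟩ := ih (by omega)
    have hMr : (0 : ℝ) < (M : ℝ) := by exact_mod_cast hM
    have hM1 : (1 : ℝ) ≤ (M : ℝ) := by exact_mod_cast hM
    have hτ : (0 : ℝ) < 1 / (4 * (M : ℝ)) := by positivity
    have hτ1 : 1 / (4 * (M : ℝ)) ≤ 1 := by
      rw [div_le_one (by positivity)]
      linarith
    obtain ⟨Λ1, c1, e1, hΛ1, hc1, he1, key1⟩ := gstep (E := E) hExt L C R (1 / (4 * (M : ℝ))) Λ c
      hL hC hR hτ hτ1 hΛ hc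
    refine ⟨Λ1, c1, min (min e0 e1) (1 / 10), hΛ1, hc1,
      lt_min (lt_min he0 he1) (by norm_num), ?_⟩
    intro ε hε f g A B s r r2 Z sys
    have hεe0 : ε ≤ e0 := hε.trans ((min_le_left _ _).trans (min_le_left _ _))
    have hεe1 : ε ≤ e1 := hε.trans ((min_le_left _ _).trans (min_le_right _ _))
    have hε10 : ε ≤ 1 / 10 := hε.trans (min_le_right _ _)
    have hr2 := sys.hr2
    obtain ⟨G, H, hSt⟩ := key ε hεe0 f g A B s r r2 Z sys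
    have ha0 : 0 ≤ (j : ℝ) / (M : ℝ) := by positivity
    have hstep : ((j + 1 : ℕ) : ℝ) / (M : ℝ) = (j : ℝ) / (M : ℝ) + 1 / (M : ℝ) := by
      push_cast
      ring
    have hstep0 : 0 < 1 / (M : ℝ) := by positivity
    -- a point in one of the balls
    have hnear : ∀ i, ∀ z ∈ Z i, ∀ x, dist x z < 2 * s z → x ≠ 0 ∧ ‖x‖ < 2 * r2 ∧
        x ∈ ball (0 : E) r ∧ s x ≤ 2 * s z ∧ s z ≤ 2 * s x ∧ 0 < s x ∧ 0 < s z ∧
        z ∈ ball (0 : E) r := by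
      intro i z hz x hx
      obtain ⟨hz0, hz2⟩ := sys.cen i z hz
      rw [dist_eq_norm] at hx
      exact sys.env.near sys.h8 hz0 (by linarith) (a := 2) (by linarith) hx.le
    have hspos : ∀ i, ∀ z ∈ Z i, 0 < s z := by
      intro i z hz
      obtain ⟨hz0, hz2⟩ := sys.cen i z hz
      have h1 := norm_pos_iff.2 hz0
      have hL2 : 1 ≤ L ^ 2 := by nlinarith
      refine sys.env.spos z ?_ hz0
      rw [mem_ball_zero_iff]
      have := sys.h8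
      nlinarith
    have hDo : IsOpen (domJ s Z (2 - (j : ℝ) / (M : ℝ)) j) := by
      rw [isOpen_iff_mem_nhds]
      rintro x ⟨i, hi, z, hz, hx⟩
      exact Filter.mem_of_superset (isOpen_ball.mem_nhds hx) fun y hy => ⟨i, hi, z, hz, hy⟩
    have hD : ∀ x ∈ domJ s Z (2 - (j : ℝ) / (M : ℝ)) j, x ≠ 0 ∧ ‖x‖ < r2 := by
      rintro x ⟨i, hi, z, hz, hx⟩
      obtain ⟨hz0, hz2⟩ := sys.cen i z hz
      have hs := hspos i z hz
      rw [mem_ball] at hx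
      have h1 : dist x z < 2 * s z := by
        refine hx.trans_le (mul_le_mul_of_nonneg_right (by linarith) hs.le)
      obtain ⟨h2, -, -, -, -, -, -, h3⟩ := hnear i z hz x h1
      refine ⟨h2, ?_⟩
      rw [dist_eq_norm] at h1
      have h4 := sys.env.ssmall z h3
      have h5 : ‖x‖ ≤ ‖x - z‖ + ‖z‖ := by
        calc ‖x‖ = ‖(x - z) + z‖ := by rw [sub_add_cancel]
          _ ≤ _ := norm_add_le _ _
      have h6 : ε * ‖z‖ ≤ 1 / 10 * ‖z‖ := mul_le_mul_of_nonneg_right hε10 (norm_nonneg _)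
      have h7 := norm_nonneg z
      linarith
    obtain ⟨G', H', hSt'⟩ := key1 ε hεe1 f g A B s r r2 sys.env sys.h8 sys.loc
      (domJ s Z (2 - (j : ℝ) / (M : ℝ)) j) hDo hD G H hSt (Z j)
      (fun z hz => ⟨(sys.cen j z hz).1, by linarith [(sys.cen j z hz).2]⟩) (sys.sep j)
    refine ⟨G', H', hSt'.mono ?_⟩
    rintro x ⟨i, hi, z, hz, hx⟩
    have hs := hspos i z hz
    rw [mem_ball, hstep] at hx
    have h1 : dist x z < 2 * s z := by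
      refine hx.trans_le (mul_le_mul_of_nonneg_right (by linarith) hs.le)
    rcases Nat.lt_succ_iff_lt_or_eq.1 hi with h2 | h2
    · left
      obtain ⟨-, -, -, h3, -, h4, -, -⟩ := hnear i z hz x h1
      constructor
      · refine ⟨i, h2, z, hz, ?_⟩
        rw [mem_ball]
        refine hx.trans_le (mul_le_mul_of_nonneg_right (by linarith) hs.le)
      · intro y hy
        rw [mem_closedBall] at hy
        refine ⟨i, h2, z, hz, ?_⟩
        rw [mem_ball]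
        have h5 : 2 * (1 / (4 * (M : ℝ))) * s x ≤ 1 / (M : ℝ) * s z := by
          have e : 2 * (1 / (4 * (M : ℝ))) * s x = 1 / (M : ℝ) * (s x / 2) := by
            field_simp
            ring
          rw [e]
          exact mul_le_mul_of_nonneg_left (by linarith) hstep0.le
        calc dist y z ≤ dist y x + dist x z := dist_triangle _ _ _
          _ < 1 / (M : ℝ) * s z + (2 - ((j : ℝ) / (M : ℝ) + 1 / (M : ℝ))) * s z :=
              add_lt_add_of_le_of_lt (hy.trans h5) hx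
          _ = (2 - (j : ℝ) / (M : ℝ)) * s z := by ring
    · right
      subst h2
      exact Set.mem_biUnion hz (by rw [mem_ball]; exact h1)

end H80.LD

end S_H80_LD_GInd
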