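import Mathlib
import Pool.Agent.H24.LS.A0
import Pool.Agent.H24.LS.Base
import Pool.Agent.H80.LM.G01
import Pool.Agent.H80.LM.G12
import Pool.Agent.H80.LM.G18
import Pool.Agent.H80.LM.G20
import Pool.Agent.H80.LM.G21
import Pool.Agent.H80.LM.G22
import Pool.Agent.H80.LM.G23

/-! MP_816883_ag: this file joins several modules (see the folders H80/LD, H24/LS) to save build time. -/

section S_H80_LD_GMain

/-!
# GMain (project MP_816883_LD, blocks 8-9): assembly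

`C` from `chart m`, `M` from `cover (m+1)`, `L` from the coarse equivalence, `R = L (C (4 C + 1)) + 2`, `Λ, c, e0` from `ginduct` with `j = M`. `ε = min e0 (min (1/1000) (1 / (4 (L c + 1))))`.
`approx` with `R`, `ε` gives `K0`; `K = max K0 (2 L^2 / ε)`, `w = ε / K`; `cr_exists` gives `r` with `CR f g A B L w r`; `s x = K ‖f'(x)‖`.
`Env A B s L ε r`: `spos` from `rf.pos`, `slip` from `rf.lip` (`|‖a‖ - ‖b‖| ≤ ‖a - b‖`, `K w = ε`), `ssmall` from `rf.small`, `BA`: `L ‖f'‖ = (L/K) s ≤ ε s`, `AB`: `2 L^2 ‖f'(B y)‖ ≤ ε s (B y)`.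
`r2` = minimum of the `r0` of `approx`, the `r0` of `chart` (with `R`, `K`) and `r / (8 L^2)`. `Loc` at `z`, `0 < ‖z‖ < r2`: from `approx` and `chart`; `c1`: `(Ψ x).1 = (f x - f z)/q` with the same
`q ≠ 0` for all `x ∈ ball z (R s z)`. `Z` from `cover` on `ball 0 r2`. So `Sys`; `ginduct` (`2 - M/M = 1`) and `gfin` with `r3 = r2/4`, `ε1 = c ε`.
-/

open Filter Topology Metric Set H24.LS

namespace H80.LD

theorem gmain (m : ℕ) (hExt : ExtStmt (Fin (2 * m))) (f g : (Fin (m + 1) → ℂ) → ℂ) (hf : Grm f)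
    (hg : Grm g) (f2 : fderiv ℂ (fderiv ℂ f) 0 = 0) (g2 : fderiv ℂ (fderiv ℂ g) 0 = 0)
    {A B : (Fin (m + 1) → ℂ) → (Fin (m + 1) → ℂ)} {L ρ : ℝ} (hco : Coarse f g A B L ρ) :
    LipEquiv f g := by
  obtain ⟨C, hC1, hchart⟩ := chart m
  obtain ⟨M, hM, hcover⟩ := cover (m + 1)
  have hL : 1 ≤ L := hco.hL
  have hL0 : 0 < L := by linarith
  have hC0 : 0 < C := by linarith
  obtain ⟨R, hRd⟩ : ∃ R : ℝ, R = L * (C * (4 * C + 1)) + 2 := ⟨_, rfl⟩
  have hR1 : 1 ≤ R := by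
    have : 0 ≤ L * (C * (4 * C + 1)) := by positivity
    rw [hRd]; linarith
  obtain ⟨Λ, c, e0, hΛ, hc, he0, hind⟩ := ginduct (E := Fin (m + 1) → ℂ) (D := Fin (2 * m)) hExt L C R hL
    hC1 hRd M hM M le_rfl
  have hc0 : 0 < c := by linarith
  obtain ⟨ε, hεd⟩ : ∃ ε : ℝ, ε = min e0 (min (1 / 1000) (1 / (4 * (L * c + 1)))) := ⟨_, rfl⟩
  have hε0 : 0 < ε := by rw [hεd]; positivity
  have hε1 : ε ≤ e0 := by rw [hεd]; exact min_le_left _ _
  have hε2 : ε ≤ 1 / 1000 := by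
    rw [hεd]; exact (min_le_right _ _).trans (min_le_left _ _)
  have hε3 : ε ≤ 1 / (4 * (L * c + 1)) := by
    rw [hεd]; exact (min_le_right _ _).trans (min_le_right _ _)
  obtain ⟨K0, hK0, happ⟩ := approx hf hg f2 g2 hco R ε hR1 hε0
  obtain ⟨K, hKd⟩ : ∃ K : ℝ, K = max K0 (2 * L ^ 2 / ε) := ⟨_, rfl⟩
  have hKK0 : K0 ≤ K := by rw [hKd]; exact le_max_left _ _
  have hKε : 2 * L ^ 2 ≤ ε * K := by
    have : 2 * L ^ 2 / ε ≤ K := by rw [hKd]; exact le_max_right _ _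
    rw [div_le_iff₀ hε0] at this
    linarith
  have hKpos : 0 < K := by linarith
  obtain ⟨w, hwd⟩ : ∃ w : ℝ, w = ε / K := ⟨_, rfl⟩
  have hw0 : 0 < w := by rw [hwd]; positivity
  have hKw : K * w = ε := by rw [hwd]; field_simp
  obtain ⟨r, hcr⟩ := cr_exists hf hg f2 g2 hco hw0
  have hr0 : 0 < r := hcr.rf.hr
  obtain ⟨ra, hra, happ'⟩ := happ K hKK0
  obtain ⟨rc, hrc, hch⟩ := hchart f hf f2 R K (by linarith) hKpos
  obtain ⟨s, hsd⟩ : ∃ s : (Fin (m + 1) → ℂ) → ℝ, s = fun x => K * ‖fderiv ℂ f x‖ := ⟨_, rfl⟩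
  have hsx : ∀ x, s x = K * ‖fderiv ℂ f x‖ := fun x => by rw [hsd]
  have env : Env A B s L ε r :=
    { hL := hL
      hε := hε0
      hr := hr0
      A0 := hcr.A0
      B0 := hcr.B0
      spos := fun x hx hne => by
        rw [hsx]; exact mul_pos hKpos (hcr.rf.pos x hx hne)
      slip := fun x hx y hy => by
        rw [hsx, hsx, ← mul_sub, abs_mul, abs_of_pos hKpos, ← hKw, mul_assoc]
        exact mul_le_mul_of_nonneg_left ((abs_norm_sub_norm_le _ _).trans (hcr.rf.lip x hx y hy))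
          hKpos.le
      ssmall := fun x hx => by
        rw [hsx, ← hKw, mul_assoc]
        exact mul_le_mul_of_nonneg_left (hcr.rf.small x hx) hKpos.le
      lipA := hcr.lipA
      lipB := hcr.lipB
      BA := fun x hx => by
        have h1 := hcr.BA x hx
        have h2 : L * ‖fderiv ℂ f x‖ ≤ (ε * K) * ‖fderiv ℂ f x‖ := by
          refine mul_le_mul_of_nonneg_right ?_ (norm_nonneg _)
          nlinarith
        rw [hsx, ← mul_assoc]
        exact h1.trans h2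
      AB := fun y hy => by
        have h1 := hcr.AB y hy
        have h2 : 2 * L ^ 2 * ‖fderiv ℂ f (B y)‖ ≤ (ε * K) * ‖fderiv ℂ f (B y)‖ :=
          mul_le_mul_of_nonneg_right hKε (norm_nonneg _)
        rw [hsx, ← mul_assoc]
        exact h1.trans h2
      nB := hcr.nB }
  obtain ⟨r2, hr2d⟩ : ∃ r2 : ℝ, r2 = min (min ra rc) (r / (8 * L ^ 2)) := ⟨_, rfl⟩
  have hr20 : 0 < r2 := by rw [hr2d]; positivity
  have hr2a : r2 ≤ ra := by rw [hr2d]; exact (min_le_left _ _).trans (min_le_left _ _)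
  have hr2c : r2 ≤ rc := by rw [hr2d]; exact (min_le_left _ _).trans (min_le_right _ _)
  have h8 : 8 * L ^ 2 * r2 ≤ r := by
    have h1 : r2 ≤ r / (8 * L ^ 2) := by rw [hr2d]; exact min_le_right _ _
    rw [le_div_iff₀ (by positivity)] at h1
    linarith
  have hr2r : r2 ≤ r := by
    have : 1 ≤ L ^ 2 := by nlinarith
    nlinarith
  have hbr : ball (0 : Fin (m + 1) → ℂ) r2 ⊆ ball 0 r := ball_subset_ball hr2r
  have hloc : ∀ z : Fin (m + 1) → ℂ, z ≠ 0 → ‖z‖ < r2 →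
      ∃ (h h' : (Fin (m + 1) → ℂ) → (Fin (m + 1) → ℂ)) (Ψ : (Fin (m + 1) → ℂ) → ℂ × (Fin (2 * m) → ℝ))
        (Ψ' : ℂ × (Fin (2 * m) → ℝ) → (Fin (m + 1) → ℂ)), Loc f g A B s L C R ε z h h' Ψ Ψ' := by
    intro z hz hz2
    obtain ⟨h, h', a1, a2, a3, a4, a5, a6⟩ := happ' z hz (hz2.trans_le hr2a)
    obtain ⟨Ψ, Ψ', b1, b2, b3, b4, b5, b6⟩ := hch z hz (hz2.trans_le hr2c)
    have hzr : z ∈ ball (0 : Fin (m + 1) → ℂ) r := hbr (by rwa [mem_ball_zero_iff])
    have hκ : 0 < ‖fderiv ℂ f z‖ := hcr.rf.pos z hzr hz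
    refine ⟨h, h', Ψ, Ψ', ?_⟩
    refine
      { hlip := a1
        hlip' := a2
        inv := a3
        inv' := a4
        fh := fun x hx => (a5 x (by rwa [hsx] at hx)).1
        fhA := fun x hx => by
          rw [hsx] at hx ⊢
          exact (a5 x hx).2
        gh := fun x hx => (a6 x (by rwa [hsx] at hx)).1
        ghB := fun x hx => by
          rw [hsx] at hx ⊢
          exact (a6 x hx).2
        clip := fun x y => by
          rw [hsx]; exact b1 x y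
        clip' := fun x y => by
          rw [hsx]; exact b2 x y
        cinv := b3
        cinv' := b4
        c0 := b5
        c1 := ?_ }
    intro x hx y hy
    rw [hsx] at hx hy
    rw [b6 x hx, b6 y hy]
    have hq : (((K * ‖fderiv ℂ f z‖ : ℝ) : ℂ) * ((‖fderiv ℂ f z‖ : ℝ) : ℂ)) ≠ 0 := by
      refine mul_ne_zero ?_ ?_
      · exact_mod_cast (mul_pos hKpos hκ).ne'
      · exact_mod_cast hκ.ne'
    rw [div_left_inj' hq, sub_left_inj]
  obtain ⟨Z, hZ1, hZ2, hZ3⟩ := hcover s r2 ε hr20 hε0 hε2 (fun x hx => env.spos x (hbr hx))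
    (fun x hx y hy => env.slip x (hbr hx) y (hbr hy)) (fun x hx => env.ssmall x (hbr hx))
  have sys : Sys (Fin (2 * m)) f g A B s L C R ε r r2 Z :=
    { env := env
      hr2 := hr20
      h8 := h8
      loc := hloc
      cen := hZ1
      sep := hZ2 }
  obtain ⟨G, H, hSt⟩ := hind ε hε1 f g A B s r r2 Z sys
  have hMM : (2 : ℝ) - (M : ℝ) / (M : ℝ) = 1 := by
    have : (M : ℝ) ≠ 0 := by exact_mod_cast hM.ne'
    rw [div_self this]; norm_num
  rw [hMM] at hSt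
  refine gfin (r3 := r2 / 4) env hSt (by linarith) (by linarith) ?_ hf.f0 hg.f0 (mul_pos hc0 hε0) ?_
  · intro x hx hx2
    obtain ⟨i, hi, z, hz, hxz⟩ := hZ3 x hx hx2
    exact ⟨i, hi, z, hz, hxz⟩
  · rw [le_div_iff₀ (by positivity)] at hε3
    have h1 : 0 < L * c + 1 := by positivity
    have h2 : (L * (c * ε) + ε) * ε = (ε * (L * c + 1)) * ε := by ring
    have h3 : ε * (L * c + 1) ≤ 1 / 4 := by linarith
    have h4 : (ε * (L * c + 1)) * ε ≤ 1 / 4 * ε := mul_le_mul_of_nonneg_right h3 hε0.le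
    rw [h2]
    linarith

end H80.LD

end S_H80_LD_GMain

section S_H80_LD_GThm

/-!
# GThm (project MP_816883_LD, blocks 8-9): the Lipschitz splitting lemma, all `n` and `m` (assembly; proved here from `ExtStmt`)
-/

open Filter Topology Metric H24.LS

namespace H80.LD

theorem gthm_hess {E E' : Type*} [NormedAddCommGroup E] [NormedSpace ℂ E]
    [FiniteDimensional ℂ E] [NormedAddCommGroup E'] [NormedSpace ℂ E'] [FiniteDimensional ℂ E']
    (f : E' → ℂ) (hf : AnalyticAt ℂ f 0) (e : E ≃L[ℂ] E') (h : fderiv ℂ (fderiv ℂ f) 0 = 0) :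
    fderiv ℂ (fderiv ℂ (fun x => f (e x))) 0 = 0 := by
  ext u v
  rw [hess_comp f hf e u v, h]
  simp

theorem gthm_core (hE : ∀ m : ℕ, 1 ≤ m → ExtStmt (Fin (2 * m))) (c : ℕ)
    (f g : (Fin c → ℂ) → ℂ) (hf : Grm f) (hg : Grm g) (f2 : fderiv ℂ (fderiv ℂ f) 0 = 0)
    (g2 : fderiv ℂ (fderiv ℂ g) 0 = 0) {A B : (Fin c → ℂ) → (Fin c → ℂ)} {L ρ : ℝ}
    (h : Coarse f g A B L ρ) : LipEquiv f g := by
  obtain hc | hc | hc : c = 0 ∨ c = 1 ∨ 2 ≤ c := by omega
  · subst hc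
    refine lip_congr (Eventually.of_forall fun x => ?_)
    have hx : x = 0 := Subsingleton.elim _ _
    rw [hx, hf.f0, hg.f0]
  · subst hc
    let e : ℂ ≃L[ℂ] (Fin 1 → ℂ) := (ContinuousLinearEquiv.funUnique (Fin 1) ℂ ℂ).symm
    obtain ⟨L', ρ', h'⟩ := coarse_equiv h e e
    exact lipEquiv_of_equiv e e (one_dim _ _ (grm_comp f hf e).1 (grm_comp g hg e).1
      (gthm_hess f hf.an e f2) (gthm_hess g hg.an e g2) h')
  · obtain ⟨m, rfl⟩ : ∃ m, c = m + 1 := ⟨c - 1, by omega⟩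
    exact gmain m (hE m (by omega)) f g hf hg f2 g2 h

theorem lip_split (hE : ∀ m : ℕ, 1 ≤ m → ExtStmt (Fin (2 * m))) (n m : ℕ)
    (f g : (Fin n → ℂ) → ℂ) (hf : Grm f) (hg : Grm g)
    (h : LipEquiv (stb m f) (stb m g)) : LipEquiv f g := by
  obtain ⟨c, d, f1, hcd, hc, gf1, f12, ef⟩ := split_full n f hf
  obtain ⟨c', d', g1, hcd', hc', gg1, g12, eg⟩ := split_full n g hg
  have h1 : LipEquiv (stb (d + m) f1) (stb (d' + m) g1) := by
    have a1 := lip_trans (lip_stb ef m) (lip_stb_stb f1 d m)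
    have a2 := lip_trans (lip_stb eg m) (lip_stb_stb g1 d' m)
    exact lip_trans (lip_symm a1) (lip_trans h a2)
  obtain ⟨A, B, L, ρ, hco⟩ := coarse_of_stable f1 g1 gf1.an gg1.an _ _ h1
  have hcc := corank_eq f1 g1 gf1.an gg1.an gf1.f1 gg1.f1 f12 g12 hco
  subst hcc
  obtain rfl : d = d' := by omega
  have h2 : LipEquiv f1 g1 := gthm_core hE c f1 g1 gf1 gg1 f12 g12 hco
  exact lip_trans ef (lip_trans (lip_stb h2 d) (lip_symm eg))

end H80.LD

end S_H80_LD_GThm
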